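import Pool.Agent.Helper345_Quot.Main
import Mathlib.RingTheory.NoetherNormalization
import Mathlib.RingTheory.KrullDimension.Polynomial
import Mathlib.RingTheory.KrullDimension.Module
import Mathlib.RingTheory.KrullDimension.Field
import Mathlib.RingTheory.Ideal.HasGoingUp

/-!
The affine theorem: modules with support of dimension at most one over finitely generated algebras.
-/

noncomputable section

namespace Pool.Agent.Helper345_Quot

open Polynomial

theorem krullDim_le_of_integral {A B : Type*} [CommRing A] [CommRing B] (f : A →+* B)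
    (hf : f.IsIntegral) (hi : Function.Injective f) : ringKrullDim A ≤ ringKrullDim B := by
  let _ := f.toAlgebra
  have : Algebra.IsIntegral A B := ⟨hf⟩
  unfold ringKrullDim Order.krullDim
  apply iSup_le
  intro l
  obtain ⟨P, -, hP, hPl⟩ := Ideal.exists_ideal_over_prime_of_isIntegral l.head.asIdeal (⊥ : Ideal B)
    (by
      intro x hx
      have h1 : f x = 0 := hx
      have h2 : x = 0 := hi (h1.trans (map_zero f).symm)
      rw [h2]; exact Ideal.zero_mem _)
  have hlo : P.LiesOver l.head.asIdeal := ⟨hPl.symm⟩
  obtain ⟨L, hL, -⟩ := Ideal.exists_ltSeries_of_hasGoingUp (S := B) l P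
  rw [← hL]
  exact le_iSup (fun L : LTSeries (PrimeSpectrum B) => (L.length : WithBot ℕ∞)) L

variable {k : Type*} [Field k] {R : Type*} [CommRing R] [Algebra k R] {G : Type*}
  [AddCommGroup G] [Module R G]

/-- Noether normalisation for modules with support of dimension at most one -/
theorem exists_norm [Algebra.FiniteType k R] [Module.Finite R G]
    (hdim : Module.supportDim R G ≤ 1) :
    ∃ (z : R) (m : ℕ) (h : Fin m → G), ∀ g : G, ∃ c : Fin m → k[X],
      g = ∑ i, aeval z (c i) • h i := by
  classical
  by_cases hG : Subsingleton G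
  · exact ⟨0, 0, fun i => i.elim0, fun g => ⟨fun i => i.elim0, Subsingleton.elim _ _⟩⟩
  · have hG' : Nontrivial G := not_subsingleton_iff_nontrivial.1 hG
    let A := R ⧸ Module.annihilator R G
    have hA : Nontrivial A := by
      apply Ideal.Quotient.nontrivial_iff.2
      intro h
      apply hG
      refine ⟨fun a b => ?_⟩
      have h1 : (1 : R) ∈ Module.annihilator R G := by rw [h]; trivial
      rw [Module.mem_annihilator] at h1
      have ha := h1 a
      have hb := h1 b
      rw [one_smul] at ha hb
      rw [ha, hb]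
    have hdimA : ringKrullDim A ≤ 1 := by
      rw [← Module.supportDim_eq_ringKrullDim_quotient_annihilator]
      exact hdim
    obtain ⟨s, g, hinj, hfin⟩ := exists_finite_inj_algHom_of_fg k A
    have hs : s ≤ 1 := by
      have h1 := krullDim_le_of_integral g.toRingHom (RingHom.Finite.to_isIntegral hfin) hinj
      rw [MvPolynomial.ringKrullDim_of_isNoetherianRing, ringKrullDim_eq_zero_of_field,
        zero_add, Nat.card_eq_fintype_card, Fintype.card_fin] at h1
      have h2 := h1.trans hdimA
      exact_mod_cast h2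
    let zA : A := if h : 0 < s then g (MvPolynomial.X ⟨0, h⟩) else 0
    have hzA : ∀ i : Fin s, g (MvPolynomial.X i) = zA := by
      intro i
      have h0 : 0 < s := i.pos
      simp only [zA, h0, dif_pos]
      congr 2
      ext
      have := i.2
      simp only
      omega
    have hpoly : ∀ p : MvPolynomial (Fin s) k, ∃ q : k[X], g p = aeval zA q := by
      intro p
      refine ⟨MvPolynomial.aeval (fun _ => X) p, ?_⟩
      have h1 : g = (aeval zA : k[X] →ₐ[k] A).comp (MvPolynomial.aeval (fun _ => X)) := by
        apply MvPolynomial.algHom_ext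
        intro i
        simp [hzA]
      exact congrArg (fun φ : MvPolynomial (Fin s) k →ₐ[k] A => φ p) h1
    obtain ⟨z, hz⟩ := Ideal.Quotient.mk_surjective (I := Module.annihilator R G) zA
    have hmk : ∀ q : k[X], Ideal.Quotient.mk (Module.annihilator R G) (aeval z q) = aeval zA q := by
      intro q
      have h1 : aeval zA q = aeval (Ideal.Quotient.mkₐ k (Module.annihilator R G) z) q := by
        congr 1
        rw [← hz]; rfl
      rw [h1, aeval_algHom_apply]
      rfl
    let _ : Algebra (MvPolynomial (Fin s) k) A := g.toRingHom.toAlgebra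
    have hfin' : Module.Finite (MvPolynomial (Fin s) k) A := hfin
    obtain ⟨d, a, ha⟩ := (Module.Finite.exists_fin (R := MvPolynomial (Fin s) k) (M := A))
    obtain ⟨e, u, hu⟩ := (Module.Finite.exists_fin (R := R) (M := G))
    have hb : ∀ j, ∃ b : R, Ideal.Quotient.mk (Module.annihilator R G) b = a j := fun j =>
      Ideal.Quotient.mk_surjective _
    choose b hb using hb
    have hA' : ∀ x : R, ∃ c : Fin d → k[X], ∀ v : G, x • v = ∑ j, aeval z (c j) • b j • v := by
      intro x
      have h1 : Ideal.Quotient.mk (Module.annihilator R G) x ∈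
          Submodule.span (MvPolynomial (Fin s) k) (Set.range a) := by rw [ha]; trivial
      rw [Submodule.mem_span_range_iff_exists_fun] at h1
      obtain ⟨c, hc⟩ := h1
      choose q hq using fun j => hpoly (c j)
      refine ⟨q, fun v => ?_⟩
      have h2 : Ideal.Quotient.mk (Module.annihilator R G) (x - ∑ j, aeval z (q j) * b j) = 0 := by
        rw [map_sub, map_sum, ← hc, sub_eq_zero]
        apply Finset.sum_congr rfl
        intro j _
        rw [map_mul, hmk, hb, ← hq]
        rfl
      rw [Ideal.Quotient.eq_zero_iff_mem, Module.mem_annihilator] at h2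
      have h3 := h2 v
      rw [sub_smul, Finset.sum_smul, sub_eq_zero] at h3
      rw [h3]
      apply Finset.sum_congr rfl
      intro j _
      rw [mul_smul]
    let en := finProdFinEquiv (m := e) (n := d)
    refine ⟨z, e * d, fun i => b (en.symm i).2 • u (en.symm i).1, fun v => ?_⟩
    have h1 : v ∈ Submodule.span R (Set.range u) := by rw [hu]; trivial
    rw [Submodule.mem_span_range_iff_exists_fun] at h1
    obtain ⟨x, hx⟩ := h1
    choose c hc using fun i => hA' (x i)
    refine ⟨fun i => c (en.symm i).1 (en.symm i).2, ?_⟩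
    rw [Equiv.sum_comp en.symm (fun p => aeval z (c p.1 p.2) • b p.2 • u p.1),
      Fintype.sum_prod_type, ← hx]
    apply Finset.sum_congr rfl
    intro i _
    exact hc i (u i)

/-- transfer of parametrisations -/
def Param.transfer {R₁ G₁ R₂ G₂ : Type*} [Ring R₁] [AddCommGroup G₁] [Module R₁ G₁] [Module k G₁]
    [Ring R₂] [AddCommGroup G₂] [Module R₂ G₂] [Module k G₂] {Q₁ : Set (Submodule R₁ G₁)}
    {Q₂ : Set (Submodule R₂ G₂)} (P : Param k R₂ G₂ Q₂) (π : G₁ →ₗ[k] G₂)
    (Φ : Submodule R₂ G₂ → Submodule R₁ G₁) (hΦ : ∀ N v, v ∈ Φ N ↔ π v ∈ N)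
    (hb : Set.BijOn Φ Q₂ Q₁) : Param k R₁ G₁ Q₁ where
  κ := P.κ
  fin := P.fin
  S := P.S
  φ := fun x => Φ (P.φ x)
  bij := hb.comp P.bij
  dfn := by
    intro m g
    have h := P.dfn m (fun j => π (g j))
    have h1 : {z : P.κ ⊕ Fin m → k | z ∘ Sum.inl ∈ P.S ∧
        ∑ j, z (Sum.inr j) • g j ∈ Φ (P.φ (z ∘ Sum.inl))} =
        {z : P.κ ⊕ Fin m → k | z ∘ Sum.inl ∈ P.S ∧
        ∑ j, z (Sum.inr j) • π (g j) ∈ P.φ (z ∘ Sum.inl)} := by
      ext z
      rw [Set.mem_ofPred_eq, Set.mem_ofPred_eq, hΦ, map_sum]
      simp only [map_smul]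
    rw [h1]
    exact h

variable (k R G) in
/-- The set of submodules of codimension `n` (dimension over `k`). -/
def QuotSet [Module k G] [IsScalarTower k R G] (n : ℕ) : Set (Submodule R G) :=
  {N | Module.Finite k (G ⧸ N) ∧ Module.finrank k (G ⧸ N) = n}

section main

variable [Module k G] [IsScalarTower k R G]

/-- the presentation attached to generators over the polynomial ring -/
def piH (z : R) {m : ℕ} (h : Fin m → G) : (Fin m → k[X]) →ₗ[k] G where
  toFun := fun v => ∑ i, aeval z (v i) • h i
  map_add' := by
    intro v w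
    simp only [Pi.add_apply, map_add, add_smul, Finset.sum_add_distrib]
  map_smul' := by
    intro c v
    simp only [Pi.smul_apply, map_smul, RingHom.id_apply, Finset.smul_sum, smul_assoc]

theorem piH_apply (z : R) {m : ℕ} (h : Fin m → G) (v : Fin m → k[X]) :
    piH z h v = ∑ i, aeval z (v i) • h i := rfl

theorem piH_smul (z : R) {m : ℕ} (h : Fin m → G) (p : k[X]) (v : Fin m → k[X]) :
    piH z h (p • v) = aeval z p • piH z h v := by
  rw [piH_apply, piH_apply, Finset.smul_sum]
  apply Finset.sum_congr rfl
  intro i _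
  rw [Pi.smul_apply, smul_eq_mul, map_mul, mul_smul]

/-- pulled back submodule -/
def phiH (z : R) {m : ℕ} (h : Fin m → G) (N : Submodule R G) :
    Submodule k[X] (Fin m → k[X]) where
  carrier := {v | piH z h v ∈ N}
  add_mem' := by
    intro v w hv hw
    rw [Set.mem_ofPred_eq] at *
    rw [map_add]; exact N.add_mem hv hw
  zero_mem' := by
    rw [Set.mem_ofPred_eq, map_zero]; exact N.zero_mem
  smul_mem' := by
    intro c v hv
    rw [Set.mem_ofPred_eq] at *
    rw [piH_smul]; exact N.smul_mem _ hv

theorem mem_phiH {z : R} {m : ℕ} {h : Fin m → G} {N : Submodule R G} {v : Fin m → k[X]} :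
    v ∈ phiH z h N ↔ piH z h v ∈ N := Iff.rfl

/-- The affine theorem. -/
theorem affine_rational [IsAlgClosed k] [CharZero k] [Algebra.FiniteType k R] [Module.Finite R G]
    (hdim : Module.supportDim R G ≤ 1) (E : EulerChar k)
    (P : ∀ n, Param k R G (QuotSet k R G n)) :
    IsRat (PowerSeries.mk fun n => ((E.χ (P n).S : ℤ) : ℚ)) := by
  classical
  obtain ⟨z, m, h, hgen⟩ := exists_norm (k := k) hdim
  have hsurj : Function.Surjective (piH (k := k) z h) := by
    intro g
    obtain ⟨c, hc⟩ := hgen g
    exact ⟨c, hc.symm⟩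
  -- relations
  let W : Submodule k[X] (Fin m → k[X]) := phiH z h ⊥
  obtain ⟨e, w, hw⟩ := Submodule.fg_iff_exists_fin_generating_family.1
    (IsNoetherian.noetherian W)
  -- operators
  obtain ⟨d, f, hf⟩ := Algebra.FiniteType.iff_quotient_mvPolynomial''.1
    (inferInstance : Algebra.FiniteType k R)
  choose T hT using fun (o : Fin d) (i : Fin m) => hsurj (f (MvPolynomial.X o) • h i)
  let TM : Fin d → Matrix (Fin m) (Fin m) k[X] := fun o => Matrix.of (T o)
  have hTM : ∀ o v, piH z h (Matrix.vecMul v (TM o)) = f (MvPolynomial.X o) • piH z h v := by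
    intro o v
    have h1 : Matrix.vecMul v (TM o) = ∑ i, v i • T o i := by
      rw [comb_vecMul]
    rw [h1, map_sum, piH_apply z h v, Finset.smul_sum]
    apply Finset.sum_congr rfl
    intro i _
    rw [piH_smul, hT, smul_comm]
  have hequiv : ∀ N : Submodule R G, Nonempty (((Fin m → k[X]) ⧸ (phiH z h N : Submodule k[X] _))
      ≃ₗ[k] (G ⧸ N)) := by
    intro N
    let F : (Fin m → k[X]) →ₗ[k] (G ⧸ N) := (N.mkQ.restrictScalars k).comp (piH z h)
    have hF : Function.Surjective F := N.mkQ_surjective.comp hsurj
    have hker : LinearMap.ker F = (phiH z h N : Submodule k[X] _).restrictScalars k := by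
      ext v
      rw [LinearMap.mem_ker, Submodule.restrictScalars_mem, mem_phiH]
      change N.mkQ (piH z h v) = 0 ↔ _
      rw [Submodule.mkQ_apply, Submodule.Quotient.mk_eq_zero]
    refine ⟨(Submodule.Quotient.restrictScalarsEquiv k _).symm.trans
      ((Submodule.quotEquivOfEq _ _ hker.symm).trans (F.quotKerEquivOfSurjective hF))⟩
  have hbij : ∀ n, Set.BijOn (phiH (k := k) z h) (QuotSet k R G n) (QN TM w n) := by
    intro n
    refine ⟨?_, ?_, ?_⟩
    · rintro N ⟨hN1, hN2⟩
      obtain ⟨eq⟩ := hequiv N
      refine ⟨⟨?_, ?_⟩, Module.Finite.equiv eq.symm, ?_⟩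
      · intro o v hv
        rw [mem_phiH] at hv ⊢
        rw [hTM]
        exact N.smul_mem _ hv
      · intro j
        have h1 : w j ∈ W := by
          rw [← hw]; exact Submodule.subset_span ⟨j, rfl⟩
        rw [mem_phiH]
        have h2 : piH z h (w j) ∈ (⊥ : Submodule R G) := h1
        rw [(Submodule.mem_bot R).1 h2]
        exact N.zero_mem
      · rw [eq.finrank_eq, hN2]
    · intro N _ N' _ hNN
      ext g
      obtain ⟨v, rfl⟩ := hsurj g
      rw [← mem_phiH, ← mem_phiH, hNN]
    · rintro N' ⟨⟨hs, hwj⟩, hfin, hrk⟩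
      have hW : W ≤ N' := by
        rw [← hw, Submodule.span_le]
        rintro _ ⟨j, rfl⟩
        exact hwj j
      have hsub : ∀ u v : Fin m → k[X], piH z h u = piH z h v → u ∈ N' → v ∈ N' := by
        intro u v huv hu
        have h1 : u - v ∈ W := by
          change piH z h (u - v) ∈ (⊥ : Submodule R G)
          rw [map_sub, huv, sub_self]; exact Submodule.zero_mem _
        have h2 : v = u - (u - v) := by abel
        rw [h2]
        exact N'.sub_mem hu (hW h1)
      have hst : ∀ (p : MvPolynomial (Fin d) k) (v : Fin m → k[X]), v ∈ N' →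
          ∃ u ∈ N', piH z h u = f p • piH z h v := by
        intro p
        induction p using MvPolynomial.induction_on with
        | C a =>
          intro v hv
          refine ⟨C a • v, N'.smul_mem _ hv, ?_⟩
          rw [piH_smul]
          congr 1
          rw [aeval_C, ← MvPolynomial.algebraMap_eq, AlgHom.commutes]
        | add p q hp hq =>
          intro v hv
          obtain ⟨u, hu, hu'⟩ := hp v hv
          obtain ⟨u₂, hu₂, hu₂'⟩ := hq v hv
          exact ⟨u + u₂, N'.add_mem hu hu₂, by rw [map_add, hu', hu₂', map_add, add_smul]⟩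
        | mul_X p o hp =>
          intro v hv
          obtain ⟨u, hu, hu'⟩ := hp (Matrix.vecMul v (TM o)) (hs o v hv)
          exact ⟨u, hu, by rw [hu', hTM, map_mul, mul_smul]⟩
      let N : Submodule R G :=
        { carrier := {g | ∃ v ∈ N', piH z h v = g}
          add_mem' := by
            rintro _ _ ⟨v, hv, rfl⟩ ⟨u, hu, rfl⟩
            exact ⟨v + u, N'.add_mem hv hu, map_add _ _ _⟩
          zero_mem' := ⟨0, N'.zero_mem, map_zero _⟩
          smul_mem' := by
            rintro c _ ⟨v, hv, rfl⟩
            obtain ⟨p, rfl⟩ := hf c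
            exact hst p v hv }
      have hN : phiH z h N = N' := by
        ext v
        rw [mem_phiH]
        constructor
        · rintro ⟨u, hu, huv⟩
          exact hsub u v huv hu
        · intro hv
          exact ⟨v, hv, rfl⟩
      refine ⟨N, ?_, hN⟩
      obtain ⟨eq⟩ := hequiv N
      rw [hN] at eq
      exact ⟨Module.Finite.equiv eq, by rw [← eq.finrank_eq, hrk]⟩
  exact core_rational (fun n => (P n).transfer (piH z h) (phiH z h) (fun N v => mem_phiH)
    (hbij n)) E

end main

end Pool.Agent.Helper345_Quot
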