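import Pool.Agent.Helper345_Quot.Crt

/-!
Localisation of a module at a prime, in abstract form, and submodules of finite colength.
-/

noncomputable section

namespace Pool.Agent.Helper345_Quot

/-- the data of a localisation of the `R`-module `M` at a prime -/
structure PtLoc (R M A S : Type*) [CommRing R] [AddCommGroup M] [Module R M] [CommRing A]
    [AddCommGroup S] [Module A S] where
  g : R →+* A
  γ : M →+ S
  smul : ∀ r m, γ (r • m) = g r • γ m
  p : Ideal R
  prime : p.IsPrime
  unit : ∀ f, f ∉ p → IsUnit (g f)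
  surj : ∀ t, ∃ f, f ∉ p ∧ ∃ s, g f • t = γ s
  inj : ∀ s, γ s = 0 → ∃ f, f ∉ p ∧ f • s = 0
  frac : ∀ a, ∃ f, f ∉ p ∧ ∃ r, g f * a = g r

namespace PtLoc

variable {R M A S : Type*} [CommRing R] [AddCommGroup M] [Module R M] [CommRing A]
    [AddCommGroup S] [Module A S] (L : PtLoc R M A S)

theorem one_notMem : (1 : R) ∉ L.p := (Ideal.ne_top_iff_one _).1 L.prime.ne_top

theorem mul_notMem {f g : R} (hf : f ∉ L.p) (hg : g ∉ L.p) : f * g ∉ L.p :=
  fun h => (L.prime.mem_or_mem h).elim hf hg

/-- elements whose germs lie in a submodule -/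
def pull (T : Submodule A S) : Submodule R M where
  carrier := {m | L.γ m ∈ T}
  add_mem' := by
    intro a b ha hb
    rw [Set.mem_ofPred_eq] at *
    rw [map_add]; exact T.add_mem ha hb
  zero_mem' := by
    rw [Set.mem_ofPred_eq, map_zero]; exact T.zero_mem
  smul_mem' := by
    intro c m hm
    rw [Set.mem_ofPred_eq] at *
    rw [L.smul]; exact T.smul_mem _ hm

theorem mem_pull {T : Submodule A S} {m : M} : m ∈ L.pull T ↔ L.γ m ∈ T := Iff.rfl

/-- the submodule generated by the germs of the elements of a submodule -/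
def push (N : Submodule R M) : Submodule A S where
  carrier := {t | ∃ f, f ∉ L.p ∧ ∃ s ∈ N, L.g f • t = L.γ s}
  add_mem' := by
    rintro a b ⟨f, hf, s, hs, h⟩ ⟨f', hf', s', hs', h'⟩
    refine ⟨f * f', L.mul_notMem hf hf', f' • s + f • s',
      N.add_mem (N.smul_mem _ hs) (N.smul_mem _ hs'), ?_⟩
    rw [map_add, L.smul, L.smul, ← h, ← h', smul_add, ← mul_smul, ← mul_smul, ← map_mul,
      ← map_mul, mul_comm f' f]
  zero_mem' := ⟨1, L.one_notMem, 0, N.zero_mem, by rw [map_zero, smul_zero]⟩
  smul_mem' := by
    rintro c t ⟨f, hf, s, hs, h⟩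
    obtain ⟨f', hf', r, hr⟩ := L.frac c
    refine ⟨f * f', L.mul_notMem hf hf', r • s, N.smul_mem _ hs, ?_⟩
    rw [L.smul, ← h, ← mul_smul, ← mul_smul, map_mul, mul_assoc, hr, mul_comm]

theorem mem_push {N : Submodule R M} {t : S} :
    t ∈ L.push N ↔ ∃ f, f ∉ L.p ∧ ∃ s ∈ N, L.g f • t = L.γ s := Iff.rfl

theorem γ_mem_push {N : Submodule R M} {m : M} (hm : m ∈ N) : L.γ m ∈ L.push N :=
  ⟨1, L.one_notMem, m, hm, by rw [map_one, one_smul]⟩

theorem unit_smul_mem {T : Submodule A S} {f : R} (hf : f ∉ L.p) {t : S} (h : L.g f • t ∈ T) :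
    t ∈ T := by
  obtain ⟨u, hu⟩ := L.unit f hf
  have : t = (↑u⁻¹ : A) • (L.g f • t) := by
    rw [← hu, ← mul_smul, Units.inv_mul, one_smul]
  rw [this]
  exact T.smul_mem _ h

theorem push_le {N : Submodule R M} {T : Submodule A S} (h : ∀ m ∈ N, L.γ m ∈ T) :
    L.push N ≤ T := by
  rintro t ⟨f, hf, s, hs, hfs⟩
  apply L.unit_smul_mem hf
  rw [hfs]
  exact h s hs

theorem push_pull (T : Submodule A S) : L.push (L.pull T) = T := by
  apply le_antisymm (L.push_le fun m hm => hm)
  intro t ht
  obtain ⟨f, hf, s, hs⟩ := L.surj t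
  refine ⟨f, hf, s, ?_, hs⟩
  rw [mem_pull, ← hs]
  exact T.smul_mem _ ht

theorem le_pull_push (N : Submodule R M) : N ≤ L.pull (L.push N) := fun _ hm => L.γ_mem_push hm

theorem mem_pull_push {N : Submodule R M} {m : M} (h : m ∈ L.pull (L.push N)) :
    ∃ f, f ∉ L.p ∧ f • m ∈ N := by
  obtain ⟨f, hf, s, hs, h⟩ := h
  rw [← L.smul, ← sub_eq_zero, ← map_sub] at h
  obtain ⟨f', hf', h'⟩ := L.inj _ h
  refine ⟨f' * f, L.mul_notMem hf' hf, ?_⟩
  rw [smul_sub, sub_eq_zero] at h'
  rw [mul_smul, h']
  exact N.smul_mem _ hs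

theorem pull_eq_top_iff (T : Submodule A S) : L.pull T = ⊤ ↔ T = ⊤ := by
  constructor
  · intro h
    rw [← L.push_pull T, h, eq_top_iff]
    intro t _
    obtain ⟨f, hf, s, hs⟩ := L.surj t
    exact ⟨f, hf, s, trivial, hs⟩
  · rintro rfl
    rw [eq_top_iff]
    intro m _
    trivial

theorem locAt (T : Submodule A S) : LocAt (M ⧸ L.pull T) L.p := by
  intro f hf q hq
  obtain ⟨m, rfl⟩ := Submodule.Quotient.mk_surjective _ q
  rw [← Submodule.Quotient.mk_smul, Submodule.Quotient.mk_eq_zero, mem_pull, L.smul] at hq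
  rw [Submodule.Quotient.mk_eq_zero, mem_pull]
  exact L.unit_smul_mem hf hq

section field

variable {k : Type*} [Field k] [Algebra k R] [Module k M] [IsScalarTower k R M] [Algebra k A]
  [Module k S] [IsScalarTower k A S] (hk : ∀ c : k, L.g (algebraMap k R c) = algebraMap k A c)

/-- the map on quotients -/
def qmap (T : Submodule A S) : (M ⧸ L.pull T) →ₗ[k] (S ⧸ T) where
  toFun := QuotientAddGroup.map (L.pull T).toAddSubgroup T.toAddSubgroup L.γ (fun _ h => h)
  map_add' := map_add _
  map_smul' := by
    intro c q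
    obtain ⟨m, rfl⟩ := Submodule.Quotient.mk_surjective _ q
    rw [← Submodule.Quotient.mk_smul]
    change Submodule.Quotient.mk (L.γ (c • m)) = c • Submodule.Quotient.mk (L.γ m)
    rw [← Submodule.Quotient.mk_smul]
    congr 1
    rw [← algebraMap_smul R c m, L.smul, hk, algebraMap_smul]

theorem qmap_mk (T : Submodule A S) (m : M) :
    L.qmap hk T (Submodule.Quotient.mk m) = Submodule.Quotient.mk (L.γ m) := rfl

theorem qmap_inj (T : Submodule A S) : Function.Injective (L.qmap hk T) := by
  rw [injective_iff_map_eq_zero]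
  intro q hq
  obtain ⟨m, rfl⟩ := Submodule.Quotient.mk_surjective _ q
  rw [qmap_mk, Submodule.Quotient.mk_eq_zero] at hq
  rw [Submodule.Quotient.mk_eq_zero]
  exact hq

include hk in
theorem finite_of_finite (T : Submodule A S) [Module.Finite k (S ⧸ T)] :
    Module.Finite k (M ⧸ L.pull T) := Module.Finite.of_injective _ (L.qmap_inj hk T)

theorem qmap_surj (T : Submodule A S) [Module.Finite k (M ⧸ L.pull T)] :
    Function.Surjective (L.qmap hk T) := by
  intro q
  obtain ⟨t, rfl⟩ := Submodule.Quotient.mk_surjective _ q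
  obtain ⟨f, hf, s, hs⟩ := L.surj t
  obtain ⟨a, ha⟩ := exists_act_inv (k := k) f (L.locAt T f hf)
  refine ⟨Submodule.Quotient.mk (a • s), ?_⟩
  rw [qmap_mk, Submodule.Quotient.eq]
  apply L.unit_smul_mem hf
  rw [smul_sub, hs, L.smul, ← L.smul, ← L.smul, ← map_sub]
  have h1 := ha (Submodule.Quotient.mk s)
  rw [← Submodule.Quotient.mk_smul, Submodule.Quotient.eq] at h1
  rw [← mul_smul, mul_comm f a]
  exact h1

/-- the quotients are isomorphic -/
def qequiv (T : Submodule A S) [Module.Finite k (M ⧸ L.pull T)] :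
    (M ⧸ L.pull T) ≃ₗ[k] (S ⧸ T) :=
  LinearEquiv.ofBijective (L.qmap hk T) ⟨L.qmap_inj hk T, L.qmap_surj hk T⟩

include hk in
theorem finite_iff (T : Submodule A S) :
    Module.Finite k (M ⧸ L.pull T) ↔ Module.Finite k (S ⧸ T) := by
  constructor
  · intro h
    exact Module.Finite.equiv (L.qequiv hk T)
  · intro h
    exact L.finite_of_finite hk T

include hk in
theorem finrank_eq (T : Submodule A S) [Module.Finite k (M ⧸ L.pull T)] :
    Module.finrank k (M ⧸ L.pull T) = Module.finrank k (S ⧸ T) :=
  (L.qequiv hk T).finrank_eq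

end field

end PtLoc

/-! ### families of points -/

section family

variable {R M : Type*} [CommRing R] [AddCommGroup M] [Module R M] {J : Type*} {A S : J → Type*}
  [∀ j, CommRing (A j)] [∀ j, AddCommGroup (S j)] [∀ j, Module (A j) (S j)]
  (L : ∀ j, PtLoc R M (A j) (S j))
  {k : Type*} [Field k] [Algebra k R] [Module k M] [IsScalarTower k R M] [∀ j, Algebra k (A j)]
  [∀ j, Module k (S j)] [∀ j, IsScalarTower k (A j) (S j)]
  (hk : ∀ j, ∀ c : k, (L j).g (algebraMap k R c) = algebraMap k (A j) c)
  (hinj : ∀ i j, (L i).p = (L j).p → i = j)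

/-- the submodule attached to a family of submodules at the points -/
def glue (T : ∀ j, Submodule (A j) (S j)) : Submodule R M := ⨅ j, (L j).pull (T j)

theorem mem_glue {T : ∀ j, Submodule (A j) (S j)} {m : M} :
    m ∈ glue L T ↔ ∀ j, (L j).γ m ∈ T j := by
  unfold glue
  rw [Submodule.mem_iInf]
  rfl

include hk hinj in
/-- from families with finite support to submodules -/
theorem glue_spec (T : ∀ j, Submodule (A j) (S j)) (Z : Finset J) (hZ : ∀ j, j ∉ Z → T j = ⊤)
    (hfin : ∀ j, Module.Finite k (S j ⧸ T j)) :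
    Module.Finite k (M ⧸ glue L T) ∧
      Module.finrank k (M ⧸ glue L T) = ∑ j ∈ Z, Module.finrank k (S j ⧸ T j) ∧
      ∀ j, (L j).push (glue L T) = T j := by
  classical
  have hglue : glue L T = ⨅ j ∈ Z, (L j).pull (T j) := by
    apply le_antisymm
    · exact le_iInf fun j => le_iInf fun _ => iInf_le _ j
    · intro m hm
      rw [mem_glue]
      intro j
      by_cases hj : j ∈ Z
      · rw [Submodule.mem_iInf] at hm
        have := hm j
        rw [Submodule.mem_iInf] at this
        exact this hj
      · rw [hZ j hj]; trivial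
  have hf : ∀ j, Module.Finite k (M ⧸ (L j).pull (T j)) := fun j =>
    (L j).finite_of_finite (hk j) (T j)
  have h1 := crt_finset (k := k) Z (fun j => (L j).pull (T j)) (fun j => (L j).p)
    (fun j _ => (L j).prime) (fun i _ j _ h => hinj i j h) (fun j _ => (L j).locAt (T j))
    (fun j _ => hf j)
  refine ⟨?_, ?_, ?_⟩
  · rw [hglue]; exact h1.1
  · rw [hglue, h1.2.1]
    apply Finset.sum_congr rfl
    intro j _
    exact (L j).finrank_eq (hk j) (T j)
  · intro j
    apply le_antisymm
    · apply (L j).push_le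
      intro m hm
      exact (mem_glue L).1 hm j
    · have h2 := crt_finset (k := k) (Z.erase j) (fun j => (L j).pull (T j)) (fun j => (L j).p)
        (fun j _ => (L j).prime) (fun i _ j _ h => hinj i j h) (fun j _ => (L j).locAt (T j))
        (fun j _ => hf j)
      obtain ⟨e, he, heZ⟩ := h2.2.2 j (Finset.notMem_erase j Z) (L j).p (L j).prime (by
        intro i hi h
        exact (Finset.ne_of_mem_erase hi) (hinj i j h))
      intro t ht
      obtain ⟨f, hf, s, hs⟩ := (L j).surj t
      refine ⟨e * f, (L j).mul_notMem he hf, e • s, ?_, ?_⟩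
      · rw [mem_glue]
        intro i
        by_cases hij : i = j
        · subst hij
          rw [(L i).smul, ← hs]
          exact (T i).smul_mem _ ((T i).smul_mem _ ht)
        · by_cases hi : i ∈ Z
          · have := heZ s
            rw [Submodule.mem_iInf] at this
            have := this i
            rw [Submodule.mem_iInf] at this
            exact this (Finset.mem_erase.2 ⟨hij, hi⟩)
          · rw [hZ i hi]; trivial
      · rw [(L j).smul, ← hs, ← mul_smul, map_mul]

/-- covering condition -/
def Covers : Prop := ∀ I : Ideal R, (∀ j, ∃ f ∈ I, f ∉ (L j).p) → I = ⊤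

variable {L} in
theorem Covers.glue_push (hc : Covers L) (N : Submodule R M) :
    glue L (fun j => (L j).push N) = N := by
  apply le_antisymm
  · intro m hm
    rw [mem_glue] at hm
    let I : Ideal R :=
      { carrier := {f | f • m ∈ N}
        add_mem' := by
          intro a b ha hb
          rw [Set.mem_ofPred_eq] at *
          rw [add_smul]; exact N.add_mem ha hb
        zero_mem' := by
          rw [Set.mem_ofPred_eq, zero_smul]; exact N.zero_mem
        smul_mem' := by
          intro c x hx
          rw [Set.mem_ofPred_eq] at *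
          rw [smul_eq_mul, mul_smul]; exact N.smul_mem _ hx }
    have hI : I = ⊤ := by
      apply hc
      intro j
      obtain ⟨f, hf, h⟩ := (L j).mem_pull_push (hm j)
      exact ⟨f, h, hf⟩
    have h1 : (1 : R) ∈ I := by rw [hI]; trivial
    have h2 : (1 : R) • m ∈ N := h1
    rwa [one_smul] at h2
  · intro m hm
    rw [mem_glue]
    intro j
    exact (L j).γ_mem_push hm

include hk hinj in
variable {L} in
/-- from submodules to families with finite support -/
theorem Covers.push_spec (hc : Covers L) (N : Submodule R M) [Module.Finite k (M ⧸ N)] :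
    (∀ j, Module.Finite k (S j ⧸ (L j).push N)) ∧ {j | (L j).push N ≠ ⊤}.Finite := by
  constructor
  · intro j
    rw [← (L j).finite_iff (hk j)]
    exact Module.Finite.of_surjective ((Submodule.factor ((L j).le_pull_push N)).restrictScalars k)
      (Submodule.factor_surjective ((L j).le_pull_push N))
  · let I : Ideal R := Module.annihilator R (M ⧸ N)
    have hmem : ∀ j, (L j).push N ≠ ⊤ → I ≤ (L j).p := by
      intro j hj f hf
      by_contra hfp
      apply hj
      rw [eq_top_iff]
      intro t _
      obtain ⟨f', hf', s, hs⟩ := (L j).surj t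
      refine ⟨f * f', (L j).mul_notMem hfp hf', f • s, ?_, ?_⟩
      · have h1 := Module.mem_annihilator.1 hf (Submodule.Quotient.mk s)
        rwa [← Submodule.Quotient.mk_smul, Submodule.Quotient.mk_eq_zero] at h1
      · rw [(L j).smul, ← hs, ← mul_smul, map_mul]
    -- finitely many primes contain the annihilator
    have hfin : {q : Ideal R | q.IsPrime ∧ I ≤ q}.Finite := by
      let φ : R →ₐ[k] Module.End k (M ⧸ N) := Algebra.lsmul k k (M ⧸ N)
      let B : Type _ := R ⧸ I
      let ψ : B →ₗ[k] Module.End k (M ⧸ N) := by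
        refine Submodule.liftQ (I.restrictScalars k) φ.toLinearMap ?_
        intro x hx
        rw [Submodule.restrictScalars_mem, Module.mem_annihilator] at hx
        rw [LinearMap.mem_ker]
        ext v
        exact hx _
      have hψ : Function.Injective ψ := by
        rw [← LinearMap.ker_eq_bot]
        apply Submodule.ker_liftQ_eq_bot
        intro x hx
        rw [LinearMap.mem_ker] at hx
        rw [Submodule.restrictScalars_mem, Module.mem_annihilator]
        intro m
        exact congrArg (fun T : Module.End k (M ⧸ N) => T m) hx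
      have hfinB : Module.Finite k B := Module.Finite.of_injective ψ hψ
      have hart : IsArtinianRing B := by
        have : IsArtinian k B := inferInstance
        exact isArtinian_of_tower k this
      have h1 : {q : Ideal B | q.IsPrime}.Finite := IsArtinianRing.setOfPred_isPrime_finite B
      apply (h1.image (Ideal.comap (Ideal.Quotient.mk I))).subset
      rintro q ⟨hq, hIq⟩
      refine ⟨q.map (Ideal.Quotient.mk I), ?_, ?_⟩
      · exact Ideal.map_isPrime_of_surjective Ideal.Quotient.mk_surjective (by
          rw [Ideal.mk_ker]; exact hIq)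
      · rw [Ideal.comap_map_of_surjective _ Ideal.Quotient.mk_surjective]
        apply sup_eq_left.2
        intro x hx
        rw [Ideal.mem_comap, Ideal.mem_bot, Ideal.Quotient.eq_zero_iff_mem] at hx
        exact hIq hx
    have h2 : {j | (L j).push N ≠ ⊤} ⊆ (fun j => (L j).p) ⁻¹' {q : Ideal R | q.IsPrime ∧ I ≤ q} :=
      fun j hj => ⟨(L j).prime, hmem j hj⟩
    exact (hfin.preimage (fun i _ j _ h => hinj i j h)).subset h2

end family

end Pool.Agent.Helper345_Quot
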