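import Pool.Agent.Helper345_Quot.Qc
import Pool.Agent.Helper345_Quot.PtLoc
import Mathlib.AlgebraicGeometry.Morphisms.FiniteType
import Mathlib.AlgebraicGeometry.Properties

/-!
Sections over affine opens and stalks, with their structures over the base field.
-/

noncomputable section

namespace Pool.Agent.Helper345_Quot

universe u

open AlgebraicGeometry CategoryTheory TopologicalSpace Opposite

/-! ### structures over the base field -/

section base

variable (k : Type u) [Field k] (X : Scheme.{u}) [X.Over (Spec (.of k))]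

variable {X}

/-- constants in the stalks -/
def kStk (x : X) : k →+* X.presheaf.stalk x :=
  (X.presheaf.germ ⊤ x trivial).hom.comp (kTop k X)

variable {k}

theorem rsX_kSec {U V : X.Opens} (h : U ≤ V) (c : k) : rsX h (kSec k V c) = kSec k U c := by
  unfold kSec
  rw [RingHom.comp_apply, RingHom.comp_apply, rsX_rsX]

theorem germ_rsX {U V : X.Opens} (h : U ≤ V) {x : X} (hx : x ∈ U) (m : Γ(X, V)) :
    X.presheaf.germ U x hx (rsX h m) = X.presheaf.germ V x (h hx) m :=
  TopCat.Presheaf.germ_res_apply X.presheaf (homOfLE h) x hx m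

theorem germ_kSec {U : X.Opens} {x : X} (hx : x ∈ U) (c : k) :
    X.presheaf.germ U x hx (kSec k U c) = kStk k x c := by
  unfold kSec kStk
  rw [RingHom.comp_apply, germ_rsX, RingHom.comp_apply]

variable (k)

/-- the algebra of functions on an open set -/
@[reducible] def algSec (U : X.Opens) : Algebra k Γ(X, U) := (kSec k U).toAlgebra

/-- the algebra of germs of functions -/
@[reducible] def algStk (x : X) : Algebra k (X.presheaf.stalk x) := (kStk k x).toAlgebra

variable (G : X.Modules)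

/-- sections as a vector space -/
@[reducible] def modSec (U : X.Opens) : Module k Γ(G, U) := Module.compHom _ (kSec k U)

/-- stalks as a vector space -/
@[reducible] def modStk (x : X) : Module k (Stk G x) := Module.compHom _ (kStk k x)

end base

attribute [local instance] algSec algStk modSec modStk

section tower

variable {k : Type u} [Field k] {X : Scheme.{u}} [X.Over (Spec (.of k))] {G : X.Modules}

instance towSec (U : X.Opens) : IsScalarTower k Γ(X, U) Γ(G, U) :=
  ⟨fun c r m => by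
    change (kSec k U c * r) • m = kSec k U c • (r • m)
    rw [mul_smul]⟩

instance towStk (x : X) : IsScalarTower k (X.presheaf.stalk x) (Stk G x) :=
  ⟨fun c r m => by
    change (kStk k x c * r) • m = kStk k x c • (r • m)
    rw [mul_smul]⟩

theorem smul_sec_def (U : X.Opens) (c : k) (m : Γ(G, U)) : c • m = kSec k U c • m := rfl

theorem smul_stk_def (x : X) (c : k) (m : Stk G x) : c • m = kStk k x c • m := rfl

theorem rs_smul_k {U V : X.Opens} (h : U ≤ V) (c : k) (m : Γ(G, V)) :
    rs G h (c • m) = c • rs G h m := by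
  rw [smul_sec_def, smul_sec_def, rs_smul, rsX_kSec]

/-- restriction as a linear map -/
def rsL (k : Type u) [Field k] [X.Over (Spec (.of k))] {U V : X.Opens} (h : U ≤ V) :
    Γ(G, V) →ₗ[k] Γ(G, U) where
  toFun := rs G h
  map_add' := map_add _
  map_smul' := rs_smul_k h

theorem finiteType_sec [LocallyOfFiniteType (X ↘ Spec (.of k))] {U : X.Opens}
    (hU : IsAffineOpen U) : Algebra.FiniteType k Γ(X, U) := by
  have h1 : ((X ↘ Spec (.of k)).appLE ⊤ U le_top).hom.FiniteType :=
    (X ↘ Spec (.of k)).finiteType_appLE (isAffineOpen_top _) hU le_top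
  have h2 : ((Scheme.ΓSpecIso (.of k)).inv.hom).FiniteType := by
    apply RingHom.FiniteType.of_surjective
    exact (ConcreteCategory.bijective_of_isIso (Scheme.ΓSpecIso (.of k)).inv).2
  have h3 := h1.comp h2
  exact h3

end tower

/-! ### points of affine opens -/

section points

variable {X : Scheme.{u}} {U : X.Opens}

/-- the prime ideal of a point -/
def ptI {x : X} (hx : x ∈ U) : Ideal Γ(X, U) :=
  (IsLocalRing.maximalIdeal (X.presheaf.stalk x)).comap (X.presheaf.germ U x hx).hom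

instance ptI_prime {x : X} (hx : x ∈ U) : (ptI hx).IsPrime := by
  unfold ptI
  infer_instance

theorem notMem_ptI {x : X} (hx : x ∈ U) (f : Γ(X, U)) :
    f ∉ ptI hx ↔ IsUnit (X.presheaf.germ U x hx f) := by
  unfold ptI
  rw [Ideal.mem_comap, IsLocalRing.mem_maximalIdeal, mem_nonunits_iff, not_not]

theorem notMem_ptI' {x : X} (hx : x ∈ U) (f : Γ(X, U)) :
    f ∉ ptI hx ↔ x ∈ X.basicOpen f := by
  rw [notMem_ptI, X.mem_basicOpen f x hx]

theorem ptI_le_of_mem_closure {x y : X} (hx : x ∈ U) (hy : y ∈ U) (h : y ∈ closure {x}) :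
    ptI hx ≤ ptI hy := by
  intro f hf
  by_contra hfy
  rw [notMem_ptI'] at hfy
  have h1 : x ∈ X.basicOpen f := by
    rw [mem_closure_iff] at h
    obtain ⟨z, hz, hzx⟩ := h (X.basicOpen f : Set X) (X.basicOpen f).isOpen hfy
    rw [Set.mem_singleton_iff] at hzx
    exact hzx ▸ hz
  exact (notMem_ptI' hx f).2 h1 hf

theorem ptI_inj (hU : IsAffineOpen U) {x y : X} (hx : x ∈ U) (hy : y ∈ U)
    (h : ptI hx = ptI hy) : x = y := by
  apply Inseparable.eq
  rw [inseparable_iff_forall_isOpen]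
  have key : ∀ {x y : X} (hx : x ∈ U) (hy : y ∈ U), ptI hx = ptI hy →
      ∀ s : Set X, IsOpen s → x ∈ s → y ∈ s := by
    intro x y hx hy h s hs hxs
    obtain ⟨f, hf, hxf⟩ := hU.exists_basicOpen_le (V := ⟨s, hs⟩) ⟨x, hxs⟩ hx
    have h1 := (notMem_ptI' hx f).2 hxf
    rw [h] at h1
    exact hf ((notMem_ptI' hy f).1 h1)
  intro s hs
  exact ⟨key hx hy h s hs, key hy hx h.symm s hs⟩

theorem cover_pts (hU : IsAffineOpen U) (I : Ideal Γ(X, U))
    (h : ∀ (x : X) (hx : x ∈ U), ∃ f ∈ I, f ∉ ptI hx) : I = ⊤ := by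
  have h1 : Ideal.span (I : Set Γ(X, U)) = ⊤ := by
    rw [← hU.self_le_iSup_basicOpen_iff]
    intro x hx
    obtain ⟨f, hfI, hf⟩ := h x hx
    rw [notMem_ptI'] at hf
    exact Opens.mem_iSup.2 ⟨⟨f, hfI⟩, hf⟩
  rwa [Ideal.span_eq] at h1

variable {G : X.Modules} [G.IsQuasicoherent]

theorem germ_surj (hU : IsAffineOpen U) {x : X} (hx : x ∈ U) (t : Stk G x) :
    ∃ f : Γ(X, U), f ∉ ptI hx ∧ ∃ s : Γ(G, U),
      X.presheaf.germ U x hx f • t = grm G x U hx s := by
  obtain ⟨V, hV, t', rfl⟩ := grm_exists t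
  obtain ⟨f, hf, hxf⟩ := hU.exists_basicOpen_le (V := V) ⟨x, hV⟩ hx
  obtain ⟨n, s, hs⟩ := loc_surj hU f (rs G hf t')
  refine ⟨f ^ n, ?_, s, ?_⟩
  · rw [notMem_ptI, map_pow]
    exact ((X.mem_basicOpen f x hx).1 hxf).pow n
  · have h1 := congrArg (grm G x (X.basicOpen f) hxf) hs
    rw [grm_rs, grm_smul, germ_rsX, grm_rs] at h1
    exact h1.symm

theorem germ_inj (hU : IsAffineOpen U) {x : X} (hx : x ∈ U) (s : Γ(G, U))
    (h : grm G x U hx s = 0) : ∃ f : Γ(X, U), f ∉ ptI hx ∧ f • s = 0 := by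
  have h0 : grm G x U hx s = grm G x U hx 0 := by rw [h, map_zero]
  obtain ⟨W, hW, h1, h2, h3⟩ := grm_eq hx hx h0
  rw [map_zero] at h3
  obtain ⟨f, hf, hxf⟩ := hU.exists_basicOpen_le (V := W) ⟨x, hW⟩ hx
  have h4 : rs G (X.basicOpen_le f) s = 0 := by
    have := congrArg (rs G hf) h3
    rwa [rs_rs, map_zero] at this
  obtain ⟨n, hn⟩ := loc_inj hU f s h4
  refine ⟨f ^ n, ?_, hn⟩
  rw [notMem_ptI, map_pow]
  exact ((X.mem_basicOpen f x hx).1 hxf).pow n

theorem germ_frac (hU : IsAffineOpen U) {x : X} (hx : x ∈ U) (a : X.presheaf.stalk x) :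
    ∃ f : Γ(X, U), f ∉ ptI hx ∧ ∃ r : Γ(X, U),
      X.presheaf.germ U x hx f * a = X.presheaf.germ U x hx r := by
  let _ := X.presheaf.algebra_section_stalk (⟨x, hx⟩ : U)
  have h1 := hU.isLocalization_stalk ⟨x, hx⟩
  have h2 : (hU.primeIdealOf ⟨x, hx⟩).asIdeal = ptI hx := by
    rw [hU.primeIdealOf_eq_map_closedPoint]
    rfl
  obtain ⟨⟨r, ⟨f, hf⟩⟩, h⟩ := IsLocalization.surj (hU.primeIdealOf ⟨x, hx⟩).asIdeal.primeCompl
    (S := X.presheaf.stalk ((⟨x, hx⟩ : U) : X)) a
  refine ⟨f, h2 ▸ hf, r, ?_⟩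
  rw [mul_comm]
  exact h

variable (G) in
/-- the localisation of the sections over an affine open at a point -/
def ptLoc (hU : IsAffineOpen U) {x : X} (hx : x ∈ U) :
    PtLoc Γ(X, U) Γ(G, U) (X.presheaf.stalk x) (Stk G x) where
  g := (X.presheaf.germ U x hx).hom
  γ := grm G x U hx
  smul := grm_smul G x U hx
  p := ptI hx
  prime := ptI_prime hx
  unit := fun f hf => (notMem_ptI hx f).1 hf
  surj := germ_surj hU hx
  inj := germ_inj hU hx
  frac := germ_frac hU hx

theorem ptLoc_covers (hU : IsAffineOpen U) :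
    Covers (fun x : U => ptLoc G hU x.2) := by
  intro I h
  apply cover_pts hU
  intro x hx
  exact h ⟨x, hx⟩

theorem ptLoc_inj (hU : IsAffineOpen U) (x y : U)
    (h : (ptLoc G hU x.2).p = (ptLoc G hU y.2).p) : x = y :=
  Subtype.ext (ptI_inj hU x.2 y.2 h)

section fld

variable {k : Type u} [Field k] [X.Over (Spec (.of k))]

theorem ptLoc_k (hU : IsAffineOpen U) (x : U) (c : k) :
    (ptLoc G hU x.2).g (algebraMap k Γ(X, U) c) =
      algebraMap k (X.presheaf.stalk (x : X)) c := germ_kSec x.2 c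

variable (k) in
/-- points with non zero finite dimensional quotients are closed -/
theorem isClosed_of_fd {x : X} (T : Submodule (X.presheaf.stalk x) (Stk G x))
    [Module.Finite k (Stk G x ⧸ T)] (hT : T ≠ ⊤) : IsClosed ({x} : Set X) := by
  rw [← closure_subset_iff_isClosed]
  intro y hy
  obtain ⟨_, ⟨V, hV, rfl⟩, hyV, -⟩ :=
    X.isBasis_affineOpens.exists_subset_of_mem_open (Set.mem_univ y) isOpen_univ
  have hxV : x ∈ V := by
    rw [mem_closure_iff] at hy
    obtain ⟨z, hz, hzx⟩ := hy (V : Set X) V.isOpen hyV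
    rw [Set.mem_singleton_iff] at hzx
    exact hzx ▸ hz
  let L := ptLoc G hV hxV
  have hk := ptLoc_k (G := G) (k := k) hV ⟨x, hxV⟩
  have hfin : Module.Finite k (Γ(G, V) ⧸ L.pull T) := L.finite_of_finite hk T
  have hnt : Nontrivial (Γ(G, V) ⧸ L.pull T) := by
    rw [Submodule.Quotient.nontrivial_iff]
    intro h
    exact hT ((L.pull_eq_top_iff T).1 h)
  have hmax : (ptI hxV).IsMaximal := (L.locAt T).isMaximal k L.prime
  have hle := ptI_le_of_mem_closure hxV hyV hy
  have heq := hmax.eq_of_le (ptI_prime hyV).ne_top hle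
  exact (ptI_inj hV hxV hyV heq).symm

end fld

end points

end Pool.Agent.Helper345_Quot
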