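import Mathlib.LinearAlgebra.Charpoly.Basic
import Mathlib.LinearAlgebra.FiniteDimensional.Basic
import Mathlib.FieldTheory.IsAlgClosed.Basic
import Mathlib.RingTheory.Polynomial.Basic
import Mathlib.Algebra.Polynomial.FieldDivision
import Mathlib.LinearAlgebra.Charpoly.ToMatrix
import Mathlib.Tactic

/-!
Local parts of submodules of finite codimension over a polynomial ring in one variable.
-/

noncomputable section

namespace Pool.Agent.Helper345_Quot

open Polynomial

variable {k : Type*} [Field k] {M : Type*} [AddCommGroup M] [Module k[X] M] [Module k M]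
  [IsScalarTower k k[X] M]

/-- the localisation at `l` of a submodule, intersected with the module -/
def Pl (l : k) (N : Submodule k[X] M) : Submodule k[X] M where
  carrier := {v | ∃ p : k[X], p.eval l ≠ 0 ∧ p • v ∈ N}
  add_mem' := by
    rintro v w ⟨p, hp, hpv⟩ ⟨q, hq, hqw⟩
    refine ⟨p * q, by rw [eval_mul]; exact mul_ne_zero hp hq, ?_⟩
    rw [smul_add]
    apply N.add_mem
    · rw [mul_comm, mul_smul]; exact N.smul_mem _ hpv
    · rw [mul_smul]; exact N.smul_mem _ hqw
  zero_mem' := ⟨1, by simp, by simp⟩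
  smul_mem' := by
    rintro c v ⟨p, hp, hpv⟩
    exact ⟨p, hp, by rw [smul_comm]; exact N.smul_mem _ hpv⟩

/-- the part away from `l` -/
def Al (l : k) (N : Submodule k[X] M) : Submodule k[X] M where
  carrier := {v | ∃ j : ℕ, (X - C l) ^ j • v ∈ N}
  add_mem' := by
    rintro v w ⟨i, hv⟩ ⟨j, hw⟩
    refine ⟨i + j, ?_⟩
    rw [smul_add]
    apply N.add_mem
    · rw [add_comm, pow_add, mul_smul]; exact N.smul_mem _ hv
    · rw [pow_add, mul_smul]; exact N.smul_mem _ hw
  zero_mem' := ⟨0, by simp⟩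
  smul_mem' := by
    rintro c v ⟨p, hpv⟩
    exact ⟨p, by rw [smul_comm]; exact N.smul_mem _ hpv⟩

theorem mem_Pl {l : k} {N : Submodule k[X] M} {v : M} :
    v ∈ Pl l N ↔ ∃ p : k[X], p.eval l ≠ 0 ∧ p • v ∈ N := Iff.rfl

theorem mem_Al {l : k} {N : Submodule k[X] M} {v : M} :
    v ∈ Al l N ↔ ∃ j : ℕ, (X - C l) ^ j • v ∈ N := Iff.rfl

theorem le_Pl (l : k) (N : Submodule k[X] M) : N ≤ Pl l N := fun v hv => ⟨1, by simp, by simpa⟩

theorem le_Al (l : k) (N : Submodule k[X] M) : N ≤ Al l N := fun v hv => ⟨0, by simpa⟩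

theorem coprime_of_eval {l : k} {p : k[X]} (hp : p.eval l ≠ 0) (j : ℕ) :
    IsCoprime ((X - C l) ^ j) p := by
  apply IsCoprime.pow_left
  have hirr : Irreducible (X - C l) := irreducible_X_sub_C l
  rw [hirr.coprime_iff_not_dvd, dvd_iff_isRoot]
  exact hp

theorem Pl_inf_Al (l : k) (N : Submodule k[X] M) : Pl l N ⊓ Al l N = N := by
  apply le_antisymm
  · rintro v ⟨⟨p, hp, hpv⟩, ⟨j, hj⟩⟩
    obtain ⟨a, b, hab⟩ := coprime_of_eval hp j
    have h1 : v = a • ((X - C l) ^ j • v) + b • (p • v) := by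
      rw [← mul_smul, ← mul_smul, ← add_smul, hab, one_smul]
    rw [h1]
    exact N.add_mem (N.smul_mem _ hj) (N.smul_mem _ hpv)
  · exact le_inf (le_Pl l N) (le_Al l N)

/-- the quotient is killed by a monic polynomial of degree the dimension -/
theorem exists_monic (N : Submodule k[X] M) [Module.Finite k (M ⧸ N)] :
    ∃ q : k[X], q.Monic ∧ q.natDegree = Module.finrank k (M ⧸ N) ∧ ∀ v : M, q • v ∈ N := by
  let T : Module.End k (M ⧸ N) :=
    { toFun := fun v => (X : k[X]) • v
      map_add' := fun v w => smul_add _ _ _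
      map_smul' := fun c v => smul_comm _ _ _ }
  have hT : ∀ (p : k[X]) (v : M ⧸ N), aeval T p v = p • v := by
    intro p v
    induction p using Polynomial.induction_on' with
    | add p q hp hq => rw [map_add, LinearMap.add_apply, hp, hq, add_smul]
    | monomial n a =>
      rw [aeval_monomial]
      have h1 : ∀ n : ℕ, (T ^ n) v = (X : k[X]) ^ n • v := by
        intro n
        induction n with
        | zero => simp
        | succ n ih =>
          rw [pow_succ', Module.End.mul_apply, ih, pow_succ', mul_smul]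
          rfl
      rw [Module.End.mul_apply, h1, ← C_mul_X_pow_eq_monomial, mul_smul,
        Module.algebraMap_end_apply, ← algebraMap_eq, algebraMap_smul]
  refine ⟨T.charpoly, T.charpoly_monic, T.charpoly_natDegree, fun v => ?_⟩
  rw [← Submodule.Quotient.mk_eq_zero, Submodule.Quotient.mk_smul, ← hT,
    LinearMap.aeval_self_charpoly]
  rfl

/-- factor of a nonzero polynomial at a point -/
theorem exists_factor (l : k) {q : k[X]} (hq : q ≠ 0) :
    ∃ (j : ℕ) (p : k[X]), p.eval l ≠ 0 ∧ q = (X - C l) ^ j * p ∧ j ≤ q.natDegree := by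
  obtain ⟨p, hp, hnd⟩ := exists_eq_pow_rootMultiplicity_mul_and_not_dvd q hq l
  refine ⟨q.rootMultiplicity l, p, ?_, hp, ?_⟩
  · intro h
    exact hnd (dvd_iff_isRoot.2 h)
  · have hp0 : p ≠ 0 := by
      rintro rfl
      apply hnd; exact dvd_zero _
    have h2 := congrArg natDegree hp
    rw [natDegree_mul (pow_ne_zero _ (X_sub_C_ne_zero l)) hp0, natDegree_pow, natDegree_X_sub_C,
      mul_one] at h2
    omega

section fin

variable (N : Submodule k[X] M) [Module.Finite k (M ⧸ N)]

theorem exists_split (l : k) : ∃ (j : ℕ) (p : k[X]), p.eval l ≠ 0 ∧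
    j ≤ Module.finrank k (M ⧸ N) ∧ ∀ v : M, ((X - C l) ^ j * p) • v ∈ N := by
  obtain ⟨q, hq, hd, hv⟩ := exists_monic N
  obtain ⟨j, p, hp, hjp, hj⟩ := exists_factor l hq.ne_zero
  exact ⟨j, p, hp, hd ▸ hj, fun v => hjp ▸ hv v⟩

theorem Pl_sup_Al (l : k) : Pl l N ⊔ Al l N = ⊤ := by
  obtain ⟨j, p, hp, -, hv⟩ := exists_split N l
  rw [eq_top_iff]
  intro v _
  obtain ⟨a, b, hab⟩ := coprime_of_eval hp j
  have h1 : v = (a * (X - C l) ^ j) • v + (b * p) • v := by
    rw [← add_smul, hab, one_smul]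
  rw [h1]
  apply Submodule.add_mem_sup
  · refine ⟨p, hp, ?_⟩
    rw [← mul_smul]
    have : p * (a * (X - C l) ^ j) = a * ((X - C l) ^ j * p) := by ring
    rw [this, mul_smul]
    exact N.smul_mem _ (hv v)
  · refine ⟨j, ?_⟩
    rw [← mul_smul]
    have : (X - C l) ^ j * (b * p) = b * ((X - C l) ^ j * p) := by ring
    rw [this, mul_smul]
    exact N.smul_mem _ (hv v)

theorem Pl_Al (l : k) : Pl l (Al l N) = ⊤ := by
  obtain ⟨j, p, hp, -, hv⟩ := exists_split N l
  rw [eq_top_iff]
  intro v _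
  refine ⟨p, hp, j, ?_⟩
  rw [← mul_smul]
  exact hv v

theorem Al_Pl (l : k) : Al l (Pl l N) = ⊤ := by
  obtain ⟨j, p, hp, -, hv⟩ := exists_split N l
  rw [eq_top_iff]
  intro v _
  refine ⟨j, p, hp, ?_⟩
  rw [← mul_smul, mul_comm]
  exact hv v

theorem Pl_Pl_ne {l m : k} (h : l ≠ m) : Pl m (Pl l N) = ⊤ := by
  obtain ⟨j, p, hp, -, hv⟩ := exists_split N l
  rw [eq_top_iff]
  intro v _
  refine ⟨(X - C l) ^ j, ?_, p, hp, ?_⟩
  · rw [eval_pow, eval_sub, eval_X, eval_C]
    exact pow_ne_zero _ (sub_ne_zero.2 h.symm)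
  · rw [← mul_smul, mul_comm]
    exact hv v

theorem pow_smul_mem (l : k) {N : Submodule k[X] M} [Module.Finite k (M ⧸ N)]
    (h : Pl l N = N) (v : M) : (X - C l) ^ (Module.finrank k (M ⧸ N)) • v ∈ N := by
  obtain ⟨j, p, hp, hj, hv⟩ := exists_split N l
  have h1 : (X - C l) ^ j • v ∈ N := by
    rw [← h]
    refine ⟨p, hp, ?_⟩
    rw [← mul_smul, mul_comm]
    exact hv v
  obtain ⟨t, ht⟩ := Nat.exists_eq_add_of_le' hj
  rw [ht, pow_add, mul_smul]
  exact N.smul_mem _ h1

end fin

theorem Pl_inf (l : k) (N N' : Submodule k[X] M) : Pl l (N ⊓ N') = Pl l N ⊓ Pl l N' := by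
  apply le_antisymm
  · rintro v ⟨p, hp, h1, h2⟩
    exact ⟨⟨p, hp, h1⟩, ⟨p, hp, h2⟩⟩
  · rintro v ⟨⟨p, hp, h1⟩, ⟨q, hq, h2⟩⟩
    refine ⟨p * q, by rw [eval_mul]; exact mul_ne_zero hp hq, ?_, ?_⟩
    · rw [mul_comm, mul_smul]; exact N.smul_mem _ h1
    · rw [mul_smul]; exact N'.smul_mem _ h2

theorem Al_inf (l : k) (N N' : Submodule k[X] M) : Al l (N ⊓ N') = Al l N ⊓ Al l N' := by
  apply le_antisymm
  · rintro v ⟨j, h1, h2⟩
    exact ⟨⟨j, h1⟩, ⟨j, h2⟩⟩
  · rintro v ⟨⟨i, h1⟩, ⟨j, h2⟩⟩
    refine ⟨i + j, ?_, ?_⟩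
    · rw [add_comm, pow_add, mul_smul]; exact N.smul_mem _ h1
    · rw [pow_add, mul_smul]; exact N'.smul_mem _ h2

theorem Pl_Pl (l : k) (N : Submodule k[X] M) : Pl l (Pl l N) = Pl l N := by
  apply le_antisymm
  · rintro v ⟨p, hp, q, hq, h⟩
    exact ⟨q * p, by rw [eval_mul]; exact mul_ne_zero hq hp, by rw [mul_smul]; exact h⟩
  · exact le_Pl l _

theorem Al_Al (l : k) (N : Submodule k[X] M) : Al l (Al l N) = Al l N := by
  apply le_antisymm
  · rintro v ⟨i, j, h⟩
    exact ⟨j + i, by rw [pow_add, mul_smul]; exact h⟩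
  · exact le_Al l _

/-- finiteness passes to larger submodules -/
theorem finite_of_le {N N' : Submodule k[X] M} (h : N ≤ N') [Module.Finite k (M ⧸ N)] :
    Module.Finite k (M ⧸ N') := by
  let f : (M ⧸ N) →ₗ[k] (M ⧸ N') := (Submodule.factor h).restrictScalars k
  exact Module.Finite.of_surjective f (Submodule.factor_surjective h)

theorem finrank_le_of_le {N N' : Submodule k[X] M} (h : N ≤ N') [Module.Finite k (M ⧸ N)] :
    Module.finrank k (M ⧸ N') ≤ Module.finrank k (M ⧸ N) := by
  let f : (M ⧸ N) →ₗ[k] (M ⧸ N') := (Submodule.factor h).restrictScalars k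
  exact LinearMap.finrank_le_finrank_of_surjective (f := f) (Submodule.factor_surjective h)

theorem eq_of_le_finrank {N N' : Submodule k[X] M} (h : N ≤ N') [Module.Finite k (M ⧸ N)]
    (hf : Module.finrank k (M ⧸ N') = Module.finrank k (M ⧸ N)) : N = N' := by
  have hfin := finite_of_le h
  let f : (M ⧸ N) →ₗ[k] (M ⧸ N') := (Submodule.factor h).restrictScalars k
  have hs : Function.Surjective f := Submodule.factor_surjective h
  have hi : Function.Injective f :=
    (LinearMap.injective_iff_surjective_of_finrank_eq_finrank hf.symm).2 hs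
  apply le_antisymm h
  intro v hv
  rw [← Submodule.Quotient.mk_eq_zero N]
  apply hi
  rw [map_zero]
  change Submodule.factor h (Submodule.Quotient.mk v) = 0
  have : Submodule.factor h (Submodule.Quotient.mk v) = Submodule.Quotient.mk v := rfl
  rw [this, Submodule.Quotient.mk_eq_zero]
  exact hv

/-- the Chinese remainder theorem -/
theorem finrank_inf {A B : Submodule k[X] M} (hAB : A ⊔ B = ⊤) [Module.Finite k (M ⧸ A)]
    [Module.Finite k (M ⧸ B)] : Module.Finite k (M ⧸ (A ⊓ B)) ∧
    Module.finrank k (M ⧸ (A ⊓ B)) = Module.finrank k (M ⧸ A) + Module.finrank k (M ⧸ B) := by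
  let f : (M ⧸ (A ⊓ B)) →ₗ[k] (M ⧸ A) × (M ⧸ B) :=
    ((Submodule.factor (inf_le_left : A ⊓ B ≤ A)).restrictScalars k).prod
      ((Submodule.factor (inf_le_right : A ⊓ B ≤ B)).restrictScalars k)
  have hf : ∀ v : M, f (Submodule.Quotient.mk v) =
      (Submodule.Quotient.mk v, Submodule.Quotient.mk v) := fun v => rfl
  have hbij : Function.Bijective f := by
    constructor
    · rw [injective_iff_map_eq_zero]
      intro x hx
      obtain ⟨v, rfl⟩ := Submodule.Quotient.mk_surjective _ x
      rw [hf, Prod.mk_eq_zero, Submodule.Quotient.mk_eq_zero, Submodule.Quotient.mk_eq_zero] at hx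
      rw [Submodule.Quotient.mk_eq_zero]
      exact hx
    · rintro ⟨x, y⟩
      obtain ⟨v, rfl⟩ := Submodule.Quotient.mk_surjective _ x
      obtain ⟨w, rfl⟩ := Submodule.Quotient.mk_surjective _ y
      have h1 : v - w ∈ A ⊔ B := by rw [hAB]; trivial
      obtain ⟨a, ha, b, hb, hab⟩ := Submodule.mem_sup.1 h1
      refine ⟨Submodule.Quotient.mk (v - a), ?_⟩
      rw [hf, Prod.mk.injEq]
      constructor
      · rw [Submodule.Quotient.eq]
        have : v - a - v = -a := by abel
        rw [this]; exact A.neg_mem ha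
      · rw [Submodule.Quotient.eq]
        have : v - a - w = b := by
          have : v - w = a + b := hab.symm
          rw [sub_right_comm, this]; abel
        rw [this]; exact hb
  let e := LinearEquiv.ofBijective f hbij
  constructor
  · exact Module.Finite.equiv e.symm
  · rw [e.finrank_eq, Module.finrank_prod]

/-- local length -/
def ll (l : k) (N : Submodule k[X] M) : ℕ := Module.finrank k (M ⧸ Pl l N)

theorem finrank_split (l : k) (N : Submodule k[X] M) [Module.Finite k (M ⧸ N)] :
    Module.finrank k (M ⧸ N) = ll l N + Module.finrank k (M ⧸ Al l N) := by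
  have := finite_of_le (le_Pl l N)
  have := finite_of_le (le_Al l N)
  have h := (finrank_inf (Pl_sup_Al N l)).2
  rw [Pl_inf_Al] at h
  exact h

theorem ll_le (l : k) (N : Submodule k[X] M) [Module.Finite k (M ⧸ N)] :
    ll l N ≤ Module.finrank k (M ⧸ N) := finrank_le_of_le (le_Pl l N)

theorem eq_top_of_finrank {N : Submodule k[X] M} [Module.Finite k (M ⧸ N)]
    (h : Module.finrank k (M ⧸ N) = 0) : N = ⊤ := by
  have h1 : Subsingleton (M ⧸ N) := Module.finrank_zero_iff.1 h
  rw [eq_top_iff]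
  intro v _
  rw [← Submodule.Quotient.mk_eq_zero N]
  exact Subsingleton.elim _ _

theorem finrank_top : Module.finrank k (M ⧸ (⊤ : Submodule k[X] M)) = 0 := by
  have : Subsingleton (M ⧸ (⊤ : Submodule k[X] M)) := Submodule.Quotient.subsingleton_iff.2 rfl
  exact Module.finrank_zero_of_subsingleton

theorem exists_point [IsAlgClosed k] {N : Submodule k[X] M} (h : N ≠ ⊤) : ∃ l, Pl l N ≠ ⊤ := by
  by_contra hall
  push Not at hall
  apply h
  rw [eq_top_iff]
  intro v _
  -- the ideal of polynomials sending `v` into `N`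
  let I : Ideal k[X] :=
    { carrier := {p | p • v ∈ N}
      add_mem' := fun {p q} hp hq => by
        rw [Set.mem_ofPred_eq] at *
        rw [add_smul]; exact N.add_mem hp hq
      zero_mem' := by rw [Set.mem_ofPred_eq, zero_smul]; exact N.zero_mem
      smul_mem' := fun c p hp => by
        rw [Set.mem_ofPred_eq] at *
        rw [smul_eq_mul, mul_smul]; exact N.smul_mem _ hp }
  have hI : ∀ p, p ∈ I ↔ p • v ∈ N := fun p => Iff.rfl
  obtain ⟨g, hg⟩ := (IsPrincipalIdealRing.principal I).principal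
  have hg' : ∀ p, p ∈ I ↔ g ∣ p := by
    intro p
    rw [hg]
    exact Ideal.mem_span_singleton
  have hunit : IsUnit g := by
    by_contra hu
    have hroot : ∃ l, g.eval l = 0 := by
      by_cases hd : g.degree = 0
      · exact absurd (isUnit_iff_degree_eq_zero.2 hd) hu
      · by_cases hg0 : g = 0
        · exact ⟨0, by rw [hg0]; simp⟩
        · exact IsAlgClosed.exists_root g hd
    obtain ⟨l, hl⟩ := hroot
    have h1 : v ∈ Pl l N := by rw [hall l]; trivial
    obtain ⟨p, hp, hpv⟩ := h1
    obtain ⟨q, rfl⟩ := (hg' p).1 hpv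
    apply hp
    rw [eval_mul, hl, zero_mul]
  have h1 : (1 : k[X]) ∈ I := (hg' 1).2 hunit.dvd
  rw [hI, one_smul] at h1
  exact h1

theorem sum_ll [IsAlgClosed k] (n : ℕ) : ∀ (N : Submodule k[X] M) [Module.Finite k (M ⧸ N)],
    Module.finrank k (M ⧸ N) = n →
    ∃ s : Finset k, (∀ l, l ∉ s → ll l N = 0) ∧ ∑ l ∈ s, ll l N = n := by
  classical
  induction n using Nat.strong_induction_on with
  | _ n ih =>
    intro N hN hn
    by_cases h0 : n = 0
    · refine ⟨∅, fun l _ => ?_, by simp [h0]⟩
      have := ll_le l N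
      omega
    · have hne : N ≠ ⊤ := by
        rintro rfl
        apply h0
        rw [← hn, finrank_top]
      obtain ⟨l, hl⟩ := exists_point hne
      have hfinP := finite_of_le (le_Pl l N)
      have hfinA := finite_of_le (le_Al l N)
      have hpos : ll l N ≠ 0 := by
        intro h
        exact hl (eq_top_of_finrank h)
      have hsplit := finrank_split l N
      obtain ⟨s, hs0, hs⟩ := ih (Module.finrank k (M ⧸ Al l N)) (by omega) (Al l N) rfl
      have hother : ∀ m, m ≠ l → ll m N = ll m (Al l N) := by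
        intro m hm
        unfold ll
        have h1 : Pl m N = Pl m (Al l N) := by
          conv_lhs => rw [← Pl_inf_Al l N, Pl_inf, Pl_Pl_ne N hm.symm, top_inf_eq]
        rw [h1]
      have hself : ll l (Al l N) = 0 := by
        unfold ll
        rw [Pl_Al, finrank_top]
      refine ⟨insert l s, ?_, ?_⟩
      · intro m hm
        rw [Finset.mem_insert, not_or] at hm
        rw [hother m hm.1]
        exact hs0 m hm.2
      · have h2 : ∑ m ∈ insert l s, ll m N = ll l N + ∑ m ∈ s.erase l, ll m N := by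
          rw [← Finset.sum_insert (f := fun m => ll m N) (Finset.notMem_erase l s)]
          congr 1
          ext m
          by_cases hm : m = l <;> simp [hm]
        have h3 : ∑ m ∈ s.erase l, ll m N = ∑ m ∈ s.erase l, ll m (Al l N) :=
          Finset.sum_congr rfl fun m hm => hother m (Finset.ne_of_mem_erase hm)
        have h4 : ∑ m ∈ s.erase l, ll m (Al l N) = ∑ m ∈ s, ll m (Al l N) := by
          apply Finset.sum_subset (Finset.erase_subset l s)
          intro m hm hm'
          have : m = l := by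
            by_contra hne
            exact hm' (Finset.mem_erase.2 ⟨hne, hm⟩)
          rw [this, hself]
        rw [h2, h3, h4, hs, ← hsplit, hn]

end Pool.Agent.Helper345_Quot
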