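import Mathlib.RingTheory.PowerSeries.Basic
import Mathlib.RingTheory.PowerSeries.Trunc
import Mathlib.Tactic

/-!
Euler integral in one variable over an infinite field, and truncated power series integrals.
-/

noncomputable section

namespace Pool.Agent.Helper345_Quot

open PowerSeries

variable {k : Type*}

/-- `φ` equals `c` off a finite set -/
def AC (φ : k → ℤ) (c : ℤ) : Prop := {x | φ x ≠ c}.Finite

open Classical in
/-- The Euler integral of an integer valued function in one variable: for a function equal to `c`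
off a finite set it is `c + ∑ (φ x - c)` (note that the Euler characteristic of the affine line
is one). -/
def eint (φ : k → ℤ) : ℤ :=
  if h : ∃ c, AC φ c then h.choose + ∑ x ∈ h.choose_spec.toFinset, (φ x - h.choose) else 0

theorem AC.unique [Infinite k] {φ : k → ℤ} {c c' : ℤ} (h : AC φ c) (h' : AC φ c') : c = c' := by
  by_contra hne
  have : (Set.univ : Set k) ⊆ {x | φ x ≠ c} ∪ {x | φ x ≠ c'} := by
    intro x _
    by_cases hx : φ x = c
    · right
      intro hx'
      exact hne (hx.symm.trans hx')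
    · left; exact hx
  exact Set.infinite_univ ((h.union h').subset this)

theorem eint_eq [Infinite k] {φ : k → ℤ} {c : ℤ} (s : Finset k) (h : ∀ x, x ∉ s → φ x = c) :
    eint φ = c + ∑ x ∈ s, (φ x - c) := by
  classical
  have hac : AC φ c := by
    apply Set.Finite.subset s.finite_toSet
    intro x hx
    by_contra hxs
    exact hx (h x hxs)
  have hex : ∃ c, AC φ c := ⟨c, hac⟩
  unfold eint
  rw [dif_pos hex]
  have hc : hex.choose = c := hex.choose_spec.unique hac
  have h1 : ∑ x ∈ hex.choose_spec.toFinset, (φ x - hex.choose) =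
      ∑ x ∈ hac.toFinset, (φ x - c) := by
    have h2 : hex.choose_spec.toFinset = hac.toFinset := by
      ext x
      rw [Set.Finite.mem_toFinset, Set.Finite.mem_toFinset, hc]
    rw [h2, hc]
  rw [h1, hc]
  congr 1
  apply Finset.sum_subset
  · intro x hx
    by_contra hxs
    exact (Set.Finite.mem_toFinset _).1 hx (h x hxs)
  · intro x _ hx
    have : φ x = c := by
      by_contra hne
      exact hx ((Set.Finite.mem_toFinset _).2 hne)
    rw [this, sub_self]

theorem eint_const [Infinite k] (c : ℤ) : eint (fun _ : k => c) = c := by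
  rw [eint_eq (c := c) ∅ (by simp)]
  simp

theorem eint_comp_equiv [Infinite k] (φ : k → ℤ) (e : k ≃ k) : eint (fun x => φ (e x)) = eint φ := by
  classical
  by_cases h : ∃ c, AC φ c
  · obtain ⟨c, hc⟩ := h
    have h1 : ∀ x, x ∉ hc.toFinset → φ x = c := by
      intro x hx
      by_contra hne
      exact hx ((Set.Finite.mem_toFinset _).2 hne)
    rw [eint_eq hc.toFinset h1]
    rw [eint_eq (c := c) (hc.toFinset.map e.symm.toEmbedding)]
    · rw [Finset.sum_map]
      simp
    · intro x hx
      apply h1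
      intro hx'
      apply hx
      rw [Finset.mem_map]
      exact ⟨e x, hx', by simp⟩
  · have h' : ¬ ∃ c, AC (fun x => φ (e x)) c := by
      rintro ⟨c, hc⟩
      apply h
      refine ⟨c, ?_⟩
      have : {x | φ x ≠ c} = e '' {x | φ (e x) ≠ c} := by
        ext y
        constructor
        · intro hy
          exact ⟨e.symm y, by simpa using hy, by simp⟩
        · rintro ⟨x, hx, rfl⟩
          exact hx
      rw [AC, this]
      exact hc.image _
    unfold eint
    rw [dif_neg h, dif_neg h']

variable [Field k]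

/-- The iterated Euler integral over truncated power series with `N` coefficients. -/
def tint : ℕ → (k⟦X⟧ → ℤ) → ℤ
  | 0, Φ => Φ 0
  | N + 1, Φ => eint (fun ξ : k => tint N (fun t => Φ (C ξ + X * t)))

/-- integral over the ball with centre `p` and radius `γ`, to depth `M` -/
def bint (p : k⟦X⟧) (γ M : ℕ) (Φ : k⟦X⟧ → ℤ) : ℤ := tint M (fun s => Φ (p + X ^ γ * s))

theorem bint_zero (p : k⟦X⟧) (γ : ℕ) (Φ : k⟦X⟧ → ℤ) : bint p γ 0 Φ = Φ p := by
  simp [bint, tint]

theorem bint_succ (p : k⟦X⟧) (γ M : ℕ) (Φ : k⟦X⟧ → ℤ) :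
    bint p γ (M + 1) Φ = eint (fun ξ : k => bint (p + C ξ * X ^ γ) (γ + 1) M Φ) := by
  unfold bint
  rw [tint]
  congr 1
  funext ξ
  congr 1
  funext s
  congr 1
  ring

theorem tint_eq_bint (N : ℕ) (Φ : k⟦X⟧ → ℤ) : tint N Φ = bint 0 0 N Φ := by
  simp [bint]

theorem tint_const [Infinite k] (N : ℕ) (c : ℤ) : tint N (fun _ : k⟦X⟧ => c) = c := by
  induction N with
  | zero => rfl
  | succ N ih =>
    rw [tint]
    simp only [ih]
    exact eint_const c

/-- periodicity modulo `X^N` -/
def Per (N : ℕ) (Φ : k⟦X⟧ → ℤ) : Prop := ∀ t t', X ^ N ∣ t - t' → Φ t = Φ t'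

theorem bint_const [Infinite k] (p : k⟦X⟧) (γ M : ℕ) (Φ : k⟦X⟧ → ℤ) (c : ℤ)
    (h : ∀ t, X ^ γ ∣ t - p → Φ t = c) : bint p γ M Φ = c := by
  unfold bint
  have : (fun s => Φ (p + X ^ γ * s)) = fun _ => c := by
    funext s
    apply h
    exact ⟨s, by ring⟩
  rw [this, tint_const]

/-- centre independence -/
theorem bint_congr [Infinite k] (M : ℕ) : ∀ (γ : ℕ) (p p' : k⟦X⟧) (Φ : k⟦X⟧ → ℤ),
    Per (γ + M) Φ → X ^ γ ∣ p - p' → bint p γ M Φ = bint p' γ M Φ := by
  induction M with
  | zero =>
    intro γ p p' Φ hper hdvd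
    rw [bint_zero, bint_zero]
    exact hper p p' hdvd
  | succ M ih =>
    intro γ p p' Φ hper hdvd
    obtain ⟨r, hr⟩ := hdvd
    rw [bint_succ, bint_succ]
    have h1 : ∀ ξ : k, bint (p + C ξ * X ^ γ) (γ + 1) M Φ =
        bint (p' + C (ξ + constantCoeff r) * X ^ γ) (γ + 1) M Φ := by
      intro ξ
      apply ih
      · have : γ + 1 + M = γ + (M + 1) := by ring
        rw [this]; exact hper
      · have h2 : X ∣ r - C (constantCoeff r) := by
          rw [PowerSeries.X_dvd_iff]; simp
        obtain ⟨r', hr'⟩ := h2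
        refine ⟨r', ?_⟩
        rw [map_add]
        have h3 : p = p' + X ^ γ * r := by rw [← hr]; ring
        rw [h3]
        have h4 : r = C (constantCoeff r) + X * r' := by rw [← hr']; ring
        calc p' + X ^ γ * r + C ξ * X ^ γ - (p' + (C ξ + C (constantCoeff r)) * X ^ γ)
            = X ^ γ * (r - C (constantCoeff r)) := by ring
          _ = X ^ (γ + 1) * r' := by rw [hr']; ring
    simp only [h1]
    exact eint_comp_equiv (fun ξ => bint (p' + C ξ * X ^ γ) (γ + 1) M Φ)
      (Equiv.addRight (constantCoeff r))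

end Pool.Agent.Helper345_Quot
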