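import Pool.Agent.Helper345_Quot.Gauss
import Pool.Agent.Helper345_Quot.Eint
import Mathlib.RingTheory.Polynomial.GaussNorm
import Mathlib.Algebra.Polynomial.Taylor

/-!
Balls, roots and centres.
-/

noncomputable section

namespace Pool.Agent.Helper345_Quot

open PowerSeries
open scoped NNReal

variable {k : Type*} [Field k]

/-- one half -/
def hf : ℝ≥0 := 1 / 2

theorem hf_pos : 0 < hf := by unfold hf; positivity
theorem hf_lt_one : hf < 1 := by
  unfold hf; rw [← NNReal.coe_lt_coe]; norm_num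

theorem hf_pow_lt {a b : ℕ} : hf ^ a < hf ^ b ↔ b < a :=
  pow_lt_pow_iff_right_of_lt_one₀ hf_pos hf_lt_one

theorem hf_pow_le {a b : ℕ} : hf ^ a ≤ hf ^ b ↔ b ≤ a :=
  pow_le_pow_iff_right_of_lt_one₀ hf_pos hf_lt_one

theorem hf_pow_inj {a b : ℕ} (h : hf ^ a = hf ^ b) : a = b :=
  le_antisymm (hf_pow_le.1 h.ge) (hf_pow_le.1 h.le)

theorem nn_emb {f : k⟦X⟧} (hf0 : f ≠ 0) : nn k (emb k f) = hf ^ (nu k f - 1) := by
  apply NNReal.eq
  rw [coe_nn, nrm_emb k f hf0]
  simp [nu, hf0, hf]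

theorem nu_ne_zero {f : k⟦X⟧} (hf0 : f ≠ 0) : nu k f ≠ 0 := by simp [nu, hf0]

theorem nu_eq_zero {f : k⟦X⟧} : nu k f = 0 ↔ f = 0 := by
  constructor
  · intro h; by_contra h'; exact nu_ne_zero h' h
  · rintro rfl; simp [nu]

theorem nu_eq_of_nn {f : k⟦X⟧} {m : ℕ} (h : nn k (emb k f) = hf ^ m) : nu k f = m + 1 := by
  have h0 : f ≠ 0 := by
    rintro rfl
    rw [map_zero, nn_zero] at h
    exact (pow_pos hf_pos m).ne h
  rw [nn_emb h0] at h
  have := hf_pow_inj h
  have := nu_ne_zero h0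
  omega

theorem nn_emb_X : nn k (emb k X) = hf := by
  apply NNReal.eq
  rw [coe_nn, nrm_emb_X]
  simp [hf]

theorem dvd_iff_nn (f : k⟦X⟧) (n : ℕ) : X ^ n ∣ f ↔ nn k (emb k f) ≤ hf ^ n := by
  constructor
  · rintro ⟨g, rfl⟩
    rw [map_mul, map_pow, nn_mul, nn_pow, nn_emb_X]
    calc hf ^ n * nn k (emb k g) ≤ hf ^ n * 1 := by gcongr; exact nn_emb_le_one g
      _ = hf ^ n := mul_one _
  · intro h
    by_cases h0 : f = 0
    · subst h0; exact dvd_zero _
    · rw [nn_emb h0, hf_pow_le] at h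
      have h1 := PowerSeries.X_pow_order_dvd (φ := f)
      have h2 : nu k f = f.order.toNat + 1 := by simp [nu, h0]
      exact (pow_dvd_pow X (by omega)).trans h1

theorem dvd_succ_iff_nn (f : k⟦X⟧) (n : ℕ) : X ^ (n + 1) ∣ f ↔ nn k (emb k f) < hf ^ n := by
  rw [dvd_iff_nn]
  constructor
  · intro h
    exact h.trans_lt (hf_pow_lt.2 (Nat.lt_succ_self n))
  · intro h
    by_cases h0 : f = 0
    · subst h0; rw [map_zero, nn_zero]; exact zero_le
    · rw [nn_emb h0, hf_pow_lt] at h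
      rw [nn_emb h0, hf_pow_le]
      omega

/-- nonarchimedean: triangles are isosceles -/
theorem nn_sub_comm (u v : LL k) : nn k (u - v) = nn k (v - u) := by
  rw [← nn_neg]; congr 1; ring

theorem nn_sub_trans {u v w : LL k} {c : ℝ≥0} (h1 : nn k (u - v) ≤ c) (h2 : nn k (v - w) ≤ c) :
    nn k (u - w) ≤ c := by
  have : u - w = (u - v) + (v - w) := by ring
  rw [this]
  exact (nn_add_le _ _).trans (max_le h1 h2)

theorem nn_sub_trans_lt {u v w : LL k} {c : ℝ≥0} (h1 : nn k (u - v) < c) (h2 : nn k (v - w) < c) :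
    nn k (u - w) < c := by
  have : u - w = (u - v) + (v - w) := by ring
  rw [this]
  exact (nn_add_le _ _).trans_lt (max_lt h1 h2)

theorem nn_sub_eq {u v w : LL k} (h : nn k (u - v) < nn k (v - w)) :
    nn k (u - w) = nn k (v - w) := by
  have : u - w = (v - w) + (u - v) := by ring
  rw [this]
  exact nn_add_eq_of_lt h

/-- averages of roots in a ball around a rational point are rational -/
theorem average_rational [CharZero k] {d : ℕ} (r : Fin d → LL k)
    (hgal : ∀ σ : LL k ≃ₐ[LaurentSeries k] LL k,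
      Multiset.map (fun l => σ (r l)) Finset.univ.val = Multiset.map r Finset.univ.val)
    (p : k⟦X⟧) (P : ℝ≥0 → Prop) (E : Finset (Fin d))
    (hE : ∀ l, l ∈ E ↔ P (nn k (r l - emb k p))) :
    ∃ x : LaurentSeries k, algebraMap _ _ x = ((E.card : LL k)⁻¹ * ∑ l ∈ E, r l) := by
  classical
  apply fixed_mem
  intro σ
  have hn : ∀ u : LL k, nn k (σ u - emb k p) = nn k (u - emb k p) := by
    intro u
    have h1 : σ u - emb k p = σ (u - emb k p) := by
      rw [map_sub]
      congr 1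
      exact (σ.commutes _).symm
    rw [h1]
    apply NNReal.eq
    exact nrm_galois k σ _
  have hsum : σ (∑ l ∈ E, r l) = ∑ l ∈ E, r l := by
    let φ : LL k → LL k := fun u => if P (nn k (u - emb k p)) then u else 0
    have h1 : ∑ l ∈ E, r l = ((Multiset.map r Finset.univ.val).map φ).sum := by
      rw [Multiset.map_map]
      change _ = ∑ l, φ (r l)
      rw [← Finset.sum_filter_add_sum_filter_not Finset.univ (fun l => l ∈ E)]
      have h2 : ∑ x ∈ Finset.univ.filter (fun l => l ∉ E), φ (r x) = 0 := by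
        apply Finset.sum_eq_zero
        intro l hl
        have : l ∉ E := (Finset.mem_filter.1 hl).2
        rw [hE] at this
        simp [φ, this]
      rw [h2, add_zero]
      have h3 : Finset.univ.filter (fun l => l ∈ E) = E := by ext; simp
      rw [h3]
      apply Finset.sum_congr rfl
      intro l hl
      rw [hE] at hl
      simp [φ, hl]
    have hφ : ∀ u, σ (φ u) = φ (σ u) := by
      intro u
      simp only [φ, hn]
      split_ifs
      · rfl
      · exact map_zero σ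
    rw [h1]
    conv_rhs => rw [← hgal σ]
    rw [map_multiset_sum, Multiset.map_map, Multiset.map_map, Multiset.map_map]
    congr 1
    apply Multiset.map_congr rfl
    intro l _
    simp only [Function.comp_apply]
    exact hφ _
  rw [map_mul, hsum, map_inv₀, map_natCast]

theorem nn_natCast [CharZero k] {n : ℕ} (hn : n ≠ 0) : nn k (n : LL k) = 1 := by
  have h1 : ((n : ℕ) : LL k) = emb k (C (n : k)) := by
    simp
  rw [h1]
  exact nn_emb_C (by exact_mod_cast hn)

instance [CharZero k] : CharZero (LL k) := by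
  constructor
  intro m n h
  have h1 : emb k (C (m : k)) = emb k (C (n : k)) := by
    simpa using h
  have h2 := emb_injective k h1
  have h3 := PowerSeries.C_injective h2
  exact_mod_cast h3

/-- the average of elements in a closed ball is in the ball -/
theorem average_le [CharZero k] {d : ℕ} (r : Fin d → LL k) (E : Finset (Fin d)) (hE : E.Nonempty)
    (y : LL k) (c : ℝ≥0) (h : ∀ l ∈ E, nn k (r l - y) ≤ c) :
    nn k ((E.card : LL k)⁻¹ * ∑ l ∈ E, r l - y) ≤ c := by
  have hc : (E.card : LL k) ≠ 0 := by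
    exact_mod_cast hE.card_ne_zero
  have h1 : (E.card : LL k)⁻¹ * ∑ l ∈ E, r l - y = (E.card : LL k)⁻¹ * ∑ l ∈ E, (r l - y) := by
    rw [Finset.sum_sub_distrib, Finset.sum_const, nsmul_eq_mul, mul_sub, ← mul_assoc,
      inv_mul_cancel₀ hc, one_mul]
  rw [h1, nn_mul, nn_inv, nn_natCast hE.card_ne_zero, inv_one, one_mul]
  exact nn_sum_le _ _ h

theorem average_lt [CharZero k] {d : ℕ} (r : Fin d → LL k) (E : Finset (Fin d)) (hE : E.Nonempty)
    (y : LL k) (c : ℝ≥0) (hc0 : 0 < c) (h : ∀ l ∈ E, nn k (r l - y) < c) :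
    nn k ((E.card : LL k)⁻¹ * ∑ l ∈ E, r l - y) < c := by
  have hc : (E.card : LL k) ≠ 0 := by
    exact_mod_cast hE.card_ne_zero
  have h1 : (E.card : LL k)⁻¹ * ∑ l ∈ E, r l - y = (E.card : LL k)⁻¹ * ∑ l ∈ E, (r l - y) := by
    rw [Finset.sum_sub_distrib, Finset.sum_const, nsmul_eq_mul, mul_sub, ← mul_assoc,
      inv_mul_cancel₀ hc, one_mul]
  rw [h1, nn_mul, nn_inv, nn_natCast hE.card_ne_zero, inv_one, one_mul]
  exact nn_sum_lt _ _ hc0 h

/-- rational centre for a closed ball -/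
theorem centre_closed [CharZero k] {d : ℕ} (r : Fin d → LL k)
    (hgal : ∀ σ : LL k ≃ₐ[LaurentSeries k] LL k,
      Multiset.map (fun l => σ (r l)) Finset.univ.val = Multiset.map r Finset.univ.val)
    (p : k⟦X⟧) (γ : ℕ) (E : Finset (Fin d)) (hne : E.Nonempty)
    (hE : ∀ l, l ∈ E ↔ nn k (r l - emb k p) ≤ hf ^ γ) :
    ∃ q : k⟦X⟧, emb k q = ((E.card : LL k)⁻¹ * ∑ l ∈ E, r l) ∧ X ^ γ ∣ q - p := by
  obtain ⟨x, hx⟩ := average_rational r hgal p (fun c => c ≤ hf ^ γ) E hE
  have h1 := average_le r E hne (emb k p) (hf ^ γ) (fun l hl => (hE l).1 hl)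
  rw [← hx] at h1
  have h2 : nn k (algebraMap _ _ x) ≤ 1 := by
    have : algebraMap (LaurentSeries k) (LL k) x = (algebraMap _ _ x - emb k p) + emb k p := by
      ring
    rw [this]
    refine (nn_add_le _ _).trans (max_le (h1.trans ?_) (nn_emb_le_one p))
    exact pow_le_one' hf_lt_one.le _
  obtain ⟨q, hq⟩ := nrm_le_one_mem k x h2
  refine ⟨q, by rw [hq, hx], ?_⟩
  rw [dvd_iff_nn, map_sub, hq]
  exact h1

/-- rational centre for an open ball -/
theorem centre_open [CharZero k] {d : ℕ} (r : Fin d → LL k)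
    (hgal : ∀ σ : LL k ≃ₐ[LaurentSeries k] LL k,
      Multiset.map (fun l => σ (r l)) Finset.univ.val = Multiset.map r Finset.univ.val)
    (p : k⟦X⟧) (γ : ℕ) (E : Finset (Fin d)) (hne : E.Nonempty)
    (hE : ∀ l, l ∈ E ↔ nn k (r l - emb k p) < hf ^ γ) :
    ∃ q : k⟦X⟧, emb k q = ((E.card : LL k)⁻¹ * ∑ l ∈ E, r l) ∧ X ^ (γ + 1) ∣ q - p := by
  obtain ⟨x, hx⟩ := average_rational r hgal p (fun c => c < hf ^ γ) E hE
  have h1 := average_lt r E hne (emb k p) (hf ^ γ) (pow_pos hf_pos _) (fun l hl => (hE l).1 hl)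
  rw [← hx] at h1
  have h2 : nn k (algebraMap _ _ x) ≤ 1 := by
    have : algebraMap (LaurentSeries k) (LL k) x = (algebraMap _ _ x - emb k p) + emb k p := by
      ring
    rw [this]
    refine (nn_add_le _ _).trans (max_le (h1.le.trans ?_) (nn_emb_le_one p))
    exact pow_le_one' hf_lt_one.le _
  obtain ⟨q, hq⟩ := nrm_le_one_mem k x h2
  refine ⟨q, by rw [hq, hx], ?_⟩
  rw [dvd_succ_iff_nn, map_sub, hq]
  exact h1

/-- residues in a ball -/
theorem residue_ball [IsAlgClosed k] (u : LL k) (p : k⟦X⟧) (γ : ℕ)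
    (h : nn k (u - emb k p) ≤ hf ^ γ) :
    ∃ ξ : k, nn k (u - emb k (p + C ξ * X ^ γ)) < hf ^ γ := by
  have hX : emb k X ≠ 0 := by
    intro h0
    have := nn_emb_X (k := k)
    rw [h0, nn_zero] at this
    exact hf_pos.ne this
  have hXg : emb k X ^ γ ≠ 0 := pow_ne_zero _ hX
  have h1 : nn k ((u - emb k p) / emb k X ^ γ) ≤ 1 := by
    rw [div_eq_mul_inv, nn_mul, nn_inv, nn_pow, nn_emb_X]
    calc nn k (u - emb k p) * (hf ^ γ)⁻¹ ≤ hf ^ γ * (hf ^ γ)⁻¹ := by gcongr
      _ = 1 := mul_inv_cancel₀ (pow_pos hf_pos _).ne'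
  obtain ⟨ξ, hξ⟩ := residue k _ h1
  refine ⟨ξ, ?_⟩
  have h2 : u - emb k (p + C ξ * X ^ γ) =
      ((u - emb k p) / emb k X ^ γ - emb k (C ξ)) * emb k X ^ γ := by
    rw [sub_mul, div_mul_cancel₀ _ hXg, map_add, map_mul, map_pow]
    ring
  rw [h2, nn_mul, nn_pow, nn_emb_X]
  have h3 : nn k ((u - emb k p) / emb k X ^ γ - emb k (C ξ)) < 1 := hξ
  calc _ < 1 * hf ^ γ := by gcongr; exact pow_pos hf_pos _
    _ = hf ^ γ := one_mul _

theorem residue_unique (u : LL k) (p : k⟦X⟧) (γ : ℕ) {ξ ξ' : k}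
    (h : nn k (u - emb k (p + C ξ * X ^ γ)) < hf ^ γ)
    (h' : nn k (u - emb k (p + C ξ' * X ^ γ)) < hf ^ γ) : ξ = ξ' := by
  by_contra hne
  rw [nn_sub_comm] at h
  have h1 := nn_sub_trans_lt h h'
  rw [← map_sub] at h1
  have h2 : p + C ξ * X ^ γ - (p + C ξ' * X ^ γ) = C (ξ - ξ') * X ^ γ := by
    rw [map_sub]; ring
  rw [h2, map_mul, map_pow, nn_mul, nn_pow, nn_emb_X, nn_emb_C (sub_ne_zero.2 hne), one_mul] at h1
  exact lt_irrefl _ h1

end Pool.Agent.Helper345_Quot
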