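import Mathlib.LinearAlgebra.FiniteDimensional.Basic
import Mathlib.RingTheory.FiniteType
import Mathlib.RingTheory.Finiteness.Basic
import Mathlib.Tactic

/-!
Bounded generation for submodules of finite codimension.
-/

noncomputable section

namespace Pool.Agent.Helper345_Quot

variable {k : Type*} [Field k] {R : Type*} [CommRing R] [Algebra k R] {M : Type*}
  [AddCommGroup M] [Module R M] [Module k M] [IsScalarTower k R M]

/-- the filtration by degree -/
def Wf {s m : ℕ} (x : Fin s → R) (h : Fin m → M) : ℕ → Submodule k M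
  | 0 => Submodule.span k (Set.range h)
  | d + 1 => Wf x h d ⊔ ⨆ i, (Wf x h d).map (Algebra.lsmul k k M (x i))

section

variable {s m : ℕ} {x : Fin s → R} {h : Fin m → M}

theorem Wf_fg (d : ℕ) : (Wf (k := k) x h d).FG := by
  induction d with
  | zero => exact Submodule.fg_span (Set.finite_range h)
  | succ d ih =>
    exact ih.sup (Submodule.fg_iSup _ fun i => ih.map _)

theorem Wf_le (d : ℕ) : Wf (k := k) x h d ≤ Wf (k := k) x h (d + 1) := le_sup_left

theorem Wf_mono {d e : ℕ} (hde : d ≤ e) : Wf (k := k) x h d ≤ Wf (k := k) x h e := by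
  induction e, hde using Nat.le_induction with
  | base => exact le_rfl
  | succ e _ ih => exact ih.trans (Wf_le e)

theorem mem_Wf_zero (j : Fin m) : h j ∈ Wf (k := k) x h 0 := Submodule.subset_span ⟨j, rfl⟩

theorem smul_mem_Wf {d : ℕ} {v : M} (hv : v ∈ Wf (k := k) x h d) (i : Fin s) :
    x i • v ∈ Wf (k := k) x h (d + 1) := by
  apply (le_sup_right : _ ≤ Wf (k := k) x h (d + 1))
  exact (le_iSup (fun i => (Wf (k := k) x h d).map (Algebra.lsmul k k M (x i))) i) ⟨v, hv, rfl⟩

/-- stability under the generators of the ring -/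
theorem stable_of_gen (hx : Function.Surjective (MvPolynomial.aeval (R := k) x)) (V : Submodule k M)
    (hV : ∀ i, ∀ v ∈ V, x i • v ∈ V) (r : R) : ∀ v ∈ V, r • v ∈ V := by
  obtain ⟨p, rfl⟩ := hx r
  induction p using MvPolynomial.induction_on with
  | C a =>
    intro v hv
    rw [← MvPolynomial.algebraMap_eq, AlgHom.commutes, algebraMap_smul]
    exact V.smul_mem _ hv
  | add p q hp hq =>
    intro v hv
    rw [map_add, add_smul]
    exact V.add_mem (hp v hv) (hq v hv)
  | mul_X p i hp =>
    intro v hv
    rw [map_mul, MvPolynomial.aeval_X, mul_smul]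
    exact hp _ (hV i v hv)

theorem eq_top_of_gen (hx : Function.Surjective (MvPolynomial.aeval (R := k) x))
    (hh : Submodule.span R (Set.range h) = ⊤) (V : Submodule k M)
    (hV : ∀ i, ∀ v ∈ V, x i • v ∈ V) (hhV : ∀ j, h j ∈ V) : V = ⊤ := by
  let V' : Submodule R M :=
    { carrier := V
      add_mem' := V.add_mem
      zero_mem' := V.zero_mem
      smul_mem' := fun r v hv => stable_of_gen hx V hV r v hv }
  have h1 : V' = ⊤ := by
    rw [eq_top_iff, ← hh, Submodule.span_le]
    rintro _ ⟨j, rfl⟩
    exact hhV j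
  rw [eq_top_iff]
  intro v _
  have h2 : v ∈ V' := by rw [h1]; trivial
  exact h2

theorem bdd_sup (hx : Function.Surjective (MvPolynomial.aeval (R := k) x))
    (hh : Submodule.span R (Set.range h) = ⊤) (N : Submodule R M) [Module.Finite k (M ⧸ N)]
    {n : ℕ} (hn : Module.finrank k (M ⧸ N) ≤ n) :
    Wf (k := k) x h n ⊔ N.restrictScalars k = ⊤ := by
  let π : M →ₗ[k] (M ⧸ N) := N.mkQ.restrictScalars k
  have hker : LinearMap.ker π = N.restrictScalars k := by
    ext v
    rw [LinearMap.mem_ker]
    change N.mkQ v = 0 ↔ _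
    rw [Submodule.mkQ_apply, Submodule.Quotient.mk_eq_zero]
    rfl
  -- a criterion
  have hcrit : ∀ V : Submodule k M, V.map π = ⊤ → V ⊔ N.restrictScalars k = ⊤ := by
    intro V hV
    rw [← hker, ← Submodule.comap_map_eq, hV, Submodule.comap_top]
  by_contra hcon
  have hne : ∀ d ≤ n, (Wf (k := k) x h d).map π ≠ ⊤ := by
    intro d hd htop
    apply hcon
    have h1 := hcrit _ htop
    rw [eq_top_iff] at h1 ⊢
    exact h1.trans (sup_le_sup_right (Wf_mono hd) _)
  have hstep : ∀ d ≤ n, d ≤ Module.finrank k ((Wf (k := k) x h d).map π) := by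
    intro d
    induction d with
    | zero => intro _; exact Nat.zero_le _
    | succ d ih =>
      intro hd
      have h1 := ih (by omega)
      have h2 : (Wf (k := k) x h d).map π < (Wf (k := k) x h (d + 1)).map π := by
        refine lt_of_le_of_ne (Submodule.map_mono (Wf_le d)) ?_
        intro heq
        apply hne d (by omega)
        apply le_antisymm le_top
        have h3 : (Wf (k := k) x h d).map π = ⊤ := by
          have h4 : Submodule.comap π ((Wf (k := k) x h d).map π) = ⊤ := by
            apply eq_top_of_gen hx hh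
            · intro i v hv
              obtain ⟨w, hw, hwv⟩ := hv
              have h5 : π (x i • w) ∈ (Wf (k := k) x h d).map π := by
                rw [heq]
                exact ⟨_, smul_mem_Wf hw i, rfl⟩
              have h6 : π (x i • w) = π (x i • v) := by
                change N.mkQ (x i • w) = N.mkQ (x i • v)
                rw [map_smul, map_smul]
                congr 1
              rw [Submodule.mem_comap, ← h6]
              exact h5
            · intro j
              exact ⟨h j, Wf_mono (Nat.zero_le d) (mem_Wf_zero j), rfl⟩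
          rw [eq_top_iff]
          intro q _
          obtain ⟨v, rfl⟩ := Submodule.Quotient.mk_surjective _ q
          have : v ∈ Submodule.comap π ((Wf (k := k) x h d).map π) := by rw [h4]; trivial
          exact this
        rw [h3]
      have := Submodule.finrank_lt_finrank_of_lt h2
      omega
  have h1 := hstep n le_rfl
  have h2 : (Wf (k := k) x h n).map π = ⊤ := by
    apply Submodule.eq_top_of_finrank_eq
    apply le_antisymm (Submodule.finrank_le _)
    omega
  exact hne n le_rfl h2

theorem bdd_le (hx : Function.Surjective (MvPolynomial.aeval (R := k) x))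
    (hh : Submodule.span R (Set.range h) = ⊤) (N N' : Submodule R M) [Module.Finite k (M ⧸ N)]
    {n : ℕ} (hn : Module.finrank k (M ⧸ N) ≤ n) :
    N ≤ N' ↔ ∀ v ∈ Wf (k := k) x h (n + 1), v ∈ N → v ∈ N' := by
  constructor
  · intro h v _ hv
    exact h hv
  · intro hle
    let N₀ : Submodule R M := Submodule.span R {v | v ∈ Wf (k := k) x h (n + 1) ∧ v ∈ N}
    have h0 : N₀ ≤ N := by
      rw [Submodule.span_le]
      rintro v ⟨_, hv⟩
      exact hv
    have h1 : N₀ ≤ N' := by
      rw [Submodule.span_le]
      rintro v ⟨hv, hv'⟩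
      exact hle v hv hv'
    have hsup := bdd_sup hx hh N hn
    have htop : Wf (k := k) x h n ⊔ N₀.restrictScalars k = ⊤ := by
      apply eq_top_of_gen hx hh
      · intro i v hv
        obtain ⟨w, hw, u, hu, rfl⟩ := Submodule.mem_sup.1 hv
        rw [smul_add]
        have h2 : x i • w ∈ Wf (k := k) x h n ⊔ N.restrictScalars k := by rw [hsup]; trivial
        obtain ⟨w', hw', ν, hν, hw2⟩ := Submodule.mem_sup.1 h2
        have h3 : ν ∈ N₀ := by
          apply Submodule.subset_span
          refine ⟨?_, hν⟩
          have : ν = x i • w - w' := by rw [← hw2]; abel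
          rw [this]
          exact Submodule.sub_mem _ (smul_mem_Wf hw i) (Wf_le n hw')
        rw [← hw2, add_assoc]
        exact Submodule.add_mem_sup hw' (N₀.add_mem h3 (N₀.smul_mem _ hu))
      · intro j
        exact Submodule.mem_sup_left (Wf_mono (Nat.zero_le n) (mem_Wf_zero j))
    have hle' : N ≤ N₀ := by
      intro v hv
      have h2 : v ∈ Wf (k := k) x h n ⊔ N₀.restrictScalars k := by rw [htop]; trivial
      obtain ⟨w, hw, u, hu, rfl⟩ := Submodule.mem_sup.1 h2
      have hw' : w ∈ N := by
        have : w = (w + u) - u := by abel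
        rw [this]
        exact N.sub_mem hv (h0 hu)
      exact N₀.add_mem (Submodule.subset_span ⟨Wf_le n hw, hw'⟩) hu
    exact hle'.trans h1

end

variable (k R M) in
/-- bounded families -/
theorem exists_bdd [Algebra.FiniteType k R] [Module.Finite R M] (n : ℕ) :
    ∃ (a b : ℕ) (w : Fin a → M) (v : Fin b → M),
      (∀ N : Submodule R M, Module.Finite k (M ⧸ N) → Module.finrank k (M ⧸ N) ≤ n →
        ∀ g : M, ∃ c : Fin a → k, g - ∑ j, c j • w j ∈ N) ∧
      (∀ N N' : Submodule R M, Module.Finite k (M ⧸ N) → Module.finrank k (M ⧸ N) ≤ n →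
        (N ≤ N' ↔ ∀ c : Fin b → k, ∑ j, c j • v j ∈ N → ∑ j, c j • v j ∈ N')) := by
  obtain ⟨s, f, hf⟩ := Algebra.FiniteType.iff_quotient_mvPolynomial''.1
    (inferInstance : Algebra.FiniteType k R)
  obtain ⟨m, h, hh⟩ := Module.Finite.exists_fin (R := R) (M := M)
  let x : Fin s → R := fun i => f (MvPolynomial.X i)
  have hx : Function.Surjective (MvPolynomial.aeval (R := k) x) := by
    have : MvPolynomial.aeval (R := k) x = f := by
      apply MvPolynomial.algHom_ext
      intro i
      simp [x]
    rw [this]; exact hf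
  obtain ⟨a, w, hw⟩ := Submodule.fg_iff_exists_fin_generating_family.1 (Wf_fg (k := k) (x := x) (h := h) n)
  obtain ⟨b, v, hv⟩ := Submodule.fg_iff_exists_fin_generating_family.1
    (Wf_fg (k := k) (x := x) (h := h) (n + 1))
  refine ⟨a, b, w, v, ?_, ?_⟩
  · intro N hN hn g
    have h1 : g ∈ Wf (k := k) x h n ⊔ N.restrictScalars k := by rw [bdd_sup hx hh N hn]; trivial
    obtain ⟨w', hw', u, hu, rfl⟩ := Submodule.mem_sup.1 h1
    rw [← hw, Submodule.mem_span_range_iff_exists_fun] at hw'
    obtain ⟨c, rfl⟩ := hw'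
    refine ⟨c, ?_⟩
    rw [add_sub_cancel_left]
    exact hu
  · intro N N' hN hn
    rw [bdd_le hx hh N N' hn]
    constructor
    · intro h c hc
      apply h _ _ hc
      rw [← hv]
      exact Submodule.sum_mem _ fun j _ => Submodule.smul_mem _ _ (Submodule.subset_span ⟨j, rfl⟩)
    · intro h u hu hu'
      rw [← hv, Submodule.mem_span_range_iff_exists_fun] at hu
      obtain ⟨c, rfl⟩ := hu
      exact h c hu'

/-- codimension through dependence of bounded elements -/
theorem codim_le_iff {a : ℕ} {w : Fin a → M} {N : Submodule R M} [Module.Finite k (M ⧸ N)]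
    (hw : ∀ g : M, ∃ c : Fin a → k, g - ∑ j, c j • w j ∈ N) (m : ℕ) :
    Module.finrank k (M ⧸ N) ≤ m ↔ ∀ c : Fin (m + 1) × Fin a → k,
      ∃ b : Fin (m + 1) → k, (∃ i, b i ≠ 0) ∧ ∑ p : Fin (m + 1) × Fin a, (b p.1 * c p) • w p.2 ∈ N := by
  have hsum : ∀ (c : Fin (m + 1) × Fin a → k) (b : Fin (m + 1) → k),
      ∑ p : Fin (m + 1) × Fin a, (b p.1 * c p) • w p.2 = ∑ i, b i • ∑ j, c (i, j) • w j := by
    intro c b
    rw [Fintype.sum_prod_type]
    apply Finset.sum_congr rfl
    intro i _
    rw [Finset.smul_sum]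
    apply Finset.sum_congr rfl
    intro j _
    rw [mul_smul]
  let π : M →ₗ[k] (M ⧸ N) := N.mkQ.restrictScalars k
  have hπ : ∀ v, π v = 0 ↔ v ∈ N := by
    intro v
    change N.mkQ v = 0 ↔ _
    rw [Submodule.mkQ_apply, Submodule.Quotient.mk_eq_zero]
  constructor
  · intro hle c
    have h1 : ¬ LinearIndependent k (fun i : Fin (m + 1) => π (∑ j, c (i, j) • w j)) := by
      intro hli
      have := hli.fintype_card_le_finrank
      rw [Fintype.card_fin] at this
      omega
    rw [Fintype.not_linearIndependent_iff] at h1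
    obtain ⟨b, hb, i, hi⟩ := h1
    refine ⟨b, ⟨i, hi⟩, ?_⟩
    rw [hsum, ← hπ, map_sum]
    simp only [map_smul]
    exact hb
  · intro h
    by_contra hcon
    push Not at hcon
    obtain ⟨f, hf⟩ := exists_linearIndependent_of_le_finrank (R := k) (M := M ⧸ N)
      (n := m + 1) (by omega)
    choose g hg using fun i => Submodule.Quotient.mk_surjective _ (f i)
    choose c hc using fun i => hw (g i)
    obtain ⟨b, ⟨i, hi⟩, hb⟩ := h (fun p => c p.1 p.2)
    rw [hsum, ← hπ, map_sum] at hb
    simp only [map_smul] at hb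
    have h1 : ∀ i, π (∑ j, c i j • w j) = f i := by
      intro i
      rw [← hg i]
      have h2 := (hπ _).2 (hc i)
      rw [map_sub, sub_eq_zero] at h2
      exact h2.symm
    simp only [h1] at hb
    exact hi (Fintype.linearIndependent_iff.1 hf b hb i)

end Pool.Agent.Helper345_Quot
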