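import Pool.Agent.Helper345_Quot.Fam

/-!
Boundedness along families and the Euler characteristic as a tame iterated integral.
-/

noncomputable section

namespace Pool.Agent.Helper345_Quot

open PowerSeries

variable {k : Type*} [Field k] {τ : Type*} [DecidableEq τ]

theorem Good_congr (N : τ → ℕ) (L : List τ) : ∀ (F G : (τ → k⟦X⟧) → ℤ) (θ : τ → k⟦X⟧),
    (∀ θ', (∀ w, w ∉ L → θ' w = θ w) → F θ' = G θ') → Good N F L θ → Good N G L θ := by
  induction L with
  | nil => intro F G θ _ _; trivial
  | cons v L ih =>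
    intro F G θ h hg
    have hsub : ∀ (t : k⟦X⟧) (θ' : τ → k⟦X⟧), (∀ w, w ∉ L → θ' w = Function.update θ v t w) →
        ∀ w, w ∉ (v :: L) → θ' w = θ w := by
      intro t θ' h' w hw
      rw [List.mem_cons, not_or] at hw
      rw [h' w hw.2, Function.update_of_ne hw.1]
    refine ⟨fun t => ih F G _ (fun θ' h' => h θ' (hsub t θ' h')) (hg.1 t), ?_⟩
    intro t t' htt
    have h1 := hg.2 t t' htt
    beta_reduce at h1 ⊢
    rw [← iint_congr N L F G _ (fun θ' h' => h θ' (hsub t θ' h')),
      ← iint_congr N L F G _ (fun θ' h' => h θ' (hsub t' θ' h')), h1]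

/-- The set up: a tame function, and a shift invariant function agreeing with it on `D`. -/
structure Setup (k : Type*) [Field k] (τ : Type*) [DecidableEq τ] (ι : Type*) where
  /-- tame function -/
  Ft : (τ → k⟦X⟧) → (ι → ℕ) → ℤ
  tame : TameZ (nu k) Ft
  /-- depths -/
  n : τ → ι

/-- the data for a fixed tuple -/
structure Setup.At {ι : Type*} (S : Setup k τ ι) (L : List τ) (a : ι → ℕ) where
  /-- the admissible points -/
  D : Set (τ → k⟦X⟧)
  D_update : ∀ θ ∈ D, ∀ v ∈ L, ∀ t, Function.update θ v t ∈ D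
  /-- shift invariant function -/
  F : (τ → k⟦X⟧) → ℤ
  good : ∀ v L', (∃ L₁, L = L₁ ++ v :: L') → ∀ θ ∈ D, Good (fun v => a (S.n v)) F (v :: L') θ
  agree : ∀ θ ∈ D, F θ = S.Ft θ a
  nodup : L.Nodup

theorem iint_eq_J [IsAlgClosed k] [CharZero k] {ι : Type*} [Finite ι] (S : Setup k τ ι)
    (L L₁ L' : List τ) (hL : L = L₁ ++ L') :
    ∃ J : (τ → k⟦X⟧) → (ι → ℕ) → ℤ, TameZ (nu k) J ∧
      ∀ (a : ι → ℕ) (A : S.At L a), ∀ θ ∈ A.D,
        iint (fun v => a (S.n v)) A.F L' θ = J θ a := by
  obtain ⟨J, hJ, h⟩ := iint_tame S.n L' S.tame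
  refine ⟨J, hJ, fun a A θ hθ => ?_⟩
  have hD : ∀ θ', (∀ w, w ∉ L' → θ' w = θ w) → θ' ∈ A.D := by
    -- finite sequence of updates
    intro θ' h'
    have key : ∀ (M : List τ), (∀ w ∈ M, w ∈ L') → ∀ θ₁ ∈ A.D,
        (∀ w, w ∉ M → θ' w = θ₁ w) → θ' ∈ A.D := by
      intro M
      induction M with
      | nil =>
        intro _ θ₁ h1 h2
        have : θ' = θ₁ := funext fun w => h2 w (by simp)
        rw [this]; exact h1
      | cons v M ih =>
        intro hM θ₁ h1 h2
        apply ih (fun w hw => hM w (List.mem_cons_of_mem _ hw)) (Function.update θ₁ v (θ' v))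
        · apply A.D_update _ h1
          rw [hL]
          exact List.mem_append_right _ (hM v (List.mem_cons_self))
        · intro w hw
          by_cases hwv : w = v
          · subst hwv; simp
          · rw [Function.update_of_ne hwv]
            exact h2 w (by simp [hwv, hw])
    exact key L' (fun w hw => hw) θ hθ h'
  rw [iint_congr _ L' A.F (fun θ => S.Ft θ a) θ (fun θ' h' => A.agree θ' (hD θ' h'))]
  apply h
  cases L' with
  | nil => trivial
  | cons v L'' =>
    exact Good_congr _ _ _ _ θ (fun θ' h' => A.agree θ' (hD θ' h'))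
      (A.good v L'' ⟨L₁, hL⟩ θ hθ)

theorem bdd_all [IsAlgClosed k] [CharZero k] {ι : Type*} [Finite ι] (S : Setup k τ ι)
    (L : List τ) (a : ι → ℕ) (A : S.At L a) (L' : List τ) : ∀ (L₁ : List τ), L = L₁ ++ L' →
    ∀ {κ : Type} (θ : (κ → k) → (τ → k⟦X⟧)), (∀ y, θ y ∈ A.D) →
      (∀ y, ∀ w ∈ L', θ y w = 0) →
      Bdd A.F (allStps (fun v => a (S.n v)) L') θ := by
  induction L' with
  | nil => intros; trivial
  | cons v L' ih =>
    intro L₁ hL κ θ hD hz
    have hvL : v ∈ L := by rw [hL]; simp
    have hnd : (v :: L').Nodup := by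
      have := A.nodup
      rw [hL] at this
      exact (List.nodup_append.1 this).2.1
    obtain ⟨hv, hnd'⟩ := List.nodup_cons.1 hnd
    have hL2 : L = (L₁ ++ [v]) ++ L' := by rw [hL]; simp
    obtain ⟨J, hJ, hJ'⟩ := iint_eq_J S L (L₁ ++ [v]) L' hL2
    obtain ⟨B, hB⟩ := update_bound v hJ
    have hz' : ∀ y, ∀ w ∈ L', θ y w = 0 := fun y w hw => hz y w (List.mem_cons_of_mem _ hw)
    -- induction on the number of remaining steps
    have key : ∀ (M γ : ℕ) {κ : Type} (θ : (κ → k) → (τ → k⟦X⟧)), (∀ y, θ y ∈ A.D) →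
        (∀ y, ∀ w ∈ L', θ y w = 0) →
        Bdd A.F (stps v γ M ++ allStps (fun v => a (S.n v)) L') θ := by
      intro M
      induction M with
      | zero =>
        intro γ κ θ hD hz
        simp only [stps, List.range'_zero, List.map_nil, List.nil_append]
        exact ih (L₁ ++ [v]) hL2 θ hD hz
      | succ M ihM =>
        intro γ κ θ hD hz
        rw [stps_succ, List.cons_append]
        refine ⟨⟨B, fun y => ?_⟩, ?_⟩
        · obtain ⟨c, R, hR, hc⟩ := hB (θ y) a (θ y v) γ M
          refine ⟨c, R, hR, fun x hx => ?_⟩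
          rw [← hc x hx]
          beta_reduce
          rw [eiter_stps]
          have h1 : stp v γ (θ y) x v = θ y v + C x * X ^ γ := by simp [stp]
          rw [h1]
          congr 1
          funext t
          have h2 : Function.update (stp v γ (θ y) x) v t = Function.update (θ y) v t := by
            simp [stp]
          rw [h2, eiter_allStps _ _ _ hnd']
          · exact hJ' a A _ (A.D_update _ (hD y) v hvL t)
          · intro w hw
            have : w ≠ v := fun h => hv (h ▸ hw)
            rw [Function.update_of_ne this]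
            exact hz y w hw
        · apply ihM
          · intro y
            exact A.D_update _ (hD _) v hvL _
          · intro y w hw
            have : w ≠ v := fun h => hv (h ▸ hw)
            simp only [stp, Function.update_of_ne this]
            exact hz _ w hw
    exact key _ 0 θ hD hz'

/-- The main evaluation: the Euler characteristic of the parameter space is a tame function. -/
theorem chi_eval [IsAlgClosed k] [CharZero k] (E : EulerChar k) {ι : Type*} [Finite ι]
    (S : Setup k τ ι) (L : List τ) :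
    ∃ J : (τ → k⟦X⟧) → (ι → ℕ) → ℤ, TameZ (nu k) J ∧
      ∀ (a : ι → ℕ) (A : S.At L a), ∀ θ₀ ∈ A.D, (∀ w ∈ L, θ₀ w = 0) →
        CF (fun x => A.F (fam (allStps (fun v => a (S.n v)) L) (κ := Empty) (fun _ => θ₀) x)) →
        E.int (fun x => A.F (fam (allStps (fun v => a (S.n v)) L) (κ := Empty) (fun _ => θ₀) x)) =
          J θ₀ a := by
  have : Infinite k := IsAlgClosed.instInfinite
  obtain ⟨J, hJ, hJ'⟩ := iint_eq_J S L [] L rfl
  refine ⟨J, hJ, fun a A θ₀ hθ₀ hz hCF => ?_⟩
  have h1 := eiter_fubini E A.F (allStps (fun v => a (S.n v)) L) (κ := Empty) (fun _ => θ₀) hCF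
    (bdd_all S L a A L [] rfl _ (fun _ => hθ₀) (fun _ => hz))
  rw [h1.2]
  have h2 : ∀ y : Empty → k, eiter A.F (allStps (fun v => a (S.n v)) L) θ₀ = J θ₀ a := by
    intro y
    rw [eiter_allStps _ _ _ A.nodup θ₀ hz, hJ' a A θ₀ hθ₀]
  have h3 : E.int (fun y : Empty → k => eiter A.F (allStps (fun v => a (S.n v)) L) θ₀) =
      E.int (fun y : Empty → k => J θ₀ a * 1) := by
    apply E.int_congr
    intro y
    rw [h2 y, mul_one]
  rw [h3, E.int_smul _ (CF.const 1)]
  have h4 : E.int (fun _ : Empty → k => (1 : ℤ)) = 1 := by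
    classical
    have h5 := E.int_indicator (κ := Empty) (p := fun _ => True) (Dfn.const True)
    simp only [if_true] at h5
    rw [h5]
    apply E.P_unique
    exact ⟨fun i => i.elim, trivial, fun y _ => funext fun i => i.elim⟩
  rw [h4, mul_one]

end Pool.Agent.Helper345_Quot
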