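import Pool.Agent.Helper345_Quot.Dfn
import Pool.Agent.Helper345_Quot.Eint

/-!
Euler characteristics of definable sets.
-/

noncomputable section

namespace Pool.Agent.Helper345_Quot

variable {k : Type*} [Field k]

namespace EulerChar

variable (E : EulerChar k)

/-- Euler characteristic of a predicate -/
def P {κ : Type} (p : (κ → k) → Prop) : ℤ := E.χ {x | p x}

theorem P_congr {κ : Type} {p q : (κ → k) → Prop} (h : ∀ x, p x ↔ q x) : E.P p = E.P q := by
  have : p = q := funext fun x => propext (h x)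
  rw [this]

theorem P_false {κ : Type} [Finite κ] {p : (κ → k) → Prop} (h : ∀ x, ¬ p x) : E.P p = 0 := by
  have h1 : {x | p x} = (∅ : Set (κ → k)) := by ext x; simp [h x]
  unfold P
  rw [h1]
  have h2 : DefinableIn k (∅ : Set (κ → k)) := by
    have := Dfn.const (k := k) (κ := κ) False
    unfold Dfn at this
    simpa using this
  have h3 := E.union ∅ ∅ h2 h2 (by simp)
  rw [Set.union_empty] at h3
  omega

theorem P_or {κ : Type} [Finite κ] {p q : (κ → k) → Prop} (hp : Dfn p) (hq : Dfn q)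
    (h : ∀ x, ¬ (p x ∧ q x)) : E.P (fun x => p x ∨ q x) = E.P p + E.P q := by
  apply E.union _ _ hp hq
  rw [Set.disjoint_left]
  intro x h1 h2
  exact h x ⟨h1, h2⟩

theorem P_exists {κ : Type} [Finite κ] {J : Type*} (s : Finset J) {p : J → (κ → k) → Prop}
    (hp : ∀ j, Dfn (p j)) (h : ∀ x i j, p i x → p j x → i = j) :
    E.P (fun x => ∃ j ∈ s, p j x) = ∑ j ∈ s, E.P (p j) := by
  classical
  induction s using Finset.induction_on with
  | empty => rw [E.P_false (fun x => by simp)]; simp
  | insert j s hj ih =>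
    rw [Finset.sum_insert hj, ← ih, ← E.P_or (hp j)]
    · apply E.P_congr
      intro x; simp
    · have h1 : Dfn (fun x : κ → k => ∃ j : s, p j x) := Dfn.exists_fin fun j => hp j
      exact h1.congr fun x => by simp
    · rintro x ⟨h1, i, hi, h2⟩
      exact hj (h x _ _ h2 h1 ▸ hi)

/-- total decomposition -/
theorem P_split {κ : Type} [Finite κ] {J : Type*} (s : Finset J) {A : J → (κ → k) → Prop}
    (hA : ∀ j, Dfn (A j)) (h : ∀ x i j, A i x → A j x → i = j) {p : (κ → k) → Prop} (hp : Dfn p)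
    (hcov : ∀ x, p x → ∃ j ∈ s, A j x) :
    E.P p = ∑ j ∈ s, E.P (fun x => p x ∧ A j x) := by
  rw [← E.P_exists s (fun j => hp.and (hA j)) (fun x i j h1 h2 => h x i j h1.2 h2.2)]
  apply E.P_congr
  intro x
  constructor
  · intro hx
    obtain ⟨j, hj, hA⟩ := hcov x hx
    exact ⟨j, hj, hx, hA⟩
  · rintro ⟨j, _, hx, _⟩
    exact hx

theorem P_fibre {κ κ' : Type} [Finite κ] [Finite κ'] {p : (κ ⊕ κ' → k) → Prop} (c : ℤ)
    (hp : Dfn p) (h : ∀ y : κ → k, (∃ z, p (Sum.elim y z)) → E.P (fun z => p (Sum.elim y z)) = c) :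
    E.P p = c * E.P (fun y => ∃ z, p (Sum.elim y z)) :=
  E.fibre _ c hp h

theorem P_reindex {κ κ' : Type} [Finite κ] [Finite κ'] (e : κ ≃ κ') {p : (κ → k) → Prop}
    (hp : Dfn p) : E.P (fun x : κ' → k => p (x ∘ e)) = E.P p :=
  E.reindex e _ hp

theorem dfn_singleton {κ : Type*} [Finite κ] (x : κ → k) : Dfn (fun y : κ → k => y = x) := by
  have h : Dfn (fun y : κ → k => ∀ i, y i = x i) :=
    Dfn.forall_fin fun i => Dfn.eq (PolyF.coord i) (PolyF.const (x i))
  exact h.congr fun y => funext_iff.symm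

theorem P_single {κ : Type} [Finite κ] (x : κ → k) : E.P (fun y => y = x) = 1 := E.point x

theorem P_unique {κ : Type} [Finite κ] {p : (κ → k) → Prop} (h : ∃! x, p x) : E.P p = 1 := by
  obtain ⟨x, hx, hu⟩ := h
  rw [← E.P_single x]
  apply E.P_congr
  intro y
  exact ⟨hu y, fun h => h ▸ hx⟩

/-- definable correspondences which are bijective preserve the Euler characteristic -/
theorem P_bij {κ κ' : Type} [Finite κ] [Finite κ'] {p : (κ → k) → Prop} {q : (κ' → k) → Prop}
    {R : (κ ⊕ κ' → k) → Prop} (hR : Dfn R)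
    (h1 : ∀ x y, R (Sum.elim x y) → p x ∧ q y)
    (h2 : ∀ x, p x → ∃! y, R (Sum.elim x y)) (h3 : ∀ y, q y → ∃! x, R (Sum.elim x y)) :
    E.P p = E.P q := by
  have h4 : E.P R = 1 * E.P (fun x => ∃ y, R (Sum.elim x y)) := by
    apply E.P_fibre 1 hR
    rintro x ⟨y, hy⟩
    exact E.P_unique (h2 x (h1 x y hy).1)
  have h5 : E.P (fun x => ∃ y, R (Sum.elim x y)) = E.P p := by
    apply E.P_congr
    intro x
    constructor
    · rintro ⟨y, hy⟩
      exact (h1 x y hy).1
    · intro hx
      exact (h2 x hx).exists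
  have hR' : Dfn (fun z : κ' ⊕ κ → k => R (z ∘ Equiv.sumComm κ κ')) := hR.reindex _
  have h6 : E.P R = E.P (fun z : κ' ⊕ κ → k => R (z ∘ Equiv.sumComm κ κ')) :=
    (E.P_reindex (Equiv.sumComm κ κ') hR).symm
  have hsw : ∀ (y : κ' → k) (x : κ → k), (Sum.elim y x : κ' ⊕ κ → k) ∘ Equiv.sumComm κ κ' =
      Sum.elim x y := by
    intro y x
    funext i
    rcases i with i | i <;> rfl
  have h7 : E.P (fun z : κ' ⊕ κ → k => R (z ∘ Equiv.sumComm κ κ')) =
      1 * E.P (fun y => ∃ x, R (Sum.elim x y)) := by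
    rw [E.P_fibre 1 hR']
    · simp only [hsw]
    · intro y hy
      simp only [hsw] at hy ⊢
      obtain ⟨x, hx⟩ := hy
      exact E.P_unique (h3 y (h1 x y hx).2)
  have h8 : E.P (fun y => ∃ x, R (Sum.elim x y)) = E.P q := by
    apply E.P_congr
    intro y
    constructor
    · rintro ⟨x, hx⟩
      exact (h1 x y hx).2
    · intro hy
      exact (h3 y hy).exists
  rw [← h5, ← h8]
  rw [one_mul] at h4 h7
  rw [← h4, h6, h7]

theorem P_finset {κ : Type} [Finite κ] (s : Finset (κ → k)) : E.P (fun x => x ∈ s) = s.card := by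
  have h := E.P_exists s (p := fun y x => x = y) (fun y => dfn_singleton y)
    (fun x i j h1 h2 => h1.symm.trans h2)
  have h2 : E.P (fun x => x ∈ s) = E.P (fun x => ∃ j ∈ s, x = j) := by
    apply E.P_congr
    intro x; simp
  rw [h2, h]
  simp [E.P_single]

theorem P_univ_unit : E.P (fun _ : Unit → k => True) = 1 := by
  have := E.line
  unfold P
  simpa using this

theorem P_cofinite (s : Finset (Unit → k)) : E.P (fun x => x ∉ s) = 1 - s.card := by
  have hs : Dfn (fun x : Unit → k => x ∈ s) := by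
    have h1 : Dfn (fun x : Unit → k => ∃ y : s, x = y.1) :=
      Dfn.exists_fin fun y => dfn_singleton y.1
    exact h1.congr fun x => by simp
  have h := E.P_or hs hs.not (fun x h => h.2 h.1)
  have h2 : E.P (fun x => x ∈ s ∨ x ∉ s) = E.P (fun _ : Unit → k => True) := by
    apply E.P_congr
    intro x
    simp only [iff_true]
    exact em _
  rw [h2, E.P_univ_unit, E.P_finset] at h
  omega

end EulerChar

/-! ### constructible functions -/

/-- constructible functions: finite range and definable level sets -/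
def CF {κ : Type*} (f : (κ → k) → ℤ) : Prop :=
  (∃ s : Finset ℤ, ∀ x, f x ∈ s) ∧ ∀ c, Dfn (fun x => f x = c)

theorem CF.congr {κ : Type*} {f g : (κ → k) → ℤ} (hf : CF f) (h : ∀ x, f x = g x) : CF g := by
  have : f = g := funext h
  exact this ▸ hf

theorem CF.const {κ : Type*} (n : ℤ) : CF (fun _ : κ → k => n) :=
  ⟨⟨{n}, fun _ => by simp⟩, fun _ => Dfn.const _⟩

theorem CF.map₂ {κ : Type*} {f g : (κ → k) → ℤ} (hf : CF f) (hg : CF g) (op : ℤ → ℤ → ℤ) :
    CF (fun x => op (f x) (g x)) := by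
  classical
  obtain ⟨⟨s, hs⟩, hf⟩ := hf
  obtain ⟨⟨t, ht⟩, hg⟩ := hg
  refine ⟨⟨(s ×ˢ t).image (fun x => op x.1 x.2), fun x =>
      Finset.mem_image.2 ⟨(f x, g x), by simp [hs, ht], rfl⟩⟩, fun n => ?_⟩
  have h1 : Dfn (fun x => ∃ y : (s ×ˢ t : Finset (ℤ × ℤ)), op y.1.1 y.1.2 = n ∧ f x = y.1.1 ∧
      g x = y.1.2) :=
    Dfn.exists_fin fun y => (Dfn.const _).and ((hf _).and (hg _))
  refine h1.congr fun x => ?_
  constructor
  · rintro ⟨y, h1, h2, h3⟩
    beta_reduce
    rw [h2, h3]; exact h1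
  · intro h
    exact ⟨⟨(f x, g x), by simp [hs, ht]⟩, h, rfl, rfl⟩

theorem CF.ite {κ : Type*} {p : (κ → k) → Prop} [DecidablePred p] (hp : Dfn p)
    {f g : (κ → k) → ℤ} (hf : CF f) (hg : CF g) : CF (fun x => if p x then f x else g x) := by
  obtain ⟨⟨s, hs⟩, hf⟩ := hf
  obtain ⟨⟨t, ht⟩, hg⟩ := hg
  refine ⟨⟨s ∪ t, fun x => ?_⟩, fun n => ?_⟩
  · beta_reduce
    split_ifs
    · exact Finset.mem_union_left _ (hs x)
    · exact Finset.mem_union_right _ (ht x)
  · refine ((hp.and (hf n)).or (hp.not.and (hg n))).congr fun x => ?_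
    beta_reduce
    split_ifs with h <;> simp [h]

theorem CF.indicator {κ : Type*} {p : (κ → k) → Prop} [DecidablePred p] (hp : Dfn p) :
    CF (fun x => if p x then (1 : ℤ) else 0) := CF.ite hp (CF.const 1) (CF.const 0)

theorem CF.sum {κ : Type*} {J : Type*} (s : Finset J) {f : J → (κ → k) → ℤ}
    (hf : ∀ j ∈ s, CF (f j)) : CF (fun x => ∑ j ∈ s, f j x) := by
  classical
  induction s using Finset.induction_on with
  | empty => exact (CF.const 0).congr fun x => by simp
  | insert j s hj ih =>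
    refine ((hf j (Finset.mem_insert_self _ _)).map₂
      (ih fun i hi => hf i (Finset.mem_insert_of_mem hi)) (· + ·)).congr fun x => ?_
    simp [Finset.sum_insert hj]

namespace EulerChar

variable (E : EulerChar k)

/-- integral with respect to the Euler characteristic -/
def int {κ : Type} (f : (κ → k) → ℤ) : ℤ := ∑ᶠ c : ℤ, c * E.P (fun x => f x = c)

theorem int_eq {κ : Type} [Finite κ] {J : Type*} (s : Finset J) {A : J → (κ → k) → Prop}
    (hA : ∀ j, Dfn (A j)) (h : ∀ x i j, A i x → A j x → i = j) {f : (κ → k) → ℤ}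
    (hf : CF f) (c : J → ℤ) (hcov : ∀ x, ∃ j ∈ s, A j x) (hc : ∀ j x, A j x → f x = c j) :
    E.int f = ∑ j ∈ s, c j * E.P (A j) := by
  classical
  have h1 : ∀ n : ℤ, E.P (fun x => f x = n) = ∑ j ∈ s, if c j = n then E.P (A j) else 0 := by
    intro n
    rw [E.P_split s hA h (hf.2 n) (fun x _ => hcov x)]
    apply Finset.sum_congr rfl
    intro j _
    split_ifs with hj
    · apply E.P_congr
      intro x
      constructor
      · exact fun h => h.2
      · exact fun h => ⟨(hc j x h).trans hj, h⟩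
    · apply E.P_false
      rintro x ⟨h1, h2⟩
      exact hj ((hc j x h2).symm.trans h1)
  unfold int
  rw [finsum_eq_sum_of_support_subset (s := s.image c)]
  · simp only [h1, Finset.mul_sum]
    rw [Finset.sum_comm]
    apply Finset.sum_congr rfl
    intro j hj
    rw [Finset.sum_eq_single (c j)]
    · simp
    · intro b _ hb
      rw [if_neg (Ne.symm hb)]
      simp
    · intro hn
      exact absurd (Finset.mem_image_of_mem c hj) hn
  · intro n hn
    rw [Function.mem_support] at hn
    by_contra hns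
    apply hn
    rw [h1 n, Finset.sum_eq_zero, mul_zero]
    intro j hj
    rw [if_neg]
    rintro rfl
    exact hns (by simpa using ⟨j, hj, rfl⟩)

theorem int_congr {κ : Type} {f g : (κ → k) → ℤ} (h : ∀ x, f x = g x) : E.int f = E.int g := by
  have : f = g := funext h
  rw [this]

theorem int_add {κ : Type} [Finite κ] {f g : (κ → k) → ℤ} (hf : CF f) (hg : CF g) :
    E.int (fun x => f x + g x) = E.int f + E.int g := by
  classical
  obtain ⟨s, hs⟩ := hf.1
  obtain ⟨t, ht⟩ := hg.1
  let A : ℤ × ℤ → (κ → k) → Prop := fun c x => f x = c.1 ∧ g x = c.2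
  have hA : ∀ c, Dfn (A c) := fun c => (hf.2 _).and (hg.2 _)
  have hu : ∀ x i j, A i x → A j x → i = j := by
    rintro x i j ⟨h1, h2⟩ ⟨h3, h4⟩
    exact Prod.ext (h1.symm.trans h3) (h2.symm.trans h4)
  have hcov : ∀ x, ∃ c ∈ s ×ˢ t, A c x := fun x => ⟨(f x, g x), by simp [hs, ht], rfl, rfl⟩
  rw [E.int_eq (s ×ˢ t) hA hu (hf.map₂ hg (· + ·)) (fun c => c.1 + c.2) hcov
      (fun c x h => by rw [h.1, h.2]),
    E.int_eq (s ×ˢ t) hA hu hf (fun c => c.1) hcov (fun c x h => h.1),
    E.int_eq (s ×ˢ t) hA hu hg (fun c => c.2) hcov (fun c x h => h.2), ← Finset.sum_add_distrib]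
  apply Finset.sum_congr rfl
  intro c _
  ring

theorem int_smul {κ : Type} [Finite κ] (n : ℤ) {f : (κ → k) → ℤ} (hf : CF f) :
    E.int (fun x => n * f x) = n * E.int f := by
  classical
  obtain ⟨s, hs⟩ := hf.1
  have hA : ∀ c, Dfn (fun x => f x = c) := hf.2
  have hu : ∀ x i j, f x = i → f x = j → i = j := fun x i j h1 h2 => h1.symm.trans h2
  have hcov : ∀ x, ∃ c ∈ s, f x = c := fun x => ⟨f x, hs x, rfl⟩
  rw [E.int_eq s hA hu (hf.map₂ (CF.const n) (fun a b => b * a)) (fun c => n * c) hcov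
      (fun c x h => by rw [h]),
    E.int_eq s hA hu hf (fun c => c) hcov (fun c x h => h), Finset.mul_sum]
  apply Finset.sum_congr rfl
  intro c _
  ring

theorem int_zero {κ : Type} [Finite κ] : E.int (fun _ : κ → k => (0 : ℤ)) = 0 := by
  have := E.int_smul (κ := κ) 0 (CF.const 0)
  simpa using this

theorem int_sum {κ : Type} [Finite κ] {J : Type*} (s : Finset J) {f : J → (κ → k) → ℤ}
    (hf : ∀ j ∈ s, CF (f j)) : E.int (fun x => ∑ j ∈ s, f j x) = ∑ j ∈ s, E.int (f j) := by
  classical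
  induction s using Finset.induction_on with
  | empty => simp [E.int_zero]
  | insert j s hj ih =>
    have h1 := E.int_add (hf j (Finset.mem_insert_self _ _))
      (CF.sum s fun i hi => hf i (Finset.mem_insert_of_mem hi))
    rw [Finset.sum_insert hj, ← ih fun i hi => hf i (Finset.mem_insert_of_mem hi), ← h1]
    apply E.int_congr
    intro x
    rw [Finset.sum_insert hj]

theorem int_indicator {κ : Type} [Finite κ] {p : (κ → k) → Prop} [DecidablePred p] (hp : Dfn p) :
    E.int (fun x => if p x then (1 : ℤ) else 0) = E.P p := by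
  classical
  let A : Bool → (κ → k) → Prop := fun b x => if b then p x else ¬ p x
  have hA : ∀ b, Dfn (A b) := by
    intro b; cases b
    · exact hp.not.congr fun x => by simp [A]
    · exact hp.congr fun x => by simp [A]
  rw [E.int_eq Finset.univ hA ?_ (CF.indicator hp) (fun b => if b then 1 else 0) ?_ ?_]
  · simp only [Fintype.sum_bool, if_true, one_mul]
    simp only [Bool.false_eq_true, if_false, zero_mul, add_zero]
    apply E.P_congr
    intro x; simp [A]
  · intro x i j h1 h2
    cases i <;> cases j <;> simp_all [A]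
  · intro x
    by_cases h : p x
    · exact ⟨true, by simp, by simp [A, h]⟩
    · exact ⟨false, by simp, by simp [A, h]⟩
  · intro b x h
    cases b <;> simp_all [A]

end EulerChar

end Pool.Agent.Helper345_Quot
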