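import Mathlib.Algebra.MvPolynomial.Equiv
import Mathlib.Algebra.MvPolynomial.CommRing
import Mathlib.Tactic

/-!
Evaluation of integer polynomials in a commutative ring.
-/

noncomputable section

namespace Pool.Agent.Helper345_Quot

open MvPolynomial

variable {A B : Type*} [CommRing A] [CommRing B] {τ σ : Type*}

/-- evaluation of integer polynomials -/
def ev (θ : τ → A) : MvPolynomial τ ℤ →+* A := eval₂Hom (Int.castRingHom A) θ

@[simp] theorem ev_X (θ : τ → A) (t : τ) : ev θ (X t) = θ t := by simp [ev]

@[simp] theorem ev_C (θ : τ → A) (n : ℤ) : ev θ (C n) = n := by simp [ev]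

theorem map_ev (f : A →+* B) (θ : τ → A) (p : MvPolynomial τ ℤ) :
    f (ev θ p) = ev (fun t => f (θ t)) p := by
  have : f.comp (ev θ) = ev (fun t => f (θ t)) := by
    apply MvPolynomial.ringHom_ext
    · intro r; simp
    · intro i; simp
  exact congrArg (fun g => g p) this

theorem ev_rename (f : σ → τ) (θ : τ → A) (p : MvPolynomial σ ℤ) :
    ev θ (rename f p) = ev (θ ∘ f) p := by
  have : (ev θ).comp (rename f).toRingHom = ev (θ ∘ f) := by
    apply MvPolynomial.ringHom_ext
    · intro r; simp
    · intro i; simp
  exact congrArg (fun g => g p) this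

theorem ev_bind₁ (Q : σ → MvPolynomial τ ℤ) (θ : τ → A) (p : MvPolynomial σ ℤ) :
    ev θ (bind₁ Q p) = ev (fun s => ev θ (Q s)) p := by
  have : (ev θ).comp (bind₁ Q).toRingHom = ev (fun s => ev θ (Q s)) := by
    apply MvPolynomial.ringHom_ext
    · intro r; simp
    · intro i; simp
  exact congrArg (fun g => g p) this

/-- every ring hom from integer polynomials is an evaluation -/
theorem ringHom_eq_ev (f : MvPolynomial τ ℤ →+* A) (p : MvPolynomial τ ℤ) :
    f p = ev (fun t => f (X t)) p := by
  have : f = ev (fun t => f (X t)) := by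
    apply MvPolynomial.ringHom_ext
    · intro r; simp
    · intro i; simp
  exact congrArg (fun g => g p) this

end Pool.Agent.Helper345_Quot
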