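import Mathlib.ModelTheory.Arithmetic.Presburger.Definability
import Pool.Agent.Helper345_Quot.Ev
import Mathlib.Data.Fintype.Option
import Mathlib.Tactic

/-!
Semilinear predicates and tame predicates.
-/

namespace Pool.Agent.Helper345_Quot

open MvPolynomial

/-- semilinear predicate on tuples of natural numbers -/
def SL {ι : Type*} (p : (ι → ℕ) → Prop) : Prop := IsSemilinearSet (Set.ofPred p)

section SL
variable {ι κ : Type*}

theorem SL.congr {p q : (ι → ℕ) → Prop} (hp : SL p) (h : ∀ a, p a ↔ q a) : SL q := by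
  have : p = q := funext fun a => propext (h a)
  exact this ▸ hp

theorem SL.and [Finite ι] {p q : (ι → ℕ) → Prop} (hp : SL p) (hq : SL q) :
    SL (fun a => p a ∧ q a) :=
  IsSemilinearSet.inter hp hq

theorem SL.not [Finite ι] {p : (ι → ℕ) → Prop} (hp : SL p) : SL (fun a => ¬ p a) :=
  IsSemilinearSet.compl hp

theorem SL.or {p q : (ι → ℕ) → Prop} (hp : SL p) (hq : SL q) :
    SL (fun a => p a ∨ q a) :=
  IsSemilinearSet.union hp hq

theorem SL.const [Finite ι] (P : Prop) : SL (fun _ : ι → ℕ => P) := by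
  by_cases h : P
  · simp only [h]
    exact IsSemilinearSet.univ
  · simp only [h]
    exact IsSemilinearSet.empty

theorem SL.reindex [Finite ι] {q : (κ → ℕ) → Prop} (hq : SL q) (f : κ → ι) :
    SL (fun a : ι → ℕ => q (a ∘ f)) := by
  have := IsSemilinearSet.preimage (M := ι → ℕ) (N := κ → ℕ) hq (LinearMap.funLeft ℕ ℕ f)
  exact this

theorem SL.exists' {p : (ι ⊕ κ → ℕ) → Prop} (hp : SL p) :
    SL (fun a : ι → ℕ => ∃ b : κ → ℕ, p (Sum.elim a b)) :=
  IsSemilinearSet.proj hp

/-- linear equations -/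
theorem SL.lin_eq [Fintype ι] (c d : ℕ) (u v : ι → ℕ) :
    SL (fun a : ι → ℕ => c + ∑ i, u i * a i = d + ∑ i, v i * a i) := by
  have := Nat.isSemilinearSet_setOfPred_mulVec_eq (ι := Unit) (κ := ι) (fun _ => c) (fun _ => d)
    (fun _ i => u i) (fun _ i => v i)
  refine SL.congr (p := fun x => (fun _ : Unit => c) + Matrix.mulVec (fun _ i => u i) x =
    (fun _ => d) + Matrix.mulVec (fun _ i => v i) x) this ?_
  intro a
  constructor
  · intro h
    have := congrFun h ()
    simpa [Matrix.mulVec, dotProduct] using this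
  · intro h
    funext _
    simpa [Matrix.mulVec, dotProduct] using h

end SL

/-! ### tame predicates -/

section Tame

variable {A : Type*} [CommRing A] (ν : A → ℕ)

/-- `p` is tame if it is a semilinear condition on the natural number variables together with
the values `ν (H θ)` for finitely many integer polynomials `H`. -/
def TameP {τ ι : Type*} (p : (τ → A) → (ι → ℕ) → Prop) : Prop :=
  ∃ (σ : Type) (_ : Finite σ) (H : σ → MvPolynomial τ ℤ) (q : (ι ⊕ σ → ℕ) → Prop),
    SL q ∧ ∀ θ a, p θ a ↔ q (Sum.elim a (fun j => ν (ev θ (H j))))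

variable {ν} {τ ι κ : Type*}

theorem TameP.congr {p q : (τ → A) → (ι → ℕ) → Prop} (hp : TameP ν p)
    (h : ∀ θ a, p θ a ↔ q θ a) : TameP ν q := by
  have : p = q := funext fun θ => funext fun a => propext (h θ a)
  exact this ▸ hp

theorem TameP.not [Finite ι] {p : (τ → A) → (ι → ℕ) → Prop} (hp : TameP ν p) :
    TameP ν (fun θ a => ¬ p θ a) := by
  obtain ⟨σ, _, H, q, hq, h⟩ := hp
  exact ⟨σ, inferInstance, H, fun v => ¬ q v, hq.not, fun θ a => by beta_reduce; rw [h]⟩

theorem TameP.and [Finite ι] {p p' : (τ → A) → (ι → ℕ) → Prop} (hp : TameP ν p)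
    (hp' : TameP ν p') : TameP ν (fun θ a => p θ a ∧ p' θ a) := by
  obtain ⟨σ, _, H, q, hq, h⟩ := hp
  obtain ⟨σ', _, H', q', hq', h'⟩ := hp'
  refine ⟨σ ⊕ σ', inferInstance, Sum.elim H H',
    fun v => q (v ∘ (Sum.map id Sum.inl)) ∧ q' (v ∘ (Sum.map id Sum.inr)),
    (hq.reindex _).and (hq'.reindex _), fun θ a => ?_⟩
  beta_reduce
  rw [h, h']
  have e1 : (Sum.elim a fun j => ν (ev θ (Sum.elim H H' j))) ∘ Sum.map id Sum.inl
      = Sum.elim a (fun j => ν (ev θ (H j))) := by
    funext x; cases x <;> rfl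
  have e2 : (Sum.elim a fun j => ν (ev θ (Sum.elim H H' j))) ∘ Sum.map id Sum.inr
      = Sum.elim a (fun j => ν (ev θ (H' j))) := by
    funext x; cases x <;> rfl
  rw [e1, e2]

theorem TameP.or [Finite ι] {p p' : (τ → A) → (ι → ℕ) → Prop} (hp : TameP ν p)
    (hp' : TameP ν p') : TameP ν (fun θ a => p θ a ∨ p' θ a) :=
  (hp.not.and hp'.not).not.congr fun θ a => by tauto

theorem TameP.imp [Finite ι] {p p' : (τ → A) → (ι → ℕ) → Prop} (hp : TameP ν p)
    (hp' : TameP ν p') : TameP ν (fun θ a => p θ a → p' θ a) :=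
  (hp.not.or hp').congr fun θ a => by tauto

theorem TameP.iff [Finite ι] {p p' : (τ → A) → (ι → ℕ) → Prop} (hp : TameP ν p)
    (hp' : TameP ν p') : TameP ν (fun θ a => (p θ a ↔ p' θ a)) :=
  ((hp.imp hp').and (hp'.imp hp)).congr fun θ a => by tauto

theorem TameP.const [Finite ι] (P : Prop) : TameP ν (fun (_ : τ → A) (_ : ι → ℕ) => P) :=
  ⟨Empty, inferInstance, fun j => j.elim, fun _ => P, SL.const P, fun _ _ => Iff.rfl⟩

/-- reindexing natural number variables -/
theorem TameP.reindex [Finite ι] {p : (τ → A) → (κ → ℕ) → Prop} (hp : TameP ν p) (f : κ → ι) :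
    TameP ν (fun θ (a : ι → ℕ) => p θ (a ∘ f)) := by
  obtain ⟨σ, _, H, q, hq, h⟩ := hp
  refine ⟨σ, inferInstance, H, fun v => q (v ∘ Sum.map f id), hq.reindex _, fun θ a => ?_⟩
  beta_reduce
  rw [h]
  have : (Sum.elim a fun j => ν (ev θ (H j))) ∘ Sum.map f id
      = Sum.elim (a ∘ f) (fun j => ν (ev θ (H j))) := by
    funext x; cases x <;> rfl
  rw [this]

/-- substituting polynomials for the ring variables -/
theorem TameP.subst {τ' : Type*} {p : (τ' → A) → (ι → ℕ) → Prop} (hp : TameP ν p)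
    (Q : τ' → MvPolynomial τ ℤ) :
    TameP ν (fun (θ : τ → A) a => p (fun j => ev θ (Q j)) a) := by
  obtain ⟨σ, _, H, q, hq, h⟩ := hp
  refine ⟨σ, inferInstance, fun j => bind₁ Q (H j), q, hq, fun θ a => ?_⟩
  beta_reduce
  rw [h]
  have : ∀ j, ev (fun j => ev θ (Q j)) (H j) = ev θ (bind₁ Q (H j)) := by
    intro j
    rw [ev_bind₁]
  simp only [this]

theorem TameP.exists_vec {p : (τ → A) → (ι ⊕ κ → ℕ) → Prop}
    [Finite ι] [Finite κ] (hp : TameP ν p) :
    TameP ν (fun θ (a : ι → ℕ) => ∃ b : κ → ℕ, p θ (Sum.elim a b)) := by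
  obtain ⟨σ, _, H, q, hq, h⟩ := hp
  let e : (ι ⊕ κ) ⊕ σ → (ι ⊕ σ) ⊕ κ :=
    Sum.elim (Sum.elim (fun i => Sum.inl (Sum.inl i)) (fun j => Sum.inr j))
      (fun s => Sum.inl (Sum.inr s))
  refine ⟨σ, inferInstance, H, fun v => ∃ b : κ → ℕ, q ((Sum.elim v b) ∘ e),
    (hq.reindex e).exists', fun θ a => ?_⟩
  apply exists_congr
  intro b
  rw [h]
  have : (Sum.elim (Sum.elim a fun j => ν (ev θ (H j))) b) ∘ e
      = Sum.elim (Sum.elim a b) (fun j => ν (ev θ (H j))) := by
    funext x; rcases x with (x | x) | x <;> rfl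
  rw [this]

theorem TameP.exists_nat {p : (τ → A) → (ι → ℕ) → ℕ → Prop}
    [Finite ι] (hp : TameP ν (fun θ (a : Option ι → ℕ) => p θ (fun i => a (some i)) (a none))) :
    TameP ν (fun θ (a : ι → ℕ) => ∃ n, p θ a n) := by
  let e : Option ι → ι ⊕ Unit := fun o => o.elim (Sum.inr ()) Sum.inl
  have h1 := (hp.reindex e).exists_vec
  refine h1.congr fun θ a => ?_
  constructor
  · rintro ⟨b, hb⟩
    exact ⟨b (), hb⟩
  · rintro ⟨n, hn⟩
    exact ⟨fun _ => n, hn⟩

theorem TameP.forall_nat {p : (τ → A) → (ι → ℕ) → ℕ → Prop}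
    [Finite ι] (hp : TameP ν (fun θ (a : Option ι → ℕ) => p θ (fun i => a (some i)) (a none))) :
    TameP ν (fun θ (a : ι → ℕ) => ∀ n, p θ a n) := by
  refine (TameP.exists_nat (p := fun θ a n => ¬ p θ a n) hp.not).not.congr fun θ a => ?_
  push Not
  rfl

theorem TameP.sl [Finite ι] {q : (ι → ℕ) → Prop} (hq : SL q) :
    TameP ν (fun (_ : τ → A) (a : ι → ℕ) => q a) :=
  ⟨Empty, inferInstance, fun j => j.elim, fun v => q (v ∘ Sum.inl), hq.reindex _,
    fun _ _ => Iff.rfl⟩

/-- finite conjunctions -/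
theorem TameP.finset_forall [Finite ι] {J : Type*} (s : Finset J)
    {p : J → (τ → A) → (ι → ℕ) → Prop} (hp : ∀ j ∈ s, TameP ν (p j)) :
    TameP ν (fun θ a => ∀ j ∈ s, p j θ a) := by
  classical
  induction s using Finset.induction_on with
  | empty => exact (TameP.const True).congr fun θ a => by simp
  | insert j s hj ih =>
    refine ((hp j (Finset.mem_insert_self _ _)).and
      (ih fun i hi => hp i (Finset.mem_insert_of_mem hi))).congr fun θ a => ?_
    simp

theorem TameP.forall_fin [Finite ι] {J : Type*} [Finite J]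
    {p : J → (τ → A) → (ι → ℕ) → Prop} (hp : ∀ j, TameP ν (p j)) :
    TameP ν (fun θ a => ∀ j, p j θ a) := by
  have := Fintype.ofFinite J
  exact (TameP.finset_forall Finset.univ (fun j _ => hp j)).congr fun θ a => by simp

theorem TameP.exists_fin [Finite ι] {J : Type*} [Finite J]
    {p : J → (τ → A) → (ι → ℕ) → Prop} (hp : ∀ j, TameP ν (p j)) :
    TameP ν (fun θ a => ∃ j, p j θ a) :=
  (TameP.forall_fin (fun j => (hp j).not)).not.congr fun θ a => by push Not; rfl

variable (ν)

/-- tame function with natural number values -/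
def TameF {τ ι : Type*} (f : (τ → A) → (ι → ℕ) → ℕ) : Prop :=
  TameP ν (fun θ (a : Option ι → ℕ) => a none = f θ (fun i => a (some i)))

variable {ν}

theorem TameF.congr {f g : (τ → A) → (ι → ℕ) → ℕ} (hf : TameF ν f)
    (h : ∀ θ a, f θ a = g θ a) : TameF ν g := by
  have : f = g := funext fun θ => funext fun a => h θ a
  exact this ▸ hf

/-- composition of a tame predicate with tame functions -/
theorem TameP.comp [Finite ι] [Finite κ] {p : (τ → A) → (κ → ℕ) → Prop} (hp : TameP ν p)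
    {f : κ → (τ → A) → (ι → ℕ) → ℕ} (hf : ∀ j, TameF ν (f j)) :
    TameP ν (fun θ a => p θ (fun j => f j θ a)) := by
  have h1 : TameP ν (fun θ (a : ι ⊕ κ → ℕ) =>
      (∀ j, a (Sum.inr j) = f j θ (a ∘ Sum.inl)) ∧ p θ (a ∘ Sum.inr)) := by
    refine TameP.and (TameP.forall_fin fun j => ?_) (hp.reindex _)
    exact (hf j).reindex (fun o : Option ι => o.elim (Sum.inr j) Sum.inl)
  refine h1.exists_vec.congr fun θ a => ?_
  constructor
  · rintro ⟨b, hb, hp⟩
    have : b = fun j => f j θ a := funext fun j => hb j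
    subst this
    exact hp
  · intro h
    exact ⟨fun j => f j θ a, fun j => rfl, h⟩

theorem TameF.comp [Finite ι] [Finite κ] {g : (τ → A) → (κ → ℕ) → ℕ} (hg : TameF ν g)
    {f : κ → (τ → A) → (ι → ℕ) → ℕ} (hf : ∀ j, TameF ν (f j)) :
    TameF ν (fun θ a => g θ (fun j => f j θ a)) := by
  let F : Option κ → (τ → A) → (Option ι → ℕ) → ℕ := fun o =>
    o.elim (fun _ a => a none) (fun j θ a => f j θ (fun i => a (some i)))
  have hF : ∀ o, TameF ν (F o) := by
    intro o
    cases o with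
    | none =>
      refine TameP.sl (q := fun a : Option (Option ι) → ℕ => a none = a (some none)) ?_
      classical
      have := Fintype.ofFinite ι
      refine (SL.lin_eq 0 0 (Pi.single none 1) (Pi.single (some none) 1)).congr fun a => ?_
      simp [Pi.single_apply]
    | some j =>
      exact (hf j).reindex (fun o : Option ι => o.elim none (fun i => some (some i)))
  exact TameP.comp (p := fun θ (a : Option κ → ℕ) => a none = g θ (fun i => a (some i))) hg hF

theorem TameF.sl_comp [Finite ι] [Finite κ] {q : (κ → ℕ) → Prop} (hq : SL q)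
    {f : κ → (τ → A) → (ι → ℕ) → ℕ} (hf : ∀ j, TameF ν (f j)) :
    TameP ν (fun θ a => q (fun j => f j θ a)) :=
  TameP.comp (TameP.sl hq) hf

theorem TameF.coord [Finite ι] (i : ι) : TameF ν (fun (_ : τ → A) (a : ι → ℕ) => a i) := by
  refine TameP.sl (q := fun a : Option ι → ℕ => a none = a (some i)) ?_
  classical
  have := Fintype.ofFinite ι
  refine (SL.lin_eq 0 0 (Pi.single none 1) (Pi.single (some i) 1)).congr fun a => ?_
  simp [Pi.single_apply]

theorem TameF.const [Finite ι] (n : ℕ) : TameF ν (fun (_ : τ → A) (_ : ι → ℕ) => n) := by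
  refine TameP.sl (q := fun a : Option ι → ℕ => a none = n) ?_
  classical
  have := Fintype.ofFinite ι
  refine (SL.lin_eq 0 n (Pi.single none 1) 0).congr fun a => ?_
  simp [Pi.single_apply]

theorem TameF.nu [Finite ι] (H : MvPolynomial τ ℤ) :
    TameF ν (fun (θ : τ → A) (_ : ι → ℕ) => ν (ev θ H)) := by
  classical
  have := Fintype.ofFinite ι
  refine ⟨Unit, inferInstance, fun _ => H,
    fun v => v (Sum.inl none) = v (Sum.inr ()), ?_, fun θ a => Iff.rfl⟩
  refine (SL.lin_eq 0 0 (Pi.single (Sum.inl none) 1) (Pi.single (Sum.inr ()) 1)).congr fun a => ?_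
  simp [Pi.single_apply]

/-- general principle: a function whose graph is given by a semilinear relation -/
theorem TameF.of_graph [Finite ι] [Finite κ] {q : (Option κ → ℕ) → Prop} (hq : SL q)
    {g : (κ → ℕ) → ℕ} (hg : ∀ a : Option κ → ℕ, q a ↔ a none = g (fun i => a (some i)))
    {f : κ → (τ → A) → (ι → ℕ) → ℕ} (hf : ∀ j, TameF ν (f j)) :
    TameF ν (fun θ a => g (fun j => f j θ a)) := by
  have hg' : TameF ν (fun (_ : τ → A) (a : κ → ℕ) => g a) :=
    TameP.sl (q := fun a : Option κ → ℕ => a none = g (fun i => a (some i)))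
      (hq.congr hg)
  exact hg'.comp hf

theorem TameF.add [Finite ι] {f g : (τ → A) → (ι → ℕ) → ℕ} (hf : TameF ν f) (hg : TameF ν g) :
    TameF ν (fun θ a => f θ a + g θ a) := by
  let F : Bool → (τ → A) → (ι → ℕ) → ℕ := fun b => if b then f else g
  refine TameF.of_graph (κ := Bool) (q := fun v => v none = v (some true) + v (some false))
    (g := fun v => v true + v false) ?_ (fun a => Iff.rfl) (f := F) ?_
  · refine (SL.lin_eq 0 0 (Pi.single none 1) (Pi.single (some true) 1 + Pi.single (some false) 1)).congr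
      fun a => ?_
    simp [Pi.single_apply, Fintype.sum_option]
  · intro j; cases j
    · exact hg
    · exact hf

theorem TameF.const_mul [Finite ι] (c : ℕ) {f : (τ → A) → (ι → ℕ) → ℕ} (hf : TameF ν f) :
    TameF ν (fun θ a => c * f θ a) := by
  refine TameF.of_graph (κ := Unit) (q := fun v => v none = c * v (some ()))
    (g := fun v => c * v ()) ?_ (fun a => Iff.rfl) (f := fun _ => f) (fun _ => hf)
  refine (SL.lin_eq 0 0 (Pi.single none 1) (Pi.single (some ()) c)).congr fun a => ?_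
  simp [Pi.single_apply, Fintype.sum_option]

theorem TameF.sum [Finite ι] {J : Type*} (s : Finset J)
    {f : J → (τ → A) → (ι → ℕ) → ℕ} (hf : ∀ j ∈ s, TameF ν (f j)) :
    TameF ν (fun θ a => ∑ j ∈ s, f j θ a) := by
  classical
  induction s using Finset.induction_on with
  | empty => exact (TameF.const 0).congr fun θ a => by simp
  | insert j s hj ih =>
    refine ((hf j (Finset.mem_insert_self _ _)).add
      (ih fun i hi => hf i (Finset.mem_insert_of_mem hi))).congr fun θ a => ?_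
    simp [Finset.sum_insert hj]

theorem TameP.eq [Finite ι] {f g : (τ → A) → (ι → ℕ) → ℕ} (hf : TameF ν f) (hg : TameF ν g) :
    TameP ν (fun θ a => f θ a = g θ a) := by
  let F : Bool → (τ → A) → (ι → ℕ) → ℕ := fun b => if b then f else g
  refine TameF.sl_comp (κ := Bool) (q := fun v => v true = v false) ?_ (f := F) ?_
  · refine (SL.lin_eq 0 0 (Pi.single true 1) (Pi.single false 1)).congr
      fun a => ?_
    simp [Pi.single_apply]
  · intro j; cases j
    · exact hg
    · exact hf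

theorem TameP.le [Finite ι] {f g : (τ → A) → (ι → ℕ) → ℕ} (hf : TameF ν f) (hg : TameF ν g) :
    TameP ν (fun θ a => f θ a ≤ g θ a) := by
  let F : Bool → (τ → A) → (ι → ℕ) → ℕ := fun b => if b then f else g
  refine TameF.sl_comp (κ := Bool) (q := fun v => v true ≤ v false) ?_ (f := F) ?_
  · have : SL (fun v : Bool ⊕ Unit → ℕ => v (Sum.inl true) + v (Sum.inr ()) = v (Sum.inl false)) := by
      refine (SL.lin_eq 0 0 (Pi.single (Sum.inl true) 1 + Pi.single (Sum.inr ()) 1)
        (Pi.single (Sum.inl false) 1)).congr fun a => ?_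
      simp [Pi.single_apply, Fintype.sum_sum_type]
    refine this.exists'.congr fun a => ?_
    constructor
    · rintro ⟨b, hb⟩
      simp only [Sum.elim_inl, Sum.elim_inr] at hb
      omega
    · intro h
      refine ⟨fun _ => a false - a true, ?_⟩
      simp only [Sum.elim_inl, Sum.elim_inr]
      omega
  · intro j; cases j
    · exact hg
    · exact hf

theorem TameP.lt [Finite ι] {f g : (τ → A) → (ι → ℕ) → ℕ} (hf : TameF ν f) (hg : TameF ν g) :
    TameP ν (fun θ a => f θ a < g θ a) :=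
  (TameP.le hg hf).not.congr fun θ a => by simp

/-- defining a tame function by its graph -/
theorem TameF.of_tameP {f : (τ → A) → (ι → ℕ) → ℕ}
    {p : (τ → A) → (Option ι → ℕ) → Prop} (hp : TameP ν p)
    (h : ∀ θ a, p θ a ↔ a none = f θ (fun i => a (some i))) : TameF ν f :=
  hp.congr h

/-- weakening: extra natural number variable -/
theorem TameF.weaken [Finite ι] {f : (τ → A) → (ι → ℕ) → ℕ} (hf : TameF ν f) :
    TameF ν (fun θ (a : Option ι → ℕ) => f θ (fun i => a (some i))) :=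
  hf.comp (fun j => TameF.coord (some j))

theorem TameP.weaken [Finite ι] {p : (τ → A) → (ι → ℕ) → Prop} (hp : TameP ν p) :
    TameP ν (fun θ (a : Option ι → ℕ) => p θ (fun i => a (some i))) :=
  hp.comp (fun j => TameF.coord (some j))

theorem TameF.ite [Finite ι] {p : (τ → A) → (ι → ℕ) → Prop} [∀ θ a, Decidable (p θ a)]
    (hp : TameP ν p)
    {f g : (τ → A) → (ι → ℕ) → ℕ} (hf : TameF ν f) (hg : TameF ν g) :
    TameF ν (fun θ a => if p θ a then f θ a else g θ a) := by
  refine TameF.of_tameP (((hp.weaken.and (TameP.eq (TameF.coord none) hf.weaken))).or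
    (hp.weaken.not.and (TameP.eq (TameF.coord none) hg.weaken))) fun θ a => ?_
  split_ifs with h <;> simp [h]

theorem TameF.min [Finite ι] {f g : (τ → A) → (ι → ℕ) → ℕ} (hf : TameF ν f) (hg : TameF ν g) :
    TameF ν (fun θ a => min (f θ a) (g θ a)) :=
  (TameF.ite (TameP.le hf hg) hf hg).congr fun θ a => by
    split_ifs with h <;> omega

theorem TameF.max [Finite ι] {f g : (τ → A) → (ι → ℕ) → ℕ} (hf : TameF ν f) (hg : TameF ν g) :
    TameF ν (fun θ a => max (f θ a) (g θ a)) :=
  (TameF.ite (TameP.le hf hg) hg hf).congr fun θ a => by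
    split_ifs with h <;> omega

theorem TameF.sub [Finite ι] {f g : (τ → A) → (ι → ℕ) → ℕ} (hf : TameF ν f) (hg : TameF ν g) :
    TameF ν (fun θ a => f θ a - g θ a) := by
  have h1 : TameP ν (fun θ (a : Option ι → ℕ) =>
      (a none + g θ (fun i => a (some i)) = f θ (fun i => a (some i))) ∨
      (f θ (fun i => a (some i)) ≤ g θ (fun i => a (some i)) ∧ a none = 0)) :=
    (TameP.eq ((TameF.coord none).add hg.weaken) hf.weaken).or
      ((TameP.le hf.weaken hg.weaken).and (TameP.eq (TameF.coord none) (TameF.const 0)))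
  exact TameF.of_tameP h1 fun θ a => by omega

theorem TameF.div [Finite ι] {f : (τ → A) → (ι → ℕ) → ℕ} (hf : TameF ν f) (e : ℕ) (he : 0 < e) :
    TameF ν (fun θ a => f θ a / e) := by
  have h1 : TameP ν (fun θ (a : Option ι → ℕ) =>
      (e * a none ≤ f θ (fun i => a (some i))) ∧ (f θ (fun i => a (some i)) < e * (a none + 1))) :=
    (TameP.le ((TameF.coord none).const_mul e) hf.weaken).and
      (TameP.lt hf.weaken (((TameF.coord none).add (TameF.const 1)).const_mul e))
  refine TameF.of_tameP h1 fun θ a => ?_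
  constructor
  · rintro ⟨h1, h2⟩
    symm
    rw [Nat.div_eq_iff he]
    constructor
    · rw [mul_comm]; exact h1
    · have : e * (a none + 1) = e * a none + e := by ring
      rw [mul_comm (a none) e]
      omega
  · intro h
    rw [h]
    exact ⟨Nat.mul_div_le _ _, Nat.lt_mul_div_succ _ he⟩

/-! ### integer valued tame functions with finite range -/

variable (ν)

/-- Integer valued functions with finite range whose level sets are tame. -/
def TameZ {τ ι : Type*} (f : (τ → A) → (ι → ℕ) → ℤ) : Prop :=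
  (∃ s : Finset ℤ, ∀ θ a, f θ a ∈ s) ∧ ∀ n : ℤ, TameP ν (fun θ a => f θ a = n)

variable {ν}

theorem TameZ.congr {f g : (τ → A) → (ι → ℕ) → ℤ} (hf : TameZ ν f)
    (h : ∀ θ a, f θ a = g θ a) : TameZ ν g := by
  have : f = g := funext fun θ => funext fun a => h θ a
  exact this ▸ hf

theorem TameZ.const [Finite ι] (n : ℤ) : TameZ ν (fun (_ : τ → A) (_ : ι → ℕ) => n) :=
  ⟨⟨{n}, fun _ _ => by simp⟩, fun _ => TameP.const _⟩

theorem TameZ.tameP_rel [Finite ι] {f g : (τ → A) → (ι → ℕ) → ℤ} (hf : TameZ ν f)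
    (hg : TameZ ν g) (r : ℤ → ℤ → Prop) : TameP ν (fun θ a => r (f θ a) (g θ a)) := by
  classical
  obtain ⟨⟨s, hs⟩, hf⟩ := hf
  obtain ⟨⟨t, ht⟩, hg⟩ := hg
  have h1 : TameP ν (fun θ a => ∃ x : {x : ℤ × ℤ // x ∈ s ×ˢ t ∧ r x.1 x.2},
      f θ a = x.1.1 ∧ g θ a = x.1.2) := by
    have : Finite {x : ℤ × ℤ // x ∈ s ×ˢ t ∧ r x.1 x.2} := by
      apply Set.Finite.subset (s := ((s ×ˢ t : Finset (ℤ × ℤ)) : Set (ℤ × ℤ)))
        (Finset.finite_toSet _)
      intro x hx
      exact hx.1
    exact TameP.exists_fin fun x => (hf _).and (hg _)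
  refine h1.congr fun θ a => ?_
  constructor
  · rintro ⟨⟨x, hx, hr⟩, h1, h2⟩
    rw [h1, h2]; exact hr
  · intro h
    exact ⟨⟨(f θ a, g θ a), by simp [hs, ht], h⟩, rfl, rfl⟩

theorem TameZ.map₂ [Finite ι] {f g : (τ → A) → (ι → ℕ) → ℤ} (hf : TameZ ν f) (hg : TameZ ν g)
    (op : ℤ → ℤ → ℤ) : TameZ ν (fun θ a => op (f θ a) (g θ a)) := by
  classical
  constructor
  · obtain ⟨⟨s, hs⟩, -⟩ := hf
    obtain ⟨⟨t, ht⟩, -⟩ := hg
    exact ⟨(s ×ˢ t).image (fun x => op x.1 x.2), fun θ a =>
      Finset.mem_image.2 ⟨(f θ a, g θ a), by simp [hs, ht], rfl⟩⟩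
  · intro n
    exact hf.tameP_rel hg (fun x y => op x y = n)

theorem TameZ.add [Finite ι] {f g : (τ → A) → (ι → ℕ) → ℤ} (hf : TameZ ν f) (hg : TameZ ν g) :
    TameZ ν (fun θ a => f θ a + g θ a) := hf.map₂ hg (· + ·)

theorem TameZ.sub [Finite ι] {f g : (τ → A) → (ι → ℕ) → ℤ} (hf : TameZ ν f) (hg : TameZ ν g) :
    TameZ ν (fun θ a => f θ a - g θ a) := hf.map₂ hg (· - ·)

theorem TameZ.mul [Finite ι] {f g : (τ → A) → (ι → ℕ) → ℤ} (hf : TameZ ν f) (hg : TameZ ν g) :
    TameZ ν (fun θ a => f θ a * g θ a) := hf.map₂ hg (· * ·)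

theorem TameZ.sum [Finite ι] {J : Type*} (s : Finset J)
    {f : J → (τ → A) → (ι → ℕ) → ℤ} (hf : ∀ j ∈ s, TameZ ν (f j)) :
    TameZ ν (fun θ a => ∑ j ∈ s, f j θ a) := by
  classical
  induction s using Finset.induction_on with
  | empty => exact (TameZ.const 0).congr fun θ a => by simp
  | insert j s hj ih =>
    refine ((hf j (Finset.mem_insert_self _ _)).add
      (ih fun i hi => hf i (Finset.mem_insert_of_mem hi))).congr fun θ a => ?_
    simp [Finset.sum_insert hj]

theorem TameZ.ite [Finite ι] {p : (τ → A) → (ι → ℕ) → Prop} [∀ θ a, Decidable (p θ a)]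
    (hp : TameP ν p)
    {f g : (τ → A) → (ι → ℕ) → ℤ} (hf : TameZ ν f) (hg : TameZ ν g) :
    TameZ ν (fun θ a => if p θ a then f θ a else g θ a) := by
  classical
  constructor
  · obtain ⟨⟨s, hs⟩, -⟩ := hf
    obtain ⟨⟨t, ht⟩, -⟩ := hg
    refine ⟨s ∪ t, fun θ a => ?_⟩
    beta_reduce
    split_ifs
    · exact Finset.mem_union_left _ (hs _ _)
    · exact Finset.mem_union_right _ (ht _ _)
  · intro n
    refine ((hp.and (hf.2 n)).or (hp.not.and (hg.2 n))).congr fun θ a => ?_
    beta_reduce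
    split_ifs with h <;> simp [h]

theorem TameZ.comp [Finite ι] [Finite κ] {g : (τ → A) → (κ → ℕ) → ℤ} (hg : TameZ ν g)
    {f : κ → (τ → A) → (ι → ℕ) → ℕ} (hf : ∀ j, TameF ν (f j)) :
    TameZ ν (fun θ a => g θ (fun j => f j θ a)) :=
  ⟨hg.1.imp fun _ hs θ _ => hs θ _, fun n => (hg.2 n).comp hf⟩

theorem TameZ.subst {τ' : Type*} {f : (τ' → A) → (ι → ℕ) → ℤ} (hf : TameZ ν f)
    (Q : τ' → MvPolynomial τ ℤ) :
    TameZ ν (fun (θ : τ → A) a => f (fun j => ev θ (Q j)) a) :=
  ⟨hf.1.imp fun _ hs _ a => hs _ a, fun n => (hf.2 n).subst Q⟩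

theorem TameF.subst {τ' : Type*} {f : (τ' → A) → (ι → ℕ) → ℕ} (hf : TameF ν f)
    (Q : τ' → MvPolynomial τ ℤ) :
    TameF ν (fun (θ : τ → A) a => f (fun j => ev θ (Q j)) a) :=
  TameP.subst (p := fun θ (a : Option ι → ℕ) => a none = f θ (fun i => a (some i))) hf Q

end Tame

end Pool.Agent.Helper345_Quot
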