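import Pool.Agent.Helper345_Quot.Count2
import Pool.Agent.Helper345_Quot.Tame

/-!
Elimination of algebraic elements: the transfer lemma.
-/

noncomputable section

namespace Pool.Agent.Helper345_Quot

open MvPolynomial
open scoped NNReal

section supp
variable {A : Type*} [CommRing A] {ν : A → ℕ} {τ ι κ : Type*}

theorem TameF.finset_sup [Finite ι] {J : Type*} (s : Finset J)
    {f : J → (τ → A) → (ι → ℕ) → ℕ} (hf : ∀ j ∈ s, TameF ν (f j)) :
    TameF ν (fun θ a => s.sup (fun j => f j θ a)) := by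
  classical
  induction s using Finset.induction_on with
  | empty => exact (TameF.const 0).congr fun θ a => by simp
  | insert j s hj ih =>
    refine ((hf j (Finset.mem_insert_self _ _)).max
      (ih fun i hi => hf i (Finset.mem_insert_of_mem hi))).congr fun θ a => ?_
    simp [Finset.sup_insert]

end supp

variable {k : Type*} [Field k]

section phi
variable {d : ℕ} {τ Λ : Type*} [Fintype Λ]

/-- coded valuation of a coefficient -/
def bcode (e : ℕ) (Q : (Λ →₀ ℕ) → MvPolynomial τ ℤ) (θ : τ → PowerSeries k)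
    (α : Λ →₀ ℕ) : ℕ :=
  if nu k (ev θ (Q α)) = 0 then 0 else e * (nu k (ev θ (Q α)) - 1) + 1

/-- first exponent function -/
def Phi1 (e : ℕ) (F : Finset (Λ →₀ ℕ)) (Q : (Λ →₀ ℕ) → MvPolynomial τ ℤ)
    (θ : τ → PowerSeries k) (n : Λ → ℕ) : ℕ :=
  F.sup (fun α => if bcode e Q θ α = 0 then 0 else (∑ l, α l * n l + 1) - bcode e Q θ α)

/-- second exponent function -/
def Phi0 (e : ℕ) (F : Finset (Λ →₀ ℕ)) (Q : (Λ →₀ ℕ) → MvPolynomial τ ℤ)
    (θ : τ → PowerSeries k) (n : Λ → ℕ) : ℕ :=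
  F.sup (fun α => if bcode e Q θ α = 0 then 0 else
    (∑ l, α l * n l + 1) - ((∑ l, α l) + bcode e Q θ α))

theorem bcode_tame {ι : Type*} [Finite ι] (e : ℕ) (Q : (Λ →₀ ℕ) → MvPolynomial τ ℤ)
    (α : Λ →₀ ℕ) :
    TameF (nu k) (fun θ (_ : ι → ℕ) => bcode e Q θ α) := by
  have h1 : TameF (nu k) (fun (θ : τ → PowerSeries k) (_ : ι → ℕ) => nu k (ev θ (Q α))) :=
    TameF.nu (Q α)
  have h2 : TameF (nu k) (fun (_ : τ → PowerSeries k) (_ : ι → ℕ) => 1) := TameF.const 1
  have h3 : TameF (nu k) (fun (_ : τ → PowerSeries k) (_ : ι → ℕ) => 0) := TameF.const 0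
  have h4 := (((h1.sub h2).const_mul e).add h2)
  exact TameF.ite (p := fun (θ : τ → PowerSeries k) (_ : ι → ℕ) => nu k (ev θ (Q α)) = 0)
    (TameP.eq h1 h3) h3 h4

theorem Phi1_tame (e : ℕ) (F : Finset (Λ →₀ ℕ)) (Q : (Λ →₀ ℕ) → MvPolynomial τ ℤ) :
    TameF (nu k) (Phi1 (k := k) e F Q) := by
  classical
  unfold Phi1
  apply TameF.finset_sup
  intro α _
  have h1 : TameF (nu k) (fun (_ : τ → PowerSeries k) (n : Λ → ℕ) => ∑ l, α l * n l) :=
    TameF.sum (ν := nu k) (τ := τ) (f := fun l (_ : τ → PowerSeries k) (n : Λ → ℕ) => α l * n l)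
      Finset.univ (fun l _ => (TameF.coord l).const_mul (α l))
  have h2 : TameF (nu k) (fun (_ : τ → PowerSeries k) (_ : Λ → ℕ) => 1) := TameF.const 1
  have h3 : TameF (nu k) (fun (_ : τ → PowerSeries k) (_ : Λ → ℕ) => 0) := TameF.const 0
  have h5 : TameF (nu k) (fun (θ : τ → PowerSeries k) (_ : Λ → ℕ) => bcode e Q θ α) :=
    bcode_tame e Q α
  exact TameF.ite (p := fun (θ : τ → PowerSeries k) (_ : Λ → ℕ) => bcode e Q θ α = 0)
    (TameP.eq h5 h3) h3 ((h1.add h2).sub h5)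

theorem Phi0_tame (e : ℕ) (F : Finset (Λ →₀ ℕ)) (Q : (Λ →₀ ℕ) → MvPolynomial τ ℤ) :
    TameF (nu k) (Phi0 (k := k) e F Q) := by
  classical
  unfold Phi0
  apply TameF.finset_sup
  intro α _
  have h1 : TameF (nu k) (fun (_ : τ → PowerSeries k) (n : Λ → ℕ) => ∑ l, α l * n l) :=
    TameF.sum (ν := nu k) (τ := τ) (f := fun l (_ : τ → PowerSeries k) (n : Λ → ℕ) => α l * n l)
      Finset.univ (fun l _ => (TameF.coord l).const_mul (α l))
  have h2 : TameF (nu k) (fun (_ : τ → PowerSeries k) (_ : Λ → ℕ) => 1) := TameF.const 1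
  have h3 : TameF (nu k) (fun (_ : τ → PowerSeries k) (_ : Λ → ℕ) => 0) := TameF.const 0
  have h5 : TameF (nu k) (fun (θ : τ → PowerSeries k) (_ : Λ → ℕ) => bcode e Q θ α) :=
    bcode_tame e Q α
  have h6 : TameF (nu k) (fun (_ : τ → PowerSeries k) (_ : Λ → ℕ) => ∑ l, α l) := TameF.const _
  exact TameF.ite (p := fun (θ : τ → PowerSeries k) (_ : Λ → ℕ) => bcode e Q θ α = 0)
    (TameP.eq h5 h3) h3 ((h1.add h2).sub (h6.add h5))

theorem Phi1_eq (e : ℕ) (F : Finset (Λ →₀ ℕ)) (Q : (Λ →₀ ℕ) → MvPolynomial τ ℤ)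
    (θ : τ → PowerSeries k) (n : Λ → ℕ) :
    Phi1 e F Q θ n = PhiZ F (fun l => (n l : ℤ)) (bcode e Q θ) := by
  unfold Phi1 PhiZ
  apply Finset.sup_congr rfl
  intro α _
  split_ifs with h
  · rfl
  · have : (∑ l, (α l : ℤ) * (n l : ℤ)) = ((∑ l, α l * n l : ℕ) : ℤ) := by push_cast; rfl
    rw [this]
    omega

theorem Phi0_eq (e : ℕ) (F : Finset (Λ →₀ ℕ)) (Q : (Λ →₀ ℕ) → MvPolynomial τ ℤ)
    (θ : τ → PowerSeries k) (n : Λ → ℕ) :
    Phi0 e F Q θ n = PhiZ F (fun l => (n l : ℤ) - 1) (bcode e Q θ) := by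
  unfold Phi0 PhiZ
  apply Finset.sup_congr rfl
  intro α _
  split_ifs with h
  · rfl
  · have : (∑ l, (α l : ℤ) * ((n l : ℤ) - 1)) =
        ((∑ l, α l * n l : ℕ) : ℤ) - ((∑ l, α l : ℕ) : ℤ) := by
      push_cast
      rw [← Finset.sum_sub_distrib]
      apply Finset.sum_congr rfl
      intro l _
      ring
    rw [this]
    omega

end phi

section main
variable {d : ℕ} {τ : Type*}

theorem ev_perm {A : Type*} [CommRing A] (g : Equiv.Perm (Fin d)) (c : Fin d → A) (θ : τ → A)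
    (q : MvPolynomial (Fin d ⊕ τ) ℤ) :
    ev (Sum.elim (c ∘ g) θ) q = ev (Sum.elim c θ) (rename (Sum.map g id) q) := by
  rw [ev_rename]
  congr 2
  funext i
  rcases i with i | i <;> rfl

theorem cod_perm [IsAlgClosed k] (c : Fin d → LL k) (κ : Fin d → PowerSeries k)
    (θ : τ → PowerSeries k) (hc : ∀ i, esv c i = emb k (κ i)) (g : Equiv.Perm (Fin d))
    (q : MvPolynomial (Fin d ⊕ τ) ℤ) :
    IsCod (d.factorial).factorial (ev (Sum.elim (c ∘ g) (fun t => emb k (θ t))) q)
      (cod (d.factorial).factorial (ev (Sum.elim (c ∘ g) (fun t => emb k (θ t))) q)) := by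
  have he : (d.factorial).factorial ≠ 0 := Nat.factorial_ne_zero _
  obtain ⟨a, ha⟩ := isCod_all c κ θ hc (rename (Sum.map g id) q)
  rw [← ev_perm] at ha
  rw [ha.eq_cod he]
  exact ha

/-- The counting function of a finite family of polynomials in the roots is given by tame
functions. -/
theorem phi_count [IsAlgClosed k] {Λ : Type*} [Fintype Λ] (U : Λ → MvPolynomial (Fin d ⊕ τ) ℤ) :
    ∃ P1 P0 : (Fin d ⊕ τ → PowerSeries k) → (Λ → ℕ) → ℕ, TameF (nu k) P1 ∧ TameF (nu k) P0 ∧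
      ∀ (c : Fin d → LL k) (κ : Fin d → PowerSeries k) (θ : τ → PowerSeries k),
        (∀ i, esv c i = emb k (κ i)) → ∀ (n : Λ → ℕ)
        [DecidablePred fun g : Equiv.Perm (Fin d) => ∃ l, cod (d.factorial).factorial
          (ev (Sum.elim (c ∘ g) (fun t => emb k (θ t))) (U l)) ≠ 0 ∧
          cod (d.factorial).factorial
          (ev (Sum.elim (c ∘ g) (fun t => emb k (θ t))) (U l)) ≤ n l],
        P1 (Sum.elim κ θ) n = P0 (Sum.elim κ θ) n +
          (Finset.univ.filter (fun g : Equiv.Perm (Fin d) => ∃ l, cod (d.factorial).factorial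
          (ev (Sum.elim (c ∘ g) (fun t => emb k (θ t))) (U l)) ≠ 0 ∧
          cod (d.factorial).factorial
          (ev (Sum.elim (c ∘ g) (fun t => emb k (θ t))) (U l)) ≤ n l)).card := by
  obtain ⟨F, Q, hF0, hQ⟩ := sym_main U
  refine ⟨Phi1 (d.factorial).factorial F Q, Phi0 (d.factorial).factorial F Q,
    Phi1_tame _ _ _, Phi0_tame _ _ _, ?_⟩
  intro c κ θ hc n _
  have he : (d.factorial).factorial ≠ 0 := Nat.factorial_ne_zero _
  obtain ⟨hF, hcoef⟩ := hQ (LL k) c (fun t => emb k (θ t))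
  rw [Phi1_eq, Phi0_eq]
  refine count_lemma he U F hF0 c (fun t => emb k (θ t)) hF
    (fun g l => cod (d.factorial).factorial
          (ev (Sum.elim (c ∘ g) (fun t => emb k (θ t))) (U l))) ?_ _ ?_ n
  · intro g l
    exact cod_perm c κ θ hc g (U l)
  · intro α
    have : coeff α (prodPoly U c (fun t => emb k (θ t))) =
        emb k (ev (Sum.elim κ θ) (Q α)) := by
      rw [hcoef, ← ev_emb κ θ (esv c) hc]
    rw [this]
    exact isCod_emb he _

/-- weight vector -/
def wvec {σ : Type} [DecidableEq σ] (S : Finset σ) (w : σ → ℕ) (m : ℕ) (j : σ) : ℕ :=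
  if j ∈ S then m else w j - 1

/-- extended weight vector -/
def wvec' {σ : Type} [DecidableEq σ] [Fintype σ] (S : Finset σ) (w : σ → ℕ) (m : ℕ)
    (j : Option σ) : ℕ :=
  j.elim ((∑ i ∈ Finset.univ \ S, (w i - 1)) + 1) (wvec S w m)

theorem comb_lemma {G σ : Type} [Finite G] [Fintype σ] [DecidableEq σ] (cd : G → σ → ℕ)
    (pr : G → Finset σ → ℕ)
    (hprod : ∀ g S, (∀ j ∈ Finset.univ \ S, cd g j ≠ 0) →
      pr g S = ∑ i ∈ Finset.univ \ S, (cd g i - 1) + 1)
    (hprod0 : ∀ g S, pr g S ≠ 0 → ∀ j ∈ Finset.univ \ S, cd g j ≠ 0) (w : σ → ℕ)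
    (E : Finset σ → ℕ → Prop)
    (hE : ∀ S m, E S m ↔ ∃ g, (∀ j, cd g j ≠ 0 → wvec S w m j < cd g j) ∧ pr g S ≠ 0 ∧
      pr g S ≤ ∑ i ∈ Finset.univ \ S, (w i - 1) + 1) :
    (∃ S : Finset σ, (∀ j, w j = 0 ↔ j ∈ S) ∧ ∀ m, E S m) ↔ ∃ g, ∀ j, cd g j = w j := by
  constructor
  · rintro ⟨S, hS, hm⟩
    obtain ⟨M, hM⟩ := (Set.finite_range (fun x : G × σ => cd x.1 x.2)).bddAbove
    have hM' : ∀ g j, cd g j ≤ M := fun g j => hM ⟨(g, j), rfl⟩
    obtain ⟨g, hg1, hg2, hg3⟩ := (hE S M).1 (hm M)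
    refine ⟨g, ?_⟩
    have hnz := hprod0 g S hg2
    rw [hprod g S hnz] at hg3
    have hle : ∀ j ∈ Finset.univ \ S, w j - 1 ≤ cd g j - 1 := by
      intro j hj
      have h1 := hg1 j (hnz j hj)
      have h2 : j ∉ S := by simpa using hj
      simp only [wvec, h2, if_false] at h1
      omega
    have heq : ∑ i ∈ Finset.univ \ S, (w i - 1) = ∑ i ∈ Finset.univ \ S, (cd g i - 1) :=
      le_antisymm (Finset.sum_le_sum hle) (by omega)
    have heq' := (Finset.sum_eq_sum_iff_of_le hle).1 heq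
    intro j
    by_cases hj : j ∈ S
    · rw [(hS j).2 hj]
      by_contra h0
      have h1 := hg1 j h0
      simp only [wvec, hj, if_true] at h1
      have h2 : cd g j ≤ M := hM' g j
      omega
    · have hj' : j ∈ Finset.univ \ S := by simpa using hj
      have h1 := heq' j hj'
      have h2 := hnz j hj'
      have h3 : w j ≠ 0 := fun h => hj ((hS j).1 h)
      omega
  · rintro ⟨g, hg⟩
    refine ⟨Finset.univ.filter (fun j => w j = 0), by simp, ?_⟩
    intro m
    rw [hE]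
    have hnz : ∀ j ∈ Finset.univ \ (Finset.univ.filter (fun j => w j = 0)), cd g j ≠ 0 := by
      intro j hj
      rw [hg]
      simpa using hj
    refine ⟨g, ?_, ?_, ?_⟩
    · intro j hj
      rw [hg] at hj
      simp only [wvec, Finset.mem_filter, Finset.mem_univ, true_and, hj, if_false]
      rw [hg]
      omega
    · rw [hprod g _ hnz]; omega
    · rw [hprod g _ hnz]
      simp only [hg]
      exact le_rfl

theorem count_eq_lemma {G : Type} [Fintype G] (A B : G → Prop) [DecidablePred A]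
    [DecidablePred fun g => A g ∨ B g] (x y z w : ℕ)
    (h1 : x = y + (Finset.univ.filter A).card)
    (h2 : z = w + (Finset.univ.filter (fun g => A g ∨ B g)).card) :
    ¬ (x + w = z + y) ↔ ∃ g, ¬ A g ∧ B g := by
  classical
  have h3 : (Finset.univ.filter (fun g => A g ∨ B g)).card =
      (Finset.univ.filter A).card + (Finset.univ.filter (fun g => ¬ A g ∧ B g)).card := by
    rw [← Finset.card_union_of_disjoint]
    · congr 1
      ext g
      simp only [Finset.mem_filter, Finset.mem_univ, true_and, Finset.mem_union]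
      tauto
    · rw [Finset.disjoint_filter]
      intro g _ hA hB
      exact hB.1 hA
  have h4 : ¬ (x + w = z + y) ↔ (Finset.univ.filter (fun g => ¬ A g ∧ B g)).card ≠ 0 := by
    rw [h1, h2, h3]
    omega
  rw [h4, Finset.card_ne_zero, Finset.filter_nonempty_iff]
  simp

open Classical in
theorem transfer [IsAlgClosed k] {ι : Type*} [Finite ι]
    (p : (Fin d ⊕ τ → LL k) → (ι → ℕ) → Prop) (hp : TameP (cod (d.factorial).factorial) p) :
    ∃ p' : (Fin d ⊕ τ → PowerSeries k) → (ι → ℕ) → Prop, TameP (nu k) p' ∧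
      ∀ (c : Fin d → LL k) (κ : Fin d → PowerSeries k) (θ : τ → PowerSeries k),
        (∀ i, esv c i = emb k (κ i)) → ∀ a,
        (p' (Sum.elim κ θ) a ↔ ∃ g : Equiv.Perm (Fin d),
          p (Sum.elim (c ∘ g) (fun t => emb k (θ t))) a) := by
  obtain ⟨σ, hσ, H, q, hq, hpq⟩ := hp
  have := Fintype.ofFinite σ
  set e := (d.factorial).factorial with hedef
  have he : e ≠ 0 := Nat.factorial_ne_zero _
  -- extended families
  let H' : Finset σ → Option σ → MvPolynomial (Fin d ⊕ τ) ℤ := fun S o =>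
    o.elim (∏ j ∈ Finset.univ \ S, H j) H
  obtain ⟨P1, P0, hP1, hP0, hP⟩ := phi_count (k := k) H
  choose P1' P0' hP1' hP0' hP' using fun S => phi_count (k := k) (H' S)
  let E : Finset σ → (Fin d ⊕ τ → PowerSeries k) → (σ → ℕ) → ℕ → Prop := fun S θ w m =>
    ¬ (P1 θ (wvec S w m) + P0' S θ (wvec' S w m) = P1' S θ (wvec' S w m) + P0 θ (wvec S w m))
  let W : (Fin d ⊕ τ → PowerSeries k) → (σ → ℕ) → Prop := fun θ w =>
    ∃ S : Finset σ, (∀ j, w j = 0 ↔ j ∈ S) ∧ ∀ m, E S θ w m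
  have hwv : ∀ S j, TameF (nu k) (τ := Fin d ⊕ τ) (fun (_ : Fin d ⊕ τ → PowerSeries k)
      (a : Option σ → ℕ) => wvec S (fun i => a (some i)) (a none) j) := by
    intro S j
    unfold wvec
    by_cases h : j ∈ S
    · simp only [h, if_true]; exact TameF.coord none
    · simp only [h, if_false]; exact (TameF.coord (some j)).sub (TameF.const 1)
  have hwv' : ∀ S j, TameF (nu k) (τ := Fin d ⊕ τ) (fun (_ : Fin d ⊕ τ → PowerSeries k)
      (a : Option σ → ℕ) => wvec' S (fun i => a (some i)) (a none) j) := by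
    intro S j
    cases j with
    | none =>
      unfold wvec'
      exact (TameF.sum _ fun i _ => (TameF.coord (some i)).sub (TameF.const 1)).add (TameF.const 1)
    | some j => exact hwv S j
  have hE : ∀ S, TameP (nu k) (fun θ (a : Option σ → ℕ) => E S θ (fun i => a (some i)) (a none)) := by
    intro S
    apply TameP.not
    apply TameP.eq
    · exact (hP1.comp (hwv S)).add ((hP0' S).comp (hwv' S))
    · exact ((hP1' S).comp (hwv' S)).add (hP0.comp (hwv S))
  have hW : TameP (nu k) W := by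
    apply TameP.exists_fin
    intro S
    apply TameP.and
    · apply TameP.forall_fin
      intro j
      exact (TameP.eq (TameF.coord j) (TameF.const 0)).iff (TameP.const _)
    · exact TameP.forall_nat (hE S)
  refine ⟨fun θ a => ∃ w : σ → ℕ, W θ w ∧ q (Sum.elim a w), ?_, ?_⟩
  · have h1 : TameP (nu k) (fun θ (v : ι ⊕ σ → ℕ) => W θ (v ∘ Sum.inr) ∧ q v) :=
      (hW.reindex Sum.inr).and (TameP.sl hq)
    exact h1.exists_vec
  · intro c κ θ hc a
    -- semantics of E
    obtain ⟨cd, hcdd⟩ : ∃ cd : Equiv.Perm (Fin d) → σ → ℕ, ∀ g j, cd g j =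
      cod e (ev (Sum.elim (c ∘ g) (fun t => emb k (θ t))) (H j)) := ⟨_, fun _ _ => rfl⟩
    obtain ⟨pr, hprd⟩ : ∃ pr : Equiv.Perm (Fin d) → Finset σ → ℕ, ∀ g S, pr g S =
      cod e (ev (Sum.elim (c ∘ g) (fun t => emb k (θ t))) (∏ j ∈ Finset.univ \ S, H j)) :=
        ⟨_, fun _ _ => rfl⟩
    have hcd : ∀ (g : Equiv.Perm (Fin d)) (j : σ),
        IsCod e (ev (Sum.elim (c ∘ g) (fun t => emb k (θ t))) (H j)) (cd g j) := by
      intro g j
      rw [hcdd]
      exact cod_perm c κ θ hc g (H j)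
    have hprod : ∀ (g : Equiv.Perm (Fin d)) (S : Finset σ), (∀ j ∈ Finset.univ \ S, cd g j ≠ 0) →
        pr g S = ∑ i ∈ Finset.univ \ S, (cd g i - 1) + 1 := by
      intro g S h
      rw [hprd]
      apply IsCod.eq_cod he
      right
      refine ⟨by omega, ?_⟩
      rw [map_prod, nn_prod]
      push_cast
      rw [add_sub_cancel_right, zpow_sum_aux (qq_pos e).ne']
      apply Finset.prod_congr rfl
      intro j hj
      have h0 := h j hj
      rw [(hcd g j).nn_eq (fun h => h0 ((hcd g j).zero_iff.2 h))]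
      congr 1
      omega
    have hprod0 : ∀ (g : Equiv.Perm (Fin d)) (S : Finset σ),
        pr g S ≠ 0 → ∀ j ∈ Finset.univ \ S, cd g j ≠ 0 := by
      intro g S h j hj h0
      apply h
      rw [hprd, (cod_perm c κ θ hc g _).zero_iff, map_prod]
      exact Finset.prod_eq_zero hj ((hcd g j).zero_iff.1 h0)
    have hE' : ∀ w S m, E S (Sum.elim κ θ) w m ↔ ∃ g : Equiv.Perm (Fin d),
        (∀ j, cd g j ≠ 0 → wvec S w m j < cd g j) ∧ pr g S ≠ 0 ∧
        pr g S ≤ ∑ i ∈ Finset.univ \ S, (w i - 1) + 1 := by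
      intro w S m
      have h1 := hP c κ θ hc (wvec S w m)
      have h2 := hP' S c κ θ hc (wvec' S w m)
      have h3 : ∀ g : Equiv.Perm (Fin d), (∃ l, cod e
          (ev (Sum.elim (c ∘ g) (fun t => emb k (θ t))) (H' S l)) ≠ 0 ∧
          cod e (ev (Sum.elim (c ∘ g) (fun t => emb k (θ t))) (H' S l)) ≤ wvec' S w m l) ↔
          ((∃ l, cd g l ≠ 0 ∧ cd g l ≤ wvec S w m l) ∨ (pr g S ≠ 0 ∧
            pr g S ≤ ∑ i ∈ Finset.univ \ S, (w i - 1) + 1)) := by
        intro g
        rw [Option.exists, or_comm]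
        apply or_congr
        · apply exists_congr
          intro l
          rw [hcdd]
          exact Iff.rfl
        · rw [hprd]
          exact Iff.rfl
      have h4 : ∀ g : Equiv.Perm (Fin d), (∃ l, cod e
          (ev (Sum.elim (c ∘ g) (fun t => emb k (θ t))) (H l)) ≠ 0 ∧
          cod e (ev (Sum.elim (c ∘ g) (fun t => emb k (θ t))) (H l)) ≤ wvec S w m l) ↔
          (∃ l, cd g l ≠ 0 ∧ cd g l ≤ wvec S w m l) := by
        intro g
        apply exists_congr
        intro l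
        rw [hcdd]
      rw [Finset.filter_congr (fun g _ => h4 g)] at h1
      rw [Finset.filter_congr (fun g _ => h3 g)] at h2
      have h5 := count_eq_lemma _ _ _ _ _ _ h1 h2
      refine Iff.trans h5 ?_
      apply exists_congr
      intro g
      push Not
      exact Iff.rfl
    have hWsem : ∀ w, W (Sum.elim κ θ) w ↔ ∃ g, ∀ j, cd g j = w j := fun w =>
      comb_lemma cd pr hprod hprod0 w (fun S m => E S (Sum.elim κ θ) w m) (hE' w)
    constructor
    · rintro ⟨w, hw, hqw⟩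
      obtain ⟨g, hg⟩ := (hWsem w).1 hw
      refine ⟨g, ?_⟩
      rw [hpq]
      have : w = fun j => cod e (ev (Sum.elim (c ∘ g) (fun t => emb k (θ t))) (H j)) :=
        funext fun j => by rw [← hg j, hcdd]
      rw [this] at hqw
      exact hqw
    · rintro ⟨g, hg⟩
      rw [hpq] at hg
      refine ⟨fun j => cd g j, (hWsem _).2 ⟨g, fun _ => rfl⟩, ?_⟩
      have : (fun j => cd g j) =
          fun j => cod e (ev (Sum.elim (c ∘ g) (fun t => emb k (θ t))) (H j)) :=
        funext fun j => hcdd g j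
      rw [this]
      exact hg

end main

end Pool.Agent.Helper345_Quot
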