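import Pool.Agent.Helper345_Quot.Data
import Pool.Agent.Helper345_Quot.TL

/-!
Formulas in terms of codes.
-/

noncomputable section

namespace Pool.Agent.Helper345_Quot

open PowerSeries
open scoped NNReal

variable {k : Type*} [Field k] {σ τ : Type*} [Fintype σ] {d : ℕ}

section general
variable {A : Type*} [CommRing A] {ν : A → ℕ} {τ ι : Type*}

/-- infima of tame predicates -/
theorem TameF.find [Finite ι] {p : (τ → A) → (ι → ℕ) → ℕ → Prop}
    (hp : TameP ν (fun θ (a : Option ι → ℕ) => p θ (fun i => a (some i)) (a none)))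
    (hne : ∀ θ a, ∃ n, p θ a n) :
    TameF ν (fun θ a => sInf {n | p θ a n}) := by
  have h1 : TameP ν (fun θ (a : Option ι → ℕ) => ∀ m, m < a none → ¬ p θ (fun i => a (some i)) m) := by
    refine TameP.forall_nat (p := fun θ (a : Option ι → ℕ) m =>
      m < a none → ¬ p θ (fun i => a (some i)) m) ?_
    have h2 : TameP ν (fun (_ : τ → A) (a : Option (Option ι) → ℕ) => a none < a (some none)) :=
      TameP.lt (TameF.coord none) (TameF.coord (some none))
    have h3 : TameP ν (fun θ (a : Option (Option ι) → ℕ) =>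
        p θ (fun i => a (some (some i))) (a none)) :=
      hp.reindex (fun o : Option ι => o.elim none (fun i => some (some i)))
    exact h2.imp h3.not
  refine TameF.of_tameP (hp.and h1) fun θ a => ?_
  obtain ⟨n, hn⟩ := hne θ (fun i => a (some i))
  have hmem := Nat.sInf_mem (s := {n | p θ (fun i => a (some i)) n}) ⟨n, hn⟩
  constructor
  · rintro ⟨h1, h2⟩
    apply le_antisymm
    · by_contra hlt
      push Not at hlt
      exact h2 _ hlt hmem
    · exact Nat.sInf_le h1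
  · intro h
    rw [h]
    refine ⟨hmem, fun m hm hpm => ?_⟩
    exact absurd (Nat.sInf_le (s := {n | p θ (fun i => a (some i)) n}) hpm) (not_le.2 hm)

/-- predicates with one explicit numeric argument -/
def TameR (ν : A → ℕ) (p : (τ → A) → ℕ → Prop) : Prop :=
  TameP ν (fun θ (a : Unit → ℕ) => p θ (a ()))

theorem TameR.app [Finite ι] {p : (τ → A) → ℕ → Prop} (hp : TameR ν p)
    {g : (τ → A) → (ι → ℕ) → ℕ} (hg : TameF ν g) : TameP ν (fun θ a => p θ (g θ a)) :=
  TameP.comp hp (f := fun _ => g) (fun _ => hg)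

/-- functions with one explicit numeric argument -/
def TameRF (ν : A → ℕ) (f : (τ → A) → ℕ → ℕ) : Prop :=
  TameF ν (fun θ (a : Unit → ℕ) => f θ (a ()))

theorem TameRF.app [Finite ι] {f : (τ → A) → ℕ → ℕ} (hf : TameRF ν f)
    {g : (τ → A) → (ι → ℕ) → ℕ} (hg : TameF ν g) : TameF ν (fun θ a => f θ (g θ a)) :=
  TameF.comp hf (f := fun _ => g) (fun _ => hg)

end general

theorem hf_eq_qq {e : ℕ} (he : e ≠ 0) (n : ℕ) : (hf : ℝ≥0) ^ n = qq e ^ ((e * n : ℕ) : ℤ) := by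
  rw [zpow_natCast, pow_mul, qq_pow he]
  rfl

section code

variable (e : ℕ)

/-- the code of `y` where `B y` has code `a` and `B` has code `cb` compared to the level `γ` -/
theorem code_lt {e : ℕ} (he : e ≠ 0) {u B y : LL k} {a cb γ : ℕ} (hu : IsCod e u a) (hB : IsCod e B cb)
    (hB0 : B ≠ 0) (h : nn k u = nn k B * nn k y) :
    nn k y < hf ^ γ ↔ (a = 0 ∨ cb + e * γ < a) := by
  have hcb : cb ≠ 0 := fun h => hB0 (hB.zero_iff.1 h)
  have hBpos : 0 < nn k B := pos_iff_ne_zero.2 fun h => hB0 (nn_eq_zero.1 h)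
  have h1 : nn k y < hf ^ γ ↔ nn k u < nn k B * hf ^ γ := by
    rw [h, mul_lt_mul_iff_right₀ hBpos]
  rw [h1, hB.nn_eq hB0, hf_eq_qq he, ← zpow_add₀ (qq_pos e).ne']
  by_cases hu0 : u = 0
  · have ha : a = 0 := hu.zero_iff.2 hu0
    subst hu0
    rw [nn_zero]
    simp only [ha, true_or, iff_true]
    exact zpow_pos (qq_pos e) _
  · have ha : a ≠ 0 := fun h => hu0 (hu.zero_iff.1 h)
    rw [hu.nn_eq hu0, qq_zpow_lt he]
    push_cast
    constructor
    · intro h; right; omega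
    · rintro (h | h)
      · exact absurd h ha
      · omega

theorem code_le {e : ℕ} (he : e ≠ 0) {u B y : LL k} {a cb γ : ℕ} (hu : IsCod e u a) (hB : IsCod e B cb)
    (hB0 : B ≠ 0) (h : nn k u = nn k B * nn k y) :
    nn k y ≤ hf ^ γ ↔ (a = 0 ∨ cb + e * γ ≤ a) := by
  have hcb : cb ≠ 0 := fun h => hB0 (hB.zero_iff.1 h)
  have hBpos : 0 < nn k B := pos_iff_ne_zero.2 fun h => hB0 (nn_eq_zero.1 h)
  have h1 : nn k y ≤ hf ^ γ ↔ nn k u ≤ nn k B * hf ^ γ := by
    rw [h, mul_le_mul_iff_right₀ hBpos]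
  rw [h1, hB.nn_eq hB0, hf_eq_qq he, ← zpow_add₀ (qq_pos e).ne']
  by_cases hu0 : u = 0
  · have ha : a = 0 := hu.zero_iff.2 hu0
    subst hu0
    rw [nn_zero]
    simp only [ha, true_or, iff_true]
    exact zero_le
  · have ha : a ≠ 0 := fun h => hu0 (hu.zero_iff.1 h)
    rw [hu.nn_eq hu0, qq_zpow_le he]
    push_cast
    constructor
    · intro h; right; omega
    · rintro (h | h)
      · exact absurd h ha
      · omega

end code

open MvPolynomial in
/-- leading coefficient product as polynomial in all variables -/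
def bq (P : σ → Polynomial (MvPolynomial τ ℤ)) (d : ℕ) : MvPolynomial (Fin d ⊕ τ) ℤ :=
  rename Sum.inr (ldc P)

/-- the size of a finite set, at least one -/
def mE (E : Finset (Fin d)) : ℕ := max 1 E.card

open MvPolynomial in
/-- sum of the roots -/
def Aq (τ : Type*) (E : Finset (Fin d)) : MvPolynomial (Fin d ⊕ τ) ℤ := ∑ l ∈ E, X (Sum.inl l)

open MvPolynomial in
/-- distance from a root to an average -/
def Wq (τ : Type*) (E : Finset (Fin d)) (l : Fin d) : MvPolynomial (Fin d ⊕ τ) ℤ :=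
  (mE E : MvPolynomial (Fin d ⊕ τ) ℤ) * X (Sum.inl l) - Aq τ E

open MvPolynomial in
/-- difference of roots -/
def Dq (τ : Type*) (l l' : Fin d) : MvPolynomial (Fin d ⊕ τ) ℤ :=
  X (Sum.inl l) - X (Sum.inl l')

open MvPolynomial in
/-- scaled Taylor coefficients -/
def Uq (P : σ → Polynomial (MvPolynomial τ ℤ)) (E : Finset (Fin d)) (i : σ) (j : ℕ) :
    MvPolynomial (Fin d ⊕ τ) ℤ :=
  ∑ s ∈ Finset.range ((P i).natDegree + 1), if j ≤ s then
    ((s.choose j : ℕ) : MvPolynomial (Fin d ⊕ τ) ℤ) * rename Sum.inr ((P i).coeff s) *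
      ((mE E : MvPolynomial (Fin d ⊕ τ) ℤ) * bq P d) ^ ((P i).natDegree - (s - j)) *
      (Aq τ E) ^ (s - j) else 0

namespace Dat

variable {P : σ → Polynomial (MvPolynomial τ ℤ)} {θ : τ → k⟦X⟧} (Δ : Dat P θ d)

theorem ev_bq : ev Δ.x (bq P d) = emb k (ev θ (ldc P)) := by
  unfold bq
  rw [ev_rename, map_ev]
  rfl

theorem bq_ne : ev Δ.x (bq P d) ≠ 0 := by
  rw [ev_bq]
  intro h
  exact Δ.ldc_ne (emb_injective k (by rw [map_zero]; exact h))

theorem ev_Aq [CharZero k] (E : Finset (Fin d)) :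
    ev Δ.x (Aq τ E) = (mE E : LL k) * emb k (ev θ (ldc P)) * Δ.inst.avg E := by
  unfold Aq
  rw [map_sum]
  have h1 : ∀ l, ev Δ.x (MvPolynomial.X (Sum.inl l)) = emb k (ev θ (ldc P)) * Δ.r l := by
    intro l; rw [ev_X]; rfl
  rw [Finset.sum_congr rfl fun l _ => h1 l, ← Finset.mul_sum]
  unfold Inst.avg mE
  change _ = _ * _ * ((E.card : LL k)⁻¹ * ∑ l ∈ E, Δ.r l)
  rcases E.eq_empty_or_nonempty with rfl | hE
  · simp
  · have hc : (E.card : LL k) ≠ 0 := by exact_mod_cast hE.card_ne_zero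
    have h2 : max 1 E.card = E.card := max_eq_right (Finset.card_pos.2 hE)
    rw [h2]
    field_simp

theorem nn_mE [CharZero k] (E : Finset (Fin d)) : nn k (mE E : LL k) = 1 :=
  nn_natCast (by unfold mE; omega)

theorem nn_Wq [CharZero k] (E : Finset (Fin d)) (l : Fin d) :
    nn k (ev Δ.x (Wq τ E l)) = nn k (ev Δ.x (bq P d)) * nn k (Δ.r l - Δ.inst.avg E) := by
  have h : ev Δ.x (Wq τ E l) = (mE E : LL k) * (ev Δ.x (bq P d) * (Δ.r l - Δ.inst.avg E)) := by
    unfold Wq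
    rw [map_sub, map_mul, map_natCast, ev_X, ev_Aq, ev_bq]
    change _ * (emb k (ev θ (ldc P)) * Δ.r l) - _ = _
    ring
  rw [h, nn_mul, nn_mE, one_mul, nn_mul]

theorem nn_Dq (l l' : Fin d) :
    nn k (ev Δ.x (Dq τ l l')) = nn k (ev Δ.x (bq P d)) * nn k (Δ.r l - Δ.r l') := by
  have h : ev Δ.x (Dq τ l l') = (ev Δ.x (bq P d) * (Δ.r l - Δ.r l')) := by
    unfold Dq
    rw [map_sub, ev_X, ev_X, ev_bq]
    change (emb k (ev θ (ldc P)) * Δ.r l) - (emb k (ev θ (ldc P)) * Δ.r l') = _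
    ring
  rw [h, nn_mul]

theorem nn_Uq [CharZero k] (E : Finset (Fin d)) (i : σ) (j : ℕ) :
    nn k (ev Δ.x (Uq P E i j)) = nn k (ev Δ.x (bq P d)) ^ (P i).natDegree *
      nn k ((Polynomial.taylor (Δ.inst.avg E) ((Δ.inst.f i).map (emb k))).coeff j) := by
  set D := (P i).natDegree with hD
  set B := emb k (ev θ (ldc P)) with hB
  set y := Δ.inst.avg E with hy
  set m : LL k := (mE E : LL k) with hm
  have hcoef : ∀ s, ((Δ.inst.f i).map (emb k)).coeff s = ev Δ.x (MvPolynomial.rename Sum.inr ((P i).coeff s)) := by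
    intro s
    rw [ev_rename, Polynomial.coeff_map]
    change emb k (((P i).map (ev θ)).coeff s) = _
    rw [Polynomial.coeff_map, map_ev]
    rfl
  have hdeg : ((Δ.inst.f i).map (emb k)).natDegree < D + 1 := by
    refine Nat.lt_succ_of_le ((Polynomial.natDegree_map_le).trans ?_)
    exact Polynomial.natDegree_map_le
  have h1 : (Polynomial.taylor y ((Δ.inst.f i).map (emb k))).coeff j =
      ∑ s ∈ Finset.range (D + 1), ((s.choose j : ℕ) : LL k) *
        ev Δ.x (MvPolynomial.rename Sum.inr ((P i).coeff s)) * y ^ (s - j) := by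
    rw [Polynomial.taylor_coeff, Polynomial.hasseDeriv_apply,
      Polynomial.sum_over_range' _ _ (D + 1) hdeg]
    · rw [Polynomial.eval_finset_sum]
      apply Finset.sum_congr rfl
      intro s _
      rw [Polynomial.eval_monomial, hcoef]
    · intro n; simp
  have h2 : ev Δ.x (Uq P E i j) = (m * B) ^ D *
      (Polynomial.taylor y ((Δ.inst.f i).map (emb k))).coeff j := by
    rw [h1, Finset.mul_sum]
    unfold Uq
    rw [map_sum]
    apply Finset.sum_congr rfl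
    intro s hs
    rw [← hD]
    split_ifs with hjs
    · rw [map_mul, map_mul, map_mul, map_pow, map_pow, map_mul, map_natCast, map_natCast, ev_Aq,
        ev_bq, ← hB, ← hy, ← hm]
      have h3 : D = (D - (s - j)) + (s - j) := by
        have := Finset.mem_range.1 hs
        omega
      conv_rhs => rw [h3, pow_add]
      rw [mul_pow (m * B) y]
      ring
    · rw [Nat.choose_eq_zero_of_lt (not_le.1 hjs)]
      simp
  rw [h2, nn_mul, nn_pow, nn_mul, nn_mE, one_mul, ev_bq]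

/-- strict closeness in codes -/
def nlt (P : σ → Polynomial (MvPolynomial τ ℤ)) (e : ℕ) (q : MvPolynomial (Fin d ⊕ τ) ℤ)
    (x : Fin d ⊕ τ → LL k) (γ : ℕ) : Prop :=
  cod e (ev x q) = 0 ∨ cod e (ev x (bq P d)) + e * γ < cod e (ev x q)

/-- closeness in codes -/
def nle (P : σ → Polynomial (MvPolynomial τ ℤ)) (e : ℕ) (q : MvPolynomial (Fin d ⊕ τ) ℤ)
    (x : Fin d ⊕ τ → LL k) (γ : ℕ) : Prop :=
  cod e (ev x q) = 0 ∨ cod e (ev x (bq P d)) + e * γ ≤ cod e (ev x q)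

theorem nlt_tame {ι : Type*} [Finite ι] (e : ℕ) (q : MvPolynomial (Fin d ⊕ τ) ℤ)
    {g : (Fin d ⊕ τ → LL k) → (ι → ℕ) → ℕ} (hg : TameF (cod e) g) :
    TameP (cod e) (fun x a => nlt P e q x (g x a)) := by
  have h1 : TameF (cod e) (fun (x : Fin d ⊕ τ → LL k) (_ : ι → ℕ) => cod e (ev x q)) := TameF.nu q
  have h2 : TameF (cod e) (fun (x : Fin d ⊕ τ → LL k) (_ : ι → ℕ) => cod e (ev x (bq P d))) :=
    TameF.nu (bq P d)
  have h3 : TameF (cod e) (fun (x : Fin d ⊕ τ → LL k) (_ : ι → ℕ) => 0) := TameF.const 0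
  exact (TameP.eq h1 h3).or (TameP.lt (h2.add (hg.const_mul e)) h1)

theorem nle_tame {ι : Type*} [Finite ι] (e : ℕ) (q : MvPolynomial (Fin d ⊕ τ) ℤ)
    {g : (Fin d ⊕ τ → LL k) → (ι → ℕ) → ℕ} (hg : TameF (cod e) g) :
    TameP (cod e) (fun x a => nle P e q x (g x a)) := by
  have h1 : TameF (cod e) (fun (x : Fin d ⊕ τ → LL k) (_ : ι → ℕ) => cod e (ev x q)) := TameF.nu q
  have h2 : TameF (cod e) (fun (x : Fin d ⊕ τ → LL k) (_ : ι → ℕ) => cod e (ev x (bq P d))) :=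
    TameF.nu (bq P d)
  have h3 : TameF (cod e) (fun (x : Fin d ⊕ τ → LL k) (_ : ι → ℕ) => 0) := TameF.const 0
  exact (TameP.eq h1 h3).or (TameP.le (h2.add (hg.const_mul e)) h1)

/-- all codes are faithful at the point -/
def Cod (e : ℕ) : Prop := ∀ q : MvPolynomial (Fin d ⊕ τ) ℤ, IsCod e (ev Δ.x q) (cod e (ev Δ.x q))

theorem cod_ok (hd : (∏ i, P i).natDegree = d) : Δ.Cod (d.factorial).factorial := by
  intro q
  obtain ⟨a, ha⟩ := isCod_all Δ.c _ θ (Δ.vieta hd) q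
  have h := ha.eq_cod (Nat.factorial_ne_zero _)
  change IsCod _ (ev (Sum.elim Δ.c fun t => emb k (θ t)) q) (cod _ (ev (Sum.elim Δ.c fun t => emb k (θ t)) q))
  rw [h]
  exact ha

variable {Δ} {e : ℕ}

theorem Cod.nlt_W [CharZero k] (h : Δ.Cod e) (he : e ≠ 0) (E : Finset (Fin d)) (l : Fin d) (γ : ℕ) :
    nn k (Δ.r l - Δ.inst.avg E) < hf ^ γ ↔ nlt P e (Wq τ E l) Δ.x γ :=
  code_lt he (h _) (h _) Δ.bq_ne (Δ.nn_Wq E l)

theorem Cod.nle_W [CharZero k] (h : Δ.Cod e) (he : e ≠ 0) (E : Finset (Fin d)) (l : Fin d) (γ : ℕ) :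
    nn k (Δ.r l - Δ.inst.avg E) ≤ hf ^ γ ↔ nle P e (Wq τ E l) Δ.x γ :=
  code_le he (h _) (h _) Δ.bq_ne (Δ.nn_Wq E l)

theorem Cod.nlt_D (h : Δ.Cod e) (he : e ≠ 0) (l l' : Fin d) (γ : ℕ) :
    nn k (Δ.r l - Δ.r l') < hf ^ γ ↔ nlt P e (Dq τ l l') Δ.x γ :=
  code_lt he (h _) (h _) Δ.bq_ne (Δ.nn_Dq l l')

end Dat

end Pool.Agent.Helper345_Quot
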