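import Pool.Agent.Helper345_Quot.AffSch
import Mathlib.Algebra.BigOperators.Finprod

/-!
Subsheaves of finite colength.
-/

noncomputable section

namespace Pool.Agent.Helper345_Quot

universe u

open AlgebraicGeometry CategoryTheory TopologicalSpace Opposite

attribute [local instance] algSec algStk modSec modStk

variable (k : Type u) [Field k] {X : Scheme.{u}} [X.Over (Spec (.of k))] {G : X.Modules}

/-- subsheaves of finite colength -/
structure FinCo (N : SubM G) : Prop where
  loc : N.IsLocal
  fin : ∀ x, Module.Finite k (Stk G x ⧸ N.stk x)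
  supp : {x | N.stk x ≠ ⊤}.Finite

/-- the colength at a point -/
def dimAt (N : SubM G) (x : X) : ℕ := Module.finrank k (Stk G x ⧸ N.stk x)

/-- the colength over a set of points -/
def lenOn (N : SubM G) (C : Set X) : ℕ := ∑ᶠ x ∈ C, dimAt k N x

variable {k}

theorem dimAt_top {N : SubM G} {x : X} (h : N.stk x = ⊤) : dimAt k N x = 0 := by
  unfold dimAt
  have : Subsingleton (Stk G x ⧸ N.stk x) := Submodule.Quotient.subsingleton_iff.2 h
  exact Module.finrank_zero_of_subsingleton

theorem FinCo.dimAt_eq_zero {N : SubM G} (hN : FinCo k N) {x : X} (h : dimAt k N x = 0) :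
    N.stk x = ⊤ := by
  unfold dimAt at h
  have := hN.fin x
  rw [Module.finrank_zero_iff] at h
  exact Submodule.Quotient.subsingleton_iff.1 h

theorem FinCo.support_finite {N : SubM G} (hN : FinCo k N) :
    (Function.support (dimAt k N)).Finite := by
  apply hN.supp.subset
  intro x hx h
  exact hx (dimAt_top h)

theorem FinCo.lenOn_eq_sum {N : SubM G} (hN : FinCo k N) (C : Set X) (Z : Finset X)
    (hZ : ∀ x ∈ C, x ∉ Z → N.stk x = ⊤) (hZC : ∀ x ∈ Z, x ∈ C) :
    lenOn k N C = ∑ x ∈ Z, dimAt k N x := by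
  unfold lenOn
  apply finsum_mem_eq_sum_of_inter_support_eq
  ext x
  constructor
  · rintro ⟨h1, h2⟩
    refine ⟨?_, h2⟩
    by_contra h3
    exact h2 (dimAt_top (hZ x h1 h3))
  · rintro ⟨h1, h2⟩
    exact ⟨hZC x h1, h2⟩

theorem FinCo.lenOn_union {N : SubM G} (hN : FinCo k N) {C D : Set X} (hCD : Disjoint C D) :
    lenOn k N (C ∪ D) = lenOn k N C + lenOn k N D := by
  unfold lenOn
  exact finsum_mem_union' hCD (hN.support_finite.inter_of_right C)
    (hN.support_finite.inter_of_right D)

theorem FinCo.lenOn_mono {N : SubM G} (hN : FinCo k N) {C D : Set X} (hCD : C ⊆ D) :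
    lenOn k N C ≤ lenOn k N D := by
  have h1 : D = C ∪ (D \ C) := (Set.union_sdiff_cancel hCD).symm
  rw [h1, hN.lenOn_union Set.disjoint_sdiff_right]
  exact Nat.le_add_right _ _

theorem FinCo.lenOn_eq_zero_iff {N : SubM G} (hN : FinCo k N) {C : Set X} :
    lenOn k N C = 0 ↔ ∀ x ∈ C, N.stk x = ⊤ := by
  constructor
  · intro h x hx
    apply hN.dimAt_eq_zero
    have h1 : lenOn k N {x} = dimAt k N x := by
      unfold lenOn
      exact finsum_mem_singleton
    have h2 := hN.lenOn_mono (Set.singleton_subset_iff.2 hx)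
    omega
  · intro h
    unfold lenOn
    apply finsum_mem_eq_zero_of_forall_eq_zero
    intro x hx
    exact dimAt_top (h x hx)

theorem lenOn_congr {N N' : SubM G} {C : Set X} (h : ∀ x ∈ C, N.stk x = N'.stk x) :
    lenOn k N C = lenOn k N' C := by
  unfold lenOn
  apply finsum_mem_congr rfl
  intro x hx
  unfold dimAt
  rw [h x hx]

theorem FinCo.lenOn_le {N N' : SubM G} (hN : FinCo k N) (hN' : FinCo k N')
    (h : ∀ y, dimAt k N y ≤ dimAt k N' y) (C : Set X) : lenOn k N C ≤ lenOn k N' C := by
  classical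
  have hfin : ((({x | N.stk x ≠ ⊤} ∪ {x | N'.stk x ≠ ⊤}) ∩ C)).Finite :=
    (hN.supp.union hN'.supp).inter_of_left C
  rw [hN.lenOn_eq_sum C hfin.toFinset (by
      intro x hx hxZ
      by_contra h
      apply hxZ
      rw [Set.Finite.mem_toFinset]
      exact ⟨Or.inl h, hx⟩) (by
      intro x hx
      rw [Set.Finite.mem_toFinset] at hx
      exact hx.2),
    hN'.lenOn_eq_sum C hfin.toFinset (by
      intro x hx hxZ
      by_contra h
      apply hxZ
      rw [Set.Finite.mem_toFinset]
      exact ⟨Or.inr h, hx⟩) (by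
      intro x hx
      rw [Set.Finite.mem_toFinset] at hx
      exact hx.2)]
  exact Finset.sum_le_sum fun y _ => h y

/-! ### sections over affine opens -/

section aff

variable [G.IsQuasicoherent] {U : X.Opens} (hU : IsAffineOpen U) {N N' : SubM G}

theorem SubM.IsLocal.sec_eq_glue (hN : N.IsLocal) :
    N.sec U = glue (fun x : U => ptLoc G hU x.2) (fun x => N.stk (x : X)) := by
  ext s
  rw [mem_glue, hN.mem_iff s]
  constructor
  · intro h x
    exact h x.1 x.2
  · intro h x hx
    exact h ⟨x, hx⟩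

include hU in
theorem FinCo.sec_spec (hN : FinCo k N) :
    Module.Finite k (Γ(G, U) ⧸ N.sec U) ∧
      Module.finrank k (Γ(G, U) ⧸ N.sec U) = lenOn k N U ∧
      ∀ x : U, (ptLoc G hU x.2).push (N.sec U) = N.stk (x : X) := by
  classical
  let Z : Finset X := hN.supp.toFinset
  let Z' : Finset U := Z.subtype (fun x => x ∈ U)
  have h := glue_spec (k := k) (fun x : U => ptLoc G hU x.2) (ptLoc_k hU)
    (ptLoc_inj hU) (fun x => N.stk (x : X)) Z' (by
      intro x hx
      by_contra h
      apply hx
      rw [Finset.mem_subtype, Set.Finite.mem_toFinset]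
      exact h) (fun x => hN.fin x)
  rw [hN.loc.sec_eq_glue hU]
  refine ⟨h.1, ?_, h.2.2⟩
  rw [h.2.1, hN.lenOn_eq_sum (U : Set X) (Z.filter (fun x => x ∈ U)) (by
      intro x hx hxZ
      by_contra h
      apply hxZ
      rw [Finset.mem_filter, Set.Finite.mem_toFinset]
      exact ⟨h, hx⟩) (by
      intro x hx
      exact (Finset.mem_filter.1 hx).2)]
  apply Finset.sum_bij (fun (x : U) _ => (x : X))
  · intro x hx
    rw [Finset.mem_filter]
    exact ⟨Finset.mem_subtype.1 hx, x.2⟩
  · intro x _ y _ h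
    exact Subtype.ext h
  · intro x hx
    obtain ⟨h1, h2⟩ := Finset.mem_filter.1 hx
    exact ⟨⟨x, h2⟩, Finset.mem_subtype.2 h1, rfl⟩
  · intro x _
    rfl

include hU in
theorem FinCo.stk_le_of_sec_le (hN : FinCo k N) (hN' : FinCo k N') (h : N.sec U ≤ N'.sec U)
    {x : X} (hx : x ∈ U) : N.stk x ≤ N'.stk x := by
  rw [← (hN.sec_spec hU).2.2 ⟨x, hx⟩]
  apply PtLoc.push_le
  intro m hm
  exact ⟨U, hx, m, h hm, rfl⟩

end aff

theorem FinCo.le_iff (hq : G.IsQuasicoherent) {ι : Type*} (U : ι → X.Opens)
    (hU : ∀ i, IsAffineOpen (U i)) (hc : ∀ x, ∃ i, x ∈ U i) {N N' : SubM G} (hN : FinCo k N)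
    (hN' : FinCo k N') : N ≤ N' ↔ ∀ i, N.sec (U i) ≤ N'.sec (U i) := by
  constructor
  · intro h i s hs
    exact h (op (U i)) hs
  · intro h
    rw [hN.loc.le_iff hN'.loc]
    intro x
    obtain ⟨i, hi⟩ := hc x
    exact hN.stk_le_of_sec_le (hU i) hN' (h i) hi

/-! ### subsheaves given by their stalks -/

section mk

variable (k) in
/-- families of submodules of the stalks defining subsheaves of finite colength -/
structure FinFam (T : ∀ x : X, Submodule (X.presheaf.stalk x) (Stk G x)) : Prop where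
  fin : ∀ x, Module.Finite k (Stk G x ⧸ T x)
  supp : {x | T x ≠ ⊤}.Finite

variable {T : ∀ x : X, Submodule (X.presheaf.stalk x) (Stk G x)}

theorem FinFam.stk [G.IsQuasicoherent] (hT : FinFam k T) (x : X) : (ofStk T).stk x = T x := by
  apply ofStk_stk hT.supp _ (fun x hx => not_not.1 hx) x
  intro z hz
  have := hT.fin z
  exact isClosed_of_fd k (T z) hz

theorem FinFam.finCo [G.IsQuasicoherent] (hT : FinFam k T) : FinCo k (ofStk T) where
  loc := ofStk_isLocal T
  fin := fun x => by rw [hT.stk]; exact hT.fin x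
  supp := by
    have h : {x | (ofStk T).stk x ≠ ⊤} = {x | T x ≠ ⊤} := by
      ext x
      rw [Set.mem_ofPred_eq, Set.mem_ofPred_eq, hT.stk]
    rw [h]
    exact hT.supp

theorem FinCo.finFam {N : SubM G} (hN : FinCo k N) : FinFam k (fun x => N.stk x) :=
  ⟨hN.fin, hN.supp⟩

open Classical in
/-- the part of a subsheaf over a set of points -/
def cutOff (C : Set X) (N : SubM G) : SubM G := ofStk (fun x => if x ∈ C then N.stk x else ⊤)

open Classical in
theorem FinCo.cutOffFam {N : SubM G} (hN : FinCo k N) (C : Set X) :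
    FinFam k (fun x => if x ∈ C then N.stk x else ⊤) where
  fin := by
    intro x
    by_cases h : x ∈ C
    · rw [if_pos h]; exact hN.fin x
    · rw [if_neg h]
      have : Subsingleton (Stk G x ⧸ (⊤ : Submodule (X.presheaf.stalk x) (Stk G x))) :=
        Submodule.Quotient.subsingleton_iff.2 rfl
      exact Module.Finite.of_finite
  supp := by
    apply hN.supp.subset
    intro x hx h
    apply hx
    rw [h]
    split_ifs <;> rfl

variable [G.IsQuasicoherent]

theorem FinCo.cutOff {N : SubM G} (hN : FinCo k N) (C : Set X) : FinCo k (cutOff C N) :=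
  (hN.cutOffFam C).finCo

theorem FinCo.cutOff_stk_of_mem {N : SubM G} (hN : FinCo k N) {C : Set X} {x : X} (hx : x ∈ C) :
    (Pool.Agent.Helper345_Quot.cutOff C N).stk x = N.stk x := by
  unfold Pool.Agent.Helper345_Quot.cutOff
  rw [(hN.cutOffFam C).stk, if_pos hx]

theorem FinCo.cutOff_stk_of_notMem {N : SubM G} (hN : FinCo k N) {C : Set X} {x : X}
    (hx : x ∉ C) : (Pool.Agent.Helper345_Quot.cutOff C N).stk x = ⊤ := by
  unfold Pool.Agent.Helper345_Quot.cutOff
  rw [(hN.cutOffFam C).stk, if_neg hx]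

theorem FinCo.lenOn_cutOff {N : SubM G} (hN : FinCo k N) (C D : Set X) :
    lenOn k (Pool.Agent.Helper345_Quot.cutOff C N) D = lenOn k N (C ∩ D) := by
  have h1 : D = (C ∩ D) ∪ (D \ C) := by
    rw [Set.inter_comm]; exact (Set.inter_union_sdiff D C).symm
  have hd : Disjoint (C ∩ D) (D \ C) := by
    rw [Set.disjoint_left]
    rintro x ⟨h1, _⟩ ⟨_, h3⟩
    exact h3 h1
  have h2 : lenOn k (Pool.Agent.Helper345_Quot.cutOff C N) D =
      lenOn k (Pool.Agent.Helper345_Quot.cutOff C N) (C ∩ D) +
      lenOn k (Pool.Agent.Helper345_Quot.cutOff C N) (D \ C) := by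
    rw [← (hN.cutOff C).lenOn_union hd, ← h1]
  have h3 : lenOn k (Pool.Agent.Helper345_Quot.cutOff C N) (D \ C) = 0 := by
    rw [(hN.cutOff C).lenOn_eq_zero_iff]
    intro x hx
    exact hN.cutOff_stk_of_notMem hx.2
  rw [h2, h3, add_zero]
  exact lenOn_congr fun x hx => hN.cutOff_stk_of_mem hx.1

theorem FinCo.le_cutOff {N : SubM G} (hN : FinCo k N) (C : Set X) :
    N ≤ Pool.Agent.Helper345_Quot.cutOff C N := by
  rw [hN.loc.le_iff (hN.cutOff C).loc]
  intro x
  by_cases h : x ∈ C
  · rw [hN.cutOff_stk_of_mem h]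
  · rw [hN.cutOff_stk_of_notMem h]; exact le_top

/-- characterisation of the part over a set of points -/
theorem FinCo.eq_cutOff {N N' : SubM G} (hN : FinCo k N) (hN' : FinCo k N') {C : Set X}
    (hle : N ≤ N') (hout : lenOn k N' Cᶜ = 0) (hlen : lenOn k N' C = lenOn k N C) :
    N' = Pool.Agent.Helper345_Quot.cutOff C N := by
  apply SubM.ext_stk hN'.loc (hN.cutOff C).loc
  intro x
  by_cases h : x ∈ C
  · rw [hN.cutOff_stk_of_mem h]
    have hle' : ∀ y, N.stk y ≤ N'.stk y := (hN.loc.le_iff hN'.loc).1 hle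
    have hdim : ∀ y, dimAt k N' y ≤ dimAt k N y := by
      intro y
      have := hN.fin y
      unfold dimAt
      exact LinearMap.finrank_le_finrank_of_surjective
        (f := (Submodule.factor (hle' y)).restrictScalars k) (Submodule.factor_surjective (hle' y))
    -- equality at `x`
    have hx : dimAt k N x ≤ dimAt k N' x := by
      have h1 : C = {x} ∪ (C \ {x}) := by
        rw [Set.union_sdiff_cancel (Set.singleton_subset_iff.2 h)]
      have h2 := hN.lenOn_union (C := {x}) (D := C \ {x}) Set.disjoint_sdiff_right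
      have h3 := hN'.lenOn_union (C := {x}) (D := C \ {x}) Set.disjoint_sdiff_right
      rw [← h1] at h2 h3
      have h4 : lenOn k N' (C \ {x}) ≤ lenOn k N (C \ {x}) := by
        exact hN'.lenOn_le hN hdim _
      have h5 : lenOn k N {x} = dimAt k N x := by
        unfold lenOn; exact finsum_mem_singleton
      have h6 : lenOn k N' {x} = dimAt k N' x := by
        unfold lenOn; exact finsum_mem_singleton
      omega
    apply le_antisymm _ (hle' x)
    have := hN.fin x
    have := hN'.fin x
    let f : (Stk G x ⧸ N.stk x) →ₗ[k] (Stk G x ⧸ N'.stk x) :=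
      (Submodule.factor (hle' x)).restrictScalars k
    have hf : Function.Surjective f := Submodule.factor_surjective (hle' x)
    have hinj : Function.Injective f :=
      (LinearMap.injective_iff_surjective_of_finrank_eq_finrank
        (le_antisymm hx (hdim x))).2 hf
    intro t ht
    have h1 : f (Submodule.Quotient.mk t) = 0 := by
      change Submodule.Quotient.mk t = 0
      rwa [Submodule.Quotient.mk_eq_zero]
    have h2 := hinj (h1.trans (map_zero f).symm)
    rwa [Submodule.Quotient.mk_eq_zero] at h2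
  · rw [hN.cutOff_stk_of_notMem h]
    exact hN'.lenOn_eq_zero_iff.1 hout x h

end mk

end Pool.Agent.Helper345_Quot
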