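import Pool.Agent.Helper345_Quot.Mul

/-!
Evaluation of the local Euler characteristics.
-/

noncomputable section

namespace Pool.Agent.Helper345_Quot

open Polynomial

variable {k : Type*} [Field k] {r : ℕ} {Op Ve : Type} [Finite Op] [Finite Ve]

theorem tau_symm_apply (l : k) (p : k[X]) : (tau l).symm p = p.comp (X - C l) := by
  rw [AlgEquiv.symm_apply_eq, tau_apply, comp_assoc]
  simp

/-- background data at the point `l` -/
def bgAt (T : Op → Matrix (Fin r) (Fin r) k[X]) (w : Ve → Fin r → k[X]) (l : k) :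
    Bg k r Op Ve where
  T := fun o => Matrix.of fun p q => ((shT l T o p q : k[X]) : PowerSeries k)
  w := fun j p => ((shM l (w j) p : k[X]) : PowerSeries k)

/-- depths -/
def depN (a : Fin r → ℕ) : HV r Op Ve → ℕ := fun v => a (HV.dep v)

/-- coordinates of the cell of `a` -/
def cellP (r : ℕ) (Op Ve : Type) (a : Fin r → ℕ) : List (HV r Op Ve × ℕ) :=
  prs (depN a) (latL r Op Ve)

/-- index type for the coordinates of the cell -/
abbrev CellI (k : Type*) [Field k] (r : ℕ) (Op Ve : Type) (a : Fin r → ℕ) : Type :=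
  OptN Empty ((cellP r Op Ve a).map (stpP (k := k))).length

section cell

variable (T : Op → Matrix (Fin r) (Fin r) k[X]) (w : Ve → Fin r → k[X]) (l : k) (a : Fin r → ℕ)

/-- the family of points of the cell -/
def cellF (x : CellI k r Op Ve a → k) : HV r Op Ve → PowerSeries k :=
  fam ((cellP r Op Ve a).map stpP) (κ := Empty) (fun _ => (bgAt T w l).pt a) x

theorem cellF_reach (x : CellI k r Op Ve a → k) :
    Rch (cellP r Op Ve a) ((bgAt T w l).pt a) (cellF T w l a x) := by
  have h := fam_reach (cellP r Op Ve a) (κ := Empty) (fun _ => (bgAt T w l).pt a)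
    ((bgAt T w l).pt a) [] (fun _ _ _ _ => rfl) x
  rw [List.nil_append] at h
  exact h

theorem cellF_unique {θ' : HV r Op Ve → PowerSeries k}
    (h : Rch (cellP r Op Ve a) ((bgAt T w l).pt a) θ') : ∃! x, cellF T w l a x = θ' := by
  apply fam_unique (cellP r Op Ve a) (prs_nodup _ _ latL_nodup)
  exact ⟨fun i => i.elim, h, fun y _ => funext fun i => i.elim⟩

theorem cellF_poly (v : HV r Op Ve) (t : ℕ) :
    PolyF (fun x : CellI k r Op Ve a → k => PowerSeries.coeff t (cellF T w l a x v)) :=
  fam_coeff_poly (cellP r Op Ve a) v t _ (PolyF.const _)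

theorem cellF_coeff (x : CellI k r Op Ve a → k) (i j : Fin r) (t : ℕ) (ht : a j ≤ t) :
    PowerSeries.coeff t (cellF T w l a x (HV.m i j)) = 0 := by
  rw [cellF_reach T w l a x (HV.m i j) t]
  · simp [Bg.pt, Bg.over]
  · unfold cellP
    rw [mem_prs]
    rintro ⟨_, h⟩
    simp only [depN, HV.dep] at h
    omega

theorem cellF_off (x : CellI k r Op Ve a → k) (v : HV r Op Ve)
    (hv : ∀ i j : Fin r, i < j → v ≠ HV.m i j) : cellF T w l a x v = (bgAt T w l).pt a v := by
  ext t
  apply cellF_reach T w l a x v t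
  unfold cellP
  rw [mem_prs, mem_latL]
  rintro ⟨⟨i, j, hij, h⟩, _⟩
  exact hv i j hij h

/-- matrix of the point -/
def cellB (x : CellI k r Op Ve a → k) : Fin r → Fin r → k[X] := fun i j =>
  if i = j then X ^ a i else
    if i < j then PowerSeries.trunc (a j) (cellF T w l a x (HV.m i j)) else 0

theorem cellB_hnf (x : CellI k r Op Ve a → k) : HNF a (cellB T w l a x) := by
  refine ⟨⟨fun i => by simp [cellB], fun i j hij => ?_⟩, fun i j hij => ?_⟩
  · simp [cellB, hij.ne', not_lt.2 hij.le]
  · simp only [cellB, hij.ne, if_false, hij, if_true]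
    exact PowerSeries.degree_trunc_lt _ _

theorem coe_trunc_eq {n : ℕ} {f : PowerSeries k} (h : ∀ t, n ≤ t → PowerSeries.coeff t f = 0) :
    ((PowerSeries.trunc n f : k[X]) : PowerSeries k) = f := by
  ext t
  rw [Polynomial.coeff_coe, PowerSeries.coeff_trunc]
  split_ifs with ht
  · rfl
  · rw [h t (not_lt.1 ht)]

theorem trunc_coe_eq {n : ℕ} {p : k[X]} (h : degree p < n) :
    PowerSeries.trunc n (p : PowerSeries k) = p := by
  ext t
  rw [PowerSeries.coeff_trunc, Polynomial.coeff_coe]
  split_ifs with ht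
  · rfl
  · rw [coeff_eq_zero_of_degree_lt (h.trans_le (by exact_mod_cast (not_lt.1 ht)))]

theorem crit_congr {θ θ' : HV r Op Ve → PowerSeries k} {N : PowerSeries k}
    (hT : ∀ o p q, θ (HV.T o p q) = θ' (HV.T o p q)) (hw : ∀ j p, θ (HV.w j p) = θ' (HV.w j p))
    (hy : ∀ i, θ (HV.y i) = θ' (HV.y i))
    (hm : ∀ i j, i < j → θ (HV.m i j) = θ' (HV.m i j)) : Crit θ N ↔ Crit θ' N := by
  rw [crit_iff, crit_iff]
  have h1 : Tmat θ = Tmat θ' := by
    funext o; ext1 p q; exact hT o p q
  have h2 : Wvec θ = Wvec θ' := by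
    funext j p; exact hw j p
  have h3 : Bmat θ = Bmat θ' := by
    ext1 i j
    simp only [Bmat, Matrix.of_apply]
    split_ifs with h4 h5
    · exact hy i
    · exact hm i j h5
    · rfl
  rw [h1, h2, h3]

theorem crit_cell (x : CellI k r Op Ve a → k) :
    Crit ((bgAt T w l).over a (cellF T w l a x)) (PowerSeries.X ^ (∑ i, a i)) ↔
      Stab T w (shNI l (rowL (cellB T w l a x))) := by
  have hB := (cellB_hnf T w l a x).1
  rw [stab_shNI, stab_iff hB, critM_coe hB]
  apply crit_congr
  · intro o p q; rfl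
  · intro j p; rfl
  · intro i
    change (PowerSeries.X : PowerSeries k) ^ a i = (((X : k[X]) ^ a i : k[X]) : PowerSeries k)
    rw [Polynomial.coe_pow, Polynomial.coe_X]
  · intro i j hij
    change cellF T w l a x (HV.m i j) = ((cellB T w l a x i j : k[X]) : PowerSeries k)
    simp only [cellB, hij.ne, if_false, hij, if_true]
    exact (coe_trunc_eq (fun t ht => cellF_coeff T w l a x i j t ht)).symm

/-- every reduced Hermite normal form occurs exactly once -/
theorem cell_unique {B : Fin r → Fin r → k[X]} (hB : HNF a B) :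
    ∃! x : CellI k r Op Ve a → k, cellB T w l a x = B := by
  let θ' : HV r Op Ve → PowerSeries k := fun v => match v with
    | HV.m i j => if i < j then ((B i j : k[X]) : PowerSeries k) else 0
    | v => (bgAt T w l).pt a v
  have hr : Rch (cellP r Op Ve a) ((bgAt T w l).pt a) θ' := by
    intro v t hv
    cases v with
    | T _ _ _ => rfl
    | w _ _ => rfl
    | y _ => rfl
    | m i j =>
      simp only [θ']
      split_ifs with hij
      · have ht : a j ≤ t := by
          by_contra hlt
          apply hv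
          unfold cellP
          rw [mem_prs, mem_latL]
          exact ⟨⟨i, j, hij, rfl⟩, by simp only [depN, HV.dep]; omega⟩
        rw [Polynomial.coeff_coe,
          coeff_eq_zero_of_degree_lt ((hB.2 i j hij).trans_le (by exact_mod_cast ht))]
        simp [Bg.pt, Bg.over]
      · simp [Bg.pt, Bg.over]
  obtain ⟨x, hx, hu⟩ := cellF_unique T w l a hr
  have key : ∀ x, cellB T w l a x = B ↔ cellF T w l a x = θ' := by
    intro x
    constructor
    · intro h
      funext v
      by_cases hv : ∃ i j : Fin r, i < j ∧ v = HV.m i j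
      · obtain ⟨i, j, hij, rfl⟩ := hv
        have h1 := congrFun (congrFun h i) j
        simp only [cellB, hij.ne, if_false, hij, if_true] at h1
        simp only [θ', hij, if_true]
        rw [← h1]
        exact (coe_trunc_eq (fun t ht => cellF_coeff T w l a x i j t ht)).symm
      · rw [cellF_off T w l a x v (fun i j hij h => hv ⟨i, j, hij, h⟩)]
        cases v with
        | T _ _ _ => rfl
        | w _ _ => rfl
        | y _ => rfl
        | m i j =>
          have hij : ¬ i < j := fun h => hv ⟨i, j, h, rfl⟩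
          simp only [θ', hij, if_false]
          rfl
    · intro h
      funext i j
      simp only [cellB]
      split_ifs with h1 h2
      · subst h1; rw [hB.1.1]
      · rw [h]
        simp only [θ', h2, if_true]
        exact trunc_coe_eq (hB.2 i j h2)
      · rw [hB.1.2 i j (lt_of_le_of_ne (not_lt.1 h2) (Ne.symm h1))]
  exact ⟨x, (key x).2 hx, fun y hy => hu y ((key y).1 hy)⟩

theorem cellB_PV (i : Fin r) {κ' : Type*} (e : CellI k r Op Ve a → κ') :
    PV (fun z : κ' → k => shI l (cellB T w l a (z ∘ e) i)) := by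
  intro j
  by_cases hij : i = j
  · refine (PP.const ((tau l).symm (X ^ a i))).congr fun z => ?_
    simp [shI, cellB, hij]
  · by_cases hlt : i < j
    · have h1 : PP (fun z : κ' → k => PowerSeries.trunc (a j) (cellF T w l a (z ∘ e) (HV.m i j))) := by
        have h2 : PP (fun z : κ' → k => ∑ t ∈ Finset.range (a j),
            C (PowerSeries.coeff t (cellF T w l a (z ∘ e) (HV.m i j))) * X ^ t) :=
          PP.sum _ fun t _ => (PP.C ((cellF_poly T w l a _ t).reindex e)).mul (PP.const _)
        refine h2.congr fun z => ?_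
        ext t
        rw [PowerSeries.coeff_trunc, finsetSum_coeff]
        simp only [coeff_C_mul, coeff_X_pow]
        split_ifs with ht
        · rw [Finset.sum_eq_single t]
          · simp
          · intro b _ hb; simp [hb.symm]
          · intro h; exact absurd (Finset.mem_range.2 ht) h
        · apply Finset.sum_eq_zero
          intro b hb
          have : t ≠ b := by
            rintro rfl
            exact ht (Finset.mem_range.1 hb)
          simp [this]
      refine (h1.comp (PP.const (X - C l))).congr fun z => ?_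
      simp only [shI, cellB, hij, if_false, hlt, if_true]
      rw [tau_symm_apply]
    · refine (PP.const 0).congr fun z => ?_
      simp [shI, cellB, hij, hlt]

end cell

theorem finrank_shN (l : k) (N : Submodule k[X] (Fin r → k[X])) :
    Module.finrank k ((Fin r → k[X]) ⧸ shN l N) = Module.finrank k ((Fin r → k[X]) ⧸ N) := by
  have h := (shQ l (shN l N)).finrank_eq
  rw [shNI_shN] at h
  exact h.symm

theorem finite_shN (l : k) (N : Submodule k[X] (Fin r → k[X]))
    [Module.Finite k ((Fin r → k[X]) ⧸ N)] : Module.Finite k ((Fin r → k[X]) ⧸ shN l N) := by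
  have h := shQ l (shN l N)
  rw [shNI_shN] at h
  exact Module.Finite.equiv h

theorem shI_smul (l : k) (c : k[X]) (v : Fin r → k[X]) :
    shI l (c • v) = (tau l).symm c • shI l v := by
  funext i; exact map_mul _ _ _

section

variable {T : Op → Matrix (Fin r) (Fin r) k[X]} {w : Ve → Fin r → k[X]}
  (P : ∀ n, Param k k[X] (Fin r → k[X]) (QN T w n))

/-- The cell of `a`. -/
def inCell (n : ℕ) (l : k) (a : Fin r → ℕ) (x : (P n).κ → k) : Prop :=
  x ∈ (P n).S ∧ ∃ B, HNF a B ∧ rowL B = shN l ((P n).φ x)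

/-- relation between parameters and the coordinates of the cell -/
def cellR (n : ℕ) (l : k) (a : Fin r → ℕ) (z : (P n).κ ⊕ CellI k r Op Ve a → k) : Prop :=
  z ∘ Sum.inl ∈ (P n).S ∧ ∀ i, shI l (cellB T w l a (z ∘ Sum.inr) i) ∈ (P n).φ (z ∘ Sum.inl)

theorem cellR_dfn (n : ℕ) (l : k) (a : Fin r → ℕ) : Dfn (cellR P n l a) := by
  have h2 := ((P n).dfn_S (κ' := (P n).κ ⊕ CellI k r Op Ve a) Sum.inl).and
    (Dfn.forall_fin fun i => (P n).dfn_mem Sum.inl (cellB_PV T w l a i Sum.inr))
  refine h2.congr fun z => ?_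
  unfold cellR
  refine and_congr_right fun h3 => ?_
  exact ⟨fun h i => (h i).2, fun h i => ⟨h3, h i⟩⟩

theorem cellR_iff {n : ℕ} (l : k) {a : Fin r → ℕ} (ha : ∑ i, a i = n) (x : (P n).κ → k)
    (y : CellI k r Op Ve a → k) :
    cellR P n l a (Sum.elim x y) ↔ x ∈ (P n).S ∧ rowL (cellB T w l a y) = shN l ((P n).φ x) := by
  unfold cellR
  rw [Sum.elim_comp_inl, Sum.elim_comp_inr]
  refine and_congr_right fun hx => ?_
  have hN := (P n).maps hx
  have := hN.2.1
  have hB := (cellB_hnf T w l a y).1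
  have := (ut_finrank hB).1
  constructor
  · intro h
    apply eq_of_le_finrank
    · unfold rowL
      rw [Submodule.span_le]
      rintro _ ⟨i, rfl⟩
      exact h i
    · rw [finrank_shN, hN.2.2, (ut_finrank hB).2, ha]
  · intro h i
    rw [← mem_shN, ← h]
    exact Submodule.subset_span ⟨i, rfl⟩

variable (E : EulerChar k)

theorem cell_bij {n : ℕ} (l : k) {a : Fin r → ℕ} (ha : ∑ i, a i = n) :
    E.P (inCell P n l a) = E.P (fun y : CellI k r Op Ve a → k =>
      Crit ((bgAt T w l).over a (cellF T w l a y)) (PowerSeries.X ^ (∑ i, a i))) := by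
  apply E.P_bij (cellR_dfn P n l a)
  · intro x y h
    rw [cellR_iff P l ha] at h
    refine ⟨⟨h.1, _, cellB_hnf T w l a y, h.2⟩, ?_⟩
    rw [crit_cell, h.2, shNI_shN]
    exact ((P n).maps h.1).1
  · rintro x ⟨hx, B, hB, hBx⟩
    obtain ⟨y, hy, hu⟩ := cell_unique T w l a hB
    refine ⟨y, (cellR_iff P l ha x y).2 ⟨hx, by rw [hy]; exact hBx⟩, ?_⟩
    intro y' hy'
    apply hu
    have h1 := ((cellR_iff P l ha x y').1 hy').2
    exact (hnf_unique (cellB_hnf T w l a y') hB (h1.trans hBx.symm)).2
  · intro y hy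
    rw [crit_cell] at hy
    have hB := (cellB_hnf T w l a y).1
    have h1 := ut_finrank hB
    have := h1.1
    have hmem : shNI l (rowL (cellB T w l a y)) ∈ QN T w n := by
      refine ⟨hy, Module.Finite.equiv (shQ l _).symm, ?_⟩
      rw [(shQ l _).finrank_eq, h1.2, ha]
    obtain ⟨x, hx, hx'⟩ := (P n).surj hmem
    refine ⟨x, (cellR_iff P l ha x y).2 ⟨hx, by rw [hx', shN_shNI]⟩, ?_⟩
    intro x' hx2
    obtain ⟨h3, h4⟩ := (cellR_iff P l ha x' y).1 hx2
    apply (P n).inj h3 hx
    rw [hx', h4, shNI_shN]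

theorem supp_cell {n : ℕ} (l : k) (x : (P n).κ → k) (hx : x ∈ (P n).S) :
    Pl l ((P n).φ x) = (P n).φ x ↔ ∃ a : Fin r → ℕ, ∑ i, a i = n ∧ inCell P n l a x := by
  have hN := (P n).maps hx
  have := hN.2.1
  have hfs := finite_shN l ((P n).φ x)
  constructor
  · intro h
    obtain ⟨a, B, hB, hBN⟩ := hnf_exists (shN l ((P n).φ x)) n (by
      intro v
      rw [mem_shN, shI_smul, map_pow, tau_symm_X]
      have h0 := pow_smul_mem l h (shI l v)
      rw [hN.2.2] at h0
      exact h0)
    refine ⟨a, ?_, hx, B, hB, hBN⟩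
    rw [← (ut_finrank hB.1).2, hBN, finrank_shN, hN.2.2]
  · rintro ⟨a, ha, -, B, hB, hBN⟩
    apply Pl_eq_of_pow (n := n)
    intro v
    have h1 := ut_pow_mem hB.1 (shM l v)
    rw [ha, hBN, mem_shN, shI_smul, map_pow, tau_symm_X, shI_shM] at h1
    exact h1

theorem inCell_dfn {n : ℕ} (l : k) {a : Fin r → ℕ} (ha : ∑ i, a i = n) :
    Dfn (inCell P n l a) := by
  refine (cellR_dfn P n l a).exists_vec.congr fun x => ?_
  constructor
  · rintro ⟨y, hy⟩
    rw [cellR_iff P l ha] at hy
    exact ⟨hy.1, _, cellB_hnf T w l a y, hy.2⟩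
  · rintro ⟨hx, B, hB, hBx⟩
    obtain ⟨y, hy, -⟩ := cell_unique T w l a hB
    exact ⟨y, (cellR_iff P l ha x y).2 ⟨hx, by rw [hy]; exact hBx⟩⟩

include P in
theorem crit_dfn {n : ℕ} (l : k) {a : Fin r → ℕ} (ha : ∑ i, a i = n) :
    Dfn (fun y : CellI k r Op Ve a → k =>
      Crit ((bgAt T w l).over a (cellF T w l a y)) (PowerSeries.X ^ (∑ i, a i))) := by
  have h0 : Dfn (fun z : CellI k r Op Ve a ⊕ (P n).κ → k =>
      cellR P n l a (z ∘ Sum.swap)) := (cellR_dfn P n l a).reindex Sum.swap
  refine h0.exists_vec.congr fun y => ?_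
  have hsw : ∀ x : (P n).κ → k, (Sum.elim y x : _ → k) ∘ Sum.swap = Sum.elim x y := by
    intro x
    funext i
    cases i <;> rfl
  simp only [hsw]
  constructor
  · rintro ⟨x, h⟩
    rw [cellR_iff P l ha] at h
    rw [crit_cell, h.2, shNI_shN]
    exact ((P n).maps h.1).1
  · intro hy
    rw [crit_cell] at hy
    have hB := (cellB_hnf T w l a y).1
    have h1 := ut_finrank hB
    have := h1.1
    have hmem : shNI l (rowL (cellB T w l a y)) ∈ QN T w n := by
      refine ⟨hy, Module.Finite.equiv (shQ l _).symm, ?_⟩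
      rw [(shQ l _).finrank_eq, h1.2, ha]
    obtain ⟨x, hx, hx'⟩ := (P n).surj hmem
    exact ⟨x, (cellR_iff P l ha x y).2 ⟨hx, by rw [hx', shN_shNI]⟩⟩

theorem zz_split (n : ℕ) (l : k) :
    zz P E n l = ∑ a ∈ Finset.piAntidiag Finset.univ n, E.P (inCell P n l a) := by
  classical
  let A : (Fin r → ℕ) → ((P n).κ → k) → Prop := fun a x => ∑ i, a i = n ∧ inCell P n l a x
  have hA : ∀ a, Dfn (A a) := by
    intro a
    by_cases ha : ∑ i, a i = n
    · exact (Dfn.const _).and (inCell_dfn P l ha)
    · exact (Dfn.const False).congr fun x => ⟨fun h => h.elim, fun h => ha h.1⟩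
  have hu : ∀ x i j, A i x → A j x → i = j := by
    rintro x i j ⟨_, _, B, hB, h1⟩ ⟨_, _, B', hB', h2⟩
    exact (hnf_unique hB hB' (h1.trans h2.symm)).1
  unfold zz
  have hsupp : Dfn (fun x : (P n).κ → k => x ∈ (P n).S ∧ Pl l ((P n).φ x) = (P n).φ x) :=
    dfn_supp P id (PolyF.const l)
  rw [E.P_split (Finset.piAntidiag Finset.univ n) hA hu hsupp]
  · apply Finset.sum_congr rfl
    intro a ha
    rw [Finset.mem_piAntidiag] at ha
    apply E.P_congr
    intro x
    constructor
    · exact fun h => h.2.2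
    · intro h
      exact ⟨⟨h.1, (supp_cell P l x h.1).2 ⟨a, ha.1, h⟩⟩, ha.1, h⟩
  · rintro x ⟨hx, hs⟩
    obtain ⟨a, ha, h⟩ := (supp_cell P l x hx).1 hs
    exact ⟨a, Finset.mem_piAntidiag.2 ⟨ha, fun i _ => Finset.mem_univ i⟩, ha, h⟩

end

/-- The local Euler characteristics are given by a tame function. -/
theorem zz_eval [IsAlgClosed k] [CharZero k] (E : EulerChar k) :
    ∃ J : (HV r Op Ve → PowerSeries k) → (Fin r → ℕ) → ℤ, TameZ (nu k) J ∧
      ∀ (T : Op → Matrix (Fin r) (Fin r) k[X]) (w : Ve → Fin r → k[X])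
        (P : ∀ n, Param k k[X] (Fin r → k[X]) (QN T w n)) (n : ℕ) (l : k),
        zz P E n l = ∑ a ∈ Finset.piAntidiag Finset.univ n, J ((bgAt T w l).pt a) a := by
  classical
  have : Infinite k := IsAlgClosed.instInfinite
  obtain ⟨J, hJ, hJ'⟩ := chi_eval E (latSetup k r Op Ve) (latL r Op Ve)
  refine ⟨J, hJ, fun T w P n l => ?_⟩
  rw [zz_split]
  apply Finset.sum_congr rfl
  intro a ha
  rw [Finset.mem_piAntidiag] at ha
  have h1 := hJ' a (latAt (bgAt T w l) a) ((bgAt T w l).pt a) (Bg.pt_mem _ _) (Bg.pt_zero _ _)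
  rw [allStps_eq] at h1
  have hcd := crit_dfn P l ha.1
  have h2 : ∀ y : CellI k r Op Ve a → k,
      (latAt (bgAt T w l) a).F (fam ((cellP r Op Ve a).map stpP) (κ := Empty)
        (fun _ => (bgAt T w l).pt a) y) = if Crit ((bgAt T w l).over a (cellF T w l a y))
          (PowerSeries.X ^ (∑ i, a i)) then 1 else 0 := fun y => rfl
  have h3 := h1 ((CF.indicator hcd).congr fun y => (h2 y).symm)
  rw [cell_bij P E l ha.1, ← E.int_indicator hcd, ← h3]
  apply E.int_congr
  intro y
  exact (h2 y).symm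

end Pool.Agent.Helper345_Quot
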