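import Mathlib.RingTheory.MvPolynomial.Symmetric.FundamentalTheorem
import Pool.Agent.Helper345_Quot.Ev
import Mathlib.Tactic

/-!
Products over all permutations of the roots have coefficients which are polynomials in the
elementary symmetric functions.
-/

noncomputable section

namespace Pool.Agent.Helper345_Quot

open MvPolynomial

variable {d : ℕ} {Λ τ : Type*}

/-- elementary symmetric values -/
def esv {A : Type*} [CommRing A] (c : Fin d → A) (i : Fin d) : A :=
  ev c (esymm (Fin d) ℤ (i + 1))

/-- the product over all permutations -/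
def prodPoly {A : Type*} [CommRing A] [Fintype Λ] (U : Λ → MvPolynomial (Fin d ⊕ τ) ℤ)
    (c : Fin d → A) (θ : τ → A) : MvPolynomial Λ A :=
  ∏ g : Equiv.Perm (Fin d), (1 + ∑ l, X l * C (ev (Sum.elim (c ∘ g) θ) (U l)))

theorem symm_lemma (q : MvPolynomial (Fin d ⊕ τ) ℤ)
    (hq : ∀ g : Equiv.Perm (Fin d), rename (Sum.map g id) q = q) :
    ∃ Q : MvPolynomial (Fin d ⊕ τ) ℤ, ∀ (A : Type*) [CommRing A] (c : Fin d → A) (θ : τ → A),
      ev (Sum.elim (esv c) θ) Q = ev (Sum.elim c θ) q := by
  let E := sumAlgEquiv ℤ (Fin d) τ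
  have hcomm : ∀ (g : Equiv.Perm (Fin d)) (p : MvPolynomial (Fin d ⊕ τ) ℤ),
      rename g (E p) = E (rename (Sum.map g id) p) := by
    intro g p
    have : ((rename g).toRingHom.comp (E : MvPolynomial (Fin d ⊕ τ) ℤ →+* _)) =
      ((E : MvPolynomial (Fin d ⊕ τ) ℤ →+* MvPolynomial (Fin d) (MvPolynomial τ ℤ)).comp
        (rename (Sum.map g id)).toRingHom) := by
      apply MvPolynomial.ringHom_ext
      · intro r
        simp [E]
      · intro i
        rcases i with i | i <;> simp [E]
    exact congrArg (fun f => f p) this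
  have hsym : (E q).IsSymmetric := by
    intro g
    rw [hcomm, hq]
  obtain ⟨Q', hQ'⟩ := esymmAlgHom_surjective (σ := Fin d) (MvPolynomial τ ℤ) (n := d) (by simp)
    ⟨E q, hsym⟩
  have hQ2 : aeval (fun i : Fin d => esymm (Fin d) (MvPolynomial τ ℤ) (i + 1)) Q' = E q := by
    rw [← esymmAlgHom_apply, hQ']
  refine ⟨E.symm Q', ?_⟩
  intro A _ c θ
  have key : ∀ (c' : Fin d → A) (p : MvPolynomial (Fin d) (MvPolynomial τ ℤ)),
      ev (Sum.elim c' θ) (E.symm p) = eval₂ (ev θ) c' p := by
    intro c' p
    have : ((ev (Sum.elim c' θ)).comp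
        (E.symm : MvPolynomial (Fin d) (MvPolynomial τ ℤ) →+* _)) =
        eval₂Hom (ev θ) c' := by
      apply MvPolynomial.ringHom_ext
      · intro r
        have h2 : ((ev (Sum.elim c' θ)).comp
            ((E.symm : MvPolynomial (Fin d) (MvPolynomial τ ℤ) →+* _).comp C)) =
          (ev θ) := by
          apply MvPolynomial.ringHom_ext
          · intro r
            simp [E]
          · intro i
            simp [E]
        have h3 := congrArg (fun f => f r) h2
        simp only [RingHom.comp_apply] at h3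
        simp only [RingHom.comp_apply, coe_eval₂Hom, eval₂_C]
        exact h3
      · intro i
        simp [E]
    exact congrArg (fun f => f p) this
  rw [key]
  have h4 : ev (Sum.elim c θ) q = eval₂ (ev θ) c (E q) := by
    rw [← key, AlgEquiv.symm_apply_apply]
  rw [h4, ← hQ2]
  -- evaluate
  have h5 : ∀ p : MvPolynomial (Fin d) (MvPolynomial τ ℤ),
      eval₂ (ev θ) c
        (aeval (fun i : Fin d => esymm (Fin d) (MvPolynomial τ ℤ) (i + 1)) p) =
      eval₂ (ev θ) (esv c) p := by
    intro p
    have : ((eval₂Hom (ev θ) c).comp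
        (aeval (R := MvPolynomial τ ℤ)
          (fun i : Fin d => esymm (Fin d) (MvPolynomial τ ℤ) (i + 1))).toRingHom) =
        eval₂Hom (ev θ) (esv c) := by
      apply MvPolynomial.ringHom_ext
      · intro r
        simp
      · intro i
        simp [esv, esymm, eval₂_sum, eval₂_prod]
    exact congrArg (fun f => f p) this
  rw [h5]

theorem prodPoly_map {A B : Type*} [CommRing A] [CommRing B] [Fintype Λ]
    (U : Λ → MvPolynomial (Fin d ⊕ τ) ℤ)
    (c : Fin d → A) (θ : τ → A) (f : A →+* B) :
    map f (prodPoly U c θ) = prodPoly U (fun i => f (c i)) (fun t => f (θ t)) := by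
  unfold prodPoly
  rw [map_prod]
  apply Finset.prod_congr rfl
  intro g _
  simp only [map_add, map_one, map_sum, map_mul, map_X, map_C]
  congr 1
  apply Finset.sum_congr rfl
  intro l _
  congr 2
  rw [map_ev]
  congr 2
  funext i
  rcases i with i | i <;> rfl

/-- The main statement: coefficients of `prodPoly` are polynomials in elementary symmetric values
and parameters. -/
theorem sym_main [Fintype Λ] (U : Λ → MvPolynomial (Fin d ⊕ τ) ℤ) :
    ∃ (F : Finset (Λ →₀ ℕ)) (Q : (Λ →₀ ℕ) → MvPolynomial (Fin d ⊕ τ) ℤ), 0 ∈ F ∧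
      ∀ (A : Type*) [CommRing A] (c : Fin d → A) (θ : τ → A),
        (∀ α, α ∉ F → coeff α (prodPoly U c θ) = 0) ∧
        ∀ α, coeff α (prodPoly U c θ) = ev (Sum.elim (esv c) θ) (Q α) := by
  classical
  let gen : MvPolynomial Λ (MvPolynomial (Fin d ⊕ τ) ℤ) :=
    prodPoly U (fun i => X (Sum.inl i)) (fun t => X (Sum.inr t))
  have hsym : ∀ α, ∀ g : Equiv.Perm (Fin d), rename (Sum.map g id) (coeff α gen) = coeff α gen := by
    intro α g
    have h1 : map (rename (R := ℤ) (Sum.map g (id : τ → τ))).toRingHom gen = gen := by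
      rw [prodPoly_map]
      have e1 : (fun i : Fin d => (rename (R := ℤ) (Sum.map g (id : τ → τ))).toRingHom
          (X (Sum.inl i))) = (fun i : Fin d => X (Sum.inl i)) ∘ g := by
        funext i; simp
      have e2 : (fun t : τ => (rename (R := ℤ) (Sum.map g (id : τ → τ))).toRingHom
          (X (Sum.inr t) : MvPolynomial (Fin d ⊕ τ) ℤ)) =
          fun t : τ => X (Sum.inr t) := by
        funext i; simp
      rw [e1, e2]
      unfold gen prodPoly
      apply Fintype.prod_equiv (Equiv.mulLeft g)
      intro h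
      rfl
    conv_rhs => rw [← h1]
    rw [coeff_map]
    rfl
  choose Q hQ using fun α => symm_lemma (coeff α gen) (hsym α)
  refine ⟨insert 0 gen.support, Q, Finset.mem_insert_self _ _, ?_⟩
  intro A _ c θ
  have hspec : prodPoly U c θ = map (ev (Sum.elim c θ)) gen := by
    rw [prodPoly_map]
    congr 1
    · funext i; simp
    · funext i; simp
  constructor
  · intro α hα
    rw [hspec, coeff_map]
    have : coeff α gen = 0 := by
      by_contra h
      exact hα (Finset.mem_insert_of_mem (mem_support_iff.2 h))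
    rw [this, map_zero]
  · intro α
    rw [hspec, coeff_map, hQ]

end Pool.Agent.Helper345_Quot
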