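import Pool.Agent.Helper345_Quot.Gauss
import Pool.Agent.Helper345_Quot.Sym
import Mathlib.Analysis.SpecialFunctions.Pow.NNReal

/-!
Coded valuations on the algebraic closure of Laurent series and the counting lemma.
-/

noncomputable section

namespace Pool.Agent.Helper345_Quot

open MvPolynomial
open scoped NNReal

/-- `2^(-1/e)` -/
def qq (e : ℕ) : ℝ≥0 := (1 / 2 : ℝ≥0) ^ ((1 : ℝ) / e)

theorem qq_pow {e : ℕ} (he : e ≠ 0) : qq e ^ e = 1 / 2 := by
  unfold qq
  rw [← NNReal.rpow_natCast, ← NNReal.rpow_mul]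
  have : (1 : ℝ) / e * e = 1 := by
    field_simp
  rw [this, NNReal.rpow_one]

theorem qq_pos (e : ℕ) : 0 < qq e := by
  unfold qq
  positivity

theorem qq_lt_one {e : ℕ} (he : e ≠ 0) : qq e < 1 := by
  by_contra h
  push Not at h
  have h1 : (1 : ℝ≥0) ≤ qq e ^ e := one_le_pow₀ h
  rw [qq_pow he] at h1
  have : (1 / 2 : ℝ≥0) < 1 := by
    rw [← NNReal.coe_lt_coe]; norm_num
  exact absurd h1 (not_le.2 this)

theorem eq_qq_pow {e : ℕ} (he : e ≠ 0) {x : ℝ≥0} {m : ℕ} (h : x ^ e = (1 / 2) ^ m) :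
    x = qq e ^ m := by
  have h1 : (qq e ^ m) ^ e = (1 / 2) ^ m := by
    rw [← pow_mul, mul_comm, pow_mul, qq_pow he]
  have h2 : x ^ e = (qq e ^ m) ^ e := by rw [h, h1]
  exact (pow_left_inj₀ zero_le zero_le he).1 h2

theorem qq_zpow_inj {e : ℕ} (he : e ≠ 0) {m n : ℤ} (h : qq e ^ m = qq e ^ n) : m = n :=
  zpow_right_injective₀ (qq_pos e) (qq_lt_one he).ne h

theorem qq_zpow_le {e : ℕ} (he : e ≠ 0) {m n : ℤ} : qq e ^ m ≤ qq e ^ n ↔ n ≤ m :=
  (zpow_right_strictAnti₀ (qq_pos e) (qq_lt_one he)).le_iff_ge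

theorem qq_zpow_lt {e : ℕ} (he : e ≠ 0) {m n : ℤ} : qq e ^ m < qq e ^ n ↔ n < m :=
  (zpow_right_strictAnti₀ (qq_pos e) (qq_lt_one he)).lt_iff_gt

variable {k : Type*} [Field k]

/-- `a` codes the valuation of `u` : `0` if `u = 0`, otherwise the norm is `q^(a-1)`. -/
def IsCod (e : ℕ) (u : LL k) (a : ℕ) : Prop :=
  (u = 0 ∧ a = 0) ∨ (a ≠ 0 ∧ nn k u = qq e ^ ((a : ℤ) - 1))

theorem IsCod.unique {e : ℕ} (he : e ≠ 0) {u : LL k} {a b : ℕ} (ha : IsCod e u a)
    (hb : IsCod e u b) : a = b := by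
  rcases ha with ⟨rfl, rfl⟩ | ⟨ha, ha'⟩
  · rcases hb with ⟨_, rfl⟩ | ⟨hb, hb'⟩
    · rfl
    · rw [nn_zero] at hb'
      exact absurd hb'.symm (zpow_ne_zero _ (qq_pos e).ne')
  · rcases hb with ⟨rfl, rfl⟩ | ⟨hb, hb'⟩
    · rw [nn_zero] at ha'
      exact absurd ha'.symm (zpow_ne_zero _ (qq_pos e).ne')
    · rw [ha'] at hb'
      have := qq_zpow_inj he hb'
      omega

open Classical in
/-- the coded valuation -/
def cod (e : ℕ) (u : LL k) : ℕ := if h : ∃ a, IsCod e u a then h.choose else 0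

theorem IsCod.eq_cod {e : ℕ} (he : e ≠ 0) {u : LL k} {a : ℕ} (ha : IsCod e u a) :
    cod e u = a := by
  have h : ∃ a, IsCod e u a := ⟨a, ha⟩
  unfold cod
  rw [dif_pos h]
  exact h.choose_spec.unique he ha

theorem IsCod.zero_iff {e : ℕ} {u : LL k} {a : ℕ} (ha : IsCod e u a) : a = 0 ↔ u = 0 := by
  rcases ha with ⟨rfl, rfl⟩ | ⟨ha, ha'⟩
  · simp
  · constructor
    · intro h; exact absurd h ha
    · rintro rfl
      rw [nn_zero] at ha'
      exact absurd ha'.symm (zpow_ne_zero _ (qq_pos e).ne')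

theorem IsCod.nn_eq {e : ℕ} {u : LL k} {a : ℕ} (ha : IsCod e u a) (hu : u ≠ 0) :
    nn k u = qq e ^ ((a : ℤ) - 1) := by
  rcases ha with ⟨rfl, rfl⟩ | ⟨ha, ha'⟩
  · exact absurd rfl hu
  · exact ha'

theorem isCod_emb {e : ℕ} (he : e ≠ 0) (f : PowerSeries k) :
    IsCod e (emb k f) (if nu k f = 0 then 0 else e * (nu k f - 1) + 1) := by
  by_cases hf : f = 0
  · subst hf
    left
    simp [nu]
  · right
    have h1 : nu k f = f.order.toNat + 1 := by simp [nu, hf]
    rw [h1]
    simp only [Nat.add_eq_zero_iff, one_ne_zero, and_false, if_false, ne_eq, not_false_eq_true,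
      Nat.add_sub_cancel, true_and]
    have h2 : nn k (emb k f) = (1 / 2) ^ f.order.toNat := by
      apply NNReal.eq
      rw [coe_nn, nrm_emb k f hf]
      simp
    rw [h2, ← qq_pow he, ← pow_mul]
    push_cast
    rw [add_sub_cancel_right]
    rw [← zpow_natCast]
    push_cast
    rfl

/-- two terms of maximal norm in a vanishing sum -/
theorem two_max {ι : Type*} [DecidableEq ι] (s : Finset ι) (t : ι → LL k)
    (h0 : ∑ i ∈ s, t i = 0) (h1 : ∃ i ∈ s, t i ≠ 0) :
    ∃ i ∈ s, ∃ j ∈ s, i ≠ j ∧ nn k (t i) = nn k (t j) ∧ t i ≠ 0 := by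
  obtain ⟨i₁, hi₁, hne⟩ := h1
  obtain ⟨i, hi, hmax⟩ := Finset.exists_max_image s (fun i => nn k (t i)) ⟨i₁, hi₁⟩
  have hpos : 0 < nn k (t i) := by
    have h2 : nn k (t i₁) ≠ 0 := fun h => hne (nn_eq_zero.1 h)
    exact (pos_iff_ne_zero.2 h2).trans_le (hmax i₁ hi₁)
  by_contra hcon
  push Not at hcon
  have hti : t i ≠ 0 := fun h => by rw [h, nn_zero] at hpos; exact lt_irrefl _ hpos
  have h3 : ∀ j ∈ s.erase i, nn k (t j) < nn k (t i) := by
    intro j hj
    have hj' := Finset.mem_erase.1 hj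
    refine lt_of_le_of_ne (hmax j hj'.2) ?_
    intro heq
    exact hti (hcon i hi j hj'.2 hj'.1.symm heq.symm)
  have h4 := nn_sum_lt (s.erase i) t hpos h3
  have h5 : t i = - ∑ j ∈ s.erase i, t j := by
    rw [← Finset.add_sum_erase s t hi] at h0
    exact eq_neg_of_add_eq_zero_left h0
  rw [← nn_neg, ← h5] at h4
  exact lt_irrefl _ h4

/-- integrality of valuations of roots of polynomials with power series coefficients -/
theorem isCod_of_root (D : ℕ) (b : ℕ → PowerSeries k) (u : LL k)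
    (hroot : u ^ D + ∑ r ∈ Finset.range D, emb k (b r) * u ^ r = 0) :
    ∃ a, IsCod D.factorial u a := by
  have he : D.factorial ≠ 0 := Nat.factorial_ne_zero D
  by_cases hu : u = 0
  · exact ⟨0, Or.inl ⟨hu, rfl⟩⟩
  have hu' : nn k u ≠ 0 := fun h => hu (nn_eq_zero.1 h)
  -- norm at most one
  have hle : nn k u ≤ 1 := by
    by_contra hgt
    push Not at hgt
    have h1 : nn k (∑ r ∈ Finset.range D, emb k (b r) * u ^ r) < nn k (u ^ D) := by
      apply nn_sum_lt
      · rw [nn_pow]; exact pow_pos (zero_lt_one.trans hgt) _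
      · intro r hr
        rw [nn_mul, nn_pow, nn_pow]
        have h2 := nn_emb_le_one (b r)
        calc nn k (emb k (b r)) * nn k u ^ r ≤ 1 * nn k u ^ r := by gcongr
          _ < nn k u ^ D := by
            rw [one_mul]
            exact pow_lt_pow_right₀ hgt (Finset.mem_range.1 hr)
    have h2 := nn_add_eq_of_lt h1
    rw [hroot, nn_zero] at h2
    rw [← h2] at h1
    exact absurd h1 not_lt_zero
  let c : ℕ → PowerSeries k := fun r => if r = D then 1 else b r
  have hsum : ∑ r ∈ Finset.range (D + 1), emb k (c r) * u ^ r = 0 := by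
    rw [Finset.sum_range_succ]
    have : ∑ r ∈ Finset.range D, emb k (c r) * u ^ r =
        ∑ r ∈ Finset.range D, emb k (b r) * u ^ r := by
      apply Finset.sum_congr rfl
      intro r hr
      have : r ≠ D := (Finset.mem_range.1 hr).ne
      simp [c, this]
    rw [this]
    simp only [c, if_true, map_one, one_mul]
    rw [add_comm]; exact hroot
  obtain ⟨i, hi, j, hj, hij, heq, hne⟩ := two_max (Finset.range (D + 1)) _ hsum
    ⟨D, by simp, by simp [c, hu]⟩
  -- wlog i < j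
  have key : ∀ i j : ℕ, i < j → j < D + 1 →
      nn k (emb k (c i) * u ^ i) = nn k (emb k (c j) * u ^ j) → emb k (c i) * u ^ i ≠ 0 →
      ∃ a, IsCod D.factorial u a := by
    intro i j hij hj heq hne
    have hci : c i ≠ 0 := by
      intro h; rw [h, map_zero, zero_mul] at hne; exact hne rfl
    have hcj : c j ≠ 0 := by
      intro h
      rw [h, map_zero, zero_mul, nn_zero] at heq
      exact hne (nn_eq_zero.1 heq)
    have h1 : nn k (emb k (c i)) = (1 / 2) ^ (c i).order.toNat :=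
      NNReal.eq (by rw [coe_nn, nrm_emb k _ hci]; simp)
    have h2 : nn k (emb k (c j)) = (1 / 2) ^ (c j).order.toNat :=
      NNReal.eq (by rw [coe_nn, nrm_emb k _ hcj]; simp)
    rw [nn_mul, nn_mul, nn_pow, nn_pow, h1, h2] at heq
    obtain ⟨n, hn, rfl⟩ : ∃ n, 0 < n ∧ j = i + n := ⟨j - i, by omega, by omega⟩
    have h3 : (1 / 2 : ℝ≥0) ^ (c i).order.toNat =
        (1 / 2) ^ (c (i + n)).order.toNat * nn k u ^ n := by
      have hpos : nn k u ^ i ≠ 0 := pow_ne_zero _ hu'
      rw [pow_add, ← mul_assoc] at heq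
      have : (1 / 2 : ℝ≥0) ^ (c i).order.toNat * nn k u ^ i =
        ((1 / 2) ^ (c (i + n)).order.toNat * nn k u ^ n) * nn k u ^ i := by
        rw [heq]; ring
      exact mul_right_cancel₀ hpos this
    have h4 : (c (i + n)).order.toNat ≤ (c i).order.toNat := by
      by_contra hlt
      push Not at hlt
      have h5 : (1 / 2 : ℝ≥0) ^ (c (i + n)).order.toNat * nn k u ^ n ≤
          (1 / 2) ^ (c (i + n)).order.toNat := by
        calc _ ≤ (1 / 2 : ℝ≥0) ^ (c (i + n)).order.toNat * 1 := by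
              gcongr
              exact pow_le_one' hle n
          _ = _ := mul_one _
      have h6 : (1 / 2 : ℝ≥0) ^ (c (i + n)).order.toNat < (1 / 2) ^ (c i).order.toNat := by
        apply pow_lt_pow_right_of_lt_one₀ _ _ hlt
        · norm_num
        · rw [← NNReal.coe_lt_coe]; norm_num
      rw [h3] at h6
      exact absurd (h6.trans_le h5) (lt_irrefl _)
    obtain ⟨s, hs⟩ := Nat.exists_eq_add_of_le h4
    have h5 : nn k u ^ n = (1 / 2) ^ s := by
      rw [hs, pow_add] at h3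
      exact (mul_left_cancel₀ (pow_ne_zero _ (by norm_num)) h3).symm
    have hdvd : n ∣ D.factorial := Nat.dvd_factorial hn (by omega)
    obtain ⟨e', he'⟩ := hdvd
    have h6 : nn k u ^ D.factorial = (1 / 2) ^ (s * e') := by
      rw [he', pow_mul, h5, ← pow_mul]
    have h7 := eq_qq_pow he h6
    refine ⟨s * e' + 1, Or.inr ⟨by omega, ?_⟩⟩
    rw [h7]
    push_cast
    rw [add_sub_cancel_right, ← zpow_natCast]
    push_cast
    rfl
  rcases lt_or_gt_of_ne hij with h | h
  · exact key i j h (Finset.mem_range.1 hj) heq hne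
  · refine key j i h (Finset.mem_range.1 hi) heq.symm ?_
    intro h0
    rw [h0, nn_zero] at heq
    exact hne (nn_eq_zero.1 heq)

end Pool.Agent.Helper345_Quot
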