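import Pool.Agent.Helper345_Quot.Count

/-!
Integrality of coded valuations and the counting lemma.
-/

noncomputable section

namespace Pool.Agent.Helper345_Quot

open MvPolynomial
open scoped NNReal

variable {k : Type*} [Field k]

section charpoly
variable {d : ℕ} {τ : Type*}

theorem charpoly_map {A B : Type*} [CommRing A] [CommRing B] (q : MvPolynomial (Fin d ⊕ τ) ℤ)
    (c : Fin d → A) (θ : τ → A) (f : A →+* B) :
      (∏ g : Equiv.Perm (Fin d),
        (Polynomial.X - Polynomial.C (ev (Sum.elim (c ∘ g) θ) q))).map f =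
      ∏ g : Equiv.Perm (Fin d),
        (Polynomial.X - Polynomial.C (ev (Sum.elim ((fun i => f (c i)) ∘ g) (fun t => f (θ t))) q)) := by
  rw [Polynomial.map_prod]
  apply Finset.prod_congr rfl
  intro g _
  simp only [Polynomial.map_sub, Polynomial.map_X, Polynomial.map_C]
  congr 2
  rw [map_ev]
  congr 2
  funext i
  rcases i with i | i <;> rfl

theorem charpoly_lemma (q : MvPolynomial (Fin d ⊕ τ) ℤ) :
    ∃ Q : ℕ → MvPolynomial (Fin d ⊕ τ) ℤ, ∀ (A : Type*) [CommRing A] (c : Fin d → A) (θ : τ → A)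
      (r : ℕ), (∏ g : Equiv.Perm (Fin d),
        (Polynomial.X - Polynomial.C (ev (Sum.elim (c ∘ g) θ) q))).coeff r =
        ev (Sum.elim (esv c) θ) (Q r) := by
  classical
  let gen : Polynomial (MvPolynomial (Fin d ⊕ τ) ℤ) :=
    ∏ g : Equiv.Perm (Fin d),
        (Polynomial.X - Polynomial.C (ev (Sum.elim ((fun i => X (Sum.inl i)) ∘ g)
          (fun t => X (Sum.inr t))) q))
  have hsym : ∀ r, ∀ g : Equiv.Perm (Fin d), rename (Sum.map g id) (gen.coeff r) = gen.coeff r := by
    intro r g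
    have h1 : gen.map (rename (R := ℤ) (Sum.map g (id : τ → τ))).toRingHom = gen := by
      refine (charpoly_map q (fun i => X (Sum.inl i)) (fun t => X (Sum.inr t))
        (rename (R := ℤ) (Sum.map g (id : τ → τ))).toRingHom).trans ?_
      have e1 : (fun i : Fin d => (rename (R := ℤ) (Sum.map g (id : τ → τ))).toRingHom
          (X (Sum.inl i))) = (fun i : Fin d => X (Sum.inl i)) ∘ g := by
        funext i; simp
      have e2 : (fun t : τ => (rename (R := ℤ) (Sum.map g (id : τ → τ))).toRingHom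
          (X (Sum.inr t) : MvPolynomial (Fin d ⊕ τ) ℤ)) =
          fun t : τ => X (Sum.inr t) := by
        funext i; simp
      rw [e1, e2]
      apply Fintype.prod_equiv (Equiv.mulLeft g)
      intro h
      rfl
    conv_rhs => rw [← h1]
    rw [Polynomial.coeff_map]
    rfl
  choose Q hQ using fun r => symm_lemma (gen.coeff r) (hsym r)
  refine ⟨Q, ?_⟩
  intro A _ c θ r
  have hspec : ∏ g : Equiv.Perm (Fin d),
        (Polynomial.X - Polynomial.C (ev (Sum.elim (c ∘ g) θ) q)) =
        gen.map (ev (Sum.elim c θ)) := by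
    refine Eq.trans ?_ (charpoly_map q (fun i => X (Sum.inl i)) (fun t => X (Sum.inr t))
        (ev (Sum.elim c θ))).symm
    simp only [ev_X, Sum.elim_inl, Sum.elim_inr]
  rw [hspec, Polynomial.coeff_map, hQ]

theorem ev_emb (κ : Fin d → PowerSeries k) (θ : τ → PowerSeries k) (c : Fin d → LL k)
    (hc : ∀ i, c i = emb k (κ i)) (q : MvPolynomial (Fin d ⊕ τ) ℤ) :
    ev (Sum.elim c (fun t => emb k (θ t))) q = emb k (ev (Sum.elim κ θ) q) := by
  rw [map_ev]
  congr 2
  funext i
  rcases i with i | i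
  · exact hc i
  · rfl

theorem isCod_all (c : Fin d → LL k) (κ : Fin d → PowerSeries k) (θ : τ → PowerSeries k)
    (hc : ∀ i, esv c i = emb k (κ i)) (q : MvPolynomial (Fin d ⊕ τ) ℤ) :
    ∃ a, IsCod (d.factorial).factorial (ev (Sum.elim c (fun t => emb k (θ t))) q) a := by
  obtain ⟨Q, hQ⟩ := charpoly_lemma q
  set u := ev (Sum.elim c (fun t => emb k (θ t))) q with hu
  set P := ∏ g : Equiv.Perm (Fin d),
        (Polynomial.X - Polynomial.C (ev (Sum.elim (c ∘ g) (fun t => emb k (θ t))) q)) with hP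
  have hcoef : ∀ r, P.coeff r = emb k (ev (Sum.elim κ θ) (Q r)) := by
    intro r
    rw [hP, hQ, ← ev_emb κ θ (esv c) hc]
  have hmon : P.Monic := Polynomial.monic_prod_of_monic _ _ fun g _ => Polynomial.monic_X_sub_C _
  have hdeg : P.natDegree = d.factorial := by
    rw [hP, Polynomial.natDegree_prod_of_monic _ _ (fun g _ => Polynomial.monic_X_sub_C _)]
    rw [Finset.sum_congr rfl fun g _ => Polynomial.natDegree_X_sub_C _]
    simp [Fintype.card_perm]
  have hroot : P.eval u = 0 := by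
    rw [hP, Polynomial.eval_prod]
    apply Finset.prod_eq_zero (Finset.mem_univ (1 : Equiv.Perm (Fin d)))
    rw [Polynomial.eval_sub, Polynomial.eval_X, Polynomial.eval_C, hu]
    simp
  apply isCod_of_root (d.factorial) (fun r => ev (Sum.elim κ θ) (Q r))
  have h1 := hroot
  rw [Polynomial.eval_eq_sum_range, hdeg, Finset.sum_range_succ] at h1
  rw [← hdeg, hmon.coeff_natDegree, one_mul, hdeg, add_comm] at h1
  simp only [hcoef] at h1
  exact h1

end charpoly

/-! ### scaling and counting -/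

section scale

variable {Λ : Type*} [Fintype Λ]

theorem coeff_scale (P : MvPolynomial Λ (LL k)) (t : Λ → LL k) (α : Λ →₀ ℕ) :
    coeff α (aeval (fun l => C (t l) * X l) P : MvPolynomial Λ (LL k)) =
      coeff α P * ∏ l, t l ^ α l := by
  classical
  have h : ∀ Q : MvPolynomial Λ (LL k), (aeval (fun l => C (t l) * X l) Q : MvPolynomial Λ (LL k))
      = ∑ β ∈ Q.support, monomial β (coeff β Q * ∏ l, t l ^ β l) := by
    intro Q
    conv_lhs => rw [Q.as_sum]
    rw [map_sum]
    apply Finset.sum_congr rfl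
    intro β _
    rw [aeval_monomial, algebraMap_eq]
    have : (β.prod fun i n => (C (t i) * X i : MvPolynomial Λ (LL k)) ^ n) =
        C (∏ l, t l ^ β l) * ∏ l, X l ^ β l := by
      rw [Finsupp.prod_fintype _ _ (by simp)]
      simp only [mul_pow, Finset.prod_mul_distrib, map_prod, map_pow]
    rw [this, ← mul_assoc, ← C_mul, monomial_eq, Finsupp.prod_fintype _ _ (by simp)]
  rw [h, coeff_sum]
  simp only [coeff_monomial]
  rw [Finset.sum_ite_eq' P.support α]
  split_ifs with hα
  · rfl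
  · rw [notMem_support_iff.1 hα, zero_mul]

/-- exponent of `max (1, max_l t_l |u_l|)` -/
def hZ (m : Λ → ℤ) (a : Λ → ℕ) : ℕ :=
  Finset.univ.sup (fun l => if a l = 0 then 0 else (m l + 1 - a l).toNat)

theorem sup_eq_hZ {e : ℕ} (he : e ≠ 0) (m : Λ → ℤ) (a : Λ → ℕ) (u : Λ → LL k)
    (ha : ∀ l, IsCod e (u l) (a l)) (t : Λ → LL k) (ht : ∀ l, nn k (t l) = qq e ^ (-(m l))) :
    (1 : ℝ≥0) ⊔ Finset.univ.sup (fun l => nn k (t l * u l)) = qq e ^ (-(hZ m a : ℤ)) := by
  apply le_antisymm
  · apply sup_le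
    · rw [← zpow_zero (qq e), qq_zpow_le he]
      omega
    · apply Finset.sup_le
      intro l _
      by_cases hu : u l = 0
      · rw [hu, mul_zero, nn_zero]; exact zero_le
      · rw [nn_mul, ht, (ha l).nn_eq hu, ← zpow_add₀ (qq_pos e).ne', qq_zpow_le he]
        have h1 : a l ≠ 0 := fun h => hu ((ha l).zero_iff.1 h)
        have h2 := Finset.le_sup (f := fun l => if a l = 0 then 0 else (m l + 1 - a l).toNat)
          (Finset.mem_univ l)
        simp only [if_neg h1] at h2
        have h3 : (m l + 1 - a l).toNat ≤ hZ m a := h2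
        omega
  · by_cases h0 : hZ m a = 0
    · rw [h0]; simp
    · have hne : (Finset.univ : Finset Λ).Nonempty := by
        by_contra hcon
        rw [Finset.not_nonempty_iff_eq_empty] at hcon
        apply h0
        unfold hZ
        rw [hcon]; rfl
      obtain ⟨l, -, hl⟩ := Finset.exists_mem_eq_sup Finset.univ hne
        (fun l => if a l = 0 then 0 else (m l + 1 - a l).toNat)
      have hl' : hZ m a = if a l = 0 then 0 else (m l + 1 - a l).toNat := hl
      have h1 : a l ≠ 0 := by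
        intro h
        rw [if_pos h] at hl'
        exact h0 hl'
      rw [if_neg h1] at hl'
      have hu : u l ≠ 0 := fun h => h1 ((ha l).zero_iff.2 h)
      refine le_sup_of_le_right ?_
      refine le_trans ?_ (Finset.le_sup (f := fun l => nn k (t l * u l)) (Finset.mem_univ l))
      rw [nn_mul, ht, (ha l).nn_eq hu, ← zpow_add₀ (qq_pos e).ne', qq_zpow_le he]
      omega

/-- difference of consecutive exponents -/
theorem hZ_succ (n : Λ → ℕ) (a : Λ → ℕ) [Decidable (∃ l, a l ≠ 0 ∧ a l ≤ n l)] :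
    hZ (fun l => (n l : ℤ)) a = hZ (fun l => (n l : ℤ) - 1) a +
      (if ∃ l, a l ≠ 0 ∧ a l ≤ n l then 1 else 0) := by
  split_ifs with h
  · obtain ⟨l₀, h1, h2⟩ := h
    apply le_antisymm
    · apply Finset.sup_le
      intro l _
      beta_reduce
      split_ifs with h3
      · omega
      · have h4 := Finset.le_sup (f := fun l => if a l = 0 then 0 else
          ((n l : ℤ) - 1 + 1 - a l).toNat) (Finset.mem_univ l)
        simp only [if_neg h3] at h4
        have h5 : ((n l : ℤ) - 1 + 1 - a l).toNat ≤ hZ (fun l => (n l : ℤ) - 1) a := h4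
        omega
    · have hne : (Finset.univ : Finset Λ).Nonempty := ⟨l₀, Finset.mem_univ _⟩
      obtain ⟨l, -, hl⟩ := Finset.exists_mem_eq_sup Finset.univ hne
        (fun l => if a l = 0 then 0 else ((n l : ℤ) - 1 + 1 - a l).toNat)
      have hl' : hZ (fun l => (n l : ℤ) - 1) a =
        if a l = 0 then 0 else ((n l : ℤ) - 1 + 1 - a l).toNat := hl
      have h4 := Finset.le_sup (f := fun l => if a l = 0 then 0 else
          ((n l : ℤ) + 1 - a l).toNat) (Finset.mem_univ l)
      have h4' : (if a l = 0 then 0 else ((n l : ℤ) + 1 - a l).toNat) ≤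
        hZ (fun l => (n l : ℤ)) a := h4
      have h5 := Finset.le_sup (f := fun l => if a l = 0 then 0 else
          ((n l : ℤ) + 1 - a l).toNat) (Finset.mem_univ l₀)
      have h5' : (if a l₀ = 0 then 0 else ((n l₀ : ℤ) + 1 - a l₀).toNat) ≤
        hZ (fun l => (n l : ℤ)) a := h5
      rw [if_neg h1] at h5'
      split_ifs at hl' h4' with h6
      · omega
      · omega
  · push Not at h
    rw [add_zero]
    unfold hZ
    apply Finset.sup_congr rfl
    intro l _
    by_cases h1 : a l = 0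
    · simp [h1]
    · have := h l h1
      simp only [if_neg h1]
      omega

end scale

section count
variable {d : ℕ} {τ : Type*} {Λ : Type*} [Fintype Λ]

theorem exists_root (e : ℕ) (he : e ≠ 0) : ∃ w : LL k, nn k w = qq e := by
  obtain ⟨w, hw⟩ := IsAlgClosed.exists_pow_nat_eq (emb k PowerSeries.X) (Nat.pos_of_ne_zero he)
  refine ⟨w, ?_⟩
  have h1 : nn k w ^ e = (1 / 2) ^ 1 := by
    rw [← nn_pow, hw, pow_one]
    apply NNReal.eq
    rw [coe_nn, nrm_emb_X]
    simp
  have := eq_qq_pow he h1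
  rw [pow_one] at this
  exact this

theorem zpow_sum_aux {x : ℝ≥0} (hx : x ≠ 0) {ι : Type*} (s : Finset ι) (f : ι → ℤ) :
    x ^ (∑ i ∈ s, f i) = ∏ i ∈ s, x ^ f i := by
  classical
  induction s using Finset.induction_on with
  | empty => simp
  | insert a s ha ih => rw [Finset.sum_insert ha, Finset.prod_insert ha, zpow_add₀ hx, ih]

/-- the exponent attached to the coefficients -/
def PhiZ (F : Finset (Λ →₀ ℕ)) (m : Λ → ℤ) (b : (Λ →₀ ℕ) → ℕ) : ℕ :=
  F.sup (fun α => if b α = 0 then 0 else (∑ l, (α l : ℤ) * m l + 1 - b α).toNat)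

theorem constCoeff_prodPoly {A : Type*} [CommRing A] (U : Λ → MvPolynomial (Fin d ⊕ τ) ℤ)
    (c : Fin d → A) (θ : τ → A) : coeff 0 (prodPoly U c θ) = 1 := by
  rw [← constantCoeff_eq]
  unfold prodPoly
  rw [map_prod]
  apply Finset.prod_eq_one
  intro g _
  simp [map_sum]

theorem sum_hZ [IsAlgClosed k] {e : ℕ} (he : e ≠ 0) (U : Λ → MvPolynomial (Fin d ⊕ τ) ℤ)
    (F : Finset (Λ →₀ ℕ)) (hF0 : 0 ∈ F) (c : Fin d → LL k) (θ : τ → LL k)
    (hF : ∀ α, α ∉ F → coeff α (prodPoly U c θ) = 0)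
    (a : Equiv.Perm (Fin d) → Λ → ℕ)
    (ha : ∀ (g : Equiv.Perm (Fin d)) (l : Λ), IsCod e (ev (Sum.elim (c ∘ g) θ) (U l)) (a g l))
    (b : (Λ →₀ ℕ) → ℕ) (hb : ∀ α, IsCod e (coeff α (prodPoly U c θ)) (b α)) (m : Λ → ℤ) :
    ∑ g, hZ m (a g) = PhiZ F m b := by
  classical
  obtain ⟨w, hw⟩ := exists_root (k := k) e he
  have hw0 : w ≠ 0 := by
    intro h
    rw [h, nn_zero] at hw
    exact (qq_pos e).ne hw
  let t : Λ → LL k := fun l => w ^ (-(m l))
  have ht : ∀ l, nn k (t l) = qq e ^ (-(m l)) := fun l => by rw [nn_zpow, hw]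
  let Pt : MvPolynomial Λ (LL k) := aeval (fun l => C (t l) * X l) (prodPoly U c θ)
  have hPt : Pt = ∏ g : Equiv.Perm (Fin d),
      (1 + ∑ l, X l * C (t l * ev (Sum.elim (c ∘ g) θ) (U l))) := by
    unfold Pt prodPoly
    rw [map_prod]
    apply Finset.prod_congr rfl
    intro g _
    simp only [map_add, map_one, map_sum, map_mul, aeval_X, aeval_C, algebraMap_eq]
    congr 1
    apply Finset.sum_congr rfl
    intro l _
    ring
  have h1 : gn Pt = qq e ^ (-((∑ g, hZ m (a g) : ℕ) : ℤ)) := by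
    rw [hPt, gn_prod]
    have : ∀ g : Equiv.Perm (Fin d), gn (1 + ∑ l, X l * C (t l * ev (Sum.elim (c ∘ g) θ) (U l)))
        = qq e ^ (-(hZ m (a g) : ℤ)) := by
      intro g
      rw [gn_lin, sup_eq_hZ he m (a g) _ (ha g) t ht]
    rw [Finset.prod_congr rfl fun g _ => this g]
    push_cast
    rw [← Finset.sum_neg_distrib, ← zpow_sum_aux (qq_pos e).ne']
  have hcoeff : ∀ α, nn k (coeff α Pt) = nn k (coeff α (prodPoly U c θ)) *
      qq e ^ (-(∑ l, (α l : ℤ) * m l)) := by
    intro α
    unfold Pt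
    rw [coeff_scale, nn_mul, nn_prod]
    congr 1
    rw [← Finset.sum_neg_distrib, zpow_sum_aux (qq_pos e).ne']
    apply Finset.prod_congr rfl
    intro l _
    rw [nn_pow, ht, ← zpow_natCast, ← zpow_mul]
    congr 1
    ring
  have h2 : gn Pt = qq e ^ (-(PhiZ F m b : ℤ)) := by
    apply le_antisymm
    · apply gn_le
      intro α
      by_cases hα : α ∈ F
      · by_cases h0 : b α = 0
        · have : coeff α (prodPoly U c θ) = 0 := (hb α).zero_iff.1 h0
          rw [hcoeff, this, nn_zero, zero_mul]; exact zero_le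
        · have hne : coeff α (prodPoly U c θ) ≠ 0 := fun h => h0 ((hb α).zero_iff.2 h)
          rw [hcoeff, (hb α).nn_eq hne, ← zpow_add₀ (qq_pos e).ne', qq_zpow_le he]
          have h3 := Finset.le_sup (f := fun α => if b α = 0 then 0 else
            (∑ l, (α l : ℤ) * m l + 1 - b α).toNat) hα
          simp only [if_neg h0] at h3
          have h4 : (∑ l, (α l : ℤ) * m l + 1 - b α).toNat ≤ PhiZ F m b := h3
          omega
      · rw [hcoeff, hF α hα, nn_zero, zero_mul]; exact zero_le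
    · by_cases h0 : PhiZ F m b = 0
      · rw [h0]
        have h3 := le_gn Pt 0
        rw [hcoeff, constCoeff_prodPoly] at h3
        simpa using h3
      · obtain ⟨α, hα, hαe⟩ := Finset.exists_mem_eq_sup F ⟨0, hF0⟩
          (fun α => if b α = 0 then 0 else (∑ l, (α l : ℤ) * m l + 1 - b α).toNat)
        have h3 : PhiZ F m b = if b α = 0 then 0 else (∑ l, (α l : ℤ) * m l + 1 - b α).toNat := hαe
        have h4 : b α ≠ 0 := by
          intro h; rw [if_pos h] at h3; exact h0 h3
        rw [if_neg h4] at h3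
        have hne : coeff α (prodPoly U c θ) ≠ 0 := fun h => h4 ((hb α).zero_iff.2 h)
        refine le_trans ?_ (le_gn Pt α)
        rw [hcoeff, (hb α).nn_eq hne, ← zpow_add₀ (qq_pos e).ne', qq_zpow_le he]
        omega
  rw [h1] at h2
  have := qq_zpow_inj he h2
  omega

theorem count_lemma [IsAlgClosed k] {e : ℕ} (he : e ≠ 0) (U : Λ → MvPolynomial (Fin d ⊕ τ) ℤ)
    (F : Finset (Λ →₀ ℕ)) (hF0 : 0 ∈ F) (c : Fin d → LL k) (θ : τ → LL k)
    (hF : ∀ α, α ∉ F → coeff α (prodPoly U c θ) = 0)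
    (a : Equiv.Perm (Fin d) → Λ → ℕ)
    (ha : ∀ (g : Equiv.Perm (Fin d)) (l : Λ), IsCod e (ev (Sum.elim (c ∘ g) θ) (U l)) (a g l))
    (b : (Λ →₀ ℕ) → ℕ) (hb : ∀ α, IsCod e (coeff α (prodPoly U c θ)) (b α)) (n : Λ → ℕ)
    [DecidablePred fun g => ∃ l, a g l ≠ 0 ∧ a g l ≤ n l] :
    PhiZ F (fun l => (n l : ℤ)) b = PhiZ F (fun l => (n l : ℤ) - 1) b +
      (Finset.univ.filter (fun g => ∃ l, a g l ≠ 0 ∧ a g l ≤ n l)).card := by
  rw [← sum_hZ he U F hF0 c θ hF a ha b hb, ← sum_hZ he U F hF0 c θ hF a ha b hb,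
    Finset.card_filter, ← Finset.sum_add_distrib]
  apply Finset.sum_congr rfl
  intro g _
  exact hZ_succ n (a g)

end count

end Pool.Agent.Helper345_Quot
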