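import Mathlib.LinearAlgebra.Charpoly.Basic
import Mathlib.LinearAlgebra.FiniteDimensional.Basic
import Mathlib.RingTheory.Artinian.Ring
import Mathlib.RingTheory.Artinian.Module
import Mathlib.LinearAlgebra.Charpoly.ToMatrix
import Mathlib.LinearAlgebra.Charpoly.BaseChange
import Mathlib.Tactic

/-!
Chinese remainder theorem for modules of finite dimension over a field.
-/

noncomputable section

namespace Pool.Agent.Helper345_Quot

open Polynomial

variable {k : Type*} [Field k] {R : Type*} [CommRing R] [Algebra k R]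

section one

variable {Q : Type*} [AddCommGroup Q] [Module R Q] [Module k Q] [IsScalarTower k R Q]
  [Module.Finite k Q]

include k in
/-- elements acting injectively have an inverse in the ring -/
theorem exists_act_inv (f : R) (h : ∀ q : Q, f • q = 0 → q = 0) :
    ∃ a : R, ∀ q : Q, (a * f) • q = q := by
  let T : Module.End k Q := Algebra.lsmul k k Q f
  have hT : ∀ (p : k[X]) (v : Q), aeval T p v = aeval f p • v := by
    intro p v
    have h1 : aeval T p = Algebra.lsmul k k Q (aeval f p) := by
      rw [show T = Algebra.lsmul k k Q f from rfl, aeval_algHom_apply]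
    rw [h1]
    rfl
  have hunit : IsUnit T := by
    rw [Module.End.isUnit_iff]
    have hinj : Function.Injective T := by
      rw [injective_iff_map_eq_zero]
      exact h
    exact ⟨hinj, LinearMap.injective_iff_surjective.1 hinj⟩
  have hc : T.charpoly.coeff 0 ≠ 0 := by
    intro h0
    have h1 := LinearMap.aeval_self_charpoly T
    have hdvd : (X : k[X]) ∣ T.charpoly := X_dvd_iff.2 h0
    obtain ⟨g, hg⟩ := hdvd
    -- determinant
    have h2 : LinearMap.det T = 0 := by
      rw [LinearMap.det_eq_sign_charpoly_coeff, h0, mul_zero]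
    have h3 := LinearMap.isUnit_det T hunit
    rw [h2] at h3
    exact not_isUnit_zero h3
  have hdiv : T.charpoly = C (T.charpoly.coeff 0) + X * T.charpoly.divX := by
    conv_lhs => rw [← divX_mul_X_add T.charpoly]
    ring
  refine ⟨- (algebraMap k R (T.charpoly.coeff 0)⁻¹) * aeval f T.charpoly.divX, fun q => ?_⟩
  have h1 : (aeval f T.charpoly) • q = 0 := by
    rw [← hT, LinearMap.aeval_self_charpoly]; rfl
  rw [hdiv, map_add, map_mul, aeval_C, aeval_X, add_smul] at h1
  have h2 : (algebraMap k R (T.charpoly.coeff 0)⁻¹) • (algebraMap k R (T.charpoly.coeff 0)) • q =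
      q := by
    rw [← mul_smul, ← map_mul, inv_mul_cancel₀ hc, map_one, one_smul]
  have h3 : (f * aeval f T.charpoly.divX) • q = - (algebraMap k R (T.charpoly.coeff 0)) • q := by
    rw [neg_smul]
    exact eq_neg_of_add_eq_zero_right h1
  calc ((- (algebraMap k R (T.charpoly.coeff 0)⁻¹) * aeval f T.charpoly.divX) * f) • q
      = - ((algebraMap k R (T.charpoly.coeff 0)⁻¹) • ((f * aeval f T.charpoly.divX) • q)) := by
        rw [← mul_smul, ← neg_smul]
        congr 1
        ring
    _ = q := by
        rw [h3, neg_smul, smul_neg, neg_neg, h2]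

variable (k) in
include k in
/-- primes containing the annihilator are maximal -/
theorem isMaximal_of_ann_le {q : Ideal R} [q.IsPrime] (hq : Module.annihilator R Q ≤ q) :
    q.IsMaximal := by
  let φ : R →ₐ[k] Module.End k Q := Algebra.lsmul k k Q
  let A : Type _ := R ⧸ Module.annihilator R Q
  let ψ : A →ₗ[k] Module.End k Q := by
    refine Submodule.liftQ ((Module.annihilator R Q).restrictScalars k) φ.toLinearMap ?_
    intro x hx
    rw [Submodule.restrictScalars_mem, Module.mem_annihilator] at hx
    rw [LinearMap.mem_ker]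
    ext v
    exact hx v
  have hψ : Function.Injective ψ := by
    rw [← LinearMap.ker_eq_bot]
    apply Submodule.ker_liftQ_eq_bot
    intro x hx
    rw [LinearMap.mem_ker] at hx
    rw [Submodule.restrictScalars_mem, Module.mem_annihilator]
    intro m
    exact congrArg (fun T : Module.End k Q => T m) hx
  have hfin : Module.Finite k A := Module.Finite.of_injective ψ hψ
  have hart : IsArtinianRing A := by
    have : IsArtinian k A := inferInstance
    exact isArtinian_of_tower k this
  have hmap : (q.map (Ideal.Quotient.mk (Module.annihilator R Q))).IsPrime :=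
    Ideal.map_isPrime_of_surjective Ideal.Quotient.mk_surjective (by
      rw [Ideal.mk_ker]; exact hq)
  have hmax : (q.map (Ideal.Quotient.mk (Module.annihilator R Q))).IsMaximal :=
    IsArtinianRing.isMaximal_of_isPrime _
  have hcomap := Ideal.comap_isMaximal_of_surjective (Ideal.Quotient.mk (Module.annihilator R Q))
    Ideal.Quotient.mk_surjective (K := q.map (Ideal.Quotient.mk (Module.annihilator R Q)))
  rw [Ideal.comap_map_of_surjective _ Ideal.Quotient.mk_surjective] at hcomap
  have h1 : q ⊔ Ideal.comap (Ideal.Quotient.mk (Module.annihilator R Q)) ⊥ = q := by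
    apply sup_eq_left.2
    intro x hx
    rw [Ideal.mem_comap, Ideal.mem_bot, Ideal.Quotient.eq_zero_iff_mem] at hx
    exact hq hx
  rwa [h1] at hcomap

end one

/-- modules concentrated at a prime -/
def LocAt (Q : Type*) [AddCommGroup Q] [Module R Q] (p : Ideal R) : Prop :=
  ∀ f : R, f ∉ p → ∀ q : Q, f • q = 0 → q = 0

section loc

variable {Q : Type*} [AddCommGroup Q] [Module R Q] [Module k Q] [IsScalarTower k R Q]
  [Module.Finite k Q] {p : Ideal R}

variable (k) in
include k in
/-- the only prime containing the annihilator -/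
theorem LocAt.eq_of_ann_le (h : LocAt Q p) (hp : p.IsPrime) {q : Ideal R} [q.IsPrime]
    (hq : Module.annihilator R Q ≤ q) : q = p := by
  have hmax := isMaximal_of_ann_le k (Q := Q) hq
  apply hmax.eq_of_le hp.ne_top
  intro f hf
  by_contra hfp
  obtain ⟨a, ha⟩ := exists_act_inv (k := k) f (h f hfp)
  have h1 : 1 - a * f ∈ q := by
    apply hq
    rw [Module.mem_annihilator]
    intro m
    rw [sub_smul, one_smul, ha, sub_self]
  have h2 : (1 : R) ∈ q := by
    have := q.add_mem h1 (q.mul_mem_left a hf)
    simpa using this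
  exact (Ideal.ne_top_iff_one q).1 Ideal.IsPrime.ne_top' h2

variable (k) in
include k in
theorem LocAt.isMaximal (h : LocAt Q p) (hp : p.IsPrime) [Nontrivial Q] : p.IsMaximal := by
  have hne : Module.annihilator R Q ≠ ⊤ := by
    intro h1
    obtain ⟨q, hq⟩ := exists_ne (0 : Q)
    have h2 : (1 : R) ∈ Module.annihilator R Q := by rw [h1]; trivial
    rw [Module.mem_annihilator] at h2
    have := h2 q
    rw [one_smul] at this
    exact hq this
  obtain ⟨m, hm, hle⟩ := Ideal.exists_le_maximal _ hne
  have := hm.isPrime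
  rw [← h.eq_of_ann_le k hp hle]
  exact hm

variable (k) in
include k in
/-- elements of the prime are nilpotent on the module -/
theorem LocAt.pow_mem_ann (h : LocAt Q p) (hp : p.IsPrime) {f : R} (hf : f ∈ p) :
    ∃ n : ℕ, f ^ n ∈ Module.annihilator R Q := by
  have h1 : f ∈ (Module.annihilator R Q).radical := by
    rw [Ideal.radical_eq_sInf, Submodule.mem_sInf]
    rintro q ⟨hq1, hq2⟩
    rw [h.eq_of_ann_le k hp hq1]
    exact hf
  exact h1

end loc

variable (k) in
/-- modules concentrated at different maximal ideals have coprime annihilators -/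
theorem LocAt.coprime {Q₁ Q₂ : Type*} [AddCommGroup Q₁] [Module R Q₁] [Module k Q₁]
    [IsScalarTower k R Q₁] [Module.Finite k Q₁] [AddCommGroup Q₂] [Module R Q₂] [Module k Q₂]
    [IsScalarTower k R Q₂] [Module.Finite k Q₂] {p₁ p₂ : Ideal R} (h₁ : LocAt Q₁ p₁)
    (h₂ : LocAt Q₂ p₂) (hp₁ : p₁.IsPrime) (hp₂ : p₂.IsPrime) (hne : p₁ ≠ p₂) :
    Module.annihilator R Q₁ ⊔ Module.annihilator R Q₂ = ⊤ := by
  by_contra hcon
  obtain ⟨m, hm, hle⟩ := Ideal.exists_le_maximal _ hcon
  have := hm.isPrime
  apply hne
  rw [← h₁.eq_of_ann_le k hp₁ (le_sup_left.trans hle), ← h₂.eq_of_ann_le k hp₂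
    (le_sup_right.trans hle)]

section crt

variable {M : Type*} [AddCommGroup M] [Module R M] [Module k M] [IsScalarTower k R M]

/-- the Chinese remainder theorem -/
theorem finrank_inf' {A B : Submodule R M} (hAB : A ⊔ B = ⊤) [Module.Finite k (M ⧸ A)]
    [Module.Finite k (M ⧸ B)] : Module.Finite k (M ⧸ (A ⊓ B)) ∧
    Module.finrank k (M ⧸ (A ⊓ B)) = Module.finrank k (M ⧸ A) + Module.finrank k (M ⧸ B) := by
  let f : (M ⧸ (A ⊓ B)) →ₗ[k] (M ⧸ A) × (M ⧸ B) :=
    ((Submodule.factor (inf_le_left : A ⊓ B ≤ A)).restrictScalars k).prod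
      ((Submodule.factor (inf_le_right : A ⊓ B ≤ B)).restrictScalars k)
  have hf : ∀ v : M, f (Submodule.Quotient.mk v) =
      (Submodule.Quotient.mk v, Submodule.Quotient.mk v) := fun v => rfl
  have hbij : Function.Bijective f := by
    constructor
    · rw [injective_iff_map_eq_zero]
      intro x hx
      obtain ⟨v, rfl⟩ := Submodule.Quotient.mk_surjective _ x
      rw [hf, Prod.mk_eq_zero, Submodule.Quotient.mk_eq_zero, Submodule.Quotient.mk_eq_zero] at hx
      rw [Submodule.Quotient.mk_eq_zero]
      exact hx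
    · rintro ⟨x, y⟩
      obtain ⟨v, rfl⟩ := Submodule.Quotient.mk_surjective _ x
      obtain ⟨w, rfl⟩ := Submodule.Quotient.mk_surjective _ y
      have h1 : v - w ∈ A ⊔ B := by rw [hAB]; trivial
      obtain ⟨a, ha, b, hb, hab⟩ := Submodule.mem_sup.1 h1
      refine ⟨Submodule.Quotient.mk (v - a), ?_⟩
      rw [hf, Prod.mk.injEq]
      constructor
      · rw [Submodule.Quotient.eq]
        have : v - a - v = -a := by abel
        rw [this]; exact A.neg_mem ha
      · rw [Submodule.Quotient.eq]
        have : v - a - w = b := by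
          have : v - w = a + b := hab.symm
          rw [sub_right_comm, this]; abel
        rw [this]; exact hb
  let e := LinearEquiv.ofBijective f hbij
  constructor
  · exact Module.Finite.equiv e.symm
  · rw [e.finrank_eq, Module.finrank_prod]

theorem sup_eq_top_of_ann {A B : Submodule R M} {I J : Ideal R} (hI : ∀ f ∈ I, ∀ m : M, f • m ∈ A)
    (hJ : ∀ f ∈ J, ∀ m : M, f • m ∈ B) (hIJ : I ⊔ J = ⊤) : A ⊔ B = ⊤ := by
  rw [eq_top_iff]
  intro m _
  have h1 : (1 : R) ∈ I ⊔ J := by rw [hIJ]; trivial
  obtain ⟨a, ha, b, hb, hab⟩ := Submodule.mem_sup.1 h1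
  rw [Submodule.mem_sup]
  exact ⟨a • m, hI a ha m, b • m, hJ b hb m, by rw [← add_smul, hab, one_smul]⟩

/-- finite intersections of submodules with quotients concentrated at different primes -/
theorem crt_finset {J : Type*} (Z : Finset J) (A : J → Submodule R M) (p : J → Ideal R)
    (hp : ∀ j ∈ Z, (p j).IsPrime) (hinj : ∀ i ∈ Z, ∀ j ∈ Z, p i = p j → i = j)
    (hA : ∀ j ∈ Z, LocAt (M ⧸ A j) (p j)) (hfin : ∀ j ∈ Z, Module.Finite k (M ⧸ A j)) :
    Module.Finite k (M ⧸ (⨅ j ∈ Z, A j)) ∧
      Module.finrank k (M ⧸ (⨅ j ∈ Z, A j)) = ∑ j ∈ Z, Module.finrank k (M ⧸ A j) ∧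
      ∀ i, i ∉ Z → ∀ (q : Ideal R), q.IsPrime → (∀ j ∈ Z, p j ≠ q) →
        ∃ e : R, e ∉ q ∧ ∀ m : M, e • m ∈ ⨅ j ∈ Z, A j := by
  classical
  induction Z using Finset.induction_on with
  | empty =>
    have h1 : (⨅ j ∈ (∅ : Finset J), A j) = ⊤ := by simp
    rw [h1]
    have : Subsingleton (M ⧸ (⊤ : Submodule R M)) := Submodule.Quotient.subsingleton_iff.2 rfl
    refine ⟨Module.Finite.of_finite, by
      rw [Finset.sum_empty]; exact Module.finrank_zero_of_subsingleton, fun i _ q hq _ => ⟨1, ?_, fun m => trivial⟩⟩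
    exact (Ideal.ne_top_iff_one q).1 hq.ne_top
  | insert i Z hi ih =>
    have ih' := ih (fun j hj => hp j (Finset.mem_insert_of_mem hj))
      (fun a ha b hb => hinj a (Finset.mem_insert_of_mem ha) b (Finset.mem_insert_of_mem hb))
      (fun j hj => hA j (Finset.mem_insert_of_mem hj))
      (fun j hj => hfin j (Finset.mem_insert_of_mem hj))
    obtain ⟨h1, h2, h3⟩ := ih'
    have hii := Finset.mem_insert_self i Z
    have hfi := hfin i hii
    have hins : (⨅ j ∈ insert i Z, A j) = A i ⊓ ⨅ j ∈ Z, A j := by
      rw [Finset.iInf_insert]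
    have hprime := hp i hii
    obtain ⟨e, he, heZ⟩ := h3 i hi (p i) hprime (fun j hj hji => hi
      ((hinj j (Finset.mem_insert_of_mem hj) i hii hji) ▸ hj))
    obtain ⟨a, ha⟩ := exists_act_inv (k := k) (Q := M ⧸ A i) e (hA i hii e he)
    have hsup : A i ⊔ ⨅ j ∈ Z, A j = ⊤ := by
      rw [eq_top_iff]
      intro m _
      rw [Submodule.mem_sup]
      refine ⟨m - (a * e) • m, ?_, (a * e) • m, ?_, by abel⟩
      · rw [← Submodule.Quotient.mk_eq_zero, Submodule.Quotient.mk_sub,
          Submodule.Quotient.mk_smul, ha, sub_self]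
      · rw [mul_smul]
        exact Submodule.smul_mem _ _ (heZ m)
    obtain ⟨h4, h5⟩ := finrank_inf' (k := k) hsup
    rw [hins]
    refine ⟨h4, ?_, ?_⟩
    · rw [h5, h2, Finset.sum_insert hi]
    · intro l hl q hq hne
      rw [Finset.mem_insert, not_or] at hl
      obtain ⟨e', he', heZ'⟩ := h3 l hl.2 q hq (fun j hj => hne j (Finset.mem_insert_of_mem hj))
      -- an element killing the quotient at `i` outside `q`
      have hk : ∃ f : R, f ∉ q ∧ ∀ m : M, f • m ∈ A i := by
        by_contra hcon
        push Not at hcon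
        have hle : Module.annihilator R (M ⧸ A i) ≤ q := by
          intro f hf
          by_contra hfq
          obtain ⟨m, hm⟩ := hcon f hfq
          apply hm
          rw [Module.mem_annihilator] at hf
          rw [← Submodule.Quotient.mk_eq_zero, Submodule.Quotient.mk_smul]
          exact hf _
        exact hne i hii ((hA i hii).eq_of_ann_le k hprime hle).symm
      obtain ⟨f, hf, hfA⟩ := hk
      refine ⟨f * e', fun h => (hq.mem_or_mem h).elim hf he', fun m => ⟨?_, ?_⟩⟩
      · rw [mul_smul]; exact hfA _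
      · rw [mul_comm, mul_smul]; exact heZ' _

end crt

end Pool.Agent.Helper345_Quot
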