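import Pool.Agent.Helper345_Quot.Formula
import Pool.Agent.Helper345_Quot.Count2
import Mathlib.RingTheory.Polynomial.Vieta

/-!
Data: polynomials with parameters and an enumeration of their roots.
-/

noncomputable section

namespace Pool.Agent.Helper345_Quot

open PowerSeries
open scoped NNReal

variable {k : Type*} [Field k] {σ τ : Type*} [Fintype σ] {d : ℕ}

/-- An instance of the parameters together with an enumeration of the roots of the product. -/
structure Dat (P : σ → Polynomial (MvPolynomial τ ℤ)) (θ : τ → k⟦X⟧) (d : ℕ) where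
  /-- enumeration of the roots -/
  r : Fin d → LL k
  /-- the leading coefficients do not vanish -/
  lead : ∀ i, ev θ (P i).leadingCoeff ≠ 0
  /-- it enumerates the roots -/
  roots : Multiset.map r Finset.univ.val = (((∏ i, P i).map (ev θ)).map (emb k)).roots

/-- the product of the leading coefficients -/
def ldc (P : σ → Polynomial (MvPolynomial τ ℤ)) : MvPolynomial τ ℤ := ∏ i, (P i).leadingCoeff

namespace Dat

variable {P : σ → Polynomial (MvPolynomial τ ℤ)} {θ : τ → k⟦X⟧} (Δ : Dat P θ d)

include Δ in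
theorem ldc_ne : ev θ (ldc P) ≠ 0 := by
  unfold ldc
  rw [map_prod]
  exact Finset.prod_ne_zero_iff.2 fun i _ => Δ.lead i

include Δ in
theorem lead_prod : ev θ (∏ i, P i).leadingCoeff ≠ 0 := by
  rw [Polynomial.leadingCoeff_prod, map_prod]
  exact Finset.prod_ne_zero_iff.2 fun i _ => Δ.lead i

include Δ in
theorem map_ne (i : σ) : (P i).map (ev θ) ≠ 0 := by
  intro h
  apply Δ.lead i
  have : ((P i).map (ev θ)).coeff (P i).natDegree = 0 := by rw [h]; simp
  rwa [Polynomial.coeff_map] at this

include Δ in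
theorem map_prod_ne : ((∏ i, P i).map (ev θ)).map (emb k) ≠ 0 := by
  intro h
  apply Δ.lead_prod
  have : (((∏ i, P i).map (ev θ)).map (emb k)).coeff (∏ i, P i).natDegree = 0 := by rw [h]; simp
  rw [Polynomial.coeff_map, Polynomial.coeff_map] at this
  exact emb_injective k (by rw [map_zero]; exact this)

/-- the associated instance -/
def inst : Inst k σ d where
  f i := (P i).map (ev θ)
  f_ne := Δ.map_ne
  r := Δ.r
  mem := by
    intro i x hx
    have hne := Δ.map_prod_ne
    have h1 : x ∈ (((∏ i, P i).map (ev θ)).map (emb k)).roots := by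
      rw [Polynomial.mem_roots hne]
      rw [Polynomial.mem_roots'] at hx
      have h2 := hx.2
      rw [Polynomial.IsRoot.def] at h2 ⊢
      rw [Polynomial.map_prod, Polynomial.map_prod, Polynomial.eval_prod]
      exact Finset.prod_eq_zero (Finset.mem_univ i) h2
    rw [← Δ.roots, Multiset.mem_map] at h1
    obtain ⟨l, -, hl⟩ := h1
    exact ⟨l, hl⟩
  gal := by
    intro s
    have h0 : Multiset.map (fun l => s (Δ.r l)) Finset.univ.val =
        Multiset.map (s : LL k → LL k) (Multiset.map Δ.r Finset.univ.val) := by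
      rw [Multiset.map_map]; rfl
    rw [h0, Δ.roots]
    have h1 := (IsAlgClosed.splits (((∏ i, P i).map (ev θ)).map (emb k))).roots_map
      (s : LL k →+* LL k)
    have h2 : (((∏ i, P i).map (ev θ)).map (emb k)).map (s : LL k →+* LL k) =
        (((∏ i, P i).map (ev θ)).map (emb k)) := by
      rw [Polynomial.map_map]
      congr 1
      ext x
      exact s.commutes _
    rw [h2] at h1
    exact h1.symm

/-- the scaled roots -/
def c (l : Fin d) : LL k := emb k (ev θ (ldc P)) * Δ.r l

/-- the point at which the code polynomials are evaluated -/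
def x : Fin d ⊕ τ → LL k := Sum.elim Δ.c (fun t => emb k (θ t))

theorem c_eq (l : Fin d) : Δ.c l = emb k (ev θ (ldc P)) * Δ.r l := rfl

/-- Vieta -/
theorem vieta (hd : (∏ i, P i).natDegree = d) (i : Fin d) :
    esv Δ.c i = emb k (ev θ ((-1) ^ ((i : ℕ) + 1) * (∏ i, P i).coeff (d - 1 - i) *
      (ldc P) ^ (i : ℕ))) := by
  set F := ((∏ i, P i).map (ev θ)).map (emb k) with hF
  have hdeg : F.natDegree = d := by
    rw [hF, Polynomial.natDegree_map_eq_of_injective (emb_injective k),
      Polynomial.natDegree_map_of_leadingCoeff_ne_zero _ Δ.lead_prod, hd]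
  have hlead : F.leadingCoeff = emb k (ev θ (ldc P)) := by
    have h1 : F.leadingCoeff = F.coeff d := by rw [← hdeg]; rfl
    rw [h1, hF, Polynomial.coeff_map, Polynomial.coeff_map, ← hd]
    congr 2
    unfold ldc
    rw [← Polynomial.leadingCoeff_prod]
    rfl
  have hcard : F.roots.card = F.natDegree := (IsAlgClosed.splits F).natDegree_eq_card_roots.symm
  have hi : (i : ℕ) + 1 ≤ d := i.2
  have h2 := Polynomial.coeff_eq_esymm_roots_of_card hcard (k := d - 1 - i) (by omega)
  rw [hdeg] at h2
  have h3 : d - (d - 1 - (i : ℕ)) = i + 1 := by omega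
  rw [h3, ← Δ.roots, Finset.esymm_map_val, hlead] at h2
  have h4 : esv Δ.c i = ∑ t ∈ Finset.powersetCard ((i : ℕ) + 1) Finset.univ, ∏ l ∈ t, Δ.c l := by
    unfold esv MvPolynomial.esymm
    rw [map_sum]
    apply Finset.sum_congr rfl
    intro t _
    rw [map_prod]
    simp
  have h5 : esv Δ.c i = emb k (ev θ (ldc P)) ^ ((i : ℕ) + 1) *
      ∑ t ∈ Finset.powersetCard ((i : ℕ) + 1) Finset.univ, ∏ l ∈ t, Δ.r l := by
    rw [h4, Finset.mul_sum]
    apply Finset.sum_congr rfl
    intro t ht
    simp only [c_eq]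
    rw [Finset.prod_mul_distrib, Finset.prod_const, (Finset.mem_powersetCard.1 ht).2]
  have h6 : F.coeff (d - 1 - i) = emb k (ev θ ((∏ i, P i).coeff (d - 1 - i))) := by
    rw [hF, Polynomial.coeff_map, Polynomial.coeff_map]
  rw [h5]
  simp only [map_mul, map_pow, map_neg, map_one]
  rw [← h6, h2]
  have h7 : ((-1 : LL k) ^ ((i : ℕ) + 1)) * ((-1 : LL k) ^ ((i : ℕ) + 1)) = 1 := by
    rw [← mul_pow]; simp
  linear_combination (-1 : LL k) * (emb k (ev θ (ldc P))) ^ ((i : ℕ) + 1) *
    (∑ t ∈ Finset.powersetCard ((i : ℕ) + 1) Finset.univ, ∏ l ∈ t, Δ.r l) * h7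

/-- relabelling -/
def perm (g : Equiv.Perm (Fin d)) : Dat P θ d where
  r := Δ.r ∘ g
  lead := Δ.lead
  roots := by
    rw [← Δ.roots, ← Multiset.map_map]
    congr 1
    have := Finset.map_univ_equiv g
    have h2 := congrArg Finset.val this
    rwa [Finset.map_val] at h2

theorem perm_c (g : Equiv.Perm (Fin d)) : (Δ.perm g).c = Δ.c ∘ g := rfl

end Dat

/-- existence of an enumeration -/
theorem exists_dat (P : σ → Polynomial (MvPolynomial τ ℤ)) (θ : τ → k⟦X⟧)
    (hlead : ∀ i, ev θ (P i).leadingCoeff ≠ 0) (hd : (∏ i, P i).natDegree = d) :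
    Nonempty (Dat P θ d) := by
  set F := ((∏ i, P i).map (ev θ)).map (emb k) with hF
  have hlp : ev θ (∏ i, P i).leadingCoeff ≠ 0 := by
    rw [Polynomial.leadingCoeff_prod, map_prod]
    exact Finset.prod_ne_zero_iff.2 fun i _ => hlead i
  have hdeg : F.natDegree = d := by
    rw [hF, Polynomial.natDegree_map_eq_of_injective (emb_injective k),
      Polynomial.natDegree_map_of_leadingCoeff_ne_zero _ hlp, hd]
  have hcard : F.roots.card = d := by
    rw [← hdeg]; exact (IsAlgClosed.splits F).natDegree_eq_card_roots.symm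
  obtain ⟨L, hL⟩ := Quotient.exists_rep F.roots
  have hL' : (L : Multiset (LL k)) = F.roots := hL
  have hlen : L.length = d := by
    rw [← hcard, ← hL', Multiset.coe_card]
  subst hlen
  refine ⟨⟨L.get, hlead, ?_⟩⟩
  rw [← hF, ← hL']
  have : (Finset.univ : Finset (Fin L.length)).val = (List.finRange L.length : Multiset _) := rfl
  rw [this, Multiset.map_coe]
  congr 1
  simp

end Pool.Agent.Helper345_Quot
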