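import Mathlib.ModelTheory.Algebra.Ring.Definability
import Mathlib.Tactic

/-!
Definable sets over a field and Euler characteristics.
-/

noncomputable section

namespace Pool.Agent.Helper345_Quot

open FirstOrder

/-- A set of tuples of elements of the field `k` is definable if it is definable in the language
of rings, with parameters from `k`. For algebraically closed `k` these are exactly the
constructible sets. -/
def DefinableIn (k : Type*) [Field k] {κ : Type*} (A : Set (κ → k)) : Prop :=
  letI := Ring.compatibleRingOfRing k
  (Set.univ : Set k).Definable Language.ring A

/-- An Euler characteristic on the definable sets over the field `k`: it is additive, takes the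
value one on points and on the affine line, does not depend on the names of the coordinates, and is
multiplicative for projections all of whose nonempty fibres have the same Euler characteristic. For
`k = ℂ` the topological Euler characteristic with compact supports has these properties. -/
structure EulerChar (k : Type*) [Field k] where
  /-- the value on a set of tuples -/
  χ : ∀ {κ : Type}, Set (κ → k) → ℤ
  point : ∀ {κ : Type} [Finite κ] (x : κ → k), χ {x} = 1
  line : χ (Set.univ : Set (Unit → k)) = 1
  union : ∀ {κ : Type} [Finite κ] (A B : Set (κ → k)), DefinableIn k A → DefinableIn k B →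
    Disjoint A B → χ (A ∪ B) = χ A + χ B
  reindex : ∀ {κ κ' : Type} [Finite κ] [Finite κ'] (e : κ ≃ κ') (A : Set (κ → k)),
    DefinableIn k A → χ {x : κ' → k | x ∘ e ∈ A} = χ A
  fibre : ∀ {κ κ' : Type} [Finite κ] [Finite κ'] (A : Set (κ ⊕ κ' → k)) (c : ℤ),
    DefinableIn k A →
    (∀ y : κ → k, (∃ z, Sum.elim y z ∈ A) → χ {z : κ' → k | Sum.elim y z ∈ A} = c) →
    χ A = c * χ {y : κ → k | ∃ z, Sum.elim y z ∈ A}

end Pool.Agent.Helper345_Quot
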