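import Mathlib.AlgebraicGeometry.Modules.Tilde
import Mathlib.Algebra.Category.ModuleCat.Stalk
import Mathlib.Algebra.Category.ModuleCat.Presheaf.Submodule
import Mathlib.Algebra.Category.ModuleCat.Ext.Finite
import Mathlib.RingTheory.Length
import Pool.Agent.Helper345_Quot.DefsE

/-!
Quotients of finite length of a sheaf of modules on a scheme over a field, described by their
kernels, and definable parametrisations of sets of such quotients.
-/

noncomputable section

namespace Pool.Agent.Helper345_Quot

universe u

open AlgebraicGeometry CategoryTheory TopologicalSpace Opposite Abelian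

/-! ### stalks, germs and restrictions -/

section

variable {X : Scheme.{u}} (G : X.Modules)

/-- the stalk of a sheaf of modules -/
abbrev Stk (x : X) : Type u := ↑(TopCat.Presheaf.stalk (C := Ab.{u}) G.presheaf x)

instance stkModule (x : X) : Module (X.presheaf.stalk x) (Stk G x) :=
  PresheafOfModules.instModuleCarrierStalkCommRingCatCarrierAbPresheafOpensCarrier
    (R := X.presheaf) G.val x

/-- germs of sections -/
def grm (x : X) (U : X.Opens) (hx : x ∈ U) : Γ(G, U) →+ Stk G x :=
  (TopCat.Presheaf.germ G.presheaf U x hx).hom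

/-- restriction of sections -/
def rs {U V : X.Opens} (h : U ≤ V) : Γ(G, V) →+ Γ(G, U) := (G.presheaf.map (homOfLE h).op).hom

/-- restriction of functions -/
def rsX {U V : X.Opens} (h : U ≤ V) : Γ(X, V) →+* Γ(X, U) := (X.presheaf.map (homOfLE h).op).hom

/-- families of submodules of the sections, stable under restriction -/
abbrev SubM : Type u := PresheafOfModules.Submodule (R := X.ringCatSheaf.obj) G.val

theorem grm_smul (x : X) (U : X.Opens) (hx : x ∈ U) (r : Γ(X, U)) (m : Γ(G, U)) :
    grm G x U hx (r • m) = X.presheaf.germ U x hx r • grm G x U hx m :=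
  PresheafOfModules.germ_smul (R := X.presheaf) G.val x U hx r m

variable {G}

theorem grm_rs {U V : X.Opens} (h : U ≤ V) {x : X} (hx : x ∈ U) (m : Γ(G, V)) :
    grm G x U hx (rs G h m) = grm G x V (h hx) m :=
  TopCat.Presheaf.germ_res_apply G.presheaf (homOfLE h) x hx m

/-- sections of the submodule over an open set -/
def SubM.sec (N : SubM G) (V : X.Opens) : Submodule Γ(X, V) Γ(G, V) := N.obj (op V)

theorem SubM.rs_mem (N : SubM G) {U V : X.Opens} (h : U ≤ V) {s : Γ(G, V)} (hs : s ∈ N.sec V) :
    rs G h s ∈ N.sec U := N.map_mem (homOfLE h).op hs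

/-- The family `N` is a subsheaf: a section of `G` which locally lies in `N` lies in `N`. -/
def SubM.IsLocal (N : SubM G) : Prop :=
  ∀ (V : X.Opens) (s : Γ(G, V)), (∀ x ∈ V, ∃ (W : X.Opens) (_ : x ∈ W) (h : W ≤ V),
    rs G h s ∈ N.sec W) → s ∈ N.sec V

/-- the stalk of `N` at `x`, that is the germs at `x` of the sections of `N`, as a submodule of the
stalk of `G` -/
def SubM.stk (N : SubM G) (x : X) : Submodule (X.presheaf.stalk x) (Stk G x) where
  carrier := {t | ∃ (U : X.Opens) (hx : x ∈ U) (s : Γ(G, U)), s ∈ N.sec U ∧ grm G x U hx s = t}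
  add_mem' := by
    rintro _ _ ⟨U, hU, s, hs, rfl⟩ ⟨V, hV, t, ht, rfl⟩
    refine ⟨U ⊓ V, ⟨hU, hV⟩, rs G inf_le_left s + rs G inf_le_right t,
      (N.sec _).add_mem (N.rs_mem _ hs) (N.rs_mem _ ht), ?_⟩
    rw [map_add, grm_rs, grm_rs]
  zero_mem' := by
    refine ⟨⊤, trivial, 0, (N.sec _).zero_mem, map_zero _⟩
  smul_mem' := by
    rintro c _ ⟨U, hU, s, hs, rfl⟩
    obtain ⟨V, hV, r, rfl⟩ := TopCat.Presheaf.exists_germ_eq (C := CommRingCat.{u}) X.presheaf c
    refine ⟨U ⊓ V, ⟨hU, hV⟩, rsX inf_le_right r • rs G inf_le_left s,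
      (N.sec _).smul_mem _ (N.rs_mem _ hs), ?_⟩
    rw [grm_smul, grm_rs]
    congr 1
    exact TopCat.Presheaf.germ_res_apply X.presheaf (homOfLE inf_le_right) x ⟨hU, hV⟩ r

end

/-! ### the base field -/

section

variable (k : Type u) [Field k] (X : Scheme.{u}) [X.Over (Spec (.of k))]

/-- constants as global functions -/
def kTop : k →+* Γ(X, ⊤) :=
  (X ↘ Spec (.of k)).appTop.hom.comp (Scheme.ΓSpecIso (.of k)).inv.hom

variable {X}

/-- constants as functions on an open set -/
def kSec (U : X.Opens) : k →+* Γ(X, U) := (rsX (le_top : U ≤ ⊤)).comp (kTop k X)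

end

/-! ### quotients of finite length, parametrisations, and the first Ext sheaf -/

/-- The subfamily `N` of the sheaf of modules `G` is the kernel of a quotient of length `n` of `G`
with zero dimensional support: it is a subsheaf, its stalks agree with those of `G` outside a finite
set of points, and the sum of the lengths of the quotients of the stalks is `n`. -/
def IsColength {X : Scheme.{u}} {G : X.Modules} (n : ℕ) (N : SubM G) : Prop :=
  N.IsLocal ∧ ∃ Z : Finset X, (∀ x, x ∉ Z → N.stk x = ⊤) ∧
    ∑ x ∈ Z, Module.length (X.presheaf.stalk x) (Stk G x ⧸ N.stk x) = n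

/-- A definable parametrisation of a set `Q` of subsheaves of the sheaf of modules `G` on the
scheme `X` over `k` by tuples of elements of `k`: a definable set `S` of tuples, a bijection `φ` of
`S` with `Q`, such that for every affine open set `U` and every finite list of sections of `G` over
`U` the condition on `(x, z)` that the combination of the sections of the list with coefficients `z`
is a section of the subsheaf `φ x` is definable. -/
structure SParam (k : Type u) [Field k] {X : Scheme.{u}} [X.Over (Spec (.of k))] (G : X.Modules)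
    (Q : Set (SubM G)) where
  /-- names of the coordinates -/
  κ : Type
  fin : Finite κ
  /-- the parameter set -/
  S : Set (κ → k)
  /-- the subsheaf attached to a parameter -/
  φ : (κ → k) → SubM G
  bij : Set.BijOn φ S Q
  dfn : ∀ U : X.Opens, IsAffineOpen U → ∀ (m : ℕ) (g : Fin m → Γ(G, U)),
    DefinableIn k {z : κ ⊕ Fin m → k | z ∘ Sum.inl ∈ S ∧
      ∑ j, kSec k U (z (Sum.inr j)) • g j ∈ (φ (z ∘ Sum.inl)).sec U}

/-- `G` is the first Ext sheaf of `F` with values in the structure sheaf: over every affine open
set its sections are the first Ext module of the sections. -/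
def IsExtOne {X : Scheme.{u}} (F G : X.Modules) : Prop :=
  ∀ U : X.Opens, IsAffineOpen U → Nonempty (Γ(G, U) ≃ₗ[Γ(X, U)]
    Ext (ModuleCat.of Γ(X, U) Γ(F, U)) (ModuleCat.of Γ(X, U) Γ(X, U)) 1)

end Pool.Agent.Helper345_Quot
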