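import Pool.Agent.Helper345_Quot.DefsE

/-!
Definable (equivalently, constructible) sets over an algebraically closed field.
-/

noncomputable section

namespace Pool.Agent.Helper345_Quot

open FirstOrder

variable {k : Type*} [Field k] {κ κ' : Type*}

/-- definable predicates -/
def Dfn (p : (κ → k) → Prop) : Prop := DefinableIn k {x | p x}

theorem Dfn.congr {p q : (κ → k) → Prop} (hp : Dfn p) (h : ∀ x, p x ↔ q x) : Dfn q := by
  have : p = q := funext fun x => propext (h x)
  exact this ▸ hp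

theorem Dfn.and {p q : (κ → k) → Prop} (hp : Dfn p) (hq : Dfn q) : Dfn (fun x => p x ∧ q x) := by
  let _ := Ring.compatibleRingOfRing k
  exact Set.Definable.inter hp hq

theorem Dfn.not {p : (κ → k) → Prop} (hp : Dfn p) : Dfn (fun x => ¬ p x) := by
  let _ := Ring.compatibleRingOfRing k
  exact Set.Definable.compl hp

theorem Dfn.or {p q : (κ → k) → Prop} (hp : Dfn p) (hq : Dfn q) : Dfn (fun x => p x ∨ q x) := by
  let _ := Ring.compatibleRingOfRing k
  exact Set.Definable.union hp hq

theorem Dfn.imp {p q : (κ → k) → Prop} (hp : Dfn p) (hq : Dfn q) : Dfn (fun x => p x → q x) :=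
  (hp.not.or hq).congr fun x => by tauto

theorem Dfn.iff {p q : (κ → k) → Prop} (hp : Dfn p) (hq : Dfn q) : Dfn (fun x => (p x ↔ q x)) :=
  ((hp.imp hq).and (hq.imp hp)).congr fun x => by tauto

theorem Dfn.const (P : Prop) : Dfn (fun _ : κ → k => P) := by
  let _ := Ring.compatibleRingOfRing k
  by_cases h : P
  · simp only [h]
    exact Set.definable_univ
  · simp only [h]
    exact Set.definable_empty

theorem Dfn.reindex {p : (κ → k) → Prop} (hp : Dfn p) (f : κ → κ') :
    Dfn (fun x : κ' → k => p (x ∘ f)) := by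
  let _ := Ring.compatibleRingOfRing k
  exact Set.Definable.preimage_comp f hp

theorem Dfn.exists_vec [Finite κ'] {p : (κ ⊕ κ' → k) → Prop} (hp : Dfn p) :
    Dfn (fun x : κ → k => ∃ y : κ' → k, p (Sum.elim x y)) := by
  let _ := Ring.compatibleRingOfRing k
  exact Set.Definable.exists_of_finite hp

theorem Dfn.forall_vec [Finite κ'] {p : (κ ⊕ κ' → k) → Prop} (hp : Dfn p) :
    Dfn (fun x : κ → k => ∀ y : κ' → k, p (Sum.elim x y)) := by
  let _ := Ring.compatibleRingOfRing k
  exact Set.Definable.forall_of_finite hp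

theorem Dfn.forall_fin {J : Type*} [Finite J] {p : J → (κ → k) → Prop} (hp : ∀ j, Dfn (p j)) :
    Dfn (fun x => ∀ j, p j x) := by
  let _ := Ring.compatibleRingOfRing k
  have h : {x | ∀ j, p j x} = ⋂ j, {x | p j x} := by ext; simp
  unfold Dfn DefinableIn
  rw [h]
  exact Set.definable_iInter_of_finite hp

theorem Dfn.exists_fin {J : Type*} [Finite J] {p : J → (κ → k) → Prop} (hp : ∀ j, Dfn (p j)) :
    Dfn (fun x => ∃ j, p j x) :=
  (Dfn.forall_fin (fun j => (hp j).not)).not.congr fun x => by push Not; rfl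

/-- polynomial functions -/
def PolyF (f : (κ → k) → k) : Prop := ∃ P : MvPolynomial κ k, ∀ x, f x = MvPolynomial.eval x P

theorem PolyF.coord (i : κ) : PolyF (fun x : κ → k => x i) := ⟨MvPolynomial.X i, fun x => by simp⟩

theorem PolyF.const (c : k) : PolyF (fun _ : κ → k => c) := ⟨MvPolynomial.C c, fun x => by simp⟩

theorem PolyF.add {f g : (κ → k) → k} (hf : PolyF f) (hg : PolyF g) :
    PolyF (fun x => f x + g x) := by
  obtain ⟨P, hP⟩ := hf
  obtain ⟨Q, hQ⟩ := hg
  exact ⟨P + Q, fun x => by simp [hP, hQ]⟩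

theorem PolyF.mul {f g : (κ → k) → k} (hf : PolyF f) (hg : PolyF g) :
    PolyF (fun x => f x * g x) := by
  obtain ⟨P, hP⟩ := hf
  obtain ⟨Q, hQ⟩ := hg
  exact ⟨P * Q, fun x => by simp [hP, hQ]⟩

theorem PolyF.sub {f g : (κ → k) → k} (hf : PolyF f) (hg : PolyF g) :
    PolyF (fun x => f x - g x) := by
  obtain ⟨P, hP⟩ := hf
  obtain ⟨Q, hQ⟩ := hg
  exact ⟨P - Q, fun x => by simp [hP, hQ]⟩

theorem PolyF.neg {f : (κ → k) → k} (hf : PolyF f) : PolyF (fun x => - f x) := by
  obtain ⟨P, hP⟩ := hf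
  exact ⟨-P, fun x => by simp [hP]⟩

theorem PolyF.pow {f : (κ → k) → k} (hf : PolyF f) (n : ℕ) : PolyF (fun x => f x ^ n) := by
  obtain ⟨P, hP⟩ := hf
  exact ⟨P ^ n, fun x => by simp [hP]⟩

theorem PolyF.sum {J : Type*} (s : Finset J) {f : J → (κ → k) → k} (hf : ∀ j ∈ s, PolyF (f j)) :
    PolyF (fun x => ∑ j ∈ s, f j x) := by
  classical
  induction s using Finset.induction_on with
  | empty => exact ⟨0, fun x => by simp⟩
  | insert j s hj ih =>
    obtain ⟨P, hP⟩ := (hf j (Finset.mem_insert_self _ _)).add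
      (ih fun i hi => hf i (Finset.mem_insert_of_mem hi))
    exact ⟨P, fun x => by beta_reduce; rw [Finset.sum_insert hj, ← hP]⟩

theorem PolyF.congr {f g : (κ → k) → k} (hf : PolyF f) (h : ∀ x, f x = g x) : PolyF g := by
  obtain ⟨P, hP⟩ := hf
  exact ⟨P, fun x => by rw [← h, hP]⟩

theorem PolyF.reindex {f : (κ → k) → k} (hf : PolyF f) (e : κ → κ') :
    PolyF (fun x : κ' → k => f (x ∘ e)) := by
  obtain ⟨P, hP⟩ := hf
  exact ⟨MvPolynomial.rename e P, fun x => by beta_reduce; rw [hP, MvPolynomial.eval_rename]⟩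

theorem Dfn.poly_zero (P : MvPolynomial κ k) : Dfn (fun x => MvPolynomial.eval x P = 0) := by
  let _ := Ring.compatibleRingOfRing k
  have h := Ring.mvPolynomial_zeroLocus_definable (K := k) {P}
  have h2 : (MvPolynomial.zeroLocus k (Ideal.span (({P} : Finset (MvPolynomial κ k)) :
      Set (MvPolynomial κ k)))) = {x : κ → k | MvPolynomial.eval x P = 0} := by
    ext x
    rw [Finset.coe_singleton, MvPolynomial.zeroLocus_span]
    simp [MvPolynomial.aeval_eq_eval]
  rw [h2] at h
  exact h.mono (Set.subset_univ _)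

theorem Dfn.eq {f g : (κ → k) → k} (hf : PolyF f) (hg : PolyF g) : Dfn (fun x => f x = g x) := by
  obtain ⟨P, hP⟩ := hf.sub hg
  refine (Dfn.poly_zero P).congr fun x => ?_
  rw [← hP, sub_eq_zero]

/-- substitution of polynomial functions -/
theorem Dfn.comp [Finite κ'] {p : (κ' → k) → Prop} (hp : Dfn p) {f : κ' → (κ → k) → k}
    (hf : ∀ j, PolyF (f j)) : Dfn (fun x => p (fun j => f j x)) := by
  have h1 : Dfn (fun x : κ ⊕ κ' → k =>
      (∀ j, x (Sum.inr j) = f j (x ∘ Sum.inl)) ∧ p (x ∘ Sum.inr)) := by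
    refine Dfn.and (Dfn.forall_fin fun j => ?_) (hp.reindex _)
    exact Dfn.eq (PolyF.coord _) ((hf j).reindex _)
  refine h1.exists_vec.congr fun x => ?_
  constructor
  · rintro ⟨y, hy, hp⟩
    have : y = fun j => f j x := funext fun j => hy j
    subst this
    exact hp
  · intro h
    exact ⟨fun j => f j x, fun j => rfl, h⟩

/-- one variable existential quantifier -/
theorem Dfn.exists_one {p : (κ → k) → k → Prop}
    (hp : Dfn (fun x : Option κ → k => p (fun i => x (some i)) (x none))) :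
    Dfn (fun x : κ → k => ∃ y, p x y) := by
  let e : Option κ → κ ⊕ Unit := fun o => o.elim (Sum.inr ()) Sum.inl
  have h1 := (hp.reindex e).exists_vec
  refine h1.congr fun x => ?_
  constructor
  · rintro ⟨y, hy⟩
    exact ⟨y (), hy⟩
  · rintro ⟨y, hy⟩
    exact ⟨fun _ => y, hy⟩

theorem Dfn.forall_one {p : (κ → k) → k → Prop}
    (hp : Dfn (fun x : Option κ → k => p (fun i => x (some i)) (x none))) :
    Dfn (fun x : κ → k => ∀ y, p x y) :=
  (Dfn.exists_one (p := fun x y => ¬ p x y) hp.not).not.congr fun x => by push Not; rfl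

end Pool.Agent.Helper345_Quot
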