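import Pool.Agent.Helper345_Quot.One

/-!
One variable integration: exact degree version.
-/

noncomputable section

namespace Pool.Agent.Helper345_Quot

open PowerSeries
open scoped NNReal

variable {k : Type*} [Field k] {σ τ : Type*} [Fintype σ] {d : ℕ}

/-- labelled formula for the integral -/
def labJ {ι : Type*} (P : σ → Polynomial (MvPolynomial τ ℤ)) (e : ℕ) (gz : (ι ⊕ σ → ℕ) → ℤ)
    (x : Fin d ⊕ τ → LL k) (a : Option ι → ℕ) : ℤ :=
  gz (Sum.elim (fun i => a (some i)) (fun i => gnuC P e ∅ i x 0)) +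
  ∑ E : Finset (Fin d),
    (gz (Sum.elim (fun i => a (some i))
      (fun i => gnuC P e E i x (hiE (OCt P e (d + 1) E x) (a none)))) -
     gz (Sum.elim (fun i => a (some i))
      (fun i => gnuC P e E i x (loE (OCt P e (d + 1) E x) (a none)))))

theorem loE_tame {ι : Type*} [Finite ι] {e : ℕ} {R : (Fin d ⊕ τ → LL k) → ℕ → Prop}
    (hR : TameR (cod e) R) {g : (Fin d ⊕ τ → LL k) → (ι → ℕ) → ℕ} (hg : TameF (cod e) g) :
    TameF (cod e) (fun x a => loE (R x) (g x a)) := by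
  unfold loE
  refine TameF.find (p := fun x a γ => g x a ≤ γ ∨ R x γ) ?_ (fun x a => ⟨g x a, Or.inl le_rfl⟩)
  have h1 : TameF (cod e) (fun (_ : Fin d ⊕ τ → LL k) (a : Option ι → ℕ) => a none) :=
    TameF.coord none
  exact (TameP.le hg.weaken h1).or (hR.app h1)

theorem hiE_tame {ι : Type*} [Finite ι] {e : ℕ} {R : (Fin d ⊕ τ → LL k) → ℕ → Prop}
    (hR : TameR (cod e) R) {g : (Fin d ⊕ τ → LL k) → (ι → ℕ) → ℕ} (hg : TameF (cod e) g) :
    TameF (cod e) (fun x a => hiE (R x) (g x a)) := by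
  unfold hiE
  refine TameF.find (p := fun x a γ => loE (R x) (g x a) ≤ γ ∧ (g x a ≤ γ ∨ ¬ R x γ)) ?_
    (fun x a => ⟨g x a, ?_, Or.inl le_rfl⟩)
  · have h1 : TameF (cod e) (fun (_ : Fin d ⊕ τ → LL k) (a : Option ι → ℕ) => a none) :=
      TameF.coord none
    exact (TameP.le (loE_tame hR hg).weaken h1).and ((TameP.le hg.weaken h1).or (hR.app h1).not)
  · exact Nat.sInf_le (s := {γ | g x a ≤ γ ∨ R x γ}) (Or.inl le_rfl)

theorem labJ_tame {ι : Type*} [Finite ι] (P : σ → Polynomial (MvPolynomial τ ℤ)) {e : ℕ}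
    (he : e ≠ 0) (gz : (ι ⊕ σ → ℕ) → ℤ)
    (hgz : TameZ (cod e) (fun (_ : Fin d ⊕ τ → LL k) (v : ι ⊕ σ → ℕ) => gz v)) :
    TameZ (cod e) (labJ (k := k) (d := d) P e gz) := by
  have key : ∀ (E : Finset (Fin d)) (g : (Fin d ⊕ τ → LL k) → (Option ι → ℕ) → ℕ),
      TameF (cod e) g → TameZ (cod e) (fun (x : Fin d ⊕ τ → LL k) (a : Option ι → ℕ) =>
        gz (Sum.elim (fun i => a (some i)) (fun i => gnuC P e E i x (g x a)))) := by
    intro E g hg
    let F : ι ⊕ σ → (Fin d ⊕ τ → LL k) → (Option ι → ℕ) → ℕ :=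
      Sum.elim (fun i _ a => a (some i)) (fun i x a => gnuC P e E i x (g x a))
    have hF : ∀ s, TameF (cod e) (F s) := by
      intro s
      rcases s with s | s
      · exact TameF.coord _
      · exact gnuC_tame P he E s hg
    refine (TameZ.comp hgz hF).congr fun x a => ?_
    congr 1
    funext s
    rcases s with s | s <;> rfl
  unfold labJ
  have h0 : TameF (cod e) (fun (_ : Fin d ⊕ τ → LL k) (a : Option ι → ℕ) => 0) := TameF.const 0
  have hN : TameF (cod e) (fun (_ : Fin d ⊕ τ → LL k) (a : Option ι → ℕ) => a none) :=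
    TameF.coord none
  refine TameZ.add (key ∅ _ h0) (TameZ.sum _ fun E _ => ?_)
  exact TameZ.sub (key E _ (hiE_tame (OCt_tame P e (d + 1) E) hN))
    (key E _ (loE_tame (OCt_tame P e (d + 1) E) hN))

namespace Dat

variable {P : σ → Polynomial (MvPolynomial τ ℤ)} {θ : τ → k⟦X⟧} {Δ : Dat P θ d} {e : ℕ}

theorem Cod.bint_eq [IsAlgClosed k] [CharZero k] (h : Δ.Cod e) (he : e ≠ 0) {ι : Type*}
    (gz : (ι ⊕ σ → ℕ) → ℤ) (a : Option ι → ℕ)
    (hper : Per (a none) (Δ.inst.Φ (fun v => gz (Sum.elim (fun i => a (some i)) v)))) :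
    bint 0 0 (a none) (Δ.inst.Φ (fun v => gz (Sum.elim (fun i => a (some i)) v))) =
      labJ P e gz Δ.x a := by
  classical
  set G : (σ → ℕ) → ℤ := fun v => gz (Sum.elim (fun i => a (some i)) v) with hG
  set N := a none with hN
  rw [Δ.inst.bint_formula G N 0 0 (by rw [zero_add]; exact hper)]
  unfold labJ
  have havg0 : emb k 0 = Δ.inst.avg ∅ := by
    unfold Inst.avg; simp
  congr 1
  · rw [havg0]
    unfold Inst.gΦ
    rw [hG]
    simp only [h.gnu_eq he]
  · have hcl : ∀ j (E : Finset (Fin d)), E ∈ Δ.inst.cl (emb k 0) 0 (0 + j) ↔ Δ.inst.OC E j := by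
      intro j E
      rw [Inst.mem_cl, zero_add]
      constructor
      · exact fun h => h.1
      · intro hoc
        refine ⟨hoc, fun l hl => ?_⟩
        have h1 := ((hoc.mem_ctr l).1 hl).le
        have h2 : hf ^ j ≤ hf ^ 0 := hf_pow_le.2 (Nat.zero_le j)
        refine nn_sub_trans (h1.trans h2) ?_
        rw [← map_sub, pow_zero]
        exact nn_emb_le_one _
    have h1 : ∑ j ∈ Finset.range N, ∑ E ∈ Δ.inst.cl (emb k 0) 0 (0 + j), Δ.inst.dΦ G E (0 + j) =
        ∑ E : Finset (Fin d), ∑ j ∈ (Finset.range N).filter (Δ.inst.OC E), Δ.inst.dΦ G E j := by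
      have h2 : ∀ j, ∑ E ∈ Δ.inst.cl (emb k 0) 0 (0 + j), Δ.inst.dΦ G E (0 + j) =
          ∑ E : Finset (Fin d), if Δ.inst.OC E j then Δ.inst.dΦ G E j else 0 := by
        intro j
        rw [← Finset.sum_filter]
        apply Finset.sum_congr
        · ext E
          rw [hcl, Finset.mem_filter]
          simp
        · intro E _
          rw [zero_add]
      rw [Finset.sum_congr rfl fun j _ => h2 j, Finset.sum_comm]
      apply Finset.sum_congr rfl
      intro E _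
      rw [Finset.sum_filter]
    rw [h1]
    apply Finset.sum_congr rfl
    intro E _
    have hconv : ∀ a b c, a ≤ b → b ≤ c → Δ.inst.OC E a → Δ.inst.OC E c → Δ.inst.OC E b := by
      intro a b c hab hbc ha hc
      refine ⟨ha.1, Δ.inst.ctr E, fun l => ?_⟩
      constructor
      · intro hl
        exact ((hc.mem_ctr l).1 hl).trans_le (hf_pow_le.2 hbc)
      · intro hl
        exact (ha.mem_ctr l).2 (hl.trans_le (hf_pow_le.2 hab))
    have h3 := telescope (Δ.inst.OC E) hconv N (fun γ => Δ.inst.gΦ G (emb k (Δ.inst.ctr E)) γ)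
    have h4 : ∑ j ∈ (Finset.range N).filter (Δ.inst.OC E), Δ.inst.dΦ G E j =
        ∑ γ ∈ (Finset.range N).filter (Δ.inst.OC E), (Δ.inst.gΦ G (emb k (Δ.inst.ctr E)) (γ + 1) -
          Δ.inst.gΦ G (emb k (Δ.inst.ctr E)) γ) := rfl
    rw [h4, h3]
    have hR : Δ.inst.OC E = OCt P e (d + 1) E Δ.x := by
      funext γ
      exact propext (h.OC_iff he (d + 1) E γ (by omega))
    rw [← hR, ← hN]
    have hlo : loE (Δ.inst.OC E) N ≤ N :=
      Nat.sInf_le (s := {γ | N ≤ γ ∨ Δ.inst.OC E γ}) (Or.inl le_rfl)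
    have hA : N ≤ loE (Δ.inst.OC E) N ∨ Δ.inst.OC E (loE (Δ.inst.OC E) N) :=
      Nat.sInf_mem (s := {γ | N ≤ γ ∨ Δ.inst.OC E γ}) ⟨N, Or.inl le_rfl⟩
    have hB : hiE (Δ.inst.OC E) N ≤ N :=
      Nat.sInf_le (s := {γ | loE (Δ.inst.OC E) N ≤ γ ∧ (N ≤ γ ∨ ¬ Δ.inst.OC E γ)})
        ⟨hlo, Or.inl le_rfl⟩
    have hB' : loE (Δ.inst.OC E) N ≤ hiE (Δ.inst.OC E) N :=
      (Nat.sInf_mem (s := {γ | loE (Δ.inst.OC E) N ≤ γ ∧ (N ≤ γ ∨ ¬ Δ.inst.OC E γ)})
        ⟨N, hlo, Or.inl le_rfl⟩).1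
    rcases hA with hA | hA
    · have h5 : hiE (Δ.inst.OC E) N = loE (Δ.inst.OC E) N := by omega
      rw [h5]
      simp
    · rw [hA.emb_ctr]
      unfold Inst.gΦ
      rw [hG]
      simp only [h.gnu_eq he]

end Dat

theorem exact_int [IsAlgClosed k] [CharZero k] {ι : Type*} [Finite ι]
    (P : σ → Polynomial (MvPolynomial τ ℤ)) (gz : (ι ⊕ σ → ℕ) → ℤ)
    (hgz : ∀ (d e : ℕ), TameZ (cod e) (fun (_ : Fin d ⊕ τ → LL k) (v : ι ⊕ σ → ℕ) => gz v)) :
    ∃ J : (τ → k⟦X⟧) → (Option ι → ℕ) → ℤ, TameZ (nu k) J ∧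
      ∀ θ, (∀ i, ev θ (P i).leadingCoeff ≠ 0) → ∀ a : Option ι → ℕ,
        Per (a none) (fun t : k⟦X⟧ => gz (Sum.elim (fun i => a (some i))
          (fun i => nu k (((P i).map (ev θ)).eval t)))) →
        bint 0 0 (a none) (fun t : k⟦X⟧ => gz (Sum.elim (fun i => a (some i))
          (fun i => nu k (((P i).map (ev θ)).eval t)))) = J θ a := by
  classical
  obtain ⟨d, hd⟩ : ∃ d, (∏ i, P i).natDegree = d := ⟨_, rfl⟩
  set e := (d.factorial).factorial with he'
  have he : e ≠ 0 := Nat.factorial_ne_zero _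
  have htame := labJ_tame (k := k) (d := d) P he gz (hgz d e)
  obtain ⟨⟨S, hS⟩, hlev⟩ := htame
  have htr : ∀ n : ℤ, ∃ p' : (Fin d ⊕ τ → k⟦X⟧) → (Option ι → ℕ) → Prop, TameP (nu k) p' ∧
      ∀ (c : Fin d → LL k) (κ : Fin d → k⟦X⟧) (θ : τ → k⟦X⟧), (∀ i, esv c i = emb k (κ i)) →
        ∀ a, p' (Sum.elim κ θ) a ↔
          ∃ g : Equiv.Perm (Fin d), labJ P e gz (Sum.elim (c ∘ g) (fun t => emb k (θ t))) a = n := by
    intro n
    exact transfer _ (hlev n)
  choose p' hp' htr using htr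
  let Q : Fin d ⊕ τ → MvPolynomial τ ℤ := Sum.elim
    (fun i => (-1) ^ ((i : ℕ) + 1) * (∏ i, P i).coeff (d - 1 - i) * (ldc P) ^ (i : ℕ))
    MvPolynomial.X
  let p'' : ℤ → (τ → k⟦X⟧) → (Option ι → ℕ) → Prop := fun n θ a =>
    p' n (fun j => ev θ (Q j)) a
  have hp'' : ∀ n, TameP (nu k) (p'' n) := fun n => (hp' n).subst Q
  refine ⟨fun θ a => ∑ n ∈ S, if p'' n θ a then n else 0, ?_, ?_⟩
  · refine TameZ.sum _ fun n _ => ?_
    exact TameZ.ite (hp'' n) (TameZ.const n) (TameZ.const 0)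
  · intro θ hlead a hper
    obtain ⟨Δ⟩ := exists_dat (k := k) P θ hlead hd
    have hx : ∀ g : Equiv.Perm (Fin d),
        bint 0 0 (a none) (fun t : k⟦X⟧ => gz (Sum.elim (fun i => a (some i))
          (fun i => nu k (((P i).map (ev θ)).eval t)))) =
        labJ P e gz (Sum.elim (Δ.c ∘ g) (fun t => emb k (θ t))) a := by
      intro g
      have hcod : (Δ.perm g).Cod e := (Δ.perm g).cod_ok hd
      have := hcod.bint_eq he gz a hper
      exact this
    have hiff : ∀ n, p'' n θ a ↔ bint 0 0 (a none) (fun t : k⟦X⟧ =>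
        gz (Sum.elim (fun i => a (some i)) (fun i => nu k (((P i).map (ev θ)).eval t)))) = n := by
      intro n
      have h1 := htr n Δ.c (fun i => ev θ (Q (Sum.inl i))) θ (fun i => Δ.vieta hd i) a
      have h2 : (fun j => ev θ (Q j)) = Sum.elim (fun i => ev θ (Q (Sum.inl i))) θ := by
        funext j
        rcases j with j | j
        · rfl
        · simp [Q]
      change p' n (fun j => ev θ (Q j)) a ↔ _
      rw [h2, h1]
      constructor
      · rintro ⟨g, hg⟩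
        rw [hx g, hg]
      · intro h
        exact ⟨1, by rw [← hx 1, h]⟩
    simp only [hiff]
    rw [Finset.sum_ite_eq, if_pos]
    rw [hx 1]
    exact hS _ _

end Pool.Agent.Helper345_Quot
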