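import Mathlib.Algebra.Category.ModuleCat.Ext.Finite
import Mathlib.Algebra.Homology.DerivedCategory.Ext.EnoughProjectives
import Mathlib.RingTheory.DedekindDomain.PID
import Mathlib.RingTheory.IntegralClosure.IntegrallyClosed
import Mathlib.RingTheory.KrullDimension.Module
import Mathlib.LinearAlgebra.FreeModule.PID
import Mathlib.Algebra.Module.FinitePresentation
import Mathlib.RingTheory.TensorProduct.IsBaseChangePi
import Mathlib.Tactic

/-!
The support of the first Ext module of a torsion free module over a normal domain.
-/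

noncomputable section

namespace Pool.Agent.Helper345_Quot

universe u

open CategoryTheory Abelian

section height

variable {R : Type u} [CommRing R] [IsDomain R] [IsNoetherianRing R] [IsIntegrallyClosed R]
  (p : Ideal R) [p.IsPrime] (hp : ∀ q : Ideal R, q.IsPrime → q ≤ p → q = ⊥ ∨ q = p)

include hp in
theorem pid_of_height : IsPrincipalIdealRing (Localization.AtPrime p) := by
  let S := Localization.AtPrime p
  have hM : p.primeCompl ≤ nonZeroDivisors R := p.primeCompl_le_nonZeroDivisors
  have h1 : IsDomain S := IsLocalization.isDomain_localization hM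
  have h2 : IsNoetherianRing S := IsLocalization.isNoetherianRing p.primeCompl S inferInstance
  have h3 : IsIntegrallyClosed S := isIntegrallyClosed_of_isLocalization S p.primeCompl hM
  have h4 : Ring.DimensionLEOne S := by
    refine ⟨fun {P} hP0 hP => ?_⟩
    have hq : (P.comap (algebraMap R S)).IsPrime := Ideal.comap_isPrime _ _
    have hmap : (P.comap (algebraMap R S)).map (algebraMap R S) = P :=
      IsLocalization.map_under p.primeCompl S P
    have hle : P.comap (algebraMap R S) ≤ p := by
      have h5 : P ≤ IsLocalRing.maximalIdeal S := IsLocalRing.le_maximalIdeal hP.ne_top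
      have h6 := Ideal.comap_mono (f := algebraMap R S) h5
      have h7 : Ideal.comap (algebraMap R S) (IsLocalRing.maximalIdeal S) = p :=
        Localization.AtPrime.under_maximalIdeal
      rwa [h7] at h6
    rcases hp _ hq hle with h | h
    · exfalso
      apply hP0
      rw [← hmap, h, Ideal.map_bot]
    · have h7 : P = IsLocalRing.maximalIdeal S := by
        rw [← hmap, h, Localization.AtPrime.map_eq_maximalIdeal]
      rw [h7]
      exact IsLocalRing.maximalIdeal.isMaximal S
  have h5 : IsDedekindRing S := { h2, h4, h3 with }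
  have h6 : IsDedekindDomain S := inferInstance
  apply IsPrincipalIdealRing.of_finite_maximals
  apply (Set.finite_singleton (IsLocalRing.maximalIdeal S)).subset
  intro I hI
  exact IsLocalRing.eq_maximalIdeal hI

variable (M : Type u) [AddCommGroup M] [Module R M] [Module.Finite R M] [Module.IsTorsionFree R M]

include hp in
/-- torsion free modules are free near primes of height at most one, up to a multiple -/
theorem exists_factor_ht : ∃ s : R, s ∉ p ∧ ∃ (n : ℕ) (σ : M →ₗ[R] (Fin n → R))
    (ρ : (Fin n → R) →ₗ[R] M), ∀ x, ρ (σ x) = s • x := by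
  have hpid := pid_of_height p hp
  have hM : p.primeCompl ≤ nonZeroDivisors R := p.primeCompl_le_nonZeroDivisors
  have hdom : IsDomain (Localization.AtPrime p) := IsLocalization.isDomain_localization hM
  let S := Localization p.primeCompl
  let N := LocalizedModule p.primeCompl M
  have hpid' : IsPrincipalIdealRing S := hpid
  have hdom' : IsDomain S := hdom
  have hfin : Module.Finite S N := inferInstance
  have htf : Module.IsTorsionFree S N := inferInstance
  have hfree : Module.Free S N := inferInstance
  let n := Module.finrank S N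
  let b : Module.Basis (Fin n) S N := Module.finBasis S N
  have hfp : Module.FinitePresentation R M := Module.finitePresentation_of_finite R M
  let σ' : M →ₗ[R] (Fin n → S) :=
    (b.equivFun.toLinearMap.restrictScalars R).comp (LocalizedModule.mkLinearMap p.primeCompl M)
  let ι : (Fin n → R) →ₗ[R] (Fin n → S) :=
    LinearMap.pi (fun i => (Algebra.linearMap R S) ∘ₗ (LinearMap.proj i))
  have hι : IsLocalizedModule p.primeCompl ι := inferInstance
  let ρ' : (Fin n → R) →ₗ[R] N := (b.equivFun.symm.toLinearMap.restrictScalars R).comp ι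
  obtain ⟨σ, s, hσ⟩ := Module.FinitePresentation.exists_lift_of_isLocalizedModule p.primeCompl ι σ'
  obtain ⟨ρ, t, hρ⟩ := Module.FinitePresentation.exists_lift_of_isLocalizedModule p.primeCompl
    (LocalizedModule.mkLinearMap p.primeCompl M) ρ'
  refine ⟨(t : R) * s, ?_, n, σ, ρ, ?_⟩
  · intro h
    rcases (inferInstance : p.IsPrime).mem_or_mem h with h | h
    · exact t.2 h
    · exact s.2 h
  · intro x
    have hinj : Function.Injective (LocalizedModule.mkLinearMap p.primeCompl M) := by
      rw [← LinearMap.ker_eq_bot, LinearMap.ker_eq_bot']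
      intro m hm
      have h1 : LocalizedModule.mk m (1 : p.primeCompl) = 0 := hm
      rw [← LocalizedModule.zero_mk 1, LocalizedModule.mk_eq] at h1
      obtain ⟨c, hc⟩ := h1
      rw [one_smul, one_smul, smul_zero] at hc
      have hc0 : (c : R) ≠ 0 := fun h => c.2 (h ▸ p.zero_mem)
      exact (smul_eq_zero.1 hc).resolve_left hc0
    apply hinj
    have h1 : LocalizedModule.mkLinearMap p.primeCompl M (ρ (σ x)) = t • ρ' (σ x) :=
      congrArg (fun f => f (σ x)) hρ
    have h2 : ι (σ x) = s • σ' x := congrArg (fun f => f x) hσ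
    rw [h1]
    have h3 : ρ' (σ x) = s • LocalizedModule.mkLinearMap p.primeCompl M x := by
      change b.equivFun.symm (ι (σ x)) = _
      rw [h2]
      have h4 : (s • σ' x) = algebraMap R S s • σ' x := by
        rw [algebraMap_smul]; rfl
      rw [h4, map_smul, algebraMap_smul]
      change (s : R) • b.equivFun.symm (b.equivFun (LocalizedModule.mkLinearMap p.primeCompl M x)) = _
      rw [LinearEquiv.symm_apply_apply]
      rfl
    rw [h3, map_smul, mul_smul]
    rfl

include hp in
/-- vanishing of Ext at primes of height at most one -/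
theorem exists_kill_ext (Y : ModuleCat.{u} R) :
    ∃ s : R, s ∉ p ∧ ∀ e : Ext (ModuleCat.of R M) Y 1, s • e = 0 := by
  obtain ⟨s, hs, n, σ, ρ, h⟩ := exists_factor_ht p hp M
  refine ⟨s, hs, fun e => ?_⟩
  let P : ModuleCat.{u} R := ModuleCat.of R (Fin n → R)
  have hP : Projective P := by
    rw [← IsProjective.iff_projective]
    infer_instance
  let f : ModuleCat.of R M ⟶ P := ModuleCat.ofHom σ
  let g : P ⟶ ModuleCat.of R M := ModuleCat.ofHom ρ
  have hfg : f ≫ g = s • 𝟙 (ModuleCat.of R M) := by
    ext x
    exact h x
  have h1 : (Ext.mk₀ g).comp e (zero_add 1) = 0 := Ext.eq_zero_of_projective _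
  have h2 : (Ext.mk₀ (f ≫ g)).comp e (zero_add 1) = 0 := by
    rw [← Ext.mk₀_comp_mk₀_assoc, h1, Ext.comp_zero]
  rw [hfg, Ext.mk₀_smul, Ext.smul_comp, Ext.mk₀_id_comp] at h2
  exact h2

end height

/-- the support of Ext has codimension at least two -/
theorem supportDim_ext_le (R : Type u) [CommRing R] [IsDomain R] [IsNoetherianRing R]
    [IsIntegrallyClosed R] (M : Type u) [AddCommGroup M] [Module R M] [Module.Finite R M]
    [Module.IsTorsionFree R M] (Y : ModuleCat.{u} R) (hdim : ringKrullDim R ≤ 3) :
    Module.supportDim R (Ext (ModuleCat.of R M) Y 1) ≤ 1 := by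
  unfold Module.supportDim Order.krullDim
  apply iSup_le
  intro l
  have hht : ∃ q : PrimeSpectrum R, ⊥ < q ∧ q < l.head.1 := by
    by_contra hcon
    have hp : ∀ q : Ideal R, q.IsPrime → q ≤ l.head.1.asIdeal → q = ⊥ ∨ q = l.head.1.asIdeal := by
      intro q hq hle
      by_contra h
      rw [not_or] at h
      apply hcon
      refine ⟨⟨q, hq⟩, ?_, ?_⟩
      · exact lt_of_le_of_ne bot_le (fun h' => h.1 (congrArg PrimeSpectrum.asIdeal h').symm)
      · exact lt_of_le_of_ne hle (fun h' => h.2 (congrArg PrimeSpectrum.asIdeal h'))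
    obtain ⟨s, hs, hk⟩ := exists_kill_ext l.head.1.asIdeal hp M Y
    have h1 := l.head.2
    rw [Module.mem_support_iff'] at h1
    obtain ⟨e, he⟩ := h1
    exact he s hs (hk e)
  obtain ⟨q, hq0, hq⟩ := hht
  let L : LTSeries (PrimeSpectrum R) := l.map (fun x => x.1) (fun _ _ h => h)
  have hL : L.head = l.head.1 := rfl
  let L₂ := (L.cons q (by rw [hL]; exact hq)).cons ⊥ (by rw [RelSeries.head_cons]; exact hq0)
  have h2 : (L₂.length : WithBot ℕ∞) ≤ ringKrullDim R :=
    le_iSup (fun L : LTSeries (PrimeSpectrum R) => (L.length : WithBot ℕ∞)) L₂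
  have h3 : L₂.length = l.length + 2 := by
    simp [L₂, L]
  have h4 := h2.trans hdim
  rw [h3] at h4
  have h5 : l.length + 2 ≤ 3 := by exact_mod_cast h4
  have h6 : l.length ≤ 1 := by omega
  exact_mod_cast h6

end Pool.Agent.Helper345_Quot
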