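import Pool.Agent.Helper345_Quot.Pattern

/-!
Iterated integration.
-/

noncomputable section

namespace Pool.Agent.Helper345_Quot

open PowerSeries
open scoped NNReal

variable {k : Type*} [Field k] {τ : Type*} [DecidableEq τ]

/-- iterated integral; the head of the list is the outermost variable -/
def iint (N : τ → ℕ) (F : (τ → k⟦X⟧) → ℤ) : List τ → (τ → k⟦X⟧) → ℤ
  | [], θ => F θ
  | v :: L, θ => tint (N v) (fun t => iint N F L (Function.update θ v t))

/-- periodicity at all stages -/
def Good (N : τ → ℕ) (F : (τ → k⟦X⟧) → ℤ) : List τ → (τ → k⟦X⟧) → Prop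
  | [], _ => True
  | v :: L, θ => (∀ t, Good N F L (Function.update θ v t)) ∧
      Per (N v) (fun t => iint N F L (Function.update θ v t))

theorem iint_congr (N : τ → ℕ) (L : List τ) : ∀ (F G : (τ → k⟦X⟧) → ℤ) (θ : τ → k⟦X⟧),
    (∀ θ', (∀ w, w ∉ L → θ' w = θ w) → F θ' = G θ') → iint N F L θ = iint N G L θ := by
  induction L with
  | nil => intro F G θ h; exact h θ (fun _ _ => rfl)
  | cons v L ih =>
    intro F G θ h
    simp only [iint]
    congr 1
    funext t
    apply ih
    intro θ' h'
    apply h
    intro w hw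
    rw [List.mem_cons, not_or] at hw
    rw [h' w hw.2, Function.update_of_ne hw.1]

/-- tame functions are closed under iterated integration -/
theorem iint_tame [IsAlgClosed k] [CharZero k] {ι : Type*} [Finite ι] (n : τ → ι) (L : List τ) :
    ∀ {F : (τ → k⟦X⟧) → (ι → ℕ) → ℤ}, TameZ (nu k) F →
    ∃ J : (τ → k⟦X⟧) → (ι → ℕ) → ℤ, TameZ (nu k) J ∧
      ∀ θ a, Good (fun v => a (n v)) (fun θ => F θ a) L θ →
        iint (fun v => a (n v)) (fun θ => F θ a) L θ = J θ a := by
  induction L with
  | nil => intro F hF; exact ⟨F, hF, fun _ _ _ => rfl⟩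
  | cons v L ih =>
    intro F hF
    obtain ⟨J₁, hJ₁, h₁⟩ := ih hF
    let Q : τ → MvPolynomial (Option τ) ℤ := fun w =>
      if w = v then MvPolynomial.X none else MvPolynomial.X (some w)
    have hQ : ∀ (θ : τ → k⟦X⟧) (t : k⟦X⟧), (fun w => ev (ext θ t) (Q w)) = Function.update θ v t := by
      intro θ t
      funext w
      by_cases hw : w = v
      · subst hw
        simp [Q, ext]
      · simp [Q, ext, hw]
    have hJ₂ : TameZ (nu k) (fun (θ : Option τ → k⟦X⟧) (a : ι → ℕ) => J₁ (fun w => ev θ (Q w)) a) :=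
      hJ₁.subst Q
    obtain ⟨J₃, hJ₃, h₃⟩ := one_int hJ₂
    let f : Option ι → (τ → k⟦X⟧) → (ι → ℕ) → ℕ := fun o _ a => o.elim (a (n v)) a
    have hf : ∀ o, TameF (nu k) (f o) := by
      intro o
      cases o with
      | none => exact TameF.coord (n v)
      | some i => exact TameF.coord i
    refine ⟨fun θ a => J₃ θ (fun o => f o θ a), TameZ.comp hJ₃ hf, ?_⟩
    intro θ a hg
    obtain ⟨hg1, hg2⟩ := hg
    simp only [iint]
    have h4 := h₃ θ (fun o => f o θ a)
    simp only [hQ] at h4
    have h5 : (fun i => f (some i) θ a) = a := rfl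
    have h6 : f none θ a = a (n v) := rfl
    rw [h5, h6] at h4
    have h7 : (fun t => iint (fun v => a (n v)) (fun θ => F θ a) L (Function.update θ v t)) =
        fun t => J₁ (Function.update θ v t) a := by
      funext t
      exact h₁ _ _ (hg1 t)
    rw [h7] at hg2 ⊢
    exact h4 hg2

/-- uniform bound for the number of exceptional points in each coordinate -/
theorem update_bound [IsAlgClosed k] [CharZero k] {ι : Type*} [Finite ι] (v : τ)
    {F : (τ → k⟦X⟧) → (ι → ℕ) → ℤ} (hF : TameZ (nu k) F) :
    ∃ B : ℕ, ∀ (θ : τ → k⟦X⟧) (a : ι → ℕ) (q : k⟦X⟧) (γ M : ℕ),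
      ∃ (c : ℤ) (R : Finset k), R.card ≤ B ∧ ∀ x, x ∉ R →
        bint (q + C x * X ^ γ) (γ + 1) M (fun t => F (Function.update θ v t) a) = c := by
  let Q : τ → MvPolynomial (Option τ) ℤ := fun w =>
    if w = v then MvPolynomial.X none else MvPolynomial.X (some w)
  have hQ : ∀ (θ : τ → k⟦X⟧) (t : k⟦X⟧), (fun w => ev (ext θ t) (Q w)) = Function.update θ v t := by
    intro θ t
    funext w
    by_cases hw : w = v
    · subst hw
      simp [Q, ext]
    · simp [Q, ext, hw]
  have hJ₂ : TameZ (nu k) (fun (θ : Option τ → k⟦X⟧) (a : ι → ℕ) => F (fun w => ev θ (Q w)) a) :=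
    hF.subst Q
  obtain ⟨B, hB⟩ := one_bound hJ₂
  refine ⟨B, fun θ a q γ M => ?_⟩
  obtain ⟨c, R, hR, h⟩ := hB θ a q γ M
  refine ⟨c, R, hR, fun x hx => ?_⟩
  have := h x hx
  simp only [hQ] at this
  exact this

/-- translation invariance -/
theorem tint_translate [Infinite k] (N : ℕ) : ∀ (Φ : k⟦X⟧ → ℤ) (s : k⟦X⟧), Per N Φ →
    tint N (fun t => Φ (t + s)) = tint N Φ := by
  induction N with
  | zero =>
    intro Φ s hper
    simp only [tint]
    exact hper _ _ (by simp)
  | succ N ih =>
    intro Φ s hper
    simp only [tint]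
    obtain ⟨s', hs'⟩ : ∃ s', s = C (constantCoeff s) + X * s' := by
      have : X ∣ s - C (constantCoeff s) := by
        rw [X_dvd_iff]; simp
      obtain ⟨s', hs'⟩ := this
      exact ⟨s', by rw [← hs']; ring⟩
    have h1 : ∀ ξ : k, tint N (fun t => Φ (C ξ + X * t + s)) =
        tint N (fun t => Φ (C (ξ + constantCoeff s) + X * t)) := by
      intro ξ
      have h2 := ih (fun t => Φ (C (ξ + constantCoeff s) + X * t)) s' ?_
      · rw [← h2]
        congr 1
        funext t
        congr 1
        conv_lhs => rw [hs']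
        rw [map_add]
        ring
      · intro t t' htt
        apply hper
        obtain ⟨u, hu⟩ := htt
        refine ⟨u, ?_⟩
        have : C (ξ + constantCoeff s) + X * t - (C (ξ + constantCoeff s) + X * t') =
          X * (t - t') := by ring
        rw [this, hu]
        ring
    simp only [h1]
    exact eint_comp_equiv (fun ξ => tint N (fun t => Φ (C ξ + X * t))) (Equiv.addRight (constantCoeff s))

/-- shift invariance hypothesis -/
def ShiftInv (N : τ → ℕ) (F : (τ → k⟦X⟧) → ℤ) : List τ → Prop
  | [] => True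
  | v :: L => ShiftInv N F L ∧ ∀ (θ : τ → k⟦X⟧) (c : k⟦X⟧), ∃ s : τ → k⟦X⟧, (∀ w, w ∉ L → s w = 0) ∧
      ∀ θ' : τ → k⟦X⟧, (∀ w, w ∉ L → w ≠ v → θ' w = θ w) →
        F (Function.update θ' v (θ' v + c * X ^ N v)) = F (θ' + s)

theorem ShiftInv.translate {N : τ → ℕ} {L : List τ} : ∀ {F : (τ → k⟦X⟧) → ℤ},
    ShiftInv N F L → ∀ (s : τ → k⟦X⟧), ShiftInv N (fun θ => F (θ + s)) L := by
  induction L with
  | nil => intros; trivial
  | cons v L ih =>
    intro F h s₀
    obtain ⟨h1, h2⟩ := h
    refine ⟨ih h1 s₀, fun θ c => ?_⟩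
    obtain ⟨s, hs, h3⟩ := h2 (θ + s₀) c
    refine ⟨s, hs, fun θ' hθ' => ?_⟩
    have h4 := h3 (θ' + s₀) (fun w hw hwv => by simp [hθ' w hw hwv])
    have h5 : Function.update (θ' + s₀) v ((θ' + s₀) v + c * X ^ N v) =
        Function.update θ' v (θ' v + c * X ^ N v) + s₀ := by
      funext w
      by_cases hw : w = v
      · subst hw
        simp
        ring
      · simp [hw]
    rw [h5] at h4
    change F (_ + s₀) = F (_ + s₀)
    rw [h4]
    congr 1
    ring

theorem iint_pre (N : τ → ℕ) (F : (τ → k⟦X⟧) → ℤ) (v : τ) (u : k⟦X⟧) (L : List τ) (hv : v ∉ L) :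
    ∀ θ, iint N (fun θ' => F (Function.update θ' v (θ' v + u))) L θ =
      iint N F L (Function.update θ v (θ v + u)) := by
  induction L with
  | nil => intro θ; rfl
  | cons w L ih =>
    intro θ
    rw [List.mem_cons, not_or] at hv
    simp only [iint]
    congr 1
    funext t
    rw [ih hv.2]
    congr 1
    have h1 : v ≠ w := hv.1
    rw [Function.update_of_ne h1, Function.update_comm h1]

theorem ShiftInv.main [Infinite k] {N : τ → ℕ} {L : List τ} : ∀ {F : (τ → k⟦X⟧) → ℤ},
    ShiftInv N F L → L.Nodup → (∀ θ, Good N F L θ) ∧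
      ∀ s : τ → k⟦X⟧, (∀ w, w ∉ L → s w = 0) → ∀ θ,
        iint N (fun θ => F (θ + s)) L θ = iint N F L θ := by
  induction L with
  | nil =>
    intro F h hn
    refine ⟨fun _ => trivial, fun s hs θ => ?_⟩
    have : s = 0 := by
      funext w; exact hs w (by simp)
    subst this
    simp [iint]
  | cons v L ih =>
    intro F h hn
    obtain ⟨h1, h2⟩ := h
    have hv : v ∉ L := (List.nodup_cons.1 hn).1
    have hn' := (List.nodup_cons.1 hn).2
    obtain ⟨hgood, htr⟩ := ih h1 hn'
    have hper : ∀ θ, Per (N v) (fun t => iint N F L (Function.update θ v t)) := by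
      intro θ t t' htt
      obtain ⟨c, hc⟩ := htt
      have ht : t = t' + c * X ^ N v := by
        have : t = t' + (t - t') := by ring
        rw [this, hc]; ring
      obtain ⟨s, hs, h3⟩ := h2 (Function.update θ v t') c
      have h4 : iint N (fun θ' => F (Function.update θ' v (θ' v + c * X ^ N v))) L
          (Function.update θ v t') = iint N (fun θ => F (θ + s)) L (Function.update θ v t') := by
        apply iint_congr
        intro θ' hθ'
        exact h3 θ' (fun w hw _ => hθ' w hw)
      rw [iint_pre N F v _ L hv, htr s hs] at h4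
      change iint N F L (Function.update θ v t) = iint N F L (Function.update θ v t')
      rw [← h4]
      congr 1
      rw [ht]
      simp
    refine ⟨fun θ => ⟨fun t => hgood _, hper θ⟩, ?_⟩
    intro s hs θ
    simp only [iint]
    let s₀ : τ → k⟦X⟧ := Function.update 0 v (s v)
    let s' : τ → k⟦X⟧ := Function.update s v 0
    have hss : s = s₀ + s' := by
      funext w
      by_cases hw : w = v
      · subst hw; simp [s₀, s']
      · simp [s₀, s', hw]
    have hs' : ∀ w, w ∉ L → s' w = 0 := by
      intro w hw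
      by_cases hwv : w = v
      · subst hwv; simp [s']
      · simp only [s', Function.update_of_ne hwv]
        exact hs w (by simp [hw, hwv])
    have h5 : ShiftInv N (fun θ => F (θ + s₀)) L := h1.translate s₀
    obtain ⟨-, htr'⟩ := ih h5 hn'
    have h6 : ∀ t, iint N (fun θ => F (θ + s)) L (Function.update θ v t) =
        iint N F L (Function.update θ v (t + s v)) := by
      intro t
      have h7 := htr' s' hs' (Function.update θ v t)
      have h8 : (fun θ => F (θ + s)) = fun θ => (fun θ => F (θ + s₀)) (θ + s') := by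
        funext θ
        change F (θ + s) = F (θ + s' + s₀)
        congr 1
        rw [hss]
        ring
      rw [h8, h7]
      have h9 : (fun θ => F (θ + s₀)) = fun θ => F (Function.update θ v (θ v + s v)) := by
        funext θ
        congr 1
        funext w
        by_cases hw : w = v
        · subst hw; simp [s₀]
        · simp [s₀, hw]
      rw [h9, iint_pre N F v _ L hv]
      congr 1
      simp
    simp only [h6]
    exact tint_translate (N v) (fun t => iint N F L (Function.update θ v t)) (s v) (hper θ)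

end Pool.Agent.Helper345_Quot
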