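import Pool.Agent.Helper345_Quot.Fub
import Pool.Agent.Helper345_Quot.Iter

/-!
Iterated Fubini: Euler characteristics as iterated integrals.
-/

noncomputable section

namespace Pool.Agent.Helper345_Quot

open PowerSeries

variable {k : Type*} [Field k]

/-- iterated Euler integration along a list of steps -/
def eiter {Θ : Type*} (F : Θ → ℤ) : List (Θ → k → Θ) → Θ → ℤ
  | [], θ => F θ
  | g :: M, θ => eint (fun ξ => eiter F M (g θ ξ))

/-- iterated option type -/
def OptN (κ : Type) : ℕ → Type
  | 0 => κ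
  | n + 1 => OptN (Option κ) n

theorem optN_finite (n : ℕ) : ∀ (κ : Type) [Finite κ], Finite (OptN κ n) := by
  induction n with
  | zero => intro κ h; exact h
  | succ n ih => intro κ h; exact ih (Option κ)

instance (n : ℕ) (κ : Type) [Finite κ] : Finite (OptN κ n) := optN_finite n κ

/-- families of points obtained by the steps -/
def fam {Θ : Type*} : (M : List (Θ → k → Θ)) → {κ : Type} → ((κ → k) → Θ) →
    ((OptN κ M.length → k) → Θ)
  | [], _, θ => θ
  | g :: M, κ, θ => fam M (κ := Option κ) (fun y => g (θ (fun i => y (some i))) (y none))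

/-- bounded number of exceptional points at all stages along a family -/
def Bdd {Θ : Type*} (F : Θ → ℤ) : (M : List (Θ → k → Θ)) → {κ : Type} → ((κ → k) → Θ) → Prop
  | [], _, _ => True
  | g :: M, κ, θ => (∃ B, ∀ y, EulerChar.Exc B (fun x => eiter F M (g (θ y) x))) ∧
      Bdd F M (κ := Option κ) (fun y => g (θ (fun i => y (some i))) (y none))

theorem eiter_fubini [Infinite k] (E : EulerChar k) {Θ : Type*} (F : Θ → ℤ)
    (M : List (Θ → k → Θ)) : ∀ {κ : Type} [Finite κ] (θ : (κ → k) → Θ),
    CF (fun x => F (fam M θ x)) → Bdd F M θ →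
    CF (fun y => eiter F M (θ y)) ∧
      E.int (fun x => F (fam M θ x)) = E.int (fun y => eiter F M (θ y)) := by
  induction M with
  | nil => intro κ _ θ h _; exact ⟨h, rfl⟩
  | cons g M ih =>
    intro κ _ θ hCF hB
    obtain ⟨⟨B, hB1⟩, hB2⟩ := hB
    obtain ⟨h1, h2⟩ := ih (κ := Option κ) (fun y => g (θ (fun i => y (some i))) (y none)) hCF hB2
    have h3 := E.fubini h1 (B := B) (fun y => hB1 y)
    refine ⟨h3.1, ?_⟩
    change E.int (fun x => F (fam M (κ := Option κ) (fun y => g (θ (fun i => y (some i))) (y none)) x)) = _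
    rw [h2]
    exact h3.2.symm

/-- coordinates of the family are polynomial functions -/
theorem fam_poly {Θ : Type*} (c : Θ → k) (M : List (Θ → k → Θ))
    (hM : ∀ g ∈ M, (∀ θ ξ, c (g θ ξ) = c θ) ∨ (∀ θ ξ, c (g θ ξ) = c θ + ξ)) :
    ∀ {κ : Type} (θ : (κ → k) → Θ), PolyF (fun y => c (θ y)) → PolyF (fun x => c (fam M θ x)) := by
  induction M with
  | nil => intro κ θ h; exact h
  | cons g M ih =>
    intro κ θ h
    apply ih (fun g' hg' => hM g' (List.mem_cons_of_mem _ hg'))
    have h1 : PolyF (fun y : Option κ → k => c (θ (fun i => y (some i)))) := h.reindex some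
    rcases hM g (List.mem_cons_self) with h2 | h2
    · exact h1.congr fun y => (h2 _ _).symm
    · exact (h1.add (PolyF.coord none)).congr fun y => (h2 _ _).symm

section steps

variable {τ : Type*} [DecidableEq τ]

/-- adding `ξ X^j` to the variable `v` -/
def stp (v : τ) (j : ℕ) (θ : τ → k⟦X⟧) (ξ : k) : τ → k⟦X⟧ :=
  Function.update θ v (θ v + C ξ * X ^ j)

/-- steps for one variable -/
def stps (v : τ) (γ M : ℕ) : List ((τ → k⟦X⟧) → k → (τ → k⟦X⟧)) :=
  (List.range' γ M).map (stp v)

theorem stps_succ (v : τ) (γ M : ℕ) : stps (k := k) v γ (M + 1) = stp v γ :: stps v (γ + 1) M := by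
  unfold stps
  rw [List.range'_succ]
  rfl

theorem eiter_stps (F : (τ → k⟦X⟧) → ℤ) (v : τ) (L : List ((τ → k⟦X⟧) → k → (τ → k⟦X⟧))) (M : ℕ) :
    ∀ (γ : ℕ) (θ : τ → k⟦X⟧), eiter F (stps v γ M ++ L) θ =
      bint (θ v) γ M (fun t => eiter F L (Function.update θ v t)) := by
  induction M with
  | zero =>
    intro γ θ
    rw [bint_zero]
    simp [stps]
  | succ M ih =>
    intro γ θ
    rw [stps_succ, bint_succ, List.cons_append]
    simp only [eiter]
    congr 1
    funext ξ
    rw [ih]
    simp [stp]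

/-- all steps -/
def allStps (N : τ → ℕ) : List τ → List ((τ → k⟦X⟧) → k → (τ → k⟦X⟧))
  | [] => []
  | v :: L => stps v 0 (N v) ++ allStps N L

theorem eiter_allStps (N : τ → ℕ) (F : (τ → k⟦X⟧) → ℤ) (L : List τ) : L.Nodup →
    ∀ θ : τ → k⟦X⟧, (∀ v ∈ L, θ v = 0) → eiter F (allStps N L) θ = iint N F L θ := by
  induction L with
  | nil => intro _ θ _; rfl
  | cons v L ih =>
    intro hn θ hθ
    obtain ⟨hv, hn'⟩ := List.nodup_cons.1 hn
    rw [allStps, eiter_stps, hθ v (List.mem_cons_self)]
    simp only [iint]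
    rw [tint_eq_bint]
    congr 1
    funext t
    apply ih hn'
    intro w hw
    have : w ≠ v := fun h => hv (h ▸ hw)
    rw [Function.update_of_ne this]
    exact hθ w (List.mem_cons_of_mem _ hw)

end steps

end Pool.Agent.Helper345_Quot
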