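import Pool.Agent.Helper345_Quot.Lat

/-!
Coordinates: every point is reached exactly once.
-/

noncomputable section

namespace Pool.Agent.Helper345_Quot

open PowerSeries

variable {k : Type*} [Field k] {τ : Type*} [DecidableEq τ]

/-- the step attached to a pair -/
def stpP (p : τ × ℕ) : (τ → k⟦X⟧) → k → (τ → k⟦X⟧) := stp p.1 p.2

/-- the list of coordinates -/
def prs (N : τ → ℕ) : List τ → List (τ × ℕ)
  | [] => []
  | v :: L => (List.range' 0 (N v)).map (fun j => (v, j)) ++ prs N L

theorem allStps_eq (N : τ → ℕ) (L : List τ) :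
    allStps (k := k) N L = (prs N L).map stpP := by
  induction L with
  | nil => rfl
  | cons v L ih =>
    rw [allStps, prs, List.map_append, ← ih]
    congr 1
    unfold stps
    rw [List.map_map]
    rfl

theorem mem_prs (N : τ → ℕ) (L : List τ) (v : τ) (j : ℕ) : (v, j) ∈ prs N L ↔ v ∈ L ∧ j < N v := by
  induction L with
  | nil => simp [prs]
  | cons w L ih =>
    rw [prs, List.mem_append, ih, List.mem_cons, List.mem_map]
    constructor
    · rintro (⟨i, hi, h⟩ | h)
      · rw [Prod.mk.injEq] at h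
        obtain ⟨rfl, rfl⟩ := h
        rw [List.mem_range'_1] at hi
        exact ⟨Or.inl rfl, by omega⟩
      · exact ⟨Or.inr h.1, h.2⟩
    · rintro ⟨rfl | h, h2⟩
      · left
        exact ⟨j, by rw [List.mem_range'_1]; omega, rfl⟩
      · right
        exact ⟨h, h2⟩

theorem prs_nodup (N : τ → ℕ) (L : List τ) (h : L.Nodup) : (prs N L).Nodup := by
  induction L with
  | nil => simp [prs]
  | cons v L ih =>
    obtain ⟨hv, hL⟩ := List.nodup_cons.1 h
    rw [prs, List.nodup_append]
    refine ⟨?_, ih hL, ?_⟩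
    · apply List.Nodup.map
      · intro i j hij
        exact (Prod.mk.injEq _ _ _ _ ▸ hij).2
      · exact List.nodup_range'
    · intro p hp q hq hpq
      subst hpq
      rw [List.mem_map] at hp
      obtain ⟨j, _, rfl⟩ := hp
      rw [mem_prs] at hq
      exact hv hq.1

theorem coeff_stpP (p : τ × ℕ) (θ : τ → k⟦X⟧) (ξ : k) (w : τ) (j : ℕ) :
    coeff j (stpP p θ ξ w) = coeff j (θ w) + if (w, j) = p then ξ else 0 := by
  obtain ⟨v, γ⟩ := p
  unfold stpP stp
  by_cases hw : w = v
  · subst hw
    simp only [Function.update_self, map_add]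
    congr 1
    rw [coeff_C_mul, coeff_X_pow]
    by_cases hj : j = γ
    · subst hj; simp
    · simp [hj]
  · simp only [Function.update_of_ne hw]
    rw [if_neg]
    · simp
    · intro h
      exact hw (Prod.mk.inj h).1

/-- reachability by the steps in `P` -/
def Rch (P : List (τ × ℕ)) (θ θ' : τ → k⟦X⟧) : Prop :=
  ∀ w j, (w, j) ∉ P → coeff j (θ' w) = coeff j (θ w)

theorem fam_unique (P : List (τ × ℕ)) : P.Nodup → ∀ {κ : Type} (θ : (κ → k) → (τ → k⟦X⟧))
    (θ' : τ → k⟦X⟧), (∃! y, Rch P (θ y) θ') → ∃! x, fam (P.map stpP) θ x = θ' := by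
  induction P with
  | nil =>
    intro _ κ θ θ' ⟨y, hy, hu⟩
    have h : ∀ y', Rch [] (θ y') θ' ↔ θ y' = θ' := by
      intro y'
      constructor
      · intro h
        funext w
        ext j
        exact (h w j (by simp)).symm
      · intro h w j _
        rw [h]
    exact ⟨y, (h y).1 hy, fun y' hy' => hu y' ((h y').2 hy')⟩
  | cons p P ih =>
    intro hn κ θ θ' ⟨y, hy, hu⟩
    obtain ⟨hp, hn'⟩ := List.nodup_cons.1 hn
    have key : ∀ (y' : κ → k) (ξ : k), Rch P (stpP p (θ y') ξ) θ' ↔
        Rch (p :: P) (θ y') θ' ∧ coeff p.2 (θ' p.1) = coeff p.2 (θ y' p.1) + ξ := by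
      intro y' ξ
      constructor
      · intro h
        refine ⟨fun w j hwj => ?_, ?_⟩
        · rw [List.mem_cons, not_or] at hwj
          rw [h w j hwj.2, coeff_stpP, if_neg hwj.1, add_zero]
        · rw [h p.1 p.2 hp, coeff_stpP, if_pos rfl]
      · rintro ⟨h1, h2⟩ w j hwj
        rw [coeff_stpP]
        by_cases hw : (w, j) = p
        · rw [if_pos hw]
          subst hw
          exact h2
        · rw [if_neg hw, add_zero]
          exact h1 w j (by simp [hw, hwj])
    apply ih hn' (κ := Option κ) (fun y => stpP p (θ (fun i => y (some i))) (y none)) θ'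
    refine ⟨fun o => o.elim (coeff p.2 (θ' p.1) - coeff p.2 (θ y p.1)) y, ?_, ?_⟩
    · exact (key y _).2 ⟨hy, by simp⟩
    · intro z hz
      obtain ⟨h1, h2⟩ := (key (fun i => z (some i)) (z none)).1 hz
      have h3 := hu _ h1
      funext o
      cases o with
      | none =>
        simp only [Option.elim_none]
        rw [h2, h3]; ring
      | some i =>
        simp only [Option.elim_some]
        exact congrFun h3 i

theorem fam_reach (P : List (τ × ℕ)) : ∀ {κ : Type} (θ : (κ → k) → (τ → k⟦X⟧)) (θ₀ : τ → k⟦X⟧)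
    (Q : List (τ × ℕ)), (∀ y, Rch Q θ₀ (θ y)) → ∀ x, Rch (Q ++ P) θ₀ (fam (P.map stpP) θ x) := by
  induction P with
  | nil => intro κ θ θ₀ Q h x; rw [List.append_nil]; exact h x
  | cons p P ih =>
    intro κ θ θ₀ Q h x
    have h2 := ih (κ := Option κ) (fun y => stpP p (θ (fun i => y (some i))) (y none)) θ₀ (Q ++ [p])
      ?_ x
    · rw [List.append_assoc] at h2
      exact h2
    · intro y w j hwj
      rw [List.mem_append, not_or] at hwj
      rw [coeff_stpP, if_neg (by simpa using hwj.2), add_zero]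
      exact h _ w j hwj.1

theorem fam_coeff_poly (P : List (τ × ℕ)) (w : τ) (j : ℕ) {κ : Type}
    (θ : (κ → k) → (τ → k⟦X⟧)) (h : PolyF (fun y => coeff j (θ y w))) :
    PolyF (fun x => coeff j (fam (P.map stpP) θ x w)) := by
  apply fam_poly (fun θ : τ → k⟦X⟧ => coeff j (θ w)) (P.map stpP) _ θ h
  intro g hg
  rw [List.mem_map] at hg
  obtain ⟨p, _, rfl⟩ := hg
  by_cases hwj : (w, j) = p
  · right
    intro θ ξ
    rw [coeff_stpP, if_pos hwj]
  · left
    intro θ ξ
    rw [coeff_stpP, if_neg hwj, add_zero]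

end Pool.Agent.Helper345_Quot
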