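import Pool.Agent.Helper345_Quot.Sch
import Pool.Agent.Helper345_Quot.ExtSupp
import Mathlib.AlgebraicGeometry.Morphisms.Affine
import Mathlib.AlgebraicGeometry.Morphisms.QuasiCompact

/-!
The theorem for schemes with standard hypotheses, and for the first Ext sheaf.
-/

noncomputable section

namespace Pool.Agent.Helper345_Quot

universe u

open AlgebraicGeometry CategoryTheory TopologicalSpace Opposite Abelian

variable {k : Type u} [Field k] {X : Scheme.{u}} [X.Over (Spec (.of k))]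

theorem exists_affine_cover [QuasiCompact (X ↘ Spec (.of k))] :
    ∃ (ι : Type) (_ : Finite ι) (U : ι → X.Opens), (∀ i, IsAffineOpen (U i)) ∧
      ∀ x, ∃ i, x ∈ U i := by
  have hcs : CompactSpace X := QuasiCompact.compactSpace_of_compactSpace (X ↘ Spec (.of k))
  have h1 : ∀ x : X, ∃ V : X.Opens, IsAffineOpen V ∧ x ∈ V := by
    intro x
    obtain ⟨_, ⟨V, hV, rfl⟩, hxV, -⟩ :=
      X.isBasis_affineOpens.exists_subset_of_mem_open (Set.mem_univ x) isOpen_univ
    exact ⟨V, hV, hxV⟩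
  choose V hV hxV using h1
  obtain ⟨t, ht⟩ := isCompact_univ.elim_finite_subcover (fun x : X => (V x : Set X))
    (fun x => (V x).isOpen) (fun x _ => Set.mem_iUnion.2 ⟨x, hxV x⟩)
  refine ⟨Fin t.card, inferInstance, fun i => V (t.equivFin.symm i), fun i => hV _, fun x => ?_⟩
  have h2 := ht (Set.mem_univ x)
  simp only [Set.mem_iUnion] at h2
  obtain ⟨y, hy, hxy⟩ := h2
  exact ⟨t.equivFin ⟨y, hy⟩, by simpa using hxy⟩

variable (k) in
theorem affine_inf [IsSeparated (X ↘ Spec (.of k))] (V W : X.Opens) (hV : IsAffineOpen V)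
    (hW : IsAffineOpen W) : IsAffineOpen (V ⊓ W) :=
  isAffineHom_diagonal_iff (f := X ↘ Spec (.of k)).1 inferInstance ⊤ (isAffineOpen_top _) V
    (by simp) W (by simp) hV hW

/-- the theorem for schemes -/
theorem scheme_rational [IsAlgClosed k] [CharZero k] [LocallyOfFiniteType (X ↘ Spec (.of k))]
    [QuasiCompact (X ↘ Spec (.of k))] [IsSeparated (X ↘ Spec (.of k))] (G : X.Modules)
    [G.IsQuasicoherent]
    (hfin : ∀ U : X.Opens, IsAffineOpen U → Module.Finite Γ(X, U) Γ(G, U))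
    (hdim : ∀ U : X.Opens, IsAffineOpen U → Module.supportDim Γ(X, U) Γ(G, U) ≤ 1)
    (E : EulerChar k) (P : ∀ n, SParam k G (QC k G n)) :
    IsRat (PowerSeries.mk fun n => ((E.χ (P n).S : ℤ) : ℚ)) := by
  obtain ⟨ι, hι, U, hU, hc⟩ := exists_affine_cover (k := k) (X := X)
  exact scheme_rational' hfin P E U hU hc (affine_inf k) hdim

theorem ext_sheaf_dim [LocallyOfFiniteType (X ↘ Spec (.of k))] [IsIntegral X]
    (hnor : ∀ U : X.Opens, IsAffineOpen U → IsIntegrallyClosed Γ(X, U))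
    (hdim : ∀ U : X.Opens, IsAffineOpen U → ringKrullDim Γ(X, U) ≤ 3)
    (F G : X.Modules)
    (hfin : ∀ U : X.Opens, IsAffineOpen U → Module.Finite Γ(X, U) Γ(F, U))
    (htf : ∀ U : X.Opens, IsAffineOpen U → Module.IsTorsionFree Γ(X, U) Γ(F, U))
    (hext : ∀ U : X.Opens, IsAffineOpen U → Nonempty (Γ(G, U) ≃ₗ[Γ(X, U)]
      Ext (ModuleCat.of Γ(X, U) Γ(F, U)) (ModuleCat.of Γ(X, U) Γ(X, U)) 1))
    (U : X.Opens) (hU : IsAffineOpen U) :
    Module.Finite Γ(X, U) Γ(G, U) ∧ Module.supportDim Γ(X, U) Γ(G, U) ≤ 1 := by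
  let _ := algSec k U
  have hft := finiteType_sec (k := k) hU
  have hnoe : IsNoetherianRing Γ(X, U) := Algebra.FiniteType.isNoetherianRing k _
  obtain ⟨e⟩ := hext U hU
  have h1 := hfin U hU
  constructor
  · exact Module.Finite.equiv e.symm
  · rw [Module.supportDim_eq_of_equiv e]
    by_cases hne : Nonempty U
    · have h2 := hnor U hU
      have h3 := htf U hU
      exact supportDim_ext_le Γ(X, U) Γ(F, U) _ (hdim U hU)
    · have h2 : U = ⊥ := by
        ext x
        simp only [Opens.coe_bot, Set.mem_empty_iff_false, iff_false]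
        intro hx
        exact hne ⟨⟨x, hx⟩⟩
      subst h2
      have h3 : Subsingleton Γ(X, ⊥) := inferInstance
      have h4 : Subsingleton (Ext (ModuleCat.of Γ(X, ⊥) Γ(F, ⊥))
          (ModuleCat.of Γ(X, ⊥) Γ(X, ⊥)) 1) := Module.subsingleton Γ(X, ⊥) _
      rw [Module.supportDim_eq_bot_of_subsingleton]
      exact bot_le

end Pool.Agent.Helper345_Quot
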