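import Pool.Agent.Helper345_Quot.Colen
import Mathlib.RingTheory.LocalRing.Length
import Mathlib.RingTheory.Jacobson.Ring
import Mathlib.FieldTheory.IsAlgClosed.Basic

/-!
Colength in terms of the lengths of the stalks.
-/

noncomputable section

namespace Pool.Agent.Helper345_Quot

universe u

open AlgebraicGeometry CategoryTheory TopologicalSpace Opposite

attribute [local instance] algSec algStk modSec modStk

/-! ### residue fields -/

theorem exists_const {k : Type*} [Field k] [IsAlgClosed k] {R : Type*} [CommRing R] [Algebra k R]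
    [Algebra.FiniteType k R] (p : Ideal R) [hp : p.IsMaximal] (f : R) :
    ∃ c : k, f - algebraMap k R c ∈ p := by
  let _ : Field (R ⧸ p) := Ideal.Quotient.field p
  have h1 : Algebra.FiniteType k (R ⧸ p) := inferInstance
  have h2 : Module.Finite k (R ⧸ p) := finite_of_finite_type_of_isJacobsonRing k (R ⧸ p)
  have h3 : Function.Bijective (algebraMap k (R ⧸ p)) :=
    IsAlgClosed.algebraMap_bijective_of_isIntegral
  obtain ⟨c, hc⟩ := h3.2 (Ideal.Quotient.mk p f)
  refine ⟨c, ?_⟩
  rw [← Ideal.Quotient.eq_zero_iff_mem, map_sub, sub_eq_zero, ← hc]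
  rfl

section

variable {k : Type u} [Field k] {X : Scheme.{u}} [X.Over (Spec (.of k))] {G : X.Modules}

theorem mem_closure_of_ptI_le {U : X.Opens} (hU : IsAffineOpen U) {x y : X} (hx : x ∈ U)
    (hy : y ∈ U) (h : ptI hx ≤ ptI hy) : y ∈ closure {x} := by
  rw [mem_closure_iff]
  intro W hW hyW
  obtain ⟨f, hf, hyf⟩ := hU.exists_basicOpen_le (V := ⟨W, hW⟩) ⟨y, hyW⟩ hy
  refine ⟨x, ?_, rfl⟩
  apply hf
  rw [← notMem_ptI' hx]
  intro hfx
  exact (notMem_ptI' hy f).2 hyf (h hfx)

theorem exists_pt {U : X.Opens} (hU : IsAffineOpen U) (q : Ideal Γ(X, U)) [hq : q.IsPrime] :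
    ∃ (y : X) (hy : y ∈ U), ptI hy = q := by
  let y : X := hU.fromSpec ⟨q, hq⟩
  have hy : y ∈ U := by
    have h1 := hU.opensRange_fromSpec
    rw [← h1]
    exact ⟨_, rfl⟩
  refine ⟨y, hy, ?_⟩
  have h1 : (hU.primeIdealOf ⟨y, hy⟩).asIdeal = ptI hy := by
    rw [hU.primeIdealOf_eq_map_closedPoint]
    rfl
  have h2 : hU.primeIdealOf ⟨y, hy⟩ = ⟨q, hq⟩ := by
    have hinj : Function.Injective hU.fromSpec := hU.fromSpec.isOpenEmbedding.injective
    apply hinj
    exact hU.fromSpec_primeIdealOf ⟨y, hy⟩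
  rw [← h1, h2]

variable (k) in
theorem residue_const [IsAlgClosed k] [LocallyOfFiniteType (X ↘ Spec (.of k))]
    {U : X.Opens} (hU : IsAffineOpen U) {x : X} (hx : x ∈ U) (hmax : (ptI hx).IsMaximal)
    (a : X.presheaf.stalk x) : ∃ c : k, a - algebraMap k (X.presheaf.stalk x) c ∈
      IsLocalRing.maximalIdeal (X.presheaf.stalk x) := by
  have hft := finiteType_sec (k := k) hU
  obtain ⟨f, hf, r, hr⟩ := germ_frac hU hx a
  obtain ⟨c₁, hc₁⟩ := exists_const (k := k) (ptI hx) f
  obtain ⟨c₂, hc₂⟩ := exists_const (k := k) (ptI hx) r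
  have hc1 : c₁ ≠ 0 := by
    rintro rfl
    rw [map_zero, sub_zero] at hc₁
    exact hf hc₁
  refine ⟨c₂ / c₁, ?_⟩
  have hgk : ∀ c : k, algebraMap k (X.presheaf.stalk x) c =
      X.presheaf.germ U x hx (algebraMap k Γ(X, U) c) := fun c => (germ_kSec hx c).symm
  have h1 : X.presheaf.germ U x hx f * (a - algebraMap k (X.presheaf.stalk x) (c₂ / c₁)) =
      X.presheaf.germ U x hx (r - algebraMap k Γ(X, U) (c₂ / c₁) * f) := by
    rw [mul_sub, hr, hgk, map_sub, map_mul, mul_comm (X.presheaf.germ U x hx f)]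
  have h2 : r - algebraMap k Γ(X, U) (c₂ / c₁) * f ∈ ptI hx := by
    have h3 : r - algebraMap k Γ(X, U) (c₂ / c₁) * f = (r - algebraMap k Γ(X, U) c₂) -
        algebraMap k Γ(X, U) (c₂ / c₁) * (f - algebraMap k Γ(X, U) c₁) := by
      have h4 : algebraMap k Γ(X, U) c₂ =
          algebraMap k Γ(X, U) (c₂ / c₁) * algebraMap k Γ(X, U) c₁ := by
        rw [← map_mul, div_mul_cancel₀ _ hc1]
      rw [h4]
      ring
    rw [h3]
    exact Ideal.sub_mem _ hc₂ (Ideal.mul_mem_left _ _ hc₁)
  have h5 : X.presheaf.germ U x hx (r - algebraMap k Γ(X, U) (c₂ / c₁) * f) ∈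
      IsLocalRing.maximalIdeal (X.presheaf.stalk x) := h2
  rw [← h1] at h5
  have h6 := (notMem_ptI hx f).1 hf
  obtain ⟨v, hv⟩ := h6
  rw [← hv] at h5
  have h7 := Ideal.mul_mem_left (IsLocalRing.maximalIdeal (X.presheaf.stalk x)) (↑v⁻¹) h5
  rwa [← mul_assoc, Units.inv_mul, one_mul] at h7

variable (k) in
/-- at closed points the length is the dimension -/
theorem length_eq [IsAlgClosed k] [LocallyOfFiniteType (X ↘ Spec (.of k))]
    {U : X.Opens} (hU : IsAffineOpen U) {x : X} (hx : x ∈ U) (hmax : (ptI hx).IsMaximal)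
    (Q : Type*) [AddCommGroup Q] [Module (X.presheaf.stalk x) Q] [Module k Q]
    [IsScalarTower k (X.presheaf.stalk x) Q] :
    Module.length k Q = Module.length (X.presheaf.stalk x) Q := by
  have hloc : IsLocalHom (algebraMap k (X.presheaf.stalk x)) := inferInstance
  have h1 := IsLocalRing.length_restrictScalars k (X.presheaf.stalk x) Q
  have h2 : Module.length (IsLocalRing.ResidueField k)
      (IsLocalRing.ResidueField (X.presheaf.stalk x)) = 1 := by
    rw [Module.length_eq_of_surjective (R := IsLocalRing.ResidueField (X.presheaf.stalk x))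
      (M := IsLocalRing.ResidueField (X.presheaf.stalk x))]
    · exact Module.length_eq_one _ _
    · intro b
      obtain ⟨a, rfl⟩ := IsLocalRing.residue_surjective b
      obtain ⟨c, hc⟩ := residue_const k hU hx hmax a
      refine ⟨IsLocalRing.residue k c, ?_⟩
      have h3 : IsLocalRing.residue (X.presheaf.stalk x)
          (a - algebraMap k (X.presheaf.stalk x) c) = 0 :=
        (IsLocalRing.residue_eq_zero_iff _).2 hc
      rw [map_sub, sub_eq_zero] at h3
      rw [h3]
      rfl
  rw [h1, h2, mul_one]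

theorem stk_top_of_closure [G.IsQuasicoherent] {U : X.Opens} (hU : IsAffineOpen U) {x y : X}
    (hx : x ∈ U) (hy : y ∈ U) (hcl : y ∈ closure {x}) {N : SubM G} (h : N.stk y = ⊤) :
    N.stk x = ⊤ := by
  rw [eq_top_iff]
  intro t _
  obtain ⟨f, hf, s, hs⟩ := germ_surj hU hx t
  have h1 : grm G y U hy s ∈ N.stk y := by rw [h]; trivial
  obtain ⟨W, hW, s', hs', heq⟩ := h1
  obtain ⟨W', hW', h1, h2, h3⟩ := grm_eq hW hy heq
  have hxW' : x ∈ W' := by
    rw [mem_closure_iff] at hcl
    obtain ⟨z, hz, hzx⟩ := hcl (W' : Set X) W'.isOpen hW'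
    rw [Set.mem_singleton_iff] at hzx
    exact hzx ▸ hz
  have h4 : grm G x U hx s ∈ N.stk x := by
    refine ⟨W', hxW', rs G h2 s, ?_, grm_rs _ _ _⟩
    rw [← h3]
    exact N.rs_mem h1 hs'
  rw [← hs] at h4
  exact (ptLoc G hU hx).unit_smul_mem hf h4

variable (k) in
include k in
/-- points of finite supports are closed -/
theorem max_of_finite_supp [LocallyOfFiniteType (X ↘ Spec (.of k))] [G.IsQuasicoherent]
    {U : X.Opens} (hU : IsAffineOpen U) {x : X} (hx : x ∈ U) {N : SubM G}
    (hfin : {y | N.stk y ≠ ⊤}.Finite) (hne : N.stk x ≠ ⊤) : (ptI hx).IsMaximal := by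
  classical
  have hft := finiteType_sec (k := k) hU
  have hj : IsJacobsonRing Γ(X, U) := isJacobsonRing_of_finiteType (A := k)
  let S : Set (Ideal Γ(X, U)) := {q | q.IsMaximal ∧ ptI hx ≤ q}
  have hS : S.Finite := by
    have h1 : ∀ q ∈ S, ∃ y ∈ {y | N.stk y ≠ ⊤}, ∃ hy : y ∈ U, ptI hy = q := by
      rintro q ⟨hq, hle⟩
      have := hq.isPrime
      obtain ⟨y, hy, hyq⟩ := exists_pt hU q
      refine ⟨y, ?_, hy, hyq⟩
      intro htop
      exact hne (stk_top_of_closure hU hx hy (mem_closure_of_ptI_le hU hx hy (hyq ▸ hle)) htop)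
    have h2 : S ⊆ (fun y : X => if hy : y ∈ U then ptI hy else ⊤) '' {y | N.stk y ≠ ⊤} := by
      intro q hq
      obtain ⟨y, hy, hyU, hyq⟩ := h1 q hq
      refine ⟨y, hy, ?_⟩
      beta_reduce
      rw [dif_pos hyU, hyq]
    exact (hfin.image _).subset h2
  have hjac : (ptI hx).jacobson = ptI hx := by
    rw [← Ideal.radical_eq_jacobson, (ptI_prime hx).radical]
  have hinf : hS.toFinset.inf id ≤ ptI hx := by
    intro f hf
    rw [← hjac, Ideal.jacobson, Submodule.mem_sInf]
    rintro q ⟨hle, hq⟩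
    have h3 : hS.toFinset.inf id ≤ q := Finset.inf_le (f := id) (hS.mem_toFinset.2 ⟨hq, hle⟩)
    exact h3 hf
  rw [(ptI_prime hx).inf_le'] at hinf
  obtain ⟨q, hq, hle⟩ := hinf
  obtain ⟨hq1, hq2⟩ := hS.mem_toFinset.1 hq
  have : ptI hx = q := le_antisymm hq2 hle
  rw [this]
  exact hq1

/-- comparison of the two notions of colength -/
theorem isColength_iff [IsAlgClosed k] [LocallyOfFiniteType (X ↘ Spec (.of k))]
    [G.IsQuasicoherent] {n : ℕ} {N : SubM G} :
    IsColength n N ↔ FinCo k N ∧ lenOn k N Set.univ = n := by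
  classical
  -- affine neighbourhoods
  have haff : ∀ x : X, ∃ U : X.Opens, IsAffineOpen U ∧ x ∈ U := by
    intro x
    obtain ⟨_, ⟨V, hV, rfl⟩, hxV, -⟩ :=
      X.isBasis_affineOpens.exists_subset_of_mem_open (Set.mem_univ x) isOpen_univ
    exact ⟨V, hV, hxV⟩
  have hlen : ∀ x : X, {y | N.stk y ≠ ⊤}.Finite → N.stk x ≠ ⊤ →
      Module.length k (Stk G x ⧸ N.stk x) =
        Module.length (X.presheaf.stalk x) (Stk G x ⧸ N.stk x) := by
    intro x hfin hx
    obtain ⟨U, hU, hxU⟩ := haff x
    exact length_eq k hU hxU (max_of_finite_supp k hU hxU hfin hx) _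
  constructor
  · rintro ⟨hloc, Z, hZ, hsum⟩
    have hsupp : {y | N.stk y ≠ ⊤}.Finite := by
      apply Z.finite_toSet.subset
      intro x hx
      by_contra h
      exact hx (hZ x h)
    have hfinl : ∀ x ∈ Z, Module.length (X.presheaf.stalk x) (Stk G x ⧸ N.stk x) ≠ ⊤ := by
      intro x hx htop
      have h1 := Finset.single_le_sum (f := fun x => Module.length (X.presheaf.stalk x)
        (Stk G x ⧸ N.stk x)) (fun _ _ => zero_le) hx
      rw [hsum] at h1
      beta_reduce at h1
      rw [htop, top_le_iff] at h1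
      exact ENat.natCast_ne_top n h1
    have hfin : ∀ x, Module.Finite k (Stk G x ⧸ N.stk x) := by
      intro x
      by_cases hx : N.stk x = ⊤
      · have : Subsingleton (Stk G x ⧸ N.stk x) := Submodule.Quotient.subsingleton_iff.2 hx
        exact Module.Finite.of_finite
      · have hxZ : x ∈ Z := by
          by_contra h
          exact hx (hZ x h)
        have h1 := hfinl x hxZ
        rw [← hlen x hsupp hx, Module.length_ne_top_iff,
          isFiniteLength_iff_isNoetherian_isArtinian] at h1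
        have := h1.1
        infer_instance
    have hN : FinCo k N := ⟨hloc, hfin, hsupp⟩
    refine ⟨hN, ?_⟩
    rw [hN.lenOn_eq_sum Set.univ Z (fun x _ hx => hZ x hx) (fun _ _ => trivial)]
    have h2 : ((∑ x ∈ Z, dimAt k N x : ℕ) : ℕ∞) = n := by
      rw [← hsum, Nat.cast_sum]
      apply Finset.sum_congr rfl
      intro x _
      by_cases hx : N.stk x = ⊤
      · rw [dimAt_top hx]
        have : Subsingleton (Stk G x ⧸ N.stk x) := Submodule.Quotient.subsingleton_iff.2 hx
        rw [Module.length_eq_zero]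
        rfl
      · rw [← hlen x hsupp hx]
        have := hfin x
        rw [Module.length_eq_finrank]
        rfl
    exact_mod_cast h2
  · rintro ⟨hN, hn⟩
    refine ⟨hN.loc, hN.supp.toFinset, ?_, ?_⟩
    · intro x hx
      by_contra h
      exact hx (hN.supp.mem_toFinset.2 h)
    · rw [← hn, hN.lenOn_eq_sum Set.univ hN.supp.toFinset (by
        intro x _ hx
        by_contra h
        exact hx (hN.supp.mem_toFinset.2 h)) (fun _ _ => trivial), Nat.cast_sum]
      apply Finset.sum_congr rfl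
      intro x hx
      rw [← hlen x hN.supp (hN.supp.mem_toFinset.1 hx)]
      have := hN.fin x
      rw [Module.length_eq_finrank]
      rfl

end

end Pool.Agent.Helper345_Quot
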