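import Pool.Agent.Helper345_Quot.SParEx

/-!
Existence of parametrisations of the subsheaves of given colength, continued.
-/

noncomputable section

namespace Pool.Agent.Helper345_Quot

universe u

open AlgebraicGeometry CategoryTheory TopologicalSpace Opposite

attribute [local instance] algSec algStk modSec modStk

variable {k : Type u} [Field k] {X : Scheme.{u}} [X.Over (Spec (.of k))] {G : X.Modules}
  [G.IsQuasicoherent] {L : ℕ} {U : Fin L → X.Opens} (hU : ∀ i, IsAffineOpen (U i))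
  (P : ∀ (i : Fin L) (m : ℕ), Param k Γ(X, U i) Γ(G, U i) (QuotSet k Γ(X, U i) Γ(G, U i) m))
  (idx : X → Fin L) (hidx : ∀ x, x ∈ U (idx x)) (hmin : ∀ x i, x ∈ U i → idx x ≤ i)

theorem exists_idx (hc : ∀ x, ∃ i, x ∈ U i) :
    ∃ idx : X → Fin L, (∀ x, x ∈ U (idx x)) ∧ ∀ x i, x ∈ U i → idx x ≤ i := by
  have h : ∀ x, ∃ i, x ∈ U i ∧ ∀ j, x ∈ U j → i ≤ j := by
    intro x
    obtain ⟨i, hi, hmin⟩ := WellFounded.has_min (wellFounded_lt (α := Fin L)) {i | x ∈ U i} (hc x)
    exact ⟨i, hi, fun j hj => not_lt.1 (hmin j hj)⟩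
  choose idx h1 h2 using h
  exact ⟨idx, h1, h2⟩

include hidx hmin in
theorem dfn_SuppIn (hsep : ∀ i j, IsCompact ((U i ⊓ U j : X.Opens) : Set X))
    (hfin : ∀ i, Module.Finite Γ(X, U i) Γ(G, U i)) (i : Fin L) (m : ℕ) {κ' : Type}
    (e : (P i m).κ → κ') :
    Dfn (fun z : κ' → k => z ∘ e ∈ (P i m).S ∧ SuppIn hU idx i ((P i m).φ (z ∘ e))) := by
  have := hfin i
  obtain ⟨b, h, hh⟩ := Module.Finite.exists_fin (R := Γ(X, U i)) (M := Γ(G, U i))
  choose c f hf hcov using fun j => exists_basic_cover (hU i) (U j) (hsep i j)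
  have h1 : Dfn (fun z : κ' → k => ∀ j : Fin L, j < i → ∀ a : Fin (c j), ∀ l : Fin b,
      (z ∘ e ∈ (P i m).S ∧ ∑ _u : Unit, (1 : k) • (f j a ^ m • h l) ∈ (P i m).φ (z ∘ e))) :=
    Dfn.forall_fin fun j => (Dfn.const _).imp (Dfn.forall_fin fun a => Dfn.forall_fin fun l =>
      (P i m).dfn_comb e (fun _u : Unit => f j a ^ m • h l) (fun _ _ => 1)
        (fun _ => PolyF.const 1))
  refine (((P i m).dfn_S e).and h1).congr fun z => ?_
  simp only [Finset.univ_unique, Finset.sum_singleton, one_smul]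
  apply and_congr_right
  intro hz
  have hN := (P i m).maps hz
  have := hN.1
  constructor
  · intro h2 x hx hxi
    have hlt : idx x < i := lt_of_le_of_ne (hmin x i hx) hxi
    obtain ⟨a, ha⟩ := hcov (idx x) x hx (hidx x)
    exact (basic_top_iff (k := k) (hU i) _ hN.2.le (f (idx x) a) h hh).2
      (fun l => (h2 (idx x) hlt a l).2) x ha
  · intro h2 j hj a l
    refine ⟨hz, ?_⟩
    apply (basic_top_iff (k := k) (hU i) _ hN.2.le (f j a) h hh).1
    intro x hx
    apply h2 x (X.basicOpen_le _ hx)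
    intro h3
    have h4 := hmin x j (hf j a hx)
    rw [h3] at h4
    exact absurd hj (not_lt.2 h4)

/-- names of the coordinates -/
abbrev KS (n : ℕ) : Type := (Fin L × Fin (n + 1)) ⊕ (Σ i : Fin L, Σ m : Fin (n + 1), (P i m).κ)

/-- the coordinates of a piece -/
def ec (n : ℕ) (i : Fin L) (m : Fin (n + 1)) : (P i m).κ → KS P n := fun c => Sum.inr ⟨i, m, c⟩

/-- the conditions for a given distribution of the colength -/
def DS (n : ℕ) (d : Fin L → Fin (n + 1)) (z : KS P n → k) : Prop :=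
  (∀ i m, z (Sum.inl (i, m)) = if m = d i then 1 else 0) ∧
  (∀ i, z ∘ ec P n i (d i) ∈ (P i (d i)).S ∧
    SuppIn hU idx i ((P i (d i)).φ (z ∘ ec P n i (d i)))) ∧
  ∀ i m, m ≠ d i → z ∘ ec P n i m = 0

/-- the parameter set -/
def SS (n : ℕ) : Set (KS P n → k) :=
  {z | ∃ d : Fin L → Fin (n + 1), ∑ i, (d i : ℕ) = n ∧ DS hU P idx n d z}

open Classical in
/-- recovering the distribution -/
def dz {n : ℕ} (z : KS P n → k) (i : Fin L) : Fin (n + 1) :=
  if h : ∃ m : Fin (n + 1), z (Sum.inl (i, m)) = 1 then h.choose else 0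

theorem dz_eq {n : ℕ} {d : Fin L → Fin (n + 1)} {z : KS P n → k} (h : DS hU P idx n d z) :
    dz P z = d := by
  classical
  funext i
  unfold dz
  have hex : ∃ m : Fin (n + 1), z (Sum.inl (i, m)) = 1 := ⟨d i, by rw [h.1, if_pos rfl]⟩
  rw [dif_pos hex]
  have h1 := hex.choose_spec
  rw [h.1] at h1
  by_contra h2
  rw [if_neg h2] at h1
  exact zero_ne_one h1

/-- the submodules attached to a parameter -/
def Nfz {n : ℕ} (z : KS P n → k) (i : Fin L) : Submodule Γ(X, U i) Γ(G, U i) :=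
  (P i (dz P z i)).φ (z ∘ ec P n i (dz P z i))

theorem Nfz_eq {n : ℕ} {d : Fin L → Fin (n + 1)} {z : KS P n → k} (h : DS hU P idx n d z)
    (i : Fin L) : Nfz P z i = (P i (d i)).φ (z ∘ ec P n i (d i)) := by
  have h1 := dz_eq hU P idx h
  subst h1
  rfl

theorem Nfz_mem {n : ℕ} {d : Fin L → Fin (n + 1)} {z : KS P n → k} (h : DS hU P idx n d z)
    (i : Fin L) : Nfz P z i ∈ QuotSet k Γ(X, U i) Γ(G, U i) (d i) := by
  rw [Nfz_eq hU P idx h]
  exact (P i (d i)).maps (h.2.1 i).1

theorem Nfz_supp {n : ℕ} {d : Fin L → Fin (n + 1)} {z : KS P n → k} (h : DS hU P idx n d z)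
    (i : Fin L) : SuppIn hU idx i (Nfz P z i) := by
  rw [Nfz_eq hU P idx h]
  exact (h.2.1 i).2

include hidx hmin in
theorem dfn_DS (hsep : ∀ i j, IsCompact ((U i ⊓ U j : X.Opens) : Set X))
    (hfin : ∀ i, Module.Finite Γ(X, U i) Γ(G, U i)) (n : ℕ) (d : Fin L → Fin (n + 1))
    {κ' : Type} (e : KS P n → κ') : Dfn (fun z : κ' → k => DS hU P idx n d (z ∘ e)) := by
  unfold DS
  refine Dfn.and ?_ (Dfn.and ?_ ?_)
  · exact Dfn.forall_fin fun i => Dfn.forall_fin fun m => Dfn.eq (PolyF.coord _) (PolyF.const _)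
  · exact Dfn.forall_fin fun i =>
      dfn_SuppIn hU P idx hidx hmin hsep hfin i (d i) (e ∘ ec P n i (d i))
  · refine Dfn.forall_fin fun i => Dfn.forall_fin fun m => (Dfn.const _).imp ?_
    have h1 : Dfn (fun z : κ' → k => ∀ c, z (e (ec P n i m c)) = 0) :=
      Dfn.forall_fin fun c => Dfn.eq (PolyF.coord _) (PolyF.const _)
    exact h1.congr fun z => funext_iff.symm

include hU P hidx hmin in
/-- existence of a parametrisation, in terms of a cover -/
theorem exists_sparam_cover (hsep : ∀ V W : X.Opens, IsAffineOpen V → IsAffineOpen W →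
      IsAffineOpen (V ⊓ W))
    (hfin : ∀ i, Module.Finite Γ(X, U i) Γ(G, U i)) (n : ℕ) : Nonempty (SParam k G (QC k G n)) := by
  classical
  have hsep' : ∀ i j, IsCompact ((U i ⊓ U j : X.Opens) : Set X) := fun i j =>
    (hsep _ _ (hU i) (hU j)).isCompact
  refine ⟨{
    κ := KS P n
    fin := inferInstance
    S := SS hU P idx n
    φ := fun z => glueN hU idx (Nfz P z)
    bij := ⟨?_, ?_, ?_⟩
    dfn := ?_ }⟩
  · rintro z ⟨d, hd, hz⟩
    apply glueN_mem hU idx (fun i => (Nfz_mem hU P idx hz i).1) (Nfz_supp hU P idx hz)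
    exact (Finset.sum_congr rfl fun i _ => (Nfz_mem hU P idx hz i).2).trans hd
  · rintro z ⟨d, hd, hz⟩ z' ⟨d', hd', hz'⟩ h
    have h1 := glueN_inj (k := k) hU idx hidx (fun i => (Nfz_mem hU P idx hz i).1)
      (Nfz_supp hU P idx hz) (fun i => (Nfz_mem hU P idx hz' i).1) (Nfz_supp hU P idx hz') h
    have h2 : d = d' := by
      funext i
      apply Fin.ext
      rw [← (Nfz_mem hU P idx hz i).2, ← (Nfz_mem hU P idx hz' i).2, h1 i]
    subst h2
    have h3 : ∀ i, z ∘ ec P n i (d i) = z' ∘ ec P n i (d i) := by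
      intro i
      apply (P i (d i)).inj (hz.2.1 i).1 (hz'.2.1 i).1
      rw [← Nfz_eq hU P idx hz, ← Nfz_eq hU P idx hz']
      exact h1 i
    funext c
    rcases c with ⟨i, m⟩ | ⟨i, m, c⟩
    · rw [hz.1, hz'.1]
    · by_cases hm : m = d i
      · subst hm
        exact congrFun (h3 i) c
      · have h4 := congrFun (hz.2.2 i m hm) c
        have h5 := congrFun (hz'.2.2 i m hm) c
        exact h4.trans h5.symm
  · intro N hN
    obtain ⟨Nf, hf, hs, hsum, hglue⟩ := exists_glueN (k := k) hU idx hidx hN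
    have hle : ∀ i, Module.finrank k (Γ(G, U i) ⧸ Nf i) < n + 1 := by
      intro i
      have h1 : Module.finrank k (Γ(G, U i) ⧸ Nf i) ≤ ∑ i, Module.finrank k (Γ(G, U i) ⧸ Nf i) :=
        Finset.single_le_sum (f := fun i => Module.finrank k (Γ(G, U i) ⧸ Nf i))
          (fun _ _ => Nat.zero_le _) (Finset.mem_univ i)
      omega
    let d : Fin L → Fin (n + 1) := fun i => ⟨_, hle i⟩
    have hx : ∀ i, ∃ x ∈ (P i (d i)).S, (P i (d i)).φ x = Nf i := fun i =>
      (P i (d i)).surj ⟨hf i, rfl⟩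
    choose x hxS hxφ using hx
    let y : ∀ (i : Fin L) (m : Fin (n + 1)), (P i m).κ → k := fun i m =>
      if h : m = d i then h.symm ▸ x i else 0
    have hy : ∀ i, y i (d i) = x i := fun i => dif_pos rfl
    let z : KS P n → k := Sum.elim (fun p => if p.2 = d p.1 then 1 else 0)
      (fun p => y p.1 p.2.1 p.2.2)
    have hzc : ∀ i m, z ∘ ec P n i m = y i m := fun i m => rfl
    have hz : DS hU P idx n d z := by
      refine ⟨fun i m => rfl, fun i => ?_, fun i m hm => ?_⟩
      · rw [hzc, hy, hxφ]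
        exact ⟨hxS i, hs i⟩
      · rw [hzc]
        exact dif_neg hm
    refine ⟨z, ⟨d, hsum, hz⟩, ?_⟩
    have h1 : Nfz P z = Nf := by
      funext i
      rw [Nfz_eq hU P idx hz, hzc, hy, hxφ]
    change glueN hU idx (Nfz P z) = N
    rw [h1, hglue]
  · intro V hV m g
    have hcov := fun i => exists_basic_cover (hU i) V (hsep _ _ (hU i) hV).isCompact
    choose b f hfV hcov using hcov
    choose e t ht using fun i a => exists_ext_sections (hU i) (hfV i a) g
    have h1 : Dfn (fun z : KS P n ⊕ Fin m → k => ∃ d : Fin L → Fin (n + 1),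
        ∑ i, (d i : ℕ) = n ∧ DS hU P idx n d (z ∘ Sum.inl) ∧
        ∀ i, ∀ a : Fin (b i), (z ∘ (Sum.inl ∘ ec P n i (d i)) ∈ (P i (d i)).S ∧
          ∑ j, z (Sum.inr j) • (f i a ^ n • t i a j) ∈
            (P i (d i)).φ (z ∘ (Sum.inl ∘ ec P n i (d i))))) :=
      Dfn.exists_fin fun d => (Dfn.const _).and
        ((dfn_DS hU P idx hidx hmin hsep' hfin n d Sum.inl).and
        (Dfn.forall_fin fun i => Dfn.forall_fin fun a =>
          (P i (d i)).dfn_comb (Sum.inl ∘ ec P n i (d i)) (fun j => f i a ^ n • t i a j)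
            (fun j z => z (Sum.inr j)) (fun j => PolyF.coord _)))
    refine h1.congr fun z => ?_
    have key : ∀ d : Fin L → Fin (n + 1), ∑ i, (d i : ℕ) = n → DS hU P idx n d (z ∘ Sum.inl) →
        (∑ j, kSec k V (z (Sum.inr j)) • g j ∈ (glueN hU idx (Nfz P (z ∘ Sum.inl))).sec V ↔
        ∀ i, ∀ a : Fin (b i), (z ∘ (Sum.inl ∘ ec P n i (d i)) ∈ (P i (d i)).S ∧
          ∑ j, z (Sum.inr j) • (f i a ^ n • t i a j) ∈
            (P i (d i)).φ (z ∘ (Sum.inl ∘ ec P n i (d i))))) := by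
      intro d hd hz
      have hlen : ∀ i, Module.finrank k (Γ(G, U i) ⧸ Nfz P (z ∘ Sum.inl) i) ≤ n := by
        intro i
        rw [(Nfz_mem hU P idx hz i).2]
        have := (d i).2
        omega
      have h2 := mem_glueN_iff (k := k) hU idx (fun i => (Nfz_mem hU P idx hz i).1)
        (Nfz_supp hU P idx hz) hlen (∑ j, kSec k V (z (Sum.inr j)) • g j) hfV hcov (e := e)
        (t := fun i a => ∑ j, z (Sum.inr j) • t i a j) (by
          intro i a
          rw [map_sum, map_sum, Finset.smul_sum]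
          apply Finset.sum_congr rfl
          intro j _
          rw [rs_smul_k, ht, rs_smul, rsX_kSec, smul_sec_def, smul_comm]) hidx
      rw [h2]
      apply forall_congr'
      intro i
      apply forall_congr'
      intro a
      rw [Nfz_eq hU P idx hz, Finset.smul_sum]
      have h3 : ∀ j, f i a ^ n • z (Sum.inr j) • t i a j = z (Sum.inr j) • (f i a ^ n • t i a j) :=
        fun j => by rw [smul_sec_def, smul_sec_def, smul_comm]
      rw [Finset.sum_congr rfl fun j _ => h3 j]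
      constructor
      · intro h4
        exact ⟨(hz.2.1 i).1, h4⟩
      · intro h4
        exact h4.2
    constructor
    · rintro ⟨d, hd, hz, h4⟩
      exact ⟨⟨d, hd, hz⟩, (key d hd hz).2 h4⟩
    · rintro ⟨⟨d, hd, hz⟩, h4⟩
      exact ⟨d, hd, hz, (key d hd hz).1 h4⟩

/-- existence of a parametrisation -/
theorem exists_sparam [LocallyOfFiniteType (X ↘ Spec (.of k))]
    [QuasiCompact (X ↘ Spec (.of k))] [IsSeparated (X ↘ Spec (.of k))]
    (hfin : ∀ U : X.Opens, IsAffineOpen U → Module.Finite Γ(X, U) Γ(G, U))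
    (hdim : ∀ U : X.Opens, IsAffineOpen U → Module.supportDim Γ(X, U) Γ(G, U) ≤ 1) (n : ℕ) :
    Nonempty (SParam k G (QC k G n)) := by
  obtain ⟨ι, hι, U, hU, hc⟩ := exists_affine_cover (k := k) (X := X)
  let _ := Fintype.ofFinite ι
  let e := Fintype.equivFin ι
  let U' : Fin (Fintype.card ι) → X.Opens := fun i => U (e.symm i)
  have hU' : ∀ i, IsAffineOpen (U' i) := fun i => hU _
  have hc' : ∀ x, ∃ i, x ∈ U' i := by
    intro x
    obtain ⟨i, hi⟩ := hc x
    exact ⟨e i, by simpa [U'] using hi⟩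
  obtain ⟨idx, hidx, hmin⟩ := exists_idx hc'
  have hP : ∀ (i : Fin (Fintype.card ι)) (m : ℕ),
      Nonempty (Param k Γ(X, U' i) Γ(G, U' i) (QuotSet k Γ(X, U' i) Γ(G, U' i) m)) := by
    intro i m
    have := hfin (U' i) (hU' i)
    have := finiteType_sec (k := k) (hU' i)
    exact exists_param_aff (hdim (U' i) (hU' i)) m
  exact exists_sparam_cover hU' (fun i m => (hP i m).some) idx hidx hmin (affine_inf k)
    (fun i => hfin _ (hU' i)) n

end Pool.Agent.Helper345_Quot
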