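import Pool.Agent.Helper345_Quot.Ind
import Pool.Agent.Helper345_Quot.Len
import Pool.Agent.Helper345_Quot.SParEx2

/-!
The final statements.
-/

noncomputable section

namespace Pool.Agent.Helper345_Quot

universe u

open AlgebraicGeometry CategoryTheory TopologicalSpace Opposite Abelian

variable {k : Type u} [Field k] {X : Scheme.{u}} [X.Over (Spec (.of k))]

theorem QC_eq [IsAlgClosed k] [LocallyOfFiniteType (X ↘ Spec (.of k))] (G : X.Modules)
    [G.IsQuasicoherent] (n : ℕ) : QC k G n = {N : SubM G | IsColength n N} := by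
  ext N
  exact (isColength_iff (k := k)).symm

/-- The sets of quotients of `G` of given length, with zero dimensional support, are parametrised by
definable sets, whose Euler characteristics do not depend on the parametrisation and form a
rational series. -/
def RationalQuot (k : Type u) [Field k] {X : Scheme.{u}} [X.Over (Spec (.of k))]
    (G : X.Modules) : Prop :=
  (∀ n : ℕ, Nonempty (SParam k G {N | IsColength n N})) ∧
  ∀ E : EulerChar k,
    (∀ (n : ℕ) (P P' : SParam k G {N | IsColength n N}), E.χ P.S = E.χ P'.S) ∧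
    ∀ P : ∀ n : ℕ, SParam k G {N | IsColength n N}, ∃ p q : Polynomial ℚ, q.coeff 0 ≠ 0 ∧
      (PowerSeries.mk fun n => ((E.χ (P n).S : ℤ) : ℚ)) * (q : PowerSeries ℚ) =
        (p : PowerSeries ℚ)

theorem rationalQuot_of_dim [IsAlgClosed k] [CharZero k]
    [LocallyOfFiniteType (X ↘ Spec (.of k))]
    [QuasiCompact (X ↘ Spec (.of k))] [IsSeparated (X ↘ Spec (.of k))] (G : X.Modules)
    [G.IsQuasicoherent]
    (hfin : ∀ U : X.Opens, IsAffineOpen U → Module.Finite Γ(X, U) Γ(G, U))
    (hdim : ∀ U : X.Opens, IsAffineOpen U → Module.supportDim Γ(X, U) Γ(G, U) ≤ 1) :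
    RationalQuot k G := by
  have key : ∀ Q : ℕ → Set (SubM G), Q = QC k G →
      (∀ n : ℕ, Nonempty (SParam k G (Q n))) ∧
      ∀ E : EulerChar k,
        (∀ (n : ℕ) (P P' : SParam k G (Q n)), E.χ P.S = E.χ P'.S) ∧
        ∀ P : ∀ n : ℕ, SParam k G (Q n), ∃ p q : Polynomial ℚ, q.coeff 0 ≠ 0 ∧
          (PowerSeries.mk fun n => ((E.χ (P n).S : ℤ) : ℚ)) * (q : PowerSeries ℚ) =
            (p : PowerSeries ℚ) := by
    rintro _ rfl
    exact ⟨fun n => exists_sparam hfin hdim n, fun E => ⟨fun n P P' => chi_indep hfin E P P',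
      fun P => scheme_rational G hfin hdim E P⟩⟩
  exact key _ (funext fun n => (QC_eq (k := k) G n).symm)

theorem rationalQuot_ext [IsAlgClosed k] [CharZero k]
    [LocallyOfFiniteType (X ↘ Spec (.of k))]
    [QuasiCompact (X ↘ Spec (.of k))] [IsSeparated (X ↘ Spec (.of k))] [IsIntegral X]
    (hnor : ∀ U : X.Opens, IsAffineOpen U → IsIntegrallyClosed Γ(X, U))
    (hdim : ∀ U : X.Opens, IsAffineOpen U → ringKrullDim Γ(X, U) ≤ 3)
    (F : X.Modules)
    (hfin : ∀ U : X.Opens, IsAffineOpen U → Module.Finite Γ(X, U) Γ(F, U))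
    (htf : ∀ U : X.Opens, IsAffineOpen U → Module.IsTorsionFree Γ(X, U) Γ(F, U))
    (G : X.Modules) [G.IsQuasicoherent] (hext : IsExtOne F G) :
    RationalQuot k G :=
  rationalQuot_of_dim G
    (fun U hU => (ext_sheaf_dim (k := k) hnor hdim F G hfin htf hext U hU).1)
    (fun U hU => (ext_sheaf_dim (k := k) hnor hdim F G hfin htf hext U hU).2)

end Pool.Agent.Helper345_Quot
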