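import Pool.Agent.Helper345_Quot.Poly

/-!
A closed formula for ball integrals as a sum over rational open classes of roots.
-/

noncomputable section

namespace Pool.Agent.Helper345_Quot

open PowerSeries
open scoped NNReal

variable {k : Type*} [Field k]

namespace Inst

variable {σ : Type*} {d : ℕ} (I : Inst k σ d)

/-- rational open classes of roots at level `γ` -/
def OC (E : Finset (Fin d)) (γ : ℕ) : Prop :=
  E.Nonempty ∧ ∃ q : k⟦X⟧, ∀ l, l ∈ E ↔ nn k (I.r l - emb k q) < hf ^ γ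

variable {I}

theorem OC.avg [CharZero k] {E : Finset (Fin d)} {γ : ℕ} (h : I.OC E γ) :
    (∃ q, emb k q = I.avg E) ∧ ∀ l, l ∈ E ↔ nn k (I.r l - emb k (I.ctr E)) < hf ^ γ := by
  obtain ⟨hne, q, hq⟩ := h
  obtain ⟨q', hq', hdvd⟩ := centre_open I.r I.gal q γ E hne hq
  have h1 : I.ctr E = q' := I.ctr_of hq'
  refine ⟨⟨q', hq'⟩, fun l => ?_⟩
  rw [h1, hq l]
  rw [dvd_succ_iff_nn, map_sub] at hdvd
  constructor
  · intro h
    rw [nn_sub_comm] at hdvd
    exact nn_sub_trans_lt h hdvd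
  · intro h
    exact nn_sub_trans_lt h hdvd

theorem OC.mem_ctr [CharZero k] {E : Finset (Fin d)} {γ : ℕ} (h : I.OC E γ) (l : Fin d) :
    l ∈ E ↔ nn k (I.r l - emb k (I.ctr E)) < hf ^ γ := h.avg.2 l

theorem OC.emb_ctr [CharZero k] {E : Finset (Fin d)} {γ : ℕ} (h : I.OC E γ) :
    emb k (I.ctr E) = I.avg E := I.ctr_spec h.avg.1

/-- two rational points closer than `hf ^ γ` -/
theorem rat_close {p q : k⟦X⟧} {γ : ℕ} (h : nn k (emb k p - emb k q) < hf ^ γ) :
    nn k (emb k p - emb k q) ≤ hf ^ (γ + 1) := by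
  rw [← map_sub] at h ⊢
  rwa [← dvd_iff_nn, dvd_succ_iff_nn]

variable (I)

open Classical in
/-- the classes of level `γ'` inside the ball of radius `γ` around `x` -/
def cl (x : LL k) (γ γ' : ℕ) : Finset (Finset (Fin d)) :=
  Finset.univ.filter (fun E => I.OC E γ' ∧ ∀ l ∈ E, nn k (I.r l - x) ≤ hf ^ γ)

theorem mem_cl {x : LL k} {γ γ' : ℕ} {E : Finset (Fin d)} :
    E ∈ I.cl x γ γ' ↔ I.OC E γ' ∧ ∀ l ∈ E, nn k (I.r l - x) ≤ hf ^ γ := by
  simp [cl]

/-- difference of generic values -/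
def dΦ (G : (σ → ℕ) → ℤ) (E : Finset (Fin d)) (γ : ℕ) : ℤ :=
  I.gΦ G (emb k (I.ctr E)) (γ + 1) - I.gΦ G (emb k (I.ctr E)) γ

theorem classes_eq [IsAlgClosed k] [CharZero k] (q : k⟦X⟧) (γ : ℕ) :
    I.classes (emb k q) γ = I.cl (emb k q) γ γ := by
  ext E
  rw [mem_cl]
  unfold classes
  rw [Finset.mem_filter]
  constructor
  · rintro ⟨-, hne, h1, h2⟩
    refine ⟨⟨hne, ?_⟩, h1⟩
    obtain ⟨l, hl⟩ := hne
    obtain ⟨ξ, hξ⟩ := residue_ball _ q γ (h1 l hl)
    refine ⟨q + C ξ * X ^ γ, fun l' => ?_⟩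
    rw [h2 l hl l']
    constructor
    · intro h
      rw [nn_sub_comm] at h
      exact nn_sub_trans_lt h hξ
    · intro h
      rw [nn_sub_comm] at h
      exact nn_sub_trans_lt hξ h
  · rintro ⟨⟨hne, p, hp⟩, h1⟩
    refine ⟨Finset.mem_univ _, hne, h1, ?_⟩
    intro l hl l'
    rw [hp] at hl ⊢
    constructor
    · intro h
      rw [nn_sub_comm] at h
      exact nn_sub_trans_lt hl h
    · intro h
      rw [nn_sub_comm] at h
      exact nn_sub_trans_lt h hl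

theorem sum_classes [IsAlgClosed k] [CharZero k] (q : k⟦X⟧) (γ j : ℕ) (D : Finset (Fin d) → ℤ) :
    ∑ E ∈ I.cl (emb k q) γ γ, ∑ E' ∈ I.cl (emb k (I.ctr E)) (γ + 1) (γ + 1 + j), D E' =
      ∑ E' ∈ I.cl (emb k q) γ (γ + 1 + j), D E' := by
  classical
  let g : Finset (Fin d) → Finset (Fin d) := fun E' =>
    Finset.univ.filter (fun l => ∃ l0 ∈ E', nn k (I.r l - I.r l0) < hf ^ γ)
  have hg : ∀ E' l, l ∈ g E' ↔ ∃ l0 ∈ E', nn k (I.r l - I.r l0) < hf ^ γ := by
    intro E' l; simp [g]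
  have hlt : hf ^ (γ + 1) < hf ^ γ := hf_pow_lt.2 (Nat.lt_succ_self γ)
  have hle : hf ^ (γ + 1 + j) ≤ hf ^ (γ + 1) := hf_pow_le.2 (by omega)
  have hmaps : ∀ E' ∈ I.cl (emb k q) γ (γ + 1 + j), g E' ∈ I.cl (emb k q) γ γ := by
    intro E' hE'
    rw [mem_cl] at hE' ⊢
    obtain ⟨hoc, hin⟩ := hE'
    have hmem := hoc.mem_ctr
    obtain ⟨l0, hl0⟩ := hoc.1
    have hl0' := (hmem l0).1 hl0
    have hsame : ∀ l, l ∈ g E' ↔ nn k (I.r l - emb k (I.ctr E')) < hf ^ γ := by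
      intro l
      rw [hg]
      constructor
      · rintro ⟨l1, hl1, h1⟩
        exact nn_sub_trans_lt h1 (((hmem l1).1 hl1).trans_le (hle.trans hlt.le))
      · intro h
        refine ⟨l0, hl0, ?_⟩
        rw [nn_sub_comm] at hl0'
        exact nn_sub_trans_lt h (hl0'.trans_le (hle.trans hlt.le))
    refine ⟨⟨⟨l0, ?_⟩, I.ctr E', hsame⟩, ?_⟩
    · rw [hsame]
      exact hl0'.trans_le (hle.trans hlt.le)
    · intro l hl
      rw [hg] at hl
      obtain ⟨l1, hl1, h1⟩ := hl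
      exact nn_sub_trans h1.le (hin l1 hl1)
  rw [← Finset.sum_fiberwise_of_maps_to hmaps]
  apply Finset.sum_congr rfl
  intro E hE
  rw [mem_cl] at hE
  obtain ⟨hoc, hin⟩ := hE
  apply Finset.sum_congr _ (fun _ _ => rfl)
  ext E'
  rw [Finset.mem_filter, mem_cl, mem_cl]
  constructor
  · rintro ⟨hoc', h1⟩
    refine ⟨⟨hoc', ?_⟩, ?_⟩
    · intro l hl
      have h2 : l ∈ E := (hoc.mem_ctr l).2 ((h1 l hl).trans_lt hlt)
      exact hin l h2
    · ext l
      rw [hg]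
      constructor
      · rintro ⟨l0, hl0, h2⟩
        rw [hoc.mem_ctr]
        exact nn_sub_trans_lt h2 ((h1 l0 hl0).trans_lt hlt)
      · intro hl
        obtain ⟨l0, hl0⟩ := hoc'.1
        refine ⟨l0, hl0, ?_⟩
        have h2 := (h1 l0 hl0).trans_lt hlt
        rw [nn_sub_comm] at h2
        exact nn_sub_trans_lt ((hoc.mem_ctr l).1 hl) h2
  · rintro ⟨⟨hoc', h1⟩, h2⟩
    refine ⟨hoc', ?_⟩
    have hsub : ∀ l ∈ E', l ∈ E := by
      intro l hl
      rw [← h2, hg]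
      exact ⟨l, hl, by rw [sub_self, nn_zero]; exact pow_pos hf_pos _⟩
    obtain ⟨l0, hl0⟩ := hoc'.1
    have h3 : nn k (emb k (I.ctr E') - emb k (I.ctr E)) < hf ^ γ := by
      have h4 := (hoc'.mem_ctr l0).1 hl0
      rw [nn_sub_comm] at h4
      exact nn_sub_trans_lt (h4.trans_le (hle.trans hlt.le)) ((hoc.mem_ctr l0).1 (hsub l0 hl0))
    have h5 := rat_close h3
    intro l hl
    exact nn_sub_trans (((hoc'.mem_ctr l).1 hl).le.trans hle) h5

theorem bint_formula [IsAlgClosed k] [CharZero k] (G : (σ → ℕ) → ℤ) (M : ℕ) :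
    ∀ (q : k⟦X⟧) (γ : ℕ), Per (γ + M) (I.Φ G) →
    bint q γ M (I.Φ G) = I.gΦ G (emb k q) γ +
      ∑ j ∈ Finset.range M, ∑ E ∈ I.cl (emb k q) γ (γ + j), I.dΦ G E (γ + j) := by
  induction M with
  | zero =>
    intro q γ hper
    rw [I.bint_bottom G q γ hper]
    simp
  | succ M ih =>
    intro q γ hper
    rw [I.bint_step G q γ M hper]
    congr 1
    rw [Finset.sum_range_succ', add_zero, classes_eq]
    have h1 : ∀ E ∈ I.cl (emb k q) γ γ,
        bint (I.ctr E) (γ + 1) M (I.Φ G) - I.gΦ G (emb k q) γ =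
        (∑ j ∈ Finset.range M, ∑ E' ∈ I.cl (emb k (I.ctr E)) (γ + 1) (γ + 1 + j),
          I.dΦ G E' (γ + 1 + j)) + I.dΦ G E γ := by
      intro E hE
      rw [mem_cl] at hE
      obtain ⟨hoc, hin⟩ := hE
      rw [ih (I.ctr E) (γ + 1) (by
        have : γ + 1 + M = γ + (M + 1) := by ring
        rw [this]; exact hper)]
      have h2 : I.gΦ G (emb k q) γ = I.gΦ G (emb k (I.ctr E)) γ := by
        apply I.gΦ_congr
        obtain ⟨l0, hl0⟩ := hoc.1
        have h3 := hin l0 hl0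
        rw [nn_sub_comm] at h3
        exact nn_sub_trans h3 ((hoc.mem_ctr l0).1 hl0).le
      rw [h2]
      unfold dΦ
      ring
    rw [Finset.sum_congr rfl h1, Finset.sum_add_distrib]
    congr 1
    rw [Finset.sum_comm]
    apply Finset.sum_congr rfl
    intro j _
    rw [I.sum_classes q γ j]
    have : γ + 1 + j = γ + (j + 1) := by ring
    rw [this]

end Inst

end Pool.Agent.Helper345_Quot
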