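import Pool.Agent.Helper345_Quot.Chi

/-!
The Fubini theorem for one coordinate.
-/

noncomputable section

namespace Pool.Agent.Helper345_Quot

variable {k : Type*} [Field k]

/-- adding a coordinate -/
def opt {κ : Type} (y : κ → k) (x : k) : Option κ → k := fun o => o.elim x y

theorem opt_eta {κ : Type} (z : Option κ → k) : opt (fun i => z (some i)) (z none) = z := by
  funext o; cases o <;> rfl

/-- exactly `m` points -/
def Cnt (m : ℕ) (S : k → Prop) : Prop :=
  ∃ v : Fin m → k, Function.Injective v ∧ ∀ x, S x ↔ ∃ i, x = v i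

theorem Cnt.exists_finset {m : ℕ} {S : k → Prop} (h : Cnt m S) :
    ∃ s : Finset k, s.card = m ∧ ∀ x, S x ↔ x ∈ s := by
  classical
  obtain ⟨v, hv, h⟩ := h
  refine ⟨Finset.univ.image v, ?_, fun x => ?_⟩
  · rw [Finset.card_image_of_injective _ hv]; simp
  · rw [h]
    simp only [Finset.mem_image, Finset.mem_univ, true_and, eq_comm]

theorem cnt_of_finset {S : k → Prop} (s : Finset k) (h : ∀ x, S x ↔ x ∈ s) : Cnt s.card S := by
  refine ⟨fun i => (s.equivFin.symm i : k), ?_, fun x => ?_⟩
  · intro i j hij
    exact s.equivFin.symm.injective (Subtype.ext hij)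
  · rw [h]
    constructor
    · intro hx
      exact ⟨s.equivFin ⟨x, hx⟩, by simp⟩
    · rintro ⟨i, rfl⟩
      exact (s.equivFin.symm i).2

theorem Cnt.unique {m n : ℕ} {S : k → Prop} (h : Cnt m S) (h' : Cnt n S) : m = n := by
  obtain ⟨s, hs, h⟩ := h.exists_finset
  obtain ⟨t, ht, h'⟩ := h'.exists_finset
  have : s = t := by
    ext x; rw [← h, ← h']
  rw [← hs, ← ht, this]

theorem Cnt.not_compl [Infinite k] {m n : ℕ} {S : k → Prop} (h : Cnt m S)
    (h' : Cnt n (fun x => ¬ S x)) : False := by
  classical
  obtain ⟨s, hs, h⟩ := h.exists_finset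
  obtain ⟨t, ht, h'⟩ := h'.exists_finset
  obtain ⟨x, hx⟩ := Infinite.exists_notMem_finset (s ∪ t)
  apply hx
  rw [Finset.mem_union, ← h, ← h']
  exact em _

theorem Cnt.dfn {κ : Type} [Finite κ] (m : ℕ) {p : (Option κ → k) → Prop} (hp : Dfn p) :
    Dfn (fun y : κ → k => Cnt m (fun x => p (opt y x))) := by
  unfold Cnt
  have h1 : Dfn (fun z : κ ⊕ Fin m → k => Function.Injective (fun i => z (Sum.inr i)) ∧
      ∀ x, (p (opt (fun i => z (Sum.inl i)) x) ↔ ∃ i, x = z (Sum.inr i))) := by
    refine Dfn.and ?_ ?_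
    · have h2 : Dfn (fun z : κ ⊕ Fin m → k => ∀ i j : Fin m, z (Sum.inr i) = z (Sum.inr j) →
          i = j) := by
        refine Dfn.forall_fin fun i => Dfn.forall_fin fun j => Dfn.imp ?_ (Dfn.const _)
        exact Dfn.eq (PolyF.coord _) (PolyF.coord _)
      exact h2.congr fun z => Iff.rfl
    · refine Dfn.forall_one (p := fun z x => (p (opt (fun i => z (Sum.inl i)) x) ↔
        ∃ i, x = z (Sum.inr i))) ?_
      refine Dfn.iff ?_ ?_
      · have h3 := hp.reindex (fun o : Option κ => (o.elim none (fun i => some (Sum.inl i)) :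
          Option (κ ⊕ Fin m)))
        refine h3.congr fun z => ?_
        have : (z ∘ fun o : Option κ => (o.elim none (fun i => some (Sum.inl i)) :
          Option (κ ⊕ Fin m))) = opt (fun i => z (some (Sum.inl i))) (z none) := by
          funext o; cases o <;> rfl
        rw [this]
      · exact Dfn.exists_fin fun i => Dfn.eq (PolyF.coord _) (PolyF.coord _)
  exact h1.exists_vec

namespace EulerChar

variable (E : EulerChar k)

theorem P_cnt {m : ℕ} {S : k → Prop} (h : Cnt m S) :
    E.P (fun z : Unit → k => S (z ())) = m := by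
  classical
  obtain ⟨s, hs, h⟩ := h.exists_finset
  let e : k ↪ (Unit → k) := ⟨fun x _ => x, fun x y h => congrFun h ()⟩
  have h1 : E.P (fun z : Unit → k => S (z ())) = E.P (fun z => z ∈ s.map e) := by
    apply E.P_congr
    intro z
    rw [h, Finset.mem_map]
    constructor
    · intro hz
      exact ⟨z (), hz, funext fun _ => rfl⟩
    · rintro ⟨x, hx, rfl⟩
      exact hx
  rw [h1, E.P_finset, Finset.card_map, hs]

theorem P_cocnt {m : ℕ} {S : k → Prop} (h : Cnt m (fun x => ¬ S x)) :
    E.P (fun z : Unit → k => S (z ())) = 1 - m := by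
  classical
  obtain ⟨s, hs, h⟩ := h.exists_finset
  let e : k ↪ (Unit → k) := ⟨fun x _ => x, fun x y h => congrFun h ()⟩
  have h1 : E.P (fun z : Unit → k => S (z ())) = E.P (fun z => z ∉ s.map e) := by
    apply E.P_congr
    intro z
    rw [Finset.mem_map]
    constructor
    · rintro hz ⟨x, hx, rfl⟩
      exact (h x).2 hx hz
    · intro hz
      by_contra hS
      exact hz ⟨z (), (h _).1 hS, funext fun _ => rfl⟩
  rw [h1, E.P_cofinite, Finset.card_map, hs]

theorem eint_cnt [Infinite k] {m : ℕ} {S : k → Prop} [DecidablePred S] (h : Cnt m S) :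
    eint (fun x => if S x then (1 : ℤ) else 0) = m := by
  obtain ⟨s, hs, h⟩ := h.exists_finset
  rw [eint_eq (c := 0) s]
  · rw [zero_add, Finset.sum_congr rfl (g := fun _ => (1 : ℤ))]
    · simp [hs]
    · intro x hx
      rw [if_pos ((h x).2 hx)]
      rfl
  · intro x hx
    rw [if_neg (fun hS => hx ((h x).1 hS))]

theorem eint_cocnt [Infinite k] {m : ℕ} {S : k → Prop} [DecidablePred S]
    (h : Cnt m (fun x => ¬ S x)) :
    eint (fun x => if S x then (1 : ℤ) else 0) = 1 - m := by
  obtain ⟨s, hs, h⟩ := h.exists_finset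
  rw [eint_eq (c := 1) s]
  · rw [Finset.sum_congr rfl (g := fun _ => (-1 : ℤ))]
    · simp [hs]; ring
    · intro x hx
      rw [if_neg ((h x).2 hx)]
      rfl
  · intro x hx
    rw [if_pos]
    by_contra hS
    exact hx ((h x).1 hS)

/-- exceptional points condition -/
def Exc (B : ℕ) (f : k → ℤ) : Prop := ∃ (c : ℤ) (R : Finset k), R.card ≤ B ∧ ∀ x, x ∉ R → f x = c

theorem exc_cases {B : ℕ} {S : k → Prop} [DecidablePred S] (h : Exc B (fun x => if S x then (1 : ℤ) else 0)) :
    (∃ m ≤ B, Cnt m S) ∨ ∃ m ≤ B, Cnt m (fun x => ¬ S x) := by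
  obtain ⟨c, R, hR, hc⟩ := h
  by_cases h1 : c = 1
  · right
    let s := R.filter (fun x => ¬ S x)
    have hs : s.card ≤ B := (Finset.card_filter_le _ _).trans hR
    refine ⟨s.card, hs, cnt_of_finset s fun x => ?_⟩
    simp only [s, Finset.mem_filter]
    constructor
    · intro hx
      refine ⟨?_, hx⟩
      by_contra hxR
      have := hc x hxR
      simp only at this
      rw [if_neg hx, h1] at this
      omega
    · exact fun h => h.2
  · left
    let s := R.filter (fun x => S x)
    have hs : s.card ≤ B := (Finset.card_filter_le _ _).trans hR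
    refine ⟨s.card, hs, cnt_of_finset s fun x => ?_⟩
    simp only [s, Finset.mem_filter]
    constructor
    · intro hx
      refine ⟨?_, hx⟩
      by_contra hxR
      have := hc x hxR
      simp only at this
      rw [if_pos hx] at this
      exact h1 this.symm
    · exact fun h => h.2

theorem fubini_ind [Infinite k] {κ : Type} [Finite κ] {p : (Option κ → k) → Prop}
    [DecidablePred p] (hp : Dfn p)
    {B : ℕ} (hB : ∀ y, Exc B (fun x => if p (opt y x) then (1 : ℤ) else 0)) :
    CF (fun y : κ → k => eint (fun x => if p (opt y x) then (1 : ℤ) else 0)) ∧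
    E.int (fun y : κ → k => eint (fun x => if p (opt y x) then (1 : ℤ) else 0)) = E.P p := by
  let A : Bool × Fin (B + 1) → (κ → k) → Prop := fun j y =>
    if j.1 then Cnt j.2 (fun x => p (opt y x)) else Cnt j.2 (fun x => ¬ p (opt y x))
  let c : Bool × Fin (B + 1) → ℤ := fun j => if j.1 then (j.2 : ℤ) else 1 - (j.2 : ℤ)
  have hA : ∀ j, Dfn (A j) := by
    rintro ⟨b, m⟩
    cases b
    · exact (Cnt.dfn m hp.not).congr fun y => by simp [A]
    · exact (Cnt.dfn m hp).congr fun y => by simp [A]
  have hu : ∀ x i j, A i x → A j x → i = j := by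
    rintro y ⟨b, m⟩ ⟨b', m'⟩ h1 h2
    cases b <;> cases b' <;> simp only [A, if_true, Bool.false_eq_true, if_false] at h1 h2
    · rw [Prod.mk.injEq]; exact ⟨rfl, Fin.ext (h1.unique h2)⟩
    · exact (h2.not_compl h1).elim
    · exact (h1.not_compl h2).elim
    · rw [Prod.mk.injEq]; exact ⟨rfl, Fin.ext (h1.unique h2)⟩
  have hcov : ∀ y, ∃ j ∈ (Finset.univ : Finset (Bool × Fin (B + 1))), A j y := by
    intro y
    rcases exc_cases (hB y) with ⟨m, hm, h⟩ | ⟨m, hm, h⟩
    · exact ⟨(true, ⟨m, by omega⟩), Finset.mem_univ _, by simpa [A] using h⟩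
    · exact ⟨(false, ⟨m, by omega⟩), Finset.mem_univ _, by simpa [A] using h⟩
  have hval : ∀ j y, A j y → eint (fun x => if p (opt y x) then (1 : ℤ) else 0) = c j := by
    rintro ⟨b, m⟩ y h
    cases b
    · simp only [A, Bool.false_eq_true, if_false] at h
      rw [eint_cocnt h]
      simp [c]
    · simp only [A, if_true] at h
      rw [eint_cnt h]
      simp [c]
  have hCF : CF (fun y : κ → k => eint (fun x => if p (opt y x) then (1 : ℤ) else 0)) := by
    refine ⟨⟨Finset.univ.image c, fun y => ?_⟩, fun n => ?_⟩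
    · obtain ⟨j, _, hj⟩ := hcov y
      beta_reduce
      rw [hval j y hj]
      exact Finset.mem_image_of_mem c (Finset.mem_univ _)
    · have h1 : Dfn (fun y : κ → k => ∃ j : Bool × Fin (B + 1), c j = n ∧ A j y) :=
        Dfn.exists_fin fun j => (Dfn.const _).and (hA j)
      refine h1.congr fun y => ?_
      constructor
      · rintro ⟨j, hj, h⟩
        rw [← hj]
        exact hval j y h
      · intro h
        obtain ⟨j, _, hj⟩ := hcov y
        exact ⟨j, (hval j y hj).symm.trans h, hj⟩
  refine ⟨hCF, ?_⟩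
  rw [E.int_eq Finset.univ hA hu hCF c hcov hval]
  -- split p
  have hA' : ∀ j, Dfn (fun z : Option κ → k => A j (fun i => z (some i))) :=
    fun j => (hA j).reindex some
  rw [E.P_split (κ := Option κ) Finset.univ hA' (fun z i j h1 h2 => hu _ i j h1 h2) hp
    (fun z _ => hcov _)]
  apply Finset.sum_congr rfl
  intro j _
  -- reindex to a sum type
  let e : Option κ ≃ κ ⊕ Unit := Equiv.optionEquivSumPUnit κ
  have hq : Dfn (fun z : Option κ → k => p z ∧ A j (fun i => z (some i))) := hp.and (hA' j)
  rw [← E.P_reindex e hq]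
  have hcomp : ∀ (y : κ → k) (z : Unit → k), (Sum.elim y z : κ ⊕ Unit → k) ∘ e = opt y (z ()) := by
    intro y z
    funext o
    cases o with
    | none => simp [e, opt]
    | some i => simp [e, opt]
  have hq' : Dfn (fun z : κ ⊕ Unit → k => p (z ∘ e) ∧ A j (fun i => (z ∘ e) (some i))) :=
    hq.reindex e
  rw [E.P_fibre (c j) hq']
  · by_cases hc0 : c j = 0
    · rw [hc0, zero_mul, zero_mul]
    · congr 1
      apply E.P_congr
      intro y
      simp only [hcomp]
      constructor
      · intro hy
        obtain ⟨b, m⟩ := j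
        cases b
        · simp only [A, Bool.false_eq_true, if_false] at hy
          obtain ⟨s, hs, h⟩ := hy.exists_finset
          obtain ⟨x, hx⟩ := Infinite.exists_notMem_finset s
          refine ⟨fun _ => x, ?_, ?_⟩
          · by_contra hpx
            exact hx ((h x).1 hpx)
          · change A (false, m) y
            simp only [A, Bool.false_eq_true, if_false]
            exact ⟨_, hy.choose_spec⟩
        · have hy' := hy
          simp only [A, if_true] at hy
          obtain ⟨s, hs, h⟩ := hy.exists_finset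
          have hm : (m : ℕ) ≠ 0 := by
            intro h0
            apply hc0
            simp [c, h0]
          have hne : s.Nonempty := by
            rw [← Finset.card_pos]; omega
          obtain ⟨x, hx⟩ := hne
          exact ⟨fun _ => x, (h x).2 hx, hy'⟩
      · rintro ⟨z, -, h⟩
        exact h
  · intro y
    simp only [hcomp]
    rintro ⟨z, -, hz⟩
    have hz' : A j y := hz
    have h1 : E.P (fun z : Unit → k => p (opt y (z ())) ∧ A j (fun i => opt y (z ()) (some i))) =
        E.P (fun z : Unit → k => p (opt y (z ()))) := by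
      apply E.P_congr
      intro z
      constructor
      · exact fun h => h.1
      · exact fun h => ⟨h, hz'⟩
    rw [h1]
    obtain ⟨b, m⟩ := j
    cases b
    · simp only [A, Bool.false_eq_true, if_false] at hz'
      rw [E.P_cocnt hz']
      simp [c]
    · simp only [A, if_true] at hz'
      rw [E.P_cnt hz']
      simp [c]

theorem eint_sum [Infinite k] {J : Type*} (s : Finset J) {f : J → k → ℤ} {R : Finset k}
    {c : J → ℤ} (h : ∀ j ∈ s, ∀ x, x ∉ R → f j x = c j) :
    eint (fun x => ∑ j ∈ s, f j x) = ∑ j ∈ s, eint (f j) := by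
  rw [eint_eq (c := ∑ j ∈ s, c j) R (fun x hx => Finset.sum_congr rfl fun j hj => h j hj x hx)]
  have h1 : ∀ j ∈ s, eint (f j) = c j + ∑ x ∈ R, (f j x - c j) := fun j hj =>
    eint_eq R (h j hj)
  rw [Finset.sum_congr rfl h1, Finset.sum_add_distrib]
  congr 1
  rw [Finset.sum_comm]
  apply Finset.sum_congr rfl
  intro x _
  rw [Finset.sum_sub_distrib]

theorem fubini [Infinite k] {κ : Type} [Finite κ] {f : (Option κ → k) → ℤ} (hf : CF f)
    {B : ℕ} (hB : ∀ y, Exc B (fun x => f (opt y x))) :
    CF (fun y : κ → k => eint (fun x => f (opt y x))) ∧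
    E.int (fun y : κ → k => eint (fun x => f (opt y x))) = E.int f := by
  classical
  obtain ⟨⟨s, hs⟩, hlev⟩ := hf
  let g : ℤ → (Option κ → k) → ℤ := fun n z => if f z = n then 1 else 0
  have hfg : ∀ z, f z = ∑ n ∈ s, n * g n z := by
    intro z
    simp only [g, mul_ite, mul_one, mul_zero]
    rw [Finset.sum_ite_eq, if_pos (hs z)]
  have hexc : ∀ n y, Exc B (fun x => if f (opt y x) = n then (1 : ℤ) else 0) := by
    intro n y
    obtain ⟨c, R, hR, hc⟩ := hB y
    exact ⟨if c = n then 1 else 0, R, hR, fun x hx => by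
      have := hc x hx
      beta_reduce at this ⊢
      rw [this]⟩
  have hgn : ∀ n : ℤ, CF (fun z : Option κ → k => g n z) := fun n => CF.indicator (hlev n)
  have h1 : ∀ y : κ → k, eint (fun x => f (opt y x)) = ∑ n ∈ s, n * eint (fun x => g n (opt y x)) := by
    intro y
    obtain ⟨c, R, hR, hc⟩ := hB y
    beta_reduce at hc
    have h2 : (fun x => f (opt y x)) = fun x => ∑ n ∈ s, n * g n (opt y x) := funext fun x => hfg _
    rw [h2, eint_sum s (R := R) (c := fun n => n * (if c = n then 1 else 0))]
    · apply Finset.sum_congr rfl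
      intro n _
      have h3 : ∀ x, x ∉ R → g n (opt y x) = if c = n then 1 else 0 := by
        intro x hx
        simp only [g]
        rw [hc x hx]
      rw [eint_eq R h3, eint_eq (c := n * (if c = n then 1 else 0)) R (fun x hx => by rw [h3 x hx]),
        mul_add, Finset.mul_sum]
      congr 1
      apply Finset.sum_congr rfl
      intro x _
      ring
    · intro n _ x hx
      simp only [g]
      rw [hc x hx]
  have h2 := fun n => E.fubini_ind (hlev n) (hexc n)
  have h3 : ∀ n ∈ s, CF (fun y : κ → k => n * eint (fun x => g n (opt y x))) := by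
    intro n _
    exact (h2 n).1.map₂ (CF.const n) (fun a b => b * a)
  constructor
  · exact (CF.sum s h3).congr fun y => (h1 y).symm
  · rw [E.int_congr h1, E.int_sum s h3]
    have h4 : E.int f = E.int (fun z => ∑ n ∈ s, n * g n z) := E.int_congr hfg
    rw [h4, E.int_sum s (fun n _ => (hgn n).map₂ (CF.const n) (fun a b => b * a))]
    apply Finset.sum_congr rfl
    intro n _
    rw [E.int_smul n (h2 n).1, E.int_smul n (hgn n)]
    congr 1
    rw [(h2 n).2]
    exact (E.int_indicator (hlev n)).symm

end EulerChar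

end Pool.Agent.Helper345_Quot
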