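import Pool.Agent.Helper345_Quot.Val
import Mathlib.Algebra.MvPolynomial.Funext
import Mathlib.Algebra.MvPolynomial.Equiv

/-!
Gauss norm of multivariate polynomials over the algebraic closure of Laurent series.
-/

noncomputable section

namespace Pool.Agent.Helper345_Quot

open MvPolynomial
open scoped NNReal

variable (k : Type*) [Field k]

/-- nonnegative norm -/
def nn (u : LL k) : ℝ≥0 := ⟨nrm k u, (nrm k).nonneg u⟩

variable {k}

theorem coe_nn (u : LL k) : ((nn k u : ℝ≥0) : ℝ) = nrm k u := rfl
@[simp] theorem nn_zero : nn k 0 = 0 := by ext; simp [coe_nn]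
@[simp] theorem nn_one : nn k 1 = 1 := by ext; simp [coe_nn]
@[simp] theorem nn_mul (u v : LL k) : nn k (u * v) = nn k u * nn k v := by ext; simp [coe_nn]
theorem nn_add_le (u v : LL k) : nn k (u + v) ≤ max (nn k u) (nn k v) := nrm_nonarch k u v
theorem nn_eq_zero {u : LL k} : nn k u = 0 ↔ u = 0 := by
  constructor
  · intro h
    have : nrm k u = 0 := congrArg (fun x : ℝ≥0 => (x : ℝ)) h
    exact (nrm k).eq_zero.1 this
  · rintro rfl; simp
theorem nn_pow (u : LL k) (n : ℕ) : nn k (u ^ n) = nn k u ^ n := by ext; simp [coe_nn]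
theorem nn_inv (u : LL k) : nn k u⁻¹ = (nn k u)⁻¹ := by ext; simp [coe_nn]
theorem nn_zpow (u : LL k) (n : ℤ) : nn k (u ^ n) = nn k u ^ n := by
  ext; simp [coe_nn, map_zpow₀]
theorem nn_neg (u : LL k) : nn k (-u) = nn k u := by ext; simp [coe_nn, (nrm k).map_neg]
theorem nn_sub_le (u v : LL k) : nn k (u - v) ≤ max (nn k u) (nn k v) := by
  rw [sub_eq_add_neg, ← nn_neg v]; exact nn_add_le _ _
theorem nn_prod {ι : Type*} (s : Finset ι) (f : ι → LL k) :
    nn k (∏ i ∈ s, f i) = ∏ i ∈ s, nn k (f i) := by
  classical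
  induction s using Finset.induction_on with
  | empty => simp
  | insert a s ha ih => rw [Finset.prod_insert ha, Finset.prod_insert ha, nn_mul, ih]

theorem nn_sum_lt {ι : Type*} (s : Finset ι) (f : ι → LL k) {c : ℝ≥0} (hc : 0 < c)
    (h : ∀ i ∈ s, nn k (f i) < c) : nn k (∑ i ∈ s, f i) < c := by
  apply Finset.sum_induction _ (fun x => nn k x < c)
  · intro a b ha hb
    exact (nn_add_le a b).trans_lt (max_lt ha hb)
  · simpa using hc
  · exact h

theorem nn_sum_le {ι : Type*} (s : Finset ι) (f : ι → LL k) {c : ℝ≥0}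
    (h : ∀ i ∈ s, nn k (f i) ≤ c) : nn k (∑ i ∈ s, f i) ≤ c := by
  apply Finset.sum_induction _ (fun x => nn k x ≤ c)
  · intro a b ha hb
    exact (nn_add_le a b).trans (max_le ha hb)
  · simp
  · exact h

/-- in an ultrametric situation, adding something smaller does not change the norm -/
theorem nn_add_eq_of_lt {u v : LL k} (h : nn k v < nn k u) : nn k (u + v) = nn k u := by
  apply le_antisymm
  · exact (nn_add_le u v).trans (max_le le_rfl h.le)
  · by_contra hlt
    push Not at hlt
    have h1 : u = (u + v) - v := by ring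
    have h2 := nn_sub_le (u + v) v
    rw [← h1] at h2
    exact absurd (h2.trans_lt (max_lt hlt h)) (lt_irrefl _)

theorem nn_emb_le_one (f : PowerSeries k) : nn k (emb k f) ≤ 1 := nrm_emb_le_one k f

theorem nn_emb_C {a : k} (ha : a ≠ 0) : nn k (emb k (PowerSeries.C a)) = 1 := by
  have : nrm k (emb k (PowerSeries.C a)) = 1 :=
    nrm_emb_unit k _ ((isUnit_iff_ne_zero.2 ha).map (PowerSeries.C (R := k)))
  ext
  exact this

variable {Λ : Type*}

/-- Gauss norm -/
def gn (P : MvPolynomial Λ (LL k)) : ℝ≥0 := P.support.sup (fun α => nn k (coeff α P))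

theorem le_gn (P : MvPolynomial Λ (LL k)) (α : Λ →₀ ℕ) : nn k (coeff α P) ≤ gn P := by
  by_cases h : α ∈ P.support
  · exact Finset.le_sup (f := fun α => nn k (coeff α P)) h
  · rw [notMem_support_iff.1 h]; simp

theorem gn_le {P : MvPolynomial Λ (LL k)} {c : ℝ≥0} (h : ∀ α, nn k (coeff α P) ≤ c) :
    gn P ≤ c := Finset.sup_le fun α _ => h α

theorem gn_attained {P : MvPolynomial Λ (LL k)} (hP : P ≠ 0) :
    ∃ α, coeff α P ≠ 0 ∧ nn k (coeff α P) = gn P := by
  obtain ⟨α, hα, h⟩ := Finset.exists_mem_eq_sup P.support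
    (MvPolynomial.support_nonempty.2 hP) (fun α => nn k (coeff α P))
  exact ⟨α, mem_support_iff.1 hα, h.symm⟩

theorem gn_generic [IsAlgClosed k] {P : MvPolynomial Λ (LL k)} (hP : P ≠ 0) :
    ∃ Pbar : MvPolynomial Λ k, Pbar ≠ 0 ∧ ∀ θ : Λ → k, eval θ Pbar ≠ 0 →
      nn k (eval (fun l => emb k (PowerSeries.C (θ l))) P) = gn P := by
  classical
  obtain ⟨α₀, h0, h1⟩ := gn_attained hP
  set c := coeff α₀ P with hc
  have hcn : nn k c ≠ 0 := fun h => h0 (nn_eq_zero.1 h)
  have hres : ∀ α, ∃ a : k, nn k (coeff α P / c - emb k (PowerSeries.C a)) < 1 := by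
    intro α
    apply residue k
    have : nn k (coeff α P / c) ≤ 1 := by
      rw [div_eq_mul_inv, nn_mul, nn_inv, h1]
      have h2 := le_gn P α
      rw [h1] at hcn
      calc nn k (coeff α P) * (gn P)⁻¹ ≤ gn P * (gn P)⁻¹ := by gcongr
        _ = 1 := mul_inv_cancel₀ hcn
    exact this
  choose a ha using hres
  let Pbar : MvPolynomial Λ k := ∑ α ∈ P.support, monomial α (a α)
  have ha0 : a α₀ ≠ 0 := by
    intro h
    have := ha α₀
    rw [← hc, h, div_self h0] at this
    simp at this
  refine ⟨Pbar, ?_, ?_⟩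
  · intro h
    have : coeff α₀ Pbar = a α₀ := by
      simp only [Pbar, coeff_sum, coeff_monomial]
      rw [Finset.sum_ite_eq' P.support α₀]
      rw [if_pos (mem_support_iff.2 h0)]
    rw [h, coeff_zero] at this
    exact ha0 this.symm
  · intro θ hθ
    have hev : eval (fun l => emb k (PowerSeries.C (θ l))) P / c =
        emb k (PowerSeries.C (eval θ Pbar)) +
        ∑ α ∈ P.support, (coeff α P / c - emb k (PowerSeries.C (a α))) *
          ∏ l ∈ α.support, emb k (PowerSeries.C (θ l)) ^ α l := by
      have e1 : eval (fun l => emb k (PowerSeries.C (θ l))) P =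
        ∑ α ∈ P.support, coeff α P * ∏ l ∈ α.support, emb k (PowerSeries.C (θ l)) ^ α l :=
        eval_eq _ _
      have e2 : emb k (PowerSeries.C (eval θ Pbar)) =
        ∑ α ∈ P.support, emb k (PowerSeries.C (a α)) *
          ∏ l ∈ α.support, emb k (PowerSeries.C (θ l)) ^ α l := by
        simp only [Pbar, map_sum, eval_monomial, Finsupp.prod, map_mul, map_prod, map_pow]
      rw [e1, e2, Finset.sum_div, ← Finset.sum_add_distrib]
      apply Finset.sum_congr rfl
      intro α _
      ring
    have hlt : nn k (∑ α ∈ P.support, (coeff α P / c - emb k (PowerSeries.C (a α))) *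
          ∏ l ∈ α.support, emb k (PowerSeries.C (θ l)) ^ α l) < 1 := by
      apply nn_sum_lt _ _ one_pos
      intro α _
      rw [nn_mul]
      have h3 : nn k (∏ l ∈ α.support, emb k (PowerSeries.C (θ l)) ^ α l) ≤ 1 := by
        rw [nn_prod]
        apply Finset.prod_le_one'
        intro l _
        rw [nn_pow]
        exact pow_le_one' (nn_emb_le_one _) _
      calc _ ≤ nn k (coeff α P / c - emb k (PowerSeries.C (a α))) * 1 := by gcongr
        _ < 1 := by rw [mul_one]; exact ha α
    have h4 : nn k (eval (fun l => emb k (PowerSeries.C (θ l))) P / c) = 1 := by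
      rw [hev, nn_add_eq_of_lt]
      · exact nn_emb_C hθ
      · rw [nn_emb_C hθ]; exact hlt
    have h5 : eval (fun l => emb k (PowerSeries.C (θ l))) P =
        (eval (fun l => emb k (PowerSeries.C (θ l))) P / c) * c := by
      field_simp
    rw [h5, nn_mul, h4, one_mul, h1]

theorem gn_mul [IsAlgClosed k] (P Q : MvPolynomial Λ (LL k)) : gn (P * Q) = gn P * gn Q := by
  have : Infinite k := IsAlgClosed.instInfinite
  by_cases hP : P = 0
  · subst hP; simp [gn]
  by_cases hQ : Q = 0
  · subst hQ; simp [gn]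
  obtain ⟨p, hp0, hp⟩ := gn_generic hP
  obtain ⟨q, hq0, hq⟩ := gn_generic hQ
  obtain ⟨r, hr0, hr⟩ := gn_generic (mul_ne_zero hP hQ)
  have hne : p * q * r ≠ 0 := mul_ne_zero (mul_ne_zero hp0 hq0) hr0
  obtain ⟨θ, hθ⟩ : ∃ θ : Λ → k, eval θ (p * q * r) ≠ 0 := by
    by_contra hcon
    push Not at hcon
    exact hne (MvPolynomial.funext (fun x => by rw [hcon x, map_zero]))
  simp only [map_mul, mul_ne_zero_iff] at hθ
  rw [← hr θ hθ.2, ← hp θ hθ.1.1, ← hq θ hθ.1.2, map_mul, nn_mul]

@[simp] theorem gn_one : gn (1 : MvPolynomial Λ (LL k)) = 1 := by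
  classical
  apply le_antisymm
  · apply gn_le
    intro α
    rw [coeff_one]
    split_ifs <;> simp
  · have := le_gn (1 : MvPolynomial Λ (LL k)) 0
    simpa using this

theorem gn_prod [IsAlgClosed k] {ι : Type*} (s : Finset ι) (f : ι → MvPolynomial Λ (LL k)) :
    gn (∏ i ∈ s, f i) = ∏ i ∈ s, gn (f i) := by
  classical
  induction s using Finset.induction_on with
  | empty => simp
  | insert a s ha ih => rw [Finset.prod_insert ha, Finset.prod_insert ha, gn_mul, ih]

theorem coeff_lin [Fintype Λ] [DecidableEq Λ] (u : Λ → LL k) (α : Λ →₀ ℕ) :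
    coeff α (1 + ∑ l, X l * C (u l)) =
      (if α = 0 then 1 else 0) + ∑ l, if α = Finsupp.single l 1 then u l else 0 := by
  rw [coeff_add, coeff_one, coeff_sum]
  congr 1
  · simp only [eq_comm]
  · apply Finset.sum_congr rfl
    intro l _
    rw [mul_comm, coeff_C_mul, coeff_X]
    simp only [eq_comm (a := α)]
    split_ifs <;> simp

theorem gn_lin [Fintype Λ] (u : Λ → LL k) :
    gn (1 + ∑ l, X l * C (u l)) = 1 ⊔ Finset.univ.sup (fun l => nn k (u l)) := by
  classical
  apply le_antisymm
  · apply gn_le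
    intro α
    rw [coeff_lin]
    by_cases h0 : α = 0
    · subst h0
      have : ∀ l : Λ, (0 : Λ →₀ ℕ) ≠ Finsupp.single l 1 := by
        intro l h
        have := DFunLike.congr_fun h l
        simp at this
      simp [this]
    · rw [if_neg h0, zero_add]
      by_cases h1 : ∃ l, α = Finsupp.single l 1
      · obtain ⟨l, rfl⟩ := h1
        have : ∀ l' : Λ, (Finsupp.single l 1 : Λ →₀ ℕ) = Finsupp.single l' 1 ↔ l = l' := by
          intro l'
          constructor
          · intro h
            by_contra hne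
            have := DFunLike.congr_fun h l
            simp [Ne.symm hne] at this
          · rintro rfl; rfl
        simp only [this, Finset.sum_ite_eq, Finset.mem_univ, if_true]
        exact le_sup_of_le_right (Finset.le_sup (f := fun l => nn k (u l)) (Finset.mem_univ l))
      · push Not at h1
        simp [h1]
  · apply sup_le
    · have := le_gn (1 + ∑ l, X l * C (u l)) 0
      rw [coeff_lin] at this
      have h2 : ∀ l : Λ, (0 : Λ →₀ ℕ) ≠ Finsupp.single l 1 := by
        intro l h
        have := DFunLike.congr_fun h l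
        simp at this
      simpa [h2] using this
    · apply Finset.sup_le
      intro l _
      have := le_gn (1 + ∑ l, X l * C (u l)) (Finsupp.single l 1)
      rw [coeff_lin] at this
      have h2 : ∀ l' : Λ, (Finsupp.single l 1 : Λ →₀ ℕ) = Finsupp.single l' 1 ↔ l = l' := by
        intro l'
        constructor
        · intro h
          by_contra hne
          have := DFunLike.congr_fun h l
          simp [Ne.symm hne] at this
        · rintro rfl; rfl
      simpa [h2] using this

end Pool.Agent.Helper345_Quot
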