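import Pool.Agent.Helper345_Quot.Ord
import Mathlib.RingTheory.PowerSeries.Basic

/-!
Generating functions of semilinear sets are rational.
-/

noncomputable section

namespace Pool.Agent.Helper345_Quot

open PowerSeries

/-- rational power series -/
def IsRat (f : PowerSeries ℚ) : Prop :=
  ∃ P Q : Polynomial ℚ, Q.coeff 0 ≠ 0 ∧ f * (Q : PowerSeries ℚ) = P

theorem IsRat.add {f g : PowerSeries ℚ} (hf : IsRat f) (hg : IsRat g) : IsRat (f + g) := by
  obtain ⟨P, Q, hQ, h⟩ := hf
  obtain ⟨P', Q', hQ', h'⟩ := hg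
  refine ⟨P * Q' + P' * Q, Q * Q', by rw [Polynomial.mul_coeff_zero]; exact mul_ne_zero hQ hQ', ?_⟩
  push_cast
  rw [← h, ← h']
  ring

theorem IsRat.mul {f g : PowerSeries ℚ} (hf : IsRat f) (hg : IsRat g) : IsRat (f * g) := by
  obtain ⟨P, Q, hQ, h⟩ := hf
  obtain ⟨P', Q', hQ', h'⟩ := hg
  refine ⟨P * P', Q * Q', by rw [Polynomial.mul_coeff_zero]; exact mul_ne_zero hQ hQ', ?_⟩
  push_cast
  rw [← h, ← h']
  ring

theorem IsRat.poly (P : Polynomial ℚ) : IsRat (P : PowerSeries ℚ) :=
  ⟨P, 1, by simp, by simp⟩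

theorem IsRat.zero : IsRat 0 := by simpa using IsRat.poly 0

theorem IsRat.const (c : ℚ) : IsRat (C c) := by simpa using IsRat.poly (Polynomial.C c)

theorem IsRat.neg {f : PowerSeries ℚ} (hf : IsRat f) : IsRat (-f) := by
  have := (IsRat.const (-1)).mul hf
  simpa using this

theorem IsRat.sub {f g : PowerSeries ℚ} (hf : IsRat f) (hg : IsRat g) : IsRat (f - g) := by
  rw [sub_eq_add_neg]; exact hf.add hg.neg

theorem IsRat.sum {J : Type*} (s : Finset J) {f : J → PowerSeries ℚ}
    (h : ∀ j ∈ s, IsRat (f j)) : IsRat (∑ j ∈ s, f j) := by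
  classical
  induction s using Finset.induction_on with
  | empty => simpa using IsRat.zero
  | insert j s hj ih =>
    rw [Finset.sum_insert hj]
    exact (h j (Finset.mem_insert_self _ _)).add (ih fun i hi => h i (Finset.mem_insert_of_mem hi))

/-- cancellation of a factor with nonzero constant term -/
theorem IsRat.of_mul {f : PowerSeries ℚ} (R : Polynomial ℚ) (hR : R.coeff 0 ≠ 0)
    (h : IsRat (f * (R : PowerSeries ℚ))) : IsRat f := by
  obtain ⟨P, Q, hQ, h⟩ := h
  refine ⟨P, R * Q, by rw [Polynomial.mul_coeff_zero]; exact mul_ne_zero hR hQ, ?_⟩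
  push_cast
  rw [← h]
  ring

/-- affine weight -/
def AffW {κ : Type} [Fintype κ] (W : (κ → ℕ) → ℕ) : Prop :=
  ∃ (w₀ : ℕ) (w : κ → ℕ), ∀ u, W u = w₀ + ∑ i, w i * u i

/-- affine map -/
def Aff {κ κ' : Type} [Fintype κ'] (f : (κ' → ℕ) → (κ → ℕ)) : Prop :=
  ∀ i, ∃ (b : ℕ) (P : κ' → ℕ), ∀ v, f v i = b + ∑ t, P t * v t

theorem AffW.comp {κ κ' : Type} [Fintype κ] [Fintype κ'] {W : (κ → ℕ) → ℕ} (hW : AffW W)
    {f : (κ' → ℕ) → (κ → ℕ)} (hf : Aff f) : AffW (fun v => W (f v)) := by
  obtain ⟨w₀, w, hW⟩ := hW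
  choose b P hP using hf
  refine ⟨w₀ + ∑ i, w i * b i, fun t => ∑ i, w i * P i t, fun v => ?_⟩
  beta_reduce
  rw [hW]
  simp only [hP, mul_add, Finset.sum_add_distrib, Finset.mul_sum, Finset.sum_mul]
  rw [add_assoc]
  congr 2
  rw [Finset.sum_comm]
  apply Finset.sum_congr rfl
  intro t _
  apply Finset.sum_congr rfl
  intro i _
  ring

/-- generating function -/
def gf {κ : Type} (S : (κ → ℕ) → Prop) (W : (κ → ℕ) → ℕ) : PowerSeries ℚ :=
  PowerSeries.mk (fun n => (Nat.card {u // S u ∧ W u = n} : ℚ))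

/-- finite fibres -/
def FinF {κ : Type} (S : (κ → ℕ) → Prop) (W : (κ → ℕ) → ℕ) : Prop :=
  ∀ n, Finite {u // S u ∧ W u = n}

/-- all generating functions are rational -/
def Rat' {κ : Type} [Fintype κ] (S : (κ → ℕ) → Prop) : Prop :=
  ∀ W, AffW W → FinF S W → IsRat (gf S W)

theorem gf_congr {κ : Type} {S S' : (κ → ℕ) → Prop} {W : (κ → ℕ) → ℕ} (h : ∀ u, S u ↔ S' u) :
    gf S W = gf S' W := by
  have : S = S' := funext fun u => propext (h u)
  rw [this]

theorem Rat'.congr {κ : Type} [Fintype κ] {S S' : (κ → ℕ) → Prop} (hS : Rat' S)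
    (h : ∀ u, S u ↔ S' u) : Rat' S' := by
  have : S = S' := funext fun u => propext (h u)
  exact this ▸ hS

/-- transport along a bijection -/
theorem gf_bij {κ κ' : Type} {S : (κ → ℕ) → Prop} {W : (κ → ℕ) → ℕ} (f : (κ' → ℕ) → (κ → ℕ))
    (hf : Function.Injective f) (hS : ∀ u, S u → ∃ v, f v = u) :
    gf S W = gf (fun v => S (f v)) (fun v => W (f v)) := by
  unfold gf
  congr 1
  funext n
  congr 1
  apply Nat.card_congr
  symm
  apply Equiv.ofBijective (fun v : {v // S (f v) ∧ W (f v) = n} => ⟨f v.1, v.2⟩)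
  constructor
  · intro v v' h
    exact Subtype.ext (hf (congrArg Subtype.val h))
  · rintro ⟨u, hu1, hu2⟩
    obtain ⟨v, rfl⟩ := hS u hu1
    exact ⟨⟨v, hu1, hu2⟩, rfl⟩

theorem FinF.comp {κ κ' : Type} {S : (κ → ℕ) → Prop} {W : (κ → ℕ) → ℕ} (h : FinF S W)
    {f : (κ' → ℕ) → (κ → ℕ)} (hf : Function.Injective f) :
    FinF (fun v => S (f v)) (fun v => W (f v)) := by
  intro n
  have := h n
  exact Finite.of_injective (fun v : {v // S (f v) ∧ W (f v) = n} =>
    (⟨f v.1, v.2⟩ : {u // S u ∧ W u = n})) fun v v' h => Subtype.ext (hf (congrArg Subtype.val h))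

theorem FinF.mono {κ : Type} {S S' : (κ → ℕ) → Prop} {W : (κ → ℕ) → ℕ} (h : FinF S W)
    (hS : ∀ u, S' u → S u) : FinF S' W := by
  intro n
  have := h n
  exact Finite.of_injective (fun v : {v // S' v ∧ W v = n} =>
    (⟨v.1, hS _ v.2.1, v.2.2⟩ : {u // S u ∧ W u = n})) fun v v' h =>
      Subtype.ext (congrArg (fun z : {u // S u ∧ W u = n} => z.1) h)

theorem Rat'.of_image {κ κ' : Type} [Fintype κ] [Fintype κ'] {S : (κ → ℕ) → Prop}
    {f : (κ' → ℕ) → (κ → ℕ)} (ha : Aff f) (hf : Function.Injective f)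
    (hS : ∀ u, S u → ∃ v, f v = u) (h : Rat' (fun v => S (f v))) : Rat' S := by
  intro W hW hfin
  rw [gf_bij f hf hS]
  exact h _ (hW.comp ha) (hfin.comp hf)

theorem gf_or {κ : Type} {S S' : (κ → ℕ) → Prop} {W : (κ → ℕ) → ℕ} (h : FinF S W)
    (h' : FinF S' W) (hd : ∀ u, ¬ (S u ∧ S' u)) :
    gf (fun u => S u ∨ S' u) W = gf S W + gf S' W := by
  classical
  ext n
  simp only [gf, coeff_mk, map_add]
  have h1 := h n
  have h2 := h' n
  rw [← Nat.cast_add, ← Nat.card_sum]
  congr 1
  apply Nat.card_congr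
  refine Equiv.ofBijective (fun u => if hu : S u.1 then Sum.inl ⟨u.1, hu, u.2.2⟩ else
    Sum.inr ⟨u.1, u.2.1.resolve_left hu, u.2.2⟩) ⟨?_, ?_⟩
  · rintro ⟨u, hu⟩ ⟨v, hv⟩ huv
    simp only at huv
    apply Subtype.ext
    split_ifs at huv with h3 h4 h4
    · have h5 := congrArg Subtype.val (Sum.inl.inj huv)
      exact h5
    · have h5 := congrArg Subtype.val (Sum.inr.inj huv)
      exact h5
  · rintro (⟨u, hu, hu'⟩ | ⟨u, hu, hu'⟩)
    · exact ⟨⟨u, Or.inl hu, hu'⟩, by simp [hu]⟩
    · refine ⟨⟨u, Or.inr hu, hu'⟩, ?_⟩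
      have : ¬ S u := fun h => hd u ⟨h, hu⟩
      simp [this]

theorem Rat'.empty {κ : Type} [Fintype κ] {S : (κ → ℕ) → Prop} (h : ∀ u, ¬ S u) : Rat' S := by
  intro W _ _
  have : gf S W = 0 := by
    ext n
    simp only [gf, coeff_mk, map_zero]
    have : IsEmpty {u // S u ∧ W u = n} := ⟨fun u => h u.1 u.2.1⟩
    simp
  rw [this]
  exact IsRat.zero

theorem Rat'.or {κ : Type} [Fintype κ] {S S' : (κ → ℕ) → Prop} (h : Rat' S) (h' : Rat' S')
    (hd : ∀ u, ¬ (S u ∧ S' u)) : Rat' (fun u => S u ∨ S' u) := by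
  intro W hW hfin
  rw [gf_or (hfin.mono fun u hu => Or.inl hu) (hfin.mono fun u hu => Or.inr hu) hd]
  exact (h W hW (hfin.mono fun u hu => Or.inl hu)).add (h' W hW (hfin.mono fun u hu => Or.inr hu))

/-- splitting into finitely many pieces -/
theorem Rat'.split {κ : Type} [Fintype κ] {J : Type*} (s : Finset J) {S : (κ → ℕ) → Prop}
    {A : J → (κ → ℕ) → Prop} (hu : ∀ u i j, A i u → A j u → i = j)
    (hcov : ∀ u, S u → ∃ j ∈ s, A j u) (h : ∀ j ∈ s, Rat' (fun u => S u ∧ A j u)) : Rat' S := by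
  classical
  have key : ∀ t : Finset J, t ⊆ s → Rat' (fun u => S u ∧ ∃ j ∈ t, A j u) := by
    intro t
    induction t using Finset.induction_on with
    | empty => intro _; exact Rat'.empty fun u => by simp
    | insert j t hj ih =>
      intro hts
      have h1 := (h j (hts (Finset.mem_insert_self _ _))).or
        (ih fun i hi => hts (Finset.mem_insert_of_mem hi)) ?_
      · refine h1.congr fun u => ?_
        simp only [Finset.mem_insert, exists_eq_or_imp]
        tauto
      · rintro u ⟨⟨_, h2⟩, ⟨_, i, hi, h3⟩⟩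
        exact hj (hu u _ _ h3 h2 ▸ hi)
  refine (key s subset_rfl).congr fun u => ?_
  constructor
  · exact fun h => h.1
  · exact fun h => ⟨h, hcov u h⟩

/-! ### the full orthant -/

theorem fixing_aff {κ : Type} [Fintype κ] [DecidableEq κ] (i : κ) (x : ℕ) :
    Aff (fun (v : {j // j ≠ i} → ℕ) (j : κ) => if h : j = i then x else v ⟨j, h⟩) := by
  intro j
  by_cases h : j = i
  · exact ⟨x, fun _ => 0, fun v => by simp [h]⟩
  · refine ⟨0, Pi.single ⟨j, h⟩ 1, fun v => ?_⟩
    simp [h, Pi.single_apply]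

theorem fixing_inj {κ : Type} [DecidableEq κ] (i : κ) (x : ℕ) :
    Function.Injective (fun (v : {j // j ≠ i} → ℕ) (j : κ) => if h : j = i then x else v ⟨j, h⟩) := by
  intro v v' h
  funext ⟨j, hj⟩
  have := congrFun h j
  simpa [hj] using this

theorem fixing_surj {κ : Type} [DecidableEq κ] (i : κ) (x : ℕ) (u : κ → ℕ) (hu : u i = x) :
    ∃ v : {j // j ≠ i} → ℕ, (fun j : κ => if h : j = i then x else v ⟨j, h⟩) = u := by
  refine ⟨fun j => u j, funext fun j => ?_⟩
  by_cases h : j = i
  · subst h; simp [hu]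
  · simp [h]

theorem gf_shift {κ : Type} {S : (κ → ℕ) → Prop} {W : (κ → ℕ) → ℕ} (c : ℕ) :
    gf S (fun u => W u + c) = X ^ c * gf S W := by
  ext n
  rw [PowerSeries.coeff_X_pow_mul']
  simp only [gf, coeff_mk]
  split_ifs with h
  · congr 1
    apply Nat.card_congr
    exact Equiv.subtypeEquivRight fun u => by
      constructor
      · rintro ⟨h1, h2⟩; exact ⟨h1, by omega⟩
      · rintro ⟨h1, h2⟩; exact ⟨h1, by omega⟩
  · have : IsEmpty {u // S u ∧ W u + c = n} := ⟨fun u => by have := u.2.2; omega⟩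
    simp

theorem rat_univ (n : ℕ) : ∀ (κ : Type) [Fintype κ], Fintype.card κ = n →
    Rat' (fun _ : κ → ℕ => True) := by
  classical
  induction n with
  | zero =>
    intro κ _ hκ W hW hfin
    have : IsEmpty κ := Fintype.card_eq_zero_iff.1 hκ
    have h1 : gf (fun _ : κ → ℕ => True) W = ((Polynomial.X ^ (W (fun i => isEmptyElim i)) :
        Polynomial ℚ) : PowerSeries ℚ) := by
      ext m
      simp only [gf, coeff_mk, Polynomial.coe_pow, Polynomial.coe_X, coeff_X_pow]
      have hsub : Subsingleton (κ → ℕ) := inferInstance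
      split_ifs with hm
      · have : Unique {u : κ → ℕ // True ∧ W u = m} :=
          ⟨⟨⟨fun i => isEmptyElim i, trivial, hm.symm⟩⟩, fun u => Subtype.ext (Subsingleton.elim _ _)⟩
        rw [Nat.card_unique, Nat.cast_one]
      · have : IsEmpty {u : κ → ℕ // True ∧ W u = m} := ⟨fun u => hm (by
          rw [← u.2.2]; congr 1; exact Subsingleton.elim _ _)⟩
        rw [Nat.card_of_isEmpty, Nat.cast_zero]
    rw [h1]
    exact IsRat.poly _
  | succ n ih =>
    intro κ _ hκ W hW hfin
    have hne : Nonempty κ := by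
      rw [← Fintype.card_pos_iff, hκ]; omega
    obtain ⟨i⟩ := hne
    obtain ⟨w₀, w, hw⟩ := hW
    have hwi : w i ≠ 0 := by
      intro h0
      have h1 := hfin w₀
      have h2 : Function.Injective (fun t : ℕ => (⟨Pi.single i t, trivial, by
          rw [hw]
          rw [Finset.sum_eq_zero, add_zero]
          intro j _
          by_cases hj : j = i
          · subst hj; rw [h0, zero_mul]
          · simp [hj]⟩ : {u : κ → ℕ // True ∧ W u = w₀})) := by
        intro t t' h
        have := congrFun (congrArg Subtype.val h) i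
        simpa using this
      have := Finite.of_injective _ h2
      exact not_finite ℕ
    -- decomposition
    have hd : gf (fun _ : κ → ℕ => True) W =
        gf (fun u : κ → ℕ => u i = 0) W + gf (fun u : κ → ℕ => u i ≠ 0) W := by
      rw [← gf_or (hfin.mono fun _ _ => trivial) (hfin.mono fun _ _ => trivial)
        (by rintro u ⟨h1, h2⟩; exact h2 h1)]
      apply gf_congr
      intro u
      simp only [true_iff]
      exact em _
    have h0 : IsRat (gf (fun u : κ → ℕ => u i = 0) W) := by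
      have hr : Rat' (fun u : κ → ℕ => u i = 0) := by
        apply Rat'.of_image (fixing_aff i 0) (fixing_inj i 0) (fun u hu => fixing_surj i 0 u hu)
        have h3 := ih {j // j ≠ i} (by
          rw [Fintype.card_subtype_compl, hκ]; simp)
        refine h3.congr fun v => ?_
        simp
      exact hr W ⟨w₀, w, hw⟩ (hfin.mono fun _ _ => trivial)
    have h1 : gf (fun u : κ → ℕ => u i ≠ 0) W = X ^ (w i) * gf (fun _ : κ → ℕ => True) W := by
      rw [gf_bij (fun v : κ → ℕ => Function.update v i (v i + 1))]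
      · rw [← gf_shift]
        have h2 : (fun v : κ → ℕ => W (Function.update v i (v i + 1))) = fun v => W v + w i := by
          funext v
          rw [hw, hw, ← Finset.add_sum_erase _ _ (Finset.mem_univ i),
            ← Finset.add_sum_erase (Finset.univ) (fun j => w j * v j) (Finset.mem_univ i)]
          have h4 : ∑ j ∈ Finset.univ.erase i, w j * Function.update v i (v i + 1) j =
              ∑ j ∈ Finset.univ.erase i, w j * v j := by
            apply Finset.sum_congr rfl
            intro j hj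
            rw [Function.update_of_ne (Finset.ne_of_mem_erase hj)]
          rw [h4, Function.update_self]
          ring
        rw [h2]
        apply gf_congr
        intro v
        simp
      · intro v v' h
        funext j
        have := congrFun h j
        by_cases hj : j = i
        · subst hj; simpa using this
        · simpa [hj] using this
      · intro u hu
        refine ⟨Function.update u i (u i - 1), ?_⟩
        funext j
        by_cases hj : j = i
        · subst hj
          simp only [Function.update_self]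
          omega
        · simp [hj]
    apply IsRat.of_mul (1 - Polynomial.X ^ (w i))
    · simp [Polynomial.coeff_X_pow, Ne.symm hwi]
    · have h2 : gf (fun _ : κ → ℕ => True) W * ((1 - Polynomial.X ^ (w i) : Polynomial ℚ) :
          PowerSeries ℚ) = gf (fun u : κ → ℕ => u i = 0) W := by
        rw [h1] at hd
        simp only [Polynomial.coe_sub, Polynomial.coe_one, Polynomial.coe_pow, Polynomial.coe_X]
        linear_combination hd
      rw [h2]
      exact h0

end Pool.Agent.Helper345_Quot
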