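import Pool.Agent.Helper345_Quot.Sys
import Mathlib.Algebra.Group.Submonoid.Finsupp
import Mathlib.Algebra.Order.Antidiag.Pi

/-!
Generating functions of semilinear functions are rational.
-/

noncomputable section

namespace Pool.Agent.Helper345_Quot

open PowerSeries Pointwise

variable {ι : Type} [Fintype ι]

/-- sets presented by linear systems with unique witness -/
def LSU (S : (ι → ℕ) → Prop) : Prop :=
  ∃ (κ' : Type) (_ : Fintype κ') (L : List ((ι ⊕ κ' → ℤ) × ℤ)),
    (∀ a, S a ↔ ∃ u, Sys L (Sum.elim a u)) ∧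
    ∀ a u u', Sys L (Sum.elim a u) → Sys L (Sum.elim a u') → u = u'

theorem LSU.rat {S : (ι → ℕ) → Prop} (h : LSU S) : Rat' S := by
  obtain ⟨κ', _, L, h1, h2⟩ := h
  intro W hW hfin
  have haff : AffW (fun v : ι ⊕ κ' → ℕ => W (fun i => v (Sum.inl i))) := by
    apply hW.comp
    intro i
    classical
    refine ⟨0, Pi.single (Sum.inl i) 1, fun v => ?_⟩
    simp [Pi.single_apply]
  let e : ∀ n, {v : ι ⊕ κ' → ℕ // Sys L v ∧ W (fun i => v (Sum.inl i)) = n} ≃
      {a // S a ∧ W a = n} := fun n => Equiv.ofBijective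
    (fun v => ⟨fun i => v.1 (Sum.inl i), (h1 _).2 ⟨fun i => v.1 (Sum.inr i), by
      have : (Sum.elim (fun i => v.1 (Sum.inl i)) (fun i => v.1 (Sum.inr i))) = v.1 := by
        funext i; rcases i with i | i <;> rfl
      rw [this]; exact v.2.1⟩, v.2.2⟩) (by
    constructor
    · rintro ⟨v, hv, hv'⟩ ⟨w, hw, hw'⟩ h
      have h3 : (fun i => v (Sum.inl i)) = fun i => w (Sum.inl i) :=
        congrArg (fun z : {a // S a ∧ W a = n} => z.1) h
      have hve : (Sum.elim (fun i => v (Sum.inl i)) (fun i => v (Sum.inr i))) = v := by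
        funext i; rcases i with i | i <;> rfl
      have hwe : (Sum.elim (fun i => v (Sum.inl i)) (fun i => w (Sum.inr i))) = w := by
        funext i; rcases i with i | i
        · exact congrFun h3 i
        · rfl
      have h4 := h2 (fun i => v (Sum.inl i)) (fun i => v (Sum.inr i)) (fun i => w (Sum.inr i))
        (by rw [hve]; exact hv) (by rw [hwe]; exact hw)
      apply Subtype.ext
      change v = w
      rw [← hve, ← hwe, h4]
    · rintro ⟨a, ha, ha'⟩
      obtain ⟨u, hu⟩ := (h1 a).1 ha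
      exact ⟨⟨Sum.elim a u, hu, ha'⟩, rfl⟩)
  have h3 : gf S W = gf (Sys L) (fun v => W (fun i => v (Sum.inl i))) := by
    unfold gf
    congr 1
    funext n
    congr 1
    exact (Nat.card_congr (e n)).symm
  rw [h3]
  apply sysOK _ _ L rfl _ haff
  intro n
  have := hfin n
  exact Finite.of_equiv _ (e n).symm

theorem LSU.and {S S' : (ι → ℕ) → Prop} (h : LSU S) (h' : LSU S') : LSU (fun a => S a ∧ S' a) := by
  classical
  obtain ⟨κ, _, L, h1, h2⟩ := h
  obtain ⟨κ', _, L', h1', h2'⟩ := h'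
  have haff : ∀ {κ₁ κ₂ : Type} [Fintype κ₂] (f : κ₁ → κ₂),
      Aff (fun (v : κ₂ → ℕ) (i : κ₁) => v (f i)) := by
    intro κ₁ κ₂ _ f i
    refine ⟨0, Pi.single (f i) 1, fun v => ?_⟩
    simp [Pi.single_apply]
  let f : ι ⊕ κ → ι ⊕ (κ ⊕ κ') := Sum.map id Sum.inl
  let f' : ι ⊕ κ' → ι ⊕ (κ ⊕ κ') := Sum.map id Sum.inr
  obtain ⟨M, -, hM⟩ := Sys.pull (haff f) L
  obtain ⟨M', -, hM'⟩ := Sys.pull (haff f') L'
  have hsys : ∀ v, Sys (M ++ M') v ↔ Sys L (fun i => v (f i)) ∧ Sys L' (fun i => v (f' i)) := by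
    intro v
    rw [hM, hM']
    unfold Sys
    simp only [List.mem_append]
    constructor
    · intro h; exact ⟨fun e he => h e (Or.inl he), fun e he => h e (Or.inr he)⟩
    · rintro ⟨h, h'⟩ e (he | he)
      · exact h e he
      · exact h' e he
  have e1 : ∀ (a : ι → ℕ) (u : κ ⊕ κ' → ℕ), (fun i => (Sum.elim a u) (f i)) =
      Sum.elim a (fun i => u (Sum.inl i)) := by
    intro a u; funext i; rcases i with i | i <;> rfl
  have e2 : ∀ (a : ι → ℕ) (u : κ ⊕ κ' → ℕ), (fun i => (Sum.elim a u) (f' i)) =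
      Sum.elim a (fun i => u (Sum.inr i)) := by
    intro a u; funext i; rcases i with i | i <;> rfl
  refine ⟨κ ⊕ κ', inferInstance, M ++ M', fun a => ?_, fun a u u' => ?_⟩
  · simp only [hsys, e1, e2]
    rw [h1, h1']
    constructor
    · rintro ⟨⟨u, hu⟩, ⟨u', hu'⟩⟩
      exact ⟨Sum.elim u u', hu, hu'⟩
    · rintro ⟨u, hu, hu'⟩
      exact ⟨⟨_, hu⟩, ⟨_, hu'⟩⟩
  · simp only [hsys, e1, e2]
    rintro ⟨h3, h4⟩ ⟨h5, h6⟩
    have h7 := h2 a _ _ h3 h5
    have h8 := h2' a _ _ h4 h6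
    funext i
    rcases i with i | i
    · exact congrFun h7 i
    · exact congrFun h8 i

theorem LSU.union_rat {J : Type*} (s : Finset J) : ∀ (S : J → (ι → ℕ) → Prop), (∀ j ∈ s, LSU (S j)) →
    Rat' (fun a => ∃ j ∈ s, S j a) := by
  classical
  induction s using Finset.induction_on with
  | empty => intro S _; exact Rat'.empty fun u => by simp
  | insert j₀ s hj ih =>
    intro S hS W hW hfin
    have hS0 := hS j₀ (Finset.mem_insert_self _ _)
    have h1 := ih S (fun j hj => hS j (Finset.mem_insert_of_mem hj))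
    have h2 := ih (fun j a => S j a ∧ S j₀ a)
      (fun j hj => (hS j (Finset.mem_insert_of_mem hj)).and hS0)
    have hfinA : FinF (S j₀) W := hfin.mono fun u hu => ⟨j₀, Finset.mem_insert_self _ _, hu⟩
    have hfinB : FinF (fun a => ∃ j ∈ s, S j a) W := hfin.mono fun u hu => by
      obtain ⟨j, hj, hu⟩ := hu
      exact ⟨j, Finset.mem_insert_of_mem hj, hu⟩
    have hfinAB : FinF (fun a => ∃ j ∈ s, S j a ∧ S j₀ a) W := hfinB.mono fun u hu => by
      obtain ⟨j, hj, hu⟩ := hu
      exact ⟨j, hj, hu.1⟩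
    have hfinD : FinF (fun a => (∃ j ∈ s, S j a) ∧ ¬ S j₀ a) W := hfinB.mono fun u hu => hu.1
    have e1 : gf (fun a => ∃ j ∈ insert j₀ s, S j a) W =
        gf (S j₀) W + gf (fun a => (∃ j ∈ s, S j a) ∧ ¬ S j₀ a) W := by
      rw [← gf_or hfinA hfinD (fun u h => h.2.2 h.1)]
      apply gf_congr
      intro u
      simp only [Finset.mem_insert, exists_eq_or_imp]
      tauto
    have e2 : gf (fun a => ∃ j ∈ s, S j a) W =
        gf (fun a => ∃ j ∈ s, S j a ∧ S j₀ a) W + gf (fun a => (∃ j ∈ s, S j a) ∧ ¬ S j₀ a) W := by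
      rw [← gf_or hfinAB hfinD (fun u h => by
        obtain ⟨⟨j, hj, h3, h4⟩, h5, h6⟩ := h
        exact h6 h4)]
      apply gf_congr
      intro u
      constructor
      · rintro ⟨j, hj, h⟩
        by_cases h0 : S j₀ u
        · exact Or.inl ⟨j, hj, h, h0⟩
        · exact Or.inr ⟨⟨j, hj, h⟩, h0⟩
      · rintro (⟨j, hj, h, _⟩ | ⟨h, _⟩)
        · exact ⟨j, hj, h⟩
        · exact h
    have e3 : gf (fun a => ∃ j ∈ insert j₀ s, S j a) W =
        gf (S j₀) W + (gf (fun a => ∃ j ∈ s, S j a) W - gf (fun a => ∃ j ∈ s, S j a ∧ S j₀ a) W) := by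
      rw [e1, e2]; ring
    rw [e3]
    exact (hS0.rat W hW hfinA).add ((h1 W hW hfinB).sub (h2 W hW hfinAB))

/-- proper linear sets -/
theorem lsu_proper {s : Set (ι → ℕ)} (hs : IsProperLinearSet s) : LSU (fun a => a ∈ s) := by
  classical
  rw [isProperLinearSet_iff] at hs
  obtain ⟨a₀, t, hind, rfl⟩ := hs
  have hmem : ∀ a : ι → ℕ, a ∈ (a₀ +ᵥ (AddSubmonoid.closure (t : Set (ι → ℕ)) : Set (ι → ℕ))) ↔
      ∃ u : t → ℕ, a = a₀ + ∑ p : t, u p • (p : ι → ℕ) := by
    intro a
    rw [Set.mem_vadd_set]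
    constructor
    · rintro ⟨x, hx, rfl⟩
      rw [SetLike.mem_coe, AddSubmonoid.mem_closure_finset'] at hx
      obtain ⟨f, rfl⟩ := hx
      exact ⟨f, by rw [vadd_eq_add]⟩
    · rintro ⟨u, rfl⟩
      refine ⟨_, ?_, rfl⟩
      rw [SetLike.mem_coe, AddSubmonoid.mem_closure_finset']
      exact ⟨u, rfl⟩
  refine ⟨t, inferInstance, (Finset.univ : Finset ι).toList.map (fun i =>
    (Sum.elim (Pi.single i 1) (fun p => - ((p : ι → ℕ) i : ℤ)), (a₀ i : ℤ))), ?_, ?_⟩
  · intro a
    refine (hmem a).trans ?_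
    apply exists_congr
    intro u
    unfold Sys LinEq
    simp only [List.mem_map, Finset.mem_toList, Finset.mem_univ, true_and, forall_exists_index,
      forall_apply_eq_imp_iff, Fintype.sum_sum_type, Sum.elim_inl, Sum.elim_inr]
    rw [funext_iff]
    apply forall_congr'
    intro i
    simp only [Pi.add_apply, Finset.sum_apply, Pi.smul_apply, smul_eq_mul, Pi.single_apply,
      ite_mul, one_mul, zero_mul, Finset.sum_ite_eq', Finset.mem_univ, if_true]
    have h1 : ∑ x : t, -(((x : ι → ℕ) i : ℕ) : ℤ) * (u x : ℤ) =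
        - ((∑ p : t, u p * (p : ι → ℕ) i : ℕ) : ℤ) := by
      push_cast
      rw [← Finset.sum_neg_distrib]
      apply Finset.sum_congr rfl
      intro p _
      ring
    rw [h1]
    omega
  · intro a u u' hu hu'
    have key : ∀ u : t → ℕ, Sys ((Finset.univ : Finset ι).toList.map (fun i =>
        ((Sum.elim (Pi.single i 1) (fun p : t => - ((p : ι → ℕ) i : ℤ)) : ι ⊕ t → ℤ), (a₀ i : ℤ))))
        (Sum.elim a u) → ∀ i, a i = a₀ i + ∑ p : t, u p * (p : ι → ℕ) i := by
      intro u hu i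
      have h2 := hu _ (List.mem_map.2 ⟨i, by simp, rfl⟩)
      unfold LinEq at h2
      simp only [Fintype.sum_sum_type, Sum.elim_inl, Sum.elim_inr, Pi.single_apply,
        ite_mul, one_mul, zero_mul, Finset.sum_ite_eq', Finset.mem_univ, if_true] at h2
      have h1 : ∑ x : t, -(((x : ι → ℕ) i : ℕ) : ℤ) * (u x : ℤ) =
          - ((∑ p : t, u p * (p : ι → ℕ) i : ℕ) : ℤ) := by
        push_cast
        rw [← Finset.sum_neg_distrib]
        apply Finset.sum_congr rfl
        intro p _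
        ring
      rw [h1] at h2
      omega
    have h1 := key u hu
    have h2 := key u' hu'
    have hli : Function.Injective (Finsupp.linearCombination ℕ
        (fun x : (t : Set (ι → ℕ)) => (x : ι → ℕ))) := hind
    have h3 : Finsupp.equivFunOnFinite.symm u = Finsupp.equivFunOnFinite.symm u' := by
      apply hli
      have hlc : ∀ w : t → ℕ, Finsupp.linearCombination ℕ
          (fun x : (t : Set (ι → ℕ)) => (x : ι → ℕ)) (Finsupp.equivFunOnFinite.symm w) =
          ∑ p : t, w p • (p : ι → ℕ) := by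
        intro w
        rw [Finsupp.linearCombination_apply, Finsupp.sum_fintype _ _ (fun i => by simp)]
        rfl
      rw [hlc, hlc]
      funext i
      simp only [Finset.sum_apply, Pi.smul_apply, smul_eq_mul]
      have h4 := h1 i
      have h5 := h2 i
      have h6 : ∑ p : t, u p * (p : ι → ℕ) i = ∑ p : t, u' p * (p : ι → ℕ) i := by omega
      exact h6
    exact Finsupp.equivFunOnFinite.symm.injective h3

theorem rat_sl {S : (ι → ℕ) → Prop} (hS : SL S) : Rat' S := by
  classical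
  obtain ⟨T, hT, hT', h⟩ := IsSemilinearSet.isProperSemilinearSet hS
  have h1 := LSU.union_rat hT.toFinset (fun t a => a ∈ t) (fun t ht =>
    lsu_proper (hT' t (hT.mem_toFinset.1 ht)))
  refine h1.congr fun a => ?_
  have h2 : S a ↔ a ∈ ⋃₀ T := by
    rw [← h]; rfl
  rw [h2, Set.mem_sUnion]
  simp only [Set.Finite.mem_toFinset]

/-- the generating function of a semilinear function is rational -/
theorem rat_sz [DecidableEq ι] {Z : (ι → ℕ) → ℤ} (hZ : SZ Z) :
    IsRat (PowerSeries.mk (fun n => ((∑ a ∈ (Finset.univ : Finset ι).piAntidiag n, Z a : ℤ) : ℚ))) := by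
  classical
  obtain ⟨⟨s, hs⟩, hlev⟩ := hZ
  have hs' : ∀ a, Z a ∈ s := fun a => hs (fun i => i.elim) a
  have hW : AffW (fun a : ι → ℕ => ∑ i, a i) := ⟨0, fun _ => 1, fun u => by simp⟩
  have hcard : ∀ (S : (ι → ℕ) → Prop) n, Nat.card {a // S a ∧ ∑ i, a i = n} =
      (((Finset.univ : Finset ι).piAntidiag n).filter S).card := by
    intro S n
    apply Nat.subtype_card
    intro a
    rw [Finset.mem_filter, Finset.mem_piAntidiag]
    constructor
    · rintro ⟨⟨h1, _⟩, h2⟩
      exact ⟨h2, h1⟩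
    · rintro ⟨h1, h2⟩
      exact ⟨⟨h2, fun _ _ => Finset.mem_univ _⟩, h1⟩
  have hfin : ∀ (S : (ι → ℕ) → Prop), FinF S (fun a => ∑ i, a i) := by
    intro S n
    apply Set.Finite.subset (s := (((Finset.univ : Finset ι).piAntidiag n : Finset (ι → ℕ)) :
      Set (ι → ℕ))) (Finset.finite_toSet _)
    rintro a ⟨_, h2⟩
    rw [Finset.mem_coe, Finset.mem_piAntidiag]
    exact ⟨h2, fun _ _ => Finset.mem_univ _⟩
  have hmain : PowerSeries.mk (fun n => ((∑ a ∈ (Finset.univ : Finset ι).piAntidiag n, Z a : ℤ) : ℚ)) =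
      ∑ c ∈ s, C (c : ℚ) * gf (fun a => Z a = c) (fun a => ∑ i, a i) := by
    ext n
    rw [coeff_mk, map_sum]
    have h1 : ∀ c ∈ s, coeff n (C (c : ℚ) * gf (fun a => Z a = c) (fun a => ∑ i, a i)) =
        (((∑ a ∈ (Finset.univ : Finset ι).piAntidiag n, if Z a = c then c else 0 : ℤ)) : ℚ) := by
      intro c _
      rw [coeff_C_mul, gf, coeff_mk, hcard, ← Finset.sum_filter, Finset.sum_const]
      rw [nsmul_eq_mul]
      push_cast
      rw [mul_comm]
      congr!
    rw [Finset.sum_congr rfl h1, ← Int.cast_sum, Finset.sum_comm]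
    congr 1
    apply Finset.sum_congr rfl
    intro a _
    rw [Finset.sum_ite_eq, if_pos (hs' a)]
  rw [hmain]
  apply IsRat.sum
  intro c _
  exact (IsRat.const _).mul (rat_sl (SP.sl (hlev c)) _ hW (hfin _))

end Pool.Agent.Helper345_Quot
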