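import Pool.Agent.Helper345_Quot.SPar

/-!
From affine open sets to schemes.
-/

noncomputable section

namespace Pool.Agent.Helper345_Quot

universe u

open AlgebraicGeometry CategoryTheory TopologicalSpace Opposite

attribute [local instance] algSec algStk modSec modStk

variable {k : Type u} [Field k] {X : Scheme.{u}} [X.Over (Spec (.of k))] {G : X.Modules}
  [G.IsQuasicoherent]

/-! ### more on subsheaves of finite colength -/

section more

theorem dimAt_cutOff {N : SubM G} (hN : FinCo k N) (C : Set X) :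
    lenOn k (cutOff C N) Set.univ = lenOn k N C := by
  rw [hN.lenOn_cutOff, Set.inter_univ]

theorem FinCo.lenOn_compl {N : SubM G} (hN : FinCo k N) (C : Set X) :
    lenOn k N C + lenOn k N Cᶜ = lenOn k N Set.univ := by
  rw [← hN.lenOn_union disjoint_compl_right, Set.union_compl_self]

open Classical in
/-- gluing of subsheaves supported in disjoint sets -/
def comb (C D : Set X) (N₁ N₂ : SubM G) : SubM G :=
  ofStk (fun x => if x ∈ C then N₁.stk x else if x ∈ D then N₂.stk x else ⊤)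

variable {N₁ N₂ : SubM G} {C D : Set X}

open Classical in
theorem combFam (h₁ : FinCo k N₁) (h₂ : FinCo k N₂) (C D : Set X) :
    FinFam k (fun x => if x ∈ C then N₁.stk x else if x ∈ D then N₂.stk x else ⊤) where
  fin := by
    intro x
    have h0 : Module.Finite k (Stk G x ⧸ (⊤ : Submodule (X.presheaf.stalk x) (Stk G x))) := by
      have : Subsingleton (Stk G x ⧸ (⊤ : Submodule (X.presheaf.stalk x) (Stk G x))) :=
        Submodule.Quotient.subsingleton_iff.2 rfl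
      exact Module.Finite.of_finite
    by_cases hC : x ∈ C
    · rw [if_pos hC]; exact h₁.fin x
    · by_cases hD : x ∈ D
      · rw [if_neg hC, if_pos hD]; exact h₂.fin x
      · rw [if_neg hC, if_neg hD]; exact h0
  supp := by
    apply (h₁.supp.union h₂.supp).subset
    intro x hx
    rw [Set.mem_ofPred_eq] at hx
    split_ifs at hx
    · exact Or.inl hx
    · exact Or.inr hx
    · exact absurd rfl hx

theorem comb_stk_left (h₁ : FinCo k N₁) (h₂ : FinCo k N₂) {x : X} (hx : x ∈ C) :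
    (comb C D N₁ N₂).stk x = N₁.stk x := by
  unfold comb
  rw [(combFam h₁ h₂ C D).stk, if_pos hx]

theorem comb_stk_right (h₁ : FinCo k N₁) (h₂ : FinCo k N₂) {x : X} (hx : x ∉ C) (hx' : x ∈ D) :
    (comb C D N₁ N₂).stk x = N₂.stk x := by
  unfold comb
  rw [(combFam h₁ h₂ C D).stk, if_neg hx, if_pos hx']

theorem comb_stk_out (h₁ : FinCo k N₁) (h₂ : FinCo k N₂) {x : X} (hx : x ∉ C) (hx' : x ∉ D) :
    (comb C D N₁ N₂).stk x = ⊤ := by
  unfold comb
  rw [(combFam h₁ h₂ C D).stk, if_neg hx, if_neg hx']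

theorem comb_finCo (h₁ : FinCo k N₁) (h₂ : FinCo k N₂) (C D : Set X) :
    FinCo k (comb C D N₁ N₂) := (combFam h₁ h₂ C D).finCo

theorem lenOn_comb_left (h₁ : FinCo k N₁) (h₂ : FinCo k N₂) (C D : Set X) :
    lenOn k (comb C D N₁ N₂) C = lenOn k N₁ C :=
  lenOn_congr fun _ hx => comb_stk_left h₁ h₂ hx

theorem lenOn_comb_right (h₁ : FinCo k N₁) (h₂ : FinCo k N₂) (hCD : Disjoint C D) :
    lenOn k (comb C D N₁ N₂) D = lenOn k N₂ D :=
  lenOn_congr fun _ hx => comb_stk_right h₁ h₂ (fun h => Set.disjoint_left.1 hCD h hx) hx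

theorem lenOn_comb_out (h₁ : FinCo k N₁) (h₂ : FinCo k N₂) (C D : Set X) :
    lenOn k (comb C D N₁ N₂) (C ∪ D)ᶜ = 0 := by
  rw [(comb_finCo h₁ h₂ C D).lenOn_eq_zero_iff]
  intro x hx
  rw [Set.mem_compl_iff, Set.mem_union, not_or] at hx
  exact comb_stk_out h₁ h₂ hx.1 hx.2

end more

/-! ### the product formula -/

section product

variable [LocallyOfFiniteType (X ↘ Spec (.of k))]
  (hfin : ∀ U : X.Opens, IsAffineOpen U → Module.Finite Γ(X, U) Γ(G, U))
  (P : ∀ n, SParam k G (QC k G n)) (E : EulerChar k)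
  {ι : Type} [Finite ι] (U : ι → X.Opens) (hU : ∀ i, IsAffineOpen (U i))
  (hc : ∀ x, ∃ i, x ∈ U i)

/-- Euler characteristic of the subsheaves supported in `C` -/
def zC (C : Set X) (n : ℕ) : ℤ :=
  E.P (fun x : (P n).κ → k => x ∈ (P n).S ∧ lenOn k ((P n).φ x) C = n)

/-- generating series -/
def ZC (C : Set X) : PowerSeries ℚ := PowerSeries.mk fun n => (zC P E C n : ℚ)

include hfin hU hc in
theorem level_prod {C D : Set X} (hCD : Disjoint C D) (hC : Meas P C) (hD : Meas P D) (i j : ℕ) :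
    E.P (fun x : (P (i + j)).κ → k => x ∈ (P (i + j)).S ∧ lenOn k ((P (i + j)).φ x) C = i ∧
      lenOn k ((P (i + j)).φ x) D = j) = zC P E C i * zC P E D j := by
  classical
  unfold zC
  have hn := hC (i + j) i
  have hm := hD (i + j) j
  rw [← E.P_prod (hC i i) (hD j j)]
  let κ₀ := (P (i + j)).κ ⊕ ((P i).κ ⊕ (P j).κ)
  have h1 := dfn_le' P U hU hc hfin (κ' := κ₀) (n := i + j) (m := i) Sum.inl (Sum.inr ∘ Sum.inl)
  have h2 := dfn_le' P U hU hc hfin (κ' := κ₀) (n := i + j) (m := j) Sum.inl (Sum.inr ∘ Sum.inr)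
  have h3 := (hC.reindex (i + j) i (κ' := κ₀) Sum.inl).and
    (hD.reindex (i + j) j (κ' := κ₀) Sum.inl)
  have h4 := (hC.reindex i i (κ' := κ₀) (Sum.inr ∘ Sum.inl)).and
    (hD.reindex j j (κ' := κ₀) (Sum.inr ∘ Sum.inr))
  have hR : Dfn (fun z : κ₀ → k => (z ∘ Sum.inl ∈ (P (i + j)).S ∧
      lenOn k ((P (i + j)).φ (z ∘ Sum.inl)) C = i ∧
      lenOn k ((P (i + j)).φ (z ∘ Sum.inl)) D = j) ∧
      ((z ∘ Sum.inr ∘ Sum.inl ∈ (P i).S ∧ lenOn k ((P i).φ (z ∘ Sum.inr ∘ Sum.inl)) C = i) ∧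
      (z ∘ Sum.inr ∘ Sum.inr ∈ (P j).S ∧ lenOn k ((P j).φ (z ∘ Sum.inr ∘ Sum.inr)) D = j)) ∧
      (P (i + j)).φ (z ∘ Sum.inl) ≤ (P i).φ (z ∘ Sum.inr ∘ Sum.inl) ∧
      (P (i + j)).φ (z ∘ Sum.inl) ≤ (P j).φ (z ∘ Sum.inr ∘ Sum.inr)) := by
    refine (h1.and (h2.and (h3.and h4))).congr fun z => ?_
    constructor
    · rintro ⟨⟨a1, a2, a3⟩, ⟨a4, a5, a6⟩, ⟨⟨a7, a8⟩, a9, a10⟩, a11, a12⟩
      exact ⟨⟨a1, a8, a10⟩, ⟨a11, a12⟩, a3, a6⟩
    · rintro ⟨⟨a1, a8, a10⟩, ⟨a11, a12⟩, a3, a6⟩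
      exact ⟨⟨a1, a11.1, a3⟩, ⟨a1, a12.1, a6⟩, ⟨⟨a1, a8⟩, a1, a10⟩, a11, a12⟩
  -- the relation forces the truncations
  have key : ∀ {m : ℕ} {A : Set X} {x : (P (i + j)).κ → k} {y : (P m).κ → k},
      x ∈ (P (i + j)).S → lenOn k ((P (i + j)).φ x) A = m → y ∈ (P m).S →
      lenOn k ((P m).φ y) A = m → (P (i + j)).φ x ≤ (P m).φ y →
      (P m).φ y = cutOff A ((P (i + j)).φ x) := by
    intro m A x y hx hxA hy hyA hle
    have hNx := (P (i + j)).maps hx
    have hNy := (P m).maps hy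
    apply hNx.1.eq_cutOff hNy.1 hle
    · have h5 := hNy.1.lenOn_compl A
      rw [hNy.2, hyA] at h5
      omega
    · rw [hyA, hxA]
  apply E.P_bij hR
  · rintro x y ⟨a1, a2, a3⟩
    exact ⟨a1, a2⟩
  · rintro x ⟨hx, hxC, hxD⟩
    have hN := (P (i + j)).maps hx
    have h5 : cutOff C ((P (i + j)).φ x) ∈ QC k G i :=
      ⟨hN.1.cutOff C, by rw [dimAt_cutOff hN.1, hxC]⟩
    have h6 : cutOff D ((P (i + j)).φ x) ∈ QC k G j :=
      ⟨hN.1.cutOff D, by rw [dimAt_cutOff hN.1, hxD]⟩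
    obtain ⟨y₁, hy₁, hy₁'⟩ := (P i).surj h5
    obtain ⟨y₂, hy₂, hy₂'⟩ := (P j).surj h6
    refine ⟨Sum.elim y₁ y₂, ⟨⟨hx, hxC, hxD⟩, ⟨⟨hy₁, ?_⟩, ⟨hy₂, ?_⟩⟩, ?_, ?_⟩, ?_⟩
    · change lenOn k ((P i).φ y₁) C = i
      rw [hy₁', hN.1.lenOn_cutOff, Set.inter_self, hxC]
    · change lenOn k ((P j).φ y₂) D = j
      rw [hy₂', hN.1.lenOn_cutOff, Set.inter_self, hxD]
    · change (P (i + j)).φ x ≤ (P i).φ y₁
      rw [hy₁']; exact hN.1.le_cutOff C
    · change (P (i + j)).φ x ≤ (P j).φ y₂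
      rw [hy₂']; exact hN.1.le_cutOff D
    · rintro y ⟨-, ⟨⟨b1, b2⟩, b3, b4⟩, b5, b6⟩
      have b7 : (P i).φ (y ∘ Sum.inl) = cutOff C ((P (i + j)).φ x) := key hx hxC b1 b2 b5
      have b8 : (P j).φ (y ∘ Sum.inr) = cutOff D ((P (i + j)).φ x) := key hx hxD b3 b4 b6
      have b9 : y ∘ Sum.inl = y₁ := (P i).inj b1 hy₁ (b7.trans hy₁'.symm)
      have b10 : y ∘ Sum.inr = y₂ := (P j).inj b3 hy₂ (b8.trans hy₂'.symm)
      rw [← b9, ← b10, Sum.elim_comp_inl_inr]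
  · rintro y ⟨⟨hy₁, hy₁C⟩, hy₂, hy₂D⟩
    have hN₁ := (P i).maps hy₁
    have hN₂ := (P j).maps hy₂
    have hN := comb_finCo hN₁.1 hN₂.1 C D
    have hlC : lenOn k (comb C D ((P i).φ (y ∘ Sum.inl)) ((P j).φ (y ∘ Sum.inr))) C = i := by
      rw [lenOn_comb_left hN₁.1 hN₂.1]; exact hy₁C
    have hlD : lenOn k (comb C D ((P i).φ (y ∘ Sum.inl)) ((P j).φ (y ∘ Sum.inr))) D = j := by
      rw [lenOn_comb_right hN₁.1 hN₂.1 hCD]; exact hy₂D
    have htot : comb C D ((P i).φ (y ∘ Sum.inl)) ((P j).φ (y ∘ Sum.inr)) ∈ QC k G (i + j) := by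
      refine ⟨hN, ?_⟩
      rw [← hN.lenOn_compl (C ∪ D), hN.lenOn_union hCD, lenOn_comb_out hN₁.1 hN₂.1, hlC, hlD,
        add_zero]
    obtain ⟨x, hx, hx'⟩ := (P (i + j)).surj htot
    have hout : ∀ {m : ℕ} {A : Set X} {N : SubM G}, N ∈ QC k G m → lenOn k N A = m →
        ∀ z, z ∉ A → N.stk z = ⊤ := by
      intro m A N hN hNA z hz
      have h5 := hN.1.lenOn_compl A
      rw [hN.2, hNA] at h5
      have h6 : lenOn k N Aᶜ = 0 := by omega
      exact hN.1.lenOn_eq_zero_iff.1 h6 z hz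
    refine ⟨x, ⟨⟨hx, ?_, ?_⟩, ⟨⟨hy₁, hy₁C⟩, hy₂, hy₂D⟩, ?_, ?_⟩, ?_⟩
    · change lenOn k ((P (i + j)).φ x) C = i
      rw [hx', hlC]
    · change lenOn k ((P (i + j)).φ x) D = j
      rw [hx', hlD]
    · change (P (i + j)).φ x ≤ (P i).φ (y ∘ Sum.inl)
      rw [hx', hN.loc.le_iff hN₁.1.loc]
      intro z
      by_cases hz : z ∈ C
      · rw [comb_stk_left hN₁.1 hN₂.1 hz]
      · rw [hout hN₁ hy₁C z hz]; exact le_top
    · change (P (i + j)).φ x ≤ (P j).φ (y ∘ Sum.inr)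
      rw [hx', hN.loc.le_iff hN₂.1.loc]
      intro z
      by_cases hz : z ∈ D
      · rw [comb_stk_right hN₁.1 hN₂.1 (fun h => Set.disjoint_left.1 hCD h hz) hz]
      · rw [hout hN₂ hy₂D z hz]; exact le_top
    · rintro x₂ ⟨⟨b1, b2, b3⟩, -, b5, b6⟩
      have b1' : x₂ ∈ (P (i + j)).S := b1
      have b2' : lenOn k ((P (i + j)).φ x₂) C = i := b2
      have b3' : lenOn k ((P (i + j)).φ x₂) D = j := b3
      have b7 : (P i).φ (y ∘ Sum.inl) = cutOff C ((P (i + j)).φ x₂) := key b1' b2' hy₁ hy₁C b5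
      have b8 : (P j).φ (y ∘ Sum.inr) = cutOff D ((P (i + j)).φ x₂) := key b1' b3' hy₂ hy₂D b6
      have hM := (P (i + j)).maps b1'
      apply (P (i + j)).inj b1' hx
      rw [hx']
      apply SubM.ext_stk hM.1.loc hN.loc
      intro z
      by_cases hz : z ∈ C
      · rw [comb_stk_left hN₁.1 hN₂.1 hz, b7, hM.1.cutOff_stk_of_mem hz]
      · by_cases hz' : z ∈ D
        · rw [comb_stk_right hN₁.1 hN₂.1 hz hz', b8, hM.1.cutOff_stk_of_mem hz']
        · rw [comb_stk_out hN₁.1 hN₂.1 hz hz']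
          apply hout hM (A := C ∪ D) _ z (fun h => h.elim hz hz')
          rw [hM.1.lenOn_union hCD, b2', b3']

include hfin hU hc in
theorem zC_union {C D : Set X} (hCD : Disjoint C D) (hC : Meas P C) (hD : Meas P D) (n : ℕ) :
    zC P E (C ∪ D) n =
      ∑ p ∈ Finset.HasAntidiagonal.antidiagonal n, zC P E C p.1 * zC P E D p.2 := by
  classical
  unfold zC
  rw [E.P_split (Finset.HasAntidiagonal.antidiagonal n)
    (A := fun p x => x ∈ (P n).S ∧ lenOn k ((P n).φ x) C = p.1 ∧ lenOn k ((P n).φ x) D = p.2)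
    (fun p => by
      refine ((hC n p.1).and (hD n p.2)).congr fun x => ?_
      constructor
      · rintro ⟨⟨h1, h2⟩, -, h3⟩
        exact ⟨h1, h2, h3⟩
      · rintro ⟨h1, h2, h3⟩
        exact ⟨⟨h1, h2⟩, h1, h3⟩)
    (fun x i j h1 h2 => Prod.ext (h1.2.1.symm.trans h2.2.1) (h1.2.2.symm.trans h2.2.2))
    ((hC.union_disj hD hCD) n n)]
  · apply Finset.sum_congr rfl
    rintro ⟨i, j⟩ hp
    rw [Finset.HasAntidiagonal.mem_antidiagonal] at hp
    simp only at hp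
    subst hp
    have h1 := level_prod hfin P E U hU hc hCD hC hD i j
    unfold zC at h1
    rw [← h1]
    apply E.P_congr
    intro x
    constructor
    · exact fun h => h.2
    · intro h
      refine ⟨⟨h.1, ?_⟩, h⟩
      rw [((P (i + j)).maps h.1).1.lenOn_union hCD, h.2.1, h.2.2]
  · rintro x ⟨hx, hx'⟩
    rw [((P n).maps hx).1.lenOn_union hCD] at hx'
    exact ⟨(lenOn k ((P n).φ x) C, lenOn k ((P n).φ x) D),
      Finset.HasAntidiagonal.mem_antidiagonal.2 hx', hx, rfl, rfl⟩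

include hfin hU hc in
theorem ZC_union {C D : Set X} (hCD : Disjoint C D) (hC : Meas P C) (hD : Meas P D) :
    ZC P E (C ∪ D) = ZC P E C * ZC P E D := by
  ext n
  rw [PowerSeries.coeff_mul]
  unfold ZC
  simp only [PowerSeries.coeff_mk]
  rw [zC_union hfin P E U hU hc hCD hC hD n]
  push_cast
  rfl

/-- the whole sheaf as a subsheaf -/
def topM (G : X.Modules) : SubM G := ofStk (fun _ => ⊤)

theorem topM_fam : FinFam k (fun x : X => (⊤ : Submodule (X.presheaf.stalk x) (Stk G x))) where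
  fin := by
    intro x
    have : Subsingleton (Stk G x ⧸ (⊤ : Submodule (X.presheaf.stalk x) (Stk G x))) :=
      Submodule.Quotient.subsingleton_iff.2 rfl
    exact Module.Finite.of_finite
  supp := by simp

theorem ZC_one (C : Set X) : One1 (ZC P E C) := by
  unfold One1 ZC zC
  rw [← PowerSeries.coeff_zero_eq_constantCoeff_apply, PowerSeries.coeff_mk]
  have htop : topM G ∈ QC k G 0 := by
    have h : FinCo k (topM G) := topM_fam.finCo
    refine ⟨h, ?_⟩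
    rw [h.lenOn_eq_zero_iff]
    intro x _
    exact topM_fam.stk (k := k) x
  obtain ⟨x, hx, hx'⟩ := (P 0).surj htop
  have h0 : ∀ y ∈ (P 0).S, lenOn k ((P 0).φ y) C = 0 := by
    intro y hy
    have := QC.len_le ((P 0).maps hy) C
    omega
  have h1 : E.P (fun y : (P 0).κ → k => y ∈ (P 0).S ∧ lenOn k ((P 0).φ y) C = 0) = 1 := by
    apply E.P_unique
    refine ⟨x, ⟨hx, h0 x hx⟩, ?_⟩
    rintro y ⟨hy, -⟩
    apply (P 0).inj hy hx
    have h2 := (P 0).maps hy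
    have h3 := (P 0).maps hx
    apply SubM.ext_stk h2.1.loc h3.1.loc
    intro z
    rw [h2.1.lenOn_eq_zero_iff.1 h2.2 z trivial, h3.1.lenOn_eq_zero_iff.1 h3.2 z trivial]
  rw [h1]
  simp

/-- sets with definable length functions and rational series -/
def GoodSet (C : Set X) : Prop := Meas P C ∧ IsRat (ZC P E C)

include hfin hU hc in
theorem GoodSet.union {C D : Set X} (hC : GoodSet P E C) (hD : GoodSet P E D) (hI : GoodSet P E (C ∩ D)) :
    GoodSet P E (C ∪ D) := by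
  have hd : Disjoint C (D \ C) := Set.disjoint_sdiff_right
  have hCD : C ∪ D = C ∪ (D \ C) := (Set.union_sdiff_self).symm
  have hmd : Meas P (D \ C) := by
    have h1 : D \ C = D \ (C ∩ D) := by
      ext x; simp
    rw [h1]
    exact hD.1.diff hI.1 Set.inter_subset_right
  have hdD : Disjoint (C ∩ D) (D \ C) := by
    rw [Set.disjoint_left]
    rintro x ⟨h1, _⟩ ⟨_, h2⟩
    exact h2 h1
  have hDd : D = (C ∩ D) ∪ (D \ C) := by
    rw [Set.inter_comm]; exact (Set.inter_union_sdiff D C).symm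
  have hZD : ZC P E D = ZC P E (C ∩ D) * ZC P E (D \ C) := by
    rw [← ZC_union hfin P E U hU hc hdD hI.1 hmd, ← hDd]
  have hrat : IsRat (ZC P E (D \ C)) := by
    have h1 : ZC P E (D \ C) = ZC P E D * (ZC P E (C ∩ D))⁻¹ := by
      rw [hZD, mul_comm (ZC P E (C ∩ D)), mul_assoc, PowerSeries.mul_inv_cancel _
        (ZC_one P E (C ∩ D)).ne, mul_one]
    rw [h1]
    exact hD.2.mul (hI.2.inv (ZC_one P E _))
  rw [hCD]
  refine ⟨hC.1.union_disj hmd hd, ?_⟩
  rw [ZC_union hfin P E U hU hc hd hC.1 hmd]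
  exact hC.2.mul hrat

end product

end Pool.Agent.Helper345_Quot
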