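import Mathlib.LinearAlgebra.Matrix.Adjugate
import Mathlib.LinearAlgebra.Matrix.ToLin
import Mathlib.RingTheory.Polynomial.Basic
import Mathlib.LinearAlgebra.Dimension.Constructions
import Mathlib.LinearAlgebra.Matrix.Block
import Mathlib.Algebra.Polynomial.FieldDivision
import Mathlib.Tactic

/-!
Hermite normal forms over a polynomial ring in one variable, at the origin.
-/

noncomputable section

namespace Pool.Agent.Helper345_Quot

open Polynomial

variable {k : Type*} [Field k] {r : ℕ}

/-- upper triangular with powers of the variable on the diagonal -/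
def UT (a : Fin r → ℕ) (B : Fin r → Fin r → k[X]) : Prop :=
  (∀ i, B i i = X ^ a i) ∧ ∀ i j, j < i → B i j = 0

/-- the lattice spanned by the rows -/
def rowL (B : Fin r → Fin r → k[X]) : Submodule k[X] (Fin r → k[X]) :=
  Submodule.span k[X] (Set.range B)

theorem mem_rowL {B : Fin r → Fin r → k[X]} {v : Fin r → k[X]} :
    v ∈ rowL B ↔ ∃ c : Fin r → k[X], v = ∑ i, c i • B i := by
  unfold rowL
  rw [Submodule.mem_span_range_iff_exists_fun]
  simp only [eq_comm]

/-- components of a combination -/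
theorem comb_apply (B : Fin r → Fin r → k[X]) (c : Fin r → k[X]) (j : Fin r) :
    (∑ i, c i • B i) j = ∑ i, c i * B i j := by
  rw [Finset.sum_apply]
  rfl

theorem comb_ut {a : Fin r → ℕ} {B : Fin r → Fin r → k[X]} (hB : UT a B) (c : Fin r → k[X])
    (j : Fin r) (h : ∀ i, i < j → c i = 0) : (∑ i, c i • B i) j = c j * X ^ a j := by
  rw [comb_apply, Finset.sum_eq_single j]
  · rw [hB.1]
  · intro i _ hij
    rcases lt_or_gt_of_ne hij with h1 | h1
    · rw [h i h1, zero_mul]
    · rw [hB.2 i j h1, mul_zero]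
  · intro h; exact absurd (Finset.mem_univ j) h

/-- division with remainder -/
theorem ut_div {a : Fin r → ℕ} {B : Fin r → Fin r → k[X]} (hB : UT a B) (v : Fin r → k[X])
    (i₀ : ℕ) (t : ℕ) : ∃ c : Fin r → k[X], (∀ l : Fin r, (l : ℕ) < i₀ → c l = 0) ∧
      ∀ j : Fin r, i₀ ≤ j → (j : ℕ) < t → degree ((v - ∑ i, c i • B i) j) < a j := by
  induction t with
  | zero => exact ⟨0, fun _ _ => rfl, fun j _ h => absurd h (Nat.not_lt_zero _)⟩
  | succ t ih =>
    obtain ⟨c, hc0, hc⟩ := ih
    by_cases ht : t < r ∧ i₀ ≤ t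
    · let j₀ : Fin r := ⟨t, ht.1⟩
      set w := v - ∑ i, c i • B i with hw
      refine ⟨c + Pi.single j₀ (w j₀ /ₘ X ^ a j₀), ?_, ?_⟩
      · intro l hl
        have : l ≠ j₀ := by
          intro h; rw [h] at hl; simp only [j₀] at hl; omega
        simp [hc0 l hl, this]
      · intro j hj hjt
        have h1 : v - ∑ i, (c + Pi.single j₀ (w j₀ /ₘ X ^ a j₀) : Fin r → k[X]) i • B i =
            w - (w j₀ /ₘ X ^ a j₀) • B j₀ := by
          have h2 : ∑ i, (c + Pi.single j₀ (w j₀ /ₘ X ^ a j₀) : Fin r → k[X]) i • B i =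
              ∑ i, c i • B i + (w j₀ /ₘ X ^ a j₀) • B j₀ := by
            simp only [Pi.add_apply, add_smul, Finset.sum_add_distrib]
            congr 1
            rw [Finset.sum_eq_single j₀]
            · simp
            · intro i _ hi; simp [hi]
            · intro h; exact absurd (Finset.mem_univ _) h
          rw [h2, hw]
          abel
        rw [h1]
        rcases Nat.lt_succ_iff_lt_or_eq.1 hjt with h2 | h2
        · have h3 : j < j₀ := h2
          rw [Pi.sub_apply, Pi.smul_apply, hB.2 j₀ j h3, smul_zero, sub_zero]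
          exact hc j hj h2
        · have h3 : j = j₀ := Fin.ext h2
          subst h3
          rw [Pi.sub_apply, Pi.smul_apply, hB.1, smul_eq_mul]
          have h4 := Polynomial.modByMonic_add_div (w j₀) (X ^ a j₀ : k[X])
          have h5 : w j₀ - w j₀ /ₘ X ^ a j₀ * X ^ a j₀ = w j₀ %ₘ X ^ a j₀ := by
            linear_combination (-1 : k[X]) * h4
          rw [h5]
          have h6 := Polynomial.degree_modByMonic_lt (w j₀) (monic_X_pow (R := k) (a j₀))
          rwa [degree_X_pow] at h6
    · refine ⟨c, hc0, fun j hj hjt => ?_⟩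
      rcases Nat.lt_succ_iff_lt_or_eq.1 hjt with h2 | h2
      · exact hc j hj h2
      · exfalso
        apply ht
        exact ⟨h2 ▸ j.2, h2 ▸ hj⟩

theorem ut_unique {a : Fin r → ℕ} {B : Fin r → Fin r → k[X]} (hB : UT a B) (c : Fin r → k[X])
    (h : ∀ j, degree ((∑ i, c i • B i) j) < a j) : c = 0 := by
  have key : ∀ t : ℕ, ∀ j : Fin r, (j : ℕ) < t → c j = 0 := by
    intro t
    induction t with
    | zero => intro j hj; exact absurd hj (Nat.not_lt_zero _)
    | succ t ih =>
      intro j hj
      rcases Nat.lt_succ_iff_lt_or_eq.1 hj with h2 | h2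
      · exact ih j h2
      · have h3 := h j
        rw [comb_ut hB c j (fun i hi => ih i (by rw [← h2]; exact hi))] at h3
        by_contra hne
        rw [degree_mul, degree_X_pow, degree_eq_natDegree hne] at h3
        have h4 : ((c j).natDegree : WithBot ℕ) + (a j : WithBot ℕ) < (a j : WithBot ℕ) := h3
        rw [← Nat.cast_add, Nat.cast_lt] at h4
        omega
  funext j
  exact key r j j.2

/-- reduced vectors -/
def RedV (a : Fin r → ℕ) (u : Fin r → k[X]) : Prop := ∀ j, degree (u j) < a j

theorem ut_unique' {a : Fin r → ℕ} {B : Fin r → Fin r → k[X]} (hB : UT a B) {u : Fin r → k[X]}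
    (h : RedV a u) (hu : u ∈ rowL B) : u = 0 := by
  obtain ⟨c, hc⟩ := mem_rowL.1 hu
  have h1 := ut_unique hB c (fun j => by rw [← hc]; exact h j)
  rw [hc, h1]
  simp

theorem ut_exists {a : Fin r → ℕ} {B : Fin r → Fin r → k[X]} (hB : UT a B) (v : Fin r → k[X]) :
    ∃ u, RedV a u ∧ v - u ∈ rowL B := by
  obtain ⟨c, -, hc⟩ := ut_div hB v 0 r
  refine ⟨v - ∑ i, c i • B i, fun j => hc j (Nat.zero_le _) j.2, ?_⟩
  rw [mem_rowL]
  exact ⟨c, by abel⟩

/-- codimension of the lattice -/
theorem ut_finrank {a : Fin r → ℕ} {B : Fin r → Fin r → k[X]} (hB : UT a B) :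
    Module.Finite k ((Fin r → k[X]) ⧸ rowL B) ∧
      Module.finrank k ((Fin r → k[X]) ⧸ rowL B) = ∑ i, a i := by
  let f : (∀ i, degreeLT k (a i)) →ₗ[k] ((Fin r → k[X]) ⧸ rowL B) :=
    ((rowL B).mkQ.restrictScalars k).comp
      (LinearMap.pi (fun i => (degreeLT k (a i)).subtype.comp (LinearMap.proj i)))
  have hf : ∀ x, f x = (rowL B).mkQ (fun i => (x i : k[X])) := fun x => rfl
  have hbij : Function.Bijective f := by
    constructor
    · rw [injective_iff_map_eq_zero]
      intro x hx
      rw [hf, Submodule.mkQ_apply, Submodule.Quotient.mk_eq_zero] at hx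
      have h1 := ut_unique' hB (fun j => mem_degreeLT.1 (x j).2) hx
      funext i
      exact Subtype.ext (congrFun h1 i)
    · intro y
      obtain ⟨v, rfl⟩ := (rowL B).mkQ_surjective y
      obtain ⟨u, hu, hvu⟩ := ut_exists hB v
      refine ⟨fun i => ⟨u i, mem_degreeLT.2 (hu i)⟩, ?_⟩
      rw [hf]
      symm
      rw [← sub_eq_zero, ← map_sub, Submodule.mkQ_apply, Submodule.Quotient.mk_eq_zero]
      exact hvu
  let e := LinearEquiv.ofBijective f hbij
  have hfin : ∀ i, Module.Finite k (degreeLT k (a i)) := fun i =>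
    Module.Finite.equiv (degreeLTEquiv k (a i)).symm
  constructor
  · exact Module.Finite.equiv e
  · rw [← e.finrank_eq, Module.finrank_pi_fintype]
    apply Finset.sum_congr rfl
    intro i _
    rw [(degreeLTEquiv k (a i)).finrank_eq, Module.finrank_fin_fun]

/-- generation from leading terms -/
theorem ut_gen {a : Fin r → ℕ} {B : Fin r → Fin r → k[X]} (hB : UT a B)
    (N : Submodule k[X] (Fin r → k[X])) (hN : ∀ i, B i ∈ N)
    (hlead : ∀ v ∈ N, ∀ i, (∀ j, j < i → v j = 0) → X ^ a i ∣ v i) : N = rowL B := by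
  apply le_antisymm
  · intro v hv
    have key : ∀ t : ℕ, ∃ c : Fin r → k[X], ∀ j : Fin r, (j : ℕ) < t →
        (v - ∑ i, c i • B i) j = 0 := by
      intro t
      induction t with
      | zero => exact ⟨0, fun j h => absurd h (Nat.not_lt_zero _)⟩
      | succ t ih =>
        obtain ⟨c, hc⟩ := ih
        by_cases ht : t < r
        · let j₀ : Fin r := ⟨t, ht⟩
          set w := v - ∑ i, c i • B i with hw
          have hwN : w ∈ N := N.sub_mem hv (N.sum_mem fun i _ => N.smul_mem _ (hN i))
          obtain ⟨q, hq⟩ := hlead w hwN j₀ (fun j hj => hc j hj)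
          refine ⟨c + Pi.single j₀ q, fun j hj => ?_⟩
          have h1 : v - ∑ i, (c + Pi.single j₀ q : Fin r → k[X]) i • B i = w - q • B j₀ := by
            have h2 : ∑ i, (c + Pi.single j₀ q : Fin r → k[X]) i • B i =
                ∑ i, c i • B i + q • B j₀ := by
              simp only [Pi.add_apply, add_smul, Finset.sum_add_distrib]
              congr 1
              rw [Finset.sum_eq_single j₀]
              · simp
              · intro i _ hi; simp [hi]
              · intro h; exact absurd (Finset.mem_univ _) h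
            rw [h2, hw]
            abel
          rw [h1, Pi.sub_apply, Pi.smul_apply, smul_eq_mul]
          rcases Nat.lt_succ_iff_lt_or_eq.1 hj with h2 | h2
          · have h3 : j < j₀ := h2
            rw [hc j h2, hB.2 j₀ j h3, mul_zero, sub_zero]
          · have h3 : j = j₀ := Fin.ext h2
            subst h3
            rw [hB.1, hq]
            ring
        · refine ⟨c, fun j hj => ?_⟩
          exact hc j (by have := j.2; omega)
    obtain ⟨c, hc⟩ := key r
    rw [mem_rowL]
    refine ⟨c, ?_⟩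
    rw [← sub_eq_zero]
    funext j
    exact hc j j.2
  · unfold rowL
    rw [Submodule.span_le]
    rintro _ ⟨i, rfl⟩
    exact hN i

/-- leading terms of the lattice of an upper triangular matrix -/
theorem ut_lead {a : Fin r → ℕ} {B : Fin r → Fin r → k[X]} (hB : UT a B) :
    ∀ v ∈ rowL B, ∀ i, (∀ j, j < i → v j = 0) → X ^ a i ∣ v i := by
  intro v hv i hi
  obtain ⟨c, rfl⟩ := mem_rowL.1 hv
  have key : ∀ t : ℕ, ∀ j : Fin r, (j : ℕ) < t → j < i → c j = 0 := by
    intro t
    induction t with
    | zero => intro j hj; exact absurd hj (Nat.not_lt_zero _)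
    | succ t ih =>
      intro j hj hji
      rcases Nat.lt_succ_iff_lt_or_eq.1 hj with h2 | h2
      · exact ih j h2 hji
      · have h3 := hi j hji
        rw [comb_ut hB c j (fun l hl => ih l (by rw [← h2]; exact hl) (hl.trans hji))] at h3
        rcases mul_eq_zero.1 h3 with h4 | h4
        · exact h4
        · exact absurd h4 (pow_ne_zero _ X_ne_zero)
  rw [comb_ut hB c i (fun j hj => key (j + 1) j (Nat.lt_succ_self _) hj)]
  exact Dvd.intro_left _ rfl

/-- reduced Hermite normal forms -/
def HNF (a : Fin r → ℕ) (B : Fin r → Fin r → k[X]) : Prop :=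
  UT a B ∧ ∀ i j, i < j → degree (B i j) < a j

theorem hnf_unique {a a' : Fin r → ℕ} {B B' : Fin r → Fin r → k[X]} (h : HNF a B)
    (h' : HNF a' B') (he : rowL B = rowL B') : a = a' ∧ B = B' := by
  have hmem : ∀ (B : Fin r → Fin r → k[X]) i, B i ∈ rowL B := fun B i =>
    Submodule.subset_span ⟨i, rfl⟩
  have ha : a = a' := by
    funext i
    apply le_antisymm
    · have h1 : B' i ∈ rowL B := by rw [he]; exact hmem B' i
      have h2 := ut_lead h.1 (B' i) h1 i (fun j hj => h'.1.2 i j hj)
      rw [h'.1.1] at h2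
      exact (pow_dvd_pow_iff X_ne_zero not_isUnit_X).1 h2
    · have h1 : B i ∈ rowL B' := by rw [← he]; exact hmem B i
      have h2 := ut_lead h'.1 (B i) h1 i (fun j hj => h.1.2 i j hj)
      rw [h.1.1] at h2
      exact (pow_dvd_pow_iff X_ne_zero not_isUnit_X).1 h2
  subst ha
  refine ⟨rfl, ?_⟩
  funext i
  rw [← sub_eq_zero]
  apply ut_unique' h.1
  · intro j
    rw [Pi.sub_apply]
    rcases lt_trichotomy j i with hj | hj | hj
    · rw [h.1.2 i j hj, h'.1.2 i j hj, sub_zero, degree_zero]
      exact WithBot.bot_lt_coe _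
    · subst hj
      rw [h.1.1, h'.1.1, sub_self, degree_zero]
      exact WithBot.bot_lt_coe _
    · exact (degree_sub_le _ _).trans_lt (max_lt (h.2 i j hj) (h'.2 i j hj))
  · apply (rowL B).sub_mem (hmem B i)
    rw [he]; exact hmem B' i

theorem hnf_exists (N : Submodule k[X] (Fin r → k[X])) (n : ℕ)
    (hN : ∀ v : Fin r → k[X], (X : k[X]) ^ n • v ∈ N) : ∃ a B, HNF a B ∧ rowL B = N := by
  classical
  -- leading ideals
  let I : Fin r → Ideal k[X] := fun i =>
    { carrier := {f | ∃ v ∈ N, (∀ j, j < i → v j = 0) ∧ v i = f}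
      add_mem' := by
        rintro f g ⟨v, hv, hv0, rfl⟩ ⟨w, hw, hw0, rfl⟩
        exact ⟨v + w, N.add_mem hv hw, fun j hj => by simp [hv0 j hj, hw0 j hj], rfl⟩
      zero_mem' := ⟨0, N.zero_mem, fun _ _ => rfl, rfl⟩
      smul_mem' := by
        rintro c f ⟨v, hv, hv0, rfl⟩
        exact ⟨c • v, N.smul_mem c hv, fun j hj => by simp [hv0 j hj], rfl⟩ }
  have hI : ∀ i f, f ∈ I i ↔ ∃ v ∈ N, (∀ j, j < i → v j = 0) ∧ v i = f := fun i f => Iff.rfl
  have hXn : ∀ i, (X : k[X]) ^ n ∈ I i := by
    intro i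
    rw [hI]
    refine ⟨X ^ n • Pi.single i 1, hN _, fun j hj => ?_, by simp⟩
    simp [hj.ne]
  have hgen : ∀ i, ∃ a, ∀ f, f ∈ I i ↔ (X : k[X]) ^ a ∣ f := by
    intro i
    obtain ⟨g, hg⟩ := (IsPrincipalIdealRing.principal (I i)).principal
    have h1 : g ∣ X ^ n := by
      rw [← Ideal.mem_span_singleton]
      have := hXn i
      rw [hg] at this
      exact this
    obtain ⟨a, -, ha⟩ := (dvd_prime_pow prime_X n).1 h1
    refine ⟨a, fun f => ?_⟩
    rw [hg]
    change f ∈ Ideal.span {g} ↔ _
    rw [Ideal.mem_span_singleton]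
    exact ha.dvd_iff_dvd_left
  choose a ha using hgen
  have hrow : ∀ i, ∃ v ∈ N, (∀ j, j < i → v j = 0) ∧ v i = X ^ a i := by
    intro i
    rw [← hI, ha]
  choose V hV hV0 hVi using hrow
  have hUT : UT a V := ⟨hVi, fun i j hj => hV0 i j hj⟩
  -- reduction
  choose c hc0 hc using fun i : Fin r => ut_div hUT (V i) (i + 1) r
  let B : Fin r → Fin r → k[X] := fun i => V i - ∑ l, c i l • V l
  have hBN : ∀ i, B i ∈ N := fun i => N.sub_mem (hV i) (N.sum_mem fun l _ => N.smul_mem _ (hV l))
  have hlow : ∀ i j, j ≤ i → (∑ l, c i l • V l) j = 0 := by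
    intro i j hj
    rw [comb_apply]
    apply Finset.sum_eq_zero
    intro l _
    by_cases hl : (l : ℕ) < i + 1
    · rw [hc0 i l hl, zero_mul]
    · rw [hV0 l j (by omega), mul_zero]
  have hBUT : UT a B := by
    constructor
    · intro i
      change (V i - ∑ l, c i l • V l) i = _
      rw [Pi.sub_apply, hlow i i le_rfl, sub_zero, hVi]
    · intro i j hj
      change (V i - ∑ l, c i l • V l) j = _
      rw [Pi.sub_apply, hlow i j hj.le, sub_zero, hV0 i j hj]
  refine ⟨a, B, ⟨hBUT, fun i j hij => ?_⟩, ?_⟩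
  · exact hc i j (by exact hij) j.2
  · symm
    apply ut_gen hBUT N hBN
    intro v hv i hi
    rw [← ha, hI]
    exact ⟨v, hv, hi, rfl⟩

end Pool.Agent.Helper345_Quot
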