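import Pool.Agent.Helper345_Quot.Fin1

/-!
Independence of the parametrisation.
-/

noncomputable section

namespace Pool.Agent.Helper345_Quot

universe u

open AlgebraicGeometry CategoryTheory TopologicalSpace Opposite

attribute [local instance] algSec algStk modSec modStk

variable {k : Type u} [Field k] {X : Scheme.{u}} [X.Over (Spec (.of k))] {G : X.Modules}
  [G.IsQuasicoherent] [LocallyOfFiniteType (X ↘ Spec (.of k))]

theorem dfn_sec_le_pair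
    (hfin : ∀ U : X.Opens, IsAffineOpen U → Module.Finite Γ(X, U) Γ(G, U))
    {n m : ℕ} (P : SParam k G (QC k G n)) (P' : SParam k G (QC k G m))
    {U : X.Opens} (hU : IsAffineOpen U) {κ' : Type} (e₁ : P.κ → κ') (e₂ : P'.κ → κ') :
    Dfn (fun z : κ' → k => z ∘ e₁ ∈ P.S ∧ z ∘ e₂ ∈ P'.S ∧
      (P.φ (z ∘ e₁)).sec U ≤ (P'.φ (z ∘ e₂)).sec U) := by
  have := hfin U hU
  have := finiteType_sec (k := k) hU
  obtain ⟨a, b, w, v, -, hv⟩ := exists_bdd k Γ(X, U) Γ(G, U) n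
  have h1 := (P.dfn_comb hU (κ' := κ' ⊕ Fin b) (Sum.inl ∘ e₁) v (fun j z => z (Sum.inr j))
    (fun j => PolyF.coord _)).imp (P'.dfn_comb hU (κ' := κ' ⊕ Fin b) (Sum.inl ∘ e₂) v
    (fun j z => z (Sum.inr j)) (fun j => PolyF.coord _))
  have h2 := (P.dfn_S e₁).and ((P'.dfn_S e₂).and h1.forall_vec)
  refine h2.congr fun z => ?_
  beta_reduce
  constructor
  · rintro ⟨h3, h4, h5⟩
    refine ⟨h3, h4, ?_⟩
    have hN := P.maps h3
    have hs := hN.1.sec_spec hU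
    rw [hv _ _ hs.1 (by rw [hs.2.1]; exact QC.len_le hN _)]
    intro c hc
    exact (h5 c ⟨h3, hc⟩).2
  · rintro ⟨h3, h4, h5⟩
    exact ⟨h3, h4, fun c hc => ⟨h4, h5 hc.2⟩⟩

theorem dfn_le_pair {ι : Type} [Finite ι] (U : ι → X.Opens) (hU : ∀ i, IsAffineOpen (U i))
    (hc : ∀ x, ∃ i, x ∈ U i)
    (hfin : ∀ U : X.Opens, IsAffineOpen U → Module.Finite Γ(X, U) Γ(G, U))
    {n m : ℕ} (P : SParam k G (QC k G n)) (P' : SParam k G (QC k G m))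
    {κ' : Type} (e₁ : P.κ → κ') (e₂ : P'.κ → κ') :
    Dfn (fun z : κ' → k => z ∘ e₁ ∈ P.S ∧ z ∘ e₂ ∈ P'.S ∧
      P.φ (z ∘ e₁) ≤ P'.φ (z ∘ e₂)) := by
  have h1 := (P.dfn_S e₁).and ((P'.dfn_S e₂).and
    (Dfn.forall_fin fun i => dfn_sec_le_pair hfin P P' (hU i) e₁ e₂))
  refine h1.congr fun z => ?_
  constructor
  · rintro ⟨h2, h3, h4⟩
    refine ⟨h2, h3, ?_⟩
    rw [FinCo.le_iff inferInstance U hU hc (P.maps h2).1 (P'.maps h3).1]
    exact fun i => (h4 i).2.2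
  · rintro ⟨h2, h3, h4⟩
    rw [FinCo.le_iff inferInstance U hU hc (P.maps h2).1 (P'.maps h3).1] at h4
    exact ⟨h2, h3, fun i => ⟨h2, h3, h4 i⟩⟩

omit [G.IsQuasicoherent] in
theorem le_antisymm_loc {N N' : SubM G} (hN : N.IsLocal) (hN' : N'.IsLocal) (h : N ≤ N')
    (h' : N' ≤ N) : N = N' := by
  apply SubM.ext_stk hN hN'
  intro x
  exact le_antisymm ((hN.le_iff hN').1 h x) ((hN'.le_iff hN).1 h' x)

/-- the Euler characteristic does not depend on the parametrisation -/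
theorem chi_indep [QuasiCompact (X ↘ Spec (.of k))]
    (hfin : ∀ U : X.Opens, IsAffineOpen U → Module.Finite Γ(X, U) Γ(G, U))
    (E : EulerChar k) {n : ℕ} (P P' : SParam k G (QC k G n)) : E.χ P.S = E.χ P'.S := by
  obtain ⟨ι, hι, U, hU, hc⟩ := exists_affine_cover (k := k) (X := X)
  have h1 := dfn_le_pair U hU hc hfin P P' (κ' := P.κ ⊕ P'.κ) Sum.inl Sum.inr
  have h2 := dfn_le_pair U hU hc hfin P' P (κ' := P.κ ⊕ P'.κ) Sum.inr Sum.inl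
  have hR : Dfn (fun z : P.κ ⊕ P'.κ → k => z ∘ Sum.inl ∈ P.S ∧ z ∘ Sum.inr ∈ P'.S ∧
      P.φ (z ∘ Sum.inl) = P'.φ (z ∘ Sum.inr)) := by
    refine (h1.and h2).congr fun z => ?_
    constructor
    · rintro ⟨⟨a1, a2, a3⟩, -, -, a4⟩
      exact ⟨a1, a2, le_antisymm_loc (P.maps a1).1.loc (P'.maps a2).1.loc a3 a4⟩
    · rintro ⟨a1, a2, a3⟩
      exact ⟨⟨a1, a2, a3.le⟩, a2, a1, a3.ge⟩
  change E.P (fun x => x ∈ P.S) = E.P (fun x => x ∈ P'.S)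
  apply E.P_bij hR
  · rintro x y ⟨a1, a2, -⟩
    exact ⟨a1, a2⟩
  · intro x hx
    obtain ⟨y, hy, hxy⟩ := P'.surj (P.maps hx)
    refine ⟨y, ⟨hx, hy, hxy.symm⟩, ?_⟩
    rintro y' ⟨-, h3, h4⟩
    exact P'.inj h3 hy (h4.symm.trans hxy.symm)
  · intro y hy
    obtain ⟨x, hx, hxy⟩ := P.surj (P'.maps hy)
    refine ⟨x, ⟨hx, hy, hxy⟩, ?_⟩
    rintro x' ⟨h3, -, h4⟩
    exact P.inj h3 hx (h4.trans hxy.symm)

end Pool.Agent.Helper345_Quot
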