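import Pool.Agent.Helper345_Quot.Code

/-!
The labelled formula for the ball integral in terms of codes.
-/

noncomputable section

namespace Pool.Agent.Helper345_Quot

open PowerSeries
open scoped NNReal

variable {k : Type*} [Field k] {σ τ : Type*} [Fintype σ] {d : ℕ}

/-- open class predicate in codes -/
def opn (P : σ → Polynomial (MvPolynomial τ ℤ)) (e : ℕ) (E : Finset (Fin d))
    (x : Fin d ⊕ τ → LL k) (γ : ℕ) : Prop :=
  ∀ l, l ∈ E → ∀ l', (l' ∈ E ↔ Dat.nlt P e (Dq τ l l') x γ)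

theorem opn_tame {ι : Type*} [Finite ι] (P : σ → Polynomial (MvPolynomial τ ℤ)) (e : ℕ)
    (E : Finset (Fin d))
    {g : (Fin d ⊕ τ → LL k) → (ι → ℕ) → ℕ} (hg : TameF (cod e) g) :
    TameP (cod e) (fun x a => opn P e E x (g x a)) := by
  unfold opn
  refine TameP.forall_fin fun l => ?_
  refine TameP.imp (TameP.const _) ?_
  refine TameP.forall_fin fun l' => ?_
  exact TameP.iff (TameP.const _) (Dat.nlt_tame e _ hg)

/-- rational open classes in codes, with fuel -/
def OCt (P : σ → Polynomial (MvPolynomial τ ℤ)) (e : ℕ) :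
    ℕ → Finset (Fin d) → (Fin d ⊕ τ → LL k) → ℕ → Prop
  | 0, _, _, _ => False
  | n + 1, E, x, γ => E.Nonempty ∧ opn P e E x γ ∧ ∃ γ₁, γ₁ ≤ γ ∧ opn P e E x γ₁ ∧
      ((∀ l, l ∈ E → Dat.nle P e (Wq τ ∅ l) x γ₁) ∨
        ∃ E', E ⊂ E' ∧ ∃ γ', γ' < γ₁ ∧ OCt P e n E' x γ' ∧ ∀ l, l ∈ E → Dat.nle P e (Wq τ E' l) x γ₁)

theorem OCt_tame (P : σ → Polynomial (MvPolynomial τ ℤ)) (e : ℕ) (n : ℕ) :
    ∀ (E : Finset (Fin d)), TameR (cod e) (OCt (k := k) P e n E) := by
  induction n with
  | zero => intro E; exact TameP.const False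
  | succ n ih =>
    intro E
    unfold TameR
    have h0 : TameF (cod e) (fun (_ : Fin d ⊕ τ → LL k) (a : Unit → ℕ) => a ()) := TameF.coord ()
    simp only [OCt]
    refine TameP.and (TameP.const _) (TameP.and (opn_tame P e E h0) ?_)
    refine TameP.exists_nat (p := fun x (a : Unit → ℕ) γ₁ => γ₁ ≤ a () ∧ opn P e E x γ₁ ∧
      ((∀ l, l ∈ E → Dat.nle P e (Wq τ ∅ l) x γ₁) ∨
        ∃ E', E ⊂ E' ∧ ∃ γ', γ' < γ₁ ∧ OCt P e n E' x γ' ∧
          ∀ l, l ∈ E → Dat.nle P e (Wq τ E' l) x γ₁)) ?_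
    have h1 : TameF (cod e) (fun (_ : Fin d ⊕ τ → LL k) (a : Option Unit → ℕ) => a none) :=
      TameF.coord none
    have h2 : TameF (cod e) (fun (_ : Fin d ⊕ τ → LL k) (a : Option Unit → ℕ) => a (some ())) :=
      TameF.coord _
    refine TameP.and (TameP.le h1 h2) (TameP.and (opn_tame P e E h1) (TameP.or ?_ ?_))
    · exact TameP.forall_fin fun l => TameP.imp (TameP.const _) (Dat.nle_tame e _ h1)
    · refine TameP.exists_fin fun E' => TameP.and (TameP.const _) ?_
      refine TameP.exists_nat (p := fun x (a : Option Unit → ℕ) γ' =>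
        γ' < a none ∧ OCt P e n E' x γ' ∧ ∀ l, l ∈ E → Dat.nle P e (Wq τ E' l) x (a none)) ?_
      have h3 : TameF (cod e) (fun (_ : Fin d ⊕ τ → LL k) (a : Option (Option Unit) → ℕ) => a none) :=
        TameF.coord none
      have h4 : TameF (cod e) (fun (_ : Fin d ⊕ τ → LL k) (a : Option (Option Unit) → ℕ) =>
        a (some none)) := TameF.coord _
      refine TameP.and (TameP.lt h3 h4) (TameP.and ((ih E').app h3) ?_)
      exact TameP.forall_fin fun l => TameP.imp (TameP.const _) (Dat.nle_tame e _ h4)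

namespace Dat

variable {P : σ → Polynomial (MvPolynomial τ ℤ)} {θ : τ → k⟦X⟧} {Δ : Dat P θ d} {e : ℕ}

theorem Cod.opn_iff (h : Δ.Cod e) (he : e ≠ 0) (E : Finset (Fin d)) (γ : ℕ) :
    opn P e E Δ.x γ ↔ ∀ l, l ∈ E → ∀ l', (l' ∈ E ↔ nn k (Δ.r l - Δ.r l') < hf ^ γ) := by
  unfold opn
  simp only [h.nlt_D he]

theorem OC.opn [CharZero k] {E : Finset (Fin d)} {γ : ℕ} (h : Δ.inst.OC E γ) :
    ∀ l, l ∈ E → ∀ l', (l' ∈ E ↔ nn k (Δ.r l - Δ.r l') < hf ^ γ) := by
  obtain ⟨-, q, hq⟩ := h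
  intro l hl l'
  have h1 : nn k (Δ.r l - emb k q) < hf ^ γ := (hq l).1 hl
  rw [hq l']
  change nn k (Δ.r l' - emb k q) < hf ^ γ ↔ _
  constructor
  · intro h
    rw [nn_sub_comm] at h
    exact nn_sub_trans_lt h1 h
  · intro h
    rw [nn_sub_comm] at h
    exact nn_sub_trans_lt h h1

theorem Cod.OC_iff [IsAlgClosed k] [CharZero k] (h : Δ.Cod e) (he : e ≠ 0) (n : ℕ) :
    ∀ (E : Finset (Fin d)) (γ : ℕ), d < n + E.card → (Δ.inst.OC E γ ↔ OCt P e n E Δ.x γ) := by
  induction n with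
  | zero =>
    intro E γ hc
    have := Finset.card_le_univ E
    simp only [Fintype.card_fin] at this
    omega
  | succ n ih =>
    intro E γ hc
    simp only [OCt, h.opn_iff he, ← h.nle_W he]
    have havg0 : Δ.inst.avg ∅ = emb k 0 := by
      unfold Inst.avg; simp
    constructor
    · intro hoc
      refine ⟨hoc.1, OC.opn hoc, ?_⟩
      -- least level
      classical
      have hex : ∃ γ₁, Δ.inst.OC E γ₁ := ⟨γ, hoc⟩
      have hγ₁ := Nat.find_spec hex
      have hmin := fun m (hm : m < Nat.find hex) => Nat.find_min hex hm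
      have hle : Nat.find hex ≤ γ := Nat.find_min' hex hoc
      set γ₁ := Nat.find hex
      refine ⟨γ₁, hle, OC.opn hγ₁, ?_⟩
      obtain ⟨-, q, hq⟩ := hγ₁
      rcases Nat.eq_zero_or_pos γ₁ with h0 | hpos
      · left
        intro l hl
        rw [havg0]
        have h1 : nn k (Δ.r l - emb k q) < hf ^ γ₁ := (hq l).1 hl
        rw [h0] at h1 ⊢
        refine nn_sub_trans h1.le ?_
        rw [← map_sub, pow_zero]
        exact nn_emb_le_one _
      · right
        let E' : Finset (Fin d) := Finset.univ.filter (fun l => nn k (Δ.r l - emb k q) < hf ^ (γ₁ - 1))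
        have hE' : ∀ l, l ∈ E' ↔ nn k (Δ.r l - emb k q) < hf ^ (γ₁ - 1) := by
          intro l; simp [E']
        have hlt : hf ^ γ₁ < hf ^ (γ₁ - 1) := hf_pow_lt.2 (by omega)
        have hsub : E ⊆ E' := by
          intro l hl
          rw [hE']
          exact lt_trans ((hq l).1 hl) hlt
        have hoc' : Δ.inst.OC E' (γ₁ - 1) := ⟨hoc.1.mono hsub, q, hE'⟩
        have hssub : E ⊂ E' := by
          refine Finset.ssubset_iff_subset_ne.2 ⟨hsub, ?_⟩
          intro heq
          rw [← heq] at hoc'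
          exact hmin _ (by omega) hoc'
        have hcard := Finset.card_lt_card hssub
        refine ⟨E', hssub, γ₁ - 1, by omega, (ih E' _ (by omega)).1 hoc', ?_⟩
        intro l hl
        have h1 : nn k (Δ.r l - emb k q) < hf ^ γ₁ := (hq l).1 hl
        have h2 : nn k (emb k q - emb k (Δ.inst.ctr E')) < hf ^ (γ₁ - 1) := by
          have h3 := (hoc'.mem_ctr l).1 (hsub hl)
          have h4 : nn k (Δ.r l - emb k q) < hf ^ (γ₁ - 1) := lt_trans h1 hlt
          rw [nn_sub_comm] at h4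
          exact nn_sub_trans_lt h4 h3
        have h5 := Inst.rat_close h2
        have h6 : γ₁ - 1 + 1 = γ₁ := by omega
        rw [h6, hoc'.emb_ctr] at h5
        exact nn_sub_trans h1.le h5
    · rintro ⟨hne, hop, γ₁, hle, hop₁, hcase⟩
      have hocγ₁ : Δ.inst.OC E γ₁ := by
        obtain ⟨l0, hl0⟩ := hne
        have key : ∃ q : k⟦X⟧, nn k (Δ.r l0 - emb k q) < hf ^ γ₁ := by
          rcases hcase with h1 | ⟨E', hss, γ', hlt, hoc', h1⟩
          · have h2 := h1 l0 hl0
            rw [havg0] at h2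
            obtain ⟨ξ, hξ⟩ := residue_ball _ _ _ h2
            exact ⟨_, hξ⟩
          · have hcard := Finset.card_lt_card hss
            have hoc'' := (ih E' γ' (by omega)).2 hoc'
            have h2 := h1 l0 hl0
            rw [← hoc''.emb_ctr] at h2
            obtain ⟨ξ, hξ⟩ := residue_ball _ _ _ h2
            exact ⟨_, hξ⟩
        obtain ⟨q, hq⟩ := key
        refine ⟨⟨l0, hl0⟩, q, fun l => ?_⟩
        rw [hop₁ l0 hl0 l]
        change _ ↔ nn k (Δ.r l - emb k q) < hf ^ γ₁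
        constructor
        · intro h
          rw [nn_sub_comm] at h
          exact nn_sub_trans_lt h hq
        · intro h
          rw [nn_sub_comm] at h
          exact nn_sub_trans_lt hq h
      refine ⟨hne, Δ.inst.ctr E, fun l => ?_⟩
      change _ ↔ nn k (Δ.r l - emb k (Δ.inst.ctr E)) < hf ^ γ
      constructor
      · intro hl
        have h1 : nn k (Δ.inst.avg E - Δ.r l) < hf ^ γ := by
          apply average_lt _ _ hne _ _ (pow_pos hf_pos _)
          intro l' hl'
          exact (hop l' hl' l).1 hl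
        rw [hocγ₁.emb_ctr, nn_sub_comm]
        exact h1
      · intro hl
        have hle' : hf ^ γ ≤ hf ^ γ₁ := hf_pow_le.2 hle
        exact (hocγ₁.mem_ctr l).2 (hl.trans_le hle')

end Dat

end Pool.Agent.Helper345_Quot
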