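import Pool.Agent.Helper345_Quot.Bound
import Mathlib.LinearAlgebra.Matrix.Adjugate

/-!
The stability criterion for lattices in Hermite normal form.
-/

noncomputable section

namespace Pool.Agent.Helper345_Quot

open PowerSeries

/-- variables: entries of the operators, entries of the vectors, diagonal and off diagonal entries
of the Hermite normal form -/
inductive HV (r : ℕ) (Op Ve : Type)
  | T (o : Op) (p q : Fin r)
  | w (j : Ve) (p : Fin r)
  | y (i : Fin r)
  | m (i j : Fin r)

instance (r : ℕ) (Op Ve : Type) : DecidableEq (HV r Op Ve) := Classical.decEq _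

section mat

variable {r : ℕ} {Op Ve : Type} {A : Type*} [CommRing A]

/-- the Hermite normal form matrix -/
def Bmat (θ : HV r Op Ve → A) : Matrix (Fin r) (Fin r) A :=
  Matrix.of fun i j => if i = j then θ (HV.y i) else if i < j then θ (HV.m i j) else 0

/-- the operators -/
def Tmat (θ : HV r Op Ve → A) (o : Op) : Matrix (Fin r) (Fin r) A :=
  Matrix.of fun p q => θ (HV.T o p q)

/-- the vectors -/
def Wvec (θ : HV r Op Ve → A) (j : Ve) : Fin r → A := fun p => θ (HV.w j p)

/-- entries of the stability criterion -/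
def stE (θ : HV r Op Ve → A) (o : Op) (p q : Fin r) : A :=
  (Bmat θ * Tmat θ o * (Bmat θ).adjugate) p q

/-- entries of the membership criterion -/
def meE (θ : HV r Op Ve → A) (j : Ve) (p : Fin r) : A :=
  Matrix.vecMul (Wvec θ j) (Bmat θ).adjugate p

theorem map_Bmat {A' : Type*} [CommRing A'] (f : A →+* A') (θ : HV r Op Ve → A) :
    (Bmat θ).map f = Bmat (fun v => f (θ v)) := by
  ext i j
  simp only [Bmat, Matrix.map_apply, Matrix.of_apply]
  split_ifs <;> simp

theorem map_Tmat {A' : Type*} [CommRing A'] (f : A →+* A') (θ : HV r Op Ve → A) (o : Op) :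
    (Tmat θ o).map f = Tmat (fun v => f (θ v)) o := by
  ext i j
  simp only [Tmat, Matrix.map_apply, Matrix.of_apply]

theorem map_stE {A' : Type*} [CommRing A'] (f : A →+* A') (θ : HV r Op Ve → A) (o : Op)
    (p q : Fin r) : f (stE θ o p q) = stE (fun v => f (θ v)) o p q := by
  unfold stE
  rw [← map_Bmat f, ← map_Tmat f, ← RingHom.mapMatrix_apply, ← RingHom.mapMatrix_apply,
    ← RingHom.map_adjugate, ← map_mul, ← map_mul]
  rfl

theorem map_meE {A' : Type*} [CommRing A'] (f : A →+* A') (θ : HV r Op Ve → A) (j : Ve)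
    (p : Fin r) : f (meE θ j p) = meE (fun v => f (θ v)) j p := by
  unfold meE
  rw [← map_Bmat f, ← RingHom.mapMatrix_apply, ← RingHom.map_adjugate]
  simp only [Matrix.vecMul, dotProduct, map_sum, map_mul]
  rfl

/-- the criterion -/
def Crit (θ : HV r Op Ve → A) (N : A) : Prop :=
  (∀ o p q, N ∣ stE θ o p q) ∧ ∀ j p, N ∣ meE θ j p

/-- criterion for matrices -/
def CritM (T : Op → Matrix (Fin r) (Fin r) A) (w : Ve → Fin r → A) (B : Matrix (Fin r) (Fin r) A)
    (N : A) : Prop :=
  (∀ o p q, N ∣ (B * T o * B.adjugate) p q) ∧ ∀ j p, N ∣ Matrix.vecMul (w j) B.adjugate p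

theorem crit_iff (θ : HV r Op Ve → A) (N : A) :
    Crit θ N ↔ CritM (Tmat θ) (Wvec θ) (Bmat θ) N := Iff.rfl

theorem CritM.mul_left {T : Op → Matrix (Fin r) (Fin r) A} {w : Ve → Fin r → A}
    {B : Matrix (Fin r) (Fin r) A} {N : A} (h : CritM T w B N) (U : Matrix (Fin r) (Fin r) A) :
    CritM T w (U * B) N := by
  constructor
  · intro o p q
    have h1 : (U * B) * T o * (U * B).adjugate = U * (B * T o * B.adjugate) * U.adjugate := by
      rw [Matrix.adjugate_mul_distrib]
      simp only [Matrix.mul_assoc]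
    rw [h1, Matrix.mul_apply]
    apply Finset.dvd_sum
    intro x _
    apply Dvd.dvd.mul_right
    rw [Matrix.mul_apply]
    apply Finset.dvd_sum
    intro y _
    exact (h.1 o y x).mul_left _
  · intro j p
    rw [Matrix.adjugate_mul_distrib, ← Matrix.vecMul_vecMul]
    simp only [Matrix.vecMul, dotProduct]
    apply Finset.dvd_sum
    intro x _
    exact (h.2 j x).mul_right _

/-- elementary row operation -/
theorem critM_transvection {T : Op → Matrix (Fin r) (Fin r) A} {w : Ve → Fin r → A}
    {B B' : Matrix (Fin r) (Fin r) A} {N c : A} {i j : Fin r} (hij : i ≠ j)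
    (h : B' = Matrix.transvection i j c * B) : CritM T w B' N ↔ CritM T w B N := by
  constructor
  · intro h1
    have h2 : B = Matrix.transvection i j (-c) * B' := by
      rw [h, ← Matrix.mul_assoc, Matrix.transvection_mul_transvection_same _ _ hij]
      simp
    rw [h2]
    exact h1.mul_left _
  · intro h1
    rw [h]
    exact h1.mul_left _

end mat

variable {k : Type*} [Field k] {r : ℕ} {Op Ve : Type} [Finite Op] [Finite Ve]

theorem dvd_iff_nu (n : ℕ) (f : k⟦X⟧) : X ^ n ∣ f ↔ nu k f = 0 ∨ n + 1 ≤ nu k f := by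
  by_cases h0 : f = 0
  · subst h0; simp [nu]
  · rw [dvd_iff_nn, nn_emb h0, hf_pow_le]
    have := nu_ne_zero h0
    omega

open Classical in
/-- the indicator of the criterion -/
def FtH (θ : HV r Op Ve → k⟦X⟧) (a : Fin r → ℕ) : ℤ :=
  if Crit θ (X ^ (∑ i, a i)) then 1 else 0

theorem FtH_tame : TameZ (nu k) (FtH (k := k) (r := r) (Op := Op) (Ve := Ve)) := by
  classical
  unfold FtH
  have hs : TameF (nu k) (fun (_ : HV r Op Ve → k⟦X⟧) (a : Fin r → ℕ) => ∑ i, a i + 1) :=
    TameF.add (TameF.sum (f := fun i (_ : HV r Op Ve → k⟦X⟧) (a : Fin r → ℕ) => a i)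
      Finset.univ (fun i _ => TameF.coord i)) (TameF.const 1)
  have h0 : TameF (nu k) (fun (_ : HV r Op Ve → k⟦X⟧) (_ : Fin r → ℕ) => 0) := TameF.const 0
  have key : ∀ H : MvPolynomial (HV r Op Ve) ℤ, TameP (nu k)
      (fun (θ : HV r Op Ve → k⟦X⟧) (a : Fin r → ℕ) => X ^ (∑ i, a i) ∣ ev θ H) := by
    intro H
    have h1 : TameF (nu k) (fun (θ : HV r Op Ve → k⟦X⟧) (_ : Fin r → ℕ) => nu k (ev θ H)) :=
      TameF.nu H
    refine ((TameP.eq h1 h0).or (TameP.le hs h1)).congr fun θ a => ?_
    rw [dvd_iff_nu]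
  have hc : TameP (nu k) (fun (θ : HV r Op Ve → k⟦X⟧) (a : Fin r → ℕ) =>
      Crit θ (X ^ (∑ i, a i))) := by
    unfold Crit
    refine TameP.and ?_ ?_
    · refine TameP.forall_fin fun o => TameP.forall_fin fun p => TameP.forall_fin fun q => ?_
      refine (key (stE (fun v => MvPolynomial.X v) o p q)).congr fun θ a => ?_
      rw [map_stE]
      simp only [ev_X]
    · refine TameP.forall_fin fun j => TameP.forall_fin fun p => ?_
      refine (key (meE (fun v => MvPolynomial.X v) j p)).congr fun θ a => ?_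
      rw [map_meE]
      simp only [ev_X]
  exact TameZ.ite hc (TameZ.const 1) (TameZ.const 0)

/-- depth of a variable -/
def HV.dep {r : ℕ} {Op Ve : Type} : HV r Op Ve → Fin r
  | HV.T _ p _ => p
  | HV.w _ p => p
  | HV.y i => i
  | HV.m _ j => j

/-- the set up for lattices -/
def latSetup (k : Type*) [Field k] (r : ℕ) (Op Ve : Type) [Finite Op] [Finite Ve] :
    Setup k (HV r Op Ve) (Fin r) where
  Ft := FtH
  tame := FtH_tame
  n := HV.dep

/-- order of integration (outer before inner) -/
def HR {r : ℕ} {Op Ve : Type} : HV r Op Ve → HV r Op Ve → Prop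
  | HV.m i j, HV.m i' j' => i' < i ∨ (i = i' ∧ j < j')
  | _, _ => False

theorem HR_asymm {v w : HV r Op Ve} (h : HR v w) (h' : HR w v) : False := by
  cases v <;> cases w <;> simp only [HR] at h h'
  omega

theorem HR_irrefl {v : HV r Op Ve} (h : HR v v) : False := HR_asymm h h

/-- the list of the off diagonal variables -/
def latL (r : ℕ) (Op Ve : Type) : List (HV r Op Ve) :=
  (List.finRange r).reverse.flatMap (fun i =>
    ((List.finRange r).filter (fun j => decide (i < j))).map (fun j => HV.m i j))

theorem mem_latL {v : HV r Op Ve} : v ∈ latL r Op Ve ↔ ∃ i j : Fin r, i < j ∧ v = HV.m i j := by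
  simp only [latL, List.mem_flatMap, List.mem_reverse, List.mem_finRange, true_and, List.mem_map,
    List.mem_filter, decide_eq_true_eq]
  constructor
  · rintro ⟨i, j, hij, rfl⟩
    exact ⟨i, j, hij, rfl⟩
  · rintro ⟨i, j, hij, rfl⟩
    exact ⟨i, j, hij, rfl⟩

theorem latL_pairwise : (latL r Op Ve).Pairwise HR := by
  unfold latL
  rw [List.pairwise_flatMap]
  constructor
  · intro i _
    rw [List.pairwise_map]
    apply List.Pairwise.filter
    have h := List.pairwise_lt_finRange r
    exact h.imp fun {a b} h => Or.inr ⟨rfl, h⟩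
  · rw [List.pairwise_reverse]
    have h := List.pairwise_lt_finRange r
    refine h.imp fun {a b} h => ?_
    intro x hx y hy
    rw [List.mem_map] at hx hy
    obtain ⟨j, _, rfl⟩ := hx
    obtain ⟨j', _, rfl⟩ := hy
    exact Or.inl h

theorem latL_nodup : (latL r Op Ve).Nodup :=
  latL_pairwise.imp fun {a b} h hab => by subst hab; exact HR_irrefl h

/-- criterion for shift invariance for ordered lists -/
theorem shiftInv_of {τ : Type*} [DecidableEq τ] {N : τ → ℕ} {F : (τ → k⟦X⟧) → ℤ}
    {R : τ → τ → Prop} (hR : ∀ v w, R v w → R w v → False) (L : List τ) (hL : L.Pairwise R)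
    (h : ∀ v ∈ L, ∀ (θ : τ → k⟦X⟧) (c : k⟦X⟧), ∃ s : τ → k⟦X⟧,
      (∀ w, ¬ (w ∈ L ∧ R v w) → s w = 0) ∧
      ∀ θ' : τ → k⟦X⟧, (∀ w, ¬ (w ∈ L ∧ R v w) → w ≠ v → θ' w = θ w) →
        F (Function.update θ' v (θ' v + c * X ^ N v)) = F (θ' + s)) : ShiftInv N F L := by
  have key : ∀ (L₂ L₁ : List τ), L = L₁ ++ L₂ → ShiftInv N F L₂ := by
    intro L₂
    induction L₂ with
    | nil => intros; trivial
    | cons v L₂ ih =>
      intro L₁ hL'
      refine ⟨ih (L₁ ++ [v]) (by rw [hL']; simp), fun θ c => ?_⟩
      have hv : v ∈ L := by rw [hL']; simp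
      obtain ⟨s, hs, h1⟩ := h v hv θ c
      have hiff : ∀ w, (w ∈ L ∧ R v w) ↔ w ∈ L₂ := by
        intro w
        rw [hL', List.pairwise_append] at hL
        obtain ⟨-, h2, h3⟩ := hL
        rw [List.pairwise_cons] at h2
        constructor
        · rintro ⟨hw, hvw⟩
          rw [hL', List.mem_append, List.mem_cons] at hw
          rcases hw with hw | rfl | hw
          · exact (hR _ _ hvw (h3 w hw v (List.mem_cons_self))).elim
          · exact (hR _ _ hvw hvw).elim
          · exact hw
        · intro hw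
          refine ⟨?_, h2.1 w hw⟩
          rw [hL']; simp [hw]
      simp only [hiff] at hs h1
      exact ⟨s, hs, h1⟩
  exact key L [] rfl

/-- background values -/
structure Bg (k : Type*) [Field k] (r : ℕ) (Op Ve : Type) where
  /-- operators -/
  T : Op → Matrix (Fin r) (Fin r) k⟦X⟧
  /-- vectors -/
  w : Ve → Fin r → k⟦X⟧

/-- overwriting by the background -/
def Bg.over (G : Bg k r Op Ve) (a : Fin r → ℕ) (θ : HV r Op Ve → k⟦X⟧) : HV r Op Ve → k⟦X⟧
  | HV.T o p q => G.T o p q
  | HV.w j p => G.w j p
  | HV.y i => X ^ a i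
  | HV.m i j => θ (HV.m i j)

theorem lat_shift (G : Bg k r Op Ve) (a : Fin r → ℕ) :
    ShiftInv (fun v => a (HV.dep v)) (fun θ => FtH (G.over a θ) a) (latL r Op Ve) := by
  apply shiftInv_of (R := HR) (fun v w => HR_asymm) _ latL_pairwise
  intro v hv θ c
  rw [mem_latL] at hv
  obtain ⟨i, j, hij, rfl⟩ := hv
  let s : HV r Op Ve → k⟦X⟧ := fun w => match w with
    | HV.m i' l => if i' = i ∧ j < l then - (c * θ (HV.m j l)) else 0
    | _ => 0
  refine ⟨s, ?_, ?_⟩
  · intro w hw
    cases w with
    | T _ _ _ => rfl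
    | w _ _ => rfl
    | y _ => rfl
    | m i' l =>
      simp only [s]
      split_ifs with h
      · exfalso
        apply hw
        obtain ⟨rfl, h2⟩ := h
        refine ⟨mem_latL.2 ⟨i', l, hij.trans h2, rfl⟩, Or.inr ⟨rfl, h2⟩⟩
      · rfl
  · intro θ' hθ'
    change FtH (G.over a _) a = FtH (G.over a _) a
    unfold FtH
    have hiff : Crit (G.over a (Function.update θ' (HV.m i j)
        (θ' (HV.m i j) + c * X ^ a (HV.dep (HV.m i j : HV r Op Ve))))) (X ^ (∑ i, a i)) ↔
        Crit (G.over a (θ' + s)) (X ^ (∑ i, a i)) := by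
      rw [crit_iff, crit_iff]
      have h1 : Tmat (G.over a (Function.update θ' (HV.m i j)
        (θ' (HV.m i j) + c * X ^ a (HV.dep (HV.m i j : HV r Op Ve))))) =
          Tmat (G.over a (θ' + s)) := rfl
      have h2 : Wvec (G.over a (Function.update θ' (HV.m i j)
        (θ' (HV.m i j) + c * X ^ a (HV.dep (HV.m i j : HV r Op Ve))))) =
          Wvec (G.over a (θ' + s)) := rfl
      rw [h1, h2]
      apply critM_transvection hij.ne (c := c)
      ext p l
      rw [Matrix.transvection, Matrix.add_mul, Matrix.one_mul, Matrix.add_apply]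
      have hout : ∀ l, j < l → θ' (HV.m j l) = θ (HV.m j l) := by
        intro l _
        apply hθ'
        · rintro ⟨_, h⟩
          simp only [HR] at h
          omega
        · intro h
          injection h with h3 h4
          omega
      by_cases hp : p = i
      · subst hp
        rw [Matrix.single_mul_apply_same]
        simp only [Bmat, Matrix.of_apply, Bg.over, Pi.add_apply, s, HV.dep]
        by_cases hpl : p = l
        · subst hpl
          have h3 : ¬ j = p := by omega
          have h4 : ¬ j < p := by omega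
          simp [h3, h4]
        · by_cases hlt : p < l
          · rcases lt_trichotomy l j with h5 | h5 | h5
            · have h6 : (HV.m p l : HV r Op Ve) ≠ HV.m p j := by
                intro h; injection h with h7 h8; omega
              have h7 : ¬ j < l := by omega
              have h8 : ¬ j = l := by omega
              simp [hpl, hlt, Function.update_of_ne h6, h7, h8]
            · subst h5
              simp [hpl, hlt]
            · have h6 : (HV.m p l : HV r Op Ve) ≠ HV.m p j := by
                intro h; injection h with h7 h8; omega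
              have h8 : ¬ j = l := by omega
              have h9 : ¬ j = p := by omega
              simp [hpl, hlt, Function.update_of_ne h6, h5, h8, h9, hout l h5]
          · have h3 : ¬ j = l := by omega
            have h4 : ¬ j < l := by omega
            simp [hpl, hlt, h3, h4]
      · rw [Matrix.single_mul_apply_of_ne _ _ _ _ _ hp, add_zero]
        simp only [Bmat, Matrix.of_apply, Bg.over, Pi.add_apply, s]
        have h6 : (HV.m p l : HV r Op Ve) ≠ HV.m i j := by
          intro h; injection h with h7 h8; exact hp h7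
        simp [hp]
    by_cases h : Crit (G.over a (θ' + s)) (X ^ (∑ i, a i))
    · rw [if_pos h, if_pos (hiff.2 h)]
    · rw [if_neg h, if_neg (fun h' => h (hiff.1 h'))]

theorem ShiftInv.suffix {τ : Type*} [DecidableEq τ] {N : τ → ℕ} {F : (τ → k⟦X⟧) → ℤ}
    (L₁ L₂ : List τ) (h : ShiftInv N F (L₁ ++ L₂)) : ShiftInv N F L₂ := by
  induction L₁ with
  | nil => exact h
  | cons v L₁ ih => exact ih h.1

/-- background point -/
def Bg.pt (G : Bg k r Op Ve) (a : Fin r → ℕ) : HV r Op Ve → k⟦X⟧ := G.over a 0

/-- the data at a tuple of exponents -/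
def latAt [Infinite k] (G : Bg k r Op Ve) (a : Fin r → ℕ) : (latSetup k r Op Ve).At (latL r Op Ve) a where
  D := {θ | G.over a θ = θ}
  D_update := by
    intro θ hθ v hv t
    rw [mem_latL] at hv
    obtain ⟨i, j, hij, rfl⟩ := hv
    rw [Set.mem_ofPred_eq] at hθ ⊢
    funext v
    have h1 := congrFun hθ v
    cases v with
    | T _ _ _ => rw [Function.update_of_ne (by intro h; cases h)]; exact h1
    | w _ _ => rw [Function.update_of_ne (by intro h; cases h)]; exact h1
    | y _ => rw [Function.update_of_ne (by intro h; cases h)]; exact h1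
    | m i' j' => rfl
  F := fun θ => FtH (G.over a θ) a
  good := by
    rintro v L' ⟨L₁, hL⟩ θ -
    have h1 := lat_shift G a
    rw [hL] at h1
    have h2 := latL_nodup (r := r) (Op := Op) (Ve := Ve)
    rw [hL] at h2
    exact ((h1.suffix L₁ (v :: L')).main (List.nodup_append.1 h2).2.1).1 θ
  agree := by
    intro θ hθ
    rw [Set.mem_ofPred_eq] at hθ
    change FtH (G.over a θ) a = FtH θ a
    rw [hθ]
  nodup := latL_nodup

theorem Bg.pt_mem [Infinite k] (G : Bg k r Op Ve) (a : Fin r → ℕ) : G.pt a ∈ (latAt G a).D := by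
  change G.over a (G.pt a) = G.pt a
  funext v
  cases v <;> rfl

theorem Bg.pt_zero (G : Bg k r Op Ve) (a : Fin r → ℕ) : ∀ w ∈ latL r Op Ve, G.pt a w = 0 := by
  intro w hw
  rw [mem_latL] at hw
  obtain ⟨i, j, hij, rfl⟩ := hw
  rfl

end Pool.Agent.Helper345_Quot
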