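import Pool.Agent.Helper345_Quot.Hnf
import Pool.Agent.Helper345_Quot.Alg
import Pool.Agent.Helper345_Quot.FamU

/-!
Local lattices and the criterion.
-/

noncomputable section

namespace Pool.Agent.Helper345_Quot

open Polynomial

variable {k : Type*} [Field k] {r : ℕ} {Op Ve : Type}

/-- stability under operators and membership of vectors -/
def Stab (T : Op → Matrix (Fin r) (Fin r) k[X]) (w : Ve → Fin r → k[X])
    (N : Submodule k[X] (Fin r → k[X])) : Prop :=
  (∀ o, ∀ v ∈ N, Matrix.vecMul v (T o) ∈ N) ∧ ∀ j, w j ∈ N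

theorem comb_vecMul (B : Fin r → Fin r → k[X]) (c : Fin r → k[X]) :
    ∑ i, c i • B i = Matrix.vecMul c (Matrix.of B) := by
  funext j
  rw [comb_apply]
  rfl

theorem mem_rowL_iff {B : Fin r → Fin r → k[X]} (hd : (Matrix.of B).det ≠ 0) (v : Fin r → k[X]) :
    v ∈ rowL B ↔ ∀ p, (Matrix.of B).det ∣ Matrix.vecMul v (Matrix.of B).adjugate p := by
  rw [mem_rowL]
  constructor
  · rintro ⟨c, rfl⟩ p
    rw [comb_vecMul, Matrix.vecMul_vecMul, Matrix.mul_adjugate, Matrix.vecMul_smul,
      Matrix.vecMul_one]
    exact ⟨c p, rfl⟩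
  · intro h
    choose c hc using h
    refine ⟨c, ?_⟩
    rw [comb_vecMul]
    have h1 : Matrix.vecMul v (Matrix.of B).adjugate = (Matrix.of B).det • c := funext hc
    have h2 : Matrix.vecMul (Matrix.vecMul v (Matrix.of B).adjugate) (Matrix.of B) =
        (Matrix.of B).det • v := by
      rw [Matrix.vecMul_vecMul, Matrix.adjugate_mul, Matrix.vecMul_smul, Matrix.vecMul_one]
    rw [h1, Matrix.smul_vecMul] at h2
    exact (smul_right_injective _ hd h2).symm

theorem ut_det {a : Fin r → ℕ} {B : Fin r → Fin r → k[X]} (hB : UT a B) :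
    (Matrix.of B).det = X ^ (∑ i, a i) := by
  rw [Matrix.det_of_isUpperTriangular]
  · simp only [Matrix.of_apply, hB.1]
    rw [Finset.prod_pow_eq_pow_sum]
  · intro i j hij
    exact hB.2 i j hij

theorem stab_iff {a : Fin r → ℕ} {B : Fin r → Fin r → k[X]} (hB : UT a B)
    (T : Op → Matrix (Fin r) (Fin r) k[X]) (w : Ve → Fin r → k[X]) :
    Stab T w (rowL B) ↔ CritM T w (Matrix.of B) (X ^ (∑ i, a i)) := by
  have hd := ut_det hB
  have hd0 : (Matrix.of B).det ≠ 0 := by rw [hd]; exact pow_ne_zero _ X_ne_zero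
  unfold Stab CritM
  rw [← hd]
  apply and_congr
  · apply forall_congr'
    intro o
    constructor
    · intro h p q
      have h1 := (mem_rowL_iff hd0 _).1 (h (B p) (Submodule.subset_span ⟨p, rfl⟩)) q
      rw [Matrix.vecMul_vecMul] at h1
      rw [Matrix.mul_assoc]
      exact h1
    · intro h v hv
      obtain ⟨c, rfl⟩ := mem_rowL.1 hv
      have h1 : Matrix.vecMul (∑ i, c i • B i) (T o) = ∑ i, c i • Matrix.vecMul (B i) (T o) := by
        rw [comb_vecMul, Matrix.vecMul_vecMul]
        funext j
        rw [Finset.sum_apply]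
        rfl
      rw [h1]
      apply Submodule.sum_mem
      intro i _
      apply Submodule.smul_mem
      rw [mem_rowL_iff hd0]
      intro q
      have h2 := h i q
      rw [Matrix.mul_assoc] at h2
      rw [Matrix.vecMul_vecMul]
      exact h2
  · apply forall_congr'
    intro j
    exact mem_rowL_iff hd0 _

theorem coe_dvd (n : ℕ) (f : k[X]) : (X : k[X]) ^ n ∣ f ↔
    (PowerSeries.X : PowerSeries k) ^ n ∣ (f : PowerSeries k) := by
  rw [Polynomial.X_pow_dvd_iff, PowerSeries.X_pow_dvd_iff]
  simp only [Polynomial.coeff_coe]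

/-- polynomial point attached to the data -/
def ppt (T : Op → Matrix (Fin r) (Fin r) k[X]) (w : Ve → Fin r → k[X]) (a : Fin r → ℕ)
    (B : Fin r → Fin r → k[X]) : HV r Op Ve → k[X]
  | HV.T o p q => T o p q
  | HV.w j p => w j p
  | HV.y i => X ^ a i
  | HV.m i j => B i j

theorem ppt_Bmat {a : Fin r → ℕ} {B : Fin r → Fin r → k[X]} (hB : UT a B)
    (T : Op → Matrix (Fin r) (Fin r) k[X]) (w : Ve → Fin r → k[X]) :
    Bmat (ppt T w a B) = Matrix.of B := by
  ext1 i j
  simp only [Bmat, Matrix.of_apply, ppt]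
  split_ifs with h1 h2
  · subst h1; rw [hB.1]
  · rfl
  · rw [hB.2 i j (lt_of_le_of_ne (not_lt.1 h2) (Ne.symm h1))]

theorem critM_coe {a : Fin r → ℕ} {B : Fin r → Fin r → k[X]} (hB : UT a B)
    (T : Op → Matrix (Fin r) (Fin r) k[X]) (w : Ve → Fin r → k[X]) (n : ℕ) :
    CritM T w (Matrix.of B) (X ^ n) ↔
      Crit (fun v => ((ppt T w a B v : k[X]) : PowerSeries k)) (PowerSeries.X ^ n) := by
  have h1 : CritM T w (Matrix.of B) (X ^ n) ↔ Crit (ppt T w a B) (X ^ n) := by
    have hT : Tmat (ppt T w a B) = T := by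
      funext o; ext1 i j; rfl
    have hw : Wvec (ppt T w a B) = w := by
      funext j p; rfl
    rw [crit_iff, hT, hw, ppt_Bmat hB]
  rw [h1]
  have hc : (fun v => ((ppt T w a B v : k[X]) : PowerSeries k)) =
      fun v => (Polynomial.coeToPowerSeries.ringHom : k[X] →+* PowerSeries k) (ppt T w a B v) := by
    funext v
    rfl
  rw [hc]
  unfold Crit
  have hs : ∀ o p q, stE (fun v => (Polynomial.coeToPowerSeries.ringHom : k[X] →+* PowerSeries k)
      (ppt T w a B v)) o p q = (Polynomial.coeToPowerSeries.ringHom : k[X] →+* PowerSeries k)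
      (stE (ppt T w a B) o p q) := fun o p q => by rw [map_stE]
  have hm : ∀ j p, meE (fun v => (Polynomial.coeToPowerSeries.ringHom : k[X] →+* PowerSeries k)
      (ppt T w a B v)) j p = (Polynomial.coeToPowerSeries.ringHom : k[X] →+* PowerSeries k)
      (meE (ppt T w a B) j p) := fun j p => by rw [map_meE]
  have hd : ∀ f : k[X], (X : k[X]) ^ n ∣ f ↔ (PowerSeries.X : PowerSeries k) ^ n ∣
      (Polynomial.coeToPowerSeries.ringHom : k[X] →+* PowerSeries k) f := fun f => coe_dvd n f
  simp only [hs, hm, hd]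

/-! ### shifts -/

/-- translation of the variable -/
def tau (l : k) : k[X] ≃ₐ[k] k[X] := taylorEquiv l

theorem tau_apply (l : k) (p : k[X]) : tau l p = p.comp (X + C l) := rfl

theorem tau_X_sub (l : k) : tau l (X - C l) = X := by
  rw [tau_apply]
  simp

theorem tau_symm_X (l : k) : (tau l).symm X = X - C l := by
  rw [AlgEquiv.symm_apply_eq, tau_X_sub]

/-- translation of vectors -/
def shM (l : k) (v : Fin r → k[X]) : Fin r → k[X] := fun i => tau l (v i)

/-- inverse translation of vectors -/
def shI (l : k) (v : Fin r → k[X]) : Fin r → k[X] := fun i => (tau l).symm (v i)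

theorem shM_shI (l : k) (v : Fin r → k[X]) : shM l (shI l v) = v := by
  funext i; exact (tau l).apply_symm_apply (v i)

theorem shI_shM (l : k) (v : Fin r → k[X]) : shI l (shM l v) = v := by
  funext i; exact (tau l).symm_apply_apply (v i)

/-- translated submodule -/
def shN (l : k) (N : Submodule k[X] (Fin r → k[X])) : Submodule k[X] (Fin r → k[X]) where
  carrier := {v | shI l v ∈ N}
  add_mem' := by
    intro v w hv hw
    have : shI l (v + w) = shI l v + shI l w := by
      funext i; exact map_add _ _ _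
    rw [Set.mem_ofPred_eq] at *
    rw [this]; exact N.add_mem hv hw
  zero_mem' := by
    have : shI l (0 : Fin r → k[X]) = 0 := by
      funext i; exact map_zero _
    rw [Set.mem_ofPred_eq, this]; exact N.zero_mem
  smul_mem' := by
    intro c v hv
    have : shI l (c • v) = (tau l).symm c • shI l v := by
      funext i; exact map_mul _ _ _
    rw [Set.mem_ofPred_eq] at *
    rw [this]; exact N.smul_mem _ hv

theorem mem_shN {l : k} {N : Submodule k[X] (Fin r → k[X])} {v : Fin r → k[X]} :
    v ∈ shN l N ↔ shI l v ∈ N := Iff.rfl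

/-- inverse translated submodule -/
def shNI (l : k) (N : Submodule k[X] (Fin r → k[X])) : Submodule k[X] (Fin r → k[X]) where
  carrier := {v | shM l v ∈ N}
  add_mem' := by
    intro v w hv hw
    have : shM l (v + w) = shM l v + shM l w := by
      funext i; exact map_add _ _ _
    rw [Set.mem_ofPred_eq] at *
    rw [this]; exact N.add_mem hv hw
  zero_mem' := by
    have : shM l (0 : Fin r → k[X]) = 0 := by
      funext i; exact map_zero _
    rw [Set.mem_ofPred_eq, this]; exact N.zero_mem
  smul_mem' := by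
    intro c v hv
    have : shM l (c • v) = (tau l) c • shM l v := by
      funext i; exact map_mul _ _ _
    rw [Set.mem_ofPred_eq] at *
    rw [this]; exact N.smul_mem _ hv

theorem mem_shNI {l : k} {N : Submodule k[X] (Fin r → k[X])} {v : Fin r → k[X]} :
    v ∈ shNI l N ↔ shM l v ∈ N := Iff.rfl

theorem shN_shNI (l : k) (N : Submodule k[X] (Fin r → k[X])) : shN l (shNI l N) = N := by
  ext v; rw [mem_shN, mem_shNI, shM_shI]

theorem shNI_shN (l : k) (N : Submodule k[X] (Fin r → k[X])) : shNI l (shN l N) = N := by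
  ext v; rw [mem_shNI, mem_shN, shI_shM]

/-- translation as a linear map -/
def shL (l : k) : (Fin r → k[X]) ≃ₗ[k] (Fin r → k[X]) where
  toFun := shM l
  invFun := shI l
  left_inv := shI_shM l
  right_inv := shM_shI l
  map_add' := fun v w => by funext i; exact map_add _ _ _
  map_smul' := fun c v => by funext i; exact map_smul (tau l) _ _

/-- the quotients by translated submodules agree -/
def shQ (l : k) (N : Submodule k[X] (Fin r → k[X])) :
    ((Fin r → k[X]) ⧸ shNI l N) ≃ₗ[k] ((Fin r → k[X]) ⧸ N) :=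
  (Submodule.Quotient.restrictScalarsEquiv k (shNI l N)).symm.trans
    ((Submodule.Quotient.equiv ((shNI l N).restrictScalars k) (N.restrictScalars k) (shL l) (by
      ext v
      rw [Submodule.mem_map]
      constructor
      · rintro ⟨u, hu, rfl⟩
        exact hu
      · intro hv
        refine ⟨shI l v, ?_, shM_shI l v⟩
        change shM l (shI l v) ∈ N
        rw [shM_shI]; exact hv)).trans (Submodule.Quotient.restrictScalarsEquiv k N))

/-- translated operators -/
def shT (l : k) (T : Op → Matrix (Fin r) (Fin r) k[X]) : Op → Matrix (Fin r) (Fin r) k[X] :=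
  fun o => (T o).map (tau l)

theorem shM_vecMul (l : k) (v : Fin r → k[X]) (A : Matrix (Fin r) (Fin r) k[X]) :
    shM l (Matrix.vecMul v A) = Matrix.vecMul (shM l v) (A.map (tau l)) := by
  funext i
  simp only [shM, Matrix.vecMul, dotProduct, map_sum, map_mul, Matrix.map_apply]

theorem stab_shNI (l : k) (T : Op → Matrix (Fin r) (Fin r) k[X]) (w : Ve → Fin r → k[X])
    (N : Submodule k[X] (Fin r → k[X])) :
    Stab T w (shNI l N) ↔ Stab (shT l T) (fun j => shM l (w j)) N := by
  unfold Stab
  apply and_congr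
  · apply forall_congr'
    intro o
    constructor
    · intro h v hv
      have h1 := h (shI l v) (by rw [mem_shNI, shM_shI]; exact hv)
      rw [mem_shNI, shM_vecMul, shM_shI] at h1
      exact h1
    · intro h v hv
      rw [mem_shNI, shM_vecMul]
      exact h _ hv
  · exact Iff.rfl

theorem ut_pow_mem {a : Fin r → ℕ} {B : Fin r → Fin r → k[X]} (hB : UT a B) (v : Fin r → k[X]) :
    (X : k[X]) ^ (∑ i, a i) • v ∈ rowL B := by
  rw [mem_rowL]
  refine ⟨Matrix.vecMul v (Matrix.of B).adjugate, ?_⟩
  rw [comb_vecMul, Matrix.vecMul_vecMul, Matrix.adjugate_mul, Matrix.vecMul_smul,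
    Matrix.vecMul_one, ut_det hB]

end Pool.Agent.Helper345_Quot
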