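import Pool.Agent.Helper345_Quot.ParEx

/-!
Existence of parametrisations for modules over finitely generated algebras.
-/

noncomputable section

namespace Pool.Agent.Helper345_Quot

open Polynomial

variable {k : Type*} [Field k]

/-- transfer of parametrisations in the other direction -/
def Param.untransfer {R₁ G₁ R₂ G₂ : Type*} [Ring R₁] [AddCommGroup G₁] [Module R₁ G₁] [Module k G₁]
    [Ring R₂] [AddCommGroup G₂] [Module R₂ G₂] [Module k G₂] {Q₁ : Set (Submodule R₁ G₁)}
    {Q₂ : Set (Submodule R₂ G₂)} (P : Param k R₂ G₂ Q₂) (π : G₂ →ₗ[k] G₁)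
    (hπ : Function.Surjective π)
    (Φ : Submodule R₁ G₁ → Submodule R₂ G₂) (hΦ : ∀ N v, v ∈ Φ N ↔ π v ∈ N)
    (hb : Set.BijOn Φ Q₁ Q₂) : Param k R₁ G₁ Q₁ := by
  classical
  exact
  { κ := P.κ
    fin := P.fin
    S := P.S
    φ := fun x => Function.invFunOn Φ Q₁ (P.φ x)
    bij := (Set.BijOn.symm hb.invOn_invFunOn.symm hb).comp P.bij
    dfn := by
      intro m g
      choose g' hg' using fun j => hπ (g j)
      have h := P.dfn m g'
      have h1 : {z : P.κ ⊕ Fin m → k | z ∘ Sum.inl ∈ P.S ∧
          ∑ j, z (Sum.inr j) • g j ∈ Function.invFunOn Φ Q₁ (P.φ (z ∘ Sum.inl))} =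
          {z : P.κ ⊕ Fin m → k | z ∘ Sum.inl ∈ P.S ∧
          ∑ j, z (Sum.inr j) • g' j ∈ P.φ (z ∘ Sum.inl)} := by
        ext z
        rw [Set.mem_ofPred_eq, Set.mem_ofPred_eq]
        apply and_congr_right
        intro hz
        have h2 : Φ (Function.invFunOn Φ Q₁ (P.φ (z ∘ Sum.inl))) = P.φ (z ∘ Sum.inl) :=
          Function.invFunOn_eq (hb.surjOn (P.maps hz))
        conv_rhs => rw [← h2]
        rw [hΦ, map_sum]
        simp only [map_smul, hg']
      rw [h1]
      exact h }

variable {R : Type*} [CommRing R] [Algebra k R] {G : Type*}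
  [AddCommGroup G] [Module R G] [Module k G] [IsScalarTower k R G]

/-- existence of a parametrisation in the affine case -/
theorem exists_param_aff [Algebra.FiniteType k R] [Module.Finite R G]
    (hdim : Module.supportDim R G ≤ 1) (n : ℕ) :
    Nonempty (Param k R G (QuotSet k R G n)) := by
  classical
  obtain ⟨z, m, h, hgen⟩ := exists_norm (k := k) hdim
  have hsurj : Function.Surjective (piH (k := k) z h) := by
    intro g
    obtain ⟨c, hc⟩ := hgen g
    exact ⟨c, hc.symm⟩
  -- relations
  let W : Submodule k[X] (Fin m → k[X]) := phiH z h ⊥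
  obtain ⟨e, w, hw⟩ := Submodule.fg_iff_exists_fin_generating_family.1
    (IsNoetherian.noetherian W)
  -- operators
  obtain ⟨d, f, hf⟩ := Algebra.FiniteType.iff_quotient_mvPolynomial''.1
    (inferInstance : Algebra.FiniteType k R)
  choose T hT using fun (o : Fin d) (i : Fin m) => hsurj (f (MvPolynomial.X o) • h i)
  let TM : Fin d → Matrix (Fin m) (Fin m) k[X] := fun o => Matrix.of (T o)
  have hTM : ∀ o v, piH z h (Matrix.vecMul v (TM o)) = f (MvPolynomial.X o) • piH z h v := by
    intro o v
    have h1 : Matrix.vecMul v (TM o) = ∑ i, v i • T o i := by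
      rw [comb_vecMul]
    rw [h1, map_sum, piH_apply z h v, Finset.smul_sum]
    apply Finset.sum_congr rfl
    intro i _
    rw [piH_smul, hT, smul_comm]
  have hequiv : ∀ N : Submodule R G, Nonempty (((Fin m → k[X]) ⧸ (phiH z h N : Submodule k[X] _))
      ≃ₗ[k] (G ⧸ N)) := by
    intro N
    let F : (Fin m → k[X]) →ₗ[k] (G ⧸ N) := (N.mkQ.restrictScalars k).comp (piH z h)
    have hF : Function.Surjective F := N.mkQ_surjective.comp hsurj
    have hker : LinearMap.ker F = (phiH z h N : Submodule k[X] _).restrictScalars k := by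
      ext v
      rw [LinearMap.mem_ker, Submodule.restrictScalars_mem, mem_phiH]
      change N.mkQ (piH z h v) = 0 ↔ _
      rw [Submodule.mkQ_apply, Submodule.Quotient.mk_eq_zero]
    refine ⟨(Submodule.Quotient.restrictScalarsEquiv k _).symm.trans
      ((Submodule.quotEquivOfEq _ _ hker.symm).trans (F.quotKerEquivOfSurjective hF))⟩
  have hbij : ∀ n, Set.BijOn (phiH (k := k) z h) (QuotSet k R G n) (QN TM w n) := by
    intro n
    refine ⟨?_, ?_, ?_⟩
    · rintro N ⟨hN1, hN2⟩
      obtain ⟨eq⟩ := hequiv N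
      refine ⟨⟨?_, ?_⟩, Module.Finite.equiv eq.symm, ?_⟩
      · intro o v hv
        rw [mem_phiH] at hv ⊢
        rw [hTM]
        exact N.smul_mem _ hv
      · intro j
        have h1 : w j ∈ W := by
          rw [← hw]; exact Submodule.subset_span ⟨j, rfl⟩
        rw [mem_phiH]
        have h2 : piH z h (w j) ∈ (⊥ : Submodule R G) := h1
        rw [(Submodule.mem_bot R).1 h2]
        exact N.zero_mem
      · rw [eq.finrank_eq, hN2]
    · intro N _ N' _ hNN
      ext g
      obtain ⟨v, rfl⟩ := hsurj g
      rw [← mem_phiH, ← mem_phiH, hNN]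
    · rintro N' ⟨⟨hs, hwj⟩, hfin, hrk⟩
      have hW : W ≤ N' := by
        rw [← hw, Submodule.span_le]
        rintro _ ⟨j, rfl⟩
        exact hwj j
      have hsub : ∀ u v : Fin m → k[X], piH z h u = piH z h v → u ∈ N' → v ∈ N' := by
        intro u v huv hu
        have h1 : u - v ∈ W := by
          change piH z h (u - v) ∈ (⊥ : Submodule R G)
          rw [map_sub, huv, sub_self]; exact Submodule.zero_mem _
        have h2 : v = u - (u - v) := by abel
        rw [h2]
        exact N'.sub_mem hu (hW h1)
      have hst : ∀ (p : MvPolynomial (Fin d) k) (v : Fin m → k[X]), v ∈ N' →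
          ∃ u ∈ N', piH z h u = f p • piH z h v := by
        intro p
        induction p using MvPolynomial.induction_on with
        | C a =>
          intro v hv
          refine ⟨C a • v, N'.smul_mem _ hv, ?_⟩
          rw [piH_smul]
          congr 1
          rw [aeval_C, ← MvPolynomial.algebraMap_eq, AlgHom.commutes]
        | add p q hp hq =>
          intro v hv
          obtain ⟨u, hu, hu'⟩ := hp v hv
          obtain ⟨u₂, hu₂, hu₂'⟩ := hq v hv
          exact ⟨u + u₂, N'.add_mem hu hu₂, by rw [map_add, hu', hu₂', map_add, add_smul]⟩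
        | mul_X p o hp =>
          intro v hv
          obtain ⟨u, hu, hu'⟩ := hp (Matrix.vecMul v (TM o)) (hs o v hv)
          exact ⟨u, hu, by rw [hu', hTM, map_mul, mul_smul]⟩
      let N : Submodule R G :=
        { carrier := {g | ∃ v ∈ N', piH z h v = g}
          add_mem' := by
            rintro _ _ ⟨v, hv, rfl⟩ ⟨u, hu, rfl⟩
            exact ⟨v + u, N'.add_mem hv hu, map_add _ _ _⟩
          zero_mem' := ⟨0, N'.zero_mem, map_zero _⟩
          smul_mem' := by
            rintro c _ ⟨v, hv, rfl⟩
            obtain ⟨p, rfl⟩ := hf c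
            exact hst p v hv }
      have hN : phiH z h N = N' := by
        ext v
        rw [mem_phiH]
        constructor
        · rintro ⟨u, hu, huv⟩
          exact hsub u v huv hu
        · intro hv
          exact ⟨v, hv, rfl⟩
      refine ⟨N, ?_, hN⟩
      obtain ⟨eq⟩ := hequiv N
      rw [hN] at eq
      exact ⟨Module.Finite.equiv eq, by rw [← eq.finrank_eq, hrk]⟩
  obtain ⟨P⟩ := exists_param_QN TM w n
  exact ⟨P.untransfer (piH z h) hsurj (phiH z h) (fun N v => mem_phiH) (hbij n)⟩

end Pool.Agent.Helper345_Quot
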