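import Pool.Agent.Helper345_Quot.Sch
import Pool.Agent.Helper345_Quot.ParEx2

/-!
Membership in the sections over smaller open sets.
-/

noncomputable section

namespace Pool.Agent.Helper345_Quot

universe u

open AlgebraicGeometry CategoryTheory TopologicalSpace Opposite

attribute [local instance] algSec algStk modSec modStk

variable {k : Type u} [Field k] {X : Scheme.{u}} [X.Over (Spec (.of k))] {G : X.Modules}
  [G.IsQuasicoherent]

variable (k) in
include k in
/-- powers of the elements of the prime kill modules concentrated at the prime -/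
theorem LocAt.pow_smul_eq_zero {R Q : Type*} [CommRing R] [Algebra k R] [AddCommGroup Q]
    [Module R Q] [Module k Q] [IsScalarTower k R Q] [Module.Finite k Q] {p : Ideal R}
    (h : LocAt Q p) (hp : p.IsPrime) {f : R} (hf : f ∈ p) {n : ℕ} (hn : Module.finrank k Q ≤ n)
    (q : Q) : f ^ n • q = 0 := by
  let T : Module.End k Q := Algebra.lsmul k k Q f
  have hT : ∀ (m : ℕ) (v : Q), (T ^ m) v = f ^ m • v := by
    intro m v
    have h1 : T ^ m = Algebra.lsmul k k Q (f ^ m) := by rw [map_pow]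
    rw [h1]; rfl
  obtain ⟨m, hm⟩ := h.pow_mem_ann k hp hf
  rw [Module.mem_annihilator] at hm
  have h1 : (T ^ (max m n)) q = 0 := by
    rw [hT, ← Nat.sub_add_cancel (le_max_left m n), pow_add, mul_smul, hm, smul_zero]
  have h2 : q ∈ LinearMap.ker (T ^ (max m n)) := h1
  rw [Module.End.ker_pow_eq_ker_pow_finrank_of_le (hn.trans (le_max_right m n)),
    ← Module.End.ker_pow_eq_ker_pow_finrank_of_le hn] at h2
  rw [← hT]
  exact h2

section loc

variable {U : X.Opens} (hU : IsAffineOpen U)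

/-- membership on a basic open set -/
theorem basic_mem_iff (N₀ : Submodule Γ(X, U) Γ(G, U)) [Module.Finite k (Γ(G, U) ⧸ N₀)] {n : ℕ}
    (hn : Module.finrank k (Γ(G, U) ⧸ N₀) ≤ n) (f : Γ(X, U)) (s : Γ(G, U)) :
    (∀ (x : X) (hx : x ∈ X.basicOpen f),
      grm G x U (X.basicOpen_le f hx) s ∈ (extS hU N₀).stk x) ↔ f ^ n • s ∈ N₀ := by
  constructor
  · intro h
    rw [← (ptLoc_covers (G := G) hU).glue_push N₀, mem_glue]
    intro x
    change grm G x U x.2 (f ^ n • s) ∈ _
    by_cases hx : (x : X) ∈ X.basicOpen f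
    · have h1 := h x hx
      rw [extS_stk k, extFam_of_mem hU N₀ x.2] at h1
      rw [grm_smul]
      exact Submodule.smul_mem _ _ h1
    · have hf : f ∈ ptI x.2 := by
        by_contra h1
        exact hx ((notMem_ptI' x.2 f).1 h1)
      let L := ptLoc G hU x.2
      have hsp := (ptLoc_covers (G := G) hU).push_spec (k := k) (ptLoc_k hU) (ptLoc_inj hU) N₀
      have h2 : Module.Finite k (Γ(G, U) ⧸ L.pull (L.push N₀)) := by
        have := hsp.1 x
        exact L.finite_of_finite (ptLoc_k hU x) _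
      have h3 : Module.finrank k (Γ(G, U) ⧸ L.pull (L.push N₀)) ≤ n :=
        (LinearMap.finrank_le_finrank_of_surjective
          (f := (Submodule.factor (L.le_pull_push N₀)).restrictScalars k)
          (Submodule.factor_surjective (L.le_pull_push N₀))).trans hn
      have h4 := (L.locAt (L.push N₀)).pow_smul_eq_zero k L.prime hf h3
        (Submodule.Quotient.mk s)
      rw [← Submodule.Quotient.mk_smul, Submodule.Quotient.mk_eq_zero] at h4
      exact h4
  · intro h x hx
    have hxU := X.basicOpen_le f hx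
    rw [extS_stk k, extFam_of_mem hU N₀ hxU]
    have h1 := (ptLoc G hU hxU).γ_mem_push h
    have h2 : (ptLoc G hU hxU).γ (f ^ n • s) =
        (ptLoc G hU hxU).g (f ^ n) • (ptLoc G hU hxU).γ s := (ptLoc G hU hxU).smul _ _
    rw [h2] at h1
    apply (ptLoc G hU hxU).unit_smul_mem _ h1
    intro hf
    have h3 : f ∈ ptI hxU := (ptI_prime hxU).mem_of_pow_mem n hf
    exact (notMem_ptI' hxU f).2 hx h3

/-- vanishing on a basic open set -/
theorem basic_top_iff (N₀ : Submodule Γ(X, U) Γ(G, U)) [Module.Finite k (Γ(G, U) ⧸ N₀)] {n : ℕ}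
    (hn : Module.finrank k (Γ(G, U) ⧸ N₀) ≤ n) (f : Γ(X, U)) {J : Type*} (h : J → Γ(G, U))
    (hh : Submodule.span Γ(X, U) (Set.range h) = ⊤) :
    (∀ x ∈ X.basicOpen f, (extS hU N₀).stk x = ⊤) ↔ ∀ j, f ^ n • h j ∈ N₀ := by
  constructor
  · intro h1 j
    rw [← basic_mem_iff (k := k) hU N₀ hn]
    intro x hx
    rw [h1 x hx]
    trivial
  · intro h1 x hx
    have hxU := X.basicOpen_le f hx
    rw [extS_stk k, extFam_of_mem hU N₀ hxU, ← (ptLoc G hU hxU).pull_eq_top_iff, eq_top_iff, ← hh,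
      Submodule.span_le]
    rintro _ ⟨j, rfl⟩
    have h2 := (basic_mem_iff (k := k) hU N₀ hn f (h j)).2 (h1 j) x hx
    rw [extS_stk k, extFam_of_mem hU N₀ hxU] at h2
    exact h2

include hU in
/-- covering by basic open sets -/
theorem exists_basic_cover (V : X.Opens) (hV : IsCompact ((U ⊓ V : X.Opens) : Set X)) :
    ∃ (b : ℕ) (f : Fin b → Γ(X, U)), (∀ a, X.basicOpen (f a) ≤ V) ∧
      ∀ x ∈ U, x ∈ V → ∃ a, x ∈ X.basicOpen (f a) := by
  have h1 : ∀ x : ((U ⊓ V : X.Opens) : Set X), ∃ f : Γ(X, U), X.basicOpen f ≤ V ∧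
      (x : X) ∈ X.basicOpen f := fun x =>
    hU.exists_basicOpen_le (V := V) ⟨x, x.2.2⟩ x.2.1
  choose f hf hxf using h1
  obtain ⟨t, ht⟩ := hV.elim_finite_subcover (fun x => (X.basicOpen (f x) : Set X))
    (fun x => (X.basicOpen (f x)).isOpen) (fun x hx => Set.mem_iUnion.2 ⟨⟨x, hx⟩, hxf _⟩)
  refine ⟨t.card, fun a => f (t.equivFin.symm a), fun a => hf _, fun x hx hx' => ?_⟩
  have h2 := ht ⟨hx, hx'⟩
  simp only [Set.mem_iUnion] at h2
  obtain ⟨y, hy, hxy⟩ := h2
  exact ⟨t.equivFin ⟨y, hy⟩, by simpa using hxy⟩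

include hU in
/-- extension of finitely many sections with a common denominator -/
theorem exists_ext_sections {V : X.Opens} {f : Γ(X, U)} (hf : X.basicOpen f ≤ V)
    {m : ℕ} (g : Fin m → Γ(G, V)) : ∃ (e : ℕ) (s : Fin m → Γ(G, U)), ∀ j,
      rs G (X.basicOpen_le f) (s j) = rsX (X.basicOpen_le f) (f ^ e) • rs G hf (g j) := by
  choose e s hs using fun j => loc_surj hU f (rs G hf (g j))
  refine ⟨∑ j, e j, fun j => f ^ (∑ i ∈ Finset.univ.erase j, e i) • s j, fun j => ?_⟩
  rw [rs_smul, hs, ← mul_smul, ← map_mul, ← pow_add,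
    Finset.sum_erase_add _ _ (Finset.mem_univ j)]

end loc

end Pool.Agent.Helper345_Quot
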