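import Pool.Agent.Helper345_Quot.Gf
import Mathlib.RingTheory.PowerSeries.Inverse
import Mathlib.RingTheory.PowerSeries.Derivative

/-!
Logarithmic derivatives of power series.
-/

noncomputable section

namespace Pool.Agent.Helper345_Quot

open PowerSeries

/-- the operator `q d/dq` -/
def th (f : PowerSeries ℚ) : PowerSeries ℚ := PowerSeries.mk fun n => (n : ℚ) * coeff n f

theorem coeff_th (n : ℕ) (f : PowerSeries ℚ) : coeff n (th f) = (n : ℚ) * coeff n f := by
  unfold th
  rw [coeff_mk]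

theorem th_mul (f g : PowerSeries ℚ) : th (f * g) = th f * g + f * th g := by
  ext n
  rw [coeff_th, map_add, coeff_mul, coeff_mul, coeff_mul, Finset.mul_sum, ← Finset.sum_add_distrib]
  apply Finset.sum_congr rfl
  intro p hp
  rw [Finset.HasAntidiagonal.mem_antidiagonal] at hp
  rw [coeff_th, coeff_th, ← hp]
  push_cast
  ring

/-- logarithmic derivative -/
def ld (f : PowerSeries ℚ) : PowerSeries ℚ := th f * f⁻¹

/-- constant coefficient one -/
def One1 (f : PowerSeries ℚ) : Prop := constantCoeff f = 1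

theorem One1.ne {f : PowerSeries ℚ} (hf : One1 f) : constantCoeff f ≠ 0 := by
  rw [show constantCoeff f = 1 from hf]; exact one_ne_zero

theorem One1.mul {f g : PowerSeries ℚ} (hf : One1 f) (hg : One1 g) : One1 (f * g) := by
  unfold One1 at *
  rw [map_mul, hf, hg, mul_one]

theorem One1.one : One1 1 := by unfold One1; simp

theorem One1.pow {f : PowerSeries ℚ} (hf : One1 f) (n : ℕ) : One1 (f ^ n) := by
  unfold One1 at *
  rw [map_pow, hf, one_pow]

theorem One1.prod {J : Type*} (s : Finset J) {f : J → PowerSeries ℚ} (hf : ∀ j ∈ s, One1 (f j)) :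
    One1 (∏ j ∈ s, f j) := by
  unfold One1 at *
  rw [map_prod]
  exact Finset.prod_eq_one hf

theorem ld_mul {f g : PowerSeries ℚ} (hf : One1 f) (hg : One1 g) : ld (f * g) = ld f + ld g := by
  unfold ld
  have h1 : f * f⁻¹ = 1 := PowerSeries.mul_inv_cancel f hf.ne
  have h2 : g * g⁻¹ = 1 := PowerSeries.mul_inv_cancel g hg.ne
  rw [th_mul, PowerSeries.mul_inv_rev]
  linear_combination (th f * f⁻¹) * h2 + (th g * g⁻¹) * h1

theorem ld_one : ld 1 = 0 := by
  have h := ld_mul One1.one One1.one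
  rw [mul_one] at h
  have : ld 1 + ld 1 = ld 1 + 0 := by rw [← h, add_zero]
  exact add_left_cancel this

theorem ld_pow {f : PowerSeries ℚ} (hf : One1 f) (n : ℕ) : ld (f ^ n) = (n : PowerSeries ℚ) * ld f := by
  induction n with
  | zero => simp [ld_one]
  | succ n ih =>
    rw [pow_succ, ld_mul (hf.pow n) hf, ih]
    push_cast
    ring

theorem ld_prod {J : Type*} (s : Finset J) {f : J → PowerSeries ℚ} (hf : ∀ j ∈ s, One1 (f j)) :
    ld (∏ j ∈ s, f j) = ∑ j ∈ s, ld (f j) := by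
  classical
  induction s using Finset.induction_on with
  | empty => simp [ld_one]
  | insert j s hj ih =>
    rw [Finset.prod_insert hj, Finset.sum_insert hj,
      ld_mul (hf j (Finset.mem_insert_self _ _))
        (One1.prod s fun i hi => hf i (Finset.mem_insert_of_mem hi)),
      ih fun i hi => hf i (Finset.mem_insert_of_mem hi)]

theorem eq_of_ld {f g : PowerSeries ℚ} (hf : One1 f) (hg : One1 g) (h : ld f = ld g) : f = g := by
  have h1 : f * f⁻¹ = 1 := PowerSeries.mul_inv_cancel f hf.ne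
  have h2 : g * g⁻¹ = 1 := PowerSeries.mul_inv_cancel g hg.ne
  have hgi : One1 (g⁻¹) := by
    unfold One1 at *
    rw [PowerSeries.constantCoeff_inv, hg, inv_one]
  have h3 : ld (f * g⁻¹) = 0 := by
    have h4 : ld (g * g⁻¹) = 0 := by rw [h2, ld_one]
    rw [ld_mul hg hgi] at h4
    rw [ld_mul hf hgi, h, h4]
  have h5 : th (f * g⁻¹) = 0 := by
    have h6 : (f * g⁻¹) * (f * g⁻¹)⁻¹ = 1 := PowerSeries.mul_inv_cancel _ (hf.mul hgi).ne
    unfold ld at h3
    calc th (f * g⁻¹) = (th (f * g⁻¹) * (f * g⁻¹)⁻¹) * (f * g⁻¹) := by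
          linear_combination (-th (f * g⁻¹)) * h6
      _ = 0 := by rw [h3, zero_mul]
  have h7 : f * g⁻¹ = 1 := by
    ext n
    rcases Nat.eq_zero_or_pos n with rfl | hn
    · rw [coeff_zero_eq_constantCoeff_apply, (hf.mul hgi : One1 _), coeff_zero_eq_constantCoeff_apply]
      simp
    · have h8 := congrArg (coeff n) h5
      rw [coeff_th, map_zero] at h8
      rw [coeff_one, if_neg hn.ne']
      rcases mul_eq_zero.1 h8 with h9 | h9
      · exfalso
        exact hn.ne' (by exact_mod_cast h9)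
      · exact h9
  calc f = (f * g⁻¹) * g := by linear_combination (-f) * h2
    _ = g := by rw [h7, one_mul]

theorem IsRat.inv {f : PowerSeries ℚ} (hf : IsRat f) (h1 : One1 f) : IsRat (f⁻¹) := by
  obtain ⟨P, Q, hQ, hPQ⟩ := hf
  have h2 : f * f⁻¹ = 1 := PowerSeries.mul_inv_cancel f h1.ne
  refine ⟨Q, P, ?_, ?_⟩
  · have h3 := congrArg constantCoeff hPQ
    rw [map_mul, (h1 : constantCoeff f = 1), one_mul] at h3
    have h4 : ∀ R : Polynomial ℚ, constantCoeff (R : PowerSeries ℚ) = R.coeff 0 := by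
      intro R
      rw [← coeff_zero_eq_constantCoeff_apply, Polynomial.coeff_coe]
    rw [h4, h4] at h3
    rw [← h3]; exact hQ
  · rw [← hPQ]
    linear_combination (Q : PowerSeries ℚ) * h2

theorem IsRat.one : IsRat 1 := by simpa using IsRat.const 1

theorem IsRat.pow {f : PowerSeries ℚ} (hf : IsRat f) (n : ℕ) : IsRat (f ^ n) := by
  induction n with
  | zero => rw [pow_zero]; exact IsRat.one
  | succ n ih => rw [pow_succ]; exact ih.mul hf

theorem IsRat.prod {J : Type*} (s : Finset J) {f : J → PowerSeries ℚ}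
    (hf : ∀ j ∈ s, IsRat (f j)) : IsRat (∏ j ∈ s, f j) := by
  classical
  induction s using Finset.induction_on with
  | empty => rw [Finset.prod_empty]; exact IsRat.one
  | insert j s hj ih =>
    rw [Finset.prod_insert hj]
    exact (hf j (Finset.mem_insert_self _ _)).mul
      (ih fun i hi => hf i (Finset.mem_insert_of_mem hi))

/-- The product formula. -/
theorem prod_formula {K : Type*} (Λ : Finset K) (A Fg Gg : PowerSeries ℚ)
    (F G : K → PowerSeries ℚ) (hA : One1 A) (hFg : One1 Fg) (hF : ∀ l ∈ Λ, One1 (F l))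
    (hg : A = Fg * Gg) (hl : ∀ l ∈ Λ, A = F l * G l)
    (hw : ∀ n : ℕ, (n : ℚ) * coeff n A = (1 - (Λ.card : ℚ)) *
      (∑ p ∈ Finset.HasAntidiagonal.antidiagonal n, (p.1 : ℚ) * (coeff p.1 Fg * coeff p.2 Gg)) +
      ∑ l ∈ Λ, ∑ p ∈ Finset.HasAntidiagonal.antidiagonal n,
        (p.1 : ℚ) * (coeff p.1 (F l) * coeff p.2 (G l))) :
    A * Fg ^ Λ.card = Fg * ∏ l ∈ Λ, F l := by
  have h1 : th A = (1 - (Λ.card : PowerSeries ℚ)) * (th Fg * Gg) + ∑ l ∈ Λ, th (F l) * G l := by
    ext n
    rw [coeff_th, hw, map_add, map_sum]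
    have h2 : (1 - (Λ.card : PowerSeries ℚ)) = C (1 - (Λ.card : ℚ)) := by simp
    rw [h2, coeff_C_mul]
    congr 1
    · congr 1
      rw [coeff_mul]
      apply Finset.sum_congr rfl
      intro p _
      rw [coeff_th]; ring
    · apply Finset.sum_congr rfl
      intro l _
      rw [coeff_mul]
      apply Finset.sum_congr rfl
      intro p _
      rw [coeff_th]; ring
  have hAi : A * A⁻¹ = 1 := PowerSeries.mul_inv_cancel A hA.ne
  have h3 : ∀ U V : PowerSeries ℚ, One1 U → A = U * V → V * A⁻¹ = U⁻¹ := by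
    intro U V hU hUV
    have h4 : U * U⁻¹ = 1 := PowerSeries.mul_inv_cancel U hU.ne
    have h5 : U * (V * A⁻¹) = 1 := by rw [← mul_assoc, ← hUV, hAi]
    linear_combination (-(V * A⁻¹)) * h4 + U⁻¹ * h5
  have h6 : ld A = (1 - (Λ.card : PowerSeries ℚ)) * ld Fg + ∑ l ∈ Λ, ld (F l) := by
    unfold ld
    rw [h1, add_mul, Finset.sum_mul]
    congr 1
    · rw [← h3 Fg Gg hFg hg]; ring
    · apply Finset.sum_congr rfl
      intro l hl'
      rw [← h3 (F l) (G l) (hF l hl') (hl l hl')]; ring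
  apply eq_of_ld (hA.mul (hFg.pow _)) (hFg.mul (One1.prod Λ hF))
  rw [ld_mul hA (hFg.pow _), ld_pow hFg, ld_mul hFg (One1.prod Λ hF), ld_prod Λ hF, h6]
  ring

theorem prod_rat {K : Type*} (Λ : Finset K) (A Fg : PowerSeries ℚ) (F : K → PowerSeries ℚ)
    (hFg : One1 Fg) (h : A * Fg ^ Λ.card = Fg * ∏ l ∈ Λ, F l) (hr : IsRat Fg)
    (hr' : ∀ l ∈ Λ, IsRat (F l)) : IsRat A := by
  have h1 : Fg ^ Λ.card * (Fg ^ Λ.card)⁻¹ = 1 := PowerSeries.mul_inv_cancel _ (hFg.pow _).ne
  have h2 : A = Fg * (∏ l ∈ Λ, F l) * (Fg ^ Λ.card)⁻¹ := by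
    rw [← h]
    linear_combination (-A) * h1
  rw [h2]
  exact (hr.mul (IsRat.prod Λ hr')).mul ((hr.pow _).inv (hFg.pow _))

end Pool.Agent.Helper345_Quot
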