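import Pool.Agent.Helper345_Quot.Pattern
import Mathlib.Order.Filter.Basic
import Mathlib.Order.Filter.Finite

/-!
Orders of sums of monomial terms are semilinear functions, uniformly in a parameter.
-/

noncomputable section

namespace Pool.Agent.Helper345_Quot

open PowerSeries Filter

/-- semilinear predicate, in terms of trivial tame data -/
def SP {ι : Type*} (p : (ι → ℕ) → Prop) : Prop :=
  TameP (fun _ : ℤ => 0) (fun (_ : Empty → ℤ) a => p a)

/-- semilinear function -/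
def SF {ι : Type*} (f : (ι → ℕ) → ℕ) : Prop :=
  TameF (fun _ : ℤ => 0) (fun (_ : Empty → ℤ) a => f a)

/-- integer valued function with finite range and semilinear level sets -/
def SZ {ι : Type*} (f : (ι → ℕ) → ℤ) : Prop :=
  TameZ (fun _ : ℤ => 0) (fun (_ : Empty → ℤ) a => f a)

theorem SP.sl {ι : Type*} [Finite ι] {p : (ι → ℕ) → Prop} (h : SP p) : SL p := by
  classical
  have := Fintype.ofFinite ι
  obtain ⟨σ, hσ, H, q, hq, h⟩ := h
  have := Fintype.ofFinite σ
  have h1 : SL (fun v : ι ⊕ σ → ℕ => q v ∧ ∀ j, v (Sum.inr j) = 0) := by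
    refine hq.and ?_
    have h2 : ∀ s : Finset σ, SL (fun v : ι ⊕ σ → ℕ => ∀ j ∈ s, v (Sum.inr j) = 0) := by
      intro s
      induction s using Finset.induction_on with
      | empty => exact (SL.const True).congr fun v => by simp
      | insert j s hj ih =>
        have h3 : SL (fun v : ι ⊕ σ → ℕ => v (Sum.inr j) = 0) := by
          refine (SL.lin_eq 0 0 (Pi.single (Sum.inr j) 1) 0).congr fun v => ?_
          simp [Pi.single_apply]
        exact (h3.and ih).congr fun v => by simp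
    exact (h2 Finset.univ).congr fun v => by simp
  refine h1.exists'.congr fun a => ?_
  have h3 := h (fun i => i.elim) a
  constructor
  · rintro ⟨b, hb1, hb2⟩
    apply h3.2
    have : b = fun _ => 0 := funext fun j => hb2 j
    rw [this] at hb1
    exact hb1
  · intro hp
    refine ⟨fun _ => 0, ?_, fun j => rfl⟩
    exact h3.1 hp

variable {k : Type*} [Field k]

theorem nu_mul_X_pow (f : k⟦X⟧) (n : ℕ) :
    nu k (f * X ^ n) = if nu k f = 0 then 0 else nu k f + n := by
  by_cases hf0 : f = 0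
  · subst hf0; simp [nu]
  · have h1 : nu k f ≠ 0 := nu_ne_zero hf0
    rw [if_neg h1]
    have h2 : nn k (emb k (f * X ^ n)) = hf ^ (nu k f - 1 + n) := by
      rw [map_mul, map_pow, nn_mul, nn_pow, nn_emb_X, nn_emb hf0, pow_add]
    rw [nu_eq_of_nn h2]
    omega

/-- a class of families of power series with eventually constant orders -/
structure OrdClass (k : Type*) [Field k] {Λ : Type*} (𝓕 : Filter Λ) where
  /-- the families -/
  R : Subring (Λ → k⟦X⟧)
  X_mem : (fun _ => (X : k⟦X⟧)) ∈ R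
  ord : ∀ c ∈ R, ∃ n, ∀ᶠ l in 𝓕, nu k (c l) = n

variable {Λ : Type*} {𝓕 : Filter Λ} [NeBot 𝓕] (𝓒 : OrdClass k 𝓕) {ι : Type*} [Finite ι]

/-- minimal order predicate -/
def MinP {n : ℕ} (o : Fin n → ℕ) (g : Fin n → (ι → ℕ) → ℕ) (a : ι → ℕ) (y : ℕ) : Prop :=
  ((∀ i, o i = 0) ∧ y = 0) ∨
    ((∃ i, o i ≠ 0 ∧ y = o i + g i a) ∧ ∀ i, o i ≠ 0 → y ≤ o i + g i a)

theorem minP_unique {n : ℕ} {o : Fin n → ℕ} {g : Fin n → (ι → ℕ) → ℕ} {a : ι → ℕ} {y y' : ℕ}
    (h : MinP o g a y) (h' : MinP o g a y') : y = y' := by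
  rcases h with ⟨h1, h2⟩ | ⟨⟨i, hi, h1⟩, h2⟩
  · rcases h' with ⟨h3, h4⟩ | ⟨⟨i, hi, h3⟩, h4⟩
    · rw [h2, h4]
    · exact absurd (h1 i) hi
  · rcases h' with ⟨h3, h4⟩ | ⟨⟨j, hj, h3⟩, h4⟩
    · exact absurd (h3 i) hi
    · have := h2 j hj
      have := h4 i hi
      omega

/-- no ties: the order is the minimum -/
theorem nu_sum_no_tie {n : ℕ} (c : Fin n → k⟦X⟧) (e : Fin n → ℕ)
    (hno : ∀ i j, i ≠ j → nu k (c i) ≠ 0 → nu k (c j) ≠ 0 → nu k (c i) + e i ≠ nu k (c j) + e j) :
    ((∀ i, nu k (c i) = 0) ∧ nu k (∑ i, c i * X ^ e i) = 0) ∨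
    ((∃ i, nu k (c i) ≠ 0 ∧ nu k (∑ i, c i * X ^ e i) = nu k (c i) + e i) ∧
      ∀ i, nu k (c i) ≠ 0 → nu k (∑ i, c i * X ^ e i) ≤ nu k (c i) + e i) := by
  classical
  by_cases hall : ∀ i, nu k (c i) = 0
  · left
    refine ⟨hall, ?_⟩
    rw [nu_eq_zero]
    apply Finset.sum_eq_zero
    intro i _
    rw [nu_eq_zero.1 (hall i), zero_mul]
  · right
    push Not at hall
    obtain ⟨i₁, hi₁⟩ := hall
    obtain ⟨i₀, hi₀, hmin⟩ := Finset.exists_min_image
      (Finset.univ.filter (fun i => nu k (c i) ≠ 0)) (fun i => nu k (c i) + e i)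
      ⟨i₁, by simp [hi₁]⟩
    have hi₀' : nu k (c i₀) ≠ 0 := (Finset.mem_filter.1 hi₀).2
    have hmin' : ∀ i, nu k (c i) ≠ 0 → nu k (c i₀) + e i₀ ≤ nu k (c i) + e i := fun i hi =>
      hmin i (by simp [hi])
    have hne : ∀ i, nu k (c i) ≠ 0 → c i ≠ 0 := fun i hi h => hi (nu_eq_zero.2 h)
    have hterm : ∀ i, nu k (c i) ≠ 0 →
        nn k (emb k (c i * X ^ e i)) = hf ^ (nu k (c i) - 1 + e i) := by
      intro i hi
      rw [map_mul, map_pow, nn_mul, nn_pow, nn_emb_X, nn_emb (hne i hi), pow_add]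
    have hsum : nn k (emb k (∑ i, c i * X ^ e i)) = hf ^ (nu k (c i₀) - 1 + e i₀) := by
      rw [← Finset.add_sum_erase _ _ (Finset.mem_univ i₀), map_add, map_sum, add_comm]
      rw [add_comm, ← hterm i₀ hi₀']
      apply nn_add_eq_of_lt
      apply nn_sum_lt
      · rw [hterm i₀ hi₀']; exact pow_pos hf_pos _
      · intro i hi
        have hii : i ≠ i₀ := (Finset.mem_erase.1 hi).1
        by_cases h0 : nu k (c i) = 0
        · rw [nu_eq_zero.1 h0, zero_mul, map_zero, nn_zero, hterm i₀ hi₀']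
          exact pow_pos hf_pos _
        · rw [hterm i h0, hterm i₀ hi₀', hf_pow_lt]
          have := hmin' i h0
          have := hno i i₀ hii h0 hi₀'
          omega
    have hnu := nu_eq_of_nn hsum
    refine ⟨⟨i₀, hi₀', by omega⟩, fun i hi => ?_⟩
    have := hmin' i hi
    omega

theorem ord_fin (n : ℕ) : ∀ (c : Fin n → (Λ → k⟦X⟧)), (∀ i, c i ∈ 𝓒.R) →
    ∀ (g : Fin n → (ι → ℕ) → ℕ), (∀ i, SF (g i)) →
    ∃ f : (ι → ℕ) → ℕ, SF f ∧ ∀ᶠ l in 𝓕, ∀ a, nu k (∑ i, c i l * X ^ g i a) = f a := by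
  induction n with
  | zero =>
    intro c hc g hg
    refine ⟨fun _ => 0, TameF.const 0, Eventually.of_forall fun l a => ?_⟩
    simp [nu]
  | succ n ih =>
    intro c hc g hg
    choose o ho using fun i => 𝓒.ord (c i) (hc i)
    -- combined coefficients
    let c' : Fin (n + 1) × Fin n → Fin n → (Λ → k⟦X⟧) := fun p t =>
      if t = p.2 then fun l => c (p.1.succAbove p.2) l + c p.1 l * X ^ (o (p.1.succAbove p.2) - o p.1)
      else c (p.1.succAbove t)
    have hc' : ∀ p t, c' p t ∈ 𝓒.R := by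
      intro p t
      simp only [c']
      split_ifs
      · have h1 : (fun l => c (p.1.succAbove p.2) l +
            c p.1 l * (X : k⟦X⟧) ^ (o (p.1.succAbove p.2) - o p.1)) =
            c (p.1.succAbove p.2) + c p.1 * (fun _ => (X : k⟦X⟧)) ^
              (o (p.1.succAbove p.2) - o p.1) := by
          funext l
          simp
        rw [h1]
        exact 𝓒.R.add_mem (hc _) (𝓒.R.mul_mem (hc _) (𝓒.R.pow_mem 𝓒.X_mem _))
      · exact hc _
    choose f' hf' hf'' using fun p => ih (c' p) (hc' p) (fun t => g (p.1.succAbove t))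
      (fun t => hg _)
    let tie : Fin (n + 1) × Fin n → (ι → ℕ) → Prop := fun p a =>
      o p.1 ≠ 0 ∧ o (p.1.succAbove p.2) ≠ 0 ∧ o p.1 ≤ o (p.1.succAbove p.2) ∧
        o p.1 + g p.1 a = o (p.1.succAbove p.2) + g (p.1.succAbove p.2) a
    -- the eventual statement
    have hev : ∀ᶠ l in 𝓕, (∀ i, nu k (c i l) = o i) ∧
        ∀ p a, nu k (∑ t, c' p t l * X ^ g (p.1.succAbove t) a) = f' p a := by
      refine Eventually.and (eventually_all.2 ho) (eventually_all.2 hf'')
    let G : (ι → ℕ) → ℕ → Prop := fun a y => (∃ p, tie p a ∧ y = f' p a) ∨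
      ((¬ ∃ p, tie p a) ∧ MinP o g a y)
    have hG : ∀ᶠ l in 𝓕, ∀ a y, G a y ↔ y = nu k (∑ i, c i l * X ^ g i a) := by
      refine hev.mono fun l hl a y => ?_
      obtain ⟨h1, h2⟩ := hl
      have htie : ∀ p, tie p a → nu k (∑ i, c i l * X ^ g i a) = f' p a := by
        rintro p ⟨hp1, hp2, hp3, hp4⟩
        rw [← h2 p a, Fin.sum_univ_succAbove _ p.1]
        congr 1
        rw [← Finset.add_sum_erase _ _ (Finset.mem_univ p.2),
          ← Finset.add_sum_erase (Finset.univ) (fun t => c' p t l * X ^ g (p.1.succAbove t) a)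
            (Finset.mem_univ p.2), ← add_assoc]
        congr 1
        · simp only [c', if_true]
          have h3 : g p.1 a = (o (p.1.succAbove p.2) - o p.1) + g (p.1.succAbove p.2) a := by omega
          rw [h3, pow_add]
          ring
        · apply Finset.sum_congr rfl
          intro t ht
          have : t ≠ p.2 := (Finset.mem_erase.1 ht).1
          simp only [c', if_neg this]
      by_cases hex : ∃ p, tie p a
      · constructor
        · rintro (⟨p, hp, hy⟩ | ⟨hno, _⟩)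
          · rw [hy, htie p hp]
          · exact absurd hex hno
        · intro hy
          obtain ⟨p, hp⟩ := hex
          exact Or.inl ⟨p, hp, by rw [hy, htie p hp]⟩
      · have h4 := nu_sum_no_tie (fun i => c i l) (fun i => g i a) (by
          intro i j hij hi hj heq
          simp only [h1] at hi hj heq
          apply hex
          rcases le_total (o i) (o j) with hle | hle
          · obtain ⟨j', rfl⟩ := Fin.exists_succAbove_eq hij.symm
            exact ⟨(i, j'), hi, hj, hle, heq⟩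
          · obtain ⟨i', rfl⟩ := Fin.exists_succAbove_eq hij
            exact ⟨(j, i'), hj, hi, hle, heq.symm⟩)
        simp only [h1] at h4
        have h5 : MinP o g a (nu k (∑ i, c i l * X ^ g i a)) := h4
        constructor
        · rintro (⟨p, hp, hy⟩ | ⟨_, hm⟩)
          · exact absurd ⟨p, hp⟩ hex
          · exact minP_unique hm h5
        · rintro rfl
          exact Or.inr ⟨hex, h5⟩
    obtain ⟨l₀, hl₀⟩ := hG.exists
    refine ⟨fun a => nu k (∑ i, c i l₀ * X ^ g i a), ?_, ?_⟩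
    · unfold SF
      have hgw : ∀ i, TameF (fun _ : ℤ => 0) (fun (_ : Empty → ℤ) (a : Option ι → ℕ) =>
          g i (fun i => a (some i))) := fun i => TameF.weaken (hg i)
      have hfw : ∀ p, TameF (fun _ : ℤ => 0) (fun (_ : Empty → ℤ) (a : Option ι → ℕ) =>
          f' p (fun i => a (some i))) := fun p => TameF.weaken (hf' p)
      have hc0 : ∀ m : ℕ, TameF (fun _ : ℤ => 0) (fun (_ : Empty → ℤ) (a : Option ι → ℕ) => m) :=
        fun m => TameF.const m
      have hy : TameF (fun _ : ℤ => 0) (fun (_ : Empty → ℤ) (a : Option ι → ℕ) => a none) :=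
        TameF.coord none
      have htie : ∀ p, TameP (fun _ : ℤ => 0) (fun (_ : Empty → ℤ) (a : Option ι → ℕ) =>
          tie p (fun i => a (some i))) := by
        intro p
        refine TameP.and (TameP.const _) (TameP.and (TameP.const _) (TameP.and (TameP.const _) ?_))
        exact TameP.eq ((hc0 _).add (hgw _)) ((hc0 _).add (hgw _))
      have hmin : TameP (fun _ : ℤ => 0) (fun (_ : Empty → ℤ) (a : Option ι → ℕ) =>
          MinP o g (fun i => a (some i)) (a none)) := by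
        unfold MinP
        refine TameP.or (TameP.and (TameP.const _) (TameP.eq hy (hc0 0))) (TameP.and ?_ ?_)
        · exact TameP.exists_fin fun i => TameP.and (TameP.const _)
            (TameP.eq hy ((hc0 _).add (hgw _)))
        · exact TameP.forall_fin fun i => TameP.imp (TameP.const _)
            (TameP.le hy ((hc0 _).add (hgw _)))
      have hGt : TameP (fun _ : ℤ => 0) (fun (_ : Empty → ℤ) (a : Option ι → ℕ) =>
          G (fun i => a (some i)) (a none)) := by
        refine TameP.or ?_ (TameP.and (TameP.exists_fin fun p => htie p).not hmin)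
        exact TameP.exists_fin fun p => TameP.and (htie p) (TameP.eq hy (hfw p))
      exact TameF.of_tameP hGt fun θ a => hl₀ _ _
    · refine hG.mono fun l hl a => ?_
      exact ((hl a _).1 ((hl₀ a _).2 rfl)).symm

/-- sums of monomial terms -/
def Mon (u : Λ → (ι → ℕ) → k⟦X⟧) : Prop :=
  ∃ (J : Type) (_ : Fintype J) (c : J → (Λ → k⟦X⟧)) (g : J → (ι → ℕ) → ℕ),
    (∀ j, c j ∈ 𝓒.R) ∧ (∀ j, SF (g j)) ∧ ∀ l a, u l a = ∑ j, c j l * X ^ g j a

theorem Mon.ord {u : Λ → (ι → ℕ) → k⟦X⟧} (hu : Mon 𝓒 u) :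
    ∃ f : (ι → ℕ) → ℕ, SF f ∧ ∀ᶠ l in 𝓕, ∀ a, nu k (u l a) = f a := by
  obtain ⟨J, hJ, c, g, hc, hg, h⟩ := hu
  let e := Fintype.equivFin J
  obtain ⟨f, hf, h2⟩ := ord_fin 𝓒 (Fintype.card J) (fun i => c (e.symm i)) (fun i => hc _)
    (fun i => g (e.symm i)) (fun i => hg _)
  refine ⟨f, hf, h2.mono fun l hl a => ?_⟩
  rw [← hl a, h]
  congr 1
  exact (Equiv.sum_comp e.symm (fun j => c j l * X ^ g j a)).symm

theorem Mon.coeff {c : Λ → k⟦X⟧} (hc : c ∈ 𝓒.R) : Mon 𝓒 (ι := ι) (fun l _ => c l) :=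
  ⟨Unit, inferInstance, fun _ => c, fun _ _ => 0, fun _ => hc, fun _ => TameF.const 0,
    fun l a => by simp⟩

theorem Mon.pow {g : (ι → ℕ) → ℕ} (hg : SF g) : Mon 𝓒 (fun _ a => X ^ g a) :=
  ⟨Unit, inferInstance, fun _ => 1, fun _ => g, fun _ => 𝓒.R.one_mem, fun _ => hg,
    fun l a => by simp⟩

theorem Mon.add {u v : Λ → (ι → ℕ) → k⟦X⟧} (hu : Mon 𝓒 u) (hv : Mon 𝓒 v) :
    Mon 𝓒 (fun l a => u l a + v l a) := by
  obtain ⟨J, hJ, c, g, hc, hg, h⟩ := hu
  obtain ⟨J', hJ', c', g', hc', hg', h'⟩ := hv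
  refine ⟨J ⊕ J', inferInstance, Sum.elim c c', Sum.elim g g', ?_, ?_, ?_⟩
  · rintro (j | j)
    · exact hc j
    · exact hc' j
  · rintro (j | j)
    · exact hg j
    · exact hg' j
  · intro l a
    beta_reduce
    rw [h, h']
    simp

theorem Mon.mul {u v : Λ → (ι → ℕ) → k⟦X⟧} (hu : Mon 𝓒 u) (hv : Mon 𝓒 v) :
    Mon 𝓒 (fun l a => u l a * v l a) := by
  obtain ⟨J, hJ, c, g, hc, hg, h⟩ := hu
  obtain ⟨J', hJ', c', g', hc', hg', h'⟩ := hv
  refine ⟨J × J', inferInstance, fun p => c p.1 * c' p.2, fun p a => g p.1 a + g' p.2 a,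
    fun p => 𝓒.R.mul_mem (hc _) (hc' _), fun p => TameF.add (hg _) (hg' _), ?_⟩
  intro l a
  beta_reduce
  rw [h, h', Finset.sum_mul_sum, Fintype.sum_prod_type]
  apply Finset.sum_congr rfl
  intro i _
  apply Finset.sum_congr rfl
  intro j _
  simp only [Pi.mul_apply, pow_add]
  ring

theorem Mon.ev {τ : Type*} {θ : Λ → (ι → ℕ) → τ → k⟦X⟧} (hθ : ∀ t, Mon 𝓒 (fun l a => θ l a t))
    (H : MvPolynomial τ ℤ) : Mon 𝓒 (fun l a => ev (θ l a) H) := by
  induction H using MvPolynomial.induction_on with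
  | C n =>
    have h1 : (fun (l : Λ) (a : ι → ℕ) => Pool.Agent.Helper345_Quot.ev (θ l a) (MvPolynomial.C n)) =
        fun l _ => ((n : Λ → k⟦X⟧)) l := by
      funext l a
      rw [ev_C]
      simp
    rw [h1]
    exact Mon.coeff 𝓒 (intCast_mem 𝓒.R n)
  | add p q hp hq =>
    simp only [map_add]
    exact hp.add 𝓒 hq
  | mul_X p t hp =>
    simp only [map_mul, ev_X]
    exact hp.mul 𝓒 (hθ t)

/-- tame functions on families of points -/
theorem tame_on_family {τ : Type*} {F : (τ → k⟦X⟧) → (ι → ℕ) → ℤ} (hF : TameZ (nu k) F)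
    {θ : Λ → (ι → ℕ) → τ → k⟦X⟧} (hθ : ∀ t, Mon 𝓒 (fun l a => θ l a t)) :
    ∃ Z : (ι → ℕ) → ℤ, SZ Z ∧ ∀ᶠ l in 𝓕, ∀ a, F (θ l a) a = Z a := by
  obtain ⟨σ, hσ, H, s, q, hq, hs, h⟩ := hF.normal
  choose f hf hf' using fun j => (Mon.ev 𝓒 hθ (H j)).ord 𝓒
  have hev := eventually_all.2 hf'
  obtain ⟨l₀, hl₀⟩ := hev.exists
  refine ⟨fun a => F (θ l₀ a) a, ⟨⟨s, fun _ a => hs _ _⟩, fun n => ?_⟩, ?_⟩
  · by_cases hn : n ∈ s
    · have h1 : TameP (fun _ : ℤ => 0) (fun (_ : Empty → ℤ) (a : ι → ℕ) =>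
          q n (fun j => Sum.elim (fun i => a i) (fun j => f j a) j)) := by
        refine TameF.sl_comp (hq n) (f := fun j _ a => Sum.elim (fun i => a i) (fun j => f j a) j) ?_
        intro j
        rcases j with j | j
        · exact TameF.coord j
        · exact hf j
      refine h1.congr fun _ a => ?_
      rw [h (θ l₀ a) a n hn]
      have h2 : (fun j => nu k (Pool.Agent.Helper345_Quot.ev (θ l₀ a) (H j))) = fun j => f j a :=
        funext fun j => hl₀ j a
      rw [h2]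
    · refine (TameP.const False).congr fun _ a => ?_
      simp only [false_iff]
      intro h0
      apply hn
      rw [← h0]
      exact hs _ _
  · refine hev.mono fun l hl a => ?_
    have h3 : F (θ l₀ a) a ∈ s := hs _ _
    rw [h (θ l a) a _ h3]
    have h2 : (fun j => nu k (Pool.Agent.Helper345_Quot.ev (θ l a) (H j))) =
        fun j => nu k (Pool.Agent.Helper345_Quot.ev (θ l₀ a) (H j)) :=
      funext fun j => (hl j a).trans (hl₀ j a).symm
    rw [h2]
    exact (h (θ l₀ a) a _ h3).1 rfl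

end Pool.Agent.Helper345_Quot
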