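import Pool.Agent.Helper345_Quot.Core
import Pool.Agent.Helper345_Quot.Ord
import Pool.Agent.Helper345_Quot.Gf2
import Pool.Agent.Helper345_Quot.Log

/-!
Rationality for stable submodules of free modules over the polynomial ring in one variable.
-/

noncomputable section

namespace Pool.Agent.Helper345_Quot

open Polynomial Filter

variable {k : Type*} [Field k] {r : ℕ} {Op Ve : Type} [Finite Op] [Finite Ve]

/-- polynomial families of polynomials as families of power series -/
def lineH (k : Type*) [Field k] : k[X][X] →+* (k → PowerSeries k) :=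
  RingHom.pi fun l => (coeToPowerSeries.ringHom : k[X] →+* PowerSeries k).comp
    (mapRingHom (evalRingHom l))

theorem lineH_apply (Q : k[X][X]) (l : k) :
    lineH k Q l = ((Q.map (evalRingHom l) : k[X]) : PowerSeries k) := rfl

theorem lineH_ord (Q : k[X][X]) : ∃ n, ∀ᶠ l in cofinite, nu k (lineH k Q l) = n := by
  classical
  by_cases hQ : Q = 0
  · refine ⟨0, Eventually.of_forall fun l => ?_⟩
    rw [hQ, map_zero]
    simp [nu]
  · refine ⟨Q.natTrailingDegree + 1, ?_⟩
    rw [eventually_cofinite]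
    have hc : Q.trailingCoeff ≠ 0 := trailingCoeff_nonzero_iff_nonzero.2 hQ
    apply Set.Finite.subset (Q.trailingCoeff.roots.toFinset.finite_toSet)
    intro l hl
    rw [Set.mem_ofPred_eq] at hl
    rw [Finset.mem_coe, Multiset.mem_toFinset, mem_roots hc]
    by_contra hr
    apply hl
    have h1 : PowerSeries.coeff Q.natTrailingDegree (lineH k Q l) ≠ 0 := by
      rw [lineH_apply, Polynomial.coeff_coe, coeff_map]
      exact hr
    have h2 : ∀ i, i < Q.natTrailingDegree → PowerSeries.coeff i (lineH k Q l) = 0 := by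
      intro i hi
      rw [lineH_apply, Polynomial.coeff_coe, coeff_map, coeff_eq_zero_of_lt_natTrailingDegree hi,
        map_zero]
    have h3 : (lineH k Q l).order = Q.natTrailingDegree := by
      rw [PowerSeries.order_eq_nat]
      exact ⟨h1, h2⟩
    have h4 : lineH k Q l ≠ 0 := by
      intro h
      rw [h, map_zero] at h1
      exact h1 rfl
    unfold nu
    rw [if_neg h4, h3]
    rfl

/-- the class of polynomial families for the generic point of the line -/
def ordLine (k : Type*) [Field k] : OrdClass k (cofinite : Filter k) where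
  R := (lineH k).range
  X_mem := ⟨X, by
    funext l
    rw [lineH_apply, Polynomial.map_X, Polynomial.coe_X]⟩
  ord := by
    rintro _ ⟨Q, rfl⟩
    exact lineH_ord Q

/-- the class of all families for a point of the line -/
def ordPure (k : Type*) [Field k] (l : k) : OrdClass k (pure l : Filter k) where
  R := ⊤
  X_mem := trivial
  ord := fun c _ => ⟨nu k (c l), rfl⟩

theorem tau_mem_line (p : k[X]) :
    (fun l => ((tau l p : k[X]) : PowerSeries k)) ∈ (ordLine k).R := by
  refine ⟨(p.map C).comp (X + C X), ?_⟩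
  funext l
  rw [lineH_apply, map_comp, Polynomial.map_map, Polynomial.map_add, Polynomial.map_X,
    Polynomial.map_C, tau_apply]
  have h1 : (evalRingHom l).comp (C : k →+* k[X]) = RingHom.id k := by
    ext c; simp
  rw [h1, Polynomial.map_id, coe_evalRingHom, eval_X]

theorem pt_mon {𝓕 : Filter k} [NeBot 𝓕] (𝓒 : OrdClass k 𝓕)
    (h : ∀ p : k[X], (fun l => ((tau l p : k[X]) : PowerSeries k)) ∈ 𝓒.R)
    (T : Op → Matrix (Fin r) (Fin r) k[X]) (w : Ve → Fin r → k[X]) (v : HV r Op Ve) :
    Mon 𝓒 (fun (l : k) (a : Fin r → ℕ) => (bgAt T w l).pt a v) := by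
  cases v with
  | T o p q =>
    exact Mon.coeff 𝓒 (c := fun l => ((tau l (T o p q) : k[X]) : PowerSeries k)) (h _)
  | w j p =>
    exact Mon.coeff 𝓒 (c := fun l => ((tau l (w j p) : k[X]) : PowerSeries k)) (h _)
  | y i =>
    exact Mon.pow 𝓒 (TameF.coord i)
  | m i j =>
    exact Mon.coeff 𝓒 (c := 0) 𝓒.R.zero_mem

section

variable {T : Op → Matrix (Fin r) (Fin r) k[X]} {w : Ve → Fin r → k[X]}
  (P : ∀ n, Param k k[X] (Fin r → k[X]) (QN T w n)) (E : EulerChar k)

theorem top_mem : (⊤ : Submodule k[X] (Fin r → k[X])) ∈ QN T w 0 := by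
  have : Subsingleton ((Fin r → k[X]) ⧸ (⊤ : Submodule k[X] (Fin r → k[X]))) :=
    Submodule.Quotient.subsingleton_iff.2 rfl
  exact ⟨⟨fun _ _ _ => trivial, fun _ => trivial⟩, Module.Finite.of_finite, finrank_top⟩

omit [Finite Op] [Finite Ve] in
theorem eq_top_of_mem {N : Submodule k[X] (Fin r → k[X])} (h : N ∈ QN T w 0) : N = ⊤ := by
  have := h.2.1
  exact eq_top_of_finrank h.2.2

theorem cc_zero : cc P E 0 = 1 := by
  rw [cc_eq]
  obtain ⟨x, hx, hx'⟩ := (P 0).surj top_mem
  apply E.P_unique
  refine ⟨x, hx, fun y hy => (P 0).inj hy hx ?_⟩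
  rw [eq_top_of_mem ((P 0).maps hy), hx']

theorem zz_zero (l : k) : zz P E 0 l = 1 := by
  unfold zz
  obtain ⟨x, hx, hx'⟩ := (P 0).surj top_mem
  apply E.P_unique
  refine ⟨x, ⟨hx, ?_⟩, fun y hy => (P 0).inj hy.1 hx ?_⟩
  · rw [hx']
    exact top_le_iff.1 (le_Pl l ⊤)
  · rw [eq_top_of_mem ((P 0).maps hy.1), hx']

/-- The core theorem. -/
theorem core_rational [IsAlgClosed k] [CharZero k] :
    IsRat (PowerSeries.mk fun n => ((E.χ (P n).S : ℤ) : ℚ)) := by
  classical
  have hinf : Infinite k := IsAlgClosed.instInfinite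
  obtain ⟨J, hJ, hz⟩ := zz_eval (r := r) (Op := Op) (Ve := Ve) E
  have hz := hz T w P
  -- the generic point
  obtain ⟨Zg, hZg, hev⟩ := tame_on_family (ordLine k) hJ
    (θ := fun l a => (bgAt T w l).pt a) (pt_mon (ordLine k) tau_mem_line T w)
  rw [eventually_cofinite] at hev
  let Λ : Finset k := hev.toFinset
  have hΛ : ∀ l, l ∉ Λ → ∀ a, J ((bgAt T w l).pt a) a = Zg a := by
    intro l hl
    by_contra h
    exact hl (hev.mem_toFinset.2 h)
  let zg : ℕ → ℤ := fun n => ∑ a ∈ Finset.piAntidiag Finset.univ n, Zg a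
  have hzg : ∀ n l, l ∉ Λ → zz P E n l = zg n := by
    intro n l hl
    rw [hz n l]
    exact Finset.sum_congr rfl fun a _ => hΛ l hl a
  obtain ⟨l₁, hl₁⟩ := Infinite.exists_notMem_finset Λ
  let A : PowerSeries ℚ := PowerSeries.mk fun n => ((cc P E n : ℤ) : ℚ)
  let F : k → PowerSeries ℚ := fun l => PowerSeries.mk fun n => ((zz P E n l : ℤ) : ℚ)
  let G : k → PowerSeries ℚ := fun l => PowerSeries.mk fun n => ((yy P E n l : ℤ) : ℚ)
  have hA : One1 A := by
    unfold One1
    rw [← PowerSeries.coeff_zero_eq_constantCoeff_apply, PowerSeries.coeff_mk, cc_zero]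
    norm_num
  have hF : ∀ l, One1 (F l) := by
    intro l
    unfold One1
    rw [← PowerSeries.coeff_zero_eq_constantCoeff_apply, PowerSeries.coeff_mk, zz_zero]
    norm_num
  have hAFG : ∀ l, A = F l * G l := by
    intro l
    ext n
    rw [PowerSeries.coeff_mul, PowerSeries.coeff_mk, cc_conv P E n l]
    push_cast
    apply Finset.sum_congr rfl
    intro p _
    rw [PowerSeries.coeff_mk, PowerSeries.coeff_mk]
  have hFg : ∀ l, l ∉ Λ → F l = F l₁ := by
    intro l hl
    ext n
    rw [PowerSeries.coeff_mk, PowerSeries.coeff_mk, hzg n l hl, hzg n l₁ hl₁]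
  have hGg : ∀ l, l ∉ Λ → G l = G l₁ := by
    intro l hl
    have h1 : F l₁ * G l = F l₁ * G l₁ := by
      rw [← hAFG l₁, hAFG l, hFg l hl]
    have h2 : F l₁ * (F l₁)⁻¹ = 1 := PowerSeries.mul_inv_cancel _ (hF l₁).ne
    calc G l = (F l₁)⁻¹ * (F l₁ * G l) := by linear_combination (-(G l)) * h2
      _ = (F l₁)⁻¹ * (F l₁ * G l₁) := by rw [h1]
      _ = G l₁ := by linear_combination (G l₁) * h2
  have hyg : ∀ n l, l ∉ Λ → yy P E n l = yy P E n l₁ := by
    intro n l hl
    have h1 := congrArg (PowerSeries.coeff n) (hGg l hl)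
    rw [PowerSeries.coeff_mk, PowerSeries.coeff_mk] at h1
    exact_mod_cast h1
  have hw := fun n => weighted P E n Λ zg (fun n => yy P E n l₁) (fun m l hl => hzg m l hl)
    (fun m l hl => hyg m l hl)
  have hprod := prod_formula Λ A (F l₁) (G l₁) F G hA (hF l₁) (fun l _ => hF l) (hAFG l₁)
    (fun l _ => hAFG l) (by
      intro n
      have h1 := congrArg (fun z : ℤ => (z : ℚ)) (hw n)
      beta_reduce at h1
      push_cast at h1
      rw [PowerSeries.coeff_mk, h1]
      congr 1
      · congr 1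
        apply Finset.sum_congr rfl
        intro p _
        rw [PowerSeries.coeff_mk, PowerSeries.coeff_mk, hzg p.1 l₁ hl₁]
      · apply Finset.sum_congr rfl
        intro l _
        apply Finset.sum_congr rfl
        intro p _
        rw [PowerSeries.coeff_mk, PowerSeries.coeff_mk])
  have hrat : ∀ l, IsRat (F l) := by
    intro l
    obtain ⟨Zl, hZl, hev'⟩ := tame_on_family (ordPure k l) hJ
      (θ := fun l a => (bgAt T w l).pt a) (pt_mon (ordPure k l) (fun _ => trivial) T w)
    rw [eventually_pure] at hev'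
    have h1 := rat_sz hZl
    have h2 : F l = PowerSeries.mk (fun n =>
        ((∑ a ∈ (Finset.univ : Finset (Fin r)).piAntidiag n, Zl a : ℤ) : ℚ)) := by
      ext n
      rw [PowerSeries.coeff_mk, PowerSeries.coeff_mk, hz n l]
      congr 1
      exact Finset.sum_congr rfl fun a _ => hev' a
    rw [h2]
    exact h1
  exact prod_rat Λ A (F l₁) F (hF l₁) hprod (hrat l₁) (fun l _ => hrat l)

end

end Pool.Agent.Helper345_Quot
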