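import Pool.Agent.Helper345_Quot.Tst

/-!
Multiplicativity over the points of the line, and the weighted count.
-/

noncomputable section

namespace Pool.Agent.Helper345_Quot

open Polynomial

variable {k : Type*} [Field k] {r : ℕ}

namespace EulerChar

variable (E : EulerChar k)

theorem P_fibre_const {κ κ' : Type} [Finite κ] [Finite κ'] {p : (κ ⊕ κ' → k) → Prop}
    {b : (κ → k) → Prop} (c : ℤ) (hp : Dfn p) (h1 : ∀ y z, p (Sum.elim y z) → b y)
    (h2 : ∀ y, b y → E.P (fun z => p (Sum.elim y z)) = c) : E.P p = c * E.P b := by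
  rw [E.P_fibre c hp (fun y ⟨z, hz⟩ => h2 y (h1 y z hz))]
  by_cases hc : c = 0
  · rw [hc, zero_mul, zero_mul]
  · congr 1
    apply E.P_congr
    intro y
    constructor
    · rintro ⟨z, hz⟩
      exact h1 y z hz
    · intro hy
      by_contra hno
      push Not at hno
      apply hc
      rw [← h2 y hy, E.P_false hno]

theorem P_prod {κ κ' : Type} [Finite κ] [Finite κ'] {p : (κ → k) → Prop} {q : (κ' → k) → Prop}
    (hp : Dfn p) (hq : Dfn q) :
    E.P (fun z : κ ⊕ κ' → k => p (z ∘ Sum.inl) ∧ q (z ∘ Sum.inr)) = E.P p * E.P q := by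
  rw [mul_comm]
  apply E.P_fibre_const (b := p) (E.P q) ((hp.reindex _).and (hq.reindex _))
  · intro y z h
    exact h.1
  · intro y hy
    apply E.P_congr
    intro z
    constructor
    · intro h; exact h.2
    · intro h; exact ⟨hy, h⟩

/-- the option type as a sum -/
def optEquiv (κ : Type) : Option κ ≃ Unit ⊕ κ :=
  (Equiv.optionEquivSumPUnit κ).trans (Equiv.sumComm κ Unit)

theorem P_over_line {κ : Type} [Finite κ] {p : (Option κ → k) → Prop} (hp : Dfn p)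
    (Λ : Finset k) (c : ℤ) (h : ∀ l, l ∉ Λ → E.P (fun x : κ → k => p (opt x l)) = c) :
    E.P p = (1 - Λ.card) * c + ∑ l ∈ Λ, E.P (fun x : κ → k => p (opt x l)) := by
  classical
  have h1 := E.P_reindex (optEquiv κ) hp
  rw [← h1]
  have hp' : Dfn (fun z : Unit ⊕ κ → k => p (z ∘ optEquiv κ)) := hp.reindex _
  have hopt : ∀ (y : Unit → k) (x : κ → k), (Sum.elim y x : Unit ⊕ κ → k) ∘ optEquiv κ =
      opt x (y ()) := by
    intro y x
    funext o
    cases o <;> rfl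
  have hl : ∀ l : k, Dfn (fun z : Unit ⊕ κ → k => z (Sum.inl ()) = l) := fun l =>
    Dfn.eq (PolyF.coord _) (PolyF.const l)
  have hΛ : Dfn (fun z : Unit ⊕ κ → k => z (Sum.inl ()) ∈ Λ) := by
    have h1 : Dfn (fun z : Unit ⊕ κ → k => ∃ y : Λ, z (Sum.inl ()) = y.1) :=
      Dfn.exists_fin fun y => hl y.1
    exact h1.congr fun x => by simp
  have h2 : E.P (fun z : Unit ⊕ κ → k => p (z ∘ optEquiv κ)) =
      E.P (fun z : Unit ⊕ κ → k => p (z ∘ optEquiv κ) ∧ z (Sum.inl ()) ∉ Λ) +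
      E.P (fun z : Unit ⊕ κ → k => ∃ l ∈ Λ, p (z ∘ optEquiv κ) ∧ z (Sum.inl ()) = l) := by
    rw [← E.P_or]
    · apply E.P_congr
      intro z
      constructor
      · intro hz
        by_cases hzl : z (Sum.inl ()) ∈ Λ
        · exact Or.inr ⟨_, hzl, hz, rfl⟩
        · exact Or.inl ⟨hz, hzl⟩
      · rintro (⟨hz, _⟩ | ⟨_, _, hz, _⟩) <;> exact hz
    · exact hp'.and hΛ.not
    · have h3 : Dfn (fun z : Unit ⊕ κ → k => p (z ∘ optEquiv κ) ∧ z (Sum.inl ()) ∈ Λ) :=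
        hp'.and hΛ
      refine h3.congr fun z => ?_
      constructor
      · rintro ⟨h4, h5⟩
        exact ⟨_, h5, h4, rfl⟩
      · rintro ⟨l, h4, h5, h6⟩
        exact ⟨h5, h6 ▸ h4⟩
    · rintro z ⟨⟨_, h4⟩, l, h5, _, h6⟩
      exact h4 (h6 ▸ h5)
  rw [h2]
  congr 1
  · rw [mul_comm]
    rw [E.P_fibre_const (b := fun y : Unit → k => y () ∉ Λ) c (hp'.and hΛ.not)]
    · congr 1
      have h3 := E.P_cocnt (S := fun x => x ∉ Λ) (cnt_of_finset Λ (fun x => by simp))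
      exact h3
    · intro y z hz
      exact hz.2
    · intro y hy
      rw [← h _ hy]
      apply E.P_congr
      intro x
      rw [hopt]
      constructor
      · intro hz; exact hz.1
      · intro hz; exact ⟨hz, hy⟩
  · rw [E.P_exists Λ (p := fun l z => p (z ∘ optEquiv κ) ∧ z (Sum.inl ()) = l)
      (fun l => hp'.and (hl l)) (fun x i j h3 h4 => h3.2.symm.trans h4.2)]
    apply Finset.sum_congr rfl
    intro l _
    rw [E.P_fibre_const (b := fun y : Unit → k => y () = l)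
      (E.P (fun x : κ → k => p (opt x l))) (hp'.and (hl l))]
    · have h5 : ∃! y : Unit → k, y () = l := ⟨fun _ => l, rfl, fun y hy => by
        funext u
        exact hy⟩
      rw [E.P_unique h5, mul_one]
    · intro y z hz
      exact hz.2
    · intro y hy
      apply E.P_congr
      intro x
      rw [hopt, hy]
      constructor
      · intro hz; exact hz.1
      · intro hz; exact ⟨hz, hy⟩

end EulerChar

theorem PV.vecOf {κ : Type*} {m : ℕ} {f : Fin r × Fin m → (κ → k) → k} (hf : ∀ p, PolyF (f p)) :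
    PV (fun z => vecOf (fun p => f p z)) := by
  intro i
  refine (PP.sum Finset.univ (p := fun t z => Polynomial.C (f (i, t) z) * X ^ (t : ℕ))
    (fun t _ => (PP.C (hf _)).mul (PP.const _))).congr fun z => ?_
  beta_reduce
  rw [vecOf_apply]

section

variable {Op Ve : Type} {T : Op → Matrix (Fin r) (Fin r) k[X]} {w : Ve → Fin r → k[X]}
  (P : ∀ n, Param k k[X] (Fin r → k[X]) (QN T w n))

theorem dfn_le {n m : ℕ} {κ' : Type} (e₁ : (P n).κ → κ') (e₂ : (P m).κ → κ') :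
    Dfn (fun z : κ' → k => z ∘ e₁ ∈ (P n).S ∧ z ∘ e₂ ∈ (P m).S ∧
      (P n).φ (z ∘ e₁) ≤ (P m).φ (z ∘ e₂)) := by
  have hu : PV (fun z : κ' ⊕ (Fin r × Fin (n + 1)) → k => vecOf (fun p => z (Sum.inr p))) :=
    PV.vecOf fun p => PolyF.coord _
  have h1 := ((P n).dfn_mem (Sum.inl ∘ e₁) hu).imp ((P m).dfn_mem (Sum.inl ∘ e₂) hu)
  have h2 := ((P n).dfn_S e₁).and (((P m).dfn_S e₂).and h1.forall_vec)
  refine h2.congr fun z => ?_
  beta_reduce
  constructor
  · rintro ⟨h3, h4, h5⟩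
    refine ⟨h3, h4, ?_⟩
    have hN := (P n).maps h3
    have := hN.2.1
    rw [le_iff_bdd hN.2.2]
    intro c hc
    exact (h5 c ⟨h3, hc⟩).2
  · rintro ⟨h3, h4, h5⟩
    exact ⟨h3, h4, fun c hc => ⟨h4, h5 hc.2⟩⟩

theorem dfn_supp {n : ℕ} {κ' : Type} (e : (P n).κ → κ') {f : (κ' → k) → k} (hf : PolyF f) :
    Dfn (fun z : κ' → k => z ∘ e ∈ (P n).S ∧ Pl (f z) ((P n).φ (z ∘ e)) = (P n).φ (z ∘ e)) := by
  have hu : ∀ i, PV (fun z : κ' → k => (X - C (f z)) ^ n • mon (k := k) r i 0) := by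
    intro i j
    refine ((((PP.const X).sub (PP.C hf)).pow n).mul (PP.const (mon (k := k) r i 0 j))).congr
      fun z => ?_
    beta_reduce
    rw [Pi.smul_apply, smul_eq_mul]
  have h2 := ((P n).dfn_S e).and (Dfn.forall_fin fun i => (P n).dfn_mem e (hu i))
  refine h2.congr fun z => ?_
  beta_reduce
  refine and_congr_right fun h3 => ?_
  have hN := (P n).maps h3
  have := hN.2.1
  rw [supp_iff hN.2.2]
  exact ⟨fun h i => (h i).2, fun h i => ⟨h3, h i⟩⟩

theorem dfn_away {n : ℕ} {κ' : Type} (e : (P n).κ → κ') {f : (κ' → k) → k} (hf : PolyF f) :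
    Dfn (fun z : κ' → k => z ∘ e ∈ (P n).S ∧ Pl (f z) ((P n).φ (z ∘ e)) = ⊤) := by
  have hu : ∀ i, PV (fun z : κ' ⊕ (Fin r × Fin n) → k =>
      mon (k := k) r i 0 - (X - C (f (z ∘ Sum.inl))) • vecOf (fun p => z (Sum.inr p))) := by
    intro i j
    have hf' : PolyF (fun z : κ' ⊕ (Fin r × Fin n) → k => f (z ∘ Sum.inl)) := hf.reindex Sum.inl
    have hv : PV (fun z : κ' ⊕ (Fin r × Fin n) → k => vecOf (fun p => z (Sum.inr p))) :=
      PV.vecOf fun p => PolyF.coord _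
    refine ((PP.const (mon (k := k) r i 0 j)).sub (((PP.const X).sub (PP.C hf')).mul
      (hv j))).congr fun z => ?_
    beta_reduce
    rw [Pi.sub_apply, Pi.smul_apply, smul_eq_mul]
  have h2 := ((P n).dfn_S e).and (Dfn.forall_fin fun i =>
    ((P n).dfn_mem (Sum.inl ∘ e) (hu i)).exists_vec)
  refine h2.congr fun z => ?_
  beta_reduce
  refine and_congr_right fun h3 => ?_
  have hN := (P n).maps h3
  have := hN.2.1
  rw [away_iff hN.2.2]
  apply forall_congr'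
  intro i
  constructor
  · rintro ⟨c, -, hc⟩
    exact ⟨c, hc⟩
  · rintro ⟨c, hc⟩
    exact ⟨c, h3, hc⟩

/-- the decomposition relation -/
theorem dfn_dec {n m : ℕ} {κ' : Type} (e : (P (n + m)).κ → κ') (e₁ : (P n).κ → κ')
    (e₂ : (P m).κ → κ') {f : (κ' → k) → k} (hf : PolyF f) :
    Dfn (fun z : κ' → k => z ∘ e ∈ (P (n + m)).S ∧ z ∘ e₁ ∈ (P n).S ∧ z ∘ e₂ ∈ (P m).S ∧
      (P n).φ (z ∘ e₁) = Pl (f z) ((P (n + m)).φ (z ∘ e)) ∧
      (P m).φ (z ∘ e₂) = Al (f z) ((P (n + m)).φ (z ∘ e))) := by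
  have h1 := (dfn_le P e e₁).and ((dfn_le P e e₂).and ((dfn_supp P e₁ hf).and
    (dfn_away P e₂ hf)))
  refine h1.congr fun z => ?_
  constructor
  · rintro ⟨⟨h2, h3, h4⟩, ⟨-, h5, h6⟩, ⟨-, h7⟩, -, h8⟩
    exact ⟨h2, h3, h5, (decomp_iff ((P _).maps h2) ((P _).maps h3) ((P _).maps h5)).1
      ⟨h4, h6, h7, h8⟩⟩
  · rintro ⟨h2, h3, h5, h6⟩
    obtain ⟨h4, h6, h7, h8⟩ :=
      (decomp_iff ((P _).maps h2) ((P _).maps h3) ((P _).maps h5)).2 h6
    exact ⟨⟨h2, h3, h4⟩, ⟨h2, h5, h6⟩, ⟨h3, h7⟩, h5, h8⟩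

/-- points with given local length -/
theorem dfn_ll {n ℓ : ℕ} {κ' : Type} [Finite κ'] (e : (P n).κ → κ') {f : (κ' → k) → k}
    (hf : PolyF f) :
    Dfn (fun z : κ' → k => z ∘ e ∈ (P n).S ∧ ll (f z) ((P n).φ (z ∘ e)) = ℓ) := by
  by_cases hl : ℓ ≤ n
  · obtain ⟨m, rfl⟩ := Nat.exists_eq_add_of_le hl
    have h1 := (dfn_dec P (κ' := κ' ⊕ ((P ℓ).κ ⊕ (P m).κ)) (Sum.inl ∘ e) (Sum.inr ∘ Sum.inl)
      (Sum.inr ∘ Sum.inr) (f := fun z => f (z ∘ Sum.inl)) (hf.reindex _)).exists_vec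
    refine h1.congr fun z => ?_
    beta_reduce
    constructor
    · rintro ⟨y, h2, h3, h4, h5, h6⟩
      refine ⟨h2, ?_⟩
      unfold ll
      have h7 := ((P ℓ).maps h3).2.2
      rw [h5] at h7
      exact h7
    · rintro ⟨h2, h3⟩
      have hN := (P (ℓ + m)).maps h2
      have h4 := mem_QN_Pl hN (f z)
      have h5 := mem_QN_Al hN (f z)
      rw [h3] at h4 h5
      rw [Nat.add_sub_cancel_left] at h5
      obtain ⟨x₁, hx₁, hx₁'⟩ := (P ℓ).surj h4
      obtain ⟨x₂, hx₂, hx₂'⟩ := (P m).surj h5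
      exact ⟨Sum.elim x₁ x₂, h2, hx₁, hx₂, hx₁', hx₂'⟩
  · refine (Dfn.const False).congr fun z => ?_
    constructor
    · intro h; exact h.elim
    · rintro ⟨h2, h3⟩
      have hN := (P n).maps h2
      have := hN.2.1
      have h4 := ll_le (f z) ((P n).φ (z ∘ e))
      rw [hN.2.2] at h4
      omega

variable (E : EulerChar k)

/-- Euler characteristic of the submodules supported at `l` -/
def zz (n : ℕ) (l : k) : ℤ :=
  E.P (fun x : (P n).κ → k => x ∈ (P n).S ∧ Pl l ((P n).φ x) = (P n).φ x)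

/-- Euler characteristic of the submodules supported away from `l` -/
def yy (n : ℕ) (l : k) : ℤ :=
  E.P (fun x : (P n).κ → k => x ∈ (P n).S ∧ Pl l ((P n).φ x) = ⊤)

/-- Euler characteristic of the submodules with local length `ℓ` at `l` -/
def ee (n ℓ : ℕ) (l : k) : ℤ :=
  E.P (fun x : (P n).κ → k => x ∈ (P n).S ∧ ll l ((P n).φ x) = ℓ)

theorem ee_eq (n m : ℕ) (l : k) : ee P E (n + m) n l = zz P E n l * yy P E m l := by
  unfold ee zz yy
  have h1 : Dfn (fun x : (P n).κ → k => x ∈ (P n).S ∧ Pl l ((P n).φ x) = (P n).φ x) :=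
    dfn_supp P id (PolyF.const l)
  have h2 : Dfn (fun x : (P m).κ → k => x ∈ (P m).S ∧ Pl l ((P m).φ x) = ⊤) :=
    dfn_away P id (PolyF.const l)
  rw [← E.P_prod h1 h2]
  have h3 := dfn_dec P (κ' := (P (n + m)).κ ⊕ ((P n).κ ⊕ (P m).κ)) Sum.inl (Sum.inr ∘ Sum.inl)
      (Sum.inr ∘ Sum.inr) (f := fun z => l) (PolyF.const l)
  apply E.P_bij h3
  · intro x y h
    obtain ⟨h4, h5, h6, h7, h8⟩ := h
    obtain ⟨-, -, h9, h10⟩ :=
      (decomp_iff ((P _).maps h4) ((P _).maps h5) ((P _).maps h6)).2 ⟨h7, h8⟩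
    refine ⟨⟨h4, ?_⟩, ⟨h5, h9⟩, ⟨h6, h10⟩⟩
    have h11 := ((P n).maps h5).2.2
    rw [h7] at h11
    exact h11
  · rintro x ⟨hx, hl⟩
    have hN := (P (n + m)).maps hx
    have h4 := mem_QN_Pl hN l
    have h5 := mem_QN_Al hN l
    rw [hl] at h4 h5
    rw [Nat.add_sub_cancel_left] at h5
    obtain ⟨x₁, hx₁, hx₁'⟩ := (P n).surj h4
    obtain ⟨x₂, hx₂, hx₂'⟩ := (P m).surj h5
    refine ⟨Sum.elim x₁ x₂, ⟨hx, hx₁, hx₂, hx₁', hx₂'⟩, ?_⟩
    rintro y ⟨-, h6, h7, h8, h9⟩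
    have h10 : y ∘ Sum.inl = x₁ := (P n).inj h6 hx₁ (h8.trans hx₁'.symm)
    have h11 : y ∘ Sum.inr = x₂ := (P m).inj h7 hx₂ (h9.trans hx₂'.symm)
    rw [← h10, ← h11, Sum.elim_comp_inl_inr]
  · rintro y ⟨⟨h4, h5⟩, h6, h7⟩
    have hN₁ := (P n).maps h4
    have hN₂ := (P m).maps h6
    have hN := mem_QN_inf hN₁ hN₂ h5 h7
    obtain ⟨x, hx, hx'⟩ := (P (n + m)).surj hN
    have h8 : (P n).φ (y ∘ Sum.inl) = Pl l ((P (n + m)).φ x) ∧
        (P m).φ (y ∘ Sum.inr) = Al l ((P (n + m)).φ x) := by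
      apply (decomp_iff ((P _).maps hx) hN₁ hN₂).1
      rw [hx']
      exact ⟨inf_le_left, inf_le_right, h5, h7⟩
    refine ⟨x, ⟨hx, h4, h6, h8⟩, ?_⟩
    rintro x₂ ⟨h9, -, -, h10, h11⟩
    apply (P (n + m)).inj h9 hx
    change (P (n + m)).φ x₂ = (P (n + m)).φ x
    have h12 : (P (n + m)).φ x₂ = Pl l ((P (n + m)).φ x₂) ⊓ Al l ((P (n + m)).φ x₂) :=
      (Pl_inf_Al l _).symm
    have h13 : (P (n + m)).φ x = Pl l ((P (n + m)).φ x) ⊓ Al l ((P (n + m)).φ x) :=
      (Pl_inf_Al l _).symm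
    rw [h12, h13, ← h8.1, ← h8.2]
    congr 1
    · exact h10.symm
    · exact h11.symm

theorem ee_eq' {n ℓ : ℕ} (h : ℓ ≤ n) (l : k) :
    ee P E n ℓ l = zz P E ℓ l * yy P E (n - ℓ) l := by
  obtain ⟨m, rfl⟩ := Nat.exists_eq_add_of_le h
  rw [ee_eq, Nat.add_sub_cancel_left]

/-- total Euler characteristic -/
def cc (n : ℕ) : ℤ := E.χ (P n).S

theorem cc_eq (n : ℕ) : cc P E n = E.P (fun x => x ∈ (P n).S) := rfl

theorem cc_split (n : ℕ) (l : k) : cc P E n = ∑ ℓ ∈ Finset.range (n + 1), ee P E n ℓ l := by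
  have hS : Dfn (fun x : (P n).κ → k => x ∈ (P n).S) := (P n).dfn_S id
  rw [cc_eq, E.P_split (Finset.range (n + 1))
    (A := fun ℓ x => x ∈ (P n).S ∧ ll l ((P n).φ x) = ℓ)
    (fun ℓ => dfn_ll P id (PolyF.const l)) (fun x i j h1 h2 => h1.2.symm.trans h2.2) hS]
  · apply Finset.sum_congr rfl
    intro ℓ _
    apply E.P_congr
    intro x
    constructor
    · exact fun h => h.2
    · exact fun h => ⟨h.1, h⟩
  · intro x hx
    refine ⟨ll l ((P n).φ x), ?_, hx, rfl⟩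
    have hN := (P n).maps hx
    have := hN.2.1
    have h4 := ll_le l ((P n).φ x)
    rw [hN.2.2] at h4
    rw [Finset.mem_range]
    omega

theorem cc_conv (n : ℕ) (l : k) :
    cc P E n = ∑ p ∈ Finset.HasAntidiagonal.antidiagonal n, zz P E p.1 l * yy P E p.2 l := by
  rw [cc_split P E n l, Finset.Nat.sum_antidiagonal_eq_sum_range_succ_mk]
  apply Finset.sum_congr rfl
  intro ℓ hℓ
  exact ee_eq' P E (Nat.lt_succ_iff.1 (Finset.mem_range.1 hℓ)) l

/-- The weighted count. -/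
theorem weighted [IsAlgClosed k] (n : ℕ) (Λ : Finset k) (zg yg : ℕ → ℤ)
    (hz : ∀ m l, l ∉ Λ → zz P E m l = zg m) (hy : ∀ m l, l ∉ Λ → yy P E m l = yg m) :
    (n : ℤ) * cc P E n = (1 - Λ.card) * (∑ p ∈ Finset.HasAntidiagonal.antidiagonal n, p.1 * (zg p.1 * yg p.2)) +
      ∑ l ∈ Λ, ∑ p ∈ Finset.HasAntidiagonal.antidiagonal n, p.1 * (zz P E p.1 l * yy P E p.2 l) := by
  classical
  have : Infinite k := IsAlgClosed.instInfinite
  let D : ℕ → (Option (P n).κ → k) → Prop := fun ℓ z =>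
    z ∘ some ∈ (P n).S ∧ ll (z none) ((P n).φ (z ∘ some)) = ℓ
  have hD : ∀ ℓ, Dfn (D ℓ) := fun ℓ => dfn_ll P some (PolyF.coord none)
  let f : (Option (P n).κ → k) → ℤ := fun z =>
    ∑ ℓ ∈ Finset.range (n + 1), (ℓ : ℤ) * (if D ℓ z then 1 else 0)
  have hopt : ∀ (y : (P n).κ → k) (x : k), (opt y x) ∘ some = y := fun y x => rfl
  have hfv : ∀ (y : (P n).κ → k) (x : k), f (opt y x) =
      if y ∈ (P n).S then (ll x ((P n).φ y) : ℤ) else 0 := by
    intro y x
    simp only [f, D, hopt]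
    split_ifs with hy
    · have hN := (P n).maps hy
      have := hN.2.1
      have h4 := ll_le x ((P n).φ y)
      rw [hN.2.2] at h4
      rw [Finset.sum_eq_single (ll x ((P n).φ y))]
      · have : (opt y x) none = x := rfl
        rw [this]
        simp [hy]
      · intro b _ hb
        rw [if_neg, mul_zero]
        rintro ⟨-, h5⟩
        exact hb h5.symm
      · intro h5
        exact absurd (Finset.mem_range.2 (by omega)) h5
    · apply Finset.sum_eq_zero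
      intro ℓ _
      rw [if_neg (fun h => hy h.1), mul_zero]
  have hCF : CF f := CF.sum _ fun ℓ _ => (CF.indicator (hD ℓ)).map₂ (CF.const (ℓ : ℤ))
    (fun a b => b * a)
  have hex : ∀ y : (P n).κ → k, ∃ s : Finset k, s.card ≤ n ∧ (∀ x, x ∉ s → f (opt y x) = 0) ∧
      ∑ x ∈ s, f (opt y x) = if y ∈ (P n).S then (n : ℤ) else 0 := by
    intro y
    by_cases hy : y ∈ (P n).S
    · have hN := (P n).maps hy
      have := hN.2.1
      obtain ⟨s, hs, hs'⟩ := sum_ll n ((P n).φ y) hN.2.2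
      let s' := s.filter (fun x => ll x ((P n).φ y) ≠ 0)
      have hs'' : ∑ x ∈ s', ll x ((P n).φ y) = n := by
        refine Eq.trans ?_ hs'
        rw [Finset.sum_filter]
        apply Finset.sum_congr rfl
        intro x _
        split_ifs with h
        · rfl
        · push Not at h; exact h.symm
      refine ⟨s', ?_, ?_, ?_⟩
      · have h1 : s'.card • 1 ≤ ∑ x ∈ s', ll x ((P n).φ y) := by
          apply Finset.card_nsmul_le_sum
          intro x hx
          have := (Finset.mem_filter.1 hx).2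
          omega
        rw [smul_eq_mul, mul_one, hs''] at h1
        exact h1
      · intro x hx
        rw [hfv, if_pos hy]
        by_cases hxs : x ∈ s
        · have : ll x ((P n).φ y) = 0 := by
            by_contra h
            exact hx (Finset.mem_filter.2 ⟨hxs, h⟩)
          rw [this]; rfl
        · rw [hs x hxs]; rfl
      · rw [if_pos hy]
        have : ∀ x, f (opt y x) = (ll x ((P n).φ y) : ℤ) := fun x => by rw [hfv, if_pos hy]
        rw [Finset.sum_congr rfl (fun x _ => this x)]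
        exact_mod_cast hs''
    · refine ⟨∅, by simp, fun x _ => by rw [hfv, if_neg hy], ?_⟩
      rw [if_neg hy]; rfl
  have hfub := E.fubini hCF (B := n) (by
    intro y
    obtain ⟨s, hs, hs0, -⟩ := hex y
    exact ⟨0, s, hs, hs0⟩)
  have hS : Dfn (fun x : (P n).κ → k => x ∈ (P n).S) := (P n).dfn_S id
  have h1 : E.int (fun y : (P n).κ → k => eint (fun x => f (opt y x))) = n * cc P E n := by
    have h2 : ∀ y : (P n).κ → k, eint (fun x => f (opt y x)) =
        n * (if y ∈ (P n).S then (1 : ℤ) else 0) := by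
      intro y
      obtain ⟨s, -, hs0, hs⟩ := hex y
      rw [eint_eq s hs0, zero_add]
      simp only [sub_zero]
      rw [hs]
      split_ifs <;> simp
    rw [E.int_congr h2, E.int_smul _ (CF.indicator hS), E.int_indicator hS]
    rfl
  rw [← h1, hfub.2]
  have h3 : E.int f = ∑ ℓ ∈ Finset.range (n + 1), (ℓ : ℤ) * E.P (D ℓ) := by
    rw [E.int_sum (Finset.range (n + 1)) (f := fun ℓ z => (ℓ : ℤ) * (if D ℓ z then 1 else 0))
      (fun ℓ _ => (CF.indicator (hD ℓ)).map₂ (CF.const (ℓ : ℤ)) (fun a b => b * a))]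
    apply Finset.sum_congr rfl
    intro ℓ _
    rw [E.int_smul _ (CF.indicator (hD ℓ)), E.int_indicator (hD ℓ)]
  have h4 : ∀ ℓ ∈ Finset.range (n + 1), E.P (D ℓ) = (1 - Λ.card) * (zg ℓ * yg (n - ℓ)) +
      ∑ l ∈ Λ, zz P E ℓ l * yy P E (n - ℓ) l := by
    intro ℓ hℓ
    have hℓ' : ℓ ≤ n := Nat.lt_succ_iff.1 (Finset.mem_range.1 hℓ)
    have h5 : ∀ l, E.P (fun x : (P n).κ → k => D ℓ (opt x l)) =
        zz P E ℓ l * yy P E (n - ℓ) l := by
      intro l
      rw [← ee_eq' P E hℓ']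
      rfl
    rw [E.P_over_line (hD ℓ) Λ (zg ℓ * yg (n - ℓ)) (fun l hl => by
      rw [h5, hz _ _ hl, hy _ _ hl])]
    congr 1
    apply Finset.sum_congr rfl
    intro l _
    exact h5 l
  rw [h3, Finset.sum_congr rfl (fun ℓ hℓ => by rw [h4 ℓ hℓ])]
  simp only [mul_add, Finset.sum_add_distrib]
  congr 1
  · rw [Finset.Nat.sum_antidiagonal_eq_sum_range_succ_mk, Finset.mul_sum]
    apply Finset.sum_congr rfl
    intro ℓ _
    ring
  · simp only [Finset.mul_sum]
    rw [Finset.sum_comm]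
    apply Finset.sum_congr rfl
    intro l _
    rw [Finset.Nat.sum_antidiagonal_eq_sum_range_succ_mk]

end

end Pool.Agent.Helper345_Quot
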