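import Pool.Agent.Helper345_Quot.Lab

/-!
One variable integration: exact degree version.
-/

noncomputable section

namespace Pool.Agent.Helper345_Quot

open PowerSeries
open scoped NNReal

variable {k : Type*} [Field k] {σ τ : Type*} [Fintype σ] {d : ℕ}

/-- the condition that the Gauss value is `hf ^ n`, in codes -/
def GQ (P : σ → Polynomial (MvPolynomial τ ℤ)) (e : ℕ) (E : Finset (Fin d)) (i : σ)
    (x : Fin d ⊕ τ → LL k) (γ n : ℕ) : Prop :=
  (∃ j : Fin ((P i).natDegree + 1), cod e (ev x (Uq P E i j)) ≠ 0 ∧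
    cod e (ev x (Uq P E i j)) + (e * j) * γ + (P i).natDegree =
      e * n + 1 + (P i).natDegree * cod e (ev x (bq P d))) ∧
  ∀ j : Fin ((P i).natDegree + 1), cod e (ev x (Uq P E i j)) ≠ 0 →
    e * n + 1 + (P i).natDegree * cod e (ev x (bq P d)) ≤
      cod e (ev x (Uq P E i j)) + (e * j) * γ + (P i).natDegree

theorem GQ_tame {ι : Type*} [Finite ι] (P : σ → Polynomial (MvPolynomial τ ℤ)) (e : ℕ)
    (E : Finset (Fin d)) (i : σ)
    {g h : (Fin d ⊕ τ → LL k) → (ι → ℕ) → ℕ} (hg : TameF (cod e) g) (hh : TameF (cod e) h) :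
    TameP (cod e) (fun x a => GQ P e E i x (g x a) (h x a)) := by
  unfold GQ
  have h0 : TameF (cod e) (fun (x : Fin d ⊕ τ → LL k) (_ : ι → ℕ) => 0) := TameF.const 0
  have hD : TameF (cod e) (fun (x : Fin d ⊕ τ → LL k) (_ : ι → ℕ) => (P i).natDegree) :=
    TameF.const _
  have h1 : ∀ j : Fin ((P i).natDegree + 1),
      TameF (cod e) (fun (x : Fin d ⊕ τ → LL k) (_ : ι → ℕ) => cod e (ev x (Uq P E i j))) :=
    fun j => TameF.nu _
  have h2 : ∀ j : Fin ((P i).natDegree + 1),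
      TameF (cod e) (fun (x : Fin d ⊕ τ → LL k) (a : ι → ℕ) =>
        cod e (ev x (Uq P E i j)) + (e * j) * g x a + (P i).natDegree) :=
    fun j => ((h1 j).add (hg.const_mul _)).add hD
  have h4 : TameF (cod e) (fun (x : Fin d ⊕ τ → LL k) (_ : ι → ℕ) => 1) := TameF.const 1
  have h5 : TameF (cod e) (fun (x : Fin d ⊕ τ → LL k) (_ : ι → ℕ) => cod e (ev x (bq P d))) :=
    TameF.nu _
  have h3 : TameF (cod e) (fun (x : Fin d ⊕ τ → LL k) (a : ι → ℕ) =>
        e * h x a + 1 + (P i).natDegree * cod e (ev x (bq P d))) :=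
    ((hh.const_mul e).add h4).add (h5.const_mul _)
  refine TameP.and (TameP.exists_fin fun j => ?_) (TameP.forall_fin fun j => ?_)
  · exact (TameP.eq (h1 j) h0).not.and (TameP.eq (h2 j) h3)
  · exact (TameP.eq (h1 j) h0).not.imp (TameP.le h3 (h2 j))

theorem GQ_unique {P : σ → Polynomial (MvPolynomial τ ℤ)} {e : ℕ} (he : e ≠ 0)
    {E : Finset (Fin d)} {i : σ} {x : Fin d ⊕ τ → LL k} {γ n n' : ℕ}
    (h : GQ P e E i x γ n) (h' : GQ P e E i x γ n') : n = n' := by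
  obtain ⟨⟨j, hj, hj'⟩, h1⟩ := h
  obtain ⟨⟨i', hi, hi'⟩, h2⟩ := h'
  have h3 := h1 i' hi
  have h4 := h2 j hj
  have h5 : e * n = e * n' := by omega
  exact Nat.eq_of_mul_eq_mul_left (Nat.pos_of_ne_zero he) h5

open Classical in
/-- generic coded value, in codes -/
def gnuC (P : σ → Polynomial (MvPolynomial τ ℤ)) (e : ℕ) (E : Finset (Fin d)) (i : σ)
    (x : Fin d ⊕ τ → LL k) (γ : ℕ) : ℕ :=
  if h : ∃ n, GQ P e E i x γ n then h.choose + 1 else 0

theorem gnuC_tame {ι : Type*} [Finite ι] (P : σ → Polynomial (MvPolynomial τ ℤ)) {e : ℕ}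
    (he : e ≠ 0) (E : Finset (Fin d)) (i : σ)
    {g : (Fin d ⊕ τ → LL k) → (ι → ℕ) → ℕ} (hg : TameF (cod e) g) :
    TameF (cod e) (fun x a => gnuC P e E i x (g x a)) := by
  have h1 : TameP (cod e) (fun (x : Fin d ⊕ τ → LL k) (a : Option ι → ℕ) =>
      ∃ n, GQ P e E i x (g x (fun i => a (some i))) n ∧ a none = n + 1) := by
    refine TameP.exists_nat (p := fun x (a : Option ι → ℕ) n =>
      GQ P e E i x (g x (fun i => a (some i))) n ∧ a none = n + 1) ?_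
    have h2 : TameF (cod e) (fun (x : Fin d ⊕ τ → LL k) (a : Option (Option ι) → ℕ) =>
      g x (fun i => a (some (some i)))) :=
      TameF.comp hg (f := fun i (_ : Fin d ⊕ τ → LL k) (a : Option (Option ι) → ℕ) =>
        a (some (some i))) (fun i => TameF.coord _)
    have h3 : TameF (cod e) (fun (_ : Fin d ⊕ τ → LL k) (a : Option (Option ι) → ℕ) => a none) :=
      TameF.coord none
    have h4 : TameF (cod e) (fun (_ : Fin d ⊕ τ → LL k) (a : Option (Option ι) → ℕ) =>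
      a (some none)) := TameF.coord (some none)
    exact (GQ_tame P e E i h2 h3).and (TameP.eq h4 (h3.add (TameF.const 1)))
  have h2 : TameP (cod e) (fun (x : Fin d ⊕ τ → LL k) (a : Option ι → ℕ) =>
      ∃ n, GQ P e E i x (g x (fun i => a (some i))) n) := by
    refine TameP.exists_nat (p := fun x (a : Option ι → ℕ) n =>
      GQ P e E i x (g x (fun i => a (some i))) n) ?_
    have h2 : TameF (cod e) (fun (x : Fin d ⊕ τ → LL k) (a : Option (Option ι) → ℕ) =>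
      g x (fun i => a (some (some i)))) :=
      TameF.comp hg (f := fun i (_ : Fin d ⊕ τ → LL k) (a : Option (Option ι) → ℕ) =>
        a (some (some i))) (fun i => TameF.coord _)
    have h3 : TameF (cod e) (fun (_ : Fin d ⊕ τ → LL k) (a : Option (Option ι) → ℕ) => a none) :=
      TameF.coord none
    exact (GQ_tame P e E i h2 h3)
  have h3 : TameP (cod e) (fun (_ : Fin d ⊕ τ → LL k) (a : Option ι → ℕ) => a none = 0) :=
    TameP.eq (TameF.coord none) (TameF.const 0)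
  refine TameF.of_tameP (h1.or (h2.not.and h3)) fun x a => ?_
  unfold gnuC
  constructor
  · rintro (⟨n, hn, h⟩ | ⟨hno, h⟩)
    · have hex : ∃ n, GQ P e E i x (g x (fun i => a (some i))) n := ⟨n, hn⟩
      rw [dif_pos hex, h, GQ_unique he hn hex.choose_spec]
    · rw [dif_neg hno, h]
  · intro h
    by_cases hex : ∃ n, GQ P e E i x (g x (fun i => a (some i))) n
    · left
      rw [dif_pos hex] at h
      exact ⟨_, hex.choose_spec, h⟩
    · right
      rw [dif_neg hex] at h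
      exact ⟨hex, h⟩

namespace Dat

variable {P : σ → Polynomial (MvPolynomial τ ℤ)} {θ : τ → k⟦X⟧} {Δ : Dat P θ d} {e : ℕ}

theorem Cod.GQ_iff [CharZero k] (h : Δ.Cod e) (he : e ≠ 0) (E : Finset (Fin d)) (i : σ)
    (γ n : ℕ) :
    gvr ((Δ.inst.f i).map (emb k)) (Δ.inst.avg E) γ = hf ^ n ↔ GQ P e E i Δ.x γ n := by
  set Q := (Δ.inst.f i).map (emb k) with hQ
  have hQ0 : Q ≠ 0 := by
    rw [hQ, Polynomial.map_ne_zero_iff (emb_injective k)]
    exact Δ.inst.f_ne i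
  obtain ⟨hall, j0, hj0, hne0, hj0'⟩ := gvr_taylor Q hQ0 (Δ.inst.avg E) γ
  set D := (P i).natDegree with hD
  have hdeg : Q.natDegree ≤ D := (Polynomial.natDegree_map_le).trans Polynomial.natDegree_map_le
  set cb := cod e (ev Δ.x (bq P d)) with hcb
  have hcb0 : cb ≠ 0 := fun h0 => Δ.bq_ne ((h _).zero_iff.1 h0)
  have hBnn : nn k (ev Δ.x (bq P d)) = qq e ^ ((cb : ℤ) - 1) := (h _).nn_eq Δ.bq_ne
  have hBpos : 0 < nn k (ev Δ.x (bq P d)) := pos_iff_ne_zero.2 fun h => Δ.bq_ne (nn_eq_zero.1 h)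
  set BD := nn k (ev Δ.x (bq P d)) ^ D with hBD
  have hBDpos : 0 < BD := pow_pos hBpos _
  have hBDq : BD = qq e ^ ((D : ℤ) * ((cb : ℤ) - 1)) := by
    rw [hBD, hBnn, ← zpow_natCast, ← zpow_mul, mul_comm]
  have hU : ∀ j, nn k (ev Δ.x (Uq P E i j)) * hf ^ (γ * j) =
      BD * (nn k ((Polynomial.taylor (Δ.inst.avg E) Q).coeff j) * hf ^ (γ * j)) := by
    intro j
    rw [Δ.nn_Uq]
    ring
  have hcode : ∀ j, cod e (ev Δ.x (Uq P E i j)) ≠ 0 → nn k (ev Δ.x (Uq P E i j)) * hf ^ (γ * j) =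
      qq e ^ (((cod e (ev Δ.x (Uq P E i j)) + (e * j) * γ : ℕ) : ℤ) - 1) := by
    intro j hj
    have hne : ev Δ.x (Uq P E i j) ≠ 0 := fun h0 => hj ((h _).zero_iff.2 h0)
    rw [(h _).nn_eq hne, hf_eq_qq he, ← zpow_add₀ (qq_pos e).ne']
    congr 1
    push_cast
    ring
  have hne_iff : ∀ j, cod e (ev Δ.x (Uq P E i j)) ≠ 0 ↔
      nn k ((Polynomial.taylor (Δ.inst.avg E) Q).coeff j) ≠ 0 := by
    intro j
    rw [Ne, (h _).zero_iff, ← nn_eq_zero, Δ.nn_Uq]
    rw [mul_eq_zero, not_or]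
    constructor
    · exact fun h => h.2
    · exact fun h => ⟨hBDpos.ne', h⟩
  have htarget : ∀ n : ℕ, BD * hf ^ n = qq e ^ (((e * n + D * cb : ℕ) : ℤ) - D) := by
    intro n
    rw [hBDq, hf_eq_qq he, ← zpow_add₀ (qq_pos e).ne']
    congr 1
    push_cast
    ring
  unfold GQ
  rw [← hD, ← hcb]
  constructor
  · intro hg
    rw [hg] at hall hj0'
    constructor
    · refine ⟨⟨j0, by omega⟩, (hne_iff j0).2 hne0, ?_⟩
      have h1 := hU j0
      rw [hj0', hcode j0 ((hne_iff j0).2 hne0), htarget] at h1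
      have h2 := qq_zpow_inj he h1
      simp only
      omega
    · intro j hj
      have h1 := hU j
      rw [hcode j hj] at h1
      have h2 := mul_le_mul_of_nonneg_left (hall j) (zero_le : 0 ≤ BD)
      rw [← h1, htarget, qq_zpow_le he] at h2
      omega
  · rintro ⟨⟨j1, hj1, hj1'⟩, h2⟩
    have hj0c : cod e (ev Δ.x (Uq P E i j0)) ≠ 0 := (hne_iff j0).2 hne0
    have h3 := h2 ⟨j0, by omega⟩ hj0c
    simp only at h3
    -- upper bound from j1, lower bound from j0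
    have h4 : BD * gvr Q (Δ.inst.avg E) γ ≤ BD * hf ^ n := by
      rw [← hj0', ← hU, hcode j0 hj0c, htarget, qq_zpow_le he]
      omega
    have h5 : BD * hf ^ n ≤ BD * gvr Q (Δ.inst.avg E) γ := by
      have h6 := mul_le_mul_of_nonneg_left (hall j1) (zero_le : 0 ≤ BD)
      rw [← hU, hcode j1 hj1] at h6
      refine le_trans ?_ h6
      rw [htarget, qq_zpow_le he]
      omega
    exact mul_left_cancel₀ hBDpos.ne' (le_antisymm h4 h5)

theorem Cod.gnu_eq [CharZero k] (h : Δ.Cod e) (he : e ≠ 0) (E : Finset (Fin d)) (i : σ) (γ : ℕ) :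
    Δ.inst.gnu i (Δ.inst.avg E) γ = gnuC P e E i Δ.x γ := by
  unfold Inst.gnu gnuC
  have h1 := fun n => h.GQ_iff he E i γ n
  by_cases hex : ∃ n, GQ P e E i Δ.x γ n
  · have hex' : ∃ n, gvr ((Δ.inst.f i).map (emb k)) (Δ.inst.avg E) γ = hf ^ n := by
      obtain ⟨n, hn⟩ := hex
      exact ⟨n, (h1 n).2 hn⟩
    rw [dif_pos hex, dif_pos hex']
    have h2 := (h1 _).1 hex'.choose_spec
    rw [GQ_unique he h2 hex.choose_spec]
  · have hex' : ¬ ∃ n, gvr ((Δ.inst.f i).map (emb k)) (Δ.inst.avg E) γ = hf ^ n := by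
      rintro ⟨n, hn⟩
      exact hex ⟨n, (h1 n).1 hn⟩
    rw [dif_neg hex, dif_neg hex']

end Dat

/-! ### telescoping -/

/-- lower end of the interval -/
def loE (R : ℕ → Prop) (N : ℕ) : ℕ := sInf {γ | N ≤ γ ∨ R γ}

/-- upper end of the interval -/
def hiE (R : ℕ → Prop) (N : ℕ) : ℕ := sInf {γ | loE R N ≤ γ ∧ (N ≤ γ ∨ ¬ R γ)}

theorem telescope (R : ℕ → Prop) (hconv : ∀ a b c, a ≤ b → b ≤ c → R a → R c → R b) (N : ℕ)
    (g : ℕ → ℤ) [DecidablePred R] :
    ∑ γ ∈ (Finset.range N).filter R, (g (γ + 1) - g γ) = g (hiE R N) - g (loE R N) := by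
  have hA : N ≤ loE R N ∨ R (loE R N) :=
    Nat.sInf_mem (s := {γ | N ≤ γ ∨ R γ}) ⟨N, Or.inl le_rfl⟩
  have hAle : loE R N ≤ N := Nat.sInf_le (s := {γ | N ≤ γ ∨ R γ}) (Or.inl le_rfl)
  have hAmin : ∀ m, (N ≤ m ∨ R m) → loE R N ≤ m := fun m hm =>
    Nat.sInf_le (s := {γ | N ≤ γ ∨ R γ}) hm
  have hB : loE R N ≤ hiE R N ∧ (N ≤ hiE R N ∨ ¬ R (hiE R N)) :=
    Nat.sInf_mem (s := {γ | loE R N ≤ γ ∧ (N ≤ γ ∨ ¬ R γ)}) ⟨N, hAle, Or.inl le_rfl⟩
  have hBle : hiE R N ≤ N :=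
    Nat.sInf_le (s := {γ | loE R N ≤ γ ∧ (N ≤ γ ∨ ¬ R γ)}) ⟨hAle, Or.inl le_rfl⟩
  have hBmin : ∀ m, loE R N ≤ m → (N ≤ m ∨ ¬ R m) → hiE R N ≤ m := fun m h1 hm =>
    Nat.sInf_le (s := {γ | loE R N ≤ γ ∧ (N ≤ γ ∨ ¬ R γ)}) ⟨h1, hm⟩
  have hset : (Finset.range N).filter R = Finset.Ico (loE R N) (hiE R N) := by
    ext γ
    rw [Finset.mem_filter, Finset.mem_range, Finset.mem_Ico]
    constructor
    · rintro ⟨h1, h2⟩
      have h3 := hAmin γ (Or.inr h2)
      refine ⟨h3, ?_⟩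
      by_contra hlt
      push Not at hlt
      rcases hB.2 with h | h
      · omega
      · apply h
        rcases hA with h4 | h4
        · omega
        · exact hconv _ _ _ hB.1 hlt h4 h2
    · rintro ⟨h1, h2⟩
      have h3 : ¬ (N ≤ γ ∨ ¬ R γ) := fun h => absurd (hBmin γ h1 h) (not_le.2 h2)
      push Not at h3
      exact h3
  rw [hset, Finset.sum_Ico_sub g hB.1]

end Pool.Agent.Helper345_Quot
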