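import Pool.Agent.Helper345_Quot.Loc
import Pool.Agent.Helper345_Quot.Fub

/-!
Definable parametrisations of sets of submodules.
-/

noncomputable section

namespace Pool.Agent.Helper345_Quot

open Polynomial

/-- A definable parametrisation of a set `Q` of submodules of the `R`-module `G` by tuples of
elements of the field `k`: a definable set `S` of tuples, a bijection `φ` of `S` with `Q`, such that
for every finite list of elements of `G` the condition on `(x, z)` that the combination of the
elements of the list with coefficients `z` lies in the submodule `φ x` is definable. -/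
structure Param (k : Type*) [Field k] (R : Type*) [Ring R] (G : Type*) [AddCommGroup G]
    [Module R G] [Module k G] (Q : Set (Submodule R G)) where
  /-- names of the coordinates -/
  κ : Type
  fin : Finite κ
  /-- the parameter set -/
  S : Set (κ → k)
  /-- the submodule attached to a parameter -/
  φ : (κ → k) → Submodule R G
  bij : Set.BijOn φ S Q
  dfn : ∀ (m : ℕ) (g : Fin m → G),
    DefinableIn k {z : κ ⊕ Fin m → k | z ∘ Sum.inl ∈ S ∧
      ∑ j, z (Sum.inr j) • g j ∈ φ (z ∘ Sum.inl)}

variable {k : Type*} [Field k]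

attribute [instance] Param.fin

/-! ### polynomial families of polynomials -/

/-- polynomial families of polynomials -/
def PP {κ : Type*} (q : (κ → k) → k[X]) : Prop :=
  ∃ Q : (MvPolynomial κ k)[X], ∀ z, q z = Q.map (MvPolynomial.eval z)

section PP

variable {κ κ' : Type*}

theorem PP.congr {p q : (κ → k) → k[X]} (hp : PP p) (h : ∀ z, p z = q z) : PP q := by
  have : p = q := funext h
  exact this ▸ hp

theorem PP.add {p q : (κ → k) → k[X]} (hp : PP p) (hq : PP q) : PP (fun z => p z + q z) := by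
  obtain ⟨P, hP⟩ := hp
  obtain ⟨Q, hQ⟩ := hq
  exact ⟨P + Q, fun z => by beta_reduce; rw [hP, hQ, Polynomial.map_add]⟩

theorem PP.sub {p q : (κ → k) → k[X]} (hp : PP p) (hq : PP q) : PP (fun z => p z - q z) := by
  obtain ⟨P, hP⟩ := hp
  obtain ⟨Q, hQ⟩ := hq
  exact ⟨P - Q, fun z => by beta_reduce; rw [hP, hQ, Polynomial.map_sub]⟩

theorem PP.mul {p q : (κ → k) → k[X]} (hp : PP p) (hq : PP q) : PP (fun z => p z * q z) := by
  obtain ⟨P, hP⟩ := hp
  obtain ⟨Q, hQ⟩ := hq
  exact ⟨P * Q, fun z => by beta_reduce; rw [hP, hQ, Polynomial.map_mul]⟩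

theorem PP.comp {p q : (κ → k) → k[X]} (hp : PP p) (hq : PP q) : PP (fun z => (p z).comp (q z)) := by
  obtain ⟨P, hP⟩ := hp
  obtain ⟨Q, hQ⟩ := hq
  exact ⟨P.comp Q, fun z => by beta_reduce; rw [hP, hQ, Polynomial.map_comp]⟩

theorem PP.const (p : k[X]) : PP (fun _ : κ → k => p) := by
  refine ⟨p.map MvPolynomial.C, fun z => ?_⟩
  rw [Polynomial.map_map]
  have : (MvPolynomial.eval z).comp MvPolynomial.C = RingHom.id k := by
    ext c; simp
  rw [this, Polynomial.map_id]

theorem PP.C {f : (κ → k) → k} (hf : PolyF f) : PP (fun z => Polynomial.C (f z)) := by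
  obtain ⟨P, hP⟩ := hf
  exact ⟨Polynomial.C P, fun z => by beta_reduce; rw [hP, Polynomial.map_C]⟩

theorem PP.pow {p : (κ → k) → k[X]} (hp : PP p) (n : ℕ) : PP (fun z => p z ^ n) := by
  obtain ⟨P, hP⟩ := hp
  exact ⟨P ^ n, fun z => by beta_reduce; rw [hP, Polynomial.map_pow]⟩

theorem PP.sum {J : Type*} (s : Finset J) {p : J → (κ → k) → k[X]} (hp : ∀ j ∈ s, PP (p j)) :
    PP (fun z => ∑ j ∈ s, p j z) := by
  classical
  induction s using Finset.induction_on with
  | empty => exact (PP.const 0).congr fun z => by simp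
  | insert j s hj ih =>
    refine ((hp j (Finset.mem_insert_self _ _)).add
      (ih fun i hi => hp i (Finset.mem_insert_of_mem hi))).congr fun z => ?_
    beta_reduce
    rw [Finset.sum_insert hj]

theorem PP.reindex {p : (κ → k) → k[X]} (hp : PP p) (e : κ → κ') :
    PP (fun z : κ' → k => p (z ∘ e)) := by
  obtain ⟨P, hP⟩ := hp
  refine ⟨P.map (MvPolynomial.rename e).toRingHom, fun z => ?_⟩
  beta_reduce
  rw [hP, Polynomial.map_map]
  congr 1
  ext c
  · simp
  · simp

end PP

/-- basis vectors times powers of the variable -/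
def mon (r : ℕ) (i : Fin r) (t : ℕ) : Fin r → k[X] := Pi.single i (X ^ t)

/-- combinations of monomial vectors -/
def vecOf {r m : ℕ} (c : Fin r × Fin m → k) : Fin r → k[X] := ∑ p, c p • mon r p.1 p.2

theorem vecOf_apply {r m : ℕ} (c : Fin r × Fin m → k) (i : Fin r) :
    vecOf c i = ∑ t : Fin m, C (c (i, t)) * X ^ (t : ℕ) := by
  unfold vecOf mon
  rw [Finset.sum_apply, Fintype.sum_prod_type, Finset.sum_eq_single i]
  · apply Finset.sum_congr rfl
    intro t _
    rw [Pi.smul_apply, Pi.single_eq_same, smul_eq_C_mul]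
  · intro j _ hj
    apply Finset.sum_eq_zero
    intro t _
    rw [Pi.smul_apply, Pi.single_eq_of_ne hj.symm, smul_zero]
  · intro h; exact absurd (Finset.mem_univ i) h

theorem exists_vecOf {r m : ℕ} (v : Fin r → k[X]) (h : ∀ i, degree (v i) < m) :
    ∃ c : Fin r × Fin m → k, v = vecOf c := by
  refine ⟨fun p => (v p.1).coeff p.2, ?_⟩
  funext i
  rw [vecOf_apply]
  by_cases hv : v i = 0
  · simp [hv]
  · have h1 : (v i).natDegree < m := by
      rw [natDegree_lt_iff_degree_lt hv]
      exact h i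
    conv_lhs => rw [(v i).as_sum_range' m h1]
    rw [Finset.sum_range]
    apply Finset.sum_congr rfl
    intro t _
    rw [C_mul_X_pow_eq_monomial]

theorem vecOf_eq_of_coeff {r m : ℕ} (v : Fin r → k[X]) (h : ∀ i, (v i).natDegree < m) :
    v = vecOf (fun p : Fin r × Fin m => (v p.1).coeff p.2) := by
  funext i
  rw [vecOf_apply]
  conv_lhs => rw [(v i).as_sum_range' m (h i)]
  rw [Finset.sum_range]
  apply Finset.sum_congr rfl
  intro t _
  rw [C_mul_X_pow_eq_monomial]

/-- polynomial families of vectors -/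
def PV {κ : Type*} {r : ℕ} (u : (κ → k) → Fin r → k[X]) : Prop := ∀ i, PP (fun z => u z i)

namespace Param

section general

variable {R : Type*} [Ring R] {G : Type*} [AddCommGroup G] [Module R G] [Module k G]
  {Q : Set (Submodule R G)} (P : Param k R G Q)

theorem dfn_comb {κ' : Type} (e : P.κ → κ') {J : Type*} [Fintype J] (g : J → G)
    (f : J → (κ' → k) → k) (hf : ∀ j, PolyF (f j)) :
    Dfn (fun z : κ' → k => z ∘ e ∈ P.S ∧ ∑ j, f j z • g j ∈ P.φ (z ∘ e)) := by
  let en := Fintype.equivFin J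
  have h1 := P.dfn (Fintype.card J) (fun j => g (en.symm j))
  have h2 : Dfn (fun z : P.κ ⊕ Fin (Fintype.card J) → k => z ∘ Sum.inl ∈ P.S ∧
      ∑ j, z (Sum.inr j) • g (en.symm j) ∈ P.φ (z ∘ Sum.inl)) := h1
  have h3 := h2.comp (f := fun (i : P.κ ⊕ Fin (Fintype.card J)) (z : κ' → k) =>
    Sum.elim (fun i => z (e i)) (fun j => f (en.symm j) z) i) (by
      rintro (i | j)
      · exact PolyF.coord (e i)
      · exact hf _)
  refine h3.congr fun z => ?_
  beta_reduce
  have h4 : ∑ j, f j z • g j = ∑ j, f (en.symm j) z • g (en.symm j) :=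
    (Equiv.sum_comp en.symm (fun j => f j z • g j)).symm
  rw [h4]
  rfl

theorem dfn_S {κ' : Type} (e : P.κ → κ') : Dfn (fun z : κ' → k => z ∘ e ∈ P.S) := by
  refine (P.dfn_comb e (J := Empty) (fun j => j.elim) (fun j => j.elim) (fun j => j.elim)).congr
    fun z => ?_
  simp

theorem surj {N : Submodule R G} (hN : N ∈ Q) : ∃ x ∈ P.S, P.φ x = N := P.bij.surjOn hN

theorem maps {x : P.κ → k} (hx : x ∈ P.S) : P.φ x ∈ Q := P.bij.mapsTo hx

theorem inj {x y : P.κ → k} (hx : x ∈ P.S) (hy : y ∈ P.S) (h : P.φ x = P.φ y) : x = y :=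
  P.bij.injOn hx hy h

end general

section poly

variable {r : ℕ} {Q : Set (Submodule k[X] (Fin r → k[X]))} (P : Param k k[X] (Fin r → k[X]) Q)

theorem dfn_mem {κ' : Type} (e : P.κ → κ') {u : (κ' → k) → Fin r → k[X]} (hu : PV u) :
    Dfn (fun z : κ' → k => z ∘ e ∈ P.S ∧ u z ∈ P.φ (z ∘ e)) := by
  choose U hU using hu
  beta_reduce at hU
  let m : ℕ := 1 + ∑ i, (U i).natDegree
  have h1 := P.dfn_comb e (J := Fin r × Fin m) (fun p => mon r p.1 p.2)
    (fun p z => (u z p.1).coeff p.2) (fun p => ⟨(U p.1).coeff p.2, fun z => by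
      beta_reduce
      rw [hU, Polynomial.coeff_map]⟩)
  refine h1.congr fun z => ?_
  have h2 : u z = vecOf (fun p : Fin r × Fin m => (u z p.1).coeff p.2) := by
    apply vecOf_eq_of_coeff
    intro i
    rw [hU]
    have h3 := natDegree_map_le (f := MvPolynomial.eval z) (p := U i)
    have h4 : (U i).natDegree ≤ ∑ i, (U i).natDegree :=
      Finset.single_le_sum (f := fun i => (U i).natDegree) (fun _ _ => Nat.zero_le _)
        (Finset.mem_univ i)
    omega
  conv_rhs => rw [h2]
  rfl

end poly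

end Param

end Pool.Agent.Helper345_Quot
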