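import Pool.Agent.Helper345_Quot.Aff

/-!
Existence of parametrisations.
-/

noncomputable section

namespace Pool.Agent.Helper345_Quot

open Polynomial

variable {k : Type*} [Field k] {r n : ℕ}

/-- coordinates for pairs of a matrix and a list of vectors -/
abbrev KQ (r n : ℕ) : Type := (Fin n × Fin n) ⊕ (Fin r × Fin n)

/-- the matrix -/
def Amat (z : KQ r n → k) : Matrix (Fin n) (Fin n) k := Matrix.of fun a b => z (Sum.inl (a, b))

/-- the vectors -/
def vvec (z : KQ r n → k) (j : Fin r) : Fin n → k := fun a => z (Sum.inr (j, a))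

/-- the evaluation of a vector of polynomials -/
def evq (z : KQ r n → k) : (Fin r → k[X]) →ₗ[k] (Fin n → k) where
  toFun := fun f => ∑ j, (aeval (Amat z) (f j)).mulVec (vvec z j)
  map_add' := by
    intro f g
    rw [← Finset.sum_add_distrib]
    apply Finset.sum_congr rfl
    intro j _
    rw [Pi.add_apply, map_add, Matrix.add_mulVec]
  map_smul' := by
    intro c f
    rw [RingHom.id_apply, Finset.smul_sum]
    apply Finset.sum_congr rfl
    intro j _
    rw [Pi.smul_apply, map_smul, Matrix.smul_mulVec]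

theorem evq_apply (z : KQ r n → k) (f : Fin r → k[X]) :
    evq z f = ∑ j, (aeval (Amat z) (f j)).mulVec (vvec z j) := rfl

theorem evq_smul (z : KQ r n → k) (p : k[X]) (f : Fin r → k[X]) :
    evq z (p • f) = (aeval (Amat z) p).mulVec (evq z f) := by
  rw [evq_apply, evq_apply, Matrix.mulVec_sum]
  apply Finset.sum_congr rfl
  intro j _
  rw [Pi.smul_apply, smul_eq_mul, map_mul, Matrix.mulVec_mulVec]

theorem evq_mon (z : KQ r n → k) (j : Fin r) : evq z (mon r j 0) = vvec z j := by
  rw [evq_apply, Finset.sum_eq_single j]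
  · unfold mon
    rw [Pi.single_eq_same, pow_zero, map_one, Matrix.one_mulVec]
  · intro i _ hi
    unfold mon
    rw [Pi.single_eq_of_ne hi, map_zero, Matrix.zero_mulVec]
  · intro h; exact absurd (Finset.mem_univ _) h

/-- the kernel -/
def kerq (z : KQ r n → k) : Submodule k[X] (Fin r → k[X]) where
  carrier := {f | evq z f = 0}
  add_mem' := by
    intro f g hf hg
    rw [Set.mem_ofPred_eq] at *
    rw [map_add, hf, hg, add_zero]
  zero_mem' := by
    rw [Set.mem_ofPred_eq, map_zero]
  smul_mem' := by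
    intro p f hf
    rw [Set.mem_ofPred_eq] at *
    rw [evq_smul, hf, Matrix.mulVec_zero]

theorem mem_kerq {z : KQ r n → k} {f : Fin r → k[X]} : f ∈ kerq z ↔ evq z f = 0 := Iff.rfl

/-! ### polynomiality -/

theorem polyF_pow (t : ℕ) (a b : Fin n) : PolyF (fun z : KQ r n → k => (Amat z ^ t) a b) := by
  induction t generalizing a b with
  | zero =>
    refine (PolyF.const (if a = b then 1 else 0)).congr fun z => ?_
    rw [pow_zero, Matrix.one_apply]
  | succ t ih =>
    refine (PolyF.sum Finset.univ (f := fun c z => (Amat z ^ t) a c * Amat z c b)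
      (fun c _ => (ih a c).mul (PolyF.coord (Sum.inl (c, b))))).congr fun z => ?_
    rw [pow_succ, Matrix.mul_apply]

theorem polyF_aeval (p : k[X]) (a b : Fin n) :
    PolyF (fun z : KQ r n → k => (aeval (Amat z) p) a b) := by
  refine (PolyF.sum (Finset.range (p.natDegree + 1))
    (f := fun t z => p.coeff t * (Amat z ^ t) a b)
    (fun t _ => (PolyF.const _).mul (polyF_pow t a b))).congr fun z => ?_
  beta_reduce
  rw [aeval_eq_sum_range, Matrix.sum_apply]
  apply Finset.sum_congr rfl
  intro t _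
  rw [Matrix.smul_apply, smul_eq_mul]

theorem polyF_evq (f : Fin r → k[X]) (a : Fin n) : PolyF (fun z : KQ r n → k => evq z f a) := by
  refine (PolyF.sum Finset.univ (f := fun j z => ∑ b, (aeval (Amat z) (f j)) a b * vvec z j b)
    (fun j _ => PolyF.sum Finset.univ (fun b _ => (polyF_aeval (f j) a b).mul
      (PolyF.coord (Sum.inr (j, b)))))).congr fun z => ?_
  beta_reduce
  rw [evq_apply, Finset.sum_apply]
  rfl

theorem dfn_evq_comb {κ' : Type} (e : KQ r n → κ') {J : Type*} [Fintype J]
    (g : J → Fin r → k[X]) (f : J → (κ' → k) → k) (hf : ∀ j, PolyF (f j)) :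
    Dfn (fun z : κ' → k => evq (z ∘ e) (∑ j, f j z • g j) = 0) := by
  have h1 : Dfn (fun z : κ' → k => ∀ a : Fin n, ∑ j, f j z * evq (z ∘ e) (g j) a = 0) :=
    Dfn.forall_fin fun a => Dfn.eq (PolyF.sum Finset.univ (fun j _ => (hf j).mul
      ((polyF_evq (g j) a).reindex e))) (PolyF.const 0)
  refine h1.congr fun z => ?_
  rw [funext_iff]
  apply forall_congr'
  intro a
  rw [map_sum, Finset.sum_apply, Pi.zero_apply]
  simp only [map_smul, Pi.smul_apply, smul_eq_mul]

/-! ### the parameter set -/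

section set

variable {Op Ve : Type} (T : Op → Matrix (Fin r) (Fin r) k[X]) (w : Ve → Fin r → k[X])

/-- independence of the classes of a list of monomial vectors -/
def LIq (z : KQ r n → k) (J : Fin n → Fin r × Fin n) : Prop :=
  ∀ c : Fin n → k, evq z (∑ l, c l • mon r (J l).1 (J l).2) = 0 → ∀ l, c l = 0

/-- enumeration of the lists -/
def enq (r n : ℕ) : (Fin n → Fin r × Fin n) ≃ Fin (Fintype.card (Fin n → Fin r × Fin n)) :=
  Fintype.equivFin _

/-- the parameter set -/
def Sq (n : ℕ) : Set (KQ r n → k) :=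
  {z | (∃ J : Fin n → Fin r × Fin n,
      (∀ l, evq z (mon r (J l).1 (J l).2) = Pi.single l 1) ∧
      ∀ J', enq r n J' < enq r n J → ¬ LIq z J') ∧
    (∀ o, ∀ c : Fin r × Fin (n + 1) → k, evq z (vecOf c) = 0 →
      evq z (Matrix.vecMul (vecOf c) (T o)) = 0) ∧ ∀ j, evq z (w j) = 0}

theorem dfn_Sq [Finite Op] [Finite Ve] (n : ℕ) {κ' : Type} (e : KQ r n → κ') :
    Dfn (fun z : κ' → k => z ∘ e ∈ Sq T w n) := by
  unfold Sq
  refine Dfn.and ?_ (Dfn.and ?_ ?_)
  · refine Dfn.exists_fin fun J => Dfn.and ?_ ?_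
    · refine Dfn.forall_fin fun l => ?_
      have h1 : Dfn (fun z : κ' → k => ∀ a, evq (z ∘ e) (mon r (J l).1 (J l).2) a =
          (Pi.single l 1 : Fin n → k) a) :=
        Dfn.forall_fin fun a => Dfn.eq ((polyF_evq _ a).reindex e) (PolyF.const _)
      exact h1.congr fun z => funext_iff.symm
    · refine Dfn.forall_fin fun J' => Dfn.imp (Dfn.const _) (Dfn.not ?_)
      unfold LIq
      have h1 : Dfn (fun z : κ' ⊕ Fin n → k =>
          evq (z ∘ (Sum.inl ∘ e)) (∑ l, z (Sum.inr l) • mon r (J' l).1 (J' l).2) = 0 →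
          ∀ l, z (Sum.inr l) = 0) :=
        (dfn_evq_comb (Sum.inl ∘ e) (fun l => mon r (J' l).1 (J' l).2)
          (fun l z => z (Sum.inr l)) (fun l => PolyF.coord _)).imp
          (Dfn.forall_fin fun l => Dfn.eq (PolyF.coord _) (PolyF.const 0))
      exact h1.forall_vec
  · refine Dfn.forall_fin fun o => ?_
    have h1 : Dfn (fun z : κ' ⊕ (Fin r × Fin (n + 1)) → k =>
        evq (z ∘ (Sum.inl ∘ e)) (∑ p, z (Sum.inr p) • mon r p.1 p.2) = 0 →
        evq (z ∘ (Sum.inl ∘ e)) (∑ p, z (Sum.inr p) • Matrix.vecMul (mon r p.1 p.2) (T o)) = 0) :=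
      (dfn_evq_comb (Sum.inl ∘ e) (fun p : Fin r × Fin (n + 1) => mon r p.1 p.2)
        (fun l z => z (Sum.inr l)) (fun l => PolyF.coord _)).imp
        (dfn_evq_comb (Sum.inl ∘ e)
        (fun p : Fin r × Fin (n + 1) => Matrix.vecMul (mon r p.1 p.2) (T o))
        (fun l z => z (Sum.inr l)) (fun l => PolyF.coord _))
    refine h1.forall_vec.congr fun z => ?_
    apply forall_congr'
    intro c
    have h2 : Matrix.vecMul (vecOf c) (T o) =
        ∑ p, c p • Matrix.vecMul (mon r p.1 p.2) (T o) := by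
      unfold vecOf
      rw [Matrix.sum_vecMul]
      apply Finset.sum_congr rfl
      intro p _
      rw [Matrix.smul_vecMul]
    rw [h2]
    rfl
  · refine Dfn.forall_fin fun j => ?_
    have h1 : Dfn (fun z : κ' → k => ∀ a, evq (z ∘ e) (w j) a = (0 : Fin n → k) a) :=
      Dfn.forall_fin fun a => Dfn.eq ((polyF_evq _ a).reindex e) (PolyF.const _)
    exact h1.congr fun z => funext_iff.symm

variable {T w}

theorem LIq_congr {z z' : KQ r n → k} (h : kerq z = kerq z') (J : Fin n → Fin r × Fin n) :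
    LIq z J ↔ LIq z' J := by
  unfold LIq
  simp only [← mem_kerq, h]

theorem LIq_of_norm {z : KQ r n → k} {J : Fin n → Fin r × Fin n}
    (h : ∀ l, evq z (mon r (J l).1 (J l).2) = Pi.single l 1) : LIq z J := by
  intro c hc l
  rw [map_sum] at hc
  simp only [map_smul, h] at hc
  have := congrFun hc l
  rw [Finset.sum_apply, Finset.sum_eq_single l] at this
  · simpa using this
  · intro i _ hi
    rw [Pi.smul_apply, Pi.single_eq_of_ne hi.symm, smul_zero]
  · intro h; exact absurd (Finset.mem_univ _) h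

theorem evq_surj {z : KQ r n → k} {J : Fin n → Fin r × Fin n}
    (h : ∀ l, evq z (mon r (J l).1 (J l).2) = Pi.single l 1) (c : Fin n → k) :
    evq z (∑ l, c l • mon r (J l).1 (J l).2) = c := by
  rw [map_sum]
  simp only [map_smul, h]
  funext l
  rw [Finset.sum_apply, Finset.sum_eq_single l]
  · simp
  · intro i _ hi
    rw [Pi.smul_apply, Pi.single_eq_of_ne hi.symm, smul_zero]
  · intro h; exact absurd (Finset.mem_univ _) h

theorem kerq_quot {z : KQ r n → k} (hs : Function.Surjective (evq z)) :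
    Module.Finite k ((Fin r → k[X]) ⧸ kerq z) ∧
      Module.finrank k ((Fin r → k[X]) ⧸ kerq z) = n := by
  have hker : LinearMap.ker (evq z) = (kerq z).restrictScalars k := by
    ext v
    rw [LinearMap.mem_ker, Submodule.restrictScalars_mem, mem_kerq]
  let eq : ((Fin r → k[X]) ⧸ kerq z) ≃ₗ[k] (Fin n → k) :=
    (Submodule.Quotient.restrictScalarsEquiv k _).symm.trans
      ((Submodule.quotEquivOfEq _ _ hker.symm).trans ((evq z).quotKerEquivOfSurjective hs))
  exact ⟨Module.Finite.equiv eq.symm, by rw [eq.finrank_eq, Module.finrank_fin_fun]⟩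

theorem maps_Sq {z : KQ r n → k} (hz : z ∈ Sq T w n) : kerq z ∈ QN T w n := by
  obtain ⟨⟨J, hJ, -⟩, hst, hrel⟩ := hz
  have hq := kerq_quot (z := z) (fun c => ⟨_, evq_surj hJ c⟩)
  refine ⟨⟨?_, hrel⟩, hq⟩
  intro o v hv
  let N' : Submodule k[X] (Fin r → k[X]) := (kerq z).comap (Matrix.vecMulLinear (T o))
  have := hq.1
  have hle : kerq z ≤ N' := by
    rw [le_iff_bdd hq.2]
    intro c hc
    exact hst o c hc
  exact hle hv

theorem inj_Sq {z z' : KQ r n → k} (hz : z ∈ Sq T w n) (hz' : z' ∈ Sq T w n)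
    (h : kerq z = kerq z') : z = z' := by
  obtain ⟨⟨J, hJ, hmin⟩, -⟩ := hz
  obtain ⟨⟨J', hJ', hmin'⟩, -⟩ := hz'
  have hJJ : J = J' := by
    apply (enq r n).injective
    apply le_antisymm
    · by_contra hlt
      exact hmin J' (not_le.1 hlt) ((LIq_congr h J').2 (LIq_of_norm hJ'))
    · by_contra hlt
      exact hmin' J (not_le.1 hlt) ((LIq_congr h J).1 (LIq_of_norm hJ))
  subst hJJ
  have hev : ∀ f, evq z f = evq z' f := by
    intro f
    have h1 : f - ∑ l, (evq z f) l • mon r (J l).1 (J l).2 ∈ kerq z := by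
      rw [mem_kerq, map_sub, evq_surj hJ, sub_self]
    rw [h, mem_kerq, map_sub, evq_surj hJ', sub_eq_zero] at h1
    exact h1.symm
  funext i
  rcases i with ⟨a, b⟩ | ⟨j, a⟩
  · have h1 := hev ((X : k[X]) • mon r (J b).1 (J b).2)
    rw [evq_smul, evq_smul, hJ, hJ', aeval_X, aeval_X] at h1
    have h2 := congrFun h1 a
    rw [Matrix.mulVec_single_one, Matrix.mulVec_single_one] at h2
    exact h2
  · have h1 := hev (mon r j 0)
    rw [evq_mon, evq_mon] at h1
    exact congrFun h1 a

theorem surj_Sq {N : Submodule k[X] (Fin r → k[X])} (hN : N ∈ QN T w n) :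
    ∃ z ∈ Sq T w n, kerq z = N := by
  classical
  obtain ⟨hst, hfin, hrk⟩ := hN
  let Q := (Fin r → k[X]) ⧸ N
  let u : Fin r × Fin n → Q := fun p => N.mkQ (mon r p.1 p.2)
  -- the classes of the monomial vectors span
  have hspan : Submodule.span k (Set.range u) = ⊤ := by
    rw [eq_top_iff]
    intro q _
    obtain ⟨v, rfl⟩ := N.mkQ_surjective q
    obtain ⟨m, hm, hd, hmN⟩ := exists_monic N
    rw [hrk] at hd
    obtain ⟨a, b, hab, hb⟩ := rem_exists hm v
    rw [hd] at hb
    obtain ⟨c, rfl⟩ := exists_vecOf b hb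
    have h1 : N.mkQ v = ∑ p, c p • u p := by
      rw [hab, map_add]
      have h2 : N.mkQ (m • a) = 0 := by
        rw [Submodule.mkQ_apply, Submodule.Quotient.mk_eq_zero]
        exact hmN a
      rw [h2, zero_add]
      have h3 : N.mkQ (vecOf c) = (N.mkQ.restrictScalars k) (vecOf c) := rfl
      rw [h3]
      unfold vecOf
      rw [map_sum]
      apply Finset.sum_congr rfl
      intro p _
      rw [map_smul]
      rfl
    rw [h1]
    exact Submodule.sum_mem _ fun p _ => Submodule.smul_mem _ _ (Submodule.subset_span ⟨p, rfl⟩)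
  have hex : ∃ J : Fin n → Fin r × Fin n, LinearIndependent k (fun l => u (J l)) := by
    obtain ⟨κ, a, ha, hsp, hli⟩ := exists_linearIndependent' k u
    rw [hspan] at hsp
    have : Finite κ := Finite.of_injective a ha
    let _ := Fintype.ofFinite κ
    have hc : Fintype.card κ = n := by
      let b : Module.Basis κ k Q := Module.Basis.mk hli hsp.ge
      rw [← hrk]
      exact (Module.finrank_eq_card_basis b).symm
    let e : Fin n ≃ κ := (Fintype.equivFinOfCardEq hc).symm
    exact ⟨fun l => a (e l), hli.comp e e.injective⟩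
  -- the first such list
  obtain ⟨J, hJ, hmin⟩ : ∃ J : Fin n → Fin r × Fin n, LinearIndependent k (fun l => u (J l)) ∧
      ∀ J', enq r n J' < enq r n J → ¬ LinearIndependent k (fun l => u (J' l)) := by
    let P : Fin (Fintype.card (Fin n → Fin r × Fin n)) → Prop := fun i =>
      LinearIndependent k (fun l => u ((enq r n).symm i l))
    have hP : ∃ i, P i := by
      obtain ⟨J, hJ⟩ := hex
      refine ⟨enq r n J, ?_⟩
      simp only [P, Equiv.symm_apply_apply]
      exact hJ
    obtain ⟨i, hi, hmin⟩ := WellFounded.has_min (wellFounded_lt (α := Fin _)) {i | P i} hP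
    refine ⟨(enq r n).symm i, hi, fun J' hJ' h => ?_⟩
    rw [Equiv.apply_symm_apply] at hJ'
    apply hmin (enq r n J') _ hJ'
    simp only [P, Set.mem_ofPred_eq, Equiv.symm_apply_apply]
    exact h
  let b : Module.Basis (Fin n) k Q := basisOfLinearIndependentOfCardEqFinrank' _ hJ (by
    rw [Fintype.card_fin, hrk])
  have hb : ∀ l, b l = u (J l) := fun l => by
    simp [b]
  let z : KQ r n → k := Sum.elim (fun p => b.equivFun ((X : k[X]) • b p.2) p.1)
    (fun p => b.equivFun (N.mkQ (mon r p.1 0)) p.2)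
  have hA : ∀ q : Q, b.equivFun ((X : k[X]) • q) = (Amat z).mulVec (b.equivFun q) := by
    intro q
    conv_lhs => rw [← b.sum_equivFun q]
    rw [Finset.smul_sum, map_sum]
    funext a
    rw [Finset.sum_apply, Matrix.mulVec, dotProduct]
    apply Finset.sum_congr rfl
    intro l _
    rw [smul_comm, map_smul, Pi.smul_apply, smul_eq_mul, mul_comm]
    rfl
  have hp : ∀ (p : k[X]) (q : Q), b.equivFun (p • q) =
      (aeval (Amat z) p).mulVec (b.equivFun q) := by
    intro p
    induction p using Polynomial.induction_on' with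
    | add p p' h h' =>
      intro q
      rw [add_smul, map_add, h, h', map_add, Matrix.add_mulVec]
    | monomial m a =>
      intro q
      have h0 : ∀ (m : ℕ) (q : Q), b.equivFun ((X ^ m : k[X]) • q) =
          (Amat z ^ m).mulVec (b.equivFun q) := by
        intro m
        induction m with
        | zero => intro q; rw [pow_zero, pow_zero, one_smul, Matrix.one_mulVec]
        | succ m ih =>
          intro q
          rw [pow_succ, mul_smul, ih, hA, Matrix.mulVec_mulVec, ← pow_succ]
      rw [← C_mul_X_pow_eq_monomial, mul_smul]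
      have h1 : (C a : k[X]) • (X ^ m : k[X]) • q = a • ((X ^ m : k[X]) • q) := by
        rw [← Polynomial.algebraMap_eq, algebraMap_smul]
      rw [h1, map_smul, h0, map_mul, aeval_C, map_pow, aeval_X, ← Matrix.mulVec_mulVec,
        Algebra.algebraMap_eq_smul_one, Matrix.smul_mulVec, Matrix.one_mulVec]
  have hev : ∀ f, evq z f = b.equivFun (N.mkQ f) := by
    intro f
    conv_rhs => rw [vec_eq_sum f, map_sum, map_sum]
    rw [evq_apply]
    apply Finset.sum_congr rfl
    intro j _
    rw [map_smul, hp]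
    congr 1
  have hker : kerq z = N := by
    ext f
    rw [mem_kerq, hev, LinearEquiv.map_eq_zero_iff, Submodule.mkQ_apply,
      Submodule.Quotient.mk_eq_zero]
  have hLI : ∀ J', LIq z J' ↔ LinearIndependent k (fun l => u (J' l)) := by
    intro J'
    rw [Fintype.linearIndependent_iff]
    unfold LIq
    apply forall_congr'
    intro c
    rw [hev, LinearEquiv.map_eq_zero_iff]
    have h3 : N.mkQ (∑ l, c l • mon r (J' l).1 (J' l).2) = ∑ l, c l • u (J' l) := by
      have h4 : N.mkQ (∑ l, c l • mon r (J' l).1 (J' l).2) =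
        (N.mkQ.restrictScalars k) (∑ l, c l • mon r (J' l).1 (J' l).2) := rfl
      rw [h4, map_sum]
      apply Finset.sum_congr rfl
      intro p _
      rw [map_smul]
      rfl
    rw [h3]
  refine ⟨z, ⟨⟨J, ?_, ?_⟩, ?_, ?_⟩, hker⟩
  · intro l
    rw [hev]
    change b.equivFun (u (J l)) = _
    rw [← hb]
    funext a
    rw [Module.Basis.equivFun_self, Pi.single_apply]
    simp [eq_comm]
  · intro J' hJ'
    rw [hLI]
    exact hmin J' hJ'
  · intro o c hc
    rw [← mem_kerq, hker] at hc ⊢
    exact hst.1 o _ hc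
  · intro j
    rw [← mem_kerq, hker]
    exact hst.2 j

variable (T w) in
/-- existence of a parametrisation -/
theorem exists_param_QN [Finite Op] [Finite Ve] (n : ℕ) :
    Nonempty (Param k k[X] (Fin r → k[X]) (QN T w n)) := by
  refine ⟨{
    κ := KQ r n
    fin := inferInstance
    S := Sq T w n
    φ := kerq
    bij := ⟨fun z hz => maps_Sq hz, fun z hz z' hz' h => inj_Sq hz hz' h, fun N hN => ?_⟩
    dfn := ?_ }⟩
  · obtain ⟨z, hz, hz'⟩ := surj_Sq hN
    exact ⟨z, hz, hz'⟩
  · intro m g
    have h1 := (dfn_Sq T w n (κ' := KQ r n ⊕ Fin m) Sum.inl).and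
      (dfn_evq_comb (κ' := KQ r n ⊕ Fin m) Sum.inl g (fun j z => z (Sum.inr j))
      (fun j => PolyF.coord _))
    exact h1

end set

end Pool.Agent.Helper345_Quot
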