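import Pool.Agent.Helper345_Quot.Exact

/-!
Degree patterns and the general one variable integration theorem.
-/

noncomputable section

namespace Pool.Agent.Helper345_Quot

open PowerSeries
open scoped NNReal

variable {k : Type*} [Field k] {τ : Type*}

section general

variable {A : Type*} [CommRing A] {ν : A → ℕ} {ι : Type*}

/-- normal form of a tame function with finite range -/
theorem TameZ.normal [Finite ι] {F : (τ → A) → (ι → ℕ) → ℤ} (hF : TameZ ν F) :
    ∃ (σ : Type) (_ : Fintype σ) (H : σ → MvPolynomial τ ℤ) (s : Finset ℤ)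
      (q : ℤ → (ι ⊕ σ → ℕ) → Prop), (∀ n, SL (q n)) ∧ (∀ θ a, F θ a ∈ s) ∧
      ∀ θ a, ∀ n ∈ s, (F θ a = n ↔ q n (Sum.elim a (fun j => ν (ev θ (H j))))) := by
  classical
  obtain ⟨⟨s, hs⟩, hlev⟩ := hF
  choose σ' hσ' H' q' hq' h' using hlev
  have : ∀ n, Fintype (σ' n) := fun n => Fintype.ofFinite _
  refine ⟨Σ n : s, σ' n, inferInstance, fun j => H' j.1 j.2, s,
    fun n v => if h : n ∈ s then q' n (v ∘ Sum.map id (fun j => ⟨⟨n, h⟩, j⟩)) else False, ?_, hs,
    ?_⟩
  · intro n
    by_cases h : n ∈ s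
    · simp only [h, dif_pos]
      exact (hq' n).reindex _
    · simp only [h, dif_neg, not_false_eq_true]
      exact SL.const False
  · intro θ a n hn
    simp only [hn, dif_pos]
    refine (h' n θ a).trans ?_
    have : (Sum.elim a (fun j => ν (ev θ (H' j.1 j.2))) ∘
        Sum.map id (fun j => (⟨⟨n, hn⟩, j⟩ : Σ n : s, σ' n))) =
        Sum.elim a (fun j => ν (ev θ (H' n j))) := by
      funext x; rcases x with x | x <;> rfl
    rw [this]

end general

/-- extending a parameter by one variable -/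
def ext {A : Type*} (θ : τ → A) (t : A) : Option τ → A := fun o => o.elim t θ

/-- integer polynomials in one more variable as univariate polynomials -/
def uni (H : MvPolynomial (Option τ) ℤ) : Polynomial (MvPolynomial τ ℤ) :=
  MvPolynomial.optionEquivLeft ℤ τ H

theorem ev_ext {A : Type*} [CommRing A] (θ : τ → A) (t : A) (H : MvPolynomial (Option τ) ℤ) :
    ev (ext θ t) H = ((uni H).map (ev θ)).eval t := by
  let f : MvPolynomial (Option τ) ℤ →+* A :=
    ((Polynomial.evalRingHom t).comp (Polynomial.mapRingHom (ev θ))).comp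
      (MvPolynomial.optionEquivLeft ℤ τ).toRingEquiv.toRingHom
  have h1 := ringHom_eq_ev f H
  have h2 : (fun o => f (MvPolynomial.X o)) = ext θ t := by
    funext o
    cases o with
    | none =>
      change ((((MvPolynomial.optionEquivLeft ℤ τ) (MvPolynomial.X none)).map (ev θ)).eval t) = _
      rw [MvPolynomial.optionEquivLeft_X_none]
      simp [ext]
    | some o =>
      change ((((MvPolynomial.optionEquivLeft ℤ τ) (MvPolynomial.X (some o))).map (ev θ)).eval t) = _
      rw [MvPolynomial.optionEquivLeft_X_some]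
      simp [ext]
  rw [h2] at h1
  rw [← h1]
  rfl

/-- truncated polynomial -/
def trunc (P : Polynomial (MvPolynomial τ ℤ)) (D : ℕ) : Polynomial (MvPolynomial τ ℤ) :=
  if D = 0 then 1 else ∑ s ∈ Finset.range D, Polynomial.monomial s (P.coeff s)

theorem trunc_coeff (P : Polynomial (MvPolynomial τ ℤ)) {D : ℕ} (hD : D ≠ 0) (s : ℕ) :
    (trunc P D).coeff s = if s < D then P.coeff s else 0 := by
  unfold trunc
  rw [if_neg hD, Polynomial.finset_sum_coeff]
  simp only [Polynomial.coeff_monomial]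
  rw [Finset.sum_ite_eq']
  simp

/-- exact degree condition -/
def dcond {A : Type*} [CommRing A] (P : Polynomial (MvPolynomial τ ℤ)) (D : ℕ) (θ : τ → A) : Prop :=
  (∀ s : Fin (P.natDegree + 1), D ≤ s → ev θ (P.coeff s) = 0) ∧
    (D ≠ 0 → ev θ (P.coeff (D - 1)) ≠ 0)

theorem dcond_zero {A : Type*} [CommRing A] {P : Polynomial (MvPolynomial τ ℤ)} {D : ℕ}
    {θ : τ → A} (h : dcond P D θ) (s : ℕ) (hs : D ≤ s) : ev θ (P.coeff s) = 0 := by
  by_cases h1 : s < P.natDegree + 1
  · exact h.1 ⟨s, h1⟩ hs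
  · rw [Polynomial.coeff_eq_zero_of_natDegree_lt (by omega), map_zero]

theorem dcond_unique {A : Type*} [CommRing A] {P : Polynomial (MvPolynomial τ ℤ)} {D D' : ℕ}
    {θ : τ → A} (h : dcond P D θ) (h' : dcond P D' θ) : D = D' := by
  rcases lt_trichotomy D D' with hlt | heq | hlt
  · exact absurd (dcond_zero h (D' - 1) (by omega)) (h'.2 (by omega))
  · exact heq
  · exact absurd (dcond_zero h' (D - 1) (by omega)) (h.2 (by omega))

theorem dcond_exists {A : Type*} [CommRing A] (P : Polynomial (MvPolynomial τ ℤ)) (θ : τ → A) :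
    ∃ D : Fin (P.natDegree + 2), dcond P D θ := by
  by_cases h : P.map (ev θ) = 0
  · refine ⟨⟨0, by omega⟩, ?_, fun h => absurd rfl h⟩
    intro s _
    rw [← Polynomial.coeff_map, h, Polynomial.coeff_zero]
  · refine ⟨⟨(P.map (ev θ)).natDegree + 1, ?_⟩, ?_, ?_⟩
    · have := Polynomial.natDegree_map_le (p := P) (f := ev θ)
      omega
    · intro s hs
      simp only at hs
      rw [← Polynomial.coeff_map, Polynomial.coeff_eq_zero_of_natDegree_lt (by omega)]
    · intro _
      simp only [Nat.add_sub_cancel]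
      rw [← Polynomial.coeff_map]
      exact fun h0 => h (Polynomial.leadingCoeff_eq_zero.1 h0)

theorem dcond_lead {A : Type*} [CommRing A] [Nontrivial A] {P : Polynomial (MvPolynomial τ ℤ)}
    {D : ℕ} {θ : τ → A} (h : dcond P D θ) : ev θ (trunc P D).leadingCoeff ≠ 0 := by
  by_cases hD : D = 0
  · subst hD
    unfold trunc
    simp
  · have h1 : P.coeff (D - 1) ≠ 0 := by
      intro h0
      apply h.2 hD
      rw [h0, map_zero]
    have h2 : (trunc P D).natDegree = D - 1 := by
      apply le_antisymm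
      · rw [Polynomial.natDegree_le_iff_coeff_eq_zero]
        intro s hs
        rw [trunc_coeff P hD, if_neg (by omega)]
      · apply Polynomial.le_natDegree_of_ne_zero
        rw [trunc_coeff P hD, if_pos (by omega)]
        exact h1
    have h3 : (trunc P D).leadingCoeff = P.coeff (D - 1) := by
      unfold Polynomial.leadingCoeff
      rw [h2, trunc_coeff P hD, if_pos (by omega)]
    rw [h3]
    exact h.2 hD

theorem dcond_map {A : Type*} [CommRing A] {P : Polynomial (MvPolynomial τ ℤ)} {D : ℕ}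
    {θ : τ → A} (h : dcond P D θ) (hD : D ≠ 0) : (trunc P D).map (ev θ) = P.map (ev θ) := by
  ext s
  rw [Polynomial.coeff_map, Polynomial.coeff_map, trunc_coeff P hD]
  split_ifs with h1
  · rfl
  · rw [map_zero, dcond_zero h s (by omega)]

theorem dcond_map_zero {A : Type*} [CommRing A] {P : Polynomial (MvPolynomial τ ℤ)}
    {θ : τ → A} (h : dcond P 0 θ) : P.map (ev θ) = 0 := by
  ext s
  rw [Polynomial.coeff_map, dcond_zero h s (Nat.zero_le s), Polynomial.coeff_zero]

theorem dcond_tame {ι : Type*} [Finite ι] (P : Polynomial (MvPolynomial τ ℤ)) (D : ℕ) :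
    TameP (nu k) (fun θ (_ : ι → ℕ) => dcond P D θ) := by
  have h0 : TameF (nu k) (fun (_ : τ → k⟦X⟧) (_ : ι → ℕ) => 0) := TameF.const 0
  have h1 : ∀ s : ℕ, TameP (nu k) (fun (θ : τ → k⟦X⟧) (_ : ι → ℕ) => ev θ (P.coeff s) = 0) := by
    intro s
    have h2 : TameF (nu k) (fun (θ : τ → k⟦X⟧) (_ : ι → ℕ) => nu k (ev θ (P.coeff s))) :=
      TameF.nu _
    refine (TameP.eq h2 h0).congr fun θ a => ?_
    rw [nu_eq_zero]
  unfold dcond
  refine TameP.and (TameP.forall_fin fun s => TameP.imp (TameP.const _) (h1 s)) ?_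
  exact TameP.imp (TameP.const _) (h1 _).not

/-- reduction to exact degree -/
theorem reduce {ι : Type*} [Finite ι] {F : (Option τ → k⟦X⟧) → (ι → ℕ) → ℤ}
    (hF : TameZ (nu k) F) :
    ∃ (σ : Type) (_ : Fintype σ) (Γ : Type) (_ : Fintype Γ)
      (P : Γ → σ → Polynomial (MvPolynomial τ ℤ)) (gz : Γ → (ι ⊕ σ → ℕ) → ℤ)
      (cond : Γ → (τ → k⟦X⟧) → Prop),
      (∀ γ (d e : ℕ), TameZ (cod e) (fun (_ : Fin d ⊕ τ → LL k) (v : ι ⊕ σ → ℕ) => gz γ v)) ∧
      (∀ γ, TameP (nu k) (fun θ (_ : Option ι → ℕ) => cond γ θ)) ∧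
      (∀ θ, ∃ γ, cond γ θ) ∧ (∀ θ γ γ', cond γ θ → cond γ' θ → γ = γ') ∧
      (∀ γ θ, cond γ θ → ∀ i, ev θ (P γ i).leadingCoeff ≠ 0) ∧
      ∀ γ θ, cond γ θ → ∀ a t, F (ext θ t) a =
        gz γ (Sum.elim a (fun i => nu k (((P γ i).map (ev θ)).eval t))) := by
  classical
  obtain ⟨σ, hσ, H, s, q, hq, hFs, hFq⟩ := hF.normal
  let gz : (ι ⊕ σ → ℕ) → ℤ := fun v => ∑ n ∈ s, if q n v then n else 0
  let Q : σ → Polynomial (MvPolynomial τ ℤ) := fun i => uni (H i)
  refine ⟨σ, hσ, (i : σ) → Fin ((Q i).natDegree + 2), inferInstance,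
    fun γ i => trunc (Q i) (γ i),
    fun γ v => gz (Sum.elim (fun i => v (Sum.inl i)) (fun i => if (γ i : ℕ) = 0 then 0 else v (Sum.inr i))),
    fun γ θ => ∀ i, dcond (Q i) (γ i) θ, ?_, ?_, ?_, ?_, ?_, ?_⟩
  · intro γ d e
    have hgz : TameZ (cod e) (fun (_ : Fin d ⊕ τ → LL k) (v : ι ⊕ σ → ℕ) => gz v) := by
      refine TameZ.sum _ fun n _ => ?_
      exact TameZ.ite (TameP.sl (hq n)) (TameZ.const n) (TameZ.const 0)
    let f : ι ⊕ σ → (Fin d ⊕ τ → LL k) → (ι ⊕ σ → ℕ) → ℕ :=
      Sum.elim (fun i _ v => v (Sum.inl i)) (fun i _ v => if (γ i : ℕ) = 0 then 0 else v (Sum.inr i))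
    have hf : ∀ j, TameF (cod e) (f j) := by
      intro j
      rcases j with j | j
      · exact TameF.coord _
      · by_cases h : (γ j : ℕ) = 0
        · refine (TameF.const 0).congr fun θ a => ?_
          simp only [f, Sum.elim_inr]
          rw [if_pos h]
        · refine (TameF.coord (Sum.inr j)).congr fun θ a => ?_
          simp only [f, Sum.elim_inr]
          rw [if_neg h]
    refine (TameZ.comp hgz hf).congr fun θ a => ?_
    congr 1
    funext j
    rcases j with j | j <;> rfl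
  · intro γ
    exact TameP.forall_fin fun i => dcond_tame _ _
  · intro θ
    choose D hD using fun i => dcond_exists (Q i) θ
    exact ⟨D, hD⟩
  · intro θ γ γ' h h'
    funext i
    exact Fin.ext (dcond_unique (h i) (h' i))
  · intro γ θ h i
    exact dcond_lead (h i)
  · intro γ θ h a t
    have h1 : ∀ i, nu k (ev (ext θ t) (H i)) =
        if (γ i : ℕ) = 0 then 0 else nu k (((trunc (Q i) (γ i)).map (ev θ)).eval t) := by
      intro i
      rw [ev_ext]
      change nu k (((Q i).map (ev θ)).eval t) = _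
      split_ifs with h0
      · have h2 := h i
        rw [h0] at h2
        rw [dcond_map_zero h2, Polynomial.eval_zero, nu_eq_zero]
      · rw [dcond_map (h i) h0]
    have h2 : (Sum.elim a (fun i => nu k (ev (ext θ t) (H i))) : ι ⊕ σ → ℕ) =
        Sum.elim a (fun i => if (γ i : ℕ) = 0 then 0 else
          nu k (((trunc (Q i) (γ i)).map (ev θ)).eval t)) := by
      funext j
      rcases j with j | j
      · rfl
      · exact h1 j
    change _ = ∑ n ∈ s, if q n (Sum.elim a (fun i => if (γ i : ℕ) = 0 then 0 else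
          nu k (((trunc (Q i) (γ i)).map (ev θ)).eval t))) then n else 0
    rw [← h2]
    have h3 : ∀ n ∈ s, (if q n (Sum.elim a (fun i => nu k (ev (ext θ t) (H i)))) then n else 0) =
        if F (ext θ t) a = n then n else 0 := by
      intro n hn
      have h4 := hFq (ext θ t) a n hn
      by_cases h5 : F (ext θ t) a = n
      · rw [if_pos h5, if_pos (h4.1 h5)]
      · rw [if_neg h5, if_neg (fun h => h5 (h4.2 h))]
    rw [Finset.sum_congr rfl h3, Finset.sum_ite_eq, if_pos (hFs _ _)]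

/-- uniform almost constancy of the ball integrals -/
theorem one_bound [IsAlgClosed k] [CharZero k] {ι : Type*} [Finite ι]
    {F : (Option τ → k⟦X⟧) → (ι → ℕ) → ℤ} (hF : TameZ (nu k) F) :
    ∃ B : ℕ, ∀ (θ : τ → k⟦X⟧) (a : ι → ℕ) (q : k⟦X⟧) (γ M : ℕ),
      ∃ (c : ℤ) (R : Finset k), R.card ≤ B ∧ ∀ x, x ∉ R →
        bint (q + C x * X ^ γ) (γ + 1) M (fun t => F (ext θ t) a) = c := by
  classical
  obtain ⟨σ, hσ, Γ, hΓ, P, gz, cond, h1, h2, h3, h4, h5, h6⟩ := reduce hF
  refine ⟨∑ γ, (∏ i, P γ i).natDegree, ?_⟩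
  intro θ a q γ M
  obtain ⟨D, hD⟩ := h3 θ
  obtain ⟨Δ⟩ := exists_dat (k := k) (P D) θ (h5 D θ hD) rfl
  obtain ⟨c, R, hR, hc⟩ := Δ.inst.bint_children (fun v => gz D (Sum.elim a v)) q γ M
  refine ⟨c, R, hR.trans ?_, fun x hx => ?_⟩
  · exact Finset.single_le_sum (f := fun γ => (∏ i, P γ i).natDegree) (fun _ _ => Nat.zero_le _)
      (Finset.mem_univ D)
  · rw [← hc x hx]
    congr 1
    funext t
    exact h6 D θ hD a t

/-- one variable integration -/
theorem one_int [IsAlgClosed k] [CharZero k] {ι : Type*} [Finite ι]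
    {F : (Option τ → k⟦X⟧) → (ι → ℕ) → ℤ} (hF : TameZ (nu k) F) :
    ∃ J : (τ → k⟦X⟧) → (Option ι → ℕ) → ℤ, TameZ (nu k) J ∧
      ∀ θ (a : Option ι → ℕ), Per (a none) (fun t => F (ext θ t) (fun i => a (some i))) →
        tint (a none) (fun t => F (ext θ t) (fun i => a (some i))) = J θ a := by
  classical
  obtain ⟨σ, hσ, Γ, hΓ, P, gz, cond, h1, h2, h3, h4, h5, h6⟩ := reduce hF
  choose J hJ hJ' using fun γ => exact_int (P γ) (gz γ) (h1 γ)
  refine ⟨fun θ a => ∑ γ, if cond γ θ then J γ θ a else 0, ?_, ?_⟩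
  · refine TameZ.sum _ fun γ _ => ?_
    exact TameZ.ite (h2 γ) (hJ γ) (TameZ.const 0)
  · intro θ a hper
    obtain ⟨D, hD⟩ := h3 θ
    change _ = ∑ γ, if cond γ θ then J γ θ a else 0
    rw [Finset.sum_eq_single D]
    · rw [if_pos hD, ← hJ' D θ (h5 D θ hD) a]
      · rw [tint_eq_bint]
        congr 1
        funext t
        exact h6 D θ hD _ t
      · intro t t' htt
        have := hper t t' htt
        simp only at this
        rw [h6 D θ hD, h6 D θ hD] at this
        exact this
    · intro D' _ hne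
      rw [if_neg]
      intro hD'
      exact hne (h4 θ D' D hD' hD)
    · intro h
      exact absurd (Finset.mem_univ D) h

end Pool.Agent.Helper345_Quot
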