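import Pool.Agent.Helper345_Quot.Ball

/-!
Gauss values of polynomials on balls and the basic recursion for ball integrals.
-/

noncomputable section

namespace Pool.Agent.Helper345_Quot

open PowerSeries
open scoped NNReal

variable {k : Type*} [Field k]

/-- Gauss value of a polynomial on a ball, via roots -/
def gvr (P : Polynomial (LL k)) (x : LL k) (γ : ℕ) : ℝ≥0 :=
  nn k P.leadingCoeff * (P.roots.map (fun r => max (nn k (x - r)) (hf ^ γ))).prod

theorem nn_multiset_prod (s : Multiset (LL k)) : nn k s.prod = (s.map (nn k)).prod := by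
  induction s using Multiset.induction_on with
  | empty => simp
  | cons a s ih => rw [Multiset.prod_cons, nn_mul, ih, Multiset.map_cons, Multiset.prod_cons]

theorem eval_eq_prod (P : Polynomial (LL k)) (t : LL k) :
    P.eval t = P.leadingCoeff * (P.roots.map (fun r => t - r)).prod := by
  have h := (IsAlgClosed.splits P).eq_prod_roots
  conv_lhs => rw [h]
  rw [Polynomial.eval_mul, Polynomial.eval_C, Polynomial.eval_multiset_prod, Multiset.map_map]
  congr 2
  apply Multiset.map_congr rfl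
  intro r _
  simp

/-- generic evaluation -/
theorem nn_eval_generic (P : Polynomial (LL k)) (x t : LL k) (γ : ℕ)
    (h : ∀ r ∈ P.roots, nn k (t - r) = max (nn k (x - r)) (hf ^ γ)) :
    nn k (P.eval t) = gvr P x γ := by
  rw [eval_eq_prod, nn_mul, nn_multiset_prod, Multiset.map_map]
  unfold gvr
  congr 2
  apply Multiset.map_congr rfl
  intro r hr
  exact h r hr

theorem gvr_congr (P : Polynomial (LL k)) {x x' : LL k} (γ : ℕ) (h : nn k (x - x') ≤ hf ^ γ) :
    gvr P x γ = gvr P x' γ := by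
  unfold gvr
  congr 2
  apply Multiset.map_congr rfl
  intro r _
  apply le_antisymm
  · apply max_le _ (le_max_right _ _)
    have : x - r = (x - x') + (x' - r) := by ring
    rw [this]
    refine (nn_add_le _ _).trans (max_le (h.trans (le_max_right _ _)) (le_max_left _ _))
  · apply max_le _ (le_max_right _ _)
    have : x' - r = (x' - x) + (x - r) := by ring
    rw [this]
    rw [nn_sub_comm] at h
    refine (nn_add_le _ _).trans (max_le (h.trans (le_max_right _ _)) (le_max_left _ _))

/-- relation with Taylor coefficients -/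
theorem gvr_taylor (P : Polynomial (LL k)) (hP : P ≠ 0) (x : LL k) (γ : ℕ) :
    (∀ j, nn k ((Polynomial.taylor x P).coeff j) * hf ^ (γ * j) ≤ gvr P x γ) ∧
    ∃ j ≤ P.natDegree, nn k ((Polynomial.taylor x P).coeff j) ≠ 0 ∧
      nn k ((Polynomial.taylor x P).coeff j) * hf ^ (γ * j) = gvr P x γ := by
  have hcpos : (0 : ℝ) < ((hf ^ γ : ℝ≥0) : ℝ) := by exact_mod_cast pow_pos hf_pos γ
  have hna : IsNonarchimedean (nrm k) := nrm_nonarch k
  have hlin : ∀ a : LL k, (Polynomial.X - Polynomial.C a).gaussNorm (nrm k) ((hf ^ γ : ℝ≥0) : ℝ) =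
      max (nrm k a) ((hf ^ γ : ℝ≥0) : ℝ) := by
    intro a
    apply le_antisymm
    · obtain ⟨i, hi⟩ := Polynomial.exists_eq_gaussNorm (nrm k) ((hf ^ γ : ℝ≥0) : ℝ)
        (Polynomial.X - Polynomial.C a)
      rw [hi]
      rcases i with _ | _ | i
      · simp [(nrm k).map_neg]
      · simp [Polynomial.coeff_C]
      · have : (Polynomial.X - Polynomial.C a).coeff (i + 2) = 0 := by
          rw [Polynomial.coeff_sub, Polynomial.coeff_X, Polynomial.coeff_C]
          simp
        rw [this, map_zero, zero_mul]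
        exact le_max_of_le_right hcpos.le
    · apply max_le
      · have := Polynomial.le_gaussNorm (nrm k) (p := Polynomial.X - Polynomial.C a)
          hcpos.le 0
        simpa [(nrm k).map_neg] using this
      · have := Polynomial.le_gaussNorm (nrm k) (p := Polynomial.X - Polynomial.C a)
          hcpos.le 1
        simpa [Polynomial.coeff_C] using this
  have hmul : ∀ s : Multiset (LL k),
      ((s.map (fun a => Polynomial.X - Polynomial.C a)).prod).gaussNorm (nrm k)
        ((hf ^ γ : ℝ≥0) : ℝ) = (s.map (fun a => max (nrm k a) ((hf ^ γ : ℝ≥0) : ℝ))).prod := by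
    intro s
    induction s using Multiset.induction_on with
    | empty =>
      simp only [Multiset.map_zero, Multiset.prod_zero]
      rw [← Polynomial.C_1, Polynomial.gaussNorm_C, map_one]
    | cons a s ih =>
      rw [Multiset.map_cons, Multiset.prod_cons, Polynomial.gaussNorm_mul hna hcpos, ih, hlin,
        Multiset.map_cons, Multiset.prod_cons]
  have hT : Polynomial.taylor x P = Polynomial.C P.leadingCoeff *
      ((P.roots.map (fun r => r - x)).map (fun a => Polynomial.X - Polynomial.C a)).prod := by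
    have h := (IsAlgClosed.splits P).eq_prod_roots
    conv_lhs => rw [h]
    rw [Polynomial.taylor_mul, Polynomial.taylor_C]
    congr 1
    rw [Multiset.map_map]
    have : ∀ s : Multiset (LL k), Polynomial.taylor x
        (s.map (fun a => Polynomial.X - Polynomial.C a)).prod =
        (s.map ((fun a => Polynomial.X - Polynomial.C a) ∘ fun r => r - x)).prod := by
      intro s
      induction s using Multiset.induction_on with
      | empty => simp
      | cons a s ih =>
        rw [Multiset.map_cons, Multiset.prod_cons, Polynomial.taylor_mul, ih, Multiset.map_cons,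
          Multiset.prod_cons]
        congr 1
        simp only [map_sub, Polynomial.taylor_X, Polynomial.taylor_C, Function.comp_apply]
        ring
    exact this _
  have hG : (Polynomial.taylor x P).gaussNorm (nrm k) ((hf ^ γ : ℝ≥0) : ℝ) =
      ((gvr P x γ : ℝ≥0) : ℝ) := by
    rw [hT, Polynomial.gaussNorm_mul hna hcpos, Polynomial.gaussNorm_C, hmul, Multiset.map_map]
    unfold gvr
    rw [NNReal.coe_mul, coe_nn]
    congr 1
    have : ∀ s : Multiset (LL k),
        (((s.map (fun r => max (nn k (x - r)) (hf ^ γ))).prod : ℝ≥0) : ℝ) =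
        (s.map ((fun a => max (nrm k a) ((hf ^ γ : ℝ≥0) : ℝ)) ∘ fun r => r - x)).prod := by
      intro s
      induction s using Multiset.induction_on with
      | empty => simp
      | cons a s ih =>
        rw [Multiset.map_cons, Multiset.prod_cons, NNReal.coe_mul, ih, Multiset.map_cons,
          Multiset.prod_cons]
        congr 1
        rw [NNReal.coe_max, nn_sub_comm, coe_nn]
        rfl
    exact (this _).symm
  constructor
  · intro j
    have := Polynomial.le_gaussNorm (nrm k) (p := Polynomial.taylor x P) hcpos.le j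
    rw [hG] at this
    rw [← NNReal.coe_le_coe, pow_mul]
    push_cast
    rw [coe_nn]
    push_cast at this
    exact this
  · obtain ⟨j, hj⟩ := Polynomial.exists_eq_gaussNorm (nrm k) ((hf ^ γ : ℝ≥0) : ℝ)
        (Polynomial.taylor x P)
    rw [hG] at hj
    have hj' : nn k ((Polynomial.taylor x P).coeff j) * hf ^ (γ * j) = gvr P x γ := by
      rw [← NNReal.coe_inj, hj, pow_mul]
      push_cast
      rw [coe_nn]
    have hpos : gvr P x γ ≠ 0 := by
      unfold gvr
      apply mul_ne_zero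
      · intro h
        exact hP (Polynomial.leadingCoeff_eq_zero.1 (nn_eq_zero.1 h))
      · intro h0
        rw [Multiset.prod_eq_zero_iff, Multiset.mem_map] at h0
        obtain ⟨r, _, hr⟩ := h0
        have := le_max_right (nn k (x - r)) (hf ^ γ)
        rw [hr] at this
        exact absurd (pow_pos hf_pos γ) (not_lt.2 this)
    have hne : nn k ((Polynomial.taylor x P).coeff j) ≠ 0 := by
      intro h0
      rw [h0, zero_mul] at hj'
      exact hpos hj'.symm
    refine ⟨j, ?_, hne, hj'⟩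
    by_contra hlt
    push Not at hlt
    apply hne
    rw [Polynomial.coeff_eq_zero_of_natDegree_lt (by rwa [Polynomial.natDegree_taylor]), nn_zero]

theorem gvr_ne_zero (P : Polynomial (LL k)) (hP : P ≠ 0) (x : LL k) (γ : ℕ) : gvr P x γ ≠ 0 := by
  obtain ⟨-, j, -, h1, h2⟩ := gvr_taylor P hP x γ
  rw [← h2]
  exact mul_ne_zero h1 (pow_pos hf_pos _).ne'

/-- The instance data: finitely many nonzero polynomials and a list containing their roots. -/
structure Inst (k : Type*) [Field k] (σ : Type*) (d : ℕ) where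
  /-- the polynomials -/
  f : σ → Polynomial k⟦X⟧
  /-- they are nonzero -/
  f_ne : ∀ i, f i ≠ 0
  /-- the roots -/
  r : Fin d → LL k
  /-- all roots are listed -/
  mem : ∀ i, ∀ x ∈ ((f i).map (emb k)).roots, ∃ l, r l = x
  /-- Galois stability -/
  gal : ∀ σ : LL k ≃ₐ[LaurentSeries k] LL k,
      Multiset.map (fun l => σ (r l)) Finset.univ.val = Multiset.map r Finset.univ.val

namespace Inst

variable {σ : Type*} {d : ℕ} (I : Inst k σ d)

/-- coded generic value -/
def gnu (i : σ) (x : LL k) (γ : ℕ) : ℕ :=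
  open Classical in
  if h : ∃ n, gvr ((I.f i).map (emb k)) x γ = hf ^ n then h.choose + 1 else 0

theorem nu_eq_gnu {i : σ} {x : LL k} {γ : ℕ} {t : k⟦X⟧}
    (h : nn k (((I.f i).map (emb k)).eval (emb k t)) = gvr ((I.f i).map (emb k)) x γ) :
    nu k ((I.f i).eval t) = I.gnu i x γ := by
  have h1 : ((I.f i).map (emb k)).eval (emb k t) = emb k ((I.f i).eval t) := by
    rw [Polynomial.eval_map, Polynomial.eval₂_hom]
  rw [h1] at h
  have hne : (I.f i).map (emb k) ≠ 0 := by
    rw [Polynomial.map_ne_zero_iff (emb_injective k)]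
    exact I.f_ne i
  have h0 : (I.f i).eval t ≠ 0 := by
    intro h0
    rw [h0, map_zero, nn_zero] at h
    exact gvr_ne_zero _ hne _ _ h.symm
  rw [nn_emb h0] at h
  have hex : ∃ n, gvr ((I.f i).map (emb k)) x γ = hf ^ n := ⟨_, h.symm⟩
  unfold gnu
  rw [dif_pos hex]
  have h5 := h.trans hex.choose_spec
  have h6 := hf_pow_inj h5
  have h7 : nu k ((I.f i).eval t) ≠ 0 := fun h => h0 (nu_eq_zero.1 h)
  omega

theorem gnu_congr (i : σ) {x x' : LL k} (γ : ℕ) (h : nn k (x - x') ≤ hf ^ γ) :
    I.gnu i x γ = I.gnu i x' γ := by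
  unfold gnu
  rw [gvr_congr _ γ h]

/-- the integrand -/
def Φ (G : (σ → ℕ) → ℤ) (t : k⟦X⟧) : ℤ := G (fun i => nu k ((I.f i).eval t))

/-- generic value of the integrand on a ball -/
def gΦ (G : (σ → ℕ) → ℤ) (x : LL k) (γ : ℕ) : ℤ := G (fun i => I.gnu i x γ)

theorem gΦ_congr (G : (σ → ℕ) → ℤ) {x x' : LL k} (γ : ℕ) (h : nn k (x - x') ≤ hf ^ γ) :
    I.gΦ G x γ = I.gΦ G x' γ := by
  unfold gΦ
  congr 1
  funext i
  exact I.gnu_congr i γ h

theorem Φ_eq_of_generic (G : (σ → ℕ) → ℤ) (x : LL k) (γ : ℕ) (t : k⟦X⟧)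
    (h : ∀ l, nn k (emb k t - I.r l) = max (nn k (x - I.r l)) (hf ^ γ)) :
    I.Φ G t = I.gΦ G x γ := by
  unfold Φ gΦ
  congr 1
  funext i
  apply I.nu_eq_gnu
  apply nn_eval_generic
  intro r hr
  obtain ⟨l, rfl⟩ := I.mem i r hr
  exact h l

/-- no roots in the ball: the integrand is constant -/
theorem Φ_const (G : (σ → ℕ) → ℤ) (q : k⟦X⟧) (γ : ℕ)
    (hno : ∀ l, ¬ nn k (I.r l - emb k q) ≤ hf ^ γ) (t : k⟦X⟧) (ht : X ^ γ ∣ t - q) :
    I.Φ G t = I.gΦ G (emb k q) γ := by
  apply I.Φ_eq_of_generic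
  intro l
  have h1 := hno l
  push Not at h1
  rw [nn_sub_comm] at h1
  have h2 : nn k (emb k t - emb k q) ≤ hf ^ γ := by
    rw [← map_sub, ← dvd_iff_nn]; exact ht
  rw [max_eq_left h1.le]
  exact nn_sub_eq (h2.trans_lt h1)

/-- generic residue: the integrand is constant on the child ball -/
theorem Φ_child (G : (σ → ℕ) → ℤ) (q : k⟦X⟧) (γ : ℕ) (ξ : k)
    (hξ : ∀ l, ¬ nn k (I.r l - emb k (q + C ξ * X ^ γ)) < hf ^ γ) (t : k⟦X⟧)
    (ht : X ^ (γ + 1) ∣ t - (q + C ξ * X ^ γ)) :
    I.Φ G t = I.gΦ G (emb k q) γ := by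
  apply I.Φ_eq_of_generic
  intro l
  have h1 := hξ l
  push Not at h1
  rw [nn_sub_comm] at h1
  have h2 : nn k (emb k t - emb k (q + C ξ * X ^ γ)) < hf ^ γ := by
    rw [← map_sub, ← dvd_succ_iff_nn]; exact ht
  have h3 : nn k (emb k t - I.r l) = nn k (emb k (q + C ξ * X ^ γ) - I.r l) :=
    nn_sub_eq (h2.trans_le h1)
  have h4 : nn k (emb k (q + C ξ * X ^ γ) - emb k q) ≤ hf ^ γ := by
    rw [← map_sub, ← dvd_iff_nn]
    exact ⟨C ξ, by ring⟩
  rw [h3]
  by_cases h5 : nn k (emb k q - I.r l) ≤ hf ^ γ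
  · rw [max_eq_right h5]
    exact le_antisymm (nn_sub_trans h4 h5) h1
  · push Not at h5
    rw [max_eq_left h5.le]
    exact nn_sub_eq (h4.trans_lt h5)

open Classical in
/-- the classes of roots in a ball -/
def classes (x : LL k) (γ : ℕ) : Finset (Finset (Fin d)) :=
  Finset.univ.filter (fun E => E.Nonempty ∧ (∀ l ∈ E, nn k (I.r l - x) ≤ hf ^ γ) ∧
    ∀ l ∈ E, ∀ l', l' ∈ E ↔ nn k (I.r l - I.r l') < hf ^ γ)

/-- average of the roots indexed by `E` -/
def avg (E : Finset (Fin d)) : LL k := (E.card : LL k)⁻¹ * ∑ l ∈ E, I.r l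

open Classical in
/-- the rational centre, if it exists -/
def ctr (E : Finset (Fin d)) : k⟦X⟧ := if h : ∃ q, emb k q = I.avg E then h.choose else 0

theorem ctr_spec {E : Finset (Fin d)} (h : ∃ q, emb k q = I.avg E) : emb k (I.ctr E) = I.avg E := by
  unfold ctr
  rw [dif_pos h]
  exact h.choose_spec

theorem ctr_of {E : Finset (Fin d)} {q : k⟦X⟧} (h : emb k q = I.avg E) : I.ctr E = q := by
  apply emb_injective k
  rw [I.ctr_spec ⟨q, h⟩, h]

/-- the basic recursion -/
theorem bint_step [IsAlgClosed k] [CharZero k] (G : (σ → ℕ) → ℤ) (q : k⟦X⟧) (γ M : ℕ)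
    (hper : Per (γ + (M + 1)) (I.Φ G)) :
    bint q γ (M + 1) (I.Φ G) = I.gΦ G (emb k q) γ +
      ∑ E ∈ I.classes (emb k q) γ,
        (bint (I.ctr E) (γ + 1) M (I.Φ G) - I.gΦ G (emb k q) γ) := by
  classical
  have : Infinite k := IsAlgClosed.instInfinite
  -- residues
  have hres : ∀ l, ∃ ξ : k, nn k (I.r l - emb k q) ≤ hf ^ γ →
      nn k (I.r l - emb k (q + C ξ * X ^ γ)) < hf ^ γ := by
    intro l
    by_cases h : nn k (I.r l - emb k q) ≤ hf ^ γ
    · obtain ⟨ξ, hξ⟩ := residue_ball _ q γ h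
      exact ⟨ξ, fun _ => hξ⟩
    · exact ⟨0, fun h' => absurd h' h⟩
  choose ξ hξ using hres
  let J : Finset (Fin d) := Finset.univ.filter (fun l => nn k (I.r l - emb k q) ≤ hf ^ γ)
  let R : Finset k := J.image ξ
  have hR : ∀ x, x ∉ R → ∀ l, ¬ nn k (I.r l - emb k (q + C x * X ^ γ)) < hf ^ γ := by
    intro x hx l hl
    apply hx
    have h1 : nn k (I.r l - emb k q) ≤ hf ^ γ := by
      refine nn_sub_trans hl.le ?_
      rw [← map_sub, ← dvd_iff_nn]
      exact ⟨C x, by ring⟩
    have h2 := hξ l h1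
    rw [residue_unique _ _ _ hl h2]
    exact Finset.mem_image_of_mem _ (Finset.mem_filter.2 ⟨Finset.mem_univ _, h1⟩)
  rw [bint_succ, eint_eq (c := I.gΦ G (emb k q) γ) R]
  swap
  · intro x hx
    apply bint_const
    intro t ht
    exact I.Φ_child G q γ x (hR x hx) t ht
  congr 1
  -- bijection between R and classes
  let cl : k → Finset (Fin d) := fun x =>
    Finset.univ.filter (fun l => nn k (I.r l - emb k (q + C x * X ^ γ)) < hf ^ γ)
  have hcl : ∀ x l, l ∈ cl x ↔ nn k (I.r l - emb k (q + C x * X ^ γ)) < hf ^ γ := by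
    intro x l; simp [cl]
  have hsub : ∀ x l, l ∈ cl x → nn k (I.r l - emb k q) ≤ hf ^ γ := by
    intro x l hl
    rw [hcl] at hl
    refine nn_sub_trans hl.le ?_
    rw [← map_sub, ← dvd_iff_nn]
    exact ⟨C x, by ring⟩
  have hclne : ∀ x ∈ R, (cl x).Nonempty := by
    intro x hx
    obtain ⟨l, hl, rfl⟩ := Finset.mem_image.1 hx
    exact ⟨l, (hcl _ _).2 (hξ l (Finset.mem_filter.1 hl).2)⟩
  apply Finset.sum_bij (fun x _ => cl x)
  · intro x hx
    unfold classes
    rw [Finset.mem_filter]
    refine ⟨Finset.mem_univ _, hclne x hx, hsub x, ?_⟩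
    intro l hl l'
    rw [hcl] at hl ⊢
    constructor
    · intro hl'
      rw [nn_sub_comm] at hl'
      exact nn_sub_trans_lt hl hl'
    · intro hll
      rw [nn_sub_comm] at hll
      exact nn_sub_trans_lt hll hl
  · intro x hx y hy hxy
    obtain ⟨l, hl⟩ := hclne x hx
    have hl' : l ∈ cl y := by
      have : cl x = cl y := hxy
      rw [← this]; exact hl
    rw [hcl] at hl hl'
    exact residue_unique _ _ _ hl hl'
  · intro E hE
    unfold classes at hE
    rw [Finset.mem_filter] at hE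
    obtain ⟨-, ⟨l, hl⟩, h1, h2⟩ := hE
    have h3 := hξ l (h1 l hl)
    refine ⟨ξ l, Finset.mem_image_of_mem _ (Finset.mem_filter.2 ⟨Finset.mem_univ _, h1 l hl⟩), ?_⟩
    ext l'
    rw [hcl, h2 l hl l']
    constructor
    · intro h4
      rw [nn_sub_comm] at h4
      exact nn_sub_trans_lt h3 h4
    · intro h4
      rw [nn_sub_comm] at h4
      exact nn_sub_trans_lt h4 h3
  · intro x hx
    congr 1
    obtain ⟨q', hq', hdvd⟩ := centre_open I.r I.gal (q + C x * X ^ γ) γ (cl x) (hclne x hx)
      (fun l => hcl x l)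
    have h1 : I.ctr (cl x) = q' := I.ctr_of hq'
    rw [h1]
    symm
    apply bint_congr
    · have : γ + 1 + M = γ + (M + 1) := by ring
      rw [this]; exact hper
    · exact hdvd

/-- uniform almost constancy of the children integrals -/
theorem bint_children [IsAlgClosed k] [CharZero k] (G : (σ → ℕ) → ℤ) (q : k⟦X⟧) (γ M : ℕ) :
    ∃ (c : ℤ) (R : Finset k), R.card ≤ d ∧ ∀ x, x ∉ R →
      bint (q + C x * X ^ γ) (γ + 1) M (I.Φ G) = c := by
  classical
  have : Infinite k := IsAlgClosed.instInfinite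
  have hres : ∀ l, ∃ ξ : k, nn k (I.r l - emb k q) ≤ hf ^ γ →
      nn k (I.r l - emb k (q + C ξ * X ^ γ)) < hf ^ γ := by
    intro l
    by_cases h : nn k (I.r l - emb k q) ≤ hf ^ γ
    · obtain ⟨ξ, hξ⟩ := residue_ball _ q γ h
      exact ⟨ξ, fun _ => hξ⟩
    · exact ⟨0, fun h' => absurd h' h⟩
  choose ξ hξ using hres
  let R : Finset k := Finset.univ.image ξ
  have hR : ∀ x, x ∉ R → ∀ l, ¬ nn k (I.r l - emb k (q + C x * X ^ γ)) < hf ^ γ := by
    intro x hx l hl
    apply hx
    have h1 : nn k (I.r l - emb k q) ≤ hf ^ γ := by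
      refine nn_sub_trans hl.le ?_
      rw [← map_sub, ← dvd_iff_nn]
      exact ⟨C x, by ring⟩
    have h2 := hξ l h1
    rw [residue_unique _ _ _ hl h2]
    exact Finset.mem_image_of_mem _ (Finset.mem_univ _)
  refine ⟨I.gΦ G (emb k q) γ, R, ?_, ?_⟩
  · refine Finset.card_image_le.trans ?_
    simp
  · intro x hx
    apply bint_const
    intro t ht
    exact I.Φ_child G q γ x (hR x hx) t ht

/-- value at the bottom level -/
theorem bint_bottom [IsAlgClosed k] (G : (σ → ℕ) → ℤ) (q : k⟦X⟧) (N : ℕ)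
    (hper : Per N (I.Φ G)) : bint q N 0 (I.Φ G) = I.gΦ G (emb k q) N := by
  classical
  have : Infinite k := IsAlgClosed.instInfinite
  rw [bint_zero]
  have hres : ∀ l, ∃ ξ : k, nn k (I.r l - emb k q) ≤ hf ^ N →
      nn k (I.r l - emb k (q + C ξ * X ^ N)) < hf ^ N := by
    intro l
    by_cases h : nn k (I.r l - emb k q) ≤ hf ^ N
    · obtain ⟨ξ, hξ⟩ := residue_ball _ q N h
      exact ⟨ξ, fun _ => hξ⟩
    · exact ⟨0, fun h' => absurd h' h⟩
  choose ξ hξ using hres
  let R : Finset k := Finset.univ.image ξ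
  obtain ⟨x, hx⟩ := Infinite.exists_notMem_finset R
  have h1 : ∀ l, ¬ nn k (I.r l - emb k (q + C x * X ^ N)) < hf ^ N := by
    intro l hl
    apply hx
    have h1 : nn k (I.r l - emb k q) ≤ hf ^ N := by
      refine nn_sub_trans hl.le ?_
      rw [← map_sub, ← dvd_iff_nn]
      exact ⟨C x, by ring⟩
    have h2 := hξ l h1
    rw [residue_unique _ _ _ hl h2]
    exact Finset.mem_image_of_mem _ (Finset.mem_univ _)
  rw [← I.Φ_child G q N x h1 (q + C x * X ^ N) (by simp)]
  apply hper
  exact ⟨-C x, by ring⟩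

end Inst

end Pool.Agent.Helper345_Quot
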