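import Pool.Agent.Helper345_Quot.Stk

/-!
Quasi-coherent sheaves on affine opens.
-/

noncomputable section

namespace Pool.Agent.Helper345_Quot

universe u

open AlgebraicGeometry CategoryTheory TopologicalSpace Opposite

variable {X : Scheme.{u}} {G : X.Modules}

theorem image_le {U : X.Opens} (hU : IsAffineOpen U) (V : (Spec Γ(X, U)).Opens) :
    hU.fromSpec ''ᵁ V ≤ U := by
  have h1 := hU.opensRange_fromSpec
  intro x hx
  rw [← h1]
  obtain ⟨y, -, rfl⟩ := hx
  exact ⟨y, rfl⟩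

theorem image_top {U : X.Opens} (hU : IsAffineOpen U) :
    hU.fromSpec ''ᵁ ⊤ = U := by
  rw [Scheme.Hom.image_top_eq_opensRange, hU.opensRange_fromSpec]

theorem scal_eq {U : X.Opens} (hU : IsAffineOpen U) (V : (Spec Γ(X, U)).Opens) (g : Γ(X, U)) :
    (hU.fromSpec.appIso V).inv ((Spec Γ(X, U)).presheaf.map V.leTop.op
      ((Scheme.ΓSpecIso Γ(X, U)).inv g)) = rsX (image_le hU V) g := by
  have e : V ≤ hU.fromSpec ⁻¹ᵁ U := by
    rw [hU.fromSpec_preimage_self]; exact le_top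
  have h1 := Scheme.Hom.appLE_appIso_inv hU.fromSpec e
  have h2 : hU.fromSpec.appLE U V e = (Scheme.ΓSpecIso Γ(X, U)).inv ≫
      (Spec Γ(X, U)).presheaf.map V.leTop.op := by
    rw [Scheme.Hom.appLE, hU.fromSpec_app_self, Category.assoc, ← Functor.map_comp]
    rfl
  rw [h2] at h1
  have h3 := congrArg (fun φ => φ.hom g) h1
  exact h3

theorem act_eq {U : X.Opens} (hU : IsAffineOpen U) (V : (Spec Γ(X, U)).Opens) (g : Γ(X, U))
    (x : Γ(G.restrict hU.fromSpec, V)) :
    (G.restrictAppIso hU.fromSpec V).hom (g • x) =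
      rsX (image_le hU V) g • (G.restrictAppIso hU.fromSpec V).hom x := by
  rw [Scheme.Modules.smul_Spec_def, ← scal_eq hU V g]
  rfl

theorem rs_inj_of_eq {U V : X.Opens} (h : U ≤ V) (h' : V ≤ U) {s t : Γ(G, V)}
    (hst : rs G h s = rs G h t) : s = t := by
  have h1 := congrArg (rs G h') hst
  rwa [rs_rs, rs_rs, rs_self, rs_self] at h1

theorem rsX_rsX {U V W : X.Opens} (h : U ≤ V) (h' : V ≤ W) (m : Γ(X, W)) :
    rsX h (rsX h' m) = rsX (h.trans h') m := by
  have : X.presheaf.map (homOfLE (h.trans h')).op =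
      X.presheaf.map (homOfLE h').op ≫ X.presheaf.map (homOfLE h).op := by
    rw [← X.presheaf.map_comp]; rfl
  unfold rsX
  rw [this]
  rfl

/-- basic opens of the spectrum -/
def bO {U : X.Opens} (f : Γ(X, U)) : (Spec Γ(X, U)).Opens := PrimeSpectrum.basicOpen f

variable [G.IsQuasicoherent]

theorem loc_aux {U : X.Opens} (hU : IsAffineOpen U) (f : Γ(X, U)) :
    (∀ t : Γ(G, hU.fromSpec ''ᵁ (bO f)), ∃ (n : ℕ)
      (s : Γ(G, hU.fromSpec ''ᵁ ⊤)),
      rs G (hU.fromSpec.image_mono le_top) s =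
        rsX (image_le hU (bO f)) (f ^ n) • t) ∧
    (∀ s : Γ(G, hU.fromSpec ''ᵁ ⊤), rs G (hU.fromSpec.image_mono (le_top :
      (bO f) ≤ (⊤ : (Spec Γ(X, U)).Opens))) s = 0 →
      ∃ n : ℕ, rsX (image_le hU ⊤) (f ^ n) • s = 0) := by
  have hq : ((Scheme.Modules.restrictFunctor hU.fromSpec).obj G).IsQuasicoherent := inferInstance
  have h1 : IsIso (Scheme.Modules.fromTildeΓ (G.restrict hU.fromSpec)) :=
    Scheme.Modules.isIso_fromTildeΓ_of_isQuasicoherent _
  rw [isIso_fromTildeΓ_iff_isLocalizing] at h1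
  have h2 := h1 f
  constructor
  · intro t
    obtain ⟨⟨s, ⟨c, n, hc⟩⟩, hs⟩ := h2.surj (t : Γ(G.restrict hU.fromSpec,
      (bO f)))
    refine ⟨n, s, ?_⟩
    have h3 := act_eq (G := G) hU (bO f) (f ^ n) t
    have h4 : c = f ^ n := hc.symm
    subst h4
    exact hs.symm.trans h3
  · intro s hs
    have hs' : ((modulesSpecToSheaf.obj (G.restrict hU.fromSpec)).obj.map
        (bO f).leTop.op).hom s =
        ((modulesSpecToSheaf.obj (G.restrict hU.fromSpec)).obj.map
        (bO f).leTop.op).hom 0 := by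
      rw [map_zero]
      exact hs
    obtain ⟨⟨c, n, hc⟩, hcs⟩ := h2.exists_of_eq hs'
    have h4 : c = f ^ n := hc.symm
    subst h4
    refine ⟨n, ?_⟩
    have h3 := act_eq (G := G) hU ⊤ (f ^ n) s
    have h5 : ((f ^ n) • (show Γ(G.restrict hU.fromSpec, ⊤) from s) :
        Γ(G.restrict hU.fromSpec, ⊤)) = 0 := by
      have := hcs
      rw [smul_zero] at this
      exact this
    refine h3.symm.trans ?_
    rw [h5, map_zero]

/-- sections over a basic open extend after multiplication by a power -/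
theorem loc_surj {U : X.Opens} (hU : IsAffineOpen U) (f : Γ(X, U)) (t : Γ(G, X.basicOpen f)) :
    ∃ (n : ℕ) (s : Γ(G, U)), rs G (X.basicOpen_le f) s = rsX (X.basicOpen_le f) (f ^ n) • t := by
  have e1 : hU.fromSpec ''ᵁ (bO f) = X.basicOpen f := hU.fromSpec_image_basicOpen f
  have e2 := image_top hU
  obtain ⟨n, s, hs⟩ := (loc_aux hU f).1 (rs G e1.le t)
  refine ⟨n, rs G e2.ge s, ?_⟩
  apply rs_inj_of_eq e1.le e1.ge
  rw [rs_rs, rs_rs, hs, rs_smul, rsX_rsX]

/-- sections vanishing on a basic open are killed by a power -/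
theorem loc_inj {U : X.Opens} (hU : IsAffineOpen U) (f : Γ(X, U)) (s : Γ(G, U))
    (h : rs G (X.basicOpen_le f) s = 0) : ∃ n : ℕ, f ^ n • s = 0 := by
  have e1 : hU.fromSpec ''ᵁ (bO f) = X.basicOpen f := hU.fromSpec_image_basicOpen f
  have e2 := image_top hU
  obtain ⟨n, hn⟩ := (loc_aux hU f).2 (rs G e2.le s) (by
    rw [rs_rs]
    have h1 := congrArg (rs G e1.le) h
    rw [rs_rs, map_zero] at h1
    exact h1)
  refine ⟨n, ?_⟩
  apply rs_inj_of_eq e2.le e2.ge
  rw [rs_smul, hn, map_zero]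

end Pool.Agent.Helper345_Quot
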