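import Pool.Agent.Helper345_Quot.Colen
import Pool.Agent.Helper345_Quot.Bdd
import Pool.Agent.Helper345_Quot.Aff

/-!
Parametrised families of subsheaves of finite colength and definable conditions.
-/

noncomputable section

namespace Pool.Agent.Helper345_Quot

universe u

open AlgebraicGeometry CategoryTheory TopologicalSpace Opposite

attribute [local instance] algSec algStk modSec modStk

attribute [instance] SParam.fin

variable {k : Type u} [Field k] {X : Scheme.{u}} [X.Over (Spec (.of k))] {G : X.Modules}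

namespace SParam

variable {Q : Set (SubM G)} (P : SParam k G Q)

theorem surj {N : SubM G} (hN : N ∈ Q) : ∃ x ∈ P.S, P.φ x = N := P.bij.surjOn hN

theorem maps {x : P.κ → k} (hx : x ∈ P.S) : P.φ x ∈ Q := P.bij.mapsTo hx

theorem inj {x y : P.κ → k} (hx : x ∈ P.S) (hy : y ∈ P.S) (h : P.φ x = P.φ y) : x = y :=
  P.bij.injOn hx hy h

theorem dfn_comb {U : X.Opens} (hU : IsAffineOpen U) {κ' : Type} (e : P.κ → κ') {J : Type*}
    [Fintype J] (g : J → Γ(G, U)) (f : J → (κ' → k) → k) (hf : ∀ j, PolyF (f j)) :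
    Dfn (fun z : κ' → k => z ∘ e ∈ P.S ∧ ∑ j, f j z • g j ∈ (P.φ (z ∘ e)).sec U) := by
  let en := Fintype.equivFin J
  have h1 := P.dfn U hU (Fintype.card J) (fun j => g (en.symm j))
  have h2 : Dfn (fun z : P.κ ⊕ Fin (Fintype.card J) → k => z ∘ Sum.inl ∈ P.S ∧
      ∑ j, z (Sum.inr j) • g (en.symm j) ∈ (P.φ (z ∘ Sum.inl)).sec U) := h1
  have h3 := h2.comp (f := fun (i : P.κ ⊕ Fin (Fintype.card J)) (z : κ' → k) =>
    Sum.elim (fun i => z (e i)) (fun j => f (en.symm j) z) i) (by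
      rintro (i | j)
      · exact PolyF.coord (e i)
      · exact hf _)
  refine h3.congr fun z => ?_
  beta_reduce
  have h4 : ∑ j, f j z • g j = ∑ j, f (en.symm j) z • g (en.symm j) :=
    (Equiv.sum_comp en.symm (fun j => f j z • g j)).symm
  rw [h4]
  rfl

theorem dfn_S' {U : X.Opens} (hU : IsAffineOpen U) {κ' : Type} (e : P.κ → κ') :
    Dfn (fun z : κ' → k => z ∘ e ∈ P.S) := by
  refine (P.dfn_comb hU e (J := Empty) (fun j => j.elim) (fun j => j.elim)
    (fun j => j.elim)).congr fun z => ?_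
  simp

theorem dfn_S {κ' : Type} (e : P.κ → κ') : Dfn (fun z : κ' → k => z ∘ e ∈ P.S) :=
  P.dfn_S' (isAffineOpen_bot X) e

end SParam

/-- subsheaves of finite colength `n` -/
def QC (k : Type u) [Field k] {X : Scheme.{u}} [X.Over (Spec (.of k))] (G : X.Modules) (n : ℕ) :
    Set (SubM G) := {N | FinCo k N ∧ lenOn k N Set.univ = n}

section

variable [G.IsQuasicoherent] [LocallyOfFiniteType (X ↘ Spec (.of k))]
  (hfin : ∀ U : X.Opens, IsAffineOpen U → Module.Finite Γ(X, U) Γ(G, U))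
  (P : ∀ n, SParam k G (QC k G n))

theorem QC.len_le {n : ℕ} {N : SubM G} (hN : N ∈ QC k G n) (C : Set X) : lenOn k N C ≤ n := by
  rw [← hN.2]
  exact hN.1.lenOn_mono (Set.subset_univ C)

include hfin in
theorem dfn_sec_le {n m : ℕ} {U : X.Opens} (hU : IsAffineOpen U) {κ' : Type}
    (e₁ : (P n).κ → κ') (e₂ : (P m).κ → κ') :
    Dfn (fun z : κ' → k => z ∘ e₁ ∈ (P n).S ∧ z ∘ e₂ ∈ (P m).S ∧
      ((P n).φ (z ∘ e₁)).sec U ≤ ((P m).φ (z ∘ e₂)).sec U) := by
  have := hfin U hU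
  have := finiteType_sec (k := k) hU
  obtain ⟨a, b, w, v, -, hv⟩ := exists_bdd k Γ(X, U) Γ(G, U) n
  have h1 := ((P n).dfn_comb hU (κ' := κ' ⊕ Fin b) (Sum.inl ∘ e₁) v (fun j z => z (Sum.inr j))
    (fun j => PolyF.coord _)).imp ((P m).dfn_comb hU (κ' := κ' ⊕ Fin b) (Sum.inl ∘ e₂) v
    (fun j z => z (Sum.inr j)) (fun j => PolyF.coord _))
  have h2 := ((P n).dfn_S e₁).and (((P m).dfn_S e₂).and h1.forall_vec)
  refine h2.congr fun z => ?_
  beta_reduce
  constructor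
  · rintro ⟨h3, h4, h5⟩
    refine ⟨h3, h4, ?_⟩
    have hN := (P n).maps h3
    have hs := hN.1.sec_spec hU
    rw [hv _ _ hs.1 (by rw [hs.2.1]; exact QC.len_le hN _)]
    intro c hc
    exact (h5 c ⟨h3, hc⟩).2
  · rintro ⟨h3, h4, h5⟩
    exact ⟨h3, h4, fun c hc => ⟨h4, h5 hc.2⟩⟩

include hfin in
theorem dfn_len_le {n m : ℕ} {U : X.Opens} (hU : IsAffineOpen U) {κ' : Type}
    (e : (P n).κ → κ') :
    Dfn (fun z : κ' → k => z ∘ e ∈ (P n).S ∧ lenOn k ((P n).φ (z ∘ e)) U ≤ m) := by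
  have := hfin U hU
  have := finiteType_sec (k := k) hU
  obtain ⟨a, b, w, v, hw, -⟩ := exists_bdd k Γ(X, U) Γ(G, U) n
  have h1 := (P n).dfn_comb hU (κ' := (κ' ⊕ (Fin (m + 1) × Fin a)) ⊕ Fin (m + 1))
    (Sum.inl ∘ Sum.inl ∘ e) (fun p : Fin (m + 1) × Fin a => w p.2)
    (fun p z => z (Sum.inr p.1) * z (Sum.inl (Sum.inr p)))
    (fun p => (PolyF.coord _).mul (PolyF.coord _))
  have h0 : Dfn (fun z : (κ' ⊕ (Fin (m + 1) × Fin a)) ⊕ Fin (m + 1) → k =>
      ∃ i, z (Sum.inr i) ≠ 0) :=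
    Dfn.exists_fin fun i => (Dfn.eq (PolyF.coord _) (PolyF.const 0)).not
  have h2 := ((P n).dfn_S e).and (h0.and h1).exists_vec.forall_vec
  refine h2.congr fun z => ?_
  beta_reduce
  refine and_congr_right fun h3 => ?_
  have hN := (P n).maps h3
  have hs := hN.1.sec_spec hU
  have := hs.1
  rw [← hs.2.1, codim_le_iff (hw _ hs.1 (by rw [hs.2.1]; exact QC.len_le hN _)) m]
  apply forall_congr'
  intro c
  apply exists_congr
  intro b
  constructor
  · rintro ⟨h4, h5, h6⟩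
    exact ⟨h4, h6⟩
  · rintro ⟨h4, h6⟩
    exact ⟨h4, h3, h6⟩

/-- sets of points whose length functions are definable -/
def Meas (C : Set X) : Prop :=
  ∀ n m, Dfn (fun x : (P n).κ → k => x ∈ (P n).S ∧ lenOn k ((P n).φ x) C = m)

variable {P}

theorem Meas.reindex {C : Set X} (hC : Meas P C) (n m : ℕ) {κ' : Type} (e : (P n).κ → κ') :
    Dfn (fun z : κ' → k => z ∘ e ∈ (P n).S ∧ lenOn k ((P n).φ (z ∘ e)) C = m) :=
  (hC n m).reindex e

variable (P) in
include hfin in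
theorem meas_aff {U : X.Opens} (hU : IsAffineOpen U) : Meas P (U : Set X) := by
  intro n m
  have h1 := fun m => dfn_len_le hfin P (n := n) (m := m) hU (κ' := (P n).κ) id
  rcases Nat.eq_zero_or_pos m with rfl | hm
  · refine (h1 0).congr fun x => ?_
    simp only [Function.comp_id]
    rw [Nat.le_zero]
  · refine ((h1 m).and (h1 (m - 1)).not).congr fun x => ?_
    simp only [Function.comp_id]
    constructor
    · rintro ⟨⟨h2, h3⟩, h4⟩
      refine ⟨h2, ?_⟩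
      by_contra h5
      exact h4 ⟨h2, by omega⟩
    · rintro ⟨h2, h3⟩
      refine ⟨⟨h2, by omega⟩, ?_⟩
      rintro ⟨-, h4⟩
      omega

/-- combination of level sets -/
theorem Meas.comb₂ {C D A : Set X} (hC : Meas P C) (hD : Meas P D) (op : ℕ → ℕ → ℕ)
    (h : ∀ N : SubM G, FinCo k N → lenOn k N A = op (lenOn k N C) (lenOn k N D)) : Meas P A := by
  intro n m
  have h1 : Dfn (fun x : (P n).κ → k => ∃ ij : Fin (n + 1) × Fin (n + 1),
      op ij.1 ij.2 = m ∧ (x ∈ (P n).S ∧ lenOn k ((P n).φ x) C = ij.1) ∧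
      (x ∈ (P n).S ∧ lenOn k ((P n).φ x) D = ij.2)) :=
    Dfn.exists_fin fun ij => (Dfn.const _).and ((hC n ij.1).and (hD n ij.2))
  refine h1.congr fun x => ?_
  constructor
  · rintro ⟨ij, h2, ⟨h3, h4⟩, -, h5⟩
    refine ⟨h3, ?_⟩
    rw [h _ ((P n).maps h3).1, h4, h5, h2]
  · rintro ⟨h3, h4⟩
    have hN := (P n).maps h3
    have hc := QC.len_le hN C
    have hd := QC.len_le hN D
    rw [h _ hN.1] at h4
    exact ⟨(⟨_, Nat.lt_succ_of_le hc⟩, ⟨_, Nat.lt_succ_of_le hd⟩), h4, ⟨h3, rfl⟩, h3, rfl⟩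

theorem Meas.union_disj {C D : Set X} (hC : Meas P C) (hD : Meas P D) (h : Disjoint C D) :
    Meas P (C ∪ D) :=
  hC.comb₂ hD (· + ·) (fun N hN => hN.lenOn_union h)

theorem Meas.diff {C D : Set X} (hC : Meas P C) (hD : Meas P D) (h : D ⊆ C) :
    Meas P (C \ D) :=
  hC.comb₂ hD (· - ·) (fun N hN => by
    have h1 : C = D ∪ (C \ D) := (Set.union_sdiff_cancel h).symm
    have h2 := hN.lenOn_union (C := D) (D := C \ D) Set.disjoint_sdiff_right
    rw [← h1] at h2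
    beta_reduce
    omega)

variable (P) in
/-- definability of inclusion -/
theorem dfn_le' {ι : Type} [Finite ι] (U : ι → X.Opens) (hU : ∀ i, IsAffineOpen (U i))
    (hc : ∀ x, ∃ i, x ∈ U i)
    (hfin : ∀ U : X.Opens, IsAffineOpen U → Module.Finite Γ(X, U) Γ(G, U))
    {n m : ℕ} {κ' : Type} (e₁ : (P n).κ → κ') (e₂ : (P m).κ → κ') :
    Dfn (fun z : κ' → k => z ∘ e₁ ∈ (P n).S ∧ z ∘ e₂ ∈ (P m).S ∧
      (P n).φ (z ∘ e₁) ≤ (P m).φ (z ∘ e₂)) := by
  have h1 := ((P n).dfn_S e₁).and (((P m).dfn_S e₂).and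
    (Dfn.forall_fin fun i => dfn_sec_le hfin P (hU i) e₁ e₂))
  refine h1.congr fun z => ?_
  constructor
  · rintro ⟨h2, h3, h4⟩
    refine ⟨h2, h3, ?_⟩
    rw [FinCo.le_iff inferInstance U hU hc ((P n).maps h2).1 ((P m).maps h3).1]
    exact fun i => (h4 i).2.2
  · rintro ⟨h2, h3, h4⟩
    rw [FinCo.le_iff inferInstance U hU hc ((P n).maps h2).1 ((P m).maps h3).1] at h4
    exact ⟨h2, h3, fun i => ⟨h2, h3, h4 i⟩⟩

end

end Pool.Agent.Helper345_Quot
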