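import Pool.Agent.Helper345_Quot.Loc2
import Pool.Agent.Helper345_Quot.Fin1

/-!
Existence of parametrisations of the subsheaves of given colength.
-/

noncomputable section

namespace Pool.Agent.Helper345_Quot

universe u

open AlgebraicGeometry CategoryTheory TopologicalSpace Opposite

attribute [local instance] algSec algStk modSec modStk

variable {k : Type u} [Field k] {X : Scheme.{u}} [X.Over (Spec (.of k))] {G : X.Modules}
  [G.IsQuasicoherent] {ι : Type} [Fintype ι] {U : ι → X.Opens} (hU : ∀ i, IsAffineOpen (U i))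
  (idx : X → ι) (hidx : ∀ x, x ∈ U (idx x))

/-! ### gluing along a partition -/

/-- gluing of submodules of the sections over the members of a cover, along a partition -/
def glueN (Nf : ∀ i, Submodule Γ(X, U i) Γ(G, U i)) : SubM G :=
  ofStk (fun x => (extS (hU (idx x)) (Nf (idx x))).stk x)

/-- supported in the piece -/
def SuppIn (i : ι) (N₀ : Submodule Γ(X, U i) Γ(G, U i)) : Prop :=
  ∀ x ∈ U i, idx x ≠ i → (extS (hU i) N₀).stk x = ⊤

section glue

variable {Nf : ∀ i, Submodule Γ(X, U i) Γ(G, U i)}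

theorem glueFam (hf : ∀ i, Module.Finite k (Γ(G, U i) ⧸ Nf i)) :
    FinFam k (fun x => (extS (hU (idx x)) (Nf (idx x))).stk x) where
  fin := by
    intro x
    have := hf (idx x)
    exact (extS_finCo (k := k) (hU (idx x)) (Nf (idx x))).fin x
  supp := by
    have h1 : {x | (extS (hU (idx x)) (Nf (idx x))).stk x ≠ ⊤} ⊆
        ⋃ i, {x | (extS (hU i) (Nf i)).stk x ≠ ⊤} := by
      intro x hx
      rw [Set.mem_iUnion]
      exact ⟨idx x, hx⟩
    refine (Set.finite_iUnion fun i => ?_).subset h1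
    have := hf i
    exact (extS_finCo (k := k) (hU i) (Nf i)).supp

theorem glueN_finCo (hf : ∀ i, Module.Finite k (Γ(G, U i) ⧸ Nf i)) :
    FinCo k (glueN hU idx Nf) := (glueFam hU idx hf).finCo

variable (k) in
include k in
theorem glueN_stk (hf : ∀ i, Module.Finite k (Γ(G, U i) ⧸ Nf i)) (x : X) :
    (glueN hU idx Nf).stk x = (extS (hU (idx x)) (Nf (idx x))).stk x :=
  (glueFam hU idx hf).stk x

theorem lenOn_piece (hf : ∀ i, Module.Finite k (Γ(G, U i) ⧸ Nf i))
    (hs : ∀ i, SuppIn hU idx i (Nf i)) (i : ι) :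
    lenOn k (glueN hU idx Nf) {x | idx x = i} = Module.finrank k (Γ(G, U i) ⧸ Nf i) := by
  have := hf i
  have h1 : lenOn k (glueN hU idx Nf) {x | idx x = i} =
      lenOn k (extS (hU i) (Nf i)) {x | idx x = i} := by
    apply lenOn_congr
    rintro x rfl
    exact glueN_stk k hU idx hf x
  have hE := extS_finCo (k := k) (hU i) (Nf i)
  have h2 : lenOn k (extS (hU i) (Nf i)) {x | idx x = i}ᶜ = 0 := by
    rw [hE.lenOn_eq_zero_iff]
    intro x hx
    by_cases hxU : x ∈ U i
    · exact hs i x hxU hx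
    · rw [extS_stk k, extFam_of_notMem _ _ hxU]
  have h3 := hE.lenOn_compl {x | idx x = i}
  have h4 := hE.lenOn_compl (U i : Set X)
  rw [lenOn_extS, lenOn_extS_compl] at h4
  rw [h1]
  omega

theorem lenOn_biUnion {N : SubM G} (hN : FinCo k N) (s : Finset ι) :
    lenOn k N {x | idx x ∈ s} = ∑ i ∈ s, lenOn k N {x | idx x = i} := by
  classical
  induction s using Finset.induction_on with
  | empty =>
    rw [Finset.sum_empty, hN.lenOn_eq_zero_iff]
    intro x hx
    exact absurd hx (Finset.notMem_empty _)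
  | insert i s hi ih =>
    rw [Finset.sum_insert hi, ← ih, ← hN.lenOn_union]
    · congr 1
      ext x
      simp [Finset.mem_insert]
    · rw [Set.disjoint_left]
      rintro x hx hx'
      rw [Set.mem_ofPred_eq] at hx hx'
      exact hi (hx ▸ hx')

theorem lenOn_univ_eq {N : SubM G} (hN : FinCo k N) :
    lenOn k N Set.univ = ∑ i, lenOn k N {x | idx x = i} := by
  rw [← lenOn_biUnion idx hN]
  congr 1
  ext x
  simp

theorem glueN_mem (hf : ∀ i, Module.Finite k (Γ(G, U i) ⧸ Nf i))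
    (hs : ∀ i, SuppIn hU idx i (Nf i)) {n : ℕ}
    (hn : ∑ i, Module.finrank k (Γ(G, U i) ⧸ Nf i) = n) : glueN hU idx Nf ∈ QC k G n := by
  refine ⟨glueN_finCo hU idx hf, ?_⟩
  rw [lenOn_univ_eq idx (glueN_finCo hU idx hf), ← hn]
  exact Finset.sum_congr rfl fun i _ => lenOn_piece hU idx hf hs i

include hidx in
theorem glueN_inj {Nf' : ∀ i, Submodule Γ(X, U i) Γ(G, U i)}
    (hf : ∀ i, Module.Finite k (Γ(G, U i) ⧸ Nf i))
    (hs : ∀ i, SuppIn hU idx i (Nf i)) (hf' : ∀ i, Module.Finite k (Γ(G, U i) ⧸ Nf' i))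
    (hs' : ∀ i, SuppIn hU idx i (Nf' i)) (h : glueN hU idx Nf = glueN hU idx Nf') (i : ι) :
    Nf i = Nf' i := by
  have := hf i
  have := hf' i
  rw [← extS_sec k (hU i) (Nf i), ← extS_sec k (hU i) (Nf' i)]
  congr 1
  apply SubM.ext_stk (extS_finCo (k := k) _ _).loc (extS_finCo (k := k) _ _).loc
  intro x
  by_cases hx : idx x = i
  · subst hx
    rw [← glueN_stk k hU idx hf x, ← glueN_stk k hU idx hf' x, h]
  · by_cases hxU : x ∈ U i
    · rw [hs i x hxU hx, hs' i x hxU hx]
    · rw [extS_stk k, extS_stk k, extFam_of_notMem _ _ hxU, extFam_of_notMem _ _ hxU]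

include hidx in
theorem exists_glueN {n : ℕ} {N : SubM G} (hN : N ∈ QC k G n) :
    ∃ Nf : ∀ i, Submodule Γ(X, U i) Γ(G, U i), (∀ i, Module.Finite k (Γ(G, U i) ⧸ Nf i)) ∧
      (∀ i, SuppIn hU idx i (Nf i)) ∧ ∑ i, Module.finrank k (Γ(G, U i) ⧸ Nf i) = n ∧
      glueN hU idx Nf = N := by
  have hC : ∀ i, FinCo k (cutOff {x | idx x = i} N) := fun i => hN.1.cutOff _
  have hspec := fun i => (hC i).sec_spec (hU i)
  have hext : ∀ i, extS (hU i) ((cutOff {x | idx x = i} N).sec (U i)) =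
      cutOff {x | idx x = i} N := by
    intro i
    have := (hspec i).1
    apply SubM.ext_stk (extS_finCo (k := k) _ _).loc (hC i).loc
    intro x
    by_cases hxU : x ∈ U i
    · rw [extS_stk k, extFam_of_mem _ _ hxU, (hspec i).2.2 ⟨x, hxU⟩]
    · rw [extS_stk k, extFam_of_notMem _ _ hxU, hN.1.cutOff_stk_of_notMem]
      rintro rfl
      exact hxU (hidx x)
  refine ⟨fun i => (cutOff {x | idx x = i} N).sec (U i), fun i => (hspec i).1, ?_, ?_, ?_⟩
  · intro i x _ hx
    rw [hext, hN.1.cutOff_stk_of_notMem]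
    exact hx
  · rw [← hN.2, lenOn_univ_eq idx hN.1]
    apply Finset.sum_congr rfl
    intro i _
    rw [(hspec i).2.1, hN.1.lenOn_cutOff]
    congr 1
    ext x
    simp only [Set.mem_inter_iff, Set.mem_ofPred_eq]
    constructor
    · exact fun h => h.1
    · rintro rfl
      exact ⟨rfl, hidx x⟩
  · apply SubM.ext_stk (glueN_finCo (k := k) hU idx (fun i => (hspec i).1)).loc hN.1.loc
    intro x
    rw [glueN_stk k hU idx (fun i => (hspec i).1), hext]
    exact hN.1.cutOff_stk_of_mem (show x ∈ {y | idx y = idx x} from rfl)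

/-- membership of sections -/
theorem mem_glueN_iff (hf : ∀ i, Module.Finite k (Γ(G, U i) ⧸ Nf i))
    (hs : ∀ i, SuppIn hU idx i (Nf i)) {n : ℕ}
    (hn : ∀ i, Module.finrank k (Γ(G, U i) ⧸ Nf i) ≤ n) {V : X.Opens} (s : Γ(G, V))
    {b : ι → ℕ} {f : ∀ i, Fin (b i) → Γ(X, U i)} (hfV : ∀ i a, X.basicOpen (f i a) ≤ V)
    (hcov : ∀ i, ∀ x ∈ U i, x ∈ V → ∃ a, x ∈ X.basicOpen (f i a))
    {e : ∀ i, Fin (b i) → ℕ} {t : ∀ i, Fin (b i) → Γ(G, U i)}
    (ht : ∀ i a, rs G (X.basicOpen_le (f i a)) (t i a) =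
      rsX (X.basicOpen_le (f i a)) (f i a ^ e i a) • rs G (hfV i a) s) (hidx : ∀ x, x ∈ U (idx x)) :
    s ∈ (glueN hU idx Nf).sec V ↔ ∀ i a, f i a ^ n • t i a ∈ Nf i := by
  have hgerm : ∀ i a (x : X) (hx : x ∈ X.basicOpen (f i a)),
      (grm G x (U i) (X.basicOpen_le _ hx) (t i a) ∈ (extS (hU i) (Nf i)).stk x ↔
        grm G x V (hfV i a hx) s ∈ (extS (hU i) (Nf i)).stk x) := by
    intro i a x hx
    have := hf i
    have hxU := X.basicOpen_le (f i a) hx
    have h1 := congrArg (grm G x (X.basicOpen (f i a)) hx) (ht i a)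
    rw [grm_rs, grm_smul, grm_rs, germ_rsX] at h1
    rw [h1, extS_stk k, extFam_of_mem _ _ hxU]
    constructor
    · intro h
      apply (ptLoc G (hU i) hxU).unit_smul_mem _ h
      intro hmem
      have h3 : f i a ∈ ptI hxU := (ptI_prime hxU).mem_of_pow_mem _ hmem
      exact (notMem_ptI' hxU (f i a)).2 hx h3
    · intro h
      exact Submodule.smul_mem _ _ h
  have hN := glueN_finCo (k := k) hU idx hf
  rw [hN.loc.mem_iff]
  constructor
  · intro h i a
    have := hf i
    rw [← basic_mem_iff (k := k) (hU i) (Nf i) (hn i)]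
    intro x hx
    rw [hgerm i a x hx]
    by_cases hxi : idx x = i
    · subst hxi
      rw [← glueN_stk k hU idx hf x]
      exact h x _
    · rw [hs i x (X.basicOpen_le _ hx) hxi]
      trivial
  · intro h x hx
    rw [glueN_stk k hU idx hf x]
    obtain ⟨a, ha⟩ := hcov (idx x) x (hidx x) hx
    rw [← hgerm (idx x) a x ha]
    have := hf (idx x)
    exact (basic_mem_iff (k := k) (hU (idx x)) (Nf (idx x)) (hn _) _ _).2 (h (idx x) a) x ha

end glue

end Pool.Agent.Helper345_Quot
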