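import Pool.Agent.Helper345_Quot.Glob
import Mathlib.AlgebraicGeometry.Morphisms.Separated

/-!
The theorem for schemes.
-/

noncomputable section

namespace Pool.Agent.Helper345_Quot

universe u

open AlgebraicGeometry CategoryTheory TopologicalSpace Opposite

attribute [local instance] algSec algStk modSec modStk

variable {k : Type u} [Field k] {X : Scheme.{u}} [X.Over (Spec (.of k))] {G : X.Modules}
  [G.IsQuasicoherent]

/-! ### extension from an affine open set -/

section ext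

variable {U : X.Opens} (hU : IsAffineOpen U)

open Classical in
/-- stalks of the extension -/
def extFam (N₀ : Submodule Γ(X, U) Γ(G, U)) (x : X) : Submodule (X.presheaf.stalk x) (Stk G x) :=
  if h : x ∈ U then (ptLoc G hU h).push N₀ else ⊤

theorem extFam_of_mem (N₀ : Submodule Γ(X, U) Γ(G, U)) {x : X} (h : x ∈ U) :
    extFam hU N₀ x = (ptLoc G hU h).push N₀ := by
  unfold extFam
  rw [dif_pos h]

theorem extFam_of_notMem (N₀ : Submodule Γ(X, U) Γ(G, U)) {x : X} (h : x ∉ U) :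
    extFam hU N₀ x = ⊤ := by
  unfold extFam
  rw [dif_neg h]

theorem extFam_fin (N₀ : Submodule Γ(X, U) Γ(G, U)) [Module.Finite k (Γ(G, U) ⧸ N₀)] :
    FinFam k (extFam hU N₀) where
  fin := by
    intro x
    by_cases hx : x ∈ U
    · rw [extFam_of_mem hU N₀ hx]
      exact ((ptLoc_covers (G := G) hU).push_spec (k := k) (ptLoc_k hU) (ptLoc_inj hU) N₀).1 ⟨x, hx⟩
    · rw [extFam_of_notMem hU N₀ hx]
      have : Subsingleton (Stk G x ⧸ (⊤ : Submodule (X.presheaf.stalk x) (Stk G x))) :=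
        Submodule.Quotient.subsingleton_iff.2 rfl
      exact Module.Finite.of_finite
  supp := by
    have h := ((ptLoc_covers (G := G) hU).push_spec (k := k) (ptLoc_k hU) (ptLoc_inj hU) N₀).2
    apply (h.image (fun x : U => (x : X))).subset
    intro x hx
    by_cases hxU : x ∈ U
    · rw [Set.mem_ofPred_eq, extFam_of_mem hU N₀ hxU] at hx
      exact ⟨⟨x, hxU⟩, hx, rfl⟩
    · rw [Set.mem_ofPred_eq, extFam_of_notMem hU N₀ hxU] at hx
      exact absurd rfl hx

/-- the subsheaf with given sections over an affine open set, and everything outside -/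
def extS (N₀ : Submodule Γ(X, U) Γ(G, U)) : SubM G := ofStk (extFam hU N₀)

variable (k) in
theorem extS_stk (N₀ : Submodule Γ(X, U) Γ(G, U)) [Module.Finite k (Γ(G, U) ⧸ N₀)] (x : X) :
    (extS hU N₀).stk x = extFam hU N₀ x := (extFam_fin (k := k) hU N₀).stk x

theorem extS_finCo (N₀ : Submodule Γ(X, U) Γ(G, U)) [Module.Finite k (Γ(G, U) ⧸ N₀)] :
    FinCo k (extS hU N₀) := (extFam_fin hU N₀).finCo

variable (k) in
theorem extS_sec (N₀ : Submodule Γ(X, U) Γ(G, U)) [Module.Finite k (Γ(G, U) ⧸ N₀)] :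
    (extS hU N₀).sec U = N₀ := by
  rw [(extS_finCo (k := k) hU N₀).loc.sec_eq_glue hU]
  conv_rhs => rw [← (ptLoc_covers (G := G) hU).glue_push N₀]
  congr 1
  funext x
  rw [extS_stk k, extFam_of_mem hU N₀ x.2]

theorem lenOn_extS (N₀ : Submodule Γ(X, U) Γ(G, U)) [Module.Finite k (Γ(G, U) ⧸ N₀)] :
    lenOn k (extS hU N₀) U = Module.finrank k (Γ(G, U) ⧸ N₀) := by
  rw [← ((extS_finCo (k := k) hU N₀).sec_spec hU).2.1, extS_sec k]

theorem lenOn_extS_compl (N₀ : Submodule Γ(X, U) Γ(G, U)) [Module.Finite k (Γ(G, U) ⧸ N₀)] :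
    lenOn k (extS hU N₀) (U : Set X)ᶜ = 0 := by
  rw [(extS_finCo (k := k) hU N₀).lenOn_eq_zero_iff]
  intro x hx
  rw [extS_stk k, extFam_of_notMem hU N₀ hx]

end ext

section main

variable [LocallyOfFiniteType (X ↘ Spec (.of k))]
  (hfin : ∀ U : X.Opens, IsAffineOpen U → Module.Finite Γ(X, U) Γ(G, U))
  (P : ∀ n, SParam k G (QC k G n))

/-- the subsheaves supported in an affine open set correspond to the submodules -/
theorem bij_sec {U : X.Opens} (hU : IsAffineOpen U) (n : ℕ) :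
    Set.BijOn (fun N : SubM G => N.sec U) {N | N ∈ QC k G n ∧ lenOn k N U = n}
      (QuotSet k Γ(X, U) Γ(G, U) n) := by
  refine ⟨?_, ?_, ?_⟩
  · rintro N ⟨hN, hl⟩
    have h := hN.1.sec_spec hU
    exact ⟨h.1, by rw [h.2.1, hl]⟩
  · rintro N ⟨hN, hl⟩ N' ⟨hN', hl'⟩ h
    apply SubM.ext_stk hN.1.loc hN'.1.loc
    intro x
    by_cases hx : x ∈ U
    · rw [← (hN.1.sec_spec hU).2.2 ⟨x, hx⟩, ← (hN'.1.sec_spec hU).2.2 ⟨x, hx⟩]
      congr 1
    · have h1 := hN.1.lenOn_compl (U : Set X)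
      have h2 := hN'.1.lenOn_compl (U : Set X)
      rw [hN.2, hl] at h1
      rw [hN'.2, hl'] at h2
      have h3 : lenOn k N (U : Set X)ᶜ = 0 := by omega
      have h4 : lenOn k N' (U : Set X)ᶜ = 0 := by omega
      rw [hN.1.lenOn_eq_zero_iff.1 h3 x hx, hN'.1.lenOn_eq_zero_iff.1 h4 x hx]
  · rintro N₀ ⟨h1, h2⟩
    refine ⟨extS hU N₀, ⟨⟨extS_finCo hU N₀, ?_⟩, ?_⟩, extS_sec k hU N₀⟩
    · rw [← (extS_finCo (k := k) hU N₀).lenOn_compl (U : Set X), lenOn_extS, lenOn_extS_compl,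
        add_zero, h2]
    · rw [lenOn_extS, h2]

/-- the induced parametrisation for an affine open set -/
def affParam {U : X.Opens} (hU : IsAffineOpen U) (hm : Meas P (U : Set X)) (n : ℕ) :
    Param k Γ(X, U) Γ(G, U) (QuotSet k Γ(X, U) Γ(G, U) n) where
  κ := (P n).κ
  fin := (P n).fin
  S := {x | x ∈ (P n).S ∧ lenOn k ((P n).φ x) U = n}
  φ := fun x => ((P n).φ x).sec U
  bij := by
    refine (bij_sec hU n).comp ?_
    refine ⟨?_, ?_, ?_⟩
    · rintro x ⟨hx, hl⟩
      exact ⟨(P n).maps hx, hl⟩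
    · rintro x ⟨hx, _⟩ y ⟨hy, _⟩ h
      exact (P n).inj hx hy h
    · rintro N ⟨hN, hl⟩
      obtain ⟨x, hx, hx'⟩ := (P n).surj hN
      exact ⟨x, ⟨hx, by rw [hx', hl]⟩, hx'⟩
  dfn := by
    intro m g
    have h1 : Dfn (fun z : (P n).κ ⊕ Fin m → k => z ∘ Sum.inl ∈ (P n).S ∧
        ∑ j, kSec k U (z (Sum.inr j)) • g j ∈ ((P n).φ (z ∘ Sum.inl)).sec U) :=
      (P n).dfn U hU m g
    refine (h1.and (hm.reindex n n Sum.inl)).congr fun z => ?_
    constructor
    · rintro ⟨⟨a1, a2⟩, a3, a4⟩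
      exact ⟨⟨a3, a4⟩, a2⟩
    · rintro ⟨⟨a3, a4⟩, a2⟩
      exact ⟨⟨a3, a2⟩, a3, a4⟩

include hfin in
theorem good_aff [IsAlgClosed k] [CharZero k] (E : EulerChar k) {U : X.Opens}
    (hU : IsAffineOpen U) (hdim : Module.supportDim Γ(X, U) Γ(G, U) ≤ 1) :
    GoodSet P E (U : Set X) := by
  have hm := meas_aff hfin P hU
  refine ⟨hm, ?_⟩
  have := hfin U hU
  have := finiteType_sec (k := k) hU
  have h := affine_rational hdim E (affParam P hU hm)
  exact h

include hfin in
theorem good_union [IsAlgClosed k] [CharZero k] (E : EulerChar k)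
    {ι : Type} [Finite ι] (U : ι → X.Opens) (hU : ∀ i, IsAffineOpen (U i))
    (hc : ∀ x, ∃ i, x ∈ U i) (hsep : ∀ V W : X.Opens, IsAffineOpen V → IsAffineOpen W →
      IsAffineOpen (V ⊓ W))
    (hdim : ∀ V : X.Opens, IsAffineOpen V → Module.supportDim Γ(X, V) Γ(G, V) ≤ 1)
    {J : Type*} (s : Finset J) : ∀ V : J → X.Opens, (∀ j, IsAffineOpen (V j)) →
      GoodSet P E (⋃ j ∈ s, (V j : Set X)) := by
  classical
  induction s using Finset.induction_on with
  | empty =>
    intro V _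
    have h1 : (⋃ j ∈ (∅ : Finset J), (V j : Set X)) = ((⊥ : X.Opens) : Set X) := by simp
    rw [h1]
    exact good_aff hfin P E (isAffineOpen_bot X) (hdim _ (isAffineOpen_bot X))
  | insert j s hj ih =>
    intro V hV
    rw [Finset.set_biUnion_insert]
    apply GoodSet.union hfin P E U hU hc
    · exact good_aff hfin P E (hV j) (hdim _ (hV j))
    · exact ih V hV
    · have h1 : (V j : Set X) ∩ ⋃ i ∈ s, (V i : Set X) =
          ⋃ i ∈ s, ((V j ⊓ V i : X.Opens) : Set X) := by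
        rw [Set.inter_iUnion₂]
        rfl
      rw [h1]
      exact ih (fun i => V j ⊓ V i) (fun i => hsep _ _ (hV j) (hV i))

include hfin in
/-- The theorem for schemes, in terms of an affine cover. -/
theorem scheme_rational' [IsAlgClosed k] [CharZero k] (E : EulerChar k)
    {ι : Type} [Finite ι] (U : ι → X.Opens) (hU : ∀ i, IsAffineOpen (U i))
    (hc : ∀ x, ∃ i, x ∈ U i) (hsep : ∀ V W : X.Opens, IsAffineOpen V → IsAffineOpen W →
      IsAffineOpen (V ⊓ W))
    (hdim : ∀ V : X.Opens, IsAffineOpen V → Module.supportDim Γ(X, V) Γ(G, V) ≤ 1) :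
    IsRat (PowerSeries.mk fun n => ((E.χ (P n).S : ℤ) : ℚ)) := by
  classical
  have := Fintype.ofFinite ι
  have h := (good_union hfin P E U hU hc hsep hdim Finset.univ U hU).2
  have h1 : (⋃ j ∈ (Finset.univ : Finset ι), (U j : Set X)) = Set.univ := by
    rw [Set.eq_univ_iff_forall]
    intro x
    obtain ⟨i, hi⟩ := hc x
    simp only [Set.mem_iUnion]
    exact ⟨i, Finset.mem_univ i, hi⟩
  rw [h1] at h
  have h2 : ZC P E Set.univ = PowerSeries.mk fun n => ((E.χ (P n).S : ℤ) : ℚ) := by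
    unfold ZC
    congr 1
    funext n
    congr 1
    unfold zC
    have h3 : E.χ (P n).S = E.P (fun x => x ∈ (P n).S) := rfl
    rw [h3]
    apply E.P_congr
    intro x
    constructor
    · exact fun h => h.1
    · exact fun h => ⟨h, ((P n).maps h).2⟩
  rw [← h2]
  exact h

end main

end Pool.Agent.Helper345_Quot
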