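import Pool.Agent.Helper345_Quot.DefsX

/-!
Submodule sheaves and their stalks.
-/

noncomputable section

namespace Pool.Agent.Helper345_Quot

universe u

open AlgebraicGeometry CategoryTheory TopologicalSpace Opposite

variable {X : Scheme.{u}} {G : X.Modules}

theorem rs_smul {U V : X.Opens} (h : U ≤ V) (r : Γ(X, V)) (m : Γ(G, V)) :
    rs G h (r • m) = rsX h r • rs G h m := Scheme.Modules.map_smul G (homOfLE h) r m

theorem rs_rs {U V W : X.Opens} (h : U ≤ V) (h' : V ≤ W) (m : Γ(G, W)) :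
    rs G h (rs G h' m) = rs G (h.trans h') m := by
  have : G.presheaf.map (homOfLE (h.trans h')).op =
      G.presheaf.map (homOfLE h').op ≫ G.presheaf.map (homOfLE h).op := by
    rw [← G.presheaf.map_comp]; rfl
  unfold rs
  rw [this]
  rfl

theorem rs_self {U : X.Opens} (h : U ≤ U) (m : Γ(G, U)) : rs G h m = m := by
  have : G.presheaf.map (homOfLE h).op = 𝟙 _ := by
    rw [← G.presheaf.map_id]; rfl
  unfold rs
  rw [this]
  rfl

theorem grm_exists {x : X} (t : Stk G x) :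
    ∃ (U : X.Opens) (hx : x ∈ U) (s : Γ(G, U)), grm G x U hx s = t :=
  TopCat.Presheaf.exists_germ_eq (C := Ab.{u}) G.presheaf t

theorem grm_eq {x : X} {U V : X.Opens} (hU : x ∈ U) (hV : x ∈ V) {s : Γ(G, U)} {t : Γ(G, V)}
    (h : grm G x U hU s = grm G x V hV t) :
    ∃ (W : X.Opens) (_ : x ∈ W) (h1 : W ≤ U) (h2 : W ≤ V), rs G h1 s = rs G h2 t := by
  obtain ⟨W, hW, i, j, hij⟩ := TopCat.Presheaf.germ_eq (C := Ab.{u}) G.presheaf x hU hV s t h
  exact ⟨W, hW, i.le, j.le, hij⟩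

theorem SubM.mem_stk {N : SubM G} {x : X} {t : Stk G x} : t ∈ N.stk x ↔
    ∃ (U : X.Opens) (hx : x ∈ U) (s : Γ(G, U)), s ∈ N.sec U ∧ grm G x U hx s = t := Iff.rfl

theorem SubM.IsLocal.mem_iff {N : SubM G} (hN : N.IsLocal) {V : X.Opens} (s : Γ(G, V)) :
    s ∈ N.sec V ↔ ∀ (x : X) (hx : x ∈ V), grm G x V hx s ∈ N.stk x := by
  constructor
  · intro hs x hx
    exact ⟨V, hx, s, hs, rfl⟩
  · intro h
    apply hN
    intro x hx
    obtain ⟨U, hU, t, ht, hts⟩ := h x hx
    obtain ⟨W, hW, h1, h2, h3⟩ := grm_eq hU hx hts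
    exact ⟨W, hW, h2, h3 ▸ N.rs_mem h1 ht⟩

theorem SubM.ext_stk {N N' : SubM G} (hN : N.IsLocal) (hN' : N'.IsLocal)
    (h : ∀ x, N.stk x = N'.stk x) : N = N' := by
  apply PresheafOfModules.Submodule.ext
  intro V
  ext s
  have h1 := hN.mem_iff (V := V.unop) s
  have h2 := hN'.mem_iff (V := V.unop) s
  simp only [h] at h1
  exact h1.trans h2.symm

/-- the submodule defined by conditions on the germs -/
def ofStk (T : ∀ x : X, Submodule (X.presheaf.stalk x) (Stk G x)) : SubM G where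
  obj V :=
    { carrier := {s : Γ(G, V.unop) | ∀ (x : X) (hx : x ∈ V.unop), grm G x V.unop hx s ∈ T x}
      add_mem' := by
        intro s t hs ht x hx
        have h1 := (T x).add_mem (hs x hx) (ht x hx)
        rw [← map_add] at h1
        exact h1
      zero_mem' := by
        intro x hx
        have h1 := (T x).zero_mem
        rw [← map_zero (grm G x V.unop hx)] at h1
        exact h1
      smul_mem' := by
        intro c s hs x hx
        have h1 := (T x).smul_mem (X.presheaf.germ V.unop x hx c) (hs x hx)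
        rw [← grm_smul] at h1
        exact h1 }
  map := by
    intro U V f s hs x hx
    have h1 := hs x (f.unop.le hx)
    rw [← grm_rs (G := G) f.unop.le hx] at h1
    exact h1

theorem mem_ofStk {T : ∀ x : X, Submodule (X.presheaf.stalk x) (Stk G x)} {V : X.Opens}
    {s : Γ(G, V)} : s ∈ (ofStk T).sec V ↔ ∀ (x : X) (hx : x ∈ V), grm G x V hx s ∈ T x := Iff.rfl

theorem ofStk_isLocal (T : ∀ x : X, Submodule (X.presheaf.stalk x) (Stk G x)) :
    (ofStk T).IsLocal := by
  intro V s h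
  rw [mem_ofStk]
  intro x hx
  obtain ⟨W, hW, hWV, h1⟩ := h x hx
  rw [mem_ofStk] at h1
  have := h1 x hW
  rwa [grm_rs] at this

theorem ofStk_stk_le (T : ∀ x : X, Submodule (X.presheaf.stalk x) (Stk G x)) (x : X) :
    (ofStk T).stk x ≤ T x := by
  rintro _ ⟨U, hU, s, hs, rfl⟩
  exact hs x hU

theorem ofStk_stk {T : ∀ x : X, Submodule (X.presheaf.stalk x) (Stk G x)} {Z : Set X}
    (hZ : Z.Finite) (hcl : ∀ z ∈ Z, IsClosed ({z} : Set X)) (hT : ∀ x, x ∉ Z → T x = ⊤) (x : X) :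
    (ofStk T).stk x = T x := by
  apply le_antisymm (ofStk_stk_le T x)
  intro t ht
  obtain ⟨U, hU, s, rfl⟩ := grm_exists t
  have hclosed : IsClosed (Z \ {x}) := by
    have h1 : Z \ {x} = ⋃ z ∈ Z \ {x}, {z} := by
      rw [Set.biUnion_of_singleton]
    rw [h1]
    apply Set.Finite.isClosed_biUnion (hZ.subset Set.sdiff_subset)
    intro z hz
    exact hcl z hz.1
  let W : X.Opens := U ⊓ ⟨(Z \ {x})ᶜ, hclosed.isOpen_compl⟩
  have hxW : x ∈ W := ⟨hU, by
    change x ∈ (Z \ {x})ᶜ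
    simp⟩
  refine ⟨W, hxW, rs G inf_le_left s, ?_, ?_⟩
  · rw [mem_ofStk]
    intro y hy
    by_cases hyx : y = x
    · subst hyx
      rw [grm_rs]
      exact ht
    · have : y ∉ Z := fun h => hy.2 ⟨h, hyx⟩
      rw [hT y this]
      trivial
  · rw [grm_rs]

theorem ofStk_eq {N : SubM G} (hN : N.IsLocal) : ofStk (fun x => N.stk x) = N := by
  apply PresheafOfModules.Submodule.ext
  intro V
  ext s
  exact (hN.mem_iff (V := V.unop) s).symm

theorem SubM.IsLocal.le_iff {N N' : SubM G} (hN : N.IsLocal) (hN' : N'.IsLocal) :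
    N ≤ N' ↔ ∀ x, N.stk x ≤ N'.stk x := by
  constructor
  · rintro h x _ ⟨U, hU, s, hs, rfl⟩
    exact ⟨U, hU, s, h (op U) hs, rfl⟩
  · intro h V s hs
    have h1 := (hN.mem_iff (V := V.unop) s).1 hs
    exact (hN'.mem_iff (V := V.unop) s).2 (fun x hx => h x (h1 x hx))

end Pool.Agent.Helper345_Quot
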