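import Pool.Agent.Helper345_Quot.Gf

/-!
Solution sets of linear systems have rational generating functions.
-/

noncomputable section

namespace Pool.Agent.Helper345_Quot

/-- linear equation -/
def LinEq {κ : Type} [Fintype κ] (e : (κ → ℤ) × ℤ) (u : κ → ℕ) : Prop :=
  ∑ i, e.1 i * (u i : ℤ) = e.2

/-- linear system -/
def Sys {κ : Type} [Fintype κ] (L : List ((κ → ℤ) × ℤ)) (u : κ → ℕ) : Prop := ∀ e ∈ L, LinEq e u

theorem Sys.pull {κ κ' : Type} [Fintype κ] [Fintype κ'] {f : (κ' → ℕ) → (κ → ℕ)} (hf : Aff f)
    (L : List ((κ → ℤ) × ℤ)) : ∃ L' : List ((κ' → ℤ) × ℤ), L'.length = L.length ∧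
      ∀ v, Sys L (f v) ↔ Sys L' v := by
  choose b P hP using hf
  refine ⟨L.map (fun e => ((fun t => ∑ i, e.1 i * (P i t : ℤ)), e.2 - ∑ i, e.1 i * (b i : ℤ))),
    by simp, ?_⟩
  intro v
  have key : ∀ e : (κ → ℤ) × ℤ, LinEq e (f v) ↔
      LinEq (fun t => ∑ i, e.1 i * (P i t : ℤ), e.2 - ∑ i, e.1 i * (b i : ℤ)) v := by
    intro e
    unfold LinEq
    have h1 : ∑ i, e.1 i * ((f v i : ℕ) : ℤ) = ∑ i, e.1 i * (b i : ℤ) +
        ∑ t, (∑ i, e.1 i * (P i t : ℤ)) * (v t : ℤ) := by
      simp only [hP, Nat.cast_add, Nat.cast_sum, Nat.cast_mul, mul_add, Finset.sum_add_distrib,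
        Finset.mul_sum, Finset.sum_mul]
      congr 1
      rw [Finset.sum_comm]
      apply Finset.sum_congr rfl
      intro t _
      apply Finset.sum_congr rfl
      intro i _
      ring
    rw [h1]
    constructor
    · intro h; simp only; linarith
    · intro h; simp only at h; linarith
  unfold Sys
  simp only [List.mem_map, forall_exists_index, and_imp, forall_apply_eq_imp_iff₂]
  exact forall₂_congr fun e _ => key e

/-- all systems with `n` equations -/
def SysOK (n : ℕ) : Prop :=
  ∀ (κ : Type) [Fintype κ] (L : List ((κ → ℤ) × ℤ)), L.length = n → Rat' (Sys L)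

theorem pos_case (n : ℕ) (hn : SysOK n) (m : ℕ) : ∀ (κ : Type) [Fintype κ]
    (e : (κ → ℤ) × ℤ) (L : List ((κ → ℤ) × ℤ)), L.length = n → (∀ i, e.1 i = 0 ∨ e.1 i = 1) →
    Nat.card {i // e.1 i ≠ 0} = m → Rat' (fun u => LinEq e u ∧ Sys L u) := by
  classical
  induction m with
  | zero =>
    intro κ _ e L hL he hm
    have h0 : ∀ i, e.1 i = 0 := by
      intro i
      by_contra hi
      have : Nonempty {i // e.1 i ≠ 0} := ⟨⟨i, hi⟩⟩
      have := Nat.card_pos (α := {i // e.1 i ≠ 0})
      omega
    by_cases hc : e.2 = 0
    · refine (hn κ L hL).congr fun u => ?_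
      simp [LinEq, h0, hc]
    · apply Rat'.empty
      rintro u ⟨h1, _⟩
      apply hc
      unfold LinEq at h1
      rw [← h1]
      simp [h0]
  | succ m ih =>
    intro κ _ e L hL he hm
    have hne : Nonempty {i // e.1 i ≠ 0} := by
      by_contra h
      rw [not_nonempty_iff] at h
      rw [Nat.card_of_isEmpty] at hm
      omega
    obtain ⟨⟨i, hi⟩⟩ := hne
    have hi1 : e.1 i = 1 := (he i).resolve_left hi
    -- split according to the value of `u i`
    apply Rat'.split (J := ℕ) (Finset.range (e.2.toNat + 1)) (A := fun x u => u i = x)
    · rintro u x y rfl rfl; rfl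
    · rintro u ⟨h1, _⟩
      refine ⟨u i, ?_, rfl⟩
      unfold LinEq at h1
      rw [Finset.mem_range]
      have h2 : (u i : ℤ) ≤ e.2 := by
        rw [← h1, ← Finset.add_sum_erase _ _ (Finset.mem_univ i), hi1, one_mul]
        have : 0 ≤ ∑ x ∈ Finset.univ.erase i, e.1 x * (u x : ℤ) := by
          apply Finset.sum_nonneg
          intro j _
          rcases he j with h | h <;> rw [h] <;> simp
        linarith
      omega
    · intro x _
      apply Rat'.of_image (fixing_aff i x) (fixing_inj i x)
        (fun u hu => fixing_surj i x u hu.2)
      obtain ⟨L', hL', hLv⟩ := Sys.pull (fixing_aff i x) L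
      have h3 := ih {j // j ≠ i} (fun j => e.1 j, e.2 - x) L' (by omega) (fun j => he j) ?_
      · refine h3.congr fun v => ?_
        rw [hLv v]
        have h4 : LinEq e (fun j => if h : j = i then x else v ⟨j, h⟩) ↔
            LinEq (fun j : {j // j ≠ i} => e.1 j, e.2 - x) v := by
          unfold LinEq
          rw [← Finset.add_sum_erase _ _ (Finset.mem_univ i), hi1]
          have h5 : ∑ j ∈ Finset.univ.erase i, e.1 j * ((if h : j = i then x else v ⟨j, h⟩ : ℕ) : ℤ) =
              ∑ j : {j // j ≠ i}, e.1 j * (v j : ℤ) := by
            rw [← Finset.sum_subtype_of_mem (p := fun j => j ≠ i)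
              (fun j => e.1 j * ((if h : j = i then x else v ⟨j, h⟩ : ℕ) : ℤ))
              (fun j hj => Finset.ne_of_mem_erase hj)]
            have h6 : Finset.subtype (fun j => j ≠ i) (Finset.univ.erase i) = Finset.univ := by
              ext j; simp [j.2]
            rw [h6]
            apply Finset.sum_congr rfl
            intro j _
            simp [j.2]
          rw [h5]
          simp only [dif_pos]
          constructor
          · intro h; linarith
          · intro h; linarith
        rw [h4]
        simp
      · -- counting
        have h5 : Nat.card {j : {j // j ≠ i} // e.1 j ≠ 0} + 1 = Nat.card {j // e.1 j ≠ 0} := by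
          rw [Nat.card_eq_fintype_card, Nat.card_eq_fintype_card, Fintype.card_subtype,
            Fintype.card_subtype]
          have h6 : (Finset.univ.filter (fun j : {j // j ≠ i} => e.1 j ≠ 0)).card =
              ((Finset.univ.filter (fun j => e.1 j ≠ 0)).erase i).card := by
            apply Finset.card_bij (fun j _ => j.1)
            · intro j hj
              simp only [Finset.mem_filter, Finset.mem_univ, true_and] at hj
              simp [hj, j.2]
            · intro j _ j' _ h
              exact Subtype.ext h
            · intro j hj
              simp only [Finset.mem_erase, Finset.mem_filter, Finset.mem_univ, true_and] at hj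
              exact ⟨⟨j, hj.1⟩, by simp [hj.2], rfl⟩
          rw [h6, Finset.card_erase_of_mem (by simp [hi])]
          have : 0 < (Finset.univ.filter (fun j => e.1 j ≠ 0)).card :=
            Finset.card_pos.2 ⟨i, by simp [hi]⟩
          omega
        simp only
        omega

theorem neg_lin {κ : Type} [Fintype κ] (e : (κ → ℤ) × ℤ) (u : κ → ℕ) :
    LinEq (fun i => - e.1 i, - e.2) u ↔ LinEq e u := by
  unfold LinEq
  simp only [neg_mul, Finset.sum_neg_distrib, neg_inj]

theorem unit_case (n : ℕ) (hn : SysOK n) (m : ℕ) : ∀ (κ : Type) [Fintype κ]
    (e : (κ → ℤ) × ℤ) (L : List ((κ → ℤ) × ℤ)), L.length = n →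
    (∀ i, e.1 i = 0 ∨ e.1 i = 1 ∨ e.1 i = -1) →
    Nat.card {i // e.1 i ≠ 0} = m → Rat' (fun u => LinEq e u ∧ Sys L u) := by
  classical
  induction m with
  | zero =>
    intro κ _ e L hL he hm
    apply pos_case n hn 0 κ e L hL _ hm
    intro i
    left
    by_contra hi
    have : Nonempty {i // e.1 i ≠ 0} := ⟨⟨i, hi⟩⟩
    have := Nat.card_pos (α := {i // e.1 i ≠ 0})
    omega
  | succ m ih =>
    intro κ _ e L hL he hm
    by_cases hpos : ∀ i, e.1 i = 0 ∨ e.1 i = 1
    · exact pos_case n hn (m + 1) κ e L hL hpos hm
    by_cases hneg : ∀ i, e.1 i = 0 ∨ e.1 i = -1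
    · have h1 := pos_case n hn (m + 1) κ (fun i => - e.1 i, - e.2) L hL (by
        intro i
        rcases hneg i with h | h
        · left; simp [h]
        · right; simp [h]) (by simpa using hm)
      refine h1.congr fun u => ?_
      rw [neg_lin]
    push Not at hpos hneg
    obtain ⟨j, hj0, hj1⟩ := hpos
    obtain ⟨i, hi0, hi1⟩ := hneg
    have hj : e.1 j = -1 := by rcases he j with h | h | h <;> tauto
    have hi : e.1 i = 1 := by rcases he i with h | h | h <;> tauto
    have hij : i ≠ j := by
      rintro rfl
      rw [hi] at hj
      omega
    -- counting lemma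
    have hcount : ∀ (p : κ) (e' : κ → ℤ), e.1 p ≠ 0 → (e' = Function.update e.1 p 0) →
        Nat.card {i // e' i ≠ 0} = m := by
      rintro p e' hp rfl
      have h5 : Nat.card {i // Function.update e.1 p 0 i ≠ 0} + 1 = Nat.card {j // e.1 j ≠ 0} := by
        rw [Nat.card_eq_fintype_card, Nat.card_eq_fintype_card, Fintype.card_subtype,
          Fintype.card_subtype]
        have h6 : Finset.univ.filter (fun i => Function.update e.1 p 0 i ≠ 0) =
            (Finset.univ.filter (fun j => e.1 j ≠ 0)).erase p := by
          ext i
          simp only [Finset.mem_filter, Finset.mem_univ, true_and, Finset.mem_erase]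
          by_cases hip : i = p
          · subst hip; simp
          · simp [hip]
        rw [h6, Finset.card_erase_of_mem (by simp [hp])]
        have : 0 < (Finset.univ.filter (fun j => e.1 j ≠ 0)).card :=
          Finset.card_pos.2 ⟨p, by simp [hp]⟩
        omega
      omega
    have hunit : ∀ (p : κ) (i : κ), Function.update e.1 p 0 i = 0 ∨ Function.update e.1 p 0 i = 1 ∨
        Function.update e.1 p 0 i = -1 := by
      intro p i
      by_cases hip : i = p
      · subst hip; simp
      · rw [Function.update_of_ne hip]; exact he i
    -- sums
    have hsum : ∀ (p : κ) (v : κ → ℕ) (y : ℕ), ∑ x, e.1 x * ((Function.update v p y x : ℕ) : ℤ) =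
        e.1 p * y + ∑ x, Function.update e.1 p 0 x * (v x : ℤ) := by
      intro p v y
      rw [← Finset.add_sum_erase _ _ (Finset.mem_univ p)]
      rw [← Finset.add_sum_erase Finset.univ (fun x => Function.update e.1 p 0 x * (v x : ℤ))
        (Finset.mem_univ p)]
      simp only [Function.update_self, zero_mul, zero_add]
      congr 1
      apply Finset.sum_congr rfl
      intro x hx
      rw [Function.update_of_ne (Finset.ne_of_mem_erase hx),
        Function.update_of_ne (Finset.ne_of_mem_erase hx)]
    have hsum0 : ∀ (p : κ) (v : κ → ℕ), ∑ x, Function.update e.1 p 0 x * (v x : ℤ) =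
        ∑ x, e.1 x * (v x : ℤ) - e.1 p * v p := by
      intro p v
      have := hsum p v (v p)
      rw [Function.update_eq_self] at this
      linarith
    apply Rat'.split (J := Bool) Finset.univ (A := fun b u => if b then u j ≤ u i else u i < u j)
    · intro u b b' h1 h2
      cases b <;> cases b' <;> simp_all
      · omega
      · omega
    · intro u _
      by_cases h : u j ≤ u i
      · exact ⟨true, by simp, by simpa using h⟩
      · exact ⟨false, by simp, by simpa using h⟩
    · intro b _
      cases b
      · -- `u i < u j`
        simp only [Bool.false_eq_true, if_false]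
        have haff : Aff (fun v : κ → ℕ => Function.update v j (v j + (v i + 1))) := by
          intro x
          by_cases hx : x = j
          · refine ⟨1, Pi.single j 1 + Pi.single i 1, fun v => ?_⟩
            subst hx
            simp only [Function.update_self, Pi.add_apply, add_mul, Finset.sum_add_distrib]
            simp [Pi.single_apply]
            ring
          · refine ⟨0, Pi.single x 1, fun v => ?_⟩
            simp [hx, Pi.single_apply]
        apply Rat'.of_image haff
        · intro v v' h
          funext x
          by_cases hx : x = j
          · subst hx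
            have h1 := congrFun h x
            have h2 := congrFun h i
            simp only [Function.update_self, Function.update_of_ne hij] at h1 h2
            omega
          · have h1 := congrFun h x
            simpa [hx] using h1
        · rintro u ⟨-, hu⟩
          refine ⟨Function.update u j (u j - u i - 1), ?_⟩
          funext x
          by_cases hx : x = j
          · subst hx
            simp only [Function.update_self, Function.update_of_ne hij]
            omega
          · simp [hx]
        · obtain ⟨L', hL', hLv⟩ := Sys.pull haff L
          have h3 := ih κ (Function.update e.1 i 0, e.2 + 1) L' (by omega) (hunit i)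
            (hcount i _ (by rw [hi]; norm_num) rfl)
          refine h3.congr fun v => ?_
          rw [hLv v]
          have h4 : LinEq e (Function.update v j (v j + (v i + 1))) ↔
              LinEq (Function.update e.1 i 0, e.2 + 1) v := by
            unfold LinEq
            simp only
            rw [hsum j, hsum0 j, hsum0 i, hi, hj]
            push_cast
            constructor
            · intro h; linarith
            · intro h; linarith
          rw [h4]
          simp only [Function.update_self, Function.update_of_ne hij]
          constructor
          · rintro ⟨h5, h6⟩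
            exact ⟨⟨h5, h6⟩, by omega⟩
          · exact fun h => h.1
      · -- `u j ≤ u i`
        simp only [if_true]
        have haff : Aff (fun v : κ → ℕ => Function.update v i (v i + v j)) := by
          intro x
          by_cases hx : x = i
          · refine ⟨0, Pi.single i 1 + Pi.single j 1, fun v => ?_⟩
            subst hx
            simp only [Function.update_self, Pi.add_apply, add_mul, Finset.sum_add_distrib]
            simp [Pi.single_apply]
          · refine ⟨0, Pi.single x 1, fun v => ?_⟩
            simp [hx, Pi.single_apply]
        apply Rat'.of_image haff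
        · intro v v' h
          funext x
          by_cases hx : x = i
          · subst hx
            have h1 := congrFun h x
            have h2 := congrFun h j
            simp only [Function.update_self, Function.update_of_ne hij.symm] at h1 h2
            omega
          · have h1 := congrFun h x
            simpa [hx] using h1
        · rintro u ⟨-, hu⟩
          refine ⟨Function.update u i (u i - u j), ?_⟩
          funext x
          by_cases hx : x = i
          · subst hx
            simp only [Function.update_self, Function.update_of_ne hij.symm]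
            omega
          · simp [hx]
        · obtain ⟨L', hL', hLv⟩ := Sys.pull haff L
          have h3 := ih κ (Function.update e.1 j 0, e.2) L' (by omega) (hunit j)
            (hcount j _ (by rw [hj]; norm_num) rfl)
          refine h3.congr fun v => ?_
          rw [hLv v]
          have h4 : LinEq e (Function.update v i (v i + v j)) ↔
              LinEq (Function.update e.1 j 0, e.2) v := by
            unfold LinEq
            simp only
            rw [hsum i, hsum0 j, hsum0 i, hi, hj]
            push_cast
            constructor
            · intro h; linarith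
            · intro h; linarith
          rw [h4]
          simp only [Function.update_self, Function.update_of_ne hij.symm]
          constructor
          · rintro ⟨h5, h6⟩
            exact ⟨⟨h5, h6⟩, by omega⟩
          · exact fun h => h.1

theorem general_case (n : ℕ) (hn : SysOK n) : SysOK (n + 1) := by
  classical
  intro κ _ L hL
  cases L with
  | nil => simp at hL
  | cons e L =>
    have hL' : L.length = n := by simpa using hL
    have hcons : ∀ u, Sys (e :: L) u ↔ LinEq e u ∧ Sys L u := by
      intro u
      simp [Sys]
    refine Rat'.congr (S := fun u => LinEq e u ∧ Sys L u) ?_ (fun u => (hcons u).symm)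
    let ab : κ → ℕ := fun i => if e.1 i = 0 then 1 else (e.1 i).natAbs
    have hab : ∀ i, ab i ≠ 0 := by
      intro i
      simp only [ab]
      split_ifs with h
      · omega
      · omega
    let M : ℕ := ∏ i, ab i
    have hM : M ≠ 0 := Finset.prod_ne_zero_iff.2 fun i _ => hab i
    let Mi : κ → ℕ := fun i => if e.1 i = 0 then 1 else M / ab i
    have hMi : ∀ i, e.1 i ≠ 0 → Mi i * ab i = M := by
      intro i h
      simp only [Mi, if_neg h]
      exact Nat.div_mul_cancel (Finset.dvd_prod_of_mem _ (Finset.mem_univ i))
    have hMi0 : ∀ i, 0 < Mi i := by
      intro i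
      by_cases h : e.1 i = 0
      · simp [Mi, h]
      · apply Nat.pos_of_ne_zero
        intro h0
        have := hMi i h
        rw [h0, zero_mul] at this
        exact hM this.symm
    have hsgn : ∀ i, e.1 i * (Mi i : ℤ) = (M : ℤ) * (e.1 i).sign := by
      intro i
      by_cases h : e.1 i = 0
      · simp [h]
      · have h1 := hMi i h
        have h2 : (ab i : ℤ) = |e.1 i| := by
          simp only [ab, if_neg h]
          exact Int.natCast_natAbs _
        rw [← h1]
        push_cast
        rw [h2]
        have h3 : (e.1 i).sign * |e.1 i| = e.1 i := Int.sign_mul_abs _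
        linear_combination (-(Mi i : ℤ)) * h3
    apply Rat'.split (J := (i : κ) → Fin (Mi i)) Finset.univ (A := fun s u => ∀ i, u i % Mi i = s i)
    · intro u s s' h1 h2
      funext i
      exact Fin.ext ((h1 i).symm.trans (h2 i))
    · intro u _
      exact ⟨fun i => ⟨u i % Mi i, Nat.mod_lt _ (hMi0 i)⟩, Finset.mem_univ _, fun i => rfl⟩
    · intro s _
      have haff : Aff (fun (v : κ → ℕ) (i : κ) => (s i : ℕ) + Mi i * v i) := by
        intro i
        refine ⟨s i, Pi.single i (Mi i), fun v => ?_⟩
        simp [Pi.single_apply]
      apply Rat'.of_image haff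
      · intro v v' h
        funext i
        have := congrFun h i
        simp only at this
        have h2 : Mi i * v i = Mi i * v' i := by omega
        exact Nat.eq_of_mul_eq_mul_left (hMi0 i) h2
      · rintro u ⟨-, hu⟩
        refine ⟨fun i => u i / Mi i, ?_⟩
        funext i
        have := Nat.mod_add_div (u i) (Mi i)
        rw [hu i] at this
        exact this
      · obtain ⟨L₂, hL₂, hLv⟩ := Sys.pull haff L
        have hlin : ∀ v : κ → ℕ, LinEq e (fun i => (s i : ℕ) + Mi i * v i) ↔
            (M : ℤ) * ∑ i, (e.1 i).sign * (v i : ℤ) = e.2 - ∑ i, e.1 i * (s i : ℕ) := by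
          intro v
          unfold LinEq
          have h1 : ∑ i, e.1 i * (((s i : ℕ) + Mi i * v i : ℕ) : ℤ) =
              ∑ i, e.1 i * ((s i : ℕ) : ℤ) + (M : ℤ) * ∑ i, (e.1 i).sign * (v i : ℤ) := by
            rw [Finset.mul_sum, ← Finset.sum_add_distrib]
            apply Finset.sum_congr rfl
            intro i _
            push_cast
            rw [mul_add, ← mul_assoc, hsgn i]
            ring
          rw [h1]
          constructor
          · intro h; linarith
          · intro h; linarith
        have hmod : ∀ v : κ → ℕ, ∀ i, ((s i : ℕ) + Mi i * v i) % Mi i = s i := by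
          intro v i
          rw [Nat.add_mul_mod_self_left, Nat.mod_eq_of_lt (s i).2]
        by_cases hdvd : (M : ℤ) ∣ e.2 - ∑ i, e.1 i * ((s i : ℕ) : ℤ)
        · obtain ⟨c', hc'⟩ := hdvd
          have h3 := unit_case n hn _ κ (fun i => (e.1 i).sign, c') L₂ (by omega) (by
            intro i
            rcases lt_trichotomy (e.1 i) 0 with h | h | h
            · right; right; exact Int.sign_eq_neg_one_of_neg h
            · left; simp [h]
            · right; left; exact Int.sign_eq_one_of_pos h) rfl
          refine h3.congr fun v => ?_
          rw [hlin, hLv v, hc']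
          have hM' : (M : ℤ) ≠ 0 := by exact_mod_cast hM
          rw [mul_right_inj' hM']
          unfold LinEq
          simp only [hmod, implies_true, and_true]
        · apply Rat'.empty
          rintro v ⟨⟨h1, _⟩, _⟩
          rw [hlin] at h1
          exact hdvd ⟨_, h1.symm⟩

theorem sysOK (n : ℕ) : SysOK n := by
  induction n with
  | zero =>
    intro κ _ L hL
    rw [List.length_eq_zero_iff] at hL
    subst hL
    refine (rat_univ _ κ rfl).congr fun u => ?_
    simp [Sys]
  | succ n ih => exact general_case n ih

end Pool.Agent.Helper345_Quot
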