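import Pool.Agent.Helper345_Quot.Par

/-!
Testing properties of submodules of finite codimension on vectors of bounded degree.
-/

noncomputable section

namespace Pool.Agent.Helper345_Quot

open Polynomial

variable {k : Type*} [Field k] {r : ℕ}

theorem single_smul_mon (i : Fin r) (f : k[X]) :
    f • mon r i 0 = (Pi.single i f : Fin r → k[X]) := by
  unfold mon
  rw [pow_zero, ← Pi.single_smul, smul_eq_mul, mul_one]

theorem vec_eq_sum (v : Fin r → k[X]) : v = ∑ i, v i • mon r i 0 := by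
  funext j
  rw [Finset.sum_apply, Finset.sum_eq_single j]
  · rw [single_smul_mon, Pi.single_eq_same]
  · intro i _ hi
    rw [single_smul_mon, Pi.single_eq_of_ne hi.symm]
  · intro h; exact absurd (Finset.mem_univ _) h

theorem rem_exists {q : k[X]} (hq : q.Monic) (v : Fin r → k[X]) :
    ∃ a b : Fin r → k[X], v = q • a + b ∧ ∀ i, degree (b i) < q.natDegree := by
  refine ⟨fun i => v i /ₘ q, fun i => v i %ₘ q, ?_, fun i => ?_⟩
  · funext i
    have := modByMonic_add_div (v i) q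
    rw [Pi.add_apply, Pi.smul_apply, smul_eq_mul]
    linear_combination -this
  · rw [← degree_eq_natDegree hq.ne_zero]
    exact degree_modByMonic_lt _ hq

theorem le_iff_bdd {N₁ N₂ : Submodule k[X] (Fin r → k[X])} [Module.Finite k ((Fin r → k[X]) ⧸ N₁)]
    {n : ℕ} (hn : Module.finrank k ((Fin r → k[X]) ⧸ N₁) = n) :
    N₁ ≤ N₂ ↔ ∀ c : Fin r × Fin (n + 1) → k, vecOf c ∈ N₁ → vecOf c ∈ N₂ := by
  constructor
  · intro h c hc
    exact h hc
  · intro h v hv
    obtain ⟨q, hq, hd, hqm⟩ := exists_monic N₁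
    rw [hn] at hd
    obtain ⟨a, b, hab, hb⟩ := rem_exists hq v
    have hbN : b ∈ N₁ := by
      have : b = v - q • a := by rw [hab]; abel
      rw [this]; exact N₁.sub_mem hv (hqm a)
    have h1 : ∀ u ∈ N₁, (∀ i, degree (u i) < ((n + 1 : ℕ) : WithBot ℕ)) → u ∈ N₂ := by
      intro u hu hdu
      obtain ⟨c, rfl⟩ := exists_vecOf u hdu
      exact h c hu
    rw [hab]
    apply N₂.add_mem
    · rw [vec_eq_sum a, Finset.smul_sum]
      apply Submodule.sum_mem
      intro i _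
      rw [smul_comm]
      apply N₂.smul_mem
      apply h1 _ (hqm _)
      intro j
      rw [single_smul_mon]
      by_cases hij : j = i
      · subst hij
        rw [Pi.single_eq_same, degree_eq_natDegree hq.ne_zero, hd]
        exact_mod_cast Nat.lt_succ_self n
      · rw [Pi.single_eq_of_ne hij, degree_zero]
        exact WithBot.bot_lt_coe _
    · apply h1 b hbN
      intro i
      refine (hb i).trans ?_
      rw [hd]
      exact_mod_cast Nat.lt_succ_self n

theorem supp_of_pow {l : k} {N : Submodule k[X] (Fin r → k[X])} {n : ℕ}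
    (h : ∀ i, (X - C l) ^ n • mon r i 0 ∈ N) : ∀ v, (X - C l) ^ n • v ∈ N := by
  intro v
  rw [vec_eq_sum v, Finset.smul_sum]
  apply Submodule.sum_mem
  intro i _
  rw [smul_comm]
  exact N.smul_mem _ (h i)

theorem Pl_eq_of_pow {l : k} {N : Submodule k[X] (Fin r → k[X])} {n : ℕ}
    (h : ∀ v, (X - C l) ^ n • v ∈ N) : Pl l N = N := by
  apply le_antisymm _ (le_Pl l N)
  rintro v ⟨p, hp, hpv⟩
  obtain ⟨a, b, hab⟩ := coprime_of_eval hp n
  have h1 : v = a • ((X - C l) ^ n • v) + b • (p • v) := by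
    rw [← mul_smul, ← mul_smul, ← add_smul, hab, one_smul]
  rw [h1]
  exact N.add_mem (N.smul_mem _ (h v)) (N.smul_mem _ hpv)

theorem supp_iff {l : k} {N : Submodule k[X] (Fin r → k[X])}
    [Module.Finite k ((Fin r → k[X]) ⧸ N)] {n : ℕ}
    (hn : Module.finrank k ((Fin r → k[X]) ⧸ N) = n) :
    Pl l N = N ↔ ∀ i, (X - C l) ^ n • mon r i 0 ∈ N := by
  constructor
  · intro h i
    rw [← hn]
    exact pow_smul_mem l h _
  · intro h
    exact Pl_eq_of_pow (supp_of_pow h)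

theorem away_iff {l : k} {N : Submodule k[X] (Fin r → k[X])}
    [Module.Finite k ((Fin r → k[X]) ⧸ N)] {n : ℕ}
    (hn : Module.finrank k ((Fin r → k[X]) ⧸ N) = n) :
    Pl l N = ⊤ ↔ ∀ i, ∃ c : Fin r × Fin n → k, mon r i 0 - (X - C l) • vecOf c ∈ N := by
  constructor
  · intro h i
    have h1 : mon r i 0 ∈ Pl l N := by rw [h]; trivial
    obtain ⟨p, hp, hpm⟩ := h1
    obtain ⟨q, hq, hd, hqm⟩ := exists_monic N
    rw [hn] at hd
    -- p = p(l) + (X - l) p₁
    have hdiv : X - C l ∣ p - C (p.eval l) := by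
      rw [dvd_iff_isRoot]; simp
    obtain ⟨p₁, hp₁⟩ := hdiv
    set u : Fin r → k[X] := (-(C (p.eval l)⁻¹ * p₁)) • mon r i 0 with hu
    obtain ⟨a, b, hab, hb⟩ := rem_exists hq u
    rw [hd] at hb
    obtain ⟨c, rfl⟩ := exists_vecOf b hb
    refine ⟨c, ?_⟩
    have h2 : mon r i 0 - (X - C l) • vecOf c =
        (C (p.eval l)⁻¹) • (p • mon r i 0) + (X - C l) • (q • a) := by
      have h3 : vecOf c = u - q • a := by rw [hab]; abel
      have h4 : C (p.eval l)⁻¹ * C (p.eval l) = 1 := by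
        rw [← C_mul, inv_mul_cancel₀ hp, C_1]
      have h5 : (1 : k[X]) + (X - C l) * (C (p.eval l)⁻¹ * p₁) = C (p.eval l)⁻¹ * p := by
        have : p = C (p.eval l) + (X - C l) * p₁ := by rw [← hp₁]; ring
        linear_combination (-1 : k[X]) * h4 - C (p.eval l)⁻¹ * this
      have h6 : (X - C l) • u = mon r i 0 - (C (p.eval l)⁻¹ * p) • mon r i 0 := by
        rw [hu, ← mul_smul, ← h5, add_smul, one_smul, mul_neg, neg_smul]
        abel
      rw [h3, smul_sub, h6, mul_smul]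
      abel
    rw [h2]
    exact N.add_mem (N.smul_mem _ hpm) (N.smul_mem _ (hqm a))
  · intro h
    have h1 : ∀ v : Fin r → k[X], ∃ u : Fin r → k[X], v - (X - C l) • u ∈ N := by
      intro v
      choose c hc using h
      refine ⟨∑ i, v i • vecOf (c i), ?_⟩
      have : v - (X - C l) • ∑ i, v i • vecOf (c i) =
          ∑ i, v i • (mon r i 0 - (X - C l) • vecOf (c i)) := by
        conv_lhs => rw [vec_eq_sum v]
        simp only [smul_sub, Finset.sum_sub_distrib]
        congr 1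
        rw [← vec_eq_sum v, Finset.smul_sum]
        apply Finset.sum_congr rfl
        intro i _
        rw [smul_comm]
      rw [this]
      exact Submodule.sum_mem _ fun i _ => N.smul_mem _ (hc i)
    have h2 : ∀ (j : ℕ) (v : Fin r → k[X]), ∃ u : Fin r → k[X], v - (X - C l) ^ j • u ∈ N := by
      intro j
      induction j with
      | zero => intro v; exact ⟨v, by simp⟩
      | succ j ih =>
        intro v
        obtain ⟨u, hu⟩ := ih v
        obtain ⟨u', hu'⟩ := h1 u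
        refine ⟨u', ?_⟩
        have : v - (X - C l) ^ (j + 1) • u' = (v - (X - C l) ^ j • u) +
            (X - C l) ^ j • (u - (X - C l) • u') := by
          rw [smul_sub, ← mul_smul, ← pow_succ]
          abel
        rw [this]
        exact N.add_mem hu (N.smul_mem _ hu')
    rw [eq_top_iff]
    intro v _
    obtain ⟨j, p, hp, -, hjp⟩ := exists_split N l
    obtain ⟨u, hu⟩ := h2 j v
    refine ⟨p, hp, ?_⟩
    have : p • v = p • (v - (X - C l) ^ j • u) + ((X - C l) ^ j * p) • u := by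
      rw [smul_sub, ← mul_smul, mul_comm p]
      abel
    rw [this]
    exact N.add_mem (N.smul_mem _ hu) (hjp u)

theorem Al_eq_of_away {l : k} {N : Submodule k[X] (Fin r → k[X])} (h : Pl l N = ⊤) :
    Al l N = N := by
  conv_rhs => rw [← Pl_inf_Al l N, h, top_inf_eq]

theorem Al_of_supp {l : k} {N : Submodule k[X] (Fin r → k[X])}
    [Module.Finite k ((Fin r → k[X]) ⧸ N)] (h : Pl l N = N) : Al l N = ⊤ := by
  rw [← h]
  exact Al_Pl N l

theorem supp_away_sup {l : k} {N₁ N₂ : Submodule k[X] (Fin r → k[X])}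
    [Module.Finite k ((Fin r → k[X]) ⧸ N₁)] [Module.Finite k ((Fin r → k[X]) ⧸ N₂)]
    (h1 : Pl l N₁ = N₁) (h2 : Pl l N₂ = ⊤) : N₁ ⊔ N₂ = ⊤ := by
  rw [eq_top_iff]
  intro v _
  obtain ⟨j, p, hp, -, hjp⟩ := exists_split N₂ l
  have h3 : p • v ∈ N₂ := by
    rw [← Al_eq_of_away h2]
    refine ⟨j, ?_⟩
    rw [← mul_smul]
    exact hjp v
  have h4 := pow_smul_mem l h1 v
  obtain ⟨a, b, hab⟩ := coprime_of_eval hp (Module.finrank k ((Fin r → k[X]) ⧸ N₁))
  rw [Submodule.mem_sup]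
  refine ⟨a • ((X - C l) ^ (Module.finrank k ((Fin r → k[X]) ⧸ N₁)) • v), N₁.smul_mem _ h4,
    b • (p • v), N₂.smul_mem _ h3, ?_⟩
  rw [← mul_smul, ← mul_smul, ← add_smul, hab, one_smul]

variable {Op Ve : Type} (T : Op → Matrix (Fin r) (Fin r) k[X]) (w : Ve → Fin r → k[X])

/-- the set of stable submodules of given codimension -/
def QN (n : ℕ) : Set (Submodule k[X] (Fin r → k[X])) :=
  {N | Stab T w N ∧ Module.Finite k ((Fin r → k[X]) ⧸ N) ∧
    Module.finrank k ((Fin r → k[X]) ⧸ N) = n}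

variable {T w}

theorem stab_Pl {N : Submodule k[X] (Fin r → k[X])} (h : Stab T w N) (l : k) :
    Stab T w (Pl l N) := by
  constructor
  · rintro o v ⟨p, hp, hpv⟩
    refine ⟨p, hp, ?_⟩
    have := h.1 o _ hpv
    rw [Matrix.smul_vecMul] at this
    exact this
  · intro j
    exact le_Pl l N (h.2 j)

theorem stab_Al {N : Submodule k[X] (Fin r → k[X])} (h : Stab T w N) (l : k) :
    Stab T w (Al l N) := by
  constructor
  · rintro o v ⟨j, hj⟩
    refine ⟨j, ?_⟩
    have := h.1 o _ hj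
    rw [Matrix.smul_vecMul] at this
    exact this
  · intro j
    exact le_Al l N (h.2 j)

theorem stab_inf {N₁ N₂ : Submodule k[X] (Fin r → k[X])} (h₁ : Stab T w N₁) (h₂ : Stab T w N₂) :
    Stab T w (N₁ ⊓ N₂) := by
  constructor
  · rintro o v ⟨h3, h4⟩
    exact ⟨h₁.1 o v h3, h₂.1 o v h4⟩
  · intro j
    exact ⟨h₁.2 j, h₂.2 j⟩

theorem mem_QN_Pl {n : ℕ} {N : Submodule k[X] (Fin r → k[X])} (h : N ∈ QN T w n) (l : k) :
    Pl l N ∈ QN T w (ll l N) := by
  have := h.2.1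
  exact ⟨stab_Pl h.1 l, finite_of_le (le_Pl l N), rfl⟩

theorem mem_QN_Al {n : ℕ} {N : Submodule k[X] (Fin r → k[X])} (h : N ∈ QN T w n) (l : k) :
    Al l N ∈ QN T w (n - ll l N) := by
  have := h.2.1
  refine ⟨stab_Al h.1 l, finite_of_le (le_Al l N), ?_⟩
  have h1 := finrank_split l N
  have h2 := h.2.2
  omega

theorem mem_QN_inf {n m : ℕ} {l : k} {N₁ N₂ : Submodule k[X] (Fin r → k[X])} (h₁ : N₁ ∈ QN T w n)
    (h₂ : N₂ ∈ QN T w m) (hs : Pl l N₁ = N₁) (ha : Pl l N₂ = ⊤) : N₁ ⊓ N₂ ∈ QN T w (n + m) := by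
  have := h₁.2.1
  have := h₂.2.1
  obtain ⟨h3, h4⟩ := finrank_inf (supp_away_sup hs ha)
  refine ⟨stab_inf h₁.1 h₂.1, h3, ?_⟩
  rw [h4, h₁.2.2, h₂.2.2]

/-- characterisation of the local decomposition -/
theorem decomp_iff {n m : ℕ} {l : k} {N N₁ N₂ : Submodule k[X] (Fin r → k[X])}
    (h : N ∈ QN T w (n + m)) (h₁ : N₁ ∈ QN T w n) (h₂ : N₂ ∈ QN T w m) :
    (N ≤ N₁ ∧ N ≤ N₂ ∧ Pl l N₁ = N₁ ∧ Pl l N₂ = ⊤) ↔ (N₁ = Pl l N ∧ N₂ = Al l N) := by
  have := h.2.1
  have := h₁.2.1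
  have := h₂.2.1
  constructor
  · rintro ⟨ha, hb, hc, hd⟩
    have h3 : N = N₁ ⊓ N₂ := by
      apply eq_of_le_finrank (le_inf ha hb)
      rw [(mem_QN_inf h₁ h₂ hc hd).2.2, h.2.2]
    constructor
    · rw [h3, Pl_inf, hc, hd, inf_top_eq]
    · rw [h3, Al_inf, Al_of_supp hc, Al_eq_of_away hd, top_inf_eq]
  · rintro ⟨rfl, rfl⟩
    exact ⟨le_Pl l N, le_Al l N, Pl_Pl l N, Pl_Al N l⟩

end Pool.Agent.Helper345_Quot
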