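import Mathlib.Analysis.Normed.Unbundled.SpectralNorm
import Mathlib.RingTheory.LaurentSeries
import Mathlib.FieldTheory.IsAlgClosed.AlgebraicClosure
import Mathlib.FieldTheory.Galois.Basic
import Mathlib.FieldTheory.Galois.Infinite
import Mathlib.Data.Int.WithZero
import Mathlib.Topology.Algebra.Valued.NormedValued
import Mathlib.Tactic

/-!
The algebraic closure of the Laurent series field as a valued field.
-/

noncomputable section

namespace Pool.Agent.Helper345_Quot

open PowerSeries WithZero MonoidWithZeroHom MonoidWithZeroHom.ValueGroup₀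
open scoped NNReal

variable (k : Type*) [Field k]

section norm

/-- the rank one structure on the valuation of Laurent series -/
@[instance_reducible]
def rankOneLS : Valuation.RankOne (Valued.v : Valuation (LaurentSeries k) ℤᵐ⁰) where
  hom' := (WithZeroMulInt.toNNReal (e := 2) two_ne_zero).comp ValueGroup₀.embedding
  strictMono' := (WithZeroMulInt.toNNReal_strictMono (by norm_num)).comp
    ValueGroup₀.embedding_strictMono
  exists_val_nontrivial := by
    refine ⟨HahnSeries.single 1 1, ?_, ?_⟩
    · rw [Valuation.ne_zero_iff]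
      simp
    · have := LaurentSeries.valuation_single_zpow k 1
      rw [this]
      decide

/-- normed field structure -/
@[instance_reducible]
def nfLS : NontriviallyNormedField (LaurentSeries k) :=
  letI := rankOneLS k
  Valued.toNontriviallyNormedField (LaurentSeries k) ℤᵐ⁰

theorem ultraLS : letI := nfLS k; IsUltrametricDist (LaurentSeries k) := by
  let _ := rankOneLS k
  exact Valued.instIsUltrametricDist (LaurentSeries k) ℤᵐ⁰

theorem completeLS : letI := nfLS k; CompleteSpace (LaurentSeries k) :=
  LaurentSeries.instLaurentSeriesComplete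

theorem normLS (x : LaurentSeries k) : (nfLS k).norm x =
    WithZeroMulInt.toNNReal (e := 2) two_ne_zero (Valued.v x) := by
  change ((WithZeroMulInt.toNNReal (e := 2) two_ne_zero
    (ValueGroup₀.embedding ((Valued.v : Valuation (LaurentSeries k) ℤᵐ⁰).restrict x)) : ℝ≥0) : ℝ) = _
  rw [Valuation.embedding_restrict]

end norm

/-- An algebraic closure of the field of Laurent series. -/
def LL : Type _ := AlgebraicClosure (LaurentSeries k)

instance : Field (LL k) := inferInstanceAs (Field (AlgebraicClosure (LaurentSeries k)))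
instance : IsAlgClosed (LL k) := inferInstanceAs (IsAlgClosed (AlgebraicClosure (LaurentSeries k)))
instance : Algebra (LaurentSeries k) (LL k) :=
  inferInstanceAs (Algebra (LaurentSeries k) (AlgebraicClosure (LaurentSeries k)))
instance : Algebra.IsAlgebraic (LaurentSeries k) (LL k) :=
  inferInstanceAs (Algebra.IsAlgebraic (LaurentSeries k) (AlgebraicClosure (LaurentSeries k)))
instance : IsAlgClosure (LaurentSeries k) (LL k) :=
  inferInstanceAs (IsAlgClosure (LaurentSeries k) (AlgebraicClosure (LaurentSeries k)))

/-- power series inside the algebraic closure -/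
def emb : k⟦X⟧ →+* LL k :=
  (algebraMap (LaurentSeries k) (LL k)).comp (HahnSeries.ofPowerSeries ℤ k)

theorem emb_injective : Function.Injective (emb k) :=
  (algebraMap (LaurentSeries k) (LL k)).injective.comp HahnSeries.ofPowerSeries_injective

/-- the absolute value -/
def nrm : AbsoluteValue (LL k) ℝ :=
  letI := nfLS k
  haveI := ultraLS k
  haveI := completeLS k
  { toFun := fun u => spectralMulAlgNorm (LaurentSeries k) (LL k) u
    map_mul' := fun _ _ => map_mul _ _ _
    nonneg' := fun _ => apply_nonneg _ _
    eq_zero' := fun _ => map_eq_zero_iff_eq_zero _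
    add_le' := fun _ _ => map_add_le_add _ _ _ }

theorem nrm_def (u : LL k) : nrm k u =
    @spectralNorm (LaurentSeries k) (nfLS k).toNormedField (LL k) _ _ u := rfl

theorem nrm_nonarch : IsNonarchimedean (nrm k) := by
  let _ := nfLS k
  have := ultraLS k
  have := completeLS k
  intro x y
  exact isNonarchimedean_spectralNorm x y

theorem nrm_algebraMap (x : LaurentSeries k) :
    nrm k (algebraMap _ _ x) = WithZeroMulInt.toNNReal (e := 2) two_ne_zero (Valued.v x) := by
  let _ := nfLS k
  have := ultraLS k
  have := completeLS k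
  rw [nrm_def, spectralNorm_extends, ← normLS]

/-- coded valuation of a power series: `0` for the zero series, `order + 1` otherwise. -/
def nu (f : k⟦X⟧) : ℕ := open Classical in if f = 0 then 0 else f.order.toNat + 1

theorem nrm_emb_X : nrm k (emb k X) = 1 / 2 := by
  have h1 : emb k X = algebraMap _ _ (HahnSeries.single (1 : ℤ) (1 : k)) := by
    simp [emb]
  rw [h1, nrm_algebraMap, LaurentSeries.valuation_single_zpow]
  have h2 : (WithZeroMulInt.toNNReal (e := 2) two_ne_zero (WithZero.exp (-1 : ℤ))) =
      2 ^ (-1 : ℤ) := by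
    rw [WithZeroMulInt.toNNReal_neg_apply _ WithZero.exp_ne_zero]
    rfl
  rw [h2]
  simp

theorem nrm_emb_le_one (f : k⟦X⟧) : nrm k (emb k f) ≤ 1 := by
  have h1 : emb k f = algebraMap _ _ (HahnSeries.ofPowerSeries ℤ k f) := rfl
  rw [h1, nrm_algebraMap]
  have h2 : Valued.v (HahnSeries.ofPowerSeries ℤ k f) ≤ (1 : ℤᵐ⁰) :=
    (LaurentSeries.val_le_one_iff_eq_coe k _).2 ⟨f, rfl⟩
  have h3 := (WithZeroMulInt.toNNReal_strictMono (e := 2) (by norm_num)).monotone h2
  rw [map_one] at h3
  exact_mod_cast h3

theorem nrm_emb_unit (f : k⟦X⟧) (hf : IsUnit f) : nrm k (emb k f) = 1 := by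
  obtain ⟨u, rfl⟩ := hf
  have h1 := nrm_emb_le_one k (u : k⟦X⟧)
  have h2 := nrm_emb_le_one k ((u⁻¹ : (k⟦X⟧)ˣ) : k⟦X⟧)
  have h3 : nrm k (emb k (u : k⟦X⟧)) * nrm k (emb k ((u⁻¹ : (k⟦X⟧)ˣ) : k⟦X⟧)) = 1 := by
    rw [← map_mul, ← map_mul, Units.mul_inv, map_one, map_one]
  have h4 := (nrm k).nonneg (emb k (u : k⟦X⟧))
  nlinarith

theorem nrm_emb (f : k⟦X⟧) (hf : f ≠ 0) : nrm k (emb k f) = (1 / 2) ^ (f.order.toNat) := by
  have h1 := PowerSeries.X_pow_order_mul_divXPowOrder (f := f)
  have h2 : IsUnit (divXPowOrder f) := isUnit_divided_by_X_pow_order hf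
  conv_lhs => rw [← h1]
  rw [map_mul, map_pow, map_mul, map_pow, nrm_emb_X, nrm_emb_unit k _ h2, mul_one]

theorem nrm_le_one_mem (x : LaurentSeries k) (h : nrm k (algebraMap _ _ x) ≤ 1) :
    ∃ f : k⟦X⟧, emb k f = algebraMap _ _ x := by
  rw [nrm_algebraMap] at h
  have h1 : Valued.v x ≤ (1 : ℤᵐ⁰) := by
    by_contra hc
    push Not at hc
    have := (WithZeroMulInt.toNNReal_strictMono (e := 2) (by norm_num)) hc
    rw [map_one] at this
    have h' : (1 : ℝ) < (WithZeroMulInt.toNNReal (e := 2) two_ne_zero (Valued.v x)) := by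
      exact_mod_cast this
    linarith
  obtain ⟨f, hf⟩ := (LaurentSeries.val_le_one_iff_eq_coe k _).1 h1
  exact ⟨f, by rw [← hf]; rfl⟩

/-- Galois invariance -/
theorem nrm_galois (σ : LL k ≃ₐ[LaurentSeries k] LL k) (u : LL k) : nrm k (σ u) = nrm k u := by
  let _ := nfLS k
  rw [nrm_def, nrm_def]
  exact (spectralNorm_eq_of_equiv σ u).symm

theorem fixed_mem [CharZero k] (u : LL k)
    (h : ∀ σ : LL k ≃ₐ[LaurentSeries k] LL k, σ u = u) :
    ∃ x : LaurentSeries k, algebraMap _ _ x = u := by
  have : CharZero (LaurentSeries k) := by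
    have : Function.Injective (algebraMap k (LaurentSeries k)) := (algebraMap k _).injective
    exact charZero_of_injective_algebraMap this
  have : IsGalois (LaurentSeries k) (LL k) := by
    constructor
  exact (InfiniteGalois.mem_range_algebraMap_iff_fixed u).2 h

/-- the residue field of the algebraic closure is `k` -/
theorem residue [IsAlgClosed k] (u : LL k) (hu : nrm k u ≤ 1) :
    ∃ a : k, nrm k (u - emb k (C a)) < 1 := by
  let _ := nfLS k
  have := ultraLS k
  have := completeLS k
  have hint : IsIntegral (LaurentSeries k) u := Algebra.IsIntegral.isIntegral u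
  set P := minpoly (LaurentSeries k) u with hP
  have hmon : P.Monic := minpoly.monic hint
  have hcoef : ∀ n, ‖P.coeff n‖ ≤ 1 := by
    have : spectralValue P ≤ 1 := hu
    exact (spectralValue_le_one_iff hmon).1 this
  have hcoef' : ∀ n, ∃ f : k⟦X⟧, emb k f = algebraMap _ _ (P.coeff n) := by
    intro n
    apply nrm_le_one_mem
    rw [nrm_def, spectralNorm_extends]
    exact hcoef n
  choose f hf using hcoef'
  -- the polynomial over `k`
  let d := P.natDegree
  let Q : Polynomial k := ∑ n ∈ Finset.range (d + 1), Polynomial.C (constantCoeff (f n)) * Polynomial.X ^ n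
  have hfd : f d = 1 := by
    apply emb_injective k
    rw [hf, map_one]
    have : P.coeff d = 1 := hmon
    rw [this, map_one]
  have hQm : Q.Monic := by
    apply Polynomial.monic_of_natDegree_le_of_coeff_eq_one d
    · apply Polynomial.natDegree_sum_le_of_forall_le
      intro n hn
      refine (Polynomial.natDegree_C_mul_X_pow_le _ _).trans ?_
      have := Finset.mem_range.1 hn
      omega
    · rw [Polynomial.finsetSum_coeff]
      simp only [Polynomial.coeff_C_mul, Polynomial.coeff_X_pow, mul_ite, mul_one, mul_zero,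
        Finset.sum_ite_eq, Finset.mem_range]
      rw [if_pos (by omega), hfd]
      simp
  have hsplit : Q.Splits := IsAlgClosed.splits Q
  have hprod : Q = (Q.roots.map (fun a => Polynomial.X - Polynomial.C a)).prod := by
    have := hsplit.eq_prod_roots
    rw [hQm.leadingCoeff, Polynomial.C_1, one_mul] at this
    exact this
  -- evaluate
  let j : k →+* LL k := (emb k).comp (C (R := k))
  have hev1 : Q.eval₂ j u = (Q.roots.map (fun a => u - emb k (C a))).prod := by
    conv_lhs => rw [hprod]
    rw [Polynomial.eval₂_multiset_prod, Multiset.map_map]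
    congr 1
    apply Multiset.map_congr rfl
    intro a _
    simp [j]
  have hPu : ∑ n ∈ Finset.range (d + 1), emb k (f n) * u ^ n = 0 := by
    have h1 := minpoly.aeval (LaurentSeries k) u
    rw [← hP, Polynomial.aeval_eq_sum_range] at h1
    rw [← h1]
    apply Finset.sum_congr rfl
    intro n _
    rw [hf, Algebra.smul_def]
  have hev2 : Q.eval₂ j u = ∑ n ∈ Finset.range (d + 1),
      (emb k (C (constantCoeff (f n)) - f n)) * u ^ n := by
    have h1 : Q.eval₂ j u = ∑ n ∈ Finset.range (d + 1),
      (emb k (C (constantCoeff (f n)))) * u ^ n := by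
      simp only [Q, Polynomial.eval₂_finsetSum, Polynomial.eval₂_mul, Polynomial.eval₂_C,
        Polynomial.eval₂_pow, Polynomial.eval₂_X]
      rfl
    rw [h1]
    simp only [map_sub, sub_mul, Finset.sum_sub_distrib]
    rw [hPu, sub_zero]
  have hlt : nrm k (Q.eval₂ j u) < 1 := by
    rw [hev2]
    have hle : nrm k (∑ n ∈ Finset.range (d + 1),
      (emb k (C (constantCoeff (f n)) - f n)) * u ^ n) ≤ 1 / 2 := by
      apply Finset.sum_induction _ (fun x => nrm k x ≤ 1 / 2)
      · intro a b ha hb
        exact (nrm_nonarch k a b).trans (max_le ha hb)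
      · simp
      · intro n _
        rw [map_mul, map_pow]
        have h1 : nrm k u ^ n ≤ 1 := pow_le_one₀ ((nrm k).nonneg _) hu
        have h2 : nrm k (emb k (C (constantCoeff (f n)) - f n)) ≤ 1 / 2 := by
          have : X ∣ (C (constantCoeff (f n)) - f n) := by
            rw [PowerSeries.X_dvd_iff]
            simp
          obtain ⟨g, hg⟩ := this
          rw [hg, map_mul, map_mul, nrm_emb_X]
          have := nrm_emb_le_one k g
          have := (nrm k).nonneg (emb k g)
          linarith
        have h3 := (nrm k).nonneg (emb k (C (constantCoeff (f n)) - f n))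
        have h4 : 0 ≤ nrm k u ^ n := pow_nonneg ((nrm k).nonneg _) n
        nlinarith
    linarith
  rw [hev1] at hlt
  by_contra hcon
  push Not at hcon
  have : 1 ≤ nrm k (Q.roots.map (fun a => u - emb k (C a))).prod := by
    have key : ∀ s : Multiset k, 1 ≤ nrm k (s.map (fun a => u - emb k (C a))).prod := by
      intro s
      induction s using Multiset.induction_on with
      | empty => simp
      | cons a s ih =>
        rw [Multiset.map_cons, Multiset.prod_cons, map_mul]
        have := hcon a
        nlinarith
    exact key _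
  linarith

end Pool.Agent.Helper345_Quot
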